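import Pool.Agent.P.MP_9c97e9_nt.K2.Defs

/-! The central value of the twists. -/

namespace Pool.Agent.P.MP_9c97e9_nt.K2

open MP_8b7eba_nt MP_8b7eba_nt.R3 Finset
open MP_8b7eba_nt.Mod (nP nM L0 om I0)
open scoped Real

namespace TALV

theorem cd_pos {d : ℤ} (h : d ≠ 0) : 0 < cd d := by
  unfold cd ds
  split_ifs <;> omega

theorem ds_neg {d : ℤ} (h : d < 0) : ds d = -(cd d : ℤ) := by
  unfold cd ds
  split_ifs <;> omega

theorem ds_pos {d : ℤ} (h : 0 < d) : ds d = (cd d : ℤ) := by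
  unfold cd ds
  split_ifs <;> omega

theorem cub_eq (d : ℤ) (x : ℝ) :
    cub (twa d) x = 4 * x ^ 3 - 7 * (ds d : ℤ) * x ^ 2 - 36 * ((ds d : ℤ) : ℝ) ^ 2 * x := by
  unfold twa ds
  split_ifs with h
  · have h4 : 4 * ((-7 * d - 1) / 4) = -7 * d - 1 := by omega
    simp only [cub, WeierstrassCurve.b₂, WeierstrassCurve.b₄, WeierstrassCurve.b₆, h4]
    push_cast
    ring
  · simp only [cub, WeierstrassCurve.b₂, WeierstrassCurve.b₄, WeierstrassCurve.b₆]
    push_cast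
    ring

theorem per_neg {d : ℤ} (h : d < 0) : period (twa d) = 4 * I0 / √(cd d) := by
  have h1 : ∀ x, cub (twa d) x = 4 * x ^ 3 + 7 * (cd d : ℝ) * x ^ 2 - 36 * (cd d : ℝ) ^ 2 * x :=
    fun x => by
      rw [cub_eq, ds_neg h]
      push_cast
      ring
  rw [period, MeasureTheory.setIntegral_eq_integral_of_forall_compl_eq_zero fun x hx => by
    rw [Real.sqrt_eq_zero'.2 (not_lt.1 hx), div_zero],
    ← (Mod.real_period (n := cd d) (by exact_mod_cast cd_pos h.ne)).2,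
    ← MeasureTheory.integral_const_mul]
  simp only [h1, mul_one_div]

theorem isL {d : ℤ} (h1 : Squarefree d) {L : ℂ → ℂ} (a1 : Differentiable ℂ L)
    (a2 : ∀ s : ℂ, 3 / 2 < s.re → L s = LSeries (fun n => DLEX.ch d n * Mod.an n) s) :
    IsL (twa d) L := by
  refine ⟨a1, fun s hs => ?_⟩
  rw [a2 s hs]
  refine (DLEX.euler_ch t_KC h1 hs).2.congr_fun fun ⟨p, hp⟩ => ?_
  simp only [Mod.eul, MM.ap_eq h1 hp, MM.dvd_disc hp, DLEX.ch]
  push_cast
  congr 2
  by_cases h15 : p ∣ 15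
  · simp [h15]
  have hp' := Nat.prime_iff_prime_int.1 hp
  rcases t_KC.tri d p h1 with ⟨a, b⟩ | ⟨a, b⟩
  · rw [hp'.coprime_iff_not_dvd] at a
    rcases b with b | b <;> simp [h15, a, b]
  · rw [hp'.coprime_iff_not_dvd, not_not] at a
    simp [h15, a, b]

theorem kc_sub {d : ℤ} (h1 : Squarefree d) (a : ℤ) : kc d (cd d - a) = d.sign * kc d a := by
  rw [t_KC.per d (cd d - a) (-1 * a) h1 (by
    rw [show (cd d : ℤ) - a - -1 * a = cd d by ring]
    exact Int.dvd_natAbs.2 dvd_rfl), t_KC.mul, t_KC.neg d h1]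

theorem gauss_sq {d : ℤ} (h1 : Squarefree d) {τ : ℂ} (hG : ∀ n : ℕ, ∑ a ∈ range (cd d),
    (kc d a : ℂ) * Complex.exp (2 * π * Complex.I * (a * n / cd d)) = kc d n * τ) :
    τ ^ 2 = d.sign * cd d := by
  have h0 := cd_pos h1.ne_zero
  have hk := kc_sub h1 1
  generalize cd d = n at *
  obtain ⟨ζ, hζ⟩ : ∃ ζ, ζ = Complex.exp (2 * π * Complex.I / n) := ⟨_, rfl⟩
  have hprim : IsPrimitiveRoot ζ n := hζ ▸ Complex.isPrimitiveRoot_exp n h0.ne'
  have he : ∀ a m : ℕ, Complex.exp (2 * π * Complex.I * (a * m / n)) = (ζ ^ a) ^ m := by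
    intro a m
    rw [hζ, ← pow_mul, ← Complex.exp_nat_mul]
    congr 1
    push_cast
    ring
  simp only [he] at hG
  have h5 : ∑ a ∈ range n, (kc d a : ℂ) * ζ ^ a = τ := by simpa [t_KC.one] using hG 1
  have h6 : τ ^ 2 = ∑ b ∈ range n, (kc d b : ℂ) * ∑ a ∈ range n, (ζ ^ (b + 1)) ^ a := by
    simp only [mul_sum]
    rw [sum_comm, sq]
    nth_rewrite 1 [← h5]
    rw [sum_mul]
    refine sum_congr rfl fun a _ => ?_
    rw [mul_right_comm, ← hG a, sum_mul]
    refine sum_congr rfl fun b _ => ?_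
    ring
  rw [h6, sum_eq_single (n - 1)]
  · rw [Nat.cast_sub h0, Nat.cast_one, hk, t_KC.one, Nat.sub_add_cancel h0, hprim.pow_eq_one]
    simp
  · intro b hb hb1
    have hb' := mem_range.1 hb
    have h7 : ζ ^ (b + 1) ≠ 1 := hprim.pow_ne_one_of_pos_of_lt b.succ_ne_zero (by omega)
    have h8 := mul_geom_sum (ζ ^ (b + 1)) n
    rw [← pow_mul, mul_comm (b + 1) n, pow_mul, hprim.pow_eq_one, one_pow, sub_self] at h8
    rw [(mul_eq_zero.1 h8).resolve_left (sub_ne_zero.2 h7), mul_zero]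
  · intro h
    exact absurd (mem_range.2 (by omega)) h

theorem sum_odd {n : ℕ} {f : ℤ → ℤ} (h : ∀ a, f (n - a) = -f a) (h0 : f n = 0) :
    ∑ a ∈ range n, f a = 0 := by
  have h1 := sum_range_reflect (fun a : ℕ => f a) (n + 1)
  rw [sum_congr rfl fun a ha => show f ((n + 1 - 1 - a : ℕ) : ℤ) = -f a by
    rw [Nat.add_sub_cancel, Nat.cast_sub (Nat.le_of_lt_succ (mem_range.1 ha)), h],
    sum_neg_distrib, sum_range_succ, h0] at h1
  omega

theorem n_sub (a c : ℤ) : nP (c - a) c = nP a c ∧ nM (c - a) c = -nM a c := by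
  have h1 := Mod.nP_add_mul (-a) c 1
  have h2 := Mod.nP_neg a c
  rw [show -a + 1 * c = c - a by ring] at h1
  exact ⟨h1.1.trans h2.1, h1.2.trans h2.2⟩

theorem n_self (c : ℤ) : nP c c = nP 0 c ∧ nM c c = nM 0 c := by
  simpa using Mod.nP_add_mul 0 c 1

theorem kc_self {d : ℤ} (h1 : Squarefree d) : kc d (cd d) = kc d 0 :=
  t_KC.per d _ _ h1 (by rw [sub_zero]; exact Int.dvd_natAbs.2 dvd_rfl)

theorem sumP {d : ℤ} (h1 : Squarefree d) (h : d < 0) :
    ∑ a ∈ range (cd d), kc d a * nP a (cd d) = 0 := by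
  have e : ∀ a, kc d (cd d - a) * nP (cd d - a) (cd d) = -(kc d a * nP a (cd d)) := fun a => by
    rw [kc_sub h1, (n_sub _ _).1, Int.sign_eq_neg_one_of_neg h]
    ring
  refine sum_odd (f := fun a => kc d a * nP a (cd d)) e ?_
  have := e 0
  rw [sub_zero, ← kc_self h1, ← (n_self _).1] at this
  omega

theorem sumM {d : ℤ} (h1 : Squarefree d) (h : 0 < d) :
    ∑ a ∈ range (cd d), kc d a * nM a (cd d) = 0 := by
  have e : ∀ a, kc d (cd d - a) * nM (cd d - a) (cd d) = -(kc d a * nM a (cd d)) := fun a => by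
    rw [kc_sub h1, (n_sub _ _).2, Int.sign_eq_one_of_pos h]
    ring
  refine sum_odd (f := fun a => kc d a * nM a (cd d)) e ?_
  have := e 0
  rw [sub_zero, ← kc_self h1, ← (n_self _).2] at this
  omega

theorem lam_sum {d : ℤ} (h : d ≠ 0) : ∑ a ∈ range (cd d), DLEX.ch d a * Mod.lam (a / cd d) =
    ((∑ a ∈ range (cd d), kc d a * nP a (cd d) : ℤ) : ℂ) * L0 +
      ((∑ a ∈ range (cd d), kc d a * nM a (cd d) : ℤ) : ℂ) * om * Complex.I := by
  have hc : ((cd d : ℕ) : ℤ) ≠ 0 := by exact_mod_cast (cd_pos h).ne'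
  push_cast
  rw [sum_mul, sum_mul, sum_mul, ← sum_add_distrib]
  refine sum_congr rfl fun a _ => ?_
  have e := Mod.lv_of_ne (a : ℤ) hc
  rw [Mod.lv_eq, Int.cast_natCast, Int.cast_natCast] at e
  rw [← e, DLEX.ch]
  ring

end TALV

open TALV

theorem t_ALV (hAPR : APR) : ALV := by
  intro d h1
  obtain ⟨τ, hτ, hG⟩ := t_GAUSS t_KC d h1
  obtain ⟨L, a1, a2, a3⟩ := Mod.exists_L (m := cd d) (χ := DLEX.ch d) hτ (DLEX.norm_ch t_KC h1) hG
  have hN : (0 : ℝ) < cd d := by exact_mod_cast cd_pos h1.ne_zero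
  have hs : 0 < √(cd d) := Real.sqrt_pos.2 hN
  have hs' : ((√(cd d) : ℝ) : ℂ) ≠ 0 := by exact_mod_cast hs.ne'
  have hs2 : ((√(cd d) : ℝ) : ℂ) ^ 2 = cd d := by exact_mod_cast Real.sq_sqrt hN.le
  have hq := gauss_sq h1 hG
  rw [lam_sum h1.ne_zero] at a3
  rcases lt_or_gt_of_ne h1.ne_zero with h | h
  · have hp := per_neg h
    obtain ⟨k, hk, ek⟩ := Mod.om_odd
    have e0 : S0 d = ∑ a ∈ range (cd d), kc d a * nM a (cd d) := by simp only [S0, nx, if_pos h]
    rw [sumP h1 h, ← e0, ek] at a3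
    rw [Int.sign_eq_neg_one_of_neg h] at hq
    have hq' : τ ^ 2 = (Complex.I * (√(cd d) : ℝ)) ^ 2 := by
      rw [hq, mul_pow, Complex.I_sq, hs2]
      simp
    refine ⟨by rw [hp]; exact div_pos (mul_pos four_pos Mod.sq1_spec.1) hs, L, isL h1 a1 a2, ?_⟩
    rw [if_pos h, hp]
    push_cast at a3 ⊢
    rcases sq_eq_sq_iff_eq_or_eq_neg.1 hq' with e | e
    · refine ⟨k, hk, ?_⟩
      rw [e] at a3
      field_simp
      exact mul_left_cancel₀ Complex.I_ne_zero (by linear_combination a3)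
    · refine ⟨-k, hk.neg, ?_⟩
      rw [e] at a3
      push_cast
      field_simp
      exact mul_left_cancel₀ Complex.I_ne_zero (by linear_combination -a3)
  · obtain ⟨J, k, hJ, hk, ek, hp0⟩ := hAPR
    have hp : period (twa d) = J / √(cd d) := by
      rw [← hp0 _ hN, period]
      simp only [cub_eq, ds_pos h, Int.cast_natCast]
    have e0 : S0 d = ∑ a ∈ range (cd d), kc d a * nP a (cd d) := by
      simp only [S0, nx, if_neg h.not_gt]
    rw [sumM h1 h, ← e0] at a3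
    rw [Int.sign_eq_one_of_pos h] at hq
    have hq' : τ ^ 2 = ((√(cd d) : ℝ) : ℂ) ^ 2 := by
      rw [hq, hs2]
      simp
    have ek' : 8 * (L0 : ℂ) = k * J := by exact_mod_cast ek
    refine ⟨by rw [hp]; exact div_pos hJ hs, L, isL h1 a1 a2, ?_⟩
    rw [if_neg h.not_gt, hp]
    push_cast at a3 ⊢
    rcases sq_eq_sq_iff_eq_or_eq_neg.1 hq' with e | e
    · refine ⟨k, hk, ?_⟩
      rw [e] at a3
      field_simp
      linear_combination 8 * a3 + S0 d * ek'
    · refine ⟨-k, hk.neg, ?_⟩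
      rw [e] at a3
      push_cast
      field_simp
      linear_combination -8 * a3 - S0 d * ek'

end Pool.Agent.P.MP_9c97e9_nt.K2
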