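import Pool.Agent.P.MP_9c97e9_nt.K2.IfA
import Pool.Agent.P.MP_9c97e9_nt.KT.TANAA
import Pool.Agent.P.MP_9c97e9_nt.KT.TBAS
import Pool.Agent.P.MP_8b7eba_nt.R3.DKC

/-! Proof of AN1. -/

namespace Pool.Agent.P.MP_9c97e9_nt.K2

open MP_8b7eba_nt MP_8b7eba_nt.R2 MP_8b7eba_nt.Mod KT
open MP_8b7eba_nt.R3 (kc cd od ds)
open KT.TANA (sum_split sum_dvd per_mod sum_mul_cop an_two)
open Finset

namespace TAN1

variable {d : ℤ} {M : ℕ}

/-- the modular symbols at natural numbers -/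
def v (d : ℤ) (a M : ℕ) : ℤ := nx d a M

theorem v_add (d : ℤ) (a M t : ℕ) : v d (a + t * M) M = v d a M := by
  simp only [v, nx, Nat.cast_add, Nat.cast_mul, (nP_add_mul a M t).1, (nP_add_mul a M t).2]

theorem v_congr {a b : ℕ} (h : a ≡ b [MOD M]) : v d a M = v d b M := by
  have k := per_mod (g := fun a => v d a M) (M := M) fun a => by simpa using v_add d a M 1
  rw [← k a, ← k b, h]

theorem v_mul (d : ℤ) (a M : ℕ) : v d (2 * a) (2 * M) = v d a M := by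
  have h := coeff_eq (a := nP (2 * a) (2 * M)) (b := nM (2 * a) (2 * M)) (c := nP a M) (d := nM a M)
    (by rw [← lv_eq, lv_mul two_ne_zero, lv_eq])
  simp only [v, nx, Nat.cast_mul, Nat.cast_ofNat, h.1, h.2]

theorem v_hecke (d : ℤ) (h0 : M ≠ 0) (a : ℕ) :
    v d a (M * 2) + v d (a + M) (M * 2) = -v d a M - v d (2 * a) M := by
  have hq : (M : ℚ) ≠ 0 := by exact_mod_cast h0
  have hz : (M : ℤ) ≠ 0 := by exact_mod_cast h0
  have h := hecke_lam Nat.prime_two (a / M)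
  have e1 : ∀ j : ℕ, lam ((a / M + j) / (2 : ℕ)) =
      lv ((a + j * M : ℕ) : ℤ) ((M * 2 : ℕ) : ℤ) := fun j => by
    rw [lv_of_ne _ (by omega)]
    congr 1
    push_cast
    field_simp
  have e2 : lam ((2 : ℕ) * (a / M)) = lv ((2 * a : ℕ) : ℤ) M := by
    rw [lv_of_ne _ hz]
    congr 1
    push_cast
    ring
  have e3 : lam (a / M) = lv a M := by rw [lv_of_ne _ hz]; rfl
  simp only [if_neg (show ¬ 2 ∣ 15 by norm_num), e1, e2, e3, lv_eq, an_two, sum_range_succ,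
    sum_range_zero, zero_mul, one_mul, add_zero, zero_add] at h
  have := coeff_eq
    (a := nP a ((M * 2 : ℕ) : ℤ) + nP ((a + M : ℕ) : ℤ) ((M * 2 : ℕ) : ℤ))
    (b := nM a ((M * 2 : ℕ) : ℤ) + nM ((a + M : ℕ) : ℤ) ((M * 2 : ℕ) : ℤ))
    (c := -nP a M - nP ((2 * a : ℕ) : ℤ) M) (d := -nM a M - nM ((2 * a : ℕ) : ℤ) M) (by
      rw [Int.cast_add, Int.cast_add, Int.cast_sub, Int.cast_sub, Int.cast_neg, Int.cast_neg]
      rw [Int.cast_neg, Int.cast_one] at h
      linear_combination h)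
  unfold v nx
  split_ifs
  exacts [this.2, this.1]

/-- the twisted sums -/
def AA (d : ℤ) (M : ℕ) : ℤ := ∑ ν ∈ range M, kc d ν * v d ν M

/-- the twisted sums at the doubled cusps -/
def BB (d : ℤ) (M : ℕ) : ℤ := ∑ ν ∈ range M, kc d ν * v d (2 * ν) M

theorem kc_add (hd : Squarefree d) (h : cd d ∣ M) (a : ℕ) : kc d ((a + M : ℕ) : ℤ) = kc d a :=
  R3.DKC.per hd (by
    rw [Nat.cast_add, add_sub_cancel_left, ← Int.natAbs_dvd]; exact Int.natCast_dvd_natCast.2 h)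

theorem AA_two (hd : Squarefree d) (h : cd d ∣ M) (h0 : M ≠ 0) :
    AA d (M * 2) = -AA d M - BB d M := by
  rw [AA, AA, BB, sum_split, ← sum_neg_distrib, ← sum_sub_distrib]
  refine sum_congr rfl fun a _ => ?_
  simp only [sum_range_succ, sum_range_zero, zero_mul, one_mul, add_zero, zero_add, kc_add hd h]
  linear_combination kc d a * v_hecke d h0 a

theorem BB_two (hd : Squarefree d) (h : cd d ∣ M) : BB d (M * 2) = 2 * AA d M := by
  rw [AA, BB, sum_split, mul_sum]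
  refine sum_congr rfl fun a _ => ?_
  simp only [mul_comm M 2, v_mul, v_add, sum_range_succ, sum_range_zero, zero_mul, one_mul,
    add_zero, zero_add, kc_add hd h]
  ring

theorem kc_two (hd : Squarefree d) (h : 2 ∣ cd d) : kc d 2 = 0 := by
  refine ((R3.DKC.tri hd 2).resolve_left fun e => ?_).2
  have := e.1.isUnit_of_dvd' dvd_rfl (Int.natCast_dvd.2 h)
  rw [Int.isUnit_iff] at this
  omega

theorem BB_base (hd : Squarefree d) : BB d (cd d) = kc d 2 * AA d (cd d) := by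
  by_cases h : 2 ∣ cd d
  · obtain ⟨u, h1, h2, h3⟩ := R3.DKC.prim hd Nat.prime_two h
    have k := sum_mul_cop (g := fun a => kc d a * v d (2 * a) (cd d)) (M := cd d) (fun a => by
      rw [kc_add hd dvd_rfl, mul_add, v_add]) h1
    have e : ∀ a, v d (2 * (u * a)) (cd d) = v d (2 * a) (cd d) := fun a => v_congr (by
      have := (h2.mul_right a).mul_left' 2
      rwa [Nat.mul_div_cancel' h, one_mul] at this)
    simp only [e, Nat.cast_mul, R3.DKC.mul, h3, neg_mul, one_mul, sum_neg_distrib] at k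
    rw [kc_two hd h, zero_mul, BB]
    omega
  · have h2 : Nat.Coprime 2 (cd d) := (Nat.Prime.coprime_iff_not_dvd Nat.prime_two).2 h
    have k := sum_mul_cop (g := fun a => kc d a * v d a (cd d)) (M := cd d) (fun a => by
      rw [kc_add hd dvd_rfl, ← v_add d a (cd d) 1, one_mul]) h2
    have h3 := G.ACKC.kc_sq hd 2 (Nat.isCoprime_iff_coprime.2 h2)
    simp only [Nat.cast_mul, R3.DKC.mul, mul_assoc, ← mul_sum, Nat.cast_ofNat] at k
    rw [AA, ← k, ← mul_assoc, h3, one_mul, BB]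

theorem total (hd : Squarefree d) {α : ℚ_[2]} (hα : α ^ 2 + α + 2 = 0) (m : ℕ) :
    α * AA d (cd d * 2 ^ m) - BB d (cd d * 2 ^ m) = α ^ m * (α - kc d 2) * S0 d := by
  induction m with
  | zero =>
    rw [pow_zero, mul_one, BB_base hd, show S0 d = AA d (cd d) from rfl]
    push_cast
    ring
  | succ m ih =>
    rw [pow_succ, ← mul_assoc, BB_two hd (dvd_mul_right _ _), AA_two hd (dvd_mul_right _ _)
      (mul_ne_zero (G.t_KC d hd).1 (pow_ne_zero m two_ne_zero))]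
    push_cast
    linear_combination α * ih - (AA d (cd d * 2 ^ m) : ℚ_[2]) * hα

theorem odd_sum (F : ℕ → ℤ) (M : ℕ) : ∑ ν ∈ (range (M * 2)).filter Odd, kc d ν * F ν =
    ∑ ν ∈ range (M * 2), kc d ν * F ν - kc d 2 * ∑ ν ∈ range M, kc d ν * F (2 * ν) := by
  have h := sum_dvd (fun ν => kc d ν * F ν) M two_pos
  simp only [Nat.cast_mul, R3.DKC.mul, mul_assoc, ← mul_sum, Nat.cast_ofNat] at h
  rw [← h, ← sum_sub_distrib, sum_filter]
  refine sum_congr rfl fun a _ => ?_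
  by_cases ha : Odd a
  · rw [if_pos ha, if_neg ha.not_two_dvd_nat, sub_zero]
  · rw [if_neg ha, if_pos (even_iff_two_dvd.1 (Nat.not_odd_iff_even.1 ha)), sub_self]

theorem mass (D : Dat) (k : ℕ) : ∑ ν ∈ oddR D.n k, D.msy k ν =
    ((AA D.d (D.n * 2 ^ (k + 2)) - kc D.d 2 * AA D.d (D.n * 2 ^ (k + 1)) : ℤ) - al0⁻¹ *
      (BB D.d (D.n * 2 ^ (k + 2)) - kc D.d 2 * BB D.d (D.n * 2 ^ (k + 1)) : ℤ)) / ka D.d := by
  have e : D.n * 2 ^ (k + 2) = D.n * 2 ^ (k + 1) * 2 := by ring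
  have a1 := odd_sum (d := D.d) (fun ν => v D.d ν (2 * (D.n * 2 ^ (k + 1)))) (D.n * 2 ^ (k + 1))
  have a2 := odd_sum (d := D.d) (fun ν => v D.d (2 * ν) (2 * (D.n * 2 ^ (k + 1))))
    (D.n * 2 ^ (k + 1))
  simp only [v_mul D.d (2 * _)] at a2
  simp only [v_mul] at a1
  rw [mul_comm 2, ← e] at a1 a2
  rw [AA, AA, BB, BB, ← a1, ← a2, Int.cast_sum, Int.cast_sum, mul_sum, ← sum_sub_distrib, sum_div]
  refine sum_congr rfl fun ν hν => ?_
  rw [Dat.msy, R3.DKC.odd D.sq_d (mem_filter.1 hν).2, v, v, Int.cast_mul, Int.cast_mul]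
  ring

end TAN1

open TAN1 in
theorem t_AN1 : AN1 := by
  intro D k hk
  obtain ⟨h1, h2⟩ := KT.t_BAS.1
  have h0 : al0 ≠ 0 := by rintro e; simp [e] at h1
  have hd := D.sq_d
  have ho : od D.d = D.n := by rw [D.hd]; exact (R3.DKC.uniq D.odd D.he).1
  suffices ∃ j : ℕ, ∑ ν ∈ oddR D.n k, D.msy k ν =
      al0 ^ j * ((1 - kc D.d 2 / al0) ^ 2 * S0 D.d / ka D.d) by
    obtain ⟨j, e⟩ := this
    rw [e, norm_mul, norm_pow, h1, one_pow, one_mul]
  have even : ∀ j, 2 ∣ cd D.d → D.n * 2 ^ (k + 2) = cd D.d * 2 ^ j →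
      ∑ ν ∈ oddR D.n k, D.msy k ν =
        al0 ^ j * ((1 - kc D.d 2 / al0) ^ 2 * S0 D.d / ka D.d) := fun j h e => by
    have b := total hd h2 j
    rw [mass, e, mul_div_assoc']
    rw [kc_two hd h] at b ⊢
    congr 1
    push_cast at b ⊢
    field_simp
    linear_combination al0 * b
  obtain ⟨i, rfl⟩ := Nat.exists_eq_add_of_le' hk
  rcases (G.t_KC D.d hd).2.2.2.2.2.1 with h | h | h <;> rw [ho] at h
  · have b1 := total hd h2 (i + 1 + 1)
    have b2 := total hd h2 (i + 1 + 2)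
    refine ⟨i + 1 + 2, ?_⟩
    rw [mass, ← h, mul_div_assoc']
    congr 1
    push_cast
    field_simp
    linear_combination al0 * b2 - al0 * (kc D.d 2 : ℚ_[2]) * b1
  · exact ⟨_, even (i + 1) (by omega) (by rw [h]; ring)⟩
  · exact ⟨_, even i (by omega) (by rw [h]; ring)⟩

end Pool.Agent.P.MP_9c97e9_nt.K2
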