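import Pool.Agent.P.MP_9c97e9_nt.K2.TAN2A

/-! The order of vanishing modulo two of the 2-adic L-function. -/

namespace Pool.Agent.P.MP_9c97e9_nt.K2

open MP_8b7eba_nt MP_8b7eba_nt.R2 KT MP_8b7eba_nt.Mod
open Finset Polynomial
open KT.TANA (sum_dvd sum_mul_cop sum_sym RR ss two_RR frob gen_pow ss_mul lz_add lz_neg lz_val
  one_add lg_ne un_val)

namespace TAN2

/-- the terms -/
noncomputable def GG (k d ν : ℕ) : RR k :=
  if ν.Coprime d then ss k ν * ww ν (d * 2 ^ (k + 2)) else 0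

/-- the half sums -/
noncomputable def HH (k c d : ℕ) : RR k :=
  ∑ ν ∈ range (d * 2 ^ (k + 2)), if ν % 4 = c then GG k d ν else 0

theorem two_lev (d k : ℕ) : 2 ∣ d * 2 ^ (k + 2) := ⟨d * 2 ^ (k + 1), by ring⟩

theorem HH_sym (hAF : AF) (k : ℕ) {d : ℕ} (h0 : d ≠ 0) : HH k 3 d = HH k 1 d := by
  refine sum_sym ⟨d * 2 ^ k, by ring⟩ fun a b ha h => ?_
  have h1 := mul_ne_zero h0 (pow_ne_zero (k + 2) two_ne_zero)
  have e1 : a.Coprime d ↔ b.Coprime d := by
    rw [← Nat.isCoprime_iff_coprime, ← Nat.isCoprime_iff_coprime,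
      show (a : ℤ) = -b + d * 2 ^ (k + 2) by exact_mod_cast by omega,
      IsCoprime.add_mul_left_left_iff, IsCoprime.neg_left_iff]
  have e2 : (ww a (d * 2 ^ (k + 2)) : RR k) = ww b (d * 2 ^ (k + 2)) := by
    rw [ww_neg hAF ha h1 (two_lev d k) h]
    push_cast
    linear_combination (-(ww b _ : RR k)) * two_RR k
  simp only [GG, e1, e2, ss, lz_neg k ha h]

theorem an_odd {p : ℕ} (hp : p.Prime) (h : p ∣ 15) : p = 3 ∨ p = 5 := by
  rcases (Nat.Prime.dvd_mul hp).1 (show p ∣ 3 * 5 from h) with h | h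
  · exact .inl ((Nat.prime_dvd_prime_iff_eq hp Nat.prime_three).1 h)
  · exact .inr ((Nat.prime_dvd_prime_iff_eq hp Nat.prime_five).1 h)

theorem HH_step (hAF : AF) (k : ℕ) {d p : ℕ} (h0 : d ≠ 0) (hp : p.Prime) (h2 : Odd p)
    (hpd : ¬ p ∣ d) : (if p ∣ 15 then 1 else ss k p) * HH k 1 (p * d) =
      (1 + ss k p) ^ (if p ∣ 15 then 1 else 2) * HH k 1 d := by
  have h1 := mul_ne_zero h0 (pow_ne_zero (k + 2) two_ne_zero)
  have hc : p.Coprime d := (Nat.Prime.coprime_iff_not_dvd hp).2 hpd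
  have hc2 : p.Coprime 2 := Nat.coprime_two_right.2 h2
  have hp4 : p % 4 = 1 ∨ p % 4 = 3 := by have := Nat.odd_iff.1 h2; omega
  have hH : HH k (p % 4) d = HH k 1 d := by
    rcases hp4 with h | h <;> rw [h]
    exact HH_sym hAF k h0
  have hm : ∀ a, (a + d * 2 ^ (k + 2)) % 4 = a % 4 := fun a => by
    rw [pow_add, ← mul_assoc]; omega
  have hs : ∀ a, Odd a → ss k (a + d * 2 ^ (k + 2)) = ss k a := fun a ha => by
    rw [ss, ss, lz_add k d ha]
  have od : ∀ {a c}, a % 4 = c → c = 1 ∨ c = 3 → Odd a := fun h h' => Nat.odd_iff.2 (by omega)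
  set f : ℕ → RR k := fun ν => if ν % 4 = 1 ∧ ν.Coprime d then ss k ν else 0 with hf
  have fper : ∀ a, f (a + d * 2 ^ (k + 2)) = f a := fun a => by
    simp only [hf, hm, Nat.coprime_add_mul_left_left]
    split_ifs with h
    exacts [hs a (od h.1 (.inl rfl)), rfl]
  have e0 : ∑ a ∈ range (d * 2 ^ (k + 2)), f a * ww a (d * 2 ^ (k + 2)) = HH k 1 d :=
    sum_congr rfl fun a _ => by
      simp only [hf, GG]
      by_cases h : a % 4 = 1 <;> by_cases h' : a.Coprime d <;> simp [h, h']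
  have e1 := push hAF hp h2 h1 (two_lev d k) fper fun a ha =>
    if_neg fun h => ha (od h.1 (.inl rfl))
  have e2 : ss k p * ∑ a ∈ range (d * 2 ^ (k + 2)), f a * ww (p * a) (d * 2 ^ (k + 2)) =
      HH k 1 d := by
    rw [← hH, HH, ← sum_mul_cop (u := p) (g := fun ν => if ν % 4 = p % 4 then GG k d ν else 0)
      (fun a => ?_) (Nat.Coprime.mul_right hc (hc2.pow_right _)), mul_sum]
    · refine sum_congr rfl fun a _ => ?_
      have e : p * a % 4 = p % 4 ↔ a % 4 = 1 := by
        rw [Nat.mul_mod]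
        have := Nat.mod_lt a (by norm_num : 0 < 4)
        generalize a % 4 = r at this ⊢
        rcases hp4 with h | h <;> rw [h] <;> interval_cases r <;> simp
      simp only [hf, GG, e, Nat.coprime_mul_iff_left, eq_true hc, true_and]
      by_cases h : a % 4 = 1 <;> by_cases h' : a.Coprime d <;> simp [h, h']
      rw [ss_mul k h2 (od h (.inl rfl)), mul_assoc]
    · simp only [hm, GG, Nat.coprime_add_mul_left_left]
      split_ifs with h h'
      · rw [hs a (od h hp4), ← ww_add a _ 1, one_mul]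
      · rfl
      · rfl
  have e3 : ∑ a ∈ range (d * 2 ^ (k + 2) * p),
      (if p ∣ a then f a * ww a (d * 2 ^ (k + 2) * p) else 0) = ss k p * HH k 1 d := by
    rw [sum_dvd _ _ hp.pos, ← hH, HH, mul_sum]
    refine sum_congr rfl fun a _ => ?_
    have e : p * a % 4 = 1 ↔ a % 4 = p % 4 := by
      rw [Nat.mul_mod]
      have := Nat.mod_lt a (by norm_num : 0 < 4)
      generalize a % 4 = r at this ⊢
      rcases hp4 with h | h <;> rw [h] <;> interval_cases r <;> simp
    simp only [hf, GG, e, Nat.coprime_mul_iff_left, eq_true hc, true_and, mul_comm _ p,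
      ww_mul hp.ne_zero]
    by_cases h : a % 4 = p % 4 <;> by_cases h' : a.Coprime d <;> simp [h, h']
    rw [ss_mul k h2 (od h hp4), mul_assoc]
  have e4 : HH k 1 (p * d) = ∑ a ∈ range (d * 2 ^ (k + 2) * p), f a * ww a (d * 2 ^ (k + 2) * p) -
      ∑ a ∈ range (d * 2 ^ (k + 2) * p),
        (if p ∣ a then f a * ww a (d * 2 ^ (k + 2) * p) else 0) := by
    rw [← sum_sub_distrib, HH]
    simp only [GG, show p * d * 2 ^ (k + 2) = d * 2 ^ (k + 2) * p by ring]
    refine sum_congr rfl fun a _ => ?_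
    have e : a.Coprime p ↔ ¬ p ∣ a := by rw [Nat.coprime_comm, hp.coprime_iff_not_dvd]
    simp only [hf, Nat.coprime_mul_iff_right, e]
    by_cases h : a % 4 = 1 <;> by_cases h' : a.Coprime d <;> by_cases h'' : p ∣ a <;>
      simp [h, h', h'']
  rw [e4, e1, e3, e0]
  by_cases h15 : p ∣ 15
  · have a3 : (an p : RR k) = 1 := by
      rcases an_odd hp h15 with rfl | rfl
      · rw [an_small.2.2.2.1]
        push_cast
        linear_combination -two_RR k
      · rw [an_small.2.2.2.2.2, Int.cast_one]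
    simp only [if_pos h15, a3]
    linear_combination (-ss k p * HH k 1 d) * two_RR k
  · obtain ⟨r, hr⟩ := even_an hp h15 (by rintro rfl; exact absurd h2 (by decide))
    have a3 : (an p : RR k) = 0 := by rw [hr, ← two_mul]; push_cast; rw [two_RR, zero_mul]
    simp only [if_neg h15, a3]
    linear_combination (-(1 + ss k p + ss k p ^ 2) * HH k 1 d) * two_RR k - e2

/-- the expected order of vanishing -/
noncomputable def od (d : ℕ) : ℕ :=
  ∑ p ∈ d.primeFactors, 2 ^ (lg (un (p : ℤ_[2]))).valuation * if p ∣ 15 then 1 else 2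

theorem HH_eq (hAF : AF) (k d : ℕ) : Squarefree d → Odd d → od d ≤ k →
    ∃ u : (ZMod 2)[X], u.coeff 0 = 1 ∧ HH k 1 d = AdjoinRoot.mk _ (X ^ od d * u) := by
  induction d using induction_on_primes with
  | zero => exact fun h => absurd h not_squarefree_zero
  | one =>
    intro _ _ _
    refine ⟨∑ ν ∈ range (2 ^ (k + 2)), C (((if ν % 4 = 1 then 1 else 0 : ℤ) *
      ww ν (2 ^ (k + 2)) : ℤ) : ZMod 2) * (X + 1) ^ lz k ν, ?_, ?_⟩
    · simp only [finsetSum_coeff, coeff_C_mul, coeff_X_add_one_pow, Nat.choose_zero_right,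
        Nat.cast_one, mul_one]
      rw [← Int.cast_sum]
      exact (ZMod.intCast_eq_one_iff_odd).2 (base k)
    · simp only [od, Nat.primeFactors_one, sum_empty, pow_zero, one_mul, map_sum, HH, GG,
        Nat.coprime_one_right_eq_true, if_true, map_mul, map_intCast]
      refine sum_congr rfl fun a _ => ?_
      split_ifs <;> simp [ss, mul_comm]
  | prime_mul p d hp ih =>
    intro hs ho hk
    obtain ⟨hpd, -, hd⟩ := Nat.squarefree_mul_iff.1 hs
    have hpd' := (hp.coprime_iff_not_dvd).1 hpd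
    have e : od (p * d) =
        2 ^ (lg (un (p : ℤ_[2]))).valuation * (if p ∣ 15 then 1 else 2) + od d := by
      rw [od, hpd.primeFactors_mul, hp.primeFactors, sum_union, sum_singleton, od]
      simp [hpd']
    have h2 := Nat.Odd.of_mul_left ho
    obtain ⟨u, u0, hu⟩ := ih hd (Nat.Odd.of_mul_right ho) ((Nat.le_add_left _ _).trans (e ▸ hk))
    obtain ⟨b, hb⟩ := lz_val (k := k) h2 hp.one_lt (by
      have := Nat.lt_two_pow_self (n := (lg (un (p : ℤ_[2]))).valuation)
      split_ifs at e <;> omega)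
    obtain ⟨u', u1, hu'⟩ := one_add (X ^ 2 ^ (lg (un (p : ℤ_[2]))).valuation)
      (by rw [coeff_X_pow, if_neg (by positivity)]) b
    have h := HH_step hAF k hd.ne_zero hp h2 hpd'
    have hi : AdjoinRoot.mk _ ((X + 1) ^ (lz k p * (2 ^ k - 1))) * ss k p = 1 := by
      rw [ss, ← map_mul, ← pow_add, ← Nat.mul_succ, Nat.succ_eq_add_one,
        Nat.sub_add_cancel Nat.one_le_two_pow, map_pow, mul_comm, pow_mul, gen_pow, one_pow]
    have h1 : 1 + ss k p = AdjoinRoot.mk _ (X ^ 2 ^ (lg (un (p : ℤ_[2]))).valuation * u') := by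
      rw [← hu', ss, hb, pow_mul, frob, map_add, map_one]
    by_cases h15 : p ∣ 15
    · simp only [if_pos h15, one_mul, pow_one, mul_one] at h e
      refine ⟨u' * u, by rw [mul_coeff_zero, u0, u1, one_mul], ?_⟩
      rw [h, h1, hu, e, ← map_mul]
      exact congrArg _ (by ring)
    · simp only [if_neg h15] at h e
      refine ⟨(X + 1) ^ (lz k p * (2 ^ k - 1)) * u' ^ 2 * u, ?_, ?_⟩
      · simp [coeff_zero_eq_eval_zero] at u0 u1 ⊢
        simp [u0, u1]
      · rw [← one_mul (HH k 1 (p * d)), ← hi, mul_assoc, h, h1, hu, e, ← map_pow, ← map_mul,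
          ← map_mul]
        exact congrArg _ (by ring)

theorem odd_coeff (hAF : AF) {k d : ℕ} (hs : Squarefree d) (ho : Odd d) (hk : od d ≤ k) :
    Odd (∑ ν ∈ range (d * 2 ^ (k + 2)), (if ν % 4 = 1 ∧ ν.Coprime d then 1 else 0 : ℤ) *
      ww ν (d * 2 ^ (k + 2)) * (lz k ν).choose (od d)) := by
  obtain ⟨u, u0, hu⟩ := HH_eq hAF k d hs ho hk
  have e : HH k 1 d = AdjoinRoot.mk _ (∑ ν ∈ range (d * 2 ^ (k + 2)),
      C (((if ν % 4 = 1 ∧ ν.Coprime d then 1 else 0 : ℤ) * ww ν (d * 2 ^ (k + 2)) : ℤ) : ZMod 2) *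
        (X + 1) ^ lz k ν) := by
    simp only [map_sum, HH, GG, map_mul, map_intCast]
    refine sum_congr rfl fun a _ => ?_
    by_cases h : a % 4 = 1 <;> by_cases h' : a.Coprime d <;> simp [h, h', ss, mul_comm]
  rw [e, AdjoinRoot.mk_eq_mk, X_pow_dvd_iff] at hu
  have h1 := hu (od d) (lt_of_le_of_lt hk Nat.lt_two_pow_self)
  rw [coeff_sub, coeff_X_pow_mul', if_pos le_rfl, Nat.sub_self, u0, sub_eq_zero] at h1
  simp only [finsetSum_coeff, coeff_C_mul, coeff_X_add_one_pow] at h1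
  rw [← ZMod.intCast_eq_one_iff_odd, ← h1]
  push_cast
  rfl

theorem val_zero {p : ℕ} (hp : p.Prime) (h : p ∣ 15) : (lg (un (p : ℤ_[2]))).valuation = 0 := by
  have ho : Odd p := by rcases an_odd hp h with rfl | rfl <;> decide
  by_contra h0
  have h1 := (PadicInt.mem_span_pow_iff_le_valuation _ (lg_ne ho hp.one_lt) 1).2 (by omega)
  rw [Ideal.mem_span_singleton, Nat.cast_ofNat, a_LG.1.dvd, un_val ho] at h1
  have h4 : (2 ^ (1 + 2) : ℤ) ∣ (p : ℤ) - 1 ∨ (2 ^ (1 + 2) : ℤ) ∣ (p : ℤ) + 1 := by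
    refine h1.imp (fun h => ?_) fun h => ?_
    · exact (PadicInt.pow_p_dvd_int_iff (p := 2) (1 + 2) ((p : ℤ) - 1)).1 (by exact_mod_cast h)
    · exact (PadicInt.pow_p_dvd_int_iff (p := 2) (1 + 2) ((p : ℤ) + 1)).1 (by exact_mod_cast h)
  rcases an_odd hp h with rfl | rfl <;> revert h4 <;> decide

theorem od_eq (D : Dat) : od D.n = D.lam := by
  have h0 := D.sq.ne_zero
  have h1 : od D.n + ∑ p ∈ D.n.primeFactors, ((if p = 3 then 1 else 0) + if p = 5 then 1 else 0) =
      2 * D.sg := by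
    rw [od, Dat.sg, ← sum_add_distrib, mul_sum]
    refine sum_congr rfl fun p hp => ?_
    have hp' := Nat.prime_of_mem_primeFactors hp
    by_cases h : p ∣ 15
    · rw [val_zero hp' h, if_pos h]
      rcases an_odd hp' h with rfl | rfl <;> rfl
    · rw [if_neg h, if_neg (by rintro rfl; exact h (by decide)),
        if_neg (by rintro rfl; exact h (by decide))]
      ring
  rw [sum_add_distrib, sum_ite_eq', sum_ite_eq'] at h1
  simp only [Nat.mem_primeFactors, Nat.prime_three, Nat.prime_five, true_and, ne_eq, h0,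
    not_false_eq_true, and_true] at h1
  rw [Dat.lam, Dat.bb]
  split_ifs at h1 ⊢ <;> omega

end TAN2

theorem t_AN2 (hAF : AF) : AN2 := fun D => by
  filter_upwards [Filter.eventually_ge_atTop D.lam] with k hk
  rw [← TAN2.od_eq] at hk ⊢
  exact TAN2.odd_coeff hAF D.sq D.odd hk

end Pool.Agent.P.MP_9c97e9_nt.K2
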