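import Pool.Agent.P.MP_9c97e9_nt.K2.IfA
import Pool.Agent.P.MP_9c97e9_nt.KT.TANA
import Pool.Agent.P.MP_9c97e9_nt.KT.TBAS

/-! Proof of ANA. -/

namespace Pool.Agent.P.MP_9c97e9_nt.K2

open MP_8b7eba_nt MP_8b7eba_nt.R2 KT
open MP_8b7eba_nt.R1 (st jac_st)
open MP_8b7eba_nt.Mod (nP nM nP_neg nP_add_mul)
open KT.TANA (small two_lt int_le sub_max lz_lt lz_neg)
open Finset Filter

namespace TANA

theorem add_le {x y : ℚ_[2]} (hx : ‖x‖ ≤ 1) (hy : ‖y‖ ≤ 1) : ‖x + y‖ ≤ 1 :=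
  (IsUltrametricDist.norm_add_le_max _ _).trans (max_le hx hy)

theorem mul_le {x y : ℚ_[2]} (hx : ‖x‖ ≤ 1) (hy : ‖y‖ ≤ 1) : ‖x * y‖ ≤ 1 := by
  rw [norm_mul]
  exact mul_le_one₀ hx (norm_nonneg _) hy

theorem near {x : ℚ_[2]} (h : ‖x - 1‖ < 1) : ‖x‖ = 1 := by
  rw [← norm_one (α := ℚ_[2])] at h ⊢
  exact Padic.norm_eq_of_norm_sub_lt_right h

theorem beta : ∃ c : ℚ_[2], ‖c‖ ≤ 1 ∧ al0⁻¹ = 13 + 16 * c := by
  obtain ⟨⟨h, h'⟩, -⟩ := KT.t_BAS
  have h0 : al0 ≠ 0 := by rintro e; simp [e] at h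
  have h1 : ‖al0⁻¹ + (13 : ℤ)‖ ≤ 1 := add_le (by rw [norm_inv, h, inv_one]) (int_le _)
  have h2 : ‖2 * (al0⁻¹ + (13 : ℤ)) + 1‖ = 1 :=
    near (by rw [add_sub_cancel_right]; exact small two_lt h1)
  refine ⟨(al0⁻¹ - 13) / 16, ?_, by ring⟩
  have e : (al0⁻¹ - 13) / 16 * (2 * (al0⁻¹ + (13 : ℤ)) + 1) = (-22 : ℤ) := by
    push_cast
    field_simp
    linear_combination h'
  have := int_le (-22)
  rwa [← e, norm_mul, h2, mul_one] at this

theorem mes_sum (D : Dat) (k : ℕ) (φ : ℕ → ℚ_[2]) : ∑ j ∈ range (2 ^ k), D.mes k j * φ j =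
    ∑ ν ∈ oddR D.n k, D.msy k ν * φ (lz k ν) := by
  rw [← sum_fiberwise_of_maps_to (s := oddR D.n k) (g := lz k) (t := range (2 ^ k))
    fun ν _ => mem_range.2 (lz_lt k ν)]
  refine sum_congr rfl fun j _ => ?_
  rw [Dat.mes, sum_mul]
  exact sum_congr rfl fun ν h => by rw [(mem_filter.1 h).2]

theorem je {e : ℤ} (he : e = 1 ∨ e = -1 ∨ e = 2 ∨ e = -2) {a b : ℕ} (ha : Odd a) (hb : Odd b) :
    (jacobiSym e a = 1 ∨ jacobiSym e a = -1) ∧
      (8 ∣ a + b → jacobiSym e b = (if e < 0 then -1 else 1) * jacobiSym e a) := by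
  have h1 := Nat.odd_iff.1 ha
  have h2 := Nat.odd_iff.1 hb
  rcases he with rfl | rfl | rfl | rfl <;>
    simp only [jacobiSym.one_left, jacobiSym.at_neg_one, jacobiSym.at_two, jacobiSym.at_neg_two, ha,
      hb, ZMod.χ₄_nat_eq_if_mod_four, ZMod.χ₈_nat_eq_if_mod_eight,
      ZMod.χ₈'_nat_eq_if_mod_eight] <;> split_ifs <;> first | omega | simp

theorem chi (D : Dat) {a : ℕ} (ha : Odd a) :
    jacobiSym D.d a = jacobiSym D.e a * jacobiSym a D.n := by
  rw [D.hd, jacobiSym.mul_left, jac_st D.odd ha]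

theorem msy_neg (D : Dat) {k a b : ℕ} (ha : Odd a) (h : a + b = D.n * 2 ^ (k + 2)) :
    (D.msy k b = D.msy k a ∨ D.msy k b = -D.msy k a) ∧ (1 ≤ k → D.msy k b = D.msy k a) := by
  have hb : Odd b := by
    rw [pow_succ, ← mul_assoc] at h
    rw [Nat.odd_iff] at ha ⊢
    omega
  have e1 : jacobiSym b D.n = (if D.n % 4 = 1 then 1 else -1) * jacobiSym a D.n := by
    rw [show (b : ℤ) = -a + D.n * 2 ^ (k + 2) by exact_mod_cast by omega, jacobiSym.mod_left,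
      Int.add_mul_emod_self_left, ← jacobiSym.mod_left, jacobiSym.neg _ D.odd,
      ZMod.χ₄_nat_eq_if_mod_four, if_neg (by have := D.n2; omega)]
  have e2 : ∀ t : ℕ, nx D.d (t * b : ℕ) (D.n * 2 ^ (k + 2) : ℕ) =
      (if D.d < 0 then -1 else 1) * nx D.d (t * a : ℕ) (D.n * 2 ^ (k + 2) : ℕ) := fun t => by
    rw [show ((t * b : ℕ) : ℤ) = -(t * a : ℕ) + t * (D.n * 2 ^ (k + 2) : ℕ) by
      rw [← h]; push_cast; ring]
    unfold nx
    split_ifs <;> simp only [nP_add_mul, nP_neg, neg_one_mul, one_mul]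
  have e3 := e2 1
  simp only [one_mul] at e3
  have key : ∀ s : ℤ, jacobiSym D.e b = s * jacobiSym D.e a → D.msy k b =
      (s * (if D.n % 4 = 1 then 1 else -1) * if D.d < 0 then -1 else 1 : ℤ) * D.msy k a := by
    intro s hs
    rw [Dat.msy, Dat.msy, chi D ha, chi D hb, hs, e1, e3, e2 2, Int.cast_mul, Int.cast_mul,
      Int.cast_mul, Int.cast_mul, Int.cast_mul, Int.cast_mul, Int.cast_mul, Int.cast_mul]
    ring
  refine ⟨?_, fun hk => ?_⟩
  · obtain ⟨s, hs, e⟩ : ∃ s : ℤ, (s = 1 ∨ s = -1) ∧ jacobiSym D.e b = s * jacobiSym D.e a := by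
      rcases (je D.he ha ha).1 with e | e <;> rcases (je D.he hb hb).1 with e' | e' <;>
        simp [e, e']
    rw [key s e]
    rcases hs with rfl | rfl <;> split_ifs <;> simp
  · obtain ⟨k, rfl⟩ := Nat.exists_eq_add_of_le' hk
    rw [key _ ((je D.he ha hb).2 ⟨D.n * 2 ^ k, by rw [h]; ring⟩)]
    have h1 := D.hd
    have h2 := D.he
    have h3 := D.n_pos
    unfold st at h1
    rcases h2 with e | e | e | e <;> rw [e] at h1 ⊢ <;> split_ifs at h1 ⊢ <;>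
      first | omega | simp

theorem two_msy (hAF : AF) (D : Dat) (k : ℕ) {a : ℕ} (ha : Odd a) : ∃ y : ℚ_[2], ‖y‖ ≤ 1 ∧
    2 * D.msy k a =
      (((if a.Coprime D.n then 1 else 0 : ℤ) * ww a (D.n * 2 ^ (k + 2)) : ℤ) : ℚ_[2]) + 2 * y := by
  split_ifs with hc
  · obtain ⟨c, hc1, hc2⟩ := beta
    obtain ⟨⟨t, h1⟩, h2⟩ := hAF a (D.n * 2 ^ (k + 2) : ℕ) (Nat.isCoprime_iff_coprime.2
      (hc.mul_right ((Nat.coprime_two_right.2 ha).pow_right _))) ⟨D.n * 2 ^ (k + 1), by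
        push_cast; ring⟩
    have h3 : 2 * ww a (D.n * 2 ^ (k + 2)) = _ := Int.mul_ediv_cancel' (by exact_mod_cast h2)
    rw [show 2 * (a : ℤ) = (2 * a : ℕ) by push_cast; rfl] at h1
    have h1' := congrArg (Int.cast : ℤ → ℚ_[2]) h1
    have h3' := congrArg (Int.cast : ℤ → ℚ_[2]) h3
    obtain ⟨y, hy, e⟩ : ∃ y : ℚ_[2], ‖y‖ ≤ 1 ∧ 2 * D.msy k a =
        jacobiSym D.d a * (ww a (D.n * 2 ^ (k + 2)) + 2 * y) := by
      rw [Dat.msy, hc2, nx, nx, ka]
      generalize ww a (D.n * 2 ^ (k + 2)) = w at *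
      generalize nM (2 * a : ℕ) (D.n * 2 ^ (k + 2) : ℕ) = M2 at *
      generalize nP (2 * a : ℕ) (D.n * 2 ^ (k + 2) : ℕ) = P2 at *
      generalize nM a (D.n * 2 ^ (k + 2) : ℕ) = M1 at *
      generalize nP a (D.n * 2 ^ (k + 2) : ℕ) = P1 at *
      split_ifs
      · refine ⟨(-3 * M2 : ℤ) + c * (-4 * M2 : ℤ), add_le (int_le _) (mul_le hc1 (int_le _)), ?_⟩
        push_cast at h3' ⊢
        linear_combination (-(jacobiSym D.d a : ℚ_[2]) / 2) * h3'
      · refine ⟨(t - w + 3 * M2 : ℤ) + c * (-P2 : ℤ), add_le (int_le _) (mul_le hc1 (int_le _)), ?_⟩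
        push_cast at h1' h3' ⊢
        linear_combination ((jacobiSym D.d a : ℚ_[2]) / 8) * h1' +
          ((jacobiSym D.d a : ℚ_[2]) / 2) * h3'
    have hj : jacobiSym D.d a = 1 ∨ jacobiSym D.d a = -1 := by
      rw [chi D ha]
      rcases (je D.he ha ha).1 with e | e <;>
        rcases jacobiSym.eq_one_or_neg_one (a := a) (b := D.n) (by simpa [Int.gcd] using hc)
          with e' | e' <;> simp [e, e']
    rcases hj with e' | e' <;> rw [e, e']
    · exact ⟨y, hy, by push_cast; ring⟩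
    · exact ⟨(-ww a (D.n * 2 ^ (k + 2)) : ℤ) + -y, add_le (int_le _) ((norm_neg y).trans_le hy), by
        push_cast; ring⟩
  · have : NeZero D.n := ⟨D.n_ne⟩
    refine ⟨0, by simp, ?_⟩
    rw [Dat.msy, chi D ha, (jacobiSym.eq_zero_iff_not_coprime (b := D.n)).2
      (by simpa [Int.gcd] using hc)]
    simp

theorem half (D : Dat) (k : ℕ) (φ : ℕ → ℚ_[2]) : ∑ ν ∈ oddR D.n k, D.msy k ν * φ (lz k ν) =
    ∑ ν ∈ (range (D.n * 2 ^ (k + 2))).filter (· % 4 = 1),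
      (D.msy k ν + D.msy k (D.n * 2 ^ (k + 2) - ν)) * φ (lz k ν) := by
  have h4 : 4 ∣ D.n * 2 ^ (k + 2) := ⟨D.n * 2 ^ k, by ring⟩
  rw [← sum_filter_add_sum_filter_not _ (· % 4 = 1), oddR, filter_filter, filter_filter]
  simp only [add_mul, sum_add_distrib, Nat.odd_iff]
  congr 1
  · exact sum_congr (filter_congr fun _ _ => by omega) fun _ _ => rfl
  · refine sum_nbij' (fun a => D.n * 2 ^ (k + 2) - a) (fun a => D.n * 2 ^ (k + 2) - a)
      ?_ ?_ ?_ ?_ ?_ <;> intro a ha <;> simp only [mem_filter, mem_range] at ha ⊢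
    · omega
    · omega
    · omega
    · omega
    · rw [Nat.sub_sub_self ha.1.le, lz_neg k ha.2.1 (Nat.add_sub_cancel' ha.1.le)]

end TANA

open K2.TANA in
theorem t_ANA (hAF : AF) (hAN1 : AN1) (hAN2 : AN2) : ANA := by
  intro D
  have ho : ∀ {k ν : ℕ}, ν ∈ (range (D.n * 2 ^ (k + 2))).filter (· % 4 = 1) →
      Odd ν ∧ ν + (D.n * 2 ^ (k + 2) - ν) = D.n * 2 ^ (k + 2) := fun h => by
    simp only [mem_filter, mem_range] at h
    exact ⟨Nat.odd_iff.2 (by omega), by omega⟩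
  refine ⟨fun k j => ?_, ?_, fun k hk => ?_⟩
  · have e : D.mes k j = ∑ ν ∈ oddR D.n k, D.msy k ν * if lz k ν = j then 1 else 0 := by
      simp only [Dat.mes, sum_filter, mul_ite, mul_one, mul_zero]
    rw [e, half D k fun i => if i = j then 1 else 0]
    refine IsUltrametricDist.norm_sum_le_of_forall_le_of_nonneg zero_le_one fun ν hν =>
      mul_le ?_ (by split_ifs <;> simp)
    obtain ⟨y, hy, e⟩ := two_msy hAF D k (ho hν).1
    rcases (msy_neg D (ho hν).1 (ho hν).2).1 with h | h <;> rw [h]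
    · rw [← two_mul, e]
      exact add_le (int_le _) (mul_le two_lt.le hy)
    · simp
  · filter_upwards [hAN2 D, eventually_ge_atTop 1] with k ⟨c, hc⟩ hk
    rw [mes_sum D k fun j => j.choose D.lam, half D k fun j => j.choose D.lam]
    have hc' : ∑ ν ∈ (range (D.n * 2 ^ (k + 2))).filter (· % 4 = 1),
        ((((if ν.Coprime D.n then 1 else 0 : ℤ) * ww ν (D.n * 2 ^ (k + 2)) : ℤ) : ℚ_[2]) *
          (lz k ν).choose D.lam) = 2 * c + 1 := by
      have := congrArg (Int.cast : ℤ → ℚ_[2]) hc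
      rw [Int.cast_sum] at this
      rw [sum_filter]
      refine Eq.trans (sum_congr rfl fun ν _ => ?_) (this.trans (by push_cast; rfl))
      by_cases h : ν % 4 = 1 <;> simp [h]
    refine near ?_
    rw [← sub_add_sub_cancel _ (2 * (c : ℚ_[2]) + 1), add_sub_cancel_right]
    refine (IsUltrametricDist.norm_add_le_max _ _).trans_lt (max_lt ?_ (small two_lt (int_le c)))
    rw [← hc', ← sum_sub_distrib]
    refine TAFX.sum_lt fun ν hν => ?_
    obtain ⟨y, hy, e⟩ := two_msy hAF D k (ho hν).1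
    rw [(msy_neg D (ho hν).1 (ho hν).2).2 hk, ← two_mul, e, ← sub_mul, add_sub_cancel_left]
    exact small (small two_lt hy) (IsUltrametricDist.norm_natCast_le_one ℚ_[2] _)
  · have e := mes_sum D k fun _ => 1
    simp only [mul_one] at e
    rw [e, hAN1 D k hk]

end Pool.Agent.P.MP_9c97e9_nt.K2
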