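import Pool.Agent.P.MP_8b7eba_nt.ModPer

/-! The real period of `y ^ 2 = 4 x ^ 3 - 7 x ^ 2 - 36 x`. -/

open Complex Filter Topology MeasureTheory Set
open scoped Real ComplexConjugate

namespace Pool.Agent.P.MP_9c97e9_nt.K2.TAPR

open Pool.Agent.P.MP_8b7eba_nt.Mod

/-- The rotated integrand. -/
noncomputable def H2 (x : ℂ) : ℂ := -I * hh x

/-- The rotated primitive. -/
noncomputable def P2 (x : ℂ) : ℂ := -I * Ph x

lemma H2_sq (x : ℂ) : H2 x ^ 2 = (-cub x)⁻¹ := by
  rw [H2, mul_pow, hh_sq, neg_sq, I_sq, inv_neg, neg_one_mul]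

lemma H2_diff {x : ℂ} (h : Dom x) : DifferentiableAt ℂ H2 x := (hh_diff h).const_mul _

lemma P2_cont : ContinuousOn P2 {x | 0 ≤ x.im} := continuousOn_const.mul Ph_cont

lemma P2_tendsto {α : Type*} {l : Filter α} [l.IsCountablyGenerated] {X : α → ℂ}
    (h0 : ∀ a, 0 ≤ (X a).im) (h : Tendsto X l (Bornology.cobounded ℂ)) :
    Tendsto (fun a => P2 (X a)) l (𝓝 0) := by
  simpa [P2] using (Ph_tendsto h0 h).const_mul (-I)

lemma P2_deriv {x : ℂ} (hx : 0 < x.im) : HasDerivAt P2 (H2 x) x := (Ph_deriv hx).const_mul _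

/-- The real part of the primitive on the real line. -/
noncomputable def UU (x : ℝ) : ℝ := (P2 x).im

lemma UU_deriv {x : ℝ} (hx : cub x ≠ 0) : HasDerivAt UU (H2 x).im x := by
  obtain ⟨δ, hδ, h⟩ := Metric.isOpen_iff.1 (isOpen_ne_fun (f := fun x : ℝ => cub x)
    (by unfold cub; fun_prop) continuous_const) x hx
  obtain ⟨G, h1, h2⟩ := Ph_prim (K := re ⁻¹' Metric.ball x δ)
    ((convex_ball x δ).linear_preimage reLm) (Metric.isOpen_ball.preimage continuous_re)
    (fun _ hy => .inr (h hy)) (fun y hy t => by simpa [← ofReal_pow] using hy) (x := x)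
    (by simpa using hδ) (by simp)
  exact imCLM.hasFDerivAt.comp_hasDerivAt x ((h1.comp_ofReal.congr_of_eventuallyEq
    (f₁ := fun y : ℝ => Ph y) (mem_of_superset (Metric.ball_mem_nhds x hδ)
      fun y hy => h2 y (by simpa using hy) (by simp))).const_mul (-I))

lemma UU_cont : Continuous UU :=
  continuous_im.comp (P2_cont.comp_continuous continuous_ofReal fun x => by simp)

lemma UU_top : Tendsto UU atTop (𝓝 0) := (continuous_im.tendsto' 0 0 rfl).comp
  (P2_tendsto (by simp) (RCLike.tendsto_ofReal_atTop_cobounded ℂ))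

lemma UU_bot : Tendsto UU atBot (𝓝 0) := (continuous_im.tendsto' 0 0 rfl).comp
  (P2_tendsto (by simp) (RCLike.tendsto_ofReal_atBot_cobounded ℂ))

lemma UU_const {a b : ℝ} (hab : a ≤ b) (h : ∀ x ∈ Ioo a b, cub x < 0) : UU b = UU a := by
  have := intervalIntegral.integral_eq_sub_of_hasDerivAt_of_le (f' := fun _ => 0) hab
    UU_cont.continuousOn (fun x hx => by
      have := UU_deriv (h x hx).ne
      rwa [im_zero_of_sq (r := (-cub x)⁻¹) (by rw [H2_sq, cub_ofReal, ofReal_inv, ofReal_neg])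
        (inv_nonneg.2 (neg_nonneg.2 (h x hx).le))] at this) intervalIntegrable_const
  simp only [intervalIntegral.integral_zero] at this
  linarith

/-- Half of the real period. -/
noncomputable def J0 : ℝ := UU 0

lemma UU_left {x : ℝ} (hx : x ≤ -9 / 4) : UU x = 0 := by
  refine tendsto_nhds_unique (tendsto_const_nhds.congr' ?_) UU_bot
  filter_upwards [eventually_le_atBot x] with y hy
  refine UU_const hy fun t ht => ?_
  have := ht.2
  rw [cub_eq]
  exact mul_neg_of_pos_of_neg (mul_pos_of_neg_of_neg (by linarith) (by linarith)) (by linarith)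

lemma UU_mid {x : ℝ} (h1 : 0 ≤ x) (h2 : x ≤ 4) : UU x = J0 := by
  refine UU_const h1 fun t ht => ?_
  have := ht.1
  have := ht.2
  rw [cub_eq]
  exact mul_neg_of_pos_of_neg (mul_pos (by linarith) (by linarith)) (by linarith)

/-- The integrand of the real period. -/
noncomputable def sq2 (x : ℝ) : ℝ := (√(cub x))⁻¹

lemma H2_real (x : ℝ) : H2 x = -I * (rt x * rt (4 * x + 9 : ℝ) * rt (x - 4 : ℝ))⁻¹ := by
  rw [H2, hh]; push_cast; rfl

lemma deriv_mid2 {x : ℝ} (hx : x ∈ Ioo (-9 / 4 : ℝ) 0) :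
    0 < sq2 x ∧ HasDerivAt UU (sq2 x) x := by
  obtain ⟨h1, h2⟩ := hx
  have e : cub x = -x * ((4 * x + 9) * -(x - 4)) := by rw [cub]; ring
  have h3 : 0 < cub x := e ▸ mul_pos (by linarith) (mul_pos (by linarith) (by linarith))
  refine ⟨inv_pos.2 (Real.sqrt_pos.2 h3), (UU_deriv h3.ne').congr_deriv ?_⟩
  rw [H2_real, rt_neg (by linarith), rt_pos (by linarith), rt_neg (by linarith), sq2, e,
    Real.sqrt_mul (by linarith), Real.sqrt_mul (by linarith)]
  simp [mul_comm, mul_left_comm]

lemma deriv_right2 {x : ℝ} (hx : x ∈ Ioi (4 : ℝ)) :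
    0 < sq2 x ∧ HasDerivAt (fun x => -UU x) (sq2 x) x := by
  have h1 : 4 < x := hx
  have e : cub x = x * ((4 * x + 9) * (x - 4)) := by rw [cub]; ring
  have h3 : 0 < cub x := e ▸ mul_pos (by linarith) (mul_pos (by linarith) (by linarith))
  refine ⟨inv_pos.2 (Real.sqrt_pos.2 h3), (UU_deriv h3.ne').neg.congr_deriv ?_⟩
  rw [H2_real, rt_pos (by linarith), rt_pos (by linarith), rt_pos (by linarith), sq2, e,
    Real.sqrt_mul (by linarith), Real.sqrt_mul (by linarith)]
  simp [mul_comm, mul_left_comm]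

theorem sq2_spec : 0 < J0 ∧ ∫ x, sq2 x = 2 * J0 := by
  have hc := UU_cont
  have h1 := intervalIntegral.integrableOn_deriv_of_nonneg (a := -9 / 4) (b := 0) hc.continuousOn
    (fun x hx => (deriv_mid2 hx).2) fun x hx => (deriv_mid2 hx).1.le
  have h1' := (intervalIntegrable_iff_integrableOn_Ioc_of_le (by norm_num)).2 h1
  have h2 := intervalIntegral.integral_eq_sub_of_hasDerivAt_of_le (by norm_num) hc.continuousOn
    (fun x hx => (deriv_mid2 hx).2) h1'
  have h3 := integrableOn_Ioi_deriv_of_nonneg (a := 4) hc.neg.continuousWithinAt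
    (fun x hx => (deriv_right2 hx).2) (fun x hx => (deriv_right2 hx).1.le) UU_top.neg
  have h4 := integral_Ioi_of_hasDerivAt_of_nonneg (a := 4) hc.neg.continuousWithinAt
    (fun x hx => (deriv_right2 hx).2) (fun x hx => (deriv_right2 hx).1.le) UU_top.neg
  have h5 : ∀ x, x ∉ Ioc (-9 / 4 : ℝ) 0 ∪ Ioi 4 → sq2 x = 0 := fun x hx => by
    simp only [mem_union, mem_Ioc, mem_Ioi, not_or, not_and, not_le, not_lt] at hx
    rw [sq2, Real.sqrt_eq_zero'.2, inv_zero]
    rw [cub]
    rcases le_or_gt x (-9 / 4) with h | h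
    · nlinarith [mul_nonneg (show 0 ≤ -x by linarith) (show 0 ≤ 4 - x by linarith)]
    · nlinarith [mul_nonneg (hx.1 h).le (show 0 ≤ 4 - x by linarith)]
  rw [UU_left le_rfl, sub_zero] at h2
  refine ⟨(intervalIntegral.intervalIntegral_pos_of_pos_on h1' (fun x hx => (deriv_mid2 hx).1)
    (by norm_num)).trans_eq h2, ?_⟩
  rw [← setIntegral_eq_integral_of_forall_compl_eq_zero h5, setIntegral_union
    (Ioc_disjoint_Ioi (by norm_num)) measurableSet_Ioi h1 h3, h4,
    ← intervalIntegral.integral_of_le (by norm_num), h2, Pi.neg_apply,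
    UU_mid (x := 4) (by norm_num) le_rfl, J0]
  ring

/-- The real period of the twist by `n`. -/
theorem real_period2 {n : ℝ} (hn : 0 < n) :
    2 * ∫ x in {x : ℝ | 0 < 4 * x ^ 3 - 7 * n * x ^ 2 - 36 * n ^ 2 * x},
      1 / √(4 * x ^ 3 - 7 * n * x ^ 2 - 36 * n ^ 2 * x) = 4 * J0 / √n := by
  have h : ∀ x : ℝ, 1 / √(4 * x ^ 3 - 7 * n * x ^ 2 - 36 * n ^ 2 * x) =
      1 / (n * √n) * sq2 (x / n) := fun x => by
    rw [sq2, show 4 * x ^ 3 - 7 * n * x ^ 2 - 36 * n ^ 2 * x = n ^ 2 * (n * cub (x / n)) by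
      rw [cub]; field_simp, Real.sqrt_mul (by positivity), Real.sqrt_mul hn.le,
      Real.sqrt_sq hn.le]
    ring
  rw [setIntegral_eq_integral_of_forall_compl_eq_zero fun x hx => by
    rw [Real.sqrt_eq_zero'.2 (not_lt.1 hx), div_zero]]
  simp only [h]
  rw [integral_const_mul, Measure.integral_comp_div, sq2_spec.2, abs_of_pos hn, smul_eq_mul]
  field_simp
  ring

lemma rf_H2_sq (x : ℂ) : rf H2 x ^ 2 = (-cub x)⁻¹ := by
  unfold rf
  split_ifs
  · exact H2_sq x
  · rw [neg_sq, ← map_pow, H2_sq, cub_conj]; simp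

lemma rf_deriv2 {x : ℂ} (hx : x.im ≠ 0) : HasDerivAt (rf P2) (rf H2 x) x := by
  rcases hx.lt_or_gt with h | h
  · have := (P2_deriv (x := conj x) (by simpa using h)).conj_conj.neg
    rw [conj_conj] at this
    rw [rf, if_neg h.not_ge]
    refine this.congr_of_eventuallyEq (mem_of_superset
      ((isOpen_lt continuous_im continuous_const).mem_nhds h) fun y hy => if_neg (not_le.2 hy))
  · rw [rf, if_pos h.le]
    refine (P2_deriv h).congr_of_eventuallyEq (mem_of_superset
      ((isOpen_lt continuous_const continuous_im).mem_nhds h) fun y hy => if_pos (le_of_lt hy))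

lemma rf_P2_cont : Continuous fun x => (rf P2 x).im := by
  simp only [rf_im]
  exact continuous_im.comp (P2_cont.comp_continuous fold_cont fun x => abs_nonneg x.im)

lemma rf_H2_cont {x : ℂ} (h : x.im = 0 → Real.sin (π / J0 * (rf P2 x).im) ≠ 0) :
    ContinuousAt (rf H2) x := by
  rcases lt_trichotomy x.im 0 with h0 | h0 | h0
  · have : ContinuousAt (fun y => -conj (H2 (conj y))) x := (continuous_conj.continuousAt.comp
      ((H2_diff (.inl (by simpa using h0))).continuousAt.comp continuous_conj.continuousAt)).neg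
    exact this.congr (mem_of_superset ((isOpen_lt continuous_im continuous_const).mem_nhds h0)
      fun y hy => (if_neg (not_le.2 hy)).symm)
  · replace h := h h0
    lift x to ℝ using h0
    rw [rf, if_pos (by simp)] at h
    have h1 : 0 < cub x := by
      by_contra! h1
      have h2 : UU x = 0 ∨ UU x = J0 := by
        by_cases h2 : x ≤ -9 / 4
        · exact .inl (UU_left h2)
        · rw [cub_eq] at h1
          have h3 : x * (x - 4) ≤ 0 := by nlinarith
          exact .inr (UU_mid (by nlinarith) (by nlinarith))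
      refine h ?_
      rcases h2 with h2 | h2 <;> simp [show (P2 x).im = _ from h2, sq2_spec.1.ne']
    have h2 := (H2_diff (x := x) (.inr h1.ne')).continuousAt
    have h3 : -conj (H2 (conj x)) = H2 x := by
      have := im_zero_of_sq (z := I * H2 x) (r := (cub x)⁻¹) (by
        rw [mul_pow, H2_sq, cub_ofReal, I_sq]; simp) (inv_nonneg.2 h1.le)
      rw [conj_ofReal]
      exact Complex.ext (by simpa [neg_eq_self] using this) (by simp)
    have h4 : ContinuousAt (fun y => -conj (H2 (conj y))) x := (continuous_conj.continuousAt.comp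
      (h2.comp_of_eq continuous_conj.continuousAt (conj_ofReal x))).neg
    rw [ContinuousAt, rf, if_pos (by simp)]
    exact Tendsto.if' h2 (h3 ▸ h4)
  · exact (H2_diff (.inl h0)).continuousAt.congr (mem_of_superset
      ((isOpen_lt continuous_const continuous_im).mem_nhds h0) fun y hy => (if_pos (le_of_lt hy)).symm)

/-- The character of the real period, as a function on the curve. -/
noncomputable def T2 (x y : ℂ) : ℂ := Real.cos (π / J0 * (rf P2 x).im) +
  y * rf H2 x * Real.sin (π / J0 * (rf P2 x).im) * I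

lemma sg_sq2 {x y : ℂ} (h : y ^ 2 = -cub x) : (y * rf H2 x) ^ 2 = -cub x * (-cub x)⁻¹ := by
  rw [mul_pow, rf_H2_sq, h]

lemma T2_tendsto {α : Type*} {l : Filter α} {X Y : α → ℂ} (h : ∀ᶠ a in l, Y a ^ 2 = -cub (X a))
    {v : ℝ} (hv : Tendsto (fun a => (rf P2 (X a)).im) l (𝓝 v)) (h0 : Real.sin (π / J0 * v) = 0) :
    Tendsto (fun a => T2 (X a) (Y a)) l (𝓝 (Real.cos (π / J0 * v))) := by
  have h1 := hv.const_mul (π / J0)
  have h2 : Tendsto (fun a => Y a * rf H2 (X a) * Real.sin (π / J0 * (rf P2 (X a)).im)) l (𝓝 0) := by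
    refine squeeze_zero_norm' ?_ (by simpa [h0] using ((Real.continuous_sin.tendsto _).comp h1).norm)
    filter_upwards [h] with a ha
    have h3 : ‖Y a * rf H2 (X a)‖ ≤ 1 := by
      rw [← sq_le_one_iff₀ (norm_nonneg _), ← norm_pow, sg_sq2 ha, norm_mul, norm_inv]
      exact mul_inv_le_one
    rw [norm_mul, norm_real]
    exact mul_le_of_le_one_left (norm_nonneg _) h3
  simpa [T2] using ((continuous_ofReal.tendsto _).comp ((Real.continuous_cos.tendsto _).comp h1)).add
    (h2.mul_const I)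

theorem path_odd2 {X Y F φ : ℝ → ℂ} {L : ℂ} (hF : ∀ s, 0 < s → HasDerivAt F (φ s) s)
    (hX : ∀ s, 0 < s → HasDerivAt X (Y s * φ s) s) (hY : ∀ s, 0 < s → ContinuousAt Y s)
    (hc : ∀ s, 0 < s → Y s ^ 2 = -cub (X s)) (hZ : {s | 0 < s ∧ (X s).im = 0}.Countable)
    (h1 : Tendsto X atTop (Bornology.cobounded ℂ)) (h2 : Tendsto F atTop (𝓝 0))
    (h3 : Tendsto X (𝓝[>] 0) (𝓝 0)) (h4 : Tendsto F (𝓝[>] 0) (𝓝 L)) :
    ∃ k : ℤ, Odd k ∧ L.im = k * J0 := by
  set e : ℂ → ℂ := fun w => cexp ((π / J0 * w.im : ℝ) * I) with he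
  have e1 : Differentiable ℝ e := by
    refine Differentiable.cexp (Differentiable.mul_const ?_ _)
    exact ofRealCLM.differentiable.comp (imCLM.differentiable.const_mul _)
  set D : ℝ → ℂ := fun s => T2 (X s) (Y s) * e (-F s) with hD
  have hev : ∀ s : ℝ, 0 < s → ∀ᶠ t in 𝓝 s, Y t ^ 2 = -cub (X t) := fun s hs =>
    (lt_mem_nhds hs).mono hc
  have c1 : ∀ s, 0 < s → ContinuousAt D s := fun s hs => by
    refine ContinuousAt.mul ?_ (e1.continuous.continuousAt.comp (hF s hs).continuousAt.neg)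
    have h5 := rf_P2_cont.continuousAt.comp (hX s hs).continuousAt
    by_cases h : Real.sin (π / J0 * (rf P2 (X s)).im) = 0
    · simpa [ContinuousAt, T2, h] using T2_tendsto (hev s hs) h5 h
    · have h6 := (rf_H2_cont fun _ => h).comp (hX s hs).continuousAt
      have h7 := hY s hs
      unfold T2
      fun_prop
  have c2 : ∀ s, 0 < s → (X s).im ≠ 0 → HasDerivAt D 0 s := fun s hs h0 => by
    have h5 := rf_deriv2 h0
    have h6 : ∀ t, 0 < t → (X t).im ≠ 0 → (Y t * rf H2 (X t)) ^ 2 = 1 := fun t ht h => by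
      rw [sg_sq2 (hc t ht), mul_inv_cancel₀]
      rw [neg_ne_zero, cub_eq]
      refine mul_ne_zero (mul_ne_zero ?_ ?_) ?_ <;> exact fun h' => h (by simpa using congrArg im h')
    have h7 : ContinuousAt (rf H2) (X s) := rf_H2_cont fun h => absurd h h0
    set σ := Y s * rf H2 (X s) with hσ
    have h8 : σ ^ 2 = 1 := h6 s hs h0
    have h9 := ((h5.comp s (hX s hs)).const_mul σ).sub (hF s hs)
    rw [show σ * (rf H2 (X s) * (Y s * φ s)) - φ s = 0 by linear_combination φ s * h8] at h9
    refine ((e1 _).hasFDerivAt.comp_hasDerivAt s h9).congr_deriv (map_zero _)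
      |>.congr_of_eventuallyEq ?_
    have h10 := (((hY s hs).mul (h7.comp (hX s hs).continuousAt)).add_const σ).eventually_ne
      (y := 0) (fun h => by
        simp [add_self_eq_zero.1 (show σ + σ = 0 from h)] at h8)
    filter_upwards [lt_mem_nhds hs, h10,
      (continuous_im.continuousAt.comp (hX s hs).continuousAt).eventually_ne h0] with t ht h11 h12
    have h13 : Y t * rf H2 (X t) = σ := sub_eq_zero.1 ((mul_eq_zero.1
      (show (_ - σ) * (Y t * rf H2 (X t) + σ) = 0 by
        linear_combination h6 t ht h12 - h8)).resolve_right h11)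
    simp only [hD, he, T2, h13, Function.comp, Pi.sub_apply]
    rw [sub_eq_add_neg (σ * _), add_im, mul_add, ofReal_add, add_mul _ _ I, Complex.exp_add,
      exp_mul_I (ofReal (π / J0 * (σ * _).im)), ← ofReal_cos, ← ofReal_sin]
    rcases sq_eq_one_iff.1 h8 with h | h <;> simp [h]
  have c3 : ∀ a b, 0 < a → a ≤ b → D b = D a := fun a b ha hab => by
    have := integral_eq_of_hasDerivAt_off_countable_of_le D (fun _ => 0) hab hZ
      (fun s hs => (c1 s (ha.trans_le hs.1)).continuousWithinAt)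
      (fun s hs => c2 s (ha.trans hs.1.1) fun h => hs.2 ⟨ha.trans hs.1.1, h⟩)
      intervalIntegrable_const
    rw [intervalIntegral.integral_zero] at this
    exact sub_eq_zero.1 this.symm
  have c4 : Tendsto D atTop (𝓝 1) := by
    have h5 : Tendsto (fun s => (rf P2 (X s)).im) atTop (𝓝 0) := by
      simp only [rf_im]
      refine (continuous_im.tendsto' 0 0 rfl).comp (P2_tendsto (fun s => abs_nonneg (X s).im) ?_)
      rw [← tendsto_norm_atTop_iff_cobounded] at h1 ⊢
      refine h1.congr fun s => ?_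
      simp [Complex.norm_eq_sqrt_sq_add_sq]
    simpa [he, hD] using (T2_tendsto ((eventually_gt_atTop 0).mono hc) h5 (by simp)).mul
      ((e1.continuous.tendsto _).comp h2.neg)
  have c5 : Tendsto D (𝓝[>] 0) (𝓝 (-1 * e (-L))) := by
    have h5 : Tendsto (fun s => (rf P2 (X s)).im) (𝓝[>] 0) (𝓝 J0) :=
      (rf_P2_cont.tendsto' 0 J0 (by simp [rf, J0, UU])).comp h3
    have := (T2_tendsto (l := 𝓝[>] 0) (eventually_mem_nhdsWithin.mono hc) h5
      (by simp [sq2_spec.1.ne'])).mul ((e1.continuous.tendsto _).comp h4.neg)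
    rwa [div_mul_cancel₀ _ sq2_spec.1.ne', Real.cos_pi, ofReal_neg, ofReal_one] at this
  have c6 : ∀ a, 0 < a → D a = 1 := fun a ha => tendsto_nhds_unique (tendsto_const_nhds.congr'
    ((eventually_ge_atTop a).mono fun b hb => (c3 a b ha hb).symm)) c4
  have c7 := tendsto_nhds_unique (l := 𝓝[>] 0) (tendsto_const_nhds.congr'
    (eventually_mem_nhdsWithin.mono fun a ha => (c6 a ha).symm)) c5
  obtain ⟨n, hn⟩ := exp_eq_exp_iff_exists_int.1 (show e (-L) = cexp (π * I) by
    rw [exp_pi_mul_I]; linear_combination c7)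
  refine ⟨-(2 * n + 1), (odd_two_mul_add_one n).neg, ?_⟩
  have h5 := congrArg im hn
  have := sq2_spec.1
  have := Real.pi_pos
  simp at h5
  push_cast
  field_simp at h5
  linarith

end Pool.Agent.P.MP_9c97e9_nt.K2.TAPR
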