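import Pool.Agent.P.MP_9c97e9_nt.K2.Defs
import Pool.Agent.P.MP_9c97e9_nt.K2.TAPRA
import Pool.Agent.P.MP_8b7eba_nt.ModFin

/-! The real modular symbol is an odd multiple of the elliptic integral. -/

open Complex Filter Topology Set
open scoped Real

namespace Pool.Agent.P.MP_9c97e9_nt.K2

namespace TAPR

open Pool.Agent.P.MP_8b7eba_nt.Mod Pool.Agent.P.MP_8b7eba_nt.Mod.M2

theorem L0_odd : ∃ k : ℤ, Odd k ∧ -(2 * L0) = k * J0 := by
  set z : ℝ → ℂ := fun s => ((1 / 5 : ℚ) : ℂ) + s * I with hz
  have him : ∀ s, (z s).im = s := fun s => by simp [hz]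
  have hp : ∀ s, 0 < s → 0 < (z s).im := fun s hs => (him s).symm ▸ hs
  have hd : ∀ s, HasDerivAt z I s := fun s => by
    simpa [hz] using ((hasDerivAt_id (s : ℂ)).mul_const I).comp_ofReal
  have ht : Tendsto z atTop atI := tendsto_comap_iff.2 (tendsto_id.congr fun s => (him s).symm)
  have hy : DifferentiableOn ℂ yy UH := (diff_xx.deriv isOpen_UH).div (diff_ff.const_mul _)
    fun z hz => mul_ne_zero two_pi_I_ne (ff_ne hz)
  refine (path_odd2 (X := fun s => xx (z s)) (Y := fun s => I * yy (z s))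
    (F := fun s => -I * FI (z s)) (φ := fun s => -I * (2 * π * I * ff (z s) * I))
    (L := -I * lam (1 / 5))
    (fun s hs => ((hasDerivAt_FI (hp s hs)).comp s (hd s)).const_mul _)
    (fun s hs => ((diff_xx.differentiableAt (UH_mem_nhds (hp s hs))).hasDerivAt.comp s
      (hd s)).congr_deriv (by
        have := ff_ne (hp s hs)
        have := two_pi_I_ne
        rw [yy, mul_mul_mul_comm I, mul_neg, I_mul_I, neg_neg, one_mul]
        field_simp))
    (fun s hs => continuousAt_const.mul
      ((hy.differentiableAt (UH_mem_nhds (hp s hs))).continuousAt.comp (hd s).continuousAt))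
    (fun s hs => by
      rw [mul_pow, I_sq, neg_one_mul, sub_eq_zero.1 (RR_zero (hp s hs))]; rfl) ?_ ?_
    (by simpa using (tendsto_FI.comp ht).const_mul (-I)) ?_
    ((tendsto_lam _).const_mul _)).imp fun k h => ⟨h.1, ?_⟩
  · have ha : AnalyticOnNhd ℝ (fun s => (xx (z s)).im) (Ioi 0) := fun s hs =>
      (imCLM.analyticAt _).comp (((diff_xx.analyticAt (UH_mem_nhds (hp s hs))).restrictScalars
        (𝕜 := ℝ)).comp (f := z) (analyticAt_const.add ((ofRealCLM.analyticAt s).mul
          analyticAt_const)))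
    refine (countable_setOfPred_isolated_right_within
      (s := {s | 0 < s ∧ (xx (z s)).im = 0})).mono fun s hs => And.intro hs ?_
    by_contra hne
    have h0 := ha.eqOn_zero_of_preconnected_of_frequently_eq_zero isPreconnected_Ioi hs.1
      (Frequently.filter_mono (f := 𝓝[{s | 0 < s ∧ (xx (z s)).im = 0} ∩ Ioi s] s)
        (have := neBot_iff.2 hne; (eventually_mem_nhdsWithin.mono fun t ht => ht.1.2).frequently)
        (nhdsWithin_mono _ fun t ht => ne_of_gt ht.2))
    have h1 := (continuous_im.tendsto _).comp ((xx_qq.comp ht).mul_const (cexp (-(4 * π / 5 : ℝ) * I)))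
    have h2 : (1 * cexp (-(4 * π / 5 : ℝ) * I)).im = 0 := by
      refine tendsto_nhds_unique h1 (tendsto_const_nhds.congr' ?_)
      filter_upwards [eventually_gt_atTop 0] with t ht
      have : qq (z t) ^ 2 * cexp (-(4 * π / 5 : ℝ) * I) = Real.exp (-4 * π * t) := by
        rw [qq, ← Complex.exp_nat_mul, ← Complex.exp_add, ofReal_exp, hz]
        congr 1
        push_cast
        linear_combination 4 * π * t * I_sq
      simp only [Function.comp, mul_assoc, this, mul_im, ofReal_im, show (xx (z t)).im = 0 from h0 ht]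
      ring
    rw [one_mul, ← ofReal_neg, exp_ofReal_mul_I_im, Real.sin_neg, neg_eq_zero] at h2
    exact (Real.sin_pos_of_pos_of_lt_pi (by positivity) (by linarith [Real.pi_pos])).ne' h2
  · have h1 := ((tendsto_qq.pow 2).div xx_qq one_ne_zero).comp ht
    rw [zero_pow two_ne_zero, zero_div] at h1
    refine (tendsto_inv₀_nhdsNE_zero.comp (tendsto_nhdsWithin_iff.2 ⟨h1, ?_⟩)).congr fun s => ?_
    · filter_upwards [(xx_qq.comp ht).eventually_ne one_ne_zero] with s hs
      exact div_ne_zero (pow_ne_zero _ (qq_ne _)) hs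
    · have := qq_ne (z s)
      simp only [Function.comp, Pi.div_apply, inv_div]
      field_simp
  · have h2 : Tendsto (fun y : ℝ => (-1 / 5 : ℂ) + (1 / 25 * y⁻¹ : ℝ) * I) (𝓝[>] 0) atI :=
      tendsto_comap_iff.2 ((tendsto_inv_nhdsGT_zero.const_mul_atTop (r := 1 / 25)
        (by norm_num)).congr fun y => by simp)
    refine (xx_cusp.comp h2).congr' ?_
    filter_upwards [self_mem_nhdsWithin] with y hy
    have hy' : (y : ℂ) ≠ 0 := by exact_mod_cast (ne_of_gt hy)
    simp only [Function.comp, hz, act_eq, M2.j]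
    congr 1
    push_cast
    rw [div_eq_iff (by ring_nf; simp [hy'])]
    field_simp
    linear_combination -25 * y * I_sq
  · have h1 := lv_of_ne 1 (c := 5) (by norm_num)
    rw [lv_eq, show nP 1 5 = 2 by decide +kernel] at h1
    simpa [← h.2] using congrArg re h1

end TAPR

theorem t_APR : APR := by
  obtain ⟨k, h1, h2⟩ := TAPR.L0_odd
  refine ⟨4 * TAPR.J0, -k, mul_pos four_pos TAPR.sq2_spec.1, h1.neg, ?_,
    fun N hN => TAPR.real_period2 hN⟩
  push_cast
  linarith

end Pool.Agent.P.MP_9c97e9_nt.K2
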