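import Pool.Agent.P.MP_9c97e9_nt.K2.Defs
import Pool.Agent.P.MP_9c97e9_nt.Tam
import Pool.Agent.P.MP_9c97e9_nt.All.Padic

/-! The Tamagawa number at two of the twists with additive reduction. -/

namespace Pool.Agent.P.MP_9c97e9_nt.K2

open WeierstrassCurve WeierstrassCurve.Affine Classical PadicInt
open MP_8b7eba_nt.R3.MM (twb eq2)
open All (val_eq_of_norm val_of_norm norm_int norm_four_two sq_int_iff_two)

namespace TAT2

theorem four {G : Type} [AddCommGroup G] (φ ψ : G →+ ZMod 2) {S : Set G}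
    (h : ∀ P, P ∈ S ↔ φ P = 0 ∧ ψ P = 0) {A B : G} (a1 : φ A = 0) (a2 : ψ A = 1) (b1 : φ B = 1) :
    (AddSubgroup.closure S).index = 4 := by
  have : S = (φ.prod ψ).ker := by
    ext P
    rw [h, SetLike.mem_coe, AddMonoidHom.mem_ker, AddMonoidHom.prod_apply, Prod.mk_eq_zero]
  rw [this, AddSubgroup.closure_eq, AddSubgroup.index_ker, AddMonoidHom.range_eq_top.2 fun z => ?_]
  · simp
  · have : ∀ (z : ZMod 2 × ZMod 2) (b : ZMod 2), z = (0, 0) ∨ z = (0, 1) ∨ z = (1, b) ∨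
        z = (0 + 1, 1 + b) := by decide
    rcases this z (ψ B) with rfl | rfl | rfl | rfl
    exacts [⟨0, by simp⟩, ⟨A, by simp [a1, a2]⟩, ⟨B, by simp [b1]⟩, ⟨A + B, by simp [a1, a2, b1]⟩]

theorem spl {d : ℤ} (h : d ≠ 0) : Split (twb d) (0 : ℚ_[2]) (-9 * d) (16 * d) := by
  have h0 : (d : ℚ_[2]) ≠ 0 := by exact_mod_cast h
  refine ⟨two_ne_zero, by simp [h0], by simp [h0], fun e => h0 (by linear_combination -e / 25),
    ?_, ?_, ?_⟩ <;> simp only [twb] <;> push_cast <;> ring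

theorem mem (d : ℤ) (P : Pt (twb d) ℚ_[2]) :
    P ∈ goodRed (twb d) 2 ↔ ∀ x η, Is P x η → 1 ≤ ‖x‖ := by
  have key : ∀ x y : ℤ_[2], ((twb d)⁄ℚ_[2]).toAffine.Equation x y →
      (((twb d)⁄(ZMod 2)).toAffine.Nonsingular (toZMod x) (toZMod y) ↔ 1 ≤ ‖(x : ℚ_[2])‖) := by
    intro x y hxy
    rw [nonsingular_iff', and_iff_right (equation_red hxy), ← not_lt, ← norm_def, ← toZMod_eq_zero]
    simp only [bc, twb]
    push_cast
    generalize toZMod x = X, toZMod y = Y, (d : ZMod 2) = D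
    revert X Y D
    decide
  refine ⟨fun H x η hP => ?_, fun H x y h1 e => (key x y h1.1).2 (H x _ ⟨y, h1, e, rfl⟩)⟩
  by_contra hx
  obtain ⟨x, rfl⟩ : ∃ z : ℤ_[2], z = x := ⟨⟨x, (not_le.1 hx).le⟩, rfl⟩
  obtain ⟨y, h1, e, -⟩ := hP
  have h4 : ‖y‖ ≤ 1 := by
    have := h1.1
    rw [equation_iff] at this
    simp only [bc, twb] at this
    push_cast at this
    refine (pow_le_one_iff_of_nonneg (norm_nonneg _) two_ne_zero).1 ?_
    rw [← norm_pow, show y ^ 2 = x ^ 3 - 7 * d * x ^ 2 - 144 * d ^ 2 * x by linear_combination this]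
    exact (x ^ 3 - 7 * d * x ^ 2 - 144 * d ^ 2 * x : ℤ_[2]).2
  obtain ⟨y, rfl⟩ : ∃ z : ℤ_[2], z = y := ⟨⟨y, h4⟩, rfl⟩
  exact hx ((key x y h1.1).1 (H x y h1 e))

theorem hv : Chr fun x : ℚ_[2] => ((x.valuation : ℤ) : ZMod 2) := fun x y hx hy => by
  simp [Padic.valuation_mul hx hy]

theorem n2 : ‖(2 : ℚ_[2])‖ = 2⁻¹ := by simpa using Padic.norm_p (p := 2)

theorem dh1 {W : WeierstrassCurve ℤ} {a b c x η : ℚ_[2]} {P : Pt W ℚ_[2]} (hs : Split W a b c)
    (hP : Is P x η) (e : ‖x - a‖ = 2⁻¹) : dh hs hv P = 1 := by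
  show (((dl a b c P).valuation : ℤ) : ZMod 2) = 1
  rw [hP.dl_ne (norm_ne_zero_iff.1 (by rw [e]; positivity)), val_of_norm (k := 1) (by simpa using e)]
  simp

theorem half {x : ℚ_[2]} (h : ‖x‖ < 1) : ‖x‖ ≤ 2⁻¹ := by
  simpa using (Padic.norm_le_pow_iff_norm_lt_pow_add_one x (-1)).2 (by simpa using h)

theorem quarter {x : ℚ_[2]} (h : ‖x‖ < 2⁻¹) : ‖x‖ ≤ 1 / 4 := by
  have := (Padic.norm_le_pow_iff_norm_lt_pow_add_one x (-2)).2 (by simpa using h)
  norm_num at this ⊢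
  exact this

theorem additive {W : WeierstrassCurve ℤ} {e₁ e₂ e₃ : ℚ_[2]} (h : Split W e₁ e₂ e₃)
    (hm : ∀ P, P ∈ goodRed W 2 ↔ ∀ x η, Is P x η → 1 ≤ ‖x - e₁‖) (h12 : ‖e₁ - e₂‖ = 2⁻¹)
    (h13 : ‖e₁ - e₃‖ = 2⁻¹) : (AddSubgroup.closure (goodRed W 2)).index = 4 := by
  obtain ⟨A, hA⟩ := h.exists_is (x := e₁) (η := 0) (by simp)
  obtain ⟨B, hB⟩ := h.exists_is (x := e₂) (η := 0) (by simp)
  refine four (dh h hv) (dh h.swap hv) (fun P => ?_) (A := A) (B := B) ?_ (dh1 h.swap hA h12)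
    (dh1 h hB ((norm_sub_rev _ _).trans h12))
  · rw [hm]
    refine ⟨fun H => ?_, fun H x η hP => not_lt.1 fun hx => ?_⟩
    · rcases zero_or_is P with rfl | ⟨x, η, hP⟩
      · simp
      have h3 := H x η hP
      have h4 := norm_sub_eq (x := x) (h12.trans_lt (by linarith))
      have h5 := norm_sub_eq (x := x) (h13.trans_lt (by linarith))
      have h6 : x - e₁ ≠ 0 := norm_pos_iff.1 (by linarith)
      have h7 : x - e₂ ≠ 0 := norm_pos_iff.1 (by linarith)
      have h8 : x - e₃ ≠ 0 := norm_pos_iff.1 (by linarith)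
      rw [dh_eq _ _ hP h7 h8, dh_eq _ _ hP h6 h8, val_eq_of_norm h6 h4, val_eq_of_norm h6 h5]
      exact ⟨CharTwo.add_self_eq_zero _, CharTwo.add_self_eq_zero _⟩
    · rcases (half hx).eq_or_lt with h4 | h4
      · exact one_ne_zero ((dh1 h hP h4).symm.trans H.1)
      · refine one_ne_zero ((dh1 h.swap hP ?_).symm.trans H.2)
        rw [← h12] at h4 ⊢
        exact Padic.norm_eq_of_norm_sub_lt_right (by rwa [sub_sub_sub_cancel_right])
  · rw [dh_eq _ _ hA h.n12 h.n13, val_eq_of_norm h.n13 (h12.trans h13.symm)]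
    exact CharTwo.add_self_eq_zero _

theorem chr : ∃ f : ℚ_[2] → ZMod 2, Chr f ∧ (∀ a b, b ≠ 0 → ‖a - b‖ ≤ ‖b‖ / 4 → f a = f b) ∧
    ∀ k : ℤ, k % 4 = 3 → f k = 1 := by
  have hu : ∀ x : ℚ_[2], x ≠ 0 → ‖x * (2 : ℕ) ^ (-x.valuation)‖ = 1 := fun x hx => by
    rw [norm_mul, Padic.norm_p_zpow, Padic.norm_eq_zpow_neg_valuation hx, ← zpow_add₀ (by norm_num)]
    simp
  let u : ℚ_[2] → ℤ_[2] := fun x => if h : x = 0 then 0 else ⟨_, (hu x h).le⟩
  have e : ∀ x, x ≠ 0 → (u x : ℚ_[2]) = x * (2 : ℕ) ^ (-x.valuation) := fun x hx => by simp [u, hx]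
  have h0 : ∀ x, x ≠ 0 → toZModPow 2 (u x) = 1 ∨ toZModPow 2 (u x) = 3 := fun x hx => by
    obtain ⟨c, hc⟩ := ((isUnit_iff.2 (by rw [norm_def, e x hx, hu x hx] : ‖u x‖ = 1)).map
      (toZModPow 2)).exists_right_inv
    revert hc
    generalize toZModPow 2 (u x) = a
    revert a c
    decide
  refine ⟨fun x => if toZModPow 2 (u x) = 1 then 0 else 1, fun x y hx hy => ?_,
    fun a b hb h => ?_, fun k h => ?_⟩
  · have : u (x * y) = u x * u y := PadicInt.ext (by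
      rw [coe_mul, e _ hx, e _ hy, e _ (mul_ne_zero hx hy), Padic.valuation_mul hx hy, neg_add,
        zpow_add₀ (by norm_num)]
      ring)
    simp only [this, map_mul]
    rcases h0 x hx with h | h <;> rcases h0 y hy with h' | h' <;> rw [h, h'] <;> decide
  · have hb' := norm_pos_iff.2 hb
    have h1 : ‖a‖ = ‖b‖ := Padic.norm_eq_of_norm_sub_lt_right (by linarith)
    have ha : a ≠ 0 := norm_ne_zero_iff.1 (h1 ▸ hb'.ne')
    have : toZModPow 2 (u a) = toZModPow 2 (u b) := by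
      rw [← sub_eq_zero, ← map_sub, ← RingHom.mem_ker, ker_toZModPow,
        ← norm_le_pow_iff_mem_span_pow, norm_def, coe_sub, e _ ha, e _ hb, val_eq_of_norm hb h1,
        ← sub_mul, norm_mul]
      have h2 := hu b hb
      rw [norm_mul] at h2
      refine (mul_le_mul_of_nonneg_right h (norm_nonneg _)).trans_eq ?_
      rw [div_mul_eq_mul_div, h2]
      norm_num
    simp only [this]
  · have h1 : ‖(k : ℚ_[2])‖ = 1 := norm_int (by omega)
    have h2 : (k : ℚ_[2]) ≠ 0 := norm_ne_zero_iff.1 (by simp [h1])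
    have : u k = k := PadicInt.ext (by
      rw [e _ h2, val_of_norm (k := 0) (by simpa using h1)]
      simp)
    have h3 : toZModPow 2 (k : ℤ_[2]) = 3 := by
      rw [map_intCast]
      exact_mod_cast (ZMod.intCast_eq_intCast_iff_dvd_sub k 3 (2 ^ 2)).2 (by omega)
    simp only [this, h3]
    decide

theorem odd {d : ℤ} (hd : d % 4 = 3) : (AddSubgroup.closure (goodRed (twb d) 2)).index = 4 := by
  obtain ⟨f, hf, f1, f2⟩ := chr
  have h := spl (d := d) (by omega)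
  have n9 : ‖(0 : ℚ_[2]) - -9 * d‖ = 1 := by
    simpa using norm_int (p := 2) (k := 9 * d) (by omega)
  have n16 : ‖(0 : ℚ_[2]) - 16 * d‖ ≤ 1 / 4 := by
    rw [show (0 : ℚ_[2]) - 16 * d = 4 * (-4 * d : ℤ) by push_cast; ring, norm_mul, norm_four_two]
    exact mul_le_of_le_one_right (by norm_num) (Padic.norm_int_le_one _)
  have bad : ∀ {P : Pt (twb d) ℚ_[2]} {x η}, Is P x η → ‖x‖ ≤ 1 / 4 → dh h.swap hf P = 1 :=
    fun {P x η} hP hx => by
      have h1 : ‖x - -9 * d‖ = 1 := n9 ▸ Padic.norm_eq_of_norm_sub_lt_right (by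
        rw [sub_sub_sub_cancel_right, sub_zero, n9]
        linarith)
      show f (dl _ _ _ P) = 1
      rw [hP.dl_ne (norm_ne_zero_iff.1 (h1.trans_ne one_ne_zero)), f1 _ (0 - -9 * d) h.n12 (by
        rwa [sub_sub_sub_cancel_right, sub_zero, n9]), ← f2 (9 * d) (by omega)]
      simp
  obtain ⟨u, rfl⟩ : ∃ u, d = 4 * u + 3 := ⟨d / 4, by omega⟩
  have h8 : (18 * u + 13) * (50 * u + 37) % 8 = 1 := by
    obtain ⟨t, ht⟩ := Int.even_mul_succ_self u
    rw [show (18 * u + 13) * (50 * u + 37) = 1 + 8 * (t + 112 * u ^ 2 + 164 * u + 60) by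
      linear_combination 4 * ht]
    omega
  obtain ⟨r, hr⟩ := (sq_int_iff_two (by omega)).2 h8
  obtain ⟨A, hA⟩ := h.exists_is (x := (2 : ℚ_[2]) * (-(18 * u + 13) : ℤ)) (η := 4 * r) (by
    push_cast at hr ⊢
    linear_combination -16 * hr)
  obtain ⟨B, hB⟩ := h.exists_is (x := 0) (η := 0) (by simp)
  refine four (dh h.swap hf) (dh h hv) (fun P => ?_) (A := A) (B := B) ?_ (dh1 h hA ?_)
    (bad hB (by simp))
  · rw [mem]
    refine ⟨fun H => ?_, fun H x η hP => not_lt.1 fun hx => ?_⟩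
    · rcases zero_or_is P with rfl | ⟨x, η, hP⟩
      · simp
      have h3 : 1 ≤ ‖x - 0‖ := by simpa using H x η hP
      have h5 := norm_sub_eq (x := x) (n16.trans_lt (by linarith))
      have h6 : x - 0 ≠ 0 := norm_pos_iff.1 (by linarith)
      have h8 := norm_pos_iff.1 ((one_pos.trans_le h3).trans_eq h5.symm)
      constructor
      · rw [dh_eq _ _ hP h6 h8, f1 (x - 16 * _) _ h6 (by rw [sub_sub_sub_cancel_left]; linarith)]
        exact CharTwo.add_self_eq_zero _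
      rcases h3.eq_or_lt with h4 | h4
      · show (((dl _ _ _ P).valuation : ℤ) : ZMod 2) = 0
        rw [hP.dl_ne h6, val_of_norm (k := 0) (by simpa using h4.symm)]
        simp
      · have h7 := norm_sub_eq (n9.trans_lt h4)
        rw [dh_eq _ _ hP (norm_pos_iff.1 (by linarith)) h8, val_eq_of_norm h6 h7,
          val_eq_of_norm h6 h5]
        exact CharTwo.add_self_eq_zero _
    · rcases (half hx).eq_or_lt with h4 | h4
      · exact one_ne_zero ((dh1 h hP (by simpa using h4)).symm.trans H.2)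
      · exact one_ne_zero ((bad hP (quarter h4)).symm.trans H.1)
  · show f (dl _ _ _ A) = 0
    have e : (2 : ℚ_[2]) * (-(18 * u + 13) : ℤ) - -9 * (4 * u + 3 : ℤ) = 1 := by
      push_cast
      ring
    have := hf 1 1 one_ne_zero one_ne_zero
    rw [hA.dl_ne (by rw [e]; exact one_ne_zero), e]
    rw [one_mul, CharTwo.add_self_eq_zero] at this
    exact this
  · rw [sub_zero, norm_mul, n2, norm_int (by omega), mul_one]

end TAT2

open TAT2

theorem t_AT2 : AT2 := fun d h1 h4 => by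
  have h0 : ¬ 4 ∣ d := fun h => absurd (h1 2 h) (by decide)
  rw [eq2 h4]
  by_cases h3 : d % 4 = 3
  · exact odd h3
  obtain ⟨u, rfl⟩ : ∃ u, d = 2 * u := ⟨d / 2, by omega⟩
  have n : ∀ k : ℤ, ¬ 2 ∣ k → ‖(2 : ℚ_[2]) * (k * u : ℤ)‖ = 2⁻¹ := fun k hk => by
    rw [norm_mul, n2, norm_int fun e => (Int.prime_two.dvd_or_dvd e).elim hk (by omega), mul_one]
  have n9 : ‖(-9 : ℚ_[2]) * (2 * u : ℤ) - 0‖ = 2⁻¹ := by
    rw [← n (-9) (by omega)]
    push_cast
    ring_nf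
  refine additive (spl h1.ne_zero).swap (fun P => ?_) n9 ?_
  · rw [mem]
    refine forall₃_congr fun x η _ => ⟨fun H => ?_, fun H => ?_⟩
    · rw [← sub_zero x] at H
      rwa [norm_sub_eq (by rw [norm_sub_rev, n9]; linarith)]
    · rwa [← sub_zero x, norm_sub_eq (by rw [n9]; linarith)]
  · rw [← n (-25) (by omega)]
    push_cast
    ring_nf

end Pool.Agent.P.MP_9c97e9_nt.K2
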