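import Pool.Agent.P.MP_9c97e9_nt.K2.TF2X
import Pool.Agent.P.MP_9c97e9_nt.All.Tam

/-! The Tamagawa numbers of all the twists. -/

namespace Pool.Agent.P.MP_9c97e9_nt.K2

open MP_8b7eba_nt.R3 (twa ds)
open MP_8b7eba_nt.R3.MM (eq1 eq2 twb dvd_disc)
open All (norm_nat norm_int norm_four tam_split)
open PadicInt Finset Classical

namespace TATM

section
variable {p : ℕ} [hp : Fact p.Prime]

/-- the roots at an odd prime -/
theorem roots {d : ℤ} (h0 : d ≠ 0) (h2 : p ≠ 2) : ∃ y s : ℤ_[p], ‖(s : ℚ_[p])‖ = 1 ∧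
    y = d * s ^ 2 ∧ Split (twa d) (0 : ℚ_[p]) (-9 * y) (16 * y) := by
  have n2 : ‖(2 : ℚ_[p])‖ = 1 := norm_nat (k := 2) fun e =>
    h2 ((Nat.prime_dvd_prime_iff_eq hp.1 Nat.prime_two).1 e)
  by_cases h4 : d % 4 = 1
  · refine ⟨_, ⟨2⁻¹, by simp [n2]⟩, by simp [n2], rfl, ?_⟩
    rw [eq1 h4]
    convert MP_8b7eba_nt.R2.TMIS.split_twd h4 ℚ_[p] using 1 <;> push_cast <;> ring
  · have h : (d : ℚ_[p]) ≠ 0 := by exact_mod_cast h0
    rw [eq2 h4]
    refine ⟨d, 1, by simp, by simp, two_ne_zero, by simpa using h, by simpa using h,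
      fun e => h (by push_cast at e; linear_combination -e / 25), ?_, ?_, ?_⟩ <;>
      simp only [twb] <;> push_cast <;> ring

/-- multiplicative reduction -/
theorem mult (h2 : p ≠ 2) {W : WeierstrassCurve ℤ} {a b c s : ℤ_[p]} {m : ℤ}
    (h : Split W (a : ℚ_[p]) b c) (hab : ‖(a : ℚ_[p]) - b‖ = (p : ℝ) ^ (-2 : ℤ))
    (hs : ‖(s : ℚ_[p])‖ = 1) (e : a - c = m * s ^ 2) (hm : ¬ (p : ℤ) ∣ m) :
    (AddSubgroup.closure (goodRed W p)).index = if jacobiSym m p = 1 then 4 else 2 := by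
  have hp1 : (1 : ℝ) < p := by exact_mod_cast hp.1.one_lt
  have s0 : toZMod s ≠ 0 := fun e => (toZMod_eq_zero.1 e).ne hs
  have k : IsSquare (toZMod (a - c)) ↔ IsSquare (m : ZMod p) := by
    rw [e, map_mul, map_pow, map_intCast]
    exact ⟨fun ⟨r, hr⟩ => ⟨r / toZMod s, by field_simp; linear_combination hr⟩,
      fun h => h.mul (IsSquare.sq _)⟩
  split_ifs with h1
  · refine tam_split h2 h hab ?_ (k.2 (ZMod.isSquare_of_jacobiSym_eq_one h1))
    change ‖((a - c : ℤ_[p]) : ℚ_[p])‖ = 1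
    rw [e]
    push_cast
    rw [norm_mul, norm_pow, hs, norm_int hm, one_pow, mul_one]
  · refine index_nonsplit h2 h ?_ (mt k.1 (ZMod.nonsquare_of_jacobiSym_eq_neg_one
      ((jacobiSym.eq_one_or_neg_one (Int.isCoprime_iff_gcd_eq_one.1
        ((Nat.prime_iff_prime_int.1 hp.1).coprime_iff_not_dvd.2 hm).symm)).resolve_left h1)))
    rw [hab]
    exact zpow_lt_one_of_neg₀ hp1 (by norm_num)

end

theorem tam (hAT2 : AT2) (D : Dat) (p : Nat.Primes) :
    tamagawa (twa D.d) p = if p.1 ∣ 30 * D.n then D.tc p.1 else 1 := by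
  obtain ⟨p, hp⟩ := p
  have := Fact.mk hp
  by_cases h2 : p = 2
  · subst h2
    rw [if_pos (Dvd.dvd.mul_right (by norm_num) _), Dat.tc, if_pos rfl]
    split_ifs with h4
    · refine index_good fun e => ?_
      rw [dvd_disc hp, ds, if_pos h4] at e
      omega
    · exact hAT2 _ D.sq_d h4
  obtain ⟨y, s, hs, hy, h⟩ := roots D.d_ne h2
  change (AddSubgroup.closure (goodRed (twa D.d) p)).index = if p ∣ 30 * D.n then D.tc p else 1
  rw [Dat.tc, if_neg h2]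
  have h4 := norm_four h2
  have hy' : ‖(y : ℚ_[p])‖ = ‖(D.d : ℚ_[p])‖ := by
    rw [hy]
    push_cast
    rw [norm_mul, norm_pow, hs, one_pow, mul_one]
  have h4s : ‖((4 * s : ℤ_[p]) : ℚ_[p])‖ = 1 := by
    change ‖(4 : ℚ_[p]) * s‖ = 1
    rw [norm_mul, h4, hs, mul_one]
  by_cases h1 : p ∣ D.n
  · rw [if_pos (h1.mul_left _), if_pos h1]
    have h8 : ‖(y : ℚ_[p])‖ = (p : ℝ)⁻¹ := by
      obtain ⟨m, hm⟩ := (D.dvd_d hp h2).2 h1
      rw [hy', hm, Int.cast_mul, norm_mul, Int.cast_natCast, Padic.norm_p, norm_int fun e =>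
        (Nat.prime_iff_prime_int.1 hp).not_isUnit (D.sq_d p (hm ▸ mul_dvd_mul_left _ e)), mul_one]
    have h16 : ‖(16 : ℚ_[p])‖ = 1 := by
      rw [show (16 : ℚ_[p]) = 4 * 4 by norm_num, norm_mul, h4, mul_one]
    by_cases h3 : p = 3
    · subst h3
      have h7 : ‖(25 : ℚ_[3])‖ = 1 := norm_nat (k := 25) (by norm_num)
      refine index_additive h2 (e₁ := 16 * y) (e₂ := 0) (e₃ := -9 * y) h.swap'.swap ?_ ?_
      · change ‖(16 * y : ℚ_[3]) - 0‖ = _
        simp [h16, h8]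
      · change ‖(16 * y : ℚ_[3]) - -9 * y‖ = _
        rw [show (16 * y : ℚ_[3]) - -9 * y = 25 * y by ring]
        simp [h7, h8]
    · have h7 : ‖(9 : ℚ_[p])‖ = 1 := norm_nat (k := 9) fun e =>
        h3 ((Nat.prime_dvd_prime_iff_eq hp Nat.prime_three).1 (hp.dvd_of_dvd_pow (n := 2) e))
      refine index_additive h2 (e₁ := 0) (e₂ := -9 * y) (e₃ := 16 * y) h ?_ ?_
      · change ‖(0 : ℚ_[p]) - -9 * y‖ = _
        simp [h7, h8]
      · change ‖(0 : ℚ_[p]) - 16 * y‖ = _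
        simp [h16, h8]
  rw [if_neg h1]
  have hd : ¬ (p : ℤ) ∣ D.d := mt (D.dvd_d hp h2).1 h1
  rw [norm_int hd] at hy'
  by_cases h3 : p = 3
  · subst h3
    have e : D.ep 3 = jacobiSym (-D.d) 3 := by
      rw [jacobiSym.neg _ (by decide), Dat.ep, if_pos rfl, neg_eq_neg_one_mul]
      rfl
    have h9 : ‖(9 : ℚ_[3])‖ = ((3 : ℕ) : ℝ) ^ (-2 : ℤ) := by
      rw [← Padic.norm_p_zpow]; norm_num
    rw [if_pos (Dvd.dvd.mul_right (by norm_num) _), e]
    refine mult h2 (a := 0) (b := -9 * y) (c := 16 * y) h ?_ h4s ?_ (by rwa [dvd_neg])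
    · change ‖(0 : ℚ_[3]) - -9 * y‖ = _
      rw [← h9]
      simp [hy']
    · rw [hy]
      push_cast
      ring
  by_cases h5 : p = 5
  · subst h5
    have h9 : ‖(25 : ℚ_[5])‖ = ((5 : ℕ) : ℝ) ^ (-2 : ℤ) := by
      rw [← Padic.norm_p_zpow]; norm_num
    rw [if_pos (Dvd.dvd.mul_right (by norm_num) _), Dat.ep, if_neg h3]
    refine mult h2 (a := 16 * y) (b := -9 * y) (c := 0) h.swap'.swap.swap' ?_ h4s ?_ hd
    · change ‖(16 * y : ℚ_[5]) - -9 * y‖ = _
      rw [show (16 * y : ℚ_[5]) - -9 * y = 25 * y by ring, norm_mul, hy', h9, mul_one]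
    · rw [hy]
      ring
  have h15 : ¬ p ∣ 15 := fun e => (hp.dvd_mul.1 (show p ∣ 3 * 5 from e)).elim
    (fun e => h3 ((Nat.prime_dvd_prime_iff_eq hp Nat.prime_three).1 e))
    fun e => h5 ((Nat.prime_dvd_prime_iff_eq hp Nat.prime_five).1 e)
  have h2' : ¬ p ∣ 2 := fun e => h2 ((Nat.prime_dvd_prime_iff_eq hp Nat.prime_two).1 e)
  rw [if_neg fun e => (hp.dvd_mul.1 e).elim
    (fun e => (hp.dvd_mul.1 (show p ∣ 2 * 15 from e)).elim h2' h15) h1]
  refine index_good fun e => ((dvd_disc hp).1 e).elim h15 fun e => ?_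
  unfold ds at e
  split_ifs at e
  · exact hd e
  · refine ((Nat.prime_iff_prime_int.1 hp).dvd_mul.1 e).elim (fun e => ?_) hd
    exact h2' (hp.dvd_of_dvd_pow (n := 2) (by exact_mod_cast e))

end TATM

theorem t_ATM (hAT2 : AT2) : ATM := by
  intro D
  simp only [TATM.tam hAT2 D]
  refine (finprod_eq_prod_of_mulSupport_subset (α := Subtype Nat.Prime)
    (s := (30 * D.n).primeFactors.subtype Nat.Prime) _ fun p hp => ?_).trans ?_
  · exact mem_coe.2 (mem_subtype.2 (Nat.mem_primeFactors.2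
      ⟨p.2, by_contra fun e => hp (if_neg e), mul_ne_zero (by norm_num) D.n_ne⟩))
  exact (prod_subtype_of_mem (fun p => if p ∣ 30 * D.n then D.tc p else 1) fun p hp =>
    Nat.prime_of_mem_primeFactors hp).trans
    (prod_congr rfl fun p hp => if_pos (Nat.dvd_of_mem_primeFactors hp))

end Pool.Agent.P.MP_9c97e9_nt.K2
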