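import Pool.Agent.P.MP_9c97e9_nt.K2.BasK
import Pool.Agent.P.MP_9c97e9_nt.KT.TBADP

/-! The linear forms at three and five. -/

namespace Pool.Agent.P.MP_9c97e9_nt.K2

open scoped NNReal Matrix
open MP_8b7eba_nt.R2 KT
open Filter Topology K2.BK
open KT.TBADP (norm_odd key dl_eq dl_smul ex_smul frob not_KP)

namespace TBADP

variable {D : Dat} {w : Pl} {g t φ : GQ} {e : V2} {c : GQ → V2}

theorem pm_pv (D : Dat) (v : V2) : D.Pm *ᵥ D.Pv *ᵥ v = v := by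
  rw [Matrix.mulVec_mulVec, D.Pm_Pv, Matrix.one_mulVec]

theorem rp_pm (D : Dat) (g : GQ) (v : V2) :
    D.rp g *ᵥ D.Pm *ᵥ v - D.Pm *ᵥ v = D.Pm *ᵥ (D.rd g *ᵥ v - v) := by
  rw [Matrix.mulVec_mulVec, D.rp_Pm, ← Matrix.mulVec_mulVec, Matrix.mulVec_sub]

theorem pv_rp (D : Dat) (g : GQ) (v : V2) : D.Pv *ᵥ D.rp g *ᵥ v = D.rd g *ᵥ D.Pv *ᵥ v := by
  rw [Matrix.mulVec_mulVec, D.Pv_rp, ← Matrix.mulVec_mulVec]

theorem pv_le (D : Dat) (v : V2) : ‖D.Pv *ᵥ v‖ ≤ 2 * ‖v‖ := by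
  refine mulVec_le (fun i j => ?_) v
  have h : ‖(2 : ℚ_[2])‖ = 2⁻¹ := SelA.two
  fin_cases i <;> fin_cases j <;> rcases D.eps_cases with e | e <;> simp [Dat.Pv, e, h]

theorem rdI (hw : w.p ∣ 15) (hn : ¬ w.p ∣ D.n) (hg : g ∈ w.I) : D.rd g = T2.rho g :=
  Dat.rd_fix (((t_F2X D).2.2.2.2.2.2 w hw hn).1 g hg)

/-- a cocycle on inertia is determined by its value at a generator -/
theorem cob (hw : w.p ≠ 2) (ht : t ∈ w.I) (hβ : ∀ β : Om, β ^ 2 = w.p → t β = -β) (hc : D.XC c)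
    {v : V2} (hv : c t = D.rp t *ᵥ v - v) : ∀ g ∈ w.I, c g = D.rp g *ᵥ v - v := by
  have hr := rep D ⊤
  have hle : w.I ⊓ ⊤ ≤ KI := inf_le_left.trans (I_le hw)
  have hz := (pz_const (rep D _) (hc.uc.mono hle)
    fun g hg g' hg' => hc.co g (hle hg) g' (hle hg')).1
  have hz2 := hz.sub hr (pz_cob hr (fun _ => le_top) v)
  have hcs : ∀ g, (ul fun k => c (cs g k)) = c g := fun g => ul_eq tendsto_const_nhds
  have h5 := a_PTAME V2 ⊤ (D.rq) (fun _ => w) (cs t) (fun _ => w.p) _ isOpen_univ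
    ⟨⊤, hr, fun _ => le_top⟩ (.of_forall fun _ => ⟨hw, by
      rw [inf_top_eq]
      exact (a_RES w w.D w.loc_D).2.2.2.2.1, ⟨ht, trivial⟩, hβ⟩) hz2 (by
      rw [Pi.sub_apply, hcs, rS_cs, show D.rq t _ = D.rp t *ᵥ _ from rfl, hv, sub_self])
  intro g hg
  have h6 := h5 (cs g) (.of_forall fun _ => ⟨hg, trivial⟩)
  rwa [Pi.sub_apply, hcs, rS_cs, sub_eq_zero] at h6

theorem allw (hLAYK : LAYK) (hw : w.p ∣ 15) (hc : D.XC c) {v : V2}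
    (hv : ∀ g ∈ w.I, c g = D.rp g *ᵥ v - v) : c ∈ D.Bad w.p := fun w' hw' => by
  obtain ⟨u, hu, rfl⟩ := hLAYK.2.1 w w' (hw.trans (by norm_num)) hw'
  exact ⟨_, fun g hg => TIW.conj_cob (rep D KI) hc.co hu (I_le (w := w') (hw' ▸ TIW.ne2 hw) hg)
    (hv _ (conj_I u hg))⟩

theorem fwd (hw : w.p ∣ 15) (hn : ¬ w.p ∣ D.n) (ht : t ∈ w.I) (he : ‖e‖ = 1)
    (h1 : ∀ v, ∃ s : ℚ_[2], T2.rho t *ᵥ v - v = s • e) (h2 : ∃ i j, ‖(T2.rho t - 1) i j‖ = 4⁻¹)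
    {x : V2} (hl : KT.TBADP.dl e (D.Pv *ᵥ x) = 0) : ∃ v, x = D.rp t *ᵥ v - v := by
  obtain ⟨i, j, hij⟩ := h2
  obtain ⟨s, hs⟩ := h1 (Pi.single j 1)
  have hs0 : s ≠ 0 := by
    rintro rfl
    have h3 := congrFun hs i
    rw [zero_smul, Pi.sub_apply, Matrix.mulVec_single_one, Pi.zero_apply] at h3
    have h4 : (T2.rho t - 1) i j = 0 := by
      rw [Pi.single_apply] at h3
      rw [Matrix.sub_apply, Matrix.one_apply]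
      exact h3
    rw [h4, norm_zero] at hij
    norm_num at hij
  obtain ⟨m, hm⟩ := ex_smul he hl
  refine ⟨D.Pm *ᵥ ((m / s) • Pi.single j 1), ?_⟩
  rw [rp_pm, rdI hw hn ht, Matrix.mulVec_smul, ← smul_sub, hs, smul_smul, div_mul_cancel₀ _ hs0,
    ← hm, pm_pv]

theorem ram (hLAYK : LAYK) (D : Dat) (w : Pl) (hw : w.p ∣ 15) (hn : w.p ∣ D.n) :
    D.XX ≤ D.Bad w.p := fun c hc => by
  have hw2 := TIW.ne2 hw
  obtain ⟨t, ht, hβ⟩ := Pl.exists_gen a_TAME a_RES hw2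
  obtain ⟨e, -, -, -, h1, -, -⟩ := a_UNIP w2 T2 w hw
  have hr : D.rd t = -T2.rho t := by
    rw [D.rd_eq, sd_eq_neg.2 fun a => D.dl_ne
      (self_eq_neg.1 (a.symm.trans (D.gen_dl hn ht hβ))), Int.cast_neg, Int.cast_one, neg_one_smul]
  obtain ⟨y, hy⟩ : ∃ y, y = D.Pv *ᵥ c t := ⟨_, rfl⟩
  obtain ⟨s, hs⟩ := (h1 t ht).2 y
  have h2 : T2.rho t *ᵥ y = y + s • e := by rw [← hs]; abel
  refine allw hLAYK hw hc (cob hw2 ht hβ hc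
    (v := D.Pm *ᵥ ((4⁻¹ : ℚ_[2]) • (s • e) - (2⁻¹ : ℚ_[2]) • y)) ?_)
  rw [rp_pm, ← pm_pv D (c t), ← hy]
  congr 1
  rw [hr, Matrix.neg_mulVec, Matrix.mulVec_sub, Matrix.mulVec_smul, Matrix.mulVec_smul,
    Matrix.mulVec_smul, (h1 t ht).1, h2]
  module

theorem main (hLAYK : LAYK) (hCJ : CJ) (D : Dat) (w : Pl) (hp : w.p = 3 ∨ w.p = 5)
    (hn : ¬ w.p ∣ D.n) {la : ℚ_[2]} (hla : la = (D.ep w.p : ℚ_[2]) * w.p) (n1 : ‖la‖ = 1)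
    (n2 : 4⁻¹ ≤ ‖la - 1‖) :
    ∃ (l : (GQ → V2) →ₗ[ℚ_[2]] ℚ_[2]) (μ : ℚ_[2]),
      (∀ c ∈ D.XX, (l c = 0 ↔ c ∈ D.Bad w.p) ∧ l (D.Th c) = μ * l c) ∧ ‖μ‖ = ‖la - 1‖ := by
  have hw : w.p ∣ 15 := by rcases hp with h | h <;> rw [h] <;> norm_num
  have hw2 := TIW.ne2 hw
  obtain ⟨t, ht, hβ⟩ := Pl.exists_gen a_TAME a_RES hw2
  obtain ⟨e, he, -, -, h1, h2, -⟩ := a_UNIP w2 T2 w hw
  obtain ⟨φ, hφ⟩ := w.exists_frob a_FROB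
  obtain ⟨dm, hdm⟩ : ∃ dm : V2 →ₗ[ℚ_[2]] ℚ_[2], ∀ v, dm v = KT.TBADP.dl e (D.Pv *ᵥ v) :=
    ⟨KT.TBADP.dl e ∘ₗ Matrix.toLin' D.Pv, fun _ => rfl⟩
  have h3 : ∀ g ∈ w.I, ∀ v, dm (D.rp g *ᵥ v - v) = 0 := fun g hg v => by
    obtain ⟨s, hs⟩ := (h1 g hg).2 (D.Pv *ᵥ v)
    rw [hdm, Matrix.mulVec_sub, pv_rp, rdI hw hn hg, hs, dl_smul]
  obtain ⟨l, hl⟩ : ∃ l : (GQ → V2) →ₗ[ℚ_[2]] ℚ_[2], ∀ c, l c = dm (c t) :=
    ⟨dm ∘ₗ LinearMap.proj t, fun _ => rfl⟩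
  have h4 : ∀ c ∈ D.XX, l c = 0 ↔ c ∈ D.Bad w.p := fun c hc => by
    refine ⟨fun h => ?_, fun h => ?_⟩
    · obtain ⟨v, hv⟩ := fwd hw hn ht he (h1 t ht).2 (h2 t ht hβ).1 (x := c t)
        (by rw [← hdm, ← hl, h])
      exact allw hLAYK hw hc (cob hw2 ht hβ hc hv)
    · obtain ⟨v, hv⟩ := h w rfl
      rw [hl, hv t ht, h3 t ht]
  have h5 := (hCJ D).2
  by_cases h0 : ∀ c ∈ D.XX, l c = 0
  · exact ⟨l, la - 1, fun c hc => ⟨h4 c hc, by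
      rw [h0 c hc, mul_zero, Th_apply, h0 _ (sub_mem ((h5 c hc).1 _) hc)]⟩, rfl⟩
  push Not at h0
  obtain ⟨c, hc, h0⟩ := h0
  obtain ⟨m, hm⟩ : ∃ m, ∀ x ∈ D.XX, l (D.cj D.gm x) = m * l x := by
    refine ⟨l (D.cj D.gm c) / l c, fun x hx => ?_⟩
    have h6 := sub_mem hx (D.XX.smul_mem (l x / l c) hc)
    have h7 := (h4 _ ((h5 _ h6).1 D.gm)).2 ((h5 _ h6).2.1 D.gm _ hw2 ((h4 _ h6).1 (by
      rw [map_sub, map_smul, smul_eq_mul, div_mul_cancel₀ _ h0, sub_self])))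
    rw [map_sub, map_smul, map_sub, map_smul, smul_eq_mul, sub_eq_zero] at h7
    rw [h7]
    ring
  have h6 : ∀ x ∈ D.XX, ∀ a : ℕ, l (D.cj (D.gm ^ a) x) = m ^ a * l x := fun x hx a => by
    induction a with
    | zero => rw [pow_zero, pow_zero, (h5 x hx).2.2.2.1 1 (one_mem _), one_mul]
    | succ a ih => rw [pow_succ, (h5 x hx).2.2.1, hm _ ((h5 x hx).1 _), ih]; ring
  have h7 : l (D.cj φ c) = la * l c := by
    have k1 := frob hw2 ht hβ hφ (L := fun g => dm (c g)) ((hc.uc.mono (I_le hw2)).map _)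
      fun g hg h hh => by
        have := h3 g hg (c h)
        rw [map_sub, sub_eq_zero] at this
        rw [hc.co g (I_le hw2 hg) h (I_le hw2 hh), map_add, this]
    have k2 := T2.dt_rd D.dl φ e (D.Pv *ᵥ D.rp φ⁻¹ *ᵥ c (φ * t * φ⁻¹))
    have k3 := ((t_F2X D).2.2.2.2.2.2 w hw hn).2 e φ (fun g hg => (h1 g hg).1) hφ
    have k4 : cq φ = w.p := by rw [cq, a_EC.2.2.2.2.2.1 w 1 φ hw2 hφ, pow_one]; rfl
    have k5 : (w.p : ℚ_[2]) ≠ 0 := Nat.cast_ne_zero.2 w.prime.ne_zero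
    rw [← hla] at k3
    change dt (D.rd φ *ᵥ _) (D.rd φ *ᵥ _) = _ at k2
    rw [k3, ← pv_rp, ← rd_mulVec, mul_inv_cancel, rd_one, Matrix.one_mulVec, k4,
      show ∀ x, dt (la • e) x = la * KT.TBADP.dl e x from fun x => by
        simp only [dl_eq, dt, Pi.smul_apply, smul_eq_mul]; ring, ← hdm, k1, mul_left_comm,
      ← dl_eq, ← hdm] at k2
    rw [hl, hl, D.cj_pos _ _ (I_le hw2 ht), map_add, map_smul, h3 t ht, smul_zero, add_zero]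
    exact (mul_left_cancel₀ k5 k2).symm
  refine ⟨l, m - 1, fun x hx => ⟨h4 x hx, by rw [Th_apply, map_sub, hm x hx]; ring⟩, ?_⟩
  obtain ⟨k, hk⟩ := (h5 c hc).2.2.2.2 (16⁻¹ * ‖l c‖) (by have := norm_pos_iff.2 h0; positivity)
  have h8 := dec (la_gm D) (k + 1) φ
  refine key (a := (Ps (k + 1) φ).val) (y := l (D.cj (φ * (D.gm ^ (Ps (k + 1) φ).val)⁻¹) c))
    (Nat.not_even_iff_odd.1 fun ev => not_KP hp hφ ?_) n1 n2 h0 ?_ ?_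
  · have := mul_mem (KP_le (Nat.le_add_left 1 k) h8)
      ((pow_mem_KP (k := 1) (la_gm D)).2 (by simpa using ev.two_dvd))
    rwa [inv_mul_cancel_right] at this
  · rw [← map_sub, hl, hdm, dl_eq]
    refine (dt_norm _ _).trans ?_
    rw [he, one_mul]
    refine (pv_le D _).trans ?_
    have := hk _ (KP_le k.le_succ h8) t
    rw [Pi.sub_apply]
    linarith
  · rw [← h7, ← h6 _ ((h5 c hc).1 _), ← (h5 c hc).2.2.1, inv_mul_cancel_right]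

end TBADP

theorem t_BADP (hLAYK : LAYK) (hCJ : CJ) : BADP := fun D p hp => by
  obtain ⟨w, rfl⟩ := a_PL.1 p (by rcases hp with rfl | rfl <;> norm_num)
  have hw : w.p ∣ 15 := by rcases hp with h | h <;> rw [h] <;> norm_num
  refine ⟨TBADP.ram hLAYK D w hw, fun hn => ?_⟩
  have h2 : ‖(2 : ℚ_[2])‖ = 2⁻¹ := SelA.two
  have h3 : ‖(3 : ℚ_[2])‖ = 1 := by simpa using norm_odd (a := 3) (by decide)
  have h5 : ‖(5 : ℚ_[2])‖ = 1 := by simpa using norm_odd (a := 5) (by decide)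
  have h4 : ‖(4 : ℚ_[2])‖ = 4⁻¹ := by
    rw [show (4 : ℚ_[2]) = 2 * 2 by norm_num, norm_mul, h2]; norm_num
  have h6 : ‖(6 : ℚ_[2])‖ = 2⁻¹ := by
    rw [show (6 : ℚ_[2]) = 2 * 3 by norm_num, norm_mul, h2, h3, mul_one]
  obtain ⟨la, hla⟩ : ∃ la, la = (D.ep w.p : ℚ_[2]) * w.p := ⟨_, rfl⟩
  have k : ‖la‖ = 1 ∧ ‖la - 1‖ = (D.eu w.p : ℝ)⁻¹ ∧ (4 : ℝ)⁻¹ ≤ (D.eu w.p : ℝ)⁻¹ := by
    rw [hla, Dat.eu, if_neg hn]
    rcases D.ep_cases w.prime hw hn with a | a <;> rw [a] <;> rcases hp with h | h <;> rw [h] <;>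
      norm_num [h3, h5, h2, h4, h6]
  obtain ⟨l, μ, a, b⟩ := TBADP.main hLAYK hCJ D w hp hn hla k.1 (k.2.1 ▸ k.2.2)
  exact ⟨l, μ, a, b.trans k.2.1⟩

end Pool.Agent.P.MP_9c97e9_nt.K2
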