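import Pool.Agent.P.MP_9c97e9_nt.K2.BasK

/-! The Selmer group at the top of the tower is divisible. -/

namespace Pool.Agent.P.MP_9c97e9_nt.K2

open scoped NNReal Matrix
open MP_8b7eba_nt.R2 KT
open K2.BK TIW0

namespace TBR

variable {D : Dat} {c c' : GQ → A0} {v v' : V2}

theorem pt_eq : p0 v = p0 v' ↔ ‖v - v'‖ ≤ 1 := by rw [← sub_eq_zero, ← map_sub, p0_eq_zero]

theorem pow_pt (i : ℕ) (v : V2) : 2 ^ i • p0 v = 0 ↔ ‖v‖ ≤ 2 ^ i := by
  rw [← map_nsmul, p0_eq_zero, ← Nat.cast_smul_eq_nsmul ℚ_[2], norm_smul, Nat.cast_pow, norm_pow,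
    Nat.cast_ofNat, norm_two, inv_pow, inv_mul_le_iff₀ (by positivity), mul_one]

theorem back {x : GQ → V2} (hx : D.XC x) : D.SP KI fun g => p0 (x g) := by
  refine ⟨hx.uc.sm p0 one_pos fun v v' h => pt_eq.2 h, fun g hg h hh => ?_, fun g hg => ?_, ?_,
    ?_, ?_, fun w hw g hg => ?_, fun s => ?_⟩
  · rw [hx.co g hg h hh, map_add, tac_pt]
  · rw [hx.off g hg, map_zero]
  · obtain ⟨B, hB⟩ := XC_bdd hx
    obtain ⟨i, hi⟩ := pow_unbounded_of_one_lt B (one_lt_two (α := ℝ))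
    exact ⟨i, fun g => (pow_pt i _).2 ((hB g).trans hi.le)⟩
  · rw [hx.nz, map_zero]
  · obtain ⟨v, hv⟩ := XC_ord hx
    refine ⟨![0, v], fun g hg => ⟨x g 0 - (D.rp g *ᵥ ![0, v]) 0, congrArg p0 (funext ?_)⟩⟩
    refine Fin.forall_fin_two.2 ⟨by simp, ?_⟩
    rw [hv g hg, Pi.add_apply, Pi.sub_apply, rd_D hg.1]
    simp [sub_mul]
  · rw [hx.unr w hw g hg.1, map_zero]
  · have h1 := hx.co 1 (one_mem _) 1 (one_mem _)
    rw [one_mul, rd_one, Matrix.one_mulVec, left_eq_add] at h1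
    have h2 := hx.co _ (ts_mem s) _ (ts_mem s)
    rw [ts_ts, h1, eq_comm, add_eq_zero_iff_neg_eq] at h2
    refine ⟨p0 (-(2⁻¹ : ℚ_[2]) • x (ts s)), ?_⟩
    rw [tac_pt, ← map_sub, Matrix.mulVec_smul, ← h2]
    congr 1
    module

theorem sub (h : D.SP KI c) (h' : D.SP KI c') : D.SP KI fun g => c g - c' g := by
  refine ⟨h.sm.comp₂ h'.sm (· - ·), fun g hg k hk => ?_, fun g hg => ?_, ?_, ?_, ?_,
    fun w hw g hg => ?_, fun s => ?_⟩
  · rw [h.co g hg k hk, h'.co g hg k hk, map_sub]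
    abel
  · rw [h.off g hg, h'.off g hg, sub_zero]
  · obtain ⟨i, hi⟩ := h.tor
    obtain ⟨j, hj⟩ := h'.tor
    refine ⟨i + j, fun g => ?_⟩
    rw [nsmul_sub, pow_add, mul_smul _ _ (c' g), hj, mul_comm, mul_smul, hi, smul_zero, smul_zero,
      sub_zero]
  · rw [h.nz, h'.nz, sub_zero]
  · obtain ⟨v, hv⟩ := h.ord
    obtain ⟨v', hv'⟩ := h'.ord
    refine ⟨v - v', fun g hg => ?_⟩
    obtain ⟨x, hx⟩ := hv g hg
    obtain ⟨x', hx'⟩ := hv' g hg
    refine ⟨x - x', ?_⟩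
    rw [hx, hx', ← map_sub, Matrix.mulVec_sub,
      show (![x - x', 0] : V2) = ![x, 0] - ![x', 0] by simp]
    congr 1
    abel
  · rw [h.unr w hw g hg, h'.unr w hw g hg, sub_zero]
  · obtain ⟨P, hP⟩ := h.re s
    obtain ⟨Q, hQ⟩ := h'.re s
    refine ⟨P - Q, ?_⟩
    rw [hP, hQ, map_sub]
    abel

theorem two (h : D.SP KI c) : D.SP KI fun g => 2 • c g := by
  have := sub h (sub (sub h h) h)
  rwa [show (fun g => c g - (c g - c g - c g)) = fun g => 2 • c g from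
    funext fun g => by abel] at this

/-- the coordinates of a point of order two -/
noncomputable def r (v : V2) (i : Fin 2) : ZMod 2 := rz (2 * v i)

theorem n2 (x : ℚ_[2]) : ‖2 * x‖ = 2⁻¹ * ‖x‖ := by rw [norm_mul, norm_two]

theorem le1 (hv : ‖v‖ ≤ 2) (i : Fin 2) : ‖2 * v i‖ ≤ 1 := by
  have := norm_le_pi_norm v i
  rw [n2]
  linarith

theorem r_zero (hv : ‖v‖ ≤ 2) {i : Fin 2} (h : ‖v i‖ ≤ 1) : r v i = 0 := by
  rw [r, rz_eq_zero (le1 hv i), n2]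
  linarith

theorem r_eq (hv : ‖v‖ ≤ 2) (hv' : ‖v'‖ ≤ 2) : p0 v = p0 v' ↔ ∀ i, r v i = r v' i := by
  rw [pt_eq, pi_norm_le_iff_of_nonneg zero_le_one]
  refine forall_congr' fun i => ?_
  rw [r, r, rz_eq (le1 hv i) (le1 hv' i), ← mul_sub, n2, Pi.sub_apply]
  constructor <;> intro h <;> linarith

theorem r_add (hv : ‖v‖ ≤ 2) (hv' : ‖v'‖ ≤ 2) (i : Fin 2) : r (v + v') i = r v i + r v' i := by
  rw [r, Pi.add_apply, mul_add, rz_add (le1 hv i) (le1 hv' i), r, r]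

/-- the condition at the real places -/
theorem re (hR : RTS) (s : GQ) (P : A0) (hv : ‖v‖ ≤ 2) (e : p0 v = D.a0 (ts s) P - P) :
    ‖v 0‖ ≤ 1 := by
  obtain ⟨u, rfl⟩ := p0_surj P
  rw [tac_pt, ← map_sub, pt_eq] at e
  obtain ⟨x, hx⟩ : ∃ x, x = D.rp (ts s) *ᵥ u - u := ⟨_, rfl⟩
  have h1 : D.rp (ts s) *ᵥ x = -x := by
    rw [hx, Matrix.mulVec_sub, ← rd_mulVec, ts_ts, rd_one, Matrix.one_mulVec, neg_sub]
  rw [← hx] at e
  have h2 : ∀ i, ‖x i‖ ≤ 2 := fun i => (norm_le_pi_norm x i).trans (by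
    simpa using le_sub hv (e.trans one_le_two))
  have h3 := congrFun h1 0
  rw [LC.mv, Pi.neg_apply] at h3
  obtain ⟨a, b, -⟩ := rp_ts D hR s
  have h4 := le_add (LC.mul a (h2 0)) (LC.mul b (h2 1))
  rw [show (D.rp (ts s) 0 0 - 1) * x 0 + D.rp (ts s) 0 1 * x 1 = -(2 * x 0) by
    linear_combination h3, norm_neg, n2] at h4
  simpa using le_add ((norm_le_pi_norm _ 0).trans e) (show ‖x 0‖ ≤ 1 by linarith)

theorem norm_ni (D : Dat) : ‖(D.ni : ℚ_[2])‖ = (D.ni : ℝ)⁻¹ ∧ (0 : ℝ) < D.ni := by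
  rcases D.ni_cases with e | e <;> simp [e, norm_two, TLS2.n4]

/-- the condition at two -/
theorem od {V : GQ → V2} {u : ℚ_[2]} (n : ∀ g, ‖V g‖ ≤ 2)
    (h : ∀ g ∈ w2.D ⊓ KI, ‖V g 1 - (D.rp g 1 1 - 1) * u‖ ≤ 1) :
    ∃ a, ∀ g ∈ w2.D ⊓ KI, r (V g) 1 = a * qz D.mi g := by
  obtain ⟨n1, n0⟩ := norm_ni D
  have k : ∀ g ∈ w2.D ⊓ KI, ‖D.rp g 1 1 - 1 - D.ni * (qz D.mi g).val‖ ≤ (2 * D.ni : ℝ)⁻¹ :=
    fun g hg => by rw [sub_sub]; exact near_K ⟨hg.1, KI_le 1 hg.2⟩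
  have hu : ‖u‖ ≤ 2 * D.ni := by
    obtain ⟨g, hg, e⟩ := D.exists_mi
    have h1 := k g hg
    rw [e, ZMod.val_one, Nat.cast_one, mul_one] at h1
    have h2 : ‖(D.rp g 1 1 - 1) * u‖ ≤ 2 := by
      simpa using le_sub ((norm_le_pi_norm _ 1).trans (n g)) ((h g hg).trans one_le_two)
    have h3 : ‖D.rp g 1 1 - 1 - D.ni‖ < ‖(D.ni : ℚ_[2])‖ :=
      h1.trans_lt (by rw [n1]; gcongr; linarith)
    have h4 := IsUltrametricDist.norm_add_eq_max_of_norm_ne_norm h3.ne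
    rw [sub_add_cancel, max_eq_right h3.le] at h4
    rwa [norm_mul, h4, n1, inv_mul_le_iff₀ n0, mul_comm] at h2
  have h1 : ‖2 * (D.ni * u)‖ ≤ 1 := by
    rw [n2, norm_mul, n1, ← mul_assoc, ← mul_inv, inv_mul_le_iff₀ (by positivity), mul_one]
    exact hu
  refine ⟨rz (2 * (D.ni * u)), fun g hg => ?_⟩
  have h2 : ‖V g 1 - D.ni * (qz D.mi g).val * u‖ ≤ 1 := by
    have := le_add (h g hg) ((LC.mul (k g hg) hu).trans_eq (inv_mul_cancel₀ (by positivity)))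
    rwa [sub_mul (D.rp g 1 1 - 1), sub_add_sub_cancel] at this
  rcases LA.cases (qz D.mi g) with e | e <;> rw [e] at h2 ⊢
  · rw [mul_zero]
    exact r_zero (n g) (by simpa using h2)
  · rw [ZMod.val_one, Nat.cast_one, mul_one] at h2
    rw [mul_one, r, rz_eq (le1 (n g) 1) h1, ← mul_sub, n2]
    linarith

theorem base (hIW1 : IW1) (hR : RTS) (h : D.SP KI c) (h2 : ∀ g, 2 • c g = 0) :
    ∃ x ∈ D.XX, ∀ g, c g = p0 (x g) := by
  choose V hV using p0_surj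
  have p : ∀ g, p0 (V (c g)) = c g := fun g => hV _
  have n : ∀ g, ‖V (c g)‖ ≤ 2 := fun g => by
    simpa using (pow_pt 1 (V (c g))).1 (by rw [p, pow_one, h2])
  have z : ∀ g i, c g = 0 → r (V (c g)) i = 0 := fun g i e =>
    r_zero (n g) ((norm_le_pi_norm _ i).trans (p0_eq_zero.1 ((p g).trans e)))
  obtain ⟨y, hy, e⟩ := (hIW1 D).2 (fun i g => r (V (c g)) i) fun i =>
    ⟨⟨h.sm.comp fun P => r (V P) i, fun g hg k hk => by
        rw [← r_add (n g) (n k)]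
        refine (r_eq (n _) (le_add (n g) (n k))).1 ?_ i
        rw [p, h.co g hg k hk, map_add, p, ← p k, tac_pt, p, add_right_inj, ← p k, pt_eq, p]
        have := rd_sub D g (V (c k))
        have := n k
        linarith⟩,
      fun g hg => z g i (h.off g hg), z _ i h.nz,
      fun w hw g hg => z g i (h.unr w hw g ⟨hg, I_le (odd hw) hg⟩),
      fun e s => by
        obtain ⟨P, hP⟩ := h.re s
        exact r_zero (n _) (e ▸ re hR s P (n _) ((p _).trans hP)),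
      fun e => by
        obtain ⟨v, hv⟩ := h.ord
        subst e
        refine od (u := v 1) n fun g hg => ?_
        obtain ⟨x, hx⟩ := hv g hg
        have := (norm_le_pi_norm _ 1).trans (pt_eq.1 ((p g).trans hx))
        rw [Pi.sub_apply, Pi.add_apply, Pi.sub_apply, rd_D hg.1] at this
        simpa [sub_mul] using this⟩
  refine ⟨(2⁻¹ : ℚ_[2]) • y, D.XX.smul_mem _ hy.1, fun g => ?_⟩
  rw [← p g]
  refine (r_eq (n g) ?_).2 fun i => ?_
  · rw [Pi.smul_apply, norm_smul, norm_inv, norm_two, inv_inv]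
    have := hy.2 g
    linarith
  · rw [← e g i, r, Pi.smul_apply, Pi.smul_apply, smul_eq_mul, mul_inv_cancel_left₀ two_ne_zero]

theorem forw (hIW1 : IW1) (hR : RTS) (i : ℕ) : ∀ c : GQ → A0, D.SP KI c →
    (∀ g, 2 ^ i • c g = 0) → ∃ x ∈ D.XX, ∀ g, c g = p0 (x g) := by
  induction i with
  | zero => exact fun c _ h => ⟨0, zero_mem _, fun g => by simpa using h g⟩
  | succ i ih =>
    intro c h h2
    obtain ⟨x, hx, e⟩ := ih _ (two h) fun g => by rw [← mul_smul, ← pow_succ, h2]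
    have hx' : (2⁻¹ : ℚ_[2]) • x ∈ D.XX := D.XX.smul_mem _ hx
    obtain ⟨y, hy, e'⟩ := base hIW1 hR (sub h (back hx')) fun g => by
      rw [nsmul_sub, e g, ← map_nsmul, ← map_sub, Pi.smul_apply,
        show x g - 2 • (2⁻¹ : ℚ_[2]) • x g = 0 by module, map_zero]
    exact ⟨y + (2⁻¹ : ℚ_[2]) • x, add_mem hy hx', fun g => by
      rw [Pi.add_apply, map_add, ← e' g, sub_add_cancel]⟩

end TBR

open TBR in
theorem t_BR (hIW1 : IW1) (hRTS : RTS) : BR := by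
  intro D c
  refine ⟨fun h => ?_, fun ⟨x, hx, e⟩ => ?_⟩
  · obtain ⟨i, hi⟩ := h.tor
    exact forw hIW1 hRTS i c h hi
  · rw [funext e]
    exact back hx

end Pool.Agent.P.MP_9c97e9_nt.K2
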