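import Pool.Agent.P.MP_9c97e9_nt.K2.BasL

/-! The comparison of the two Selmer groups. -/

namespace Pool.Agent.P.MP_9c97e9_nt.K2

open scoped NNReal Matrix
open MP_8b7eba_nt.R2 KT
open Filter Topology Polynomial

namespace TCASX

theorem N_four (D : Dat) {p : ℕ} (h : p ∣ D.n) : D.N p = 4 := by
  rw [Dat.N, if_neg, if_pos h]
  rintro rfl
  exact D.not_two h

theorem ZO_le (D : Dat) (w : Pl) : D.ZO w ≤ D.ZH w.D := by
  unfold Dat.ZO
  split_ifs with h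
  · subst h
    exact fun _ hc => hc.1
  · exact le_rfl

theorem loc (hCY : LCY) (hN : LN) (h35 : L35) (hK : LK35) (hO2 : LO2) (hO3 : LO3) (D : Dat)
    (w : Pl) (h : w.p ∣ 30 * D.n) (h2 : w.p = 2 → w = w2) :
    Lq (D.LH w.D) (D.ZO w) (D.N w.p) := by
  by_cases e : w = w2
  · subst e
    have := (hCY _ _ _).1 _ _ _ (hO3 D) (hO2.cyc D)
    rw [Dat.ZO, if_pos rfl]
    convert this using 1
    change D.N 2 = _
    rw [Dat.N, if_pos rfl, sq]
  rw [Dat.ZO, if_neg e]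
  by_cases hn : w.p ∣ D.n
  · exact N_four D hn ▸ (hN D w hn).1
  rcases (Nat.Prime.dvd_mul w.prime).1 h with h | h
  · rcases (Nat.Prime.dvd_mul w.prime).1 (show w.p ∣ 2 * 15 from h) with h | h
    · exact absurd (h2 ((Nat.prime_dvd_prime_iff_eq w.prime Nat.prime_two).1 h)) e
    · exact hK D w h hn ▸ h35 D w h hn
  · exact absurd h hn

end TCASX

open TCASX in
theorem t_CASX (hLABS : LABS) (hLCY : LCY) (hLN : LN) (hL35 : L35) (hLK35 : LK35) (hLO2 : LO2)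
    (hLO3 : LO3) (hLD1 : LD1) (hLD2 : LD2) (hLCN : LCN) (hLKE : LKE) : CASX := by
  intro D
  obtain ⟨W, hW, W2⟩ : ∃ W : ℕ → Pl, (∀ p, p.Prime → (W p).p = p) ∧ W 2 = w2 := by
    have : Nonempty Pl := ⟨w2⟩
    choose! W hW using a_PL.1
    refine ⟨fun p => if p = 2 then w2 else W p, fun p hp => ?_, if_pos rfl⟩
    beta_reduce
    split_ifs with h
    · exact h.symm
    · exact hW p hp
  have n0 : 30 * D.n ≠ 0 := by have := D.n_pos; omega
  have p0' : D.wz.p ∈ (30 * D.n).primeFactors :=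
    Nat.mem_primeFactors.2 ⟨D.wz.prime, D.zp.mul_left _, n0⟩
  let s := (30 * D.n).primeFactors.erase D.wz.p
  have hs : ∀ {p}, p ∈ s ↔ p.Prime ∧ p ∣ 30 * D.n ∧ p ≠ D.wz.p := fun {p} => by
    simp only [s, Finset.mem_erase, Nat.mem_primeFactors]; tauto
  have s2' : 2 ∈ s := hs.2 ⟨Nat.prime_two, Dvd.dvd.mul_right (by norm_num) _, fun e =>
    D.z30 (e ▸ by norm_num)⟩
  have hc : D.om = Fintype.card s := by rw [Fintype.card_coe, D.om_eq]
  have dv : ∀ c ∈ D.SG, (∀ i : s, ∃ z ∈ D.ZO (W i), rs (W i).D c - 2 • z ∈ D.LH (W i).D) →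
      ∃ c' ∈ D.SG, c = 2 • c' := fun c h1 h => by
    obtain ⟨c', a, b, d⟩ := hLD1 D c h1 fun p k1 k2 k3 => by
      obtain ⟨z, hz, ⟨-, -, -, i, hi⟩, P, hP⟩ := h ⟨p, hs.2 ⟨k1, k2, k3⟩⟩
      obtain ⟨Q, rfl⟩ := exists_two P
      refine ⟨W p, hW p k1, z + rs _ (D.cb Q), add_mem (ZO_le D _ hz)
        (rs_cb_L ⟨i + 1, fun g hg => ?_⟩).1, fun g hg => ?_⟩
      · rw [pow_succ, mul_smul, ← D.cb_nsmul, ← hP g hg, hi]
      · rw [Pi.add_apply, rs_of_mem hg, smul_add, ← D.cb_nsmul, ← hP g hg, Pi.sub_apply,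
          rs_of_mem hg]
        simp
    obtain ⟨z, hz, -, P, hP⟩ := h ⟨2, s2'⟩
    simp only [W2, Dat.ZO, if_pos] at hz hP
    refine hLD2 D c c' h1 a b d ⟨z, hz, P, fun g hg => ?_⟩
    rw [← hP g hg, Pi.sub_apply, rs_of_mem hg]
    simp
  have key := hLABS _ s D.SG (fun i => rs (W i).D) (fun i => D.LH (W i).D) (fun i => D.ZO (W i))
    (fun i => D.N i) (fun i => ?_) (fun i => ?_) (fun i c h => ?_) (fun i c h => ?_) dv
    (hc ▸ hLCN D)
  rotate_left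
  · obtain ⟨k1, k2, -⟩ := hs.1 i.2
    have := loc hLCY hLN hL35 hLK35 hLO2 hLO3 D (W i) ((hW i k1).symm ▸ k2)
      fun e => by rw [← W2, ← e, hW i k1]
    rwa [hW i k1] at this
  · unfold Dat.N Dat.nn
    split_ifs <;> norm_num
  · have h1 := rs_mem_of_le (SH_mem_ZH h) (le_top (a := (W i).D))
    unfold Dat.ZO
    split_ifs with e
    · rw [e]
      exact SH_ZS h
    · exact h1
  · obtain ⟨k, hk⟩ := (ZO_le D _ h).2.2.2
    exact ⟨k, funext hk⟩
  have hK : {c | c ∈ D.SG ∧ ∀ i : s, rs (W i).D c ∈ D.LH (W i).D} = D.SelN := by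
    ext c
    rw [hLKE]
    refine and_congr_right fun h1 => ⟨fun h p k1 k2 => ⟨W p, hW p k1, ?_⟩, fun h i => ?_⟩
    · suffices e : rs (W p).D c ∈ D.LH (W p).D from
        e.2.imp fun P hP g hg => (rs_of_mem hg c).symm.trans (hP g hg)
      by_cases k3 : p = D.wz.p
      · obtain ⟨c', a, rfl⟩ := dv c h1 fun i => ⟨0, zero_mem _, by simpa using h i⟩
        rw [map_nsmul]
        exact (hLN D _ (by rw [hW p k1, k3]; exact D.zp)).2 _
          (rs_mem_of_le (SH_mem_ZH a) le_top)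
      · exact h ⟨p, hs.2 ⟨k1, k2, k3⟩⟩
    · obtain ⟨k1, k2, -⟩ := hs.1 i.2
      obtain ⟨w, e, hP⟩ := h i k1 k2
      obtain ⟨P, hP⟩ := TLOC2.LT.of_eq (w := W i) a_CP D.dl_fix
        (fun g h => Dat.SH.co h1 g trivial h trivial) hP (e.trans (hW i k1).symm)
      exact ⟨rs_mem_of_le (SH_mem_ZH h1) le_top, P, fun g hg => (rs_of_mem hg c).trans (hP g hg)⟩
  rw [hK] at key
  refine ⟨key.1, fun h => ?_⟩
  have h1 : ({c | D.SH ⊤ c} : Set (GQ → EO)).ncard = _ := key.2 (key.1.2 h)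
  have h2 := Finset.mul_prod_erase _ D.N p0'
  rw [N_four D D.zp, ← Finset.prod_coe_sort] at h2
  rw [h1, mul_left_comm, h2]

end Pool.Agent.P.MP_9c97e9_nt.K2
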