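import Pool.Agent.P.MP_9c97e9_nt.K2.SelJ
import Pool.Agent.P.MP_8b7eba_nt.R2.TKTRIV

/-! Proof of CHEB0J. -/

namespace Pool.Agent.P.MP_9c97e9_nt.K2

open scoped NNReal Matrix
open MP_8b7eba_nt.R2 KT
open Filter Topology

namespace TCHEB0J

section

variable {W W' : Type} [NormedAddCommGroup W] [NormedSpace ℚ_[2] W] [NormedAddCommGroup W']
  [NormedSpace ℚ_[2] W'] {r : GQ → W →ₗ[ℚ_[2]] W} {x : GS → W}

theorem near (hx : PZ (fun _ => ⊤) r x) : ∃ N : ℕ → Subgroup GQ, (∀ k, ON (N k)) ∧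
    ∀ g n : GS, (∀ k, n k ∈ N k) → x (g * n) = x g := by
  obtain ⟨c, hc⟩ := hx.1
  choose N h1 h2 using fun k : ℕ => hc.uc k (2 ^ k)⁻¹ (by positivity)
  refine ⟨N, h1, fun g n hN => sub_eq_zero.1 (tendsto_nhds_unique
    ((hc.lim _ (mem_top _)).sub (hc.lim _ (mem_top _))) ?_)⟩
  exact tendsto_zero_iff_norm_tendsto_zero.2 (squeeze_zero (fun _ => norm_nonneg _)
    (fun k => h2 k _ trivial _ trivial (hN k)) TKTRIV.lim0)

theorem val [FiniteDimensional ℚ_[2] W] [FiniteDimensional ℚ_[2] W'] [IsUltrametricDist W']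
    (hr : Rep ⊤ r) (hx : PZ (fun _ => ⊤) r x) (L : W →ₗ[ℚ_[2]] W') {g : GS}
    (hg : ∀ k v, L (r (g k) v) = L v) (m : ℕ → ℕ) :
    L (x fun k => g k ^ m k) = (ul fun k => (m k : ℚ_[2])) • L (x g) := by
  let H : Subgroup GQ :=
    { carrier := {h | ∀ v, L (r h v) = L v}
      one_mem' := fun v => by rw [hr.one]
      mul_mem' := fun {a b} ha hb v => by rw [hr.mul a trivial b trivial, ha, hb]
      inv_mem' := fun {a} ha v => by
        rw [← ha, ← hr.mul a trivial _ trivial, mul_inv_cancel, hr.one] }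
  have h1 : PZ (fun _ => H) (fun _ => LinearMap.id) fun g => L (x g) :=
    (hx.mono fun _ => le_top).map L fun a ha _ _ => hr.rS_map L (ha.mono fun k hk => hk _)
  exact h1.pow (rep_id (G := ⊤)) (fun _ => le_top) (.of_forall hg) (rS_id g) m

end

theorem uni_pow (e : V2) (c : ℚ_[2]) (r : ℕ) : (1 + c • nu e) ^ r = 1 + (r * c) • nu e := by
  have h : nu e * nu e = 0 := by
    ext i j
    fin_cases i <;> fin_cases j <;> simp [nu, Matrix.mul_apply, Fin.sum_univ_two] <;> ring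
  induction r with
  | zero => simp
  | succ r ih =>
    rw [pow_succ, ih, add_mul, mul_add, mul_add, smul_mul_smul_comm, h]
    push_cast
    simp only [one_mul, mul_one, smul_zero]
    module

theorem nu_ne {e : V2} (he : e ≠ 0) : ∃ i j, nu e i j ≠ 0 := by
  by_cases h : e 0 = 0
  · exact ⟨1, 0, by simpa [nu] using fun h1 => he (funext (Fin.forall_fin_two.2 ⟨h, h1⟩))⟩
  · exact ⟨0, 1, by simpa [nu] using h⟩

theorem nu_trace (e : V2) (c : ℚ_[2]) : (1 + c • nu e).trace = 2 := by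
  simp [nu, Matrix.trace_fin_two]

/-- the correction of the Frobenius element -/
theorem corr {d : Wt} {ε : ℝ} (hε : 0 < ε) (h1 : ∀ σ, ‖d σ‖ ≤ 1)
    (h2 : ∀ σ g, ‖d (σ * g) - d σ - d g‖ ≤ ε) {t : GQ} (h3 : d t = 1) (φ : GQ) :
    ∃ m : ℕ, ‖d (φ * t ^ m)‖ ≤ ε := by
  have h4 : ∀ m : ℕ, ‖d (φ * t ^ m) - (d φ + m)‖ ≤ ε := fun m => by
    induction m with
    | zero => simpa using hε.le
    | succ m ih =>
      have := ua (h2 (φ * t ^ m) t) ih
      rw [h3, mul_assoc, ← pow_succ] at this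
      refine le_of_eq_of_le (congrArg _ ?_) this
      push_cast
      ring
  obtain ⟨z, hz⟩ : ∃ z : ℤ_[2], (z : ℚ_[2]) = d φ := ⟨⟨d φ, h1 φ⟩, rfl⟩
  obtain ⟨m, hm⟩ := PadicInt.denseRange_natCast.exists_dist_lt (-z) hε
  refine ⟨m, ?_⟩
  have h5 : ‖d φ + m‖ ≤ ε := by
    rw [dist_eq_norm, ← neg_add', norm_neg, PadicInt.norm_def] at hm
    simpa [hz] using hm.le
  simpa using ua (h4 m) h5

theorem cyc_pow {g : GQ} (h : cyc g = 1) (m : ℕ) : cyc (g ^ m) = 1 := by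
  induction m with
  | zero => simpa using cyc_one
  | succ m ih => rw [pow_succ, a_EC.2.1, ih, h, one_mul]

/-- the trace of a Frobenius element which fixes the square roots of `-1` and `d` -/
theorem trace (D : Dat) {w : Pl} {φ : GQ} (hw : ¬ w.p ∣ 30 * D.n) (h4 : w.p % 4 = 1)
    (hφ : w.IsFrob 1 φ) (hd : φ D.dl = D.dl) :
    (D.rd φ).trace = (jacobiSym D.d w.p * ap W15 w.p : ℤ) := by
  have h2 : w.p ≠ 2 := by omega
  rw [← D.sd_frob h2 (fun h => hw (h.mul_left _)) hφ, sd_eq_one.2 hd, one_mul, Dat.rd_fix hd]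
  exact ((a_TR _ T2 w fun h => hw (h.mul_right _)).2 φ hφ).1

/-- the choice at level `k` -/
theorem level (hD : DLOG) (D : Dat) {e : V2} {c : ℚ_[2]} {g : GQ} (he : e ≠ 0) (hc : c ≠ 0)
    (h1 : D.rd g = 1 + c • nu e) (h2 : g D.dl = D.dl) (h3 : cyc g = 1) (k B : ℕ)
    {N : Subgroup GQ} (hN : ON N) :
    ∃ (w : Pl) (F t : GQ) (d : Wt) (r : ℕ), B < w.p ∧ Odd r ∧ (g ^ r)⁻¹ * F ∈ N ∧
      w.p ≡ 1 [MOD 2 ^ (k + 2)] ∧ w.IsFrob 1 F ∧ t ∈ w.I ∧ (∀ β : Om, β ^ 2 = w.p → t β = -β) ∧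
      Wi w.p d ∧ (∀ σ g, ‖d (σ * g) - d σ - d g‖ ≤ (2 ^ k)⁻¹) ∧ d t = 1 ∧ ‖d F‖ ≤ (2 ^ k)⁻¹ ∧
      F D.dl = D.dl ∧ ∀ i j, ‖(D.rd F - (1 + (r * c) • nu e)) i j‖ ≤ (2 ^ (k + 1))⁻¹ := by
  obtain ⟨i0, j0, h0⟩ := nu_ne he
  have hδ : 0 < ‖c * nu e i0 j0‖ := norm_pos_iff.2 (mul_ne_zero hc h0)
  obtain ⟨N1, o1, m1⟩ := D.rd_sm (lt_min (show (0 : ℝ) < (2 ^ (k + 1))⁻¹ by positivity)
    (half_pos hδ))
  obtain ⟨N2, o2, m2⟩ := a_EC.2.2.2.2.1 (k + 2)
  obtain ⟨N3, o3, m3⟩ := exists_ON_fix {D.dl}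
  have ho := hN.inf (o1.inf (o2.inf o3))
  obtain ⟨B', hB⟩ := a_GENP.2.1 _ ho
  have hr : ∀ r : ℕ, D.rd (g ^ r) = 1 + (r * c) • nu e := fun r => by rw [D.rd_pow, h1, uni_pow]
  obtain ⟨m, hm, h4⟩ := ho.exists_pow g
  obtain ⟨s, r, o, rfl⟩ := Nat.exists_eq_two_pow_mul_odd hm.ne'
  obtain ⟨w, φ, r', h5, h6, h7, h8⟩ := a_GENP.2.2 _ (g ^ r) s (B + B' + 2) ho (fun a => by
    have := (m1 _ a.2.1 i0 j0).trans (min_le_right _ _)
    rw [hr, add_sub_cancel_left, Matrix.smul_apply, smul_eq_mul, mul_assoc, norm_mul,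
      Padic.norm_natCast_eq_one_iff.2 (Nat.coprime_two_left.2 o), one_mul] at this
    linarith) (by rwa [← pow_mul, mul_comm r])
  rw [← pow_mul] at h8
  have w2 : w.p ≠ 2 := by omega
  have h9 : w.p ≡ 1 [MOD 2 ^ (k + 2)] := by
    have := (m2 _).1 h8.2.2.1
    have e : cyc ((g ^ (r * r'))⁻¹ * φ) = cyc φ := by
      conv_rhs => rw [← mul_inv_cancel_left (g ^ (r * r')) φ, a_EC.2.1, cyc_pow h3, one_mul]
    rw [e, a_EC.2.2.2.2.2.1 w 1 φ w2 h6, pow_one] at this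
    have h10 := (PadicInt.pow_p_dvd_int_iff (p := 2) (k + 2) (w.p - 1)).1 (by simpa using this)
    exact (Nat.modEq_iff_dvd.2 (by simpa using h10)).symm
  obtain ⟨t, ht, hβ⟩ := Pl.exists_gen a_TAME a_RES w2
  obtain ⟨d, d1, d2, d3⟩ := hD w t k h9 hβ
  obtain ⟨a, ha⟩ := corr (by positivity) d1.1 d2 d3 φ
  have h10 := mul_mem h8 (hB w (by omega) (pow_mem ht a))
  rw [mul_assoc] at h10
  have h11 := mul_inv_cancel_left (g ^ (r * r')) (φ * t ^ a)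
  refine ⟨w, φ * t ^ a, t, d, r * r', by omega, o.mul h7, h10.1, h9,
    h6.mul (Pl.isFrob_zero.2 (pow_mem ht a)), ht, hβ, d1, d2, d3, ha, ?_, fun i j => ?_⟩
  · rw [← h11, AlgEquiv.mul_apply, m3 _ (Finset.mem_singleton_self _) _ h10.2.2.2]
    exact (MulAction.stabilizer GQ D.dl).pow_mem h2 _
  · rw [← h11, D.rd_mul, ← hr, ← mul_sub_one]
    exact (TKTRIV.mul_le (D.rd_le _) (m1 _ h10.2.1) i j).trans ((one_mul _).trans_le (min_le_left _ _))

end TCHEB0J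

open TCHEB0J in
theorem t_CHEB0J (_hC : CYB) (hD : DLOG) : CHEB0J := by
  intro D s e c g he hc hg A _ _ _ _ ψ ψ' x y h h' hx hy
  obtain ⟨N, hN, hN'⟩ := near hx
  obtain ⟨M, hM, hM'⟩ := near hy
  choose w F t d r h1 h2 h3 h4 h5 h6 h7 h8 h9 h10 h11 h12 h13 using fun k =>
    level hD D he hc (hg k).1 (hg k).2.1 (hg k).2.2 k (30 * D.n + D.q + ∑ l ∈ s, (l.w k).p)
      ((hN k).inf (hM k))
  have big : ∀ k, ¬ (w k).p ∣ 30 * D.n := fun k a => by
    have := Nat.le_of_dvd (by have := D.n_pos; omega) a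
    have := h1 k
    omega
  have hu : Tendsto (fun k => (r k : ℚ_[2])) UF (𝓝 (ul fun k => (r k : ℚ_[2]))) :=
    tendsto_ul (B := 1) (.of_forall fun k => IsUltrametricDist.norm_natCast_le_one _ _)
  have key : ∀ (ψ : ℤ_[2] → A) (z : GS → Fin 2 → A) (L : ℕ → Subgroup GQ), IsPsi ψ →
      PZ (fun _ => ⊤) (D.r ψ) z → (∀ g n : GS, (∀ k, n k ∈ L k) → z (g * n) = z g) →
      (∀ k, (g k ^ r k)⁻¹ * F k ∈ L k) →
      de e (z F) = (ul fun k => (r k : ℚ_[2])) • de e (z g) := fun ψ z L a1 a2 a3 a4 => by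
    have := val (D.rep a1) a2 ((de e).restrictScalars ℚ_[2]) (g := g) (fun k v => by
      rw [LinearMap.restrictScalars_apply, LinearMap.restrictScalars_apply,
        Dat.r_la a1 (la_of_cyc (hg k).2.2), (hg k).1, mv_uni, map_add, de_qsmul, de_ve, dt_self,
        zero_smul, smul_zero, add_zero]) r
    rwa [← a3 _ _ a4, show ((fun k => g k ^ r k) * fun k => (g k ^ r k)⁻¹ * F k) = F from
      funext fun k => mul_inv_cancel_left _ _] at this
  refine ⟨⟨w, F, t, d, e, (ul fun k => (r k : ℚ_[2])) * c, big,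
    fun k => by have := h1 k; omega, h4, h5, h6, h7, h8, h9, h10, h11,
    fun k => trace D (big k) ?_ (h5 k) (h12 k), fun k => ?_, he,
    mul_ne_zero (TKTRIV.odd_ne h2) hc, fun i j => ?_⟩, rfl, fun l hl k => ?_, _, TKTRIV.odd_ne h2,
    key ψ x N h hx hN' fun k => (h3 k).1, key ψ' y M h' hy hM' fun k => (h3 k).2⟩
  · exact (h4 k).of_dvd (show 4 ∣ 2 ^ (k + 2) from ⟨2 ^ k, by ring⟩)
  · rw [← nu_trace e (r k * c), ← Matrix.trace_sub, Matrix.trace_fin_two]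
    exact (ua (h13 k 0 0) (h13 k 1 1)).trans (by gcongr <;> norm_num)
  · have a := (TKTRIV.lim1 (a := 0) (.of_forall fun k => by simpa using h13 k i j)).add
      ((((hu.mul_const c).mul_const (nu e i j))).const_add ((1 : Mt) i j))
    simpa using a
  · have := Finset.single_le_sum (f := fun l : Kp D => (l.w k).p) (fun _ _ => Nat.zero_le _) hl
    have := h1 k
    show (w k).p ≠ _
    omega

end Pool.Agent.P.MP_9c97e9_nt.K2
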