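import Pool.Agent.P.MP_9c97e9_nt.K2.SelJ

/-! The choice of a Kolyvagin prime. -/

namespace Pool.Agent.P.MP_9c97e9_nt.K2

open scoped NNReal Matrix
open MP_8b7eba_nt.R2 KT
open Filter Topology

namespace TCHEBJ

/-- sequences with a constant image -/
def Y (D : Dat) (B : Mt) (g : GS) : Prop :=
  ∀ k, D.rd (g k) = B ∧ g k D.dl = D.dl ∧ cyc (g k) = 1

variable {D : Dat} {B : Mt} {σ g : GS}

theorem Y.mul (h : Y D 1 σ) (h' : Y D B g) : Y D B (σ * g) := fun k =>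
  ⟨by rw [Pi.mul_apply, D.rd_mul, (h k).1, (h' k).1, one_mul],
    by rw [Pi.mul_apply, AlgEquiv.mul_apply, (h' k).2.1, (h k).2.1],
    by rw [Pi.mul_apply, a_EC.2.1, (h k).2.2, (h' k).2.2, one_mul]⟩

theorem y_comm (D : Dat) (g : GS) : Y D 1 (g * cs D.z * g⁻¹ * (cs D.z)⁻¹) := fun k => by
  obtain ⟨-, -, -, h1, -⟩ := t_F2X D
  have h2 : D.rd D.z⁻¹ = -1 := by
    have := D.rd_mul D.z D.z⁻¹
    rw [mul_inv_cancel, D.rd_one, h1, neg_one_mul] at this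
    exact neg_eq_iff_eq_neg.1 this.symm
  change D.rd (g k * D.z * (g k)⁻¹ * D.z⁻¹) = 1 ∧ (g k * D.z * (g k)⁻¹ * D.z⁻¹) D.dl = D.dl ∧
    MonoidHom.mk' cyc a_EC.2.1 (g k * D.z * (g k)⁻¹ * D.z⁻¹) = 1
  refine ⟨?_, sd_eq_one.1 ?_, ?_⟩
  · rw [D.rd_mul, D.rd_mul, D.rd_mul, h1, h2, mul_neg_one, mul_neg_one, neg_mul, neg_neg,
      ← D.rd_mul, mul_inv_cancel, D.rd_one]
  · rw [sd_mul D.fix_dl, sd_mul D.fix_dl, sd_mul D.fix_dl, sd_inv, sd_inv,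
      mul_right_comm (sd _ (g k)), sd_sq, one_mul, sd_sq]
  · rw [map_mul, map_mul, map_mul, map_inv, map_inv, mul_inv_cancel_comm, mul_inv_cancel]

theorem y_bad {w : Pl} {t : GQ} {e : V2} {c : ℚ_[2]} (h : BadR w t e c) :
    Y D (1 + (2 * c) • nu e) (cs (t * t)) := fun _ => by
  have h1 : (t * t) D.dl = D.dl := sd_eq_one.1 (by rw [sd_mul D.fix_dl, sd_sq])
  refine ⟨(Dat.rd_fix h1).trans ?_, h1, ?_⟩
  · rw [map_mul, h.rt]
    ext i j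
    fin_cases i <;> fin_cases j <;> simp [nu, Matrix.mul_apply, Fin.sum_univ_two] <;> ring
  · change cyc (t * t) = 1
    rw [a_EC.2.1, (h.fix t h.tI).2, one_mul]

theorem dt_ne {e e' : V2} (h : ‖e - ![0, 1]‖ < 1) (h' : ‖e' - ![1, 1]‖ < 1) (h1 : ‖e'‖ = 1) :
    dt e e' ≠ 0 := fun h0 => by
  have a0 := (norm_le_pi_norm _ 0).trans_lt h
  have a1 := (norm_le_pi_norm _ 1).trans_lt h
  have b0 := (norm_le_pi_norm _ 0).trans_lt h'
  have c := fun i => (norm_le_pi_norm e' i).trans_eq h1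
  simp only [Pi.sub_apply, Matrix.cons_val_zero, Matrix.cons_val_one, sub_zero] at a0 a1 b0
  have m : ∀ {a : ℚ_[2]} (i), ‖a‖ < 1 → ‖a * e' i‖ < 1 := fun i ha =>
    (norm_mul _ _).trans_lt ((mul_le_of_le_one_right (norm_nonneg _) (c i)).trans_lt ha)
  have e1 : (1 : ℚ_[2]) = e 0 * e' 1 - (e 1 - 1) * e' 0 - (e' 0 - 1) := by
    rw [dt] at h0; linear_combination -h0
  have := us (us (le_max_left _ ‖(e 1 - 1) * e' 0‖) (le_max_right ‖e 0 * e' 1‖ _)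
    |>.trans (le_max_left _ ‖e' 0 - 1‖)) (le_max_right _ _)
  rw [← e1, norm_one] at this
  exact this.not_gt (max_lt (max_lt (m 1 a0) (m 0 a1)) b0)

variable {A : Type} [NormedCommRing A] [NormedAlgebra ℚ_[2] A] [IsUltrametricDist A]
  [FiniteDimensional ℚ_[2] A] {ψ : ℤ_[2] → A} {x : GS → Fin 2 → A}

omit [IsUltrametricDist A] [FiniteDimensional ℚ_[2] A] in
theorem Y.co (h : Y D B σ) (hψ : IsPsi ψ) (hx : PZ (fun _ => ⊤) (D.r ψ) x) (g : GS) :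
    x (σ * g) = x σ + mv B (x g) := by
  rw [hx.2 σ (mem_top σ) g (mem_top g),
    Dat.rS_eq hψ (.of_forall fun k => ⟨(h k).1, la_of_cyc (h k).2.2⟩)]

theorem exists_y (hψ : IsPsi ψ) (hx : PZ (fun _ => ⊤) (D.r ψ) x) (hz : x (cs D.z) = 0) (h0 : x ≠ 0)
    {e e' : V2} {c : ℚ_[2]} {t : GS} (ht : Y D (1 + c • nu e') t) (hc : c ≠ 0) (he' : e' ≠ 0)
    (he : dt e e' ≠ 0) : ∃ σ, Y D 1 σ ∧ de e (x σ) ≠ 0 := by
  by_contra! H
  have R := D.rep hψ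
  have h1 : ∀ g, de e (x g) = 0 := fun g => by
    have h3 := H _ (y_comm D g)
    rw [hx.comm R (fun _ => le_rfl) (mem_top g) (mem_top _) hz, D.rS_mul hψ, D.rS_mul hψ,
      Dat.rS_z hψ, R.rS_neg, ← D.rS_mul hψ, mul_inv_cancel, R.rS_one, sub_neg_eq_add, map_add,
      ← two_smul ℚ_[2], smul_eq_zero] at h3
    exact h3.resolve_left two_ne_zero
  refine h0 (funext fun g => ?_)
  have h2 := h1 (t * g)
  rw [ht.co hψ hx, mv_uni, map_add, map_add, h1, h1, zero_add, zero_add, de_qsmul, de_ve,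
    smul_eq_zero_iff_right hc, smul_eq_zero_iff_right he] at h2
  obtain ⟨a, ha⟩ := exists_ve he' h2
  have h3 := h1 g
  rw [ha, de_ve, smul_eq_zero_iff_right he] at h3
  rw [ha, h3]
  exact funext fun i => smul_zero _

end TCHEBJ

open TCHEBJ in
theorem t_CHEBJ (h0 : CHEB0J) : CHEBJ := by
  intro D s A _ _ _ _ ψ ψ' x y hψ hψ' hx hy zx zy nx ny
  obtain ⟨w3, p3⟩ := a_PL.1 3 Nat.prime_three
  obtain ⟨w5, p5⟩ := a_PL.1 5 Nat.prime_five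
  obtain ⟨t, e, c, b⟩ := bad_r (w := w3) (by rw [p3]; norm_num)
  obtain ⟨t', e', c', b'⟩ := bad_r (w := w5) (by rw [p5]; norm_num)
  have ne : ∀ {v : V2}, ‖v‖ = 1 → v ≠ 0 := fun h => norm_ne_zero_iff.1 (h ▸ one_ne_zero)
  have c1 := mul_ne_zero two_ne_zero b.c0
  have c2 := mul_ne_zero two_ne_zero b'.c0
  have hd := dt_ne (b.e3 p3) (b'.e5 p5) b'.e1
  have ax : ∀ {σ}, Y D 1 σ → ∀ g, de e (x (σ * g)) = de e (x σ) + de e (x g) := fun h g => by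
    rw [h.co hψ hx, mv_one, map_add]
  have ay : ∀ {σ}, Y D 1 σ → ∀ g, de e (y (σ * g)) = de e (y σ) + de e (y g) := fun h g => by
    rw [h.co hψ' hy, mv_one, map_add]
  obtain ⟨σ, h1, h2, h3⟩ : ∃ σ, Y D 1 σ ∧ de e (x σ) ≠ 0 ∧ de e (y σ) ≠ 0 := by
    obtain ⟨σ, a1, a2⟩ := exists_y hψ hx zx nx (y_bad b') c2 (ne b'.e1) hd
    obtain ⟨τ, b1, b2⟩ := exists_y hψ' hy zy ny (y_bad b') c2 (ne b'.e1) hd
    by_cases a3 : de e (y σ) = 0
    · by_cases b3 : de e (x τ) = 0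
      · exact ⟨_, a1.mul b1, by rwa [ax a1, b3, add_zero], by rwa [ay a1, a3, zero_add]⟩
      · exact ⟨τ, b1, b3, b2⟩
    · exact ⟨σ, a1, a2, a3⟩
  have two : ∀ {a : A}, a ≠ 0 → a + a ≠ 0 := fun h => by
    rw [← two_smul ℚ_[2]]; exact smul_ne_zero two_ne_zero h
  obtain ⟨g, g1, g2, g3⟩ : ∃ g, Y D (1 + (2 * c) • nu e) g ∧ de e (x g) ≠ 0 ∧ de e (y g) ≠ 0 := by
    by_contra! H
    have a0 := H _ (y_bad b)
    have a1 := H _ (h1.mul (y_bad b))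
    have a2 := H _ (h1.mul (h1.mul (y_bad b)))
    simp only [ax h1, ay h1] at a1 a2
    by_cases c0 : de e (x (cs (t * t))) = 0
    · rw [c0, add_zero] at a1 a2
      have := a2 (two h2)
      rw [a1 h2, add_zero] at this
      exact h3 this
    · rw [a0 c0, add_zero] at a1 a2
      have c1 := not_not.1 (mt a1 h3)
      rw [c1, add_zero] at a2
      exact two h3 (a2 h2)
  obtain ⟨l, l1, l2, u, u0, u1, u2⟩ := h0 D s e _ g (ne b.e1) c1 g1 A ψ ψ' x y hψ hψ' hx hy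
  exact ⟨l, l2, by rw [l1, u1]; exact smul_ne_zero u0 g2, by rw [l1, u2]; exact smul_ne_zero u0 g3⟩

end Pool.Agent.P.MP_9c97e9_nt.K2
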