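import Pool.Agent.P.MP_9c97e9_nt.K2.IfK
import Pool.Agent.P.MP_9c97e9_nt.KT.TDETQ

/-! The determinant on a space and on the kernel of an eigenform. -/

namespace Pool.Agent.P.MP_9c97e9_nt.K2

open Module Polynomial

theorem t_DET1 : DET1 := by
  intro V _ _ X Y _ _ T hX hY l μ h1 h2
  let Λ : X →ₗ[ℚ_[2]] ℚ_[2] := l.comp X.subtype
  have hYX : Y ≤ X := fun x hx => ((h1 x).1 hx).1
  have hk : LinearMap.ker Λ = Y.comap X.subtype := by
    ext x
    simp [Λ, h1]
  have e1 : finrank ℚ_[2] (LinearMap.ker Λ) = finrank ℚ_[2] Y := by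
    rw [hk]
    exact (Submodule.comapSubtypeEquivOfLe hYX).finrank_eq
  have e2 := Λ.finrank_range_add_finrank_ker
  have e3 : finrank ℚ_[2] ℚ_[2] = 1 := by simp
  have e4 := Submodule.finrank_le (LinearMap.range Λ)
  refine ⟨by omega, fun h => ?_⟩
  have hs : Function.Surjective Λ :=
    LinearMap.range_eq_top.1 (Submodule.eq_top_of_finrank_eq (by omega))
  have hW : LinearMap.ker Λ ≤ (LinearMap.ker Λ).comap (T.restrict hX) := by
    rw [hk]
    exact fun x hx => hY _ hx
  have d1 := LinearMap.det_eq_det_mul_det (LinearMap.ker Λ) (T.restrict hX) hW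
  have d2 := KT.TDETQ.det_intertwine
    ((LinearEquiv.ofEq _ _ hk).trans (Submodule.comapSubtypeEquivOfLe hYX))
    ((T.restrict hX).restrict hW) (T.restrict hY) fun x => rfl
  have d3 := KT.TDETQ.det_intertwine (Λ.quotKerEquivOfSurjective hs)
    ((LinearMap.ker Λ).mapQ _ (T.restrict hX) hW) (μ • LinearMap.id) fun x => by
      obtain ⟨x, rfl⟩ := Submodule.Quotient.mk_surjective _ x
      rw [Submodule.mapQ_apply, LinearMap.quotKerEquivOfSurjective_apply_mk,
        LinearMap.smul_apply, LinearMap.id_apply, LinearMap.quotKerEquivOfSurjective_apply_mk]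
      exact h2 x x.2
  rw [d1, d2, d3, LinearMap.det_eq_sign_charpoly_coeff, coeff_zero_eq_eval_zero]
  simp

end Pool.Agent.P.MP_9c97e9_nt.K2
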