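import Pool.Agent.P.MP_9c97e9_nt.K2.MuJ

/-! The representations with coefficients and formal properties of the Selmer groups. -/

namespace Pool.Agent.P.MP_9c97e9_nt.K2

open scoped NNReal Matrix
open MP_8b7eba_nt.R2 KT
open Filter Topology

variable {A A' : Type} [NormedCommRing A] [NormedAlgebra ℚ_[2] A] [NormedCommRing A']
  [NormedAlgebra ℚ_[2] A'] {ψ : ℤ_[2] → A} {ψ' : ℤ_[2] → A'} {D : Dat} {s : Finset (Kp D)}
  {x y : GS → Fin 2 → A}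

theorem Dat.r_apply (g : GQ) (v : Fin 2 → A) : D.r ψ g v = ψ (la g) • mv (D.rd g) v := rfl

theorem Dat.th_apply (i : Fin 2) (g : GQ) (a : A) :
    D.th ψ i g a = (D.rd g i i • ψ (la g)) * a := rfl

theorem Dat.psi_sm (D : Dat) (h : IsPsi ψ) {ε : ℝ} (hε : 0 < ε) : ∃ N, ON N ∧ ∀ g ∈ N,
    ‖ψ (la g) - 1‖ ≤ ε ∧ ∀ i j, ‖(D.rd g - 1) i j‖ ≤ ε := by
  obtain ⟨k, hk⟩ := h.near hε
  obtain ⟨N, h1, h2⟩ := la_sm k
  obtain ⟨N', h3, h4⟩ := D.rd_sm hε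
  exact ⟨_, h1.inf h3, fun g m => ⟨h.zero ▸ hk _ _ (by simpa using h2 g m.1), h4 g m.2⟩⟩

theorem Dat.psi_pow (D : Dat) (h : IsPsi ψ) (g : GQ) {ε : ℝ} (hε : 0 < ε) :
    ∃ k : ℕ, ‖ψ (la (g ^ 2 ^ k)) - 1‖ ≤ ε ∧ ∀ i j, ‖(D.rd (g ^ 2 ^ k) - 1) i j‖ ≤ ε := by
  obtain ⟨k, hk⟩ := h.near hε
  obtain ⟨m, h1, h2⟩ := ((eventually_ge_atTop k).and (SelA.rd_pow T2 D.fix_dl g hε)).exists
  refine ⟨m, h.zero ▸ hk _ _ ?_, h2⟩
  rw [la_pow, sub_zero]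
  push_cast
  exact (pow_dvd_pow _ h1).mul_right _

theorem Dat.la_z (D : Dat) : la D.z = 0 := la_of_cyc (t_F2X D).2.2.2.2.1

theorem Dat.la_f2 (D : Dat) : la D.f2 = 0 := la_of_cyc D.fc

theorem Dat.f2_ne (D : Dat) (i : Fin 2) : D.rd D.f2 i i ≠ 1 := by
  obtain ⟨h1, h2, -⟩ := t_F2X D
  have h3 : D.rd D.f2 1 1 ≠ 1 := fun e => by
    rw [e, sub_self, norm_zero] at h1
    split_ifs at h1 <;> norm_num at h1
  fin_cases i
  · exact fun e => h3 (by rwa [show D.rd D.f2 0 0 = 1 from e, one_mul] at h2)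
  · exact h3

theorem Dat.f2_unit (D : Dat) : IsUnit (D.rd D.f2 - 1).det := by
  refine Ne.isUnit ?_
  rw [Matrix.det_fin_two]
  simpa [(t_F2X D).2.2.1, sub_eq_zero] using And.intro (D.f2_ne 0) (D.f2_ne 1)

theorem Dat.f2_mem (D : Dat) : cs D.f2 ∈ S1 w2.D := cs_mem.2 D.fr.1

/-! ### Linear algebra -/

theorem Dat.bt_r (D : Dat) (h : IsPsi ψ) (t : A →ₗ[ℚ_[2]] ℚ_[2]) (g : GQ) (v v' : Fin 2 → A) :
    TDUAL.bt t (D.r (bar ψ) g v) (D.r ψ g v') = cq g * TDUAL.bt t v v' := by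
  have h2 : bar ψ (la g) * ψ (la g) = 1 := by rw [bar, ← h.add, neg_add_cancel, h.zero]
  rw [← D.rd_det, ← TDUAL.bt_mv, Dat.r_apply, Dat.r_apply, TDUAL.bt_apply, TDUAL.bt_apply]
  congr 1
  simp only [Pi.smul_apply, smul_eq_mul]
  linear_combination (mv (D.rd g) v 0 * mv (D.rd g) v' 1 - mv (D.rd g) v 1 * mv (D.rd g) v' 0) * h2

theorem Dat.th_equiv (D : Dat) (h : IsPsi ψ) {g : GQ} (hg : g ∈ w2.D) (a b : A) :
    D.th (bar ψ) 1 g a * D.th ψ 0 g b = cq g • (a * b) := by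
  have h1 : D.rd g 1 1 * D.rd g 0 0 = cq g := by
    rw [← D.rd_det, Matrix.det_fin_two, D.rd_up hg, mul_zero, sub_zero, mul_comm]
  rw [Dat.th_apply, Dat.th_apply, mul_mul_mul_comm, smul_mul_smul_comm, h1, bar, ← h.add,
    neg_add_cancel, h.zero, smul_mul_assoc, one_mul]

theorem Dat.th_f2 (D : Dat) (h : IsPsi ψ) (i : Fin 2) (a : A) :
    D.th ψ i D.f2 a = D.rd D.f2 i i • a := by
  rw [Dat.th_apply, D.la_f2, h.zero, smul_mul_assoc, one_mul]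

/-- elements with trivial logarithm -/
theorem Dat.r_la (h : IsPsi ψ) {g : GQ} (hg : la g = 0) (v : Fin 2 → A) :
    D.r ψ g v = mv (D.rd g) v := by rw [Dat.r_apply, hg, h.zero, one_smul]

theorem Dat.ln_zero : D.ln ψ 0 = 0 := by
  funext g
  simp [Dat.ln, rS_zero]

theorem Dat.sel_iff : D.Sel ψ x ↔ D.Rel ψ ∅ x ∧ D.Ord ψ x :=
  ⟨fun h => ⟨⟨h.pz, h.nz, fun w g e => h.unr w g (e.mono fun _ a => ⟨a.1, a.2.1⟩), h.bad⟩, h.ord⟩,
    fun h => ⟨h.1.pz, h.1.nz, fun w g e => h.1.unr w g (e.mono fun _ a => ⟨a.1, a.2, by simp⟩),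
      h.1.bad, h.2⟩⟩

theorem Dat.Str.ord (h : D.Str ψ x) : D.Ord ψ x := fun g hg => congrFun (h g hg) 1

theorem Dat.Rel.mono {s' : Finset (Kp D)} (h : D.Rel ψ s x) (h' : s ⊆ s') : D.Rel ψ s' x :=
  ⟨h.pz, h.nz, fun w g e => h.unr w g (e.mono fun _ a => ⟨a.1, a.2.1, fun l hl => a.2.2 l (h' hl)⟩),
    h.bad⟩

/-- the cocycles are unramified at the Kolyvagin primes outside `s` -/
theorem Dat.Rel.unr_kp (h : D.Rel ψ s x) {l : Kp D} (hl : ∀ l' ∈ s, ∀ k, (l.w k).p ≠ (l'.w k).p)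
    {g : GS} (hg : g ∈ St fun k => (l.w k).I) : x g = 0 :=
  h.unr l.w g (hg.mono fun k a => ⟨a, l.big k, fun l' b => hl l' b k⟩)

variable [IsUltrametricDist A] [FiniteDimensional ℚ_[2] A] [IsUltrametricDist A']
  [FiniteDimensional ℚ_[2] A']

/-! ### The representations -/

theorem Dat.rep (D : Dat) (h : IsPsi ψ) : Rep ⊤ (D.r ψ) := by
  refine ⟨fun v => by rw [Dat.r_la h la_one, D.rd_one, mv_one], fun g _ g' _ v => ?_,
    fun g v => ?_, fun ε hε => ?_, fun g _ ε hε => ?_⟩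
  · simp only [Dat.r_apply, D.rd_mul, mv_mul, la_mul, h.add, map_smul, mul_smul]
  · exact (norm_smul_le _ _).trans ((mul_le_of_le_one_left (norm_nonneg _) (h.le _)).trans
      (by simpa using SelA.mv_le (D.rd_le g) v))
  · obtain ⟨N, h1, h2⟩ := D.psi_sm h hε
    exact ⟨N, h1, fun n _ m => SelA.near (h.le _) (h2 n m).1 (h2 n m).2⟩
  · obtain ⟨k, h1, h2⟩ := D.psi_pow h g hε
    exact ⟨k, SelA.near (h.le _) h1 h2⟩

theorem Dat.rep_th (D : Dat) (h : IsPsi ψ) (i : Fin 2) : Rep w2.D (D.th ψ i) := by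
  refine ⟨fun v => by simp [Dat.th_apply, D.rd_one, la_one, h.zero],
    fun g hg g' hg' v => ?_, fun g v => ?_, fun ε hε => ?_, fun g _ ε hε => ?_⟩
  · have : D.rd (g * g') i i = D.rd g i i * D.rd g' i i := by
      rw [D.rd_mul, Matrix.mul_apply, Fin.sum_univ_two]
      fin_cases i <;> simp [D.rd_up hg, D.rd_up hg']
    simp only [Dat.th_apply, this, la_mul, h.add, ← mul_assoc, smul_mul_smul_comm]
  · refine (norm_mul_le _ _).trans (mul_le_of_le_one_left (norm_nonneg _) ?_)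
    rw [norm_smul]
    exact mul_le_one₀ (D.rd_le _ _ _) (norm_nonneg _) (h.le _)
  · obtain ⟨N, h1, h2⟩ := D.psi_sm h hε
    exact ⟨N, h1, fun n _ m => SelA.near' (h.le _) (h2 n m).1 (by simpa using (h2 n m).2 i i)⟩
  · obtain ⟨k, h1, h2⟩ := D.psi_pow h g hε
    exact ⟨k, SelA.near' (h.le _) h1 (by simpa using h2 i i)⟩

theorem Dat.rS_mul (D : Dat) (h : IsPsi ψ) (g g' : GS) (v : Fin 2 → A) :
    rS (D.r ψ) (g * g') v = rS (D.r ψ) g (rS (D.r ψ) g' v) :=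
  (D.rep h).rS_mul (mem_top g) (mem_top g') v

theorem Dat.rS_smul (h : IsPsi ψ) (g : GS) (a : A) (v : Fin 2 → A) :
    rS (D.r ψ) g (a • v) = a • rS (D.r ψ) g v :=
  ((D.rep h).rS_map ((a • LinearMap.id (R := A)).restrictScalars ℚ_[2]) (.of_forall fun k => by
    simp only [LinearMap.restrictScalars_apply, LinearMap.smul_apply, LinearMap.id_apply,
      Dat.r_apply, map_smul])).symm

omit [IsUltrametricDist A] [FiniteDimensional ℚ_[2] A] in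
theorem Dat.rS_z (h : IsPsi ψ) (v : Fin 2 → A) : rS (D.r ψ) (cs D.z) v = -v := by
  rw [rS_cs, Dat.r_la h D.la_z, (t_F2X D).2.2.2.1, ← neg_one_smul ℚ_[2] (1 : Mt), mv_smul, mv_one,
    neg_one_smul]

omit [IsUltrametricDist A] [FiniteDimensional ℚ_[2] A] in
theorem Dat.rS_f2 (h : IsPsi ψ) (v : Fin 2 → A) : rS (D.r ψ) (cs D.f2) v = mv (D.rd D.f2) v := by
  rw [rS_cs, Dat.r_la h D.la_f2]

omit [IsUltrametricDist A] [FiniteDimensional ℚ_[2] A] in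
/-- the action of a sequence whose logarithm tends to zero -/
theorem Dat.rS_lim (h : IsPsi ψ) {g : GS} {B : Mt}
    (h1 : ∀ i j, Tendsto (fun k => D.rd (g k) i j) UF (𝓝 (B i j)))
    (h2 : Tendsto (fun k => la (g k)) UF (𝓝 0)) (v : Fin 2 → A) : rS (D.r ψ) g v = mv B v := by
  refine ul_eq (tendsto_pi_nhds.2 fun i => ?_)
  have := ((h.cont.tendsto 0).comp h2).mul (((h1 i 0).smul_const (v 0)).add
    ((h1 i 1).smul_const (v 1)))
  rw [← mv_apply, h.zero, one_mul] at this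
  exact this.congr fun k => by
    simp only [Dat.r_apply, Pi.smul_apply, mv_apply, smul_eq_mul, Function.comp_apply]

omit [IsUltrametricDist A] [FiniteDimensional ℚ_[2] A] in
theorem Dat.rS_eq (h : IsPsi ψ) {g : GS} {B : Mt} (h1 : ∀ᶠ k in UF, D.rd (g k) = B ∧ la (g k) = 0)
    (v : Fin 2 → A) : rS (D.r ψ) g v = mv B v :=
  Dat.rS_lim h (fun _ _ => tendsto_const_nhds.congr' (h1.mono fun k hk => by simp only [hk.1]))
    (tendsto_const_nhds.congr' (h1.mono fun _ hk => hk.2.symm)) v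

omit [IsUltrametricDist A] [FiniteDimensional ℚ_[2] A] in
/-- unramified sequences act trivially -/
theorem Dat.rS_unr (h : IsPsi ψ) {w : ℕ → Pl} {g : GS}
    (hg : ∀ᶠ k in UF, g k ∈ (w k).I ∧ ¬ (w k).p ∣ 30 * D.n) (v : Fin 2 → A) :
    rS (D.r ψ) g v = v :=
  (Dat.rS_eq h (hg.mono fun _ hk => ⟨(Dat.rd_I hk.2 hk.1).1, la_of_cyc (Dat.rd_I hk.2 hk.1).2.2⟩)
    v).trans (mv_one v)

theorem Dat.rS_snd (h : IsPsi ψ) {g : GS} (hg : g ∈ S1 w2.D) (v : Fin 2 → A) :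
    rS (D.r ψ) g v 1 = rS (D.th ψ 1) g (v 1) :=
  (D.rep h).rS_map (LinearMap.proj 1) (Eventually.mono hg fun k hk => by
    simp [Dat.r_apply, Dat.th_apply, mv_apply, D.rd_up hk])

theorem Dat.rS_fst (h : IsPsi ψ) {g : GS} {v : Fin 2 → A} (hv : v 1 = 0) :
    rS (D.r ψ) g v 0 = rS (D.th ψ 0) g (v 0) :=
  (D.rep h).rS_map (LinearMap.proj 0) (.of_forall fun k => by
    simp [Dat.r_apply, Dat.th_apply, mv_apply, hv])

theorem Dat.rS_map (h : IsPsi ψ) (ν : A →ₗ[ℚ_[2]] A') (V : Ideal A)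
    (hν : ∀ a, ∀ y ∈ V, ν (ψ a * y) = ψ' a * ν y) (g : GS) {v : Fin 2 → A} (hv : ∀ i, v i ∈ V) :
    (fun i => ν (rS (D.r ψ) g v i)) = rS (D.r ψ') g (fun i => ν (v i)) ∧
      ∀ i, rS (D.r ψ) g v i ∈ V := by
  have h1 : ∀ B i, mv B v i ∈ V := fun B i => SelB.mv_mem B V hv i
  refine ⟨(D.rep h).rS_map (ν.compLeft (Fin 2)) (.of_forall fun k => funext fun i => ?_),
    fun i => (D.rep h).rS_mem (Submodule.pi Set.univ fun _ => V.restrictScalars ℚ_[2])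
      (.of_forall fun k i _ => V.mul_mem_left _ (h1 _ i)) i trivial⟩
  exact (hν _ _ (h1 _ i)).trans (congrArg _ (congrFun (mv_map ν _ v) i))

theorem Dat.pz_smul {H : ℕ → Subgroup GQ} (h : IsPsi ψ) (hx : PZ H (D.r ψ) x) (a : A) :
    PZ H (D.r ψ) (a • x) :=
  hx.map ((a • LinearMap.id (R := A)).restrictScalars ℚ_[2]) fun g _ _ _ =>
    (Dat.rS_smul h g a _).symm

theorem Dat.pz2 {H : ℕ → Subgroup GQ} (h : IsPsi ψ) (t : A →ₗ[ℚ_[2]] ℚ_[2])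
    (hy : PZ H (D.r (bar ψ)) y) (hx : PZ H (D.r ψ) x) : PZ2 H (cupS (TDUAL.bt t) (D.r ψ) y x) :=
  pz2_cup (D.rep h.bar) (D.rep h) (fun _ => le_top) (fun g _ => D.bt_r h t g) hy hx

/-! ### The local normalisation -/

omit [IsUltrametricDist A] [FiniteDimensional ℚ_[2] A] in
theorem Dat.right_inv (h : IsPsi ψ) (v : Fin 2 → A) :
    rS (D.r ψ) (cs D.f2) (mv (D.rd D.f2 - 1)⁻¹ v) - mv (D.rd D.f2 - 1)⁻¹ v = v := by
  rw [Dat.rS_f2 h, SelB.mv_sub_one, ← mv_mul, Matrix.mul_nonsing_inv _ D.f2_unit, mv_one]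

omit [IsUltrametricDist A] [FiniteDimensional ℚ_[2] A] in
theorem Dat.left_inv (h : IsPsi ψ) (v : Fin 2 → A) :
    mv (D.rd D.f2 - 1)⁻¹ (rS (D.r ψ) (cs D.f2) v - v) = v := by
  rw [Dat.rS_f2 h, SelB.mv_sub_one, ← mv_mul, Matrix.nonsing_inv_mul _ D.f2_unit, mv_one]

omit [IsUltrametricDist A] [FiniteDimensional ℚ_[2] A] in
theorem Dat.f2_zero {a : A} {i : Fin 2} (e : D.rd D.f2 i i • a = a) : a = 0 := by
  have : (D.rd D.f2 i i - 1) • a = 0 := by rw [sub_smul, e, one_smul, sub_self]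
  exact (smul_eq_zero.1 this).resolve_left (sub_ne_zero.2 (D.f2_ne i))

theorem Dat.ln_add (h : IsPsi ψ) (x y : GS → Fin 2 → A) :
    D.ln ψ (x + y) = D.ln ψ x + D.ln ψ y := by
  funext g
  simp only [Dat.ln, Pi.add_apply, map_add, (D.rep h).rS_add]
  abel

theorem Dat.ln_smul (h : IsPsi ψ) (a : A) (x : GS → Fin 2 → A) :
    D.ln ψ (a • x) = a • D.ln ψ x := by
  funext g
  simp only [Dat.ln, Pi.smul_apply, map_smul, Dat.rS_smul h, smul_sub]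

omit [IsUltrametricDist A] [FiniteDimensional ℚ_[2] A] in
theorem Dat.ln_f2 (h : IsPsi ψ) (x : GS → Fin 2 → A) : D.ln ψ x (cs D.f2) = 0 := by
  rw [Dat.ln, Dat.right_inv h, sub_self]

theorem Dat.ln_congr (h : IsPsi ψ) (e : Cob (S1 w2.D) (D.r ψ) (x - y)) {g : GS}
    (hg : g ∈ S1 w2.D) : D.ln ψ x g = D.ln ψ y g := by
  obtain ⟨v, hv⟩ := e
  rw [Dat.ln, Dat.ln, eq_add_of_sub_eq (hv g hg), eq_add_of_sub_eq (hv _ D.f2_mem), map_add,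
    Dat.left_inv h, (D.rep h).rS_add]
  abel

theorem Dat.pz_ln {H : ℕ → Subgroup GQ} (h : IsPsi ψ) (hx : PZ H (D.r ψ) x) :
    PZ H (D.r ψ) (D.ln ψ x) :=
  hx.sub (D.rep h) (pz_cob (D.rep h) (fun _ => le_top) _)

theorem Dat.str_iff (h : IsPsi ψ) : D.Str ψ x ↔ Cob (S1 w2.D) (D.r ψ) x :=
  ⟨fun e => ⟨_, fun g hg => sub_eq_zero.1 (e g hg)⟩, fun e g hg =>
    (Dat.ln_congr (y := 0) h (by rwa [sub_zero]) hg).trans (congrFun Dat.ln_zero g)⟩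

theorem Dat.ord_iff (h : IsPsi ψ) :
    D.Ord ψ x ↔ ∃ v, ∀ g ∈ S1 w2.D, (x g - (rS (D.r ψ) g v - v)) 1 = 0 := by
  refine ⟨fun e => ⟨_, e⟩, fun ⟨v, hv⟩ g hg => ?_⟩
  rw [Dat.ln_congr (y := fun g => x g - (rS (D.r ψ) g v - v)) h
    ⟨v, fun _ _ => sub_sub_cancel _ _⟩ hg]
  have e := congrFun (Dat.right_inv (D := D) h (x (cs D.f2) - (rS (D.r ψ) (cs D.f2) v - v))) 1
  rw [hv _ D.f2_mem, Pi.sub_apply, Dat.rS_snd h D.f2_mem, rS_cs, D.th_f2 h, sub_eq_zero] at e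
  rw [Dat.ln, Pi.sub_apply, hv g hg, Pi.sub_apply, Dat.rS_snd h hg, Dat.f2_zero e, rS_zero,
    sub_self, sub_self]

/-- the ordinary condition may be tested on commutators -/
theorem Dat.ord_of_comm (h : IsPsi ψ) (hx : PZ (fun _ => w2.D) (D.r ψ) x)
    (e : ∀ g ∈ S1 w2.D, x (g * cs D.f2 * g⁻¹ * (cs D.f2)⁻¹) 1 = 0) : D.Ord ψ x := by
  intro g hg
  have R := D.rep_th h 1
  have f := D.f2_mem
  have hi := inv_mem hg
  have h1 := mul_mem (mul_mem hg f) hi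
  have h0 : ∀ a, rS (D.th ψ 1) (cs D.f2) a = D.rd D.f2 1 1 • a := fun a => by
    rw [rS_cs, D.th_f2 h]
  have h2 : ∀ a, rS (D.th ψ 1) (g * cs D.f2 * g⁻¹) a = D.rd D.f2 1 1 • a := fun a => by
    rw [R.rS_mul (mul_mem hg f) hi, R.rS_mul hg f, h0, R.rS_smul, ← R.rS_mul hg hi,
      mul_inv_cancel, R.rS_one]
  have h3 := congrFun ((Dat.pz_ln h hx).comm (D.rep h) (fun _ => le_top) hg f (Dat.ln_f2 h x)) 1
  rw [Pi.sub_apply, Dat.rS_snd h h1, h2, Dat.ln, Pi.sub_apply, e g hg, Pi.sub_apply,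
    Dat.rS_snd h (mul_mem h1 (inv_mem f)), R.rS_mul h1 (inv_mem f), h2, ← h0,
    ← R.rS_mul f (inv_mem f), mul_inv_cancel, R.rS_one, sub_self, sub_self] at h3
  exact Dat.f2_zero (sub_eq_zero.1 h3.symm).symm

theorem Dat.pz_snd (h : IsPsi ψ) (hx : PZ (fun _ => w2.D) (D.r ψ) x) :
    PZ (fun _ => w2.D) (D.th ψ 1) fun g => x g 1 :=
  hx.map (LinearMap.proj 1) fun _ hg _ _ => Dat.rS_snd h hg _

theorem Dat.pz_fst (h : IsPsi ψ) (hx : PZ (fun _ => w2.D) (D.r ψ) x)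
    (e : ∀ g ∈ S1 w2.D, x g 1 = 0) : PZ (fun _ => w2.D) (D.th ψ 0) fun g => x g 0 :=
  hx.map (LinearMap.proj 0) fun _ _ g' hg' => Dat.rS_fst h (e g' hg')

/-- the local term at two -/
theorem Dat.at_two (h : IsPsi ψ) (t : A →ₗ[ℚ_[2]] ℚ_[2]) (hy : PZ (fun _ => w2.D) (D.r (bar ψ)) y)
    (hx : PZ (fun _ => w2.D) (D.r ψ) x) (ho : D.Ord ψ x) :
    ∃ B, PZ2 (fun _ => w2.D) B ∧ Cob2 (fun _ => w2.D) (cupS (TDUAL.bt t) (D.r ψ) y x - B) ∧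
      ∀ g ∈ S1 w2.D, ∀ g' ∈ S1 w2.D,
        B g g' = -t (D.ln (bar ψ) y g 1 * rS (D.th ψ 0) g (D.ln ψ x g' 0)) := by
  obtain ⟨h3, h4, h5⟩ := cob2_cup_sub (D.rep h.bar) (D.rep h) (H := fun _ => w2.D)
    (fun _ => le_top) (fun g _ => D.bt_r h t g) hy hx (y := D.ln (bar ψ) y) (z' := D.ln ψ x)
    ⟨_, fun g _ => sub_sub_cancel _ _⟩ ⟨_, fun g _ => sub_sub_cancel _ _⟩
  refine ⟨_, Dat.pz2 h t h3 h4, h5, fun g hg g' hg' => ?_⟩
  rw [cupS, TDUAL.bt_apply, Dat.rS_snd h hg, ho g' hg', rS_zero, mul_zero, zero_sub, map_neg,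
    Dat.rS_fst h (ho g' hg')]

theorem Dat.at_two' (h : IsPsi ψ) (t : A →ₗ[ℚ_[2]] ℚ_[2]) (hy : PZ (fun _ => w2.D) (D.r (bar ψ)) y)
    (hx : PZ (fun _ => w2.D) (D.r ψ) x) (ho : D.Ord ψ x) (ho' : D.Ord (bar ψ) y) :
    Cob2 (fun _ => w2.D) (cupS (TDUAL.bt t) (D.r ψ) y x) := by
  obtain ⟨B, -, h1, h2⟩ := Dat.at_two h t hy hx ho
  refine h1.congr fun g hg g' hg' => ?_
  rw [Pi.sub_apply, Pi.sub_apply, h2 g hg g' hg', ho' g hg, zero_mul, map_zero, neg_zero, sub_zero]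

/-! ### Modules -/

omit [IsUltrametricDist A] [FiniteDimensional ℚ_[2] A] in
theorem Dat.rel_zero : D.Rel ψ s 0 :=
  ⟨pz_zero, rfl, fun _ _ _ => rfl, fun _ _ => ⟨0, fun g _ => by rw [rS_zero, sub_self]; rfl⟩⟩

theorem Dat.Rel.add (h : IsPsi ψ) (hx : D.Rel ψ s x) (hy : D.Rel ψ s y) : D.Rel ψ s (x + y) :=
  ⟨hx.pz.add (D.rep h) hy.pz, by rw [Pi.add_apply, hx.nz, hy.nz, add_zero],
    fun w g hg => by rw [Pi.add_apply, hx.unr w g hg, hy.unr w g hg, add_zero],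
    fun w hw => (hx.bad w hw).add (D.rep h) (hy.bad w hw)⟩

theorem Dat.Rel.smul (h : IsPsi ψ) (hx : D.Rel ψ s x) (a : A) : D.Rel ψ s (a • x) :=
  ⟨Dat.pz_smul h hx.pz a, by rw [Pi.smul_apply, hx.nz, smul_zero],
    fun w g hg => by rw [Pi.smul_apply, hx.unr w g hg, smul_zero],
    fun w hw => (hx.bad w hw).elim fun v hv => ⟨a • v, fun g hg => by
      rw [Pi.smul_apply, hv g hg, Dat.rS_smul h, smul_sub]⟩⟩

theorem Dat.exists_ord (D : Dat) (h : IsPsi ψ) :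
    ∃ M : Submodule A (GS → Fin 2 → A), ∀ x, x ∈ M ↔ D.Ord ψ x :=
  ⟨⟨⟨⟨{x | D.Ord ψ x}, fun hx hy g hg => by
    rw [Dat.ln_add h, Pi.add_apply, Pi.add_apply, hx g hg, hy g hg, add_zero]⟩,
    fun g _ => by rw [Dat.ln_zero]; rfl⟩, fun a x hx g hg => by
    rw [Dat.ln_smul h, Pi.smul_apply, Pi.smul_apply, hx g hg, smul_zero]⟩, fun _ => Iff.rfl⟩

theorem Dat.exists_str (D : Dat) (h : IsPsi ψ) :
    ∃ M : Submodule A (GS → Fin 2 → A), ∀ x, x ∈ M ↔ D.Str ψ x :=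
  ⟨⟨⟨⟨{x | D.Str ψ x}, fun hx hy g hg => by
    rw [Dat.ln_add h, Pi.add_apply, hx g hg, hy g hg, add_zero]⟩,
    fun g _ => by rw [Dat.ln_zero]; rfl⟩,
    fun a x hx g hg => by rw [Dat.ln_smul h, Pi.smul_apply, hx g hg, smul_zero]⟩, fun _ => Iff.rfl⟩

theorem Dat.exists_rel (h : IsPsi ψ) (s : Finset (Kp D)) :
    ∃ M : Submodule A (GS → Fin 2 → A), ∀ x, x ∈ M ↔ D.Rel ψ s x :=
  ⟨⟨⟨⟨{x | D.Rel ψ s x}, fun hx hy => hx.add h hy⟩, Dat.rel_zero⟩, fun a _ hx => hx.smul h a⟩,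
    fun _ => Iff.rfl⟩

theorem Dat.exists_sel (D : Dat) (h : IsPsi ψ) :
    ∃ M : Submodule A (GS → Fin 2 → A), ∀ x, x ∈ M ↔ D.Sel ψ x := by
  obtain ⟨M, hM⟩ := Dat.exists_rel (D := D) h ∅
  obtain ⟨N, hN⟩ := D.exists_ord h
  exact ⟨M ⊓ N, fun x => by rw [Submodule.mem_inf, hM, hN, Dat.sel_iff]⟩

theorem Dat.exists_ds (h : IsPsi ψ) (s : Finset (Kp D)) :
    ∃ M : Submodule A (GS → Fin 2 → A), ∀ x, x ∈ M ↔ D.DS ψ s x := by
  obtain ⟨M, hM⟩ := Dat.exists_rel (D := D) h ∅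
  obtain ⟨N, hN⟩ := D.exists_str h
  exact ⟨M ⊓ (N ⊓ ⨅ l ∈ s, LinearMap.ker (de l.e ∘ₗ LinearMap.proj l.F)), fun x => by
    simp [hM, hN, Dat.DS]⟩

/-! ### Change of coefficients -/

section

variable (h : IsPsi ψ) (h' : IsPsi ψ') (ν : A →ₗ[ℚ_[2]] A') (V : Ideal A)
  (hν : ∀ a, ∀ y ∈ V, ν (ψ a * y) = ψ' a * ν y) (hx : ∀ g i, x g i ∈ V)

include h hν hx

theorem Dat.pz_map {H : ℕ → Subgroup GQ} (hz : PZ H (D.r ψ) x) :
    PZ H (D.r ψ') fun g i => ν (x g i) :=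
  hz.map (ν.compLeft (Fin 2)) fun g _ g' _ => (Dat.rS_map h ν V hν g (hx g')).1

theorem Dat.ln_map : D.ln ψ' (fun g i => ν (x g i)) = (fun g i => ν (D.ln ψ x g i)) ∧
    ∀ g i, D.ln ψ x g i ∈ V := by
  have m := SelB.mv_mem (D.rd D.f2 - 1)⁻¹ V (hx (cs D.f2))
  have e := fun g => Dat.rS_map (D := D) h ν V hν g m
  refine ⟨funext fun g => funext fun i => ?_,
    fun g i => V.sub_mem (hx g i) (V.sub_mem ((e g).2 i) (m i))⟩
  simp only [Dat.ln, ← mv_map, ← (e g).1, Pi.sub_apply, map_sub]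

include h'

theorem Dat.Rel.map (hz : D.Rel ψ s x) : D.Rel ψ' s fun g i => ν (x g i) := by
  have z : ∀ {g}, x g = 0 → (fun i => ν (x g i)) = 0 := fun e => funext fun i => by
    rw [e]; exact ν.map_zero
  refine ⟨Dat.pz_map h ν V hν hx hz.pz, z hz.nz, fun w g hg => z (hz.unr w g hg),
    fun w hw => (hz.bad w hw).elim fun v hv => ⟨fun i => ν (v i), fun g hg => ?_⟩⟩
  have h2 : w.p ≠ 2 := fun e => by rw [e] at hw; norm_num at hw
  simp only [hv g hg]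
  refine (map_sub (ν.compLeft (Fin 2)) _ _).trans (congrArg (· - _)
    ((D.rep h).rS_map _ (hg.mono fun k hk => ?_)))
  rw [Dat.r_la h (la_I h2 hk), Dat.r_la h' (la_I h2 hk)]
  exact mv_map ν _ v

theorem Dat.Sel.map (hz : D.Sel ψ x) : D.Sel ψ' fun g i => ν (x g i) :=
  Dat.sel_iff.2 ⟨(Dat.sel_iff.1 hz).1.map h h' ν V hν hx, fun g hg => by
    rw [(Dat.ln_map h ν V hν hx).1]
    exact (congrArg ν (hz.ord g hg)).trans ν.map_zero⟩

end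

/-! ### Universal approximations -/

theorem Dat.raw_pz (D : Dat) (h : IsPsi ψ) {H : Subgroup GQ} {v : KA} (hb : ∀ k g j, ‖v k g j‖ ≤ 1)
    (hs : ∀ k, Sm H (v k)) (hc : ∀ k, ∀ g ∈ H, ∀ g' ∈ H, ∀ j : ZMod (2 ^ k),
      ‖v k (g * g') j.val - v k g j.val - D.rd g *ᵥ v k g' (j - Ps k g).val‖ ≤ (2 ^ k)⁻¹) :
    Ap (fun _ => H) (fun k g i => ∑ j ∈ Finset.range (2 ^ k), v k g j i • ψ j) (raw ψ v) ∧
      PZ (fun _ => H) (D.r ψ) (raw ψ v) := by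
  have hap : Ap (fun _ => H) (fun k g i => ∑ j ∈ Finset.range (2 ^ k), v k g j i • ψ j)
      (raw ψ v) :=
    ap_ul (B := 1) (fun k g => (pi_norm_le_iff_of_nonneg zero_le_one).2 fun i =>
      IsUltrametricDist.norm_sum_le_of_forall_le_of_nonneg zero_le_one fun j _ =>
        (TKPZ.smul_le i (hb k g j) (h.le _)).trans_eq (one_mul _))
      fun k => ((hs k).comp fun u i => ∑ j ∈ Finset.range (2 ^ k), u j i • ψ j).uc
  refine ⟨hap, pz_of_ac (D.rep h) hap fun ε hε => ?_⟩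
  obtain ⟨m, hm⟩ := h.near hε
  filter_upwards [ev_ge m, TPKOL.ev_small hε] with k h1 h3 g hg g' hg'
  refine (pi_norm_le_iff_of_nonneg hε.le).2 fun i => ?_
  rw [Pi.sub_apply, Pi.sub_apply, Dat.r_apply, Pi.smul_apply, TKPZ.mv_sum, TKPZ.sum_val,
    TKPZ.sum_val, TKPZ.sum_val, Finset.smul_sum, ← (Equiv.subRight (Ps k g)).sum_comp fun j =>
      ψ (la g) • ((D.rd g *ᵥ v k g' j.val) i • ψ j.val),
    ← Finset.sum_sub_distrib, ← Finset.sum_sub_distrib]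
  refine IsUltrametricDist.norm_sum_le_of_forall_le_of_nonneg hε.le fun j _ => ?_
  have h4 : v k (g * g') j.val i • ψ j.val - v k g j.val i • ψ j.val -
      ψ (la g) • ((D.rd g *ᵥ v k g' (j - Ps k g).val) i • ψ (j - Ps k g).val) =
      (v k (g * g') j.val - v k g j.val - D.rd g *ᵥ v k g' (j - Ps k g).val) i • ψ j.val +
        (D.rd g *ᵥ v k g' (j - Ps k g).val) i • (ψ j.val - ψ (la g + (j - Ps k g).val)) := by
    rw [h.add, smul_eq_mul, mul_smul_comm, Pi.sub_apply, Pi.sub_apply, sub_smul, sub_smul, smul_sub]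
    abel
  rw [Equiv.subRight_apply, h4]
  refine ua ((TKPZ.smul_le i ((hc k g hg g' hg' j).trans h3) (h.le _)).trans_eq (mul_one _))
    ((TKPZ.smul_le i ((D.rd_vec g _).trans (hb k g' _))
      (hm _ _ ((pow_dvd_pow _ h1).trans ?_))).trans_eq (one_mul _))
  have h5 : PadicInt.toZModPow k ((j.val : ℤ_[2]) - (la g + ((j - Ps k g).val : ℤ_[2]))) = 0 := by
    rw [map_sub, map_add, map_natCast, map_natCast, ZMod.natCast_zmod_val, ZMod.natCast_zmod_val]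
    exact sub_eq_zero.2 (add_sub_cancel _ _).symm
  rwa [← RingHom.mem_ker, PadicInt.ker_toZModPow, Ideal.mem_span_singleton] at h5

end Pool.Agent.P.MP_9c97e9_nt.K2
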