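import Pool.Agent.P.MP_9c97e9_nt.K2.Defs

/-! Definitions for the Kolyvagin argument. -/

namespace Pool.Agent.P.MP_9c97e9_nt.K2

open scoped NNReal Matrix
open MP_8b7eba_nt.R2 KT
open Filter Topology Polynomial Module

noncomputable section

/-! ### Measures -/

/-- the Euler system in terms of measures -/
structure Dat.MS (D : Dat) (μ : MA) : Prop where
  le : ∀ k M g W (ε : ℝ), 0 ≤ ε → (∀ σ, ‖W σ‖ ≤ ε) → ‖μ k M g W‖ ≤ ε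
  sm : ∀ k M, D.Lv k M → Sm ⊤ (μ k M)
  co : ∀ k M, D.Lv k M → ∀ g h W, Wi M W →
    ‖μ k M (g * h) W - μ k M g W - D.rd g *ᵥ μ k M h (tl W g)‖ ≤ (2 ^ k)⁻¹
  nz : ∀ k M, D.Lv k M → ∀ W, Wi M W → ‖μ k M D.z W‖ ≤ (2 ^ k)⁻¹
  two : ∀ k M, D.Lv k M → ∀ g W, Wi M W → ‖μ k (M * 2) g W - μ k M g W‖ ≤ (2 ^ k)⁻¹
  hec : ∀ k M (w : Pl) φ, D.Lv k M → ¬ w.p ∣ 15 * D.n * D.q * M → w.IsFrob 1 φ → ∀ g W, Wi M W →
    ‖μ k (M * w.p) g W - (μ k M g W -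
      ((jacobiSym D.d w.p * ap W15 w.p : ℤ) / w.p : ℚ_[2]) • μ k M g (tl W φ) +
      (w.p : ℚ_[2])⁻¹ • μ k M g (tl W (φ * φ)))‖ ≤ (2 ^ k)⁻¹

/-! ### Kolyvagin primes -/

/-- generators of tame inertia at three and five, untwisted -/
structure BadR (w : Pl) (t : GQ) (e : V2) (c : ℚ_[2]) : Prop where
  tI : t ∈ w.I
  mov : ∀ β : Om, β ^ 2 = w.p → t β = -β
  e1 : ‖e‖ = 1
  e3 : w.p = 3 → ‖e - ![0, 1]‖ < 1
  e5 : w.p = 5 → ‖e - ![1, 1]‖ < 1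
  c0 : c ≠ 0
  rt : T2.rho t = 1 + c • nu e
  fix : ∀ g ∈ w.I, T2.rho g *ᵥ e = e ∧ cyc g = 1

/-- generators of tame inertia at three and five -/
structure Dat.BadJ (D : Dat) (w : Pl) (t : GQ) (e : V2) (c : ℚ_[2]) : Prop where
  tI : t ∈ w.I
  mov : ∀ β : Om, β ^ 2 = w.p → t β = -β
  e1 : ‖e‖ = 1
  e3 : w.p = 3 → ‖e - ![0, 1]‖ < 1
  e5 : w.p = 5 → ‖e - ![1, 1]‖ < 1
  c0 : c ≠ 0
  rt : D.rd t = 1 + c • nu e
  fix : ∀ g ∈ w.I, D.rd g *ᵥ e = e ∧ g D.dl = D.dl ∧ cyc g = 1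
  fr : ∀ φ, w.IsFrob 1 φ → D.rd φ *ᵥ e = (w.p : ℚ_[2]) • e ∨ D.rd φ *ᵥ e = -(w.p : ℚ_[2]) • e

/-- patched Kolyvagin primes -/
structure Kp (D : Dat) where
  w : ℕ → Pl
  F : GS
  t : GS
  d : ℕ → Wt
  e : V2
  c : ℚ_[2]
  big : ∀ k, ¬ (w k).p ∣ 30 * D.n
  bq : ∀ k, (w k).p ≠ D.q
  one : ∀ k, (w k).p ≡ 1 [MOD 2 ^ (k + 2)]
  fr : ∀ k, (w k).IsFrob 1 (F k)
  tI : ∀ k, t k ∈ (w k).I
  mov : ∀ k (β : Om), β ^ 2 = (w k).p → t k β = -β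
  dw : ∀ k, Wi (w k).p (d k)
  da : ∀ k σ g, ‖d k (σ * g) - d k σ - d k g‖ ≤ (2 ^ k)⁻¹
  d1 : ∀ k, d k (t k) = 1
  d0 : ∀ k, ‖d k (F k)‖ ≤ (2 ^ k)⁻¹
  tr : ∀ k, (D.rd (F k)).trace = (jacobiSym D.d (w k).p * ap W15 (w k).p : ℤ)
  t2 : ∀ k, ‖(D.rd (F k)).trace - 2‖ ≤ (2 ^ k)⁻¹
  e0 : e ≠ 0
  c0 : c ≠ 0
  lim : ∀ i j, Tendsto (fun k => D.rd (F k) i j) UF (𝓝 ((1 + c • nu e) i j))

/-- sets of distinct Kolyvagin primes -/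
def Ok {D : Dat} (s : Finset (Kp D)) : Prop :=
  ∀ l ∈ s, ∀ l' ∈ s, l ≠ l' → ∀ k, (l.w k).p ≠ (l'.w k).p

/-- the level -/
def ck {D : Dat} (s : Finset (Kp D)) (k : ℕ) : ℕ := 2 ^ (k + 2) * ∏ l ∈ s, (l.w k).p

/-- the weight of the derivative -/
def wt {D : Dat} (s : Finset (Kp D)) (k : ℕ) : Wt := ∏ l ∈ s, l.d k

/-- the derived cochains -/
def der {D : Dat} (μ : MA) (s : Finset (Kp D)) : KA := fun k g j =>
  μ k (ck s k) g (wt s k * ind k j)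

/-! ### Selmer groups -/

section

variable {A : Type} [NormedCommRing A] [NormedAlgebra ℚ_[2] A]

/-- the diagonal characters at the place above two -/
def Dat.th (D : Dat) (ψ : ℤ_[2] → A) (i : Fin 2) (g : GQ) : A →ₗ[ℚ_[2]] A :=
  LinearMap.mul ℚ_[2] A (D.rd g i i • ψ (la g))

/-- the strict condition -/
def Dat.Str (D : Dat) (ψ : ℤ_[2] → A) (x : GS → Fin 2 → A) : Prop :=
  ∀ g ∈ S1 w2.D, D.ln ψ x g = 0

/-- normalised cocycles, with no condition at two and at the primes of `s` -/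
structure Dat.Rel (D : Dat) (ψ : ℤ_[2] → A) (s : Finset (Kp D)) (x : GS → Fin 2 → A) : Prop where
  pz : PZ (fun _ => ⊤) (D.r ψ) x
  nz : x (cs D.z) = 0
  unr : ∀ (w : ℕ → Pl) (g : GS), (∀ᶠ k in UF, g k ∈ (w k).I ∧ ¬ (w k).p ∣ 30 * D.n ∧
    ∀ l ∈ s, (w k).p ≠ (l.w k).p) → x g = 0
  bad : ∀ w : Pl, w.p ∣ 15 → Cob (S1 w.I) (D.r ψ) x

/-- the dual Selmer group: trivial at two and at the primes of `s` -/
def Dat.DS (D : Dat) (ψ : ℤ_[2] → A) (s : Finset (Kp D)) (x : GS → Fin 2 → A) : Prop :=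
  D.Rel ψ ∅ x ∧ D.Str ψ x ∧ ∀ l ∈ s, de l.e (x l.F) = 0

end

/-- the properties of the Kolyvagin system -/
def Dat.Kol (D : Dat) (v : Finset (Kp D) → KA) : Prop :=
  ∀ s, Ok s → (∀ k g j, ‖v s k g j‖ ≤ 1) ∧
    ∀ (A : Type) [NormedCommRing A] [NormedAlgebra ℚ_[2] A] [IsUltrametricDist A]
      [FiniteDimensional ℚ_[2] A] (ψ : ℤ_[2] → A), IsPsi ψ → D.Rel ψ s (raw ψ (v s)) ∧
      ∀ l (h : l ∉ s), Ok (s.cons l h) →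
        raw ψ (v (s.cons l h)) l.t = ve l.e (-l.c • de l.e (raw ψ (v s) l.F))

end

/-! ### The Euler system at finite level -/

/-- passage to measures -/
def MU : Prop :=
  ∀ (D : Dat) (z : EA), D.ES z → D.MS (mu z) ∧ ∀ k j g, der (D := D) (mu z) ∅ k g j =
    ∑ δ ∈ Finset.univ.filter fun δ => lu k δ = j, z k (2 ^ (k + 2)) g δ

/-- the Euler system is unramified outside the level -/
def UNRF : Prop :=
  ∀ (D : Dat) (μ : MA), D.MS μ → ∀ (k M : ℕ) (w : Pl) (W : Wt), D.Lv k M → ¬ w.p ∣ M → Wi M W →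
    (¬ w.p ∣ 15 * D.n → ∀ g ∈ w.I, ‖μ k M g W‖ ≤ (2 ^ k)⁻¹) ∧
    ∀ t e c, w.p ∣ 15 → D.BadJ w t e c → ‖dt e (μ k M t W)‖ ≤ (2 ^ k)⁻¹

/-- the derived measures are invariant -/
def QZ : Prop :=
  ∀ (D : Dat) (μ : MA), D.MS μ → ∀ s : Finset (Kp D), Ok s → ∀ k,
    D.Lv k (ck s k) ∧ Wi (ck s k) (wt s k) ∧ ∀ f, Wi (2 ^ (k + 2)) f → Wi (ck s k) (wt s k * f) ∧
      ∀ g h, ‖μ k (ck s k) h (tl (wt s k) g * f) - μ k (ck s k) h (wt s k * f)‖ ≤ (2 ^ k)⁻¹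

/-- the finite-singular relation at finite level -/
def FSR : Prop :=
  ∀ (D : Dat) (μ : MA), D.MS μ → ∀ (l : Kp D) (k M : ℕ) (W : Wt), D.Lv k M → ¬ (l.w k).p ∣ M →
    Wi M W → ‖μ k (M * (l.w k).p) (l.t k) (l.d k * W) + μ k M (l.F k) W -
      (D.rd (l.F k)).adjugate *ᵥ μ k M (l.F k) (tl W (l.F k))‖ ≤ (2 ^ k)⁻¹

/-! ### The Kolyvagin system -/

/-- the derived cochains are normalised cocycles -/
def KPZJ : Prop :=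
  ∀ (D : Dat) (μ : MA), D.MS μ → ∀ s : Finset (Kp D), Ok s → (∀ k g j, ‖der μ s k g j‖ ≤ 1) ∧
    ∀ (A : Type) [NormedCommRing A] [NormedAlgebra ℚ_[2] A] [IsUltrametricDist A]
      [FiniteDimensional ℚ_[2] A] (ψ : ℤ_[2] → A), IsPsi ψ → D.Rel ψ s (raw ψ (der μ s))

/-- the finite-singular relation -/
def KRELJ : Prop :=
  ∀ (D : Dat) (μ : MA), D.MS μ → ∀ (s : Finset (Kp D)) l (h : l ∉ s), Ok (s.cons l h) →
    ∀ (A : Type) [NormedCommRing A] [NormedAlgebra ℚ_[2] A] [IsUltrametricDist A]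
      [FiniteDimensional ℚ_[2] A] (ψ : ℤ_[2] → A), IsPsi ψ →
      raw ψ (der μ (s.cons l h)) l.t = ve l.e (-l.c • de l.e (raw ψ (der μ s) l.F))

/-! ### Duality -/

/-- the local pairing at a Kolyvagin prime, trivial coefficients -/
def PKOLQ : Prop :=
  ∀ (D : Dat) (l : Kp D), (∀ g ∈ St fun k => (l.w k).D, cS g = 1) ∧
    ∃ (d : GS → ℚ_[2]) (u : ℚ_[2]), u ≠ 0 ∧ PZ (fun k => (l.w k).D) (fun _ => LinearMap.id) d ∧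
      d l.t = 1 ∧ ∀ y : GS → ℚ_[2], PZ (fun k => (l.w k).D) (fun _ => LinearMap.id) y →
        (∀ g ∈ St fun k => (l.w k).I, y g = 0) →
        PI l.w (fun k => (l.w k).D) (fun g h => d g * y h) = u * y l.F

/-- local properties at a Kolyvagin prime -/
def KTR : Prop :=
  ∀ (D : Dat) (l : Kp D), ∃ u : ℚ_[2], u ≠ 0 ∧
    ∀ (A : Type) [NormedCommRing A] [NormedAlgebra ℚ_[2] A] [IsUltrametricDist A]
      [FiniteDimensional ℚ_[2] A] (ψ : ℤ_[2] → A), IsPsi ψ →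
      ∀ x, PZ (fun k => (l.w k).D) (D.r ψ) x → (∀ g ∈ St fun k => (l.w k).I, x g = 0) →
        (de l.e (x l.F) = 0 → Cob (St fun k => (l.w k).D) (D.r ψ) x) ∧
        ∀ (t : A →ₗ[ℚ_[2]] ℚ_[2]) y b, PZ (fun k => (l.w k).D) (D.r (bar ψ)) y →
          y l.t = ve l.e b → PI l.w (fun k => (l.w k).D) (cupS (TDUAL.bt t) (D.r ψ) y x) =
            u * t (b * de l.e (x l.F))

/-- the sum of the local terms vanishes -/
def GLOB : Prop :=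
  ∀ (D : Dat) (A : Type) [NormedCommRing A] [NormedAlgebra ℚ_[2] A] [IsUltrametricDist A]
    [FiniteDimensional ℚ_[2] A] (ψ : ℤ_[2] → A), IsPsi ψ → ∀ s, Ok s →
    ∀ (t : A →ₗ[ℚ_[2]] ℚ_[2]) x y, D.Rel ψ s x → D.Rel (bar ψ) s y →
      PI (fun _ => w2) (fun _ => w2.D) (cupS (TDUAL.bt t) (D.r ψ) y x) +
        ∑ l ∈ s, PI l.w (fun k => (l.w k).D) (cupS (TDUAL.bt t) (D.r ψ) y x) = 0

/-- global duality -/
def DUALJ : Prop :=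
  ∀ (D : Dat) (A : Type) [NormedCommRing A] [NormedAlgebra ℚ_[2] A] [IsUltrametricDist A]
    [FiniteDimensional ℚ_[2] A] (ψ : ℤ_[2] → A), IsPsi ψ →
    (∀ s l (h : l ∉ s) x y b, Ok (s.cons l h) → D.DS ψ s x → D.Rel (bar ψ) (s.cons l h) y →
      y l.t = ve l.e b → b * de l.e (x l.F) = 0) ∧
    ∀ x y, D.Sel ψ x → D.Rel (bar ψ) ∅ y → ∀ t : A →ₗ[ℚ_[2]] ℚ_[2],
      PI (fun _ => w2) (fun _ => w2.D) (cupS ((LinearMap.mul ℚ_[2] A).compr₂ t) (D.th ψ 0)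
        (fun g => D.ln (bar ψ) y g 1) fun g => D.ln ψ x g 0) = 0

/-! ### The choice of the primes -/

/-- the Chebotarev theorem for patched classes -/
def CHEB0J : Prop :=
  ∀ (D : Dat) (s : Finset (Kp D)) (e : V2) (c : ℚ_[2]) (g : GS), e ≠ 0 → c ≠ 0 →
    (∀ k, D.rd (g k) = 1 + c • nu e ∧ g k D.dl = D.dl ∧ cyc (g k) = 1) →
    ∀ (A : Type) [NormedCommRing A] [NormedAlgebra ℚ_[2] A] [IsUltrametricDist A]
      [FiniteDimensional ℚ_[2] A] (ψ ψ' : ℤ_[2] → A) (x y : GS → Fin 2 → A), IsPsi ψ → IsPsi ψ' →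
      PZ (fun _ => ⊤) (D.r ψ) x → PZ (fun _ => ⊤) (D.r ψ') y →
      ∃ l : Kp D, l.e = e ∧ (∀ l' ∈ s, ∀ k, (l.w k).p ≠ (l'.w k).p) ∧ ∃ u : ℚ_[2], u ≠ 0 ∧
        de e (x l.F) = u • de e (x g) ∧ de e (y l.F) = u • de e (y g)

/-- the choice of a Kolyvagin prime -/
def CHEBJ : Prop :=
  ∀ (D : Dat) (s : Finset (Kp D)) (A : Type) [NormedCommRing A] [NormedAlgebra ℚ_[2] A]
    [IsUltrametricDist A] [FiniteDimensional ℚ_[2] A] (ψ ψ' : ℤ_[2] → A) (x y : GS → Fin 2 → A),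
    IsPsi ψ → IsPsi ψ' → PZ (fun _ => ⊤) (D.r ψ) x → PZ (fun _ => ⊤) (D.r ψ') y →
    x (cs D.z) = 0 → y (cs D.z) = 0 → x ≠ 0 → y ≠ 0 →
    ∃ l : Kp D, (∀ l' ∈ s, ∀ k, (l.w k).p ≠ (l'.w k).p) ∧ de l.e (x l.F) ≠ 0 ∧ de l.e (y l.F) ≠ 0

/-! ### The bounds -/

/-- the Kolyvagin bound for the strict Selmer group -/
def HBJ : Prop :=
  ∀ (D : Dat) (v : Finset (Kp D) → KA), D.Kol v → ∀ (q : ℚ_[2][X]) (j m α : ℕ), Irreducible q →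
    α < m → ∀ (A : Type) [NormedCommRing A] [NormedAlgebra ℚ_[2] A] [IsUltrametricDist A]
      [FiniteDimensional ℚ_[2] A] (ψ : ℤ_[2] → A) (A' : Type) [NormedCommRing A']
      [NormedAlgebra ℚ_[2] A'] [IsUltrametricDist A'] [FiniteDimensional ℚ_[2] A'] (ψ' : ℤ_[2] → A'),
      IsAF ψ (q ^ (j + m)) → IsAF ψ' (q ^ j) →
      aeval (ψ 1 - 1) q ^ (j + m - α - 1) • raw (bar ψ) (v ∅) ≠ 0 →
      ∀ M : Submodule A' (GS → Fin 2 → A'), FiniteDimensional ℚ_[2] M →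
        (∀ x ∈ M, D.Sel ψ' x ∧ D.Str ψ' x) → finrank ℚ_[2] M ≤ q.natDegree * α

/-- comparison of the ordinary and of the strict Selmer group -/
def SBJ : Prop :=
  ∀ (D : Dat) (A : Type) [NormedCommRing A] [NormedAlgebra ℚ_[2] A] [IsUltrametricDist A]
    [FiniteDimensional ℚ_[2] A] (ψ : ℤ_[2] → A) (π : A) (j e b R : ℕ) (κ : GS → Fin 2 → A),
    IsPsi ψ → Chain π j e → b < j → D.Rel (bar ψ) ∅ κ → ¬ D.Ord (bar ψ) (π ^ (j - b - 1) • κ) →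
    (∀ M : Submodule A (GS → Fin 2 → A), FiniteDimensional ℚ_[2] M →
      (∀ x ∈ M, D.Sel ψ x ∧ D.Str ψ x) → finrank ℚ_[2] M ≤ R) →
    ∀ M : Submodule A (GS → Fin 2 → A), FiniteDimensional ℚ_[2] M → (∀ x ∈ M, D.Sel ψ x) →
      finrank ℚ_[2] M ≤ R + e * b

/-! ### The explicit reciprocity law -/

/-- the limits of the analytic side -/
def ERLA : Prop :=
  ∀ (D : Dat) (u : ∀ k : ℕ, (ZMod (2 ^ (k + 2)))ˣ), (∀ k ν, ‖D.msy k ν‖ ≤ 16) ∧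
    ∀ (A : Type) [NormedCommRing A] [NormedAlgebra ℚ_[2] A] [IsUltrametricDist A]
      [FiniteDimensional ℚ_[2] A] (ψ : ℤ_[2] → A), IsPsi ψ →
      Tendsto (fun k => ∑ δ, (ce D.e δ : ℚ_[2]) • ψ (-lu k δ)) UF (𝓝 0) ∧
      ∃ b, Tendsto (fun k => ∑ ν ∈ oddR D.n k,
        D.msy k ν • ψ (-lu k (u k * (un (ν : ZMod (2 ^ (k + 2))))⁻¹))) UF
        (𝓝 (ψ b * thA D.mes ψ))

/-- the cup product with the local class -/
def ERLB : Prop :=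
  ∀ (D : Dat) (z : EA) (y : ∀ k : ℕ, GQ → (ZMod (2 ^ (k + 2)))ˣ → V2), D.ES z → (∀ k, D.LY k (y k)) →
    ∀ (A : Type) [NormedCommRing A] [NormedAlgebra ℚ_[2] A] [IsUltrametricDist A]
      [FiniteDimensional ℚ_[2] A] (ψ : ℤ_[2] → A), IsPsi ψ →
      ∃ Y, PZ (fun _ => w2.D) (D.r ψ) Y ∧ (∀ g, Y g 1 = 0) ∧ ∀ (a : A) (t : A →ₗ[ℚ_[2]] ℚ_[2]),
        Ap2 (fun _ => w2.D) (fun k g h => ∑ δ, ∑ η, t (a * ψ (-lu k (δ * η⁻¹))) *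
          dt (z k (2 ^ (k + 2)) g δ) (D.rd g *ᵥ y k h (η * (cy _ g)⁻¹)))
          (cupS (TDUAL.bt t) (D.r ψ) (a • raw (bar ψ) (der (D := D) (mu z) ∅)) Y)

/-- the explicit reciprocity law for the patched class -/
def ERLP : Prop :=
  ∀ (D : Dat) (z : EA), D.ES z → D.ERL z →
    ∀ (A : Type) [NormedCommRing A] [NormedAlgebra ℚ_[2] A] [IsUltrametricDist A]
      [FiniteDimensional ℚ_[2] A] (ψ : ℤ_[2] → A), IsPsi ψ → ∀ a : A,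
      D.Ord (bar ψ) (a • raw (bar ψ) (der (D := D) (mu z) ∅)) → a * thA D.mes ψ = 0

end Pool.Agent.P.MP_9c97e9_nt.K2
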