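import Pool.Agent.P.MP_9c97e9_nt.K2.SelJ
import Pool.Agent.P.MP_9c97e9_nt.KT.TERLA

namespace Pool.Agent.P.MP_9c97e9_nt.K2

open MP_8b7eba_nt.R2 KT
open Filter Topology Finset
open KT.TERLA (lz_five dvd_of)

namespace TERLA

theorem n2 : ‖(2 : ℚ_[2])‖ = 2⁻¹ := by simpa using Padic.norm_p (p := 2)

theorem msy_le (D : Dat) (k ν : ℕ) : ‖D.msy k ν‖ ≤ 16 := by
  have h1 : ‖al0⁻¹‖ = 1 := by rw [norm_inv, KT.t_BAS.1.1, inv_one]
  have h2 : 16⁻¹ ≤ ‖(ka D.d : ℚ_[2])‖ := by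
    rw [ka]
    split_ifs
    · rw [show ((4 : ℕ) : ℚ_[2]) = 2 ^ 2 by norm_num, norm_pow, n2]; norm_num
    · rw [show ((16 : ℕ) : ℚ_[2]) = 2 ^ 4 by norm_num, norm_pow, n2]; norm_num
  have h3 : ∀ z : ℤ, ‖(z : ℚ_[2])‖ ≤ 1 := fun z => Padic.norm_int_le_one z
  rw [Dat.msy, norm_div, div_le_iff₀ (lt_of_lt_of_le (by norm_num) h2), norm_mul]
  have h4 : ∀ a b : ℤ, ‖(a : ℚ_[2]) - al0⁻¹ * b‖ ≤ 1 := fun a b => by
    rw [sub_eq_add_neg]
    refine (IsUltrametricDist.norm_add_le_max _ _).trans (max_le (h3 a) ?_)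
    rw [norm_neg, norm_mul, h1, one_mul]
    exact h3 b
  exact (mul_le_one₀ (h3 _) (norm_nonneg _) (h4 _ _)).trans (by linarith)

theorem q_val (k : ℕ) : ((un ((5 : ℕ) : ZMod (2 ^ (k + 2))) : (ZMod (2 ^ (k + 2)))ˣ) :
    ZMod (2 ^ (k + 2))) = (5 : ℕ) := by
  have hu : IsUnit ((5 : ℕ) : ZMod (2 ^ (k + 2))) :=
    (ZMod.isUnit_iff_coprime _ _).2 (Nat.Coprime.pow_right _ (by norm_num))
  rw [un, dif_pos hu, IsUnit.unit_spec]

theorem ce_mul {e : ℤ} (he : e = 1 ∨ e = -1 ∨ e = 2 ∨ e = -2) {k : ℕ} (hk : 1 ≤ k)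
    (δ : (ZMod (2 ^ (k + 2)))ˣ) (j : ℕ) :
    ce e (δ * un ((5 : ℕ) : ZMod (2 ^ (k + 2))) ^ (2 * j)) = ce e δ := by
  have o : ∀ δ : (ZMod (2 ^ (k + 2)))ˣ, Odd (δ : ZMod (2 ^ (k + 2))).val := fun δ =>
    Nat.coprime_two_right.1 ((ZMod.val_coe_unit_coprime δ).coprime_dvd_right
      (dvd_pow_self 2 (by omega)))
  rw [ce, ce, jacobiSym.mod_right _ (o _), jacobiSym.mod_right e (o δ)]
  congr 1
  have h8 : 4 * e.natAbs ∣ 8 := by rcases he with rfl | rfl | rfl | rfl <;> norm_num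
  refine Nat.ModEq.of_dvd h8 (Nat.ModEq.trans (b := (δ : ZMod (2 ^ (k + 2))).val * 25 ^ j)
    (Nat.ModEq.of_dvd (pow_dvd_pow 2 (by omega : 3 ≤ k + 2)) ?_) ?_)
  · rw [← ZMod.natCast_eq_natCast_iff, ZMod.natCast_zmod_val, Units.val_mul, Units.val_pow_eq_pow_val,
      q_val, pow_mul]
    push_cast
    rw [ZMod.natCast_zmod_val]
    norm_num
  · simpa using ((show 25 ≡ 1 [MOD 8] by decide).pow j).mul_left (δ : ZMod (2 ^ (k + 2))).val

theorem lu_pow (hC : CYB) (k j : ℕ) (δ : (ZMod (2 ^ (k + 2)))ˣ) :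
    (lu k (δ * un ((5 : ℕ) : ZMod (2 ^ (k + 2))) ^ j) : ZMod (2 ^ k)) = lu k δ + j := by
  obtain ⟨-, -, h2, h3, -⟩ := hC.2.2 k
  induction j with
  | zero => simp
  | succ j ih =>
    rw [pow_succ (un _), ← mul_assoc, h2, ih, h3 5 (by decide), lz_five]
    push_cast
    ring

variable {A : Type} [NormedCommRing A] [NormedAlgebra ℚ_[2] A] [IsUltrametricDist A]
  {ψ : ℤ_[2] → A}

/-- sums of functions that are almost constant on the cosets of a subgroup -/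
theorem cos {G : Type} [Group G] [Fintype G] (H : Subgroup G) (F : G → A) {ε : ℝ} (h0 : 0 ≤ ε)
    (h1 : ∀ g, ‖F g‖ ≤ 1) (h2 : ∀ g, ∀ x ∈ H, ‖F (g * x) - F g‖ ≤ ε)
    (h3 : ‖(Nat.card H : ℚ_[2])‖ ≤ ε) : ‖∑ g, F g‖ ≤ ε := by
  classical
  have hb : Function.Bijective fun p : (G ⧸ H) × H => p.1.out * p.2 := by
    refine ⟨fun ⟨c, x⟩ ⟨c', x'⟩ e => ?_, fun g => ?_⟩
    · have e1 := congrArg (QuotientGroup.mk (s := H)) e
      simp only [QuotientGroup.mk_mul_of_mem _ (Subtype.prop _), QuotientGroup.out_eq'] at e1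
      subst e1
      exact Prod.ext rfl (Subtype.ext (mul_left_cancel e))
    · obtain ⟨x, hx⟩ := QuotientGroup.mk_out_eq_mul H g
      exact ⟨(g, x⁻¹), by simp [hx]⟩
  rw [← hb.sum_comp F, Fintype.sum_prod_type]
  refine IsUltrametricDist.norm_sum_le_of_forall_le_of_nonneg h0 fun c _ => ?_
  have e : ∑ x : H, F (c.out * x) =
      ∑ x : H, (F (c.out * x) - F c.out) + (Nat.card H : ℚ_[2]) • F c.out := by
    rw [sum_sub_distrib, sum_const, card_univ, Nat.cast_smul_eq_nsmul, Nat.card_eq_fintype_card,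
      sub_add_cancel]
  rw [e]
  refine (IsUltrametricDist.norm_add_le_max _ _).trans (max_le
    (IsUltrametricDist.norm_sum_le_of_forall_le_of_nonneg h0 fun x _ => h2 _ _ x.2) ?_)
  rw [norm_smul]
  exact (mul_le_of_le_one_right (norm_nonneg _) (h1 _)).trans h3

theorem tws (hC : CYB) {e : ℤ} (he : e = 1 ∨ e = -1 ∨ e = 2 ∨ e = -2) (h : IsPsi ψ) :
    Tendsto (fun k => ∑ δ, (ce e δ : ℚ_[2]) • ψ (-lu k δ)) UF (𝓝 0) := by
  refine Metric.tendsto_nhds.2 fun ε hε => ?_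
  obtain ⟨K, hK⟩ := h.near (half_pos hε)
  obtain ⟨r, hr⟩ := exists_pow_lt_of_lt_one (half_pos hε) (show (2⁻¹ : ℝ) < 1 by norm_num)
  filter_upwards [ev_ge (K + 1 + r)] with k hk
  rw [dist_zero_right]
  have h3 : ∀ δ : (ZMod (2 ^ (k + 2)))ˣ, ‖(ce e δ : ℚ_[2])‖ ≤ 1 := fun δ => Padic.norm_int_le_one _
  refine lt_of_le_of_lt (cos (Subgroup.zpowers (un ((5 : ℕ) : ZMod (2 ^ (k + 2))) ^ 2 ^ (K + 1))) _
    (half_pos hε).le (fun δ => ?_) (fun δ x hx => ?_) ?_) (half_lt_self hε)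
  · rw [norm_smul]
    exact mul_le_one₀ (h3 δ) (norm_nonneg _) (h.le _)
  · obtain ⟨j, rfl⟩ := mem_powers_iff_mem_zpowers.2 hx
    have h4 := lu_pow hC k (2 * (2 ^ K * j)) δ
    rw [← Nat.cast_add] at h4
    simp only
    rw [← pow_mul, pow_succ' 2 K, mul_assoc 2, ce_mul he (by omega), ← smul_sub, norm_smul]
    refine (mul_le_of_le_one_left (norm_nonneg _) (h3 δ)).trans (hK _ _ ?_)
    have h5 := (pow_dvd_pow (2 : ℤ_[2]) (by omega : K ≤ k)).trans (dvd_of h4)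
    have h6 : (2 : ℤ_[2]) ^ K ∣ 2 ^ K * (2 * j) := dvd_mul_right _ _
    convert dvd_sub h5 h6 using 1
    push_cast
    ring
  · rw [Nat.card_zpowers]
    have h4 := lu_pow hC k
      (2 ^ (K + 1) * orderOf (un ((5 : ℕ) : ZMod (2 ^ (k + 2))) ^ 2 ^ (K + 1))) 1
    rw [pow_mul, pow_orderOf_eq_one, mul_one, left_eq_add, ZMod.natCast_eq_zero_iff] at h4
    have h5 := (pow_dvd_pow 2 hk).trans h4
    rw [pow_add] at h5
    obtain ⟨c, hc⟩ := Nat.dvd_of_mul_dvd_mul_left (by positivity) h5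
    rw [hc, Nat.cast_mul, Nat.cast_pow, norm_mul, norm_pow, Nat.cast_ofNat, n2]
    exact (mul_le_of_le_one_right (by positivity)
      (by simpa using Padic.norm_int_le_one (p := 2) c)).trans hr.le

end TERLA

open TERLA

theorem t_ERLA (hCYB : CYB) : ERLA := by
  intro D u
  refine ⟨msy_le D, fun A _ _ _ _ ψ h => ⟨tws hCYB D.he h, ?_⟩⟩
  have hs : ∀ k, ∑ j ∈ range (2 ^ k), D.mes k j • ψ j =
      ∑ ν ∈ oddR D.n k, D.msy k ν • ψ (lz k ν) := by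
    intro k
    rw [← sum_fiberwise_of_maps_to (s := oddR D.n k) (g := lz k) (t := range (2 ^ k))
      fun ν _ => mem_range.2 (ZMod.val_lt _)]
    refine sum_congr rfl fun j _ => ?_
    rw [Dat.mes, sum_smul]
    exact sum_congr rfl fun ν h => by rw [(mem_filter.1 h).2]
  have h1 : Tendsto (fun k => ∑ j ∈ range (2 ^ k), D.mes k j • ψ j) UF (𝓝 (thA D.mes ψ)) := by
    refine tendsto_ul (B := 16) (Eventually.of_forall fun k => ?_)
    rw [hs]
    refine IsUltrametricDist.norm_sum_le_of_forall_le_of_nonneg (by norm_num) fun ν _ => ?_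
    rw [norm_smul]
    nlinarith [msy_le D k ν, h.le (lz k ν), norm_nonneg (ψ (lz k ν)), norm_nonneg (D.msy k ν)]
  have h2 := ((h.cont.tendsto _).comp (tendsto_ul_int fun k => -(lu k (u k) : ℤ_[2]))).mul h1
  refine ⟨_, h2.congr_dist ?_⟩
  refine Metric.tendsto_nhds.2 fun ε hε => ?_
  obtain ⟨K, hK⟩ := h.near (show 0 < ε / 32 by positivity)
  filter_upwards [ev_ge K] with k hk
  obtain ⟨-, -, h3, h4, -⟩ := hCYB.2.2 k
  rw [dist_zero_right, Real.norm_of_nonneg dist_nonneg, dist_eq_norm, hs, mul_sum, ← sum_sub_distrib]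
  refine lt_of_le_of_lt (b := ε / 2) (IsUltrametricDist.norm_sum_le_of_forall_le_of_nonneg
    (by positivity) fun ν hν => ?_) (by linarith)
  have h5 := h3 (u k * (un (ν : ZMod (2 ^ (k + 2))))⁻¹) (un (ν : ZMod (2 ^ (k + 2))))
  rw [inv_mul_cancel_right, h4 ν (mem_filter.1 hν).2, ← Nat.cast_add] at h5
  have h6 := hK (-(lu k (u k) : ℤ_[2]) + lz k ν) (-lu k (u k * (un (ν : ZMod (2 ^ (k + 2))))⁻¹))
    ((pow_dvd_pow _ hk).trans (by
      have := dvd_of h5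
      push_cast at this
      convert this using 1
      ring))
  rw [Function.comp_apply, mul_smul_comm, ← h.add, ← smul_sub, norm_smul]
  nlinarith [msy_le D k ν, norm_nonneg (D.msy k ν), norm_nonneg (ψ (-(lu k (u k) : ℤ_[2]) + lz k ν) -
    ψ (-lu k (u k * (un (ν : ZMod (2 ^ (k + 2))))⁻¹)))]

end Pool.Agent.P.MP_9c97e9_nt.K2
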