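import Pool.Agent.P.MP_9c97e9_nt.K2.BasK

/-! The order of the relaxed Selmer group over the rationals. -/

namespace Pool.Agent.P.MP_9c97e9_nt.K2

open scoped NNReal Matrix
open MP_8b7eba_nt.R2 KT
open Filter Topology Polynomial

namespace TEUL

noncomputable section

variable {D : Dat} {c : GQ → A0} {g : GQ}

/-! ### The discrete module -/

theorem p0_eq {v v' : V2} : p0 v = p0 v' ↔ ‖v - v'‖ ≤ 1 := by
  rw [← sub_eq_zero, ← map_sub, p0_eq_zero]

theorem p0_pt {v v' : V2} : p0 v = p0 v' ↔ T2.pt v = T2.pt v' := p0_eq.trans T2.pt_eq.symm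

theorem nsm {m : ℕ} {v : V2} : m • p0 v = 0 ↔ m • T2.pt v = 0 := by
  rw [← map_nsmul, ← map_nsmul, p0_eq_zero, T2.ker]

theorem tors (v : V2) : ∃ i : ℕ, 2 ^ i • p0 v = 0 := (T2.tors v).imp fun _ h => nsm.2 h

/-- the points of order two -/
def t2 (a : ZMod 2 × ZMod 2) : A0 := p0 ![a.1.val / 2, a.2.val / 2]

theorem pt_t2 (a : ZMod 2 × ZMod 2) : T2.pt ![a.1.val / 2, a.2.val / 2] = s2 a.1 a.2 := by
  rw [pt_pair, s2_eq]

theorem two_t2 (a : ZMod 2 × ZMod 2) : 2 • t2 a = 0 := nsm.2 (by rw [pt_t2, two_s2])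

theorem t2_inj {a b : ZMod 2 × ZMod 2} (h : t2 a = t2 b) : a = b := by
  have := s2_inj ((pt_t2 a).symm.trans ((p0_pt.1 h).trans (pt_t2 b)))
  exact Prod.ext this.1 this.2

theorem exists_t2 {P : A0} (h : 2 • P = 0) : ∃ a, P = t2 a := by
  obtain ⟨v, rfl⟩ := p0_surj P
  obtain ⟨a, b, e⟩ := exists_s2 (nsm.1 h)
  exact ⟨(a, b), p0_pt.2 (e.trans (pt_t2 (a, b)).symm)⟩

theorem a0_two (D : Dat) (g : GQ) {P : A0} (h : 2 • P = 0) : D.a0 g P = P := by
  obtain ⟨v, rfl⟩ := p0_surj P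
  rw [← map_nsmul, p0_eq_zero, ← Nat.cast_smul_eq_nsmul ℚ_[2], norm_smul, Nat.cast_ofNat,
    SelA.two] at h
  rw [D.a0_p0, p0_eq]
  exact (BK.rd_sub D g v).trans h

theorem tac_zc (D : Dat) (s : GQ) (P : A0) : D.a0 (s * D.z * s⁻¹) P = -P := by
  obtain ⟨v, rfl⟩ := p0_surj P
  rw [BK.tac_pt, BK.rd_zc, map_neg]

theorem tac_inj (D : Dat) (s : GQ) {P Q : A0} (h : D.a0 s P = D.a0 s Q) : P = Q := by
  have := congrArg (D.a0 s⁻¹) h
  rwa [← D.a0_mul, ← D.a0_mul, inv_mul_cancel, D.a0_one, D.a0_one] at this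

/-! ### Cocycles -/

/-- the group of the cocycles -/
def SG (D : Dat) : AddSubgroup (GQ → A0) where
  carrier := {c | D.SP ⊤ c}
  zero_mem' := ⟨Sm.const 0, by simp, by simp, ⟨0, by simp⟩, rfl,
    ⟨0, fun _ _ => ⟨0, (p0_eq_zero.2 (by simp [pi_norm_le_iff_of_nonneg])).symm⟩⟩, by simp, fun _ => ⟨0, by simp⟩⟩
  add_mem' := fun {c c'} h h' => by
    obtain ⟨i, hi⟩ := h.tor
    obtain ⟨j, hj⟩ := h'.tor
    obtain ⟨v, hv⟩ := h.ord
    obtain ⟨v', hv'⟩ := h'.ord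
    refine ⟨h.sm.comp₂ h'.sm (· + ·), fun g hg k hk => ?_, fun g hg => (hg trivial).elim,
      ⟨i + j, fun g => ?_⟩, by simp [h.nz, h'.nz], ⟨v + v', fun g hg => ?_⟩,
      fun w hw g hg => by simp [h.unr w hw g hg, h'.unr w hw g hg], fun s => ?_⟩
    · simp only [Pi.add_apply, h.co g hg k hk, h'.co g hg k hk, map_add]; abel
    · rw [Pi.add_apply, nsmul_add, pow_add, mul_nsmul, mul_nsmul', hi, hj]; simp
    · obtain ⟨x, e⟩ := hv g hg
      obtain ⟨x', e'⟩ := hv' g hg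
      refine ⟨x + x', ?_⟩
      rw [Pi.add_apply, e, e', ← map_add, Matrix.mulVec_add,
        show (![x + x', 0] : V2) = ![x, 0] + ![x', 0] by simp]
      congr 1
      abel
    · obtain ⟨P, e⟩ := h.re s
      obtain ⟨P', e'⟩ := h'.re s
      exact ⟨P + P', by rw [Pi.add_apply, e, e', map_add]; abel⟩
  neg_mem' := fun {c} h => by
    obtain ⟨v, hv⟩ := h.ord
    refine ⟨h.sm.comp (-·), fun g hg k hk => ?_, fun g hg => (hg trivial).elim,
      h.tor.imp fun i hi g => by simp [hi], by simp [h.nz], ⟨-v, fun g hg => ?_⟩,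
      fun w hw g hg => by simp [h.unr w hw g hg], fun s => ?_⟩
    · simp only [Pi.neg_apply, h.co g hg k hk, map_neg]; abel
    · obtain ⟨x, e⟩ := hv g hg
      refine ⟨-x, ?_⟩
      rw [Pi.neg_apply, e, ← map_neg, Matrix.mulVec_neg, show (![-x, 0] : V2) = -![x, 0] by simp]
      congr 1
      abel
    · obtain ⟨P, e⟩ := h.re s
      exact ⟨-P, by rw [Pi.neg_apply, e, map_neg]; abel⟩

theorem co_one (hc : D.SP ⊤ c) : c 1 = 0 := by
  simpa [D.a0_one] using hc.co 1 trivial 1 trivial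

theorem co_conj (hc : D.SP ⊤ c) (s g : GQ) :
    c (s * g * s⁻¹) = D.a0 s (c g) + c s - D.a0 (s * g * s⁻¹) (c s) := by
  have h1 := hc.co (s * g * s⁻¹) trivial s trivial
  rw [inv_mul_cancel_right, hc.co s trivial g trivial] at h1
  rw [add_comm, h1, add_sub_cancel_right]

theorem czc (hc : D.SP ⊤ c) (s : GQ) : c (s * D.z * s⁻¹) = 2 • c s := by
  rw [co_conj hc, hc.nz, map_zero, tac_zc, two_nsmul]
  abel

theorem eq_zero (hc : D.SP ⊤ c) (h : ∀ g ∈ KI, c g = 0) (h' : c D.gm = 0) : c = 0 := by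
  obtain ⟨N, hN, e⟩ := hc.sm
  obtain ⟨m, hm⟩ := BK.small hN
  have hmul : ∀ a b, c a = 0 → c b = 0 → c (a * b) = 0 := fun a b ha hb => by
    rw [hc.co a trivial b trivial, ha, hb, map_zero, add_zero]
  have hp : ∀ j : ℕ, c (D.gm ^ j) = 0 := fun j => by
    induction j with
    | zero => rw [pow_zero, co_one hc]
    | succ j ih => rw [pow_succ, hmul _ _ ih h']
  funext g
  obtain ⟨s, hs, h1⟩ := hm _ (BK.dec' (BK.la_gm D) m g)
  have h2 := hmul _ _ (hp (Ps m g).val) ((e _ trivial s trivial hs.2).trans (h _ h1))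
  rwa [inv_mul_cancel_right, mul_inv_cancel_left] at h2

open Classical in
/-- the restriction to the top of the tower -/
def r (D : Dat) : SG D →+ GQ → A0 where
  toFun c g := if g ∈ KI then c.1 g else 0
  map_zero' := funext fun _ => ite_self _
  map_add' _ _ := funext fun g => by
    simp only [Pi.add_apply]
    split_ifs
    · rfl
    · exact (add_zero _).symm

theorem r_pos (c : SG D) (hg : g ∈ KI) : r D c g = c.1 g := if_pos hg

theorem r_neg (c : SG D) (hg : g ∉ KI) : r D c g = 0 := if_neg hg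

theorem res (c : SG D) : D.SP KI (r D c) := by
  have hc : D.SP ⊤ c.1 := c.2
  refine ⟨(hc.sm.mono le_top).congr fun g hg => r_pos c hg, fun g hg k hk => ?_,
    fun g hg => r_neg c hg, hc.tor.imp fun i hi g => ?_, by rw [r_pos c (BK.z_mem D), hc.nz],
    hc.ord.imp fun v hv g hg => ?_, fun w hw g hg => ?_, fun s => ?_⟩
  · rw [r_pos c hg, r_pos c hk, r_pos c (mul_mem hg hk), hc.co g trivial k trivial]
  · by_cases hg : g ∈ KI
    · rw [r_pos c hg, hi]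
    · rw [r_neg c hg, smul_zero]
  · rw [r_pos c hg.2]
    exact hv g hg
  · rw [r_pos c hg.2]
    exact hc.unr w hw g ⟨hg.1, trivial⟩
  · rw [r_pos c (BK.ts_mem s)]
    exact hc.re s

theorem key (D : Dat) (s : GQ) (x : GQ → V2) (hg : g ∈ KI) :
    D.a0 s (p0 (D.cj s x g)) = p0 (x (s * g * s⁻¹)) +
      (D.a0 (s * g * s⁻¹) (p0 ((2⁻¹ : ℚ_[2]) • x (s * D.z * s⁻¹))) -
        p0 ((2⁻¹ : ℚ_[2]) • x (s * D.z * s⁻¹))) := by
  rw [BK.tac_pt, BK.tac_pt, ← map_sub, ← map_add, D.cj_pos s x hg, Matrix.mulVec_add,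
    Matrix.mulVec_smul, Matrix.mulVec_smul, Matrix.mulVec_sub, smul_sub]
  simp only [← BK.rd_mulVec, mul_inv_cancel, BK.rd_one, Matrix.one_mulVec, mul_assoc]

theorem two_half (v : V2) : 2 • p0 ((2⁻¹ : ℚ_[2]) • v) = p0 v := by
  rw [← map_nsmul, two_nsmul, ← add_smul]
  norm_num

theorem mem_ker {c : SG D} : c ∈ (r D).ker ↔ ∀ g ∈ KI, c.1 g = 0 := by
  refine ⟨fun h g hg => (r_pos c hg).symm.trans (congrFun h g), fun h => funext fun g => ?_⟩
  by_cases hg : g ∈ KI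
  · exact (r_pos c hg).trans (h g hg)
  · exact r_neg c hg

theorem card_ker (hEXT : EXT) (D : Dat) : Nat.card (r D).ker = 4 := by
  have h0 : D.SP KI 0 := by simpa using res (D := D) 0
  have h1 : ∀ a : ZMod 2 × ZMod 2, ∃ c : (r D).ker, c.1.1 D.gm = t2 a := fun a => by
    obtain ⟨c, h2, h3, h4⟩ := hEXT D 0 (t2 a) 1 h0 (by simpa using two_t2 a)
      fun g _ => by simp [a0_two D _ (two_t2 a)]
    exact ⟨⟨⟨c, h2⟩, mem_ker.2 h3⟩, h4⟩
  choose f hf using h1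
  rw [← Nat.card_eq_of_bijective f ⟨fun a b e => ?_, fun c => ?_⟩]
  · simp
  · exact t2_inj ((hf a).symm.trans (e ▸ hf b))
  · have h2 : 2 • c.1.1 D.gm = 0 :=
      (czc c.1.2 D.gm).symm.trans (mem_ker.1 c.2 _ (BK.conj_KI.2 (BK.z_mem D)))
    obtain ⟨a, e⟩ := exists_t2 h2
    refine ⟨a, sub_eq_zero.1 (Subtype.ext (Subtype.ext ?_))⟩
    exact eq_zero (f a - c).1.2 (mem_ker.1 (f a - c).2) (sub_eq_zero.2 ((hf a).trans e.symm))

/-- the cocycles which are invariant modulo the lattice -/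
def XI (D : Dat) : AddSubgroup (GQ → V2) :=
  D.XX.toAddSubgroup ⊓ D.LL.toAddSubgroup.comap D.Th.toAddMonoidHom

/-- the reduction modulo the lattice -/
def ph (D : Dat) : XI D →+ GQ → A0 := (p0.compLeft GQ).comp (XI D).subtype

theorem ker_ph (D : Dat) : (ph D).ker = D.LL.toAddSubgroup.addSubgroupOf (XI D) := by
  ext x
  exact ⟨fun h => ⟨x.2.1, fun g => p0_eq_zero.1 (congrFun h g)⟩,
    fun h => funext fun g => p0_eq_zero.2 (h.2 g)⟩

theorem range_eq (hBR : BR) (hEXT : EXT) (hCJ : CJ) (D : Dat) : (r D).range = (ph D).range := by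
  ext c
  constructor
  · rintro ⟨⟨c, hc⟩, rfl⟩
    obtain ⟨x, hx, e⟩ := (hBR D _).1 (res ⟨c, hc⟩)
    have e' : ∀ g ∈ KI, p0 (x g) = c g := fun g hg => (e g).symm.trans (r_pos _ hg)
    replace hc : D.SP ⊤ c := hc
    refine ⟨⟨x, hx, sub_mem (((hCJ D).2 x hx).1 D.gm) hx, fun g => ?_⟩, funext fun g => (e g).symm⟩
    change ‖D.cj D.gm x g - x g‖ ≤ 1
    by_cases hg : g ∈ KI
    · refine p0_eq.1 (tac_inj D D.gm ?_)
      have h2 := a0_two D (P := p0 ((2⁻¹ : ℚ_[2]) • x (D.gm * D.z * D.gm⁻¹)) - c D.gm)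
        (D.gm * g * D.gm⁻¹)
        (by rw [nsmul_sub, two_half, e' _ (BK.conj_KI.2 (BK.z_mem D)), czc hc, sub_self])
      rw [map_sub, sub_eq_iff_eq_add] at h2
      rw [key D _ x hg, e' _ (BK.conj_KI.2 hg), e' g hg, h2, co_conj hc]
      abel
    · rw [D.cj_neg _ _ hg, hx.off g hg, sub_zero, norm_zero]
      exact zero_le_one
  · rintro ⟨⟨x, hx, hL⟩, rfl⟩
    obtain ⟨i, hi⟩ := tors ((2⁻¹ : ℚ_[2]) • x (D.gm * D.z * D.gm⁻¹))
    obtain ⟨c, h1, h2, -⟩ := hEXT D (fun g => p0 (x g)) _ i ((hBR D _).2 ⟨x, hx, fun _ => rfl⟩) hi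
      fun g hg => by
        rw [← p0_eq.2 (show ‖D.cj D.gm x g - x g‖ ≤ 1 from hL.2 g), key D _ x hg]
        abel
    refine ⟨⟨c, h1⟩, funext fun g => ?_⟩
    by_cases hg : g ∈ KI
    · exact (r_pos _ hg).trans (h2 g hg)
    · refine (r_neg _ hg).trans ?_
      change 0 = p0 (x g)
      rw [Dat.XC.off hx g hg, map_zero]

end

end TEUL

theorem t_EUL (hBR : BR) (hEXT : EXT) (hCJ : CJ) : EUL := fun D => by
  refine ⟨(TEUL.SG D).zero_mem, ?_⟩
  have h := (TEUL.r D).ker.card_mul_index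
  rw [TEUL.card_ker hEXT, AddSubgroup.index_ker, TEUL.range_eq hBR hEXT hCJ,
    ← AddSubgroup.index_ker, TEUL.ker_ph] at h
  exact h.symm

end Pool.Agent.P.MP_9c97e9_nt.K2
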