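import Pool.Agent.P.MP_9c97e9_nt.K2.BasK
import Pool.Agent.P.MP_9c97e9_nt.KT.TEXT

/-! Invariant cocycles extend. -/

namespace Pool.Agent.P.MP_9c97e9_nt.K2

open scoped NNReal Matrix
open MP_8b7eba_nt.R2 KT
open Filter Topology Polynomial Module

namespace TEXT

/-- the twisted action -/
@[reducible] noncomputable def act (D : Dat) : DistribMulAction GQ A0 where
  smul g P := D.a0 g P
  one_smul := D.a0_one
  mul_smul := K2.BK.tac_mul' D
  smul_zero _ := map_zero _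
  smul_add _ := map_add _

theorem triv (D : Dat) (i : ℕ) :
    ∃ N, ON N ∧ ∀ n ∈ N, ∀ P : A0, 2 ^ i • P = 0 → D.a0 n P = P := by
  obtain ⟨N, h1, h2⟩ := (K2.BK.rep D ⊤).sm (2 ^ i)⁻¹ (by positivity)
  refine ⟨N, h1, fun n hn P hP => ?_⟩
  obtain ⟨v, rfl⟩ := p0_surj P
  rw [← map_nsmul, p0_eq_zero, ← Nat.cast_smul_eq_nsmul ℚ_[2], norm_smul, Nat.cast_pow, Nat.cast_ofNat,
    TTATE.n2] at hP
  rw [K2.BK.tac_pt, ← sub_eq_zero, ← map_sub, p0_eq_zero]
  exact (h2 n trivial hn v).trans hP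

end TEXT

open K2.TEXT K2.BK in
theorem t_EXT : EXT := by
  intro D c v i hc hv cj
  obtain ⟨j, hj⟩ := hc.tor
  obtain ⟨N1, o1, s1⟩ := hc.sm
  obtain ⟨N2, o2, s2⟩ := triv D (i + j)
  have o := o1.inf o2
  obtain ⟨m, hm⟩ := small o
  have o' := o.inf (on_KP (i + j + m))
  obtain ⟨c', a1, a2, a3, a4, a5⟩ := @KT.TEXT.ext GQ A0 _ _ (act D) KI _ _ normal_KI o.1 o'.1 D.gm c v
    (2 ^ m) (2 ^ (i + j)) inf_le_left hc.co (fun g hg n hn h => s1 g hg n hn h.1)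
    (by rw [add_comm, pow_add, mul_smul, hv, smul_zero])
    (fun g => by rw [pow_add, mul_smul, hj, smul_zero]) (fun n hn => s2 n hn.2) cj
    (by
      obtain ⟨s, h1, h2⟩ := hm _ ((pow_mem_KP (la_gm D)).2 dvd_rfl)
      exact ⟨s⁻¹, inv_mem h1.2, h2⟩)
    (fun g => by
      have h0 := dec (la_gm D) (i + j + m) g
      obtain ⟨s, h1, h2⟩ := hm _ (KP_le (Nat.le_add_left m _) h0)
      refine ⟨_, h2, (Ps (i + j + m) g).val, _,
        o'.1.conj_mem' s ⟨h1.2, ?_⟩ (D.gm ^ (Ps (i + j + m) g).val), by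
        simp only [mul_assoc, inv_mul_cancel_left, mul_inv_cancel_left, inv_mul_cancel, mul_one]⟩
      exact (KP _).inv_mem_iff.1 (((KP _).mul_mem_cancel_left h0).1 (KI_le _ h2)))
    (fun d n hn h => by
      rw [← pow_add, ← pow_mem_KP (la_gm D)]
      exact ((KP _).mul_mem_cancel_right hn.2).1 (KI_le _ h))
  refine ⟨c', ⟨⟨_, o', fun g _ n _ hn => ?_⟩, fun g _ h _ => a1 g h, fun g hg => absurd trivial hg,
    ⟨_, a5⟩, (a3 _ (z_mem D)).trans hc.nz, hc.ord.imp fun _ e g hg => a3 g hg.2 ▸ e g hg,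
    fun w hw g hg => ?_, fun s => ?_⟩, a3, a4⟩
  · rw [a1, a2 n hn]
    exact (congrArg _ (map_zero (D.a0 g))).trans (add_zero _)
  · have := I_le (odd hw) hg.1
    rw [a3 g this, hc.unr w hw g ⟨hg.1, this⟩]
  · exact (hc.re s).imp fun _ e => (a3 _ (ts_mem s)).trans e

end Pool.Agent.P.MP_9c97e9_nt.K2
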