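import Pool.Agent.P.MP_9c97e9_nt.K2.Defs

/-! Basic facts on the data and on the two lattices. -/

namespace Pool.Agent.P.MP_9c97e9_nt.K2

open scoped Matrix
open MP_8b7eba_nt.R2 KT
open MP_8b7eba_nt.R1 (st)

variable {D : Dat} {w : Pl} {g : GQ}

/-! ### Arithmetic -/

theorem st_cases (n : ℕ) : st n = n ∨ st n = -n := by unfold st; split_ifs <;> simp

theorem st_four {n : ℕ} (h : Odd n) : st n % 4 = 1 := by
  have := Nat.odd_iff.1 h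
  unfold st; split_ifs <;> omega

theorem dvd_st {p n : ℕ} : (p : ℤ) ∣ st n ↔ p ∣ n := by
  rcases st_cases n with h | h <;> simp [h, Int.natCast_dvd_natCast]

theorem Dat.n_ne (D : Dat) : D.n ≠ 0 := D.sq.ne_zero

theorem Dat.n_pos (D : Dat) : 0 < D.n := Nat.pos_of_ne_zero D.n_ne

theorem Dat.n2 (D : Dat) : D.n % 2 = 1 := Nat.odd_iff.1 D.odd

theorem Dat.st_ne (D : Dat) : st D.n ≠ 0 := by have := st_four D.odd; omega

theorem Dat.e_ne (D : Dat) : D.e ≠ 0 := by have := D.he; omega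

theorem Dat.d_ne (D : Dat) : D.d ≠ 0 := D.hd ▸ mul_ne_zero D.e_ne D.st_ne

theorem Dat.d4 (D : Dat) : D.d % 4 = 1 ↔ D.e = 1 := by
  have := st_four D.odd
  have h := D.hd
  rcases D.he with e | e | e | e <;> rw [e] at h ⊢ <;> omega

theorem Dat.dvd_d (D : Dat) {p : ℕ} (hp : p.Prime) (h2 : p ≠ 2) : (p : ℤ) ∣ D.d ↔ p ∣ D.n := by
  rw [D.hd, (Nat.prime_iff_prime_int.1 hp).dvd_mul, dvd_st, or_iff_right]
  intro h
  have h3 : (p : ℤ) ∣ 2 := by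
    refine h.trans ?_
    rcases D.he with e | e | e | e <;> simp [e]
  exact h2 ((Nat.prime_dvd_prime_iff_eq hp Nat.prime_two).1 (by exact_mod_cast h3))

theorem Dat.sq_d (D : Dat) : Squarefree D.d := by
  have h1 : Squarefree (2 * D.n) :=
    (Nat.squarefree_mul (Nat.coprime_two_left.2 D.odd)).2 ⟨Nat.prime_two.prime.squarefree, D.sq⟩
  rw [← Int.squarefree_natAbs]
  refine h1.squarefree_of_dvd ?_
  rw [D.hd, Int.natAbs_mul]
  refine Nat.mul_dvd_mul ?_ ?_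
  · rcases D.he with e | e | e | e <;> simp [e]
  · rcases st_cases D.n with h | h <;> simp [h]

theorem Dat.z30 (D : Dat) : ¬ D.wz.p ∣ 30 := fun h => by
  rcases (Nat.Prime.dvd_mul D.wz.prime).1 (show D.wz.p ∣ 2 * 15 from h) with h | h
  · have h1 := D.zp
    rw [(Nat.prime_dvd_prime_iff_eq D.wz.prime Nat.prime_two).1 h] at h1
    have := D.n2
    omega
  · exact D.z15 h

theorem Dat.z2 (D : Dat) : D.wz.p ≠ 2 := fun e => D.z30 (by rw [e]; decide)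

theorem Dat.q30 (D : Dat) : D.q.Coprime (30 * D.n) := by
  refine Nat.Coprime.mul_right ((Nat.Prime.coprime_iff_not_dvd D.qp).2 fun h => ?_)
    ((Nat.Prime.coprime_iff_not_dvd D.qp).2 D.qn)
  have := Nat.le_of_dvd (by norm_num) h
  have := D.q180
  omega

theorem Dat.q_odd (D : Dat) : Odd D.q := Nat.odd_iff.2 (by have := D.q180; omega)

theorem Dat.ep_cases (D : Dat) {p : ℕ} (hp : p.Prime) (h : p ∣ 15) (hn : ¬ p ∣ D.n) :
    D.ep p = 1 ∨ D.ep p = -1 := by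
  have k : ∀ l : ℕ, l.Prime → l ≠ 2 → ¬ l ∣ D.n → jacobiSym D.d l = 1 ∨ jacobiSym D.d l = -1 :=
    fun l hl h2 h3 => jacobiSym.eq_one_or_neg_one (Int.isCoprime_iff_gcd_eq_one.1
      ((Nat.prime_iff_prime_int.1 hl).coprime_iff_not_dvd.2 fun e => h3 ((D.dvd_d hl h2).1 e)).symm)
  rcases (Nat.Prime.dvd_mul hp).1 (show p ∣ 3 * 5 from h) with h | h
  · obtain rfl := (Nat.prime_dvd_prime_iff_eq hp Nat.prime_three).1 h
    rcases k 3 hp (by norm_num) hn with e | e <;> simp [Dat.ep, e]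
  · obtain rfl := (Nat.prime_dvd_prime_iff_eq hp Nat.prime_five).1 h
    simpa [Dat.ep] using k 5 hp (by norm_num) hn

/-! ### The square roots -/

theorem Dat.fix_dl (D : Dat) : Fix ⊤ (D.dl ^ 2) := LA.fix D.hdl

theorem Dat.fix_dl0 (D : Dat) : Fix ⊤ (D.dl0 ^ 2) := LA.fix D.hdl0

theorem Dat.dl_ne (D : Dat) : D.dl ≠ 0 := LA.ne D.hdl D.d_ne

theorem Dat.dl0_ne (D : Dat) : D.dl0 ≠ 0 := LA.ne D.hdl0 D.st_ne

theorem Dat.qz_d (D : Dat) (g : GQ) : qz D.d g = qz D.e g + qz (st D.n) g := by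
  rw [D.hd, qz_mul D.e_ne D.st_ne, Pi.add_apply]

theorem Dat.qz_e (D : Dat) (h : 8 ∣ (cyc g : ℤ_[2]) - 1) : qz D.e g = 0 := by
  have h1 : qz (-1) g = 0 := (qz_neg_one a_EC).2 (Dvd.dvd.trans ⟨2, by norm_num⟩ h)
  have h2 : qz 2 g = 0 := (qz_two a_EC).2 (.inl h)
  rcases D.he with e | e | e | e <;> rw [e]
  · simp [qz_one]
  · exact h1
  · exact h2
  · rw [show (-2 : ℤ) = -1 * 2 by norm_num, qz_mul (by norm_num) (by norm_num), Pi.add_apply, h1, h2,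
      add_zero]

/-- the two square roots agree on the field of the eighth roots of unity -/
theorem Dat.sd_eq (D : Dat) (h : 8 ∣ (cyc g : ℤ_[2]) - 1) : sd D.dl g = sd D.dl0 g := by
  rw [sd_eq_qz D.hdl, sd_eq_qz D.hdl0, D.qz_d, D.qz_e h, zero_add]

theorem Dat.I_dl0 (D : Dat) (hg : g ∈ w2.I) : g D.dl0 = D.dl0 :=
  Pl.I_fix_two rfl D.hdl0 (st_four D.odd) hg

theorem Dat.I_dl (D : Dat) (h2 : w.p ≠ 2) (hw : ¬ w.p ∣ D.n) (hg : g ∈ w.I) : g D.dl = D.dl :=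
  Pl.I_fix a_TAME a_RES h2 D.hdl (fun e => hw ((D.dvd_d w.prime h2).1 e)) hg

theorem Dat.I2_dl (D : Dat) (hg : g ∈ w2.I) (h : 8 ∣ (cyc g : ℤ_[2]) - 1) : g D.dl = D.dl :=
  sd_eq_one.1 ((D.sd_eq h).trans (sd_eq_one.2 (D.I_dl0 hg)))

theorem Dat.gen_dl (D : Dat) (hw : w.p ∣ D.n) {t : GQ} (ht : t ∈ w.I)
    (hβ : ∀ β : Om, β ^ 2 = w.p → t β = -β) : t D.dl = -D.dl := by
  have h2 : w.p ≠ 2 := fun e => by rw [e] at hw; have := D.n2; omega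
  obtain ⟨m, hm⟩ := (D.dvd_d w.prime h2).2 hw
  refine Pl.gen_move a_TAME a_RES h2 ht hβ (m := m) (by rw [D.hdl, hm]; push_cast; rfl) fun e => ?_
  have := D.sq_d w.p (hm ▸ mul_dvd_mul_left _ e)
  exact (Nat.prime_iff_prime_int.1 w.prime).not_isUnit this

theorem Dat.cyc_z (D : Dat) : cyc D.z = 1 := a_EC.2.2.2.2.2.2.1 _ D.z2 _ D.zI

theorem Dat.sd_z (D : Dat) : sd D.dl D.z = -1 :=
  sd_eq_neg.2 fun e => D.dl_ne (self_eq_neg.1 (e.symm.trans D.zd))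

theorem Dat.z_dl0 (D : Dat) : D.z D.dl0 = -D.dl0 := by
  rw [sd_apply D.fix_dl0, ← D.sd_eq (by simp [D.cyc_z]), D.sd_z]; simp

theorem Dat.sd_frob (D : Dat) (h2 : w.p ≠ 2) (hw : ¬ w.p ∣ D.n) {φ : GQ} (hφ : w.IsFrob 1 φ) :
    sd D.dl φ = jacobiSym D.d w.p := by
  have nd : ¬ (w.p : ℤ) ∣ D.d := fun e => hw ((D.dvd_d w.prime h2).1 e)
  have h4 := (TF2X.frob_iff D.hdl (fun g hg => D.I_dl h2 hw hg) hφ).trans
    ((a_SQ2 w).2.2.2.2.2 h2 _ nd).1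
  rcases jacobiSym.eq_one_or_neg_one (Int.isCoprime_iff_gcd_eq_one.1
    ((Nat.prime_iff_prime_int.1 w.prime).coprime_iff_not_dvd.2 nd).symm) with e | e
  · rw [e, sd_eq_one, h4, e]
  · rw [e, sd_eq_neg, Ne, h4, e]; norm_num

/-! ### The representation -/

theorem Dat.rd_mul (D : Dat) (g h : GQ) : D.rd (g * h) = D.rd g * D.rd h := T2.rd_mul D.fix_dl g h

theorem Dat.rd_fix (h : g D.dl = D.dl) : D.rd g = T2.rho g := SelA.rd_fix T2 h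

theorem Dat.rd_eq (D : Dat) (g : GQ) : D.rd g = (sd D.dl g : ℚ_[2]) • T2.rho g := rfl

theorem Dat.rd_one (D : Dat) : D.rd 1 = 1 := (Dat.rd_fix rfl).trans (map_one _)

theorem Dat.rd_pow (D : Dat) (g : GQ) (m : ℕ) : D.rd (g ^ m) = D.rd g ^ m := by
  induction m with
  | zero => simp [D.rd_one]
  | succ m ih => rw [pow_succ, D.rd_mul, ih, pow_succ]

theorem Dat.rd_le (D : Dat) (g : GQ) (i j : Fin 2) : ‖D.rd g i j‖ ≤ 1 := SelA.rd_le T2 _ g i j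

theorem Dat.rd_vec (D : Dat) (g : GQ) (v : V2) : ‖D.rd g *ᵥ v‖ ≤ ‖v‖ := by
  simpa using mulVec_le (D.rd_le g) v

theorem Dat.rd_det (D : Dat) (g : GQ) : (D.rd g).det = cq g := by
  rw [Dat.rd, Tate.rd, Matrix.det_smul, T2.det, Fintype.card_fin, pow_two, ← Int.cast_mul, sd_sq,
    Int.cast_one, one_mul]

theorem Dat.rd_two (D : Dat) (g : GQ) (i j : Fin 2) : ‖(D.rd g - 1) i j‖ ≤ 2⁻¹ := by
  by_cases h : g D.dl = D.dl
  · rw [Dat.rd_fix h]; exact T2.two g i j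
  have e : D.rd g - 1 = -(T2.rho g - 1) + (-2 : ℚ_[2]) • 1 := by
    rw [Dat.rd, Tate.rd, sd_eq_neg.2 h]; push_cast; module
  rw [e, Matrix.add_apply]
  refine ua (by simpa only [Matrix.neg_apply, norm_neg] using T2.two g i j) ?_
  rw [Matrix.smul_apply, norm_smul, norm_neg, SelA.two, Matrix.one_apply]
  split_ifs <;> simp

theorem Dat.rd_off (D : Dat) (g : GQ) : ‖D.rd g 0 1‖ ≤ 4⁻¹ ∧ ‖D.rd g 1 0‖ ≤ 4⁻¹ := by
  have := TF2X.four T2 g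
  rcases sd_cases D.dl g with h | h <;> simpa [D.rd_eq, h] using And.intro this.1 this.2.1

theorem Dat.rd_sm (D : Dat) {ε : ℝ} (hε : 0 < ε) :
    ∃ N, ON N ∧ ∀ g ∈ N, ∀ i j, ‖(D.rd g - 1) i j‖ ≤ ε := SelA.rd_sm T2 D.dl hε

theorem Dat.rd_up (D : Dat) (h : g ∈ w2.D) : D.rd g 1 0 = 0 := SelA.rd_up T2 _ h

theorem Dat.rd_I2 (D : Dat) (h : g ∈ w2.I) : D.rd g 1 1 = sd D.dl g := by
  simp [D.rd_eq, T2.un g h]

theorem Dat.rd_z (D : Dat) : D.rd D.z = -1 := by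
  simp [D.rd_eq, D.sd_z, (a_TR _ T2 _ D.z30).1 _ D.zI]

/-- good reduction -/
theorem Dat.rd_I (hw : ¬ w.p ∣ 30 * D.n) (hg : g ∈ w.I) :
    D.rd g = 1 ∧ g D.dl = D.dl ∧ cyc g = 1 := by
  have h30 : ¬ w.p ∣ 30 := fun h => hw (h.mul_right _)
  have h2 : w.p ≠ 2 := fun h => h30 (by rw [h]; norm_num)
  have hd := D.I_dl h2 (fun h => hw (h.mul_left _)) hg
  exact ⟨(Dat.rd_fix hd).trans ((a_TR _ T2 w h30).1 g hg), hd, a_EC.2.2.2.2.2.2.1 w h2 g hg⟩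

/-- the Frobenius eigenvalue on the invariant line at three and five -/
theorem rho_frob (hw : w.p ∣ 15) {e : V2} {φ : GQ} (he : ∀ g ∈ w.I, T2.rho g *ᵥ e = e)
    (hφ : w.IsFrob 1 φ) : T2.rho φ *ᵥ e = (if w.p = 3 then -3 else 5 : ℚ_[2]) • e := by
  have w2' : w.p ≠ 2 := fun e => by rw [e] at hw; omega
  obtain ⟨t, ht, hβ⟩ := Pl.exists_gen a_TAME a_RES w2'
  obtain ⟨e0, k0, k3, k5, -, k1, k2⟩ := a_UNIP _ T2 w hw
  obtain ⟨s, rfl⟩ := (k1 t ht hβ).2 e (he t ht)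
  rw [Matrix.mulVec_smul, smul_comm _ s]
  congr 1
  rcases (Nat.Prime.dvd_mul w.prime).1 (show w.p ∣ 3 * 5 from hw) with h | h
  · have h := (Nat.prime_dvd_prime_iff_eq w.prime Nat.prime_three).1 h
    rw [(k2 φ hφ).resolve_left fun k => TF2X.eig T2 φ k0 (k3 h) k
      (by rw [h, ← TF2X.n2]; norm_num), h]
    simp
  · have h := (Nat.prime_dvd_prime_iff_eq w.prime Nat.prime_five).1 h
    rw [(k2 φ hφ).resolve_right fun k => TF2X.eig T2 φ k0 (k5 h) k (by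
      rw [h, show -((5 : ℕ) : ℚ_[2]) - 1 = (2 : ℚ_[2]) ^ 2 * (-2) + 2 by norm_num,
        IsUltrametricDist.norm_add_eq_max_of_norm_ne_norm (by
          rw [norm_mul, norm_neg, TTATE.n2, TF2X.n2]; norm_num), norm_mul, norm_neg, TTATE.n2,
        TF2X.n2]
      norm_num), h]
    simp

/-- the Frobenius eigenvalues at two, three and five -/
def F2X : Prop :=
  ∀ D : Dat, ‖D.rd D.f2 1 1 - 1‖ = (if st D.n % 8 = 1 then 4⁻¹ else 2⁻¹) ∧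
    D.rd D.f2 0 0 * D.rd D.f2 1 1 = 1 ∧ D.rd D.f2 1 0 = 0 ∧ D.rd D.z = -1 ∧ cyc D.z = 1 ∧
    (∀ g ∈ w2.I, cyc g = 1 → g D.dl = D.dl) ∧
    ∀ w : Pl, w.p ∣ 15 → ¬ w.p ∣ D.n → (∀ g ∈ w.I, g D.dl = D.dl) ∧ ∀ (e : V2) (φ : GQ),
      (∀ g ∈ w.I, T2.rho g *ᵥ e = e) → w.IsFrob 1 φ →
        D.rd φ *ᵥ e = ((D.ep w.p : ℚ_[2]) * w.p) • e

open TF2X in
theorem t_F2X : F2X := by
  intro D
  have s4 := st_four D.odd
  have up := T2.up D.f2 D.fr.1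
  have h1 : T2.rho D.f2 0 0 * T2.rho D.f2 1 1 = 1 := by
    have := T2.det D.f2
    rw [Matrix.det_fin_two, up, cq, D.fc] at this
    simpa using this
  have h2 := unit_root rfl T2 D.fr h1
  have h3 := (frob_iff D.hdl0 (fun g hg => D.I_dl0 hg) D.fr).trans
    ((a_SQ2 w2).2.2.2.2.1 rfl (st D.n) (Int.odd_iff.2 (by omega))).1
  have h4 : sd D.dl D.f2 = sd D.dl0 D.f2 := D.sd_eq (by simp [D.fc])
  refine ⟨?_, ?_, D.rd_up D.fr.1, D.rd_z, D.cyc_z, fun g hg e => D.I2_dl hg (by simp [e]),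
    fun w hw hn => ?_⟩
  · split_ifs with h
    · simpa [D.rd_eq, h4, sd_eq_one.2 (h3.2 h)] using h2
    · rw [show D.rd D.f2 1 1 - 1 = -((T2.rho D.f2 1 1 - 1) + 2) by
        simp [D.rd_eq, h4, sd_eq_neg.2 fun e => h (h3.1 e)]; ring, norm_neg,
        IsUltrametricDist.norm_add_eq_max_of_norm_ne_norm (by rw [h2, n2]; norm_num), h2, n2]
      norm_num
  · rcases sd_cases D.dl D.f2 with h | h <;> simp [D.rd_eq, h, h1]
  have w2' : w.p ≠ 2 := fun e => by rw [e] at hw; omega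
  refine ⟨fun g hg => D.I_dl w2' hn hg, fun e φ he hφ => ?_⟩
  rw [D.rd_eq, Matrix.smul_mulVec, rho_frob hw he hφ, smul_smul, D.sd_frob w2' hn hφ]
  congr 1
  rcases (Nat.Prime.dvd_mul w.prime).1 (show w.p ∣ 3 * 5 from hw) with h | h
  · rw [(Nat.prime_dvd_prime_iff_eq w.prime Nat.prime_three).1 h]; simp [Dat.ep]
  · rw [(Nat.prime_dvd_prime_iff_eq w.prime Nat.prime_five).1 h]; simp [Dat.ep]

/-! ### The second lattice -/

theorem Dat.Pm_Pv (D : Dat) : D.Pm * D.Pv = 1 := by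
  ext i j
  fin_cases i <;> fin_cases j <;> simp [Dat.Pm, Dat.Pv, Matrix.mul_apply, Fin.sum_univ_two]
  ring

theorem Dat.Pv_Pm (D : Dat) : D.Pv * D.Pm = 1 := mul_eq_one_comm.1 D.Pm_Pv

theorem Dat.Pv_rp (D : Dat) (g : GQ) : D.Pv * D.rp g = D.rd g * D.Pv := by
  rw [Dat.rp, ← mul_assoc, ← mul_assoc, D.Pv_Pm, one_mul]

theorem Dat.rp_Pm (D : Dat) (g : GQ) : D.rp g * D.Pm = D.Pm * D.rd g := by
  rw [Dat.rp, mul_assoc, D.Pv_Pm, mul_one]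

theorem Dat.rp_mul (D : Dat) (g h : GQ) : D.rp (g * h) = D.rp g * D.rp h := by
  rw [Dat.rp, D.rd_mul, ← mul_assoc, ← D.rp_Pm, mul_assoc, mul_assoc, ← mul_assoc D.Pm]; rfl

theorem Dat.rp_of_eq (D : Dat) {a : ℚ_[2]} (h : D.rd g = a • 1) : D.rp g = a • 1 := by
  rw [Dat.rp, h, mul_smul_comm, smul_mul_assoc, mul_one, D.Pm_Pv]

theorem Dat.rp_one (D : Dat) : D.rp 1 = 1 := by rw [Dat.rp, D.rd_one, mul_one, D.Pm_Pv]

theorem Dat.rp_z (D : Dat) : D.rp D.z = -1 := by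
  rw [Dat.rp, D.rd_z, mul_neg, mul_one, neg_mul, D.Pm_Pv]

theorem Dat.rp_I (hw : ¬ w.p ∣ 30 * D.n) (hg : g ∈ w.I) : D.rp g = 1 := by
  rw [Dat.rp, (Dat.rd_I hw hg).1, mul_one, D.Pm_Pv]

theorem Dat.rp_det (D : Dat) (g : GQ) : (D.rp g).det = cq g := by
  rw [Dat.rp, Matrix.det_mul, Matrix.det_mul, mul_right_comm, ← Matrix.det_mul, D.Pm_Pv,
    Matrix.det_one, one_mul, D.rd_det]

theorem Dat.eps_cases (D : Dat) : D.eps = 0 ∨ D.eps = 1 := by unfold Dat.eps; split_ifs <;> simp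

/-- the entries -/
theorem Dat.rp_eq (D : Dat) (g : GQ) : D.rp g 0 0 = D.rd g 0 0 - D.eps * (D.rd g 1 0 / 2) ∧
    D.rp g 0 1 = D.eps * (D.rd g 0 0 - D.rd g 1 1 - D.rd g 1 0 / 2) + 2 * D.rd g 0 1 ∧
    D.rp g 1 0 = D.rd g 1 0 / 2 ∧ D.rp g 1 1 = D.rd g 1 1 + D.eps * (D.rd g 1 0 / 2) := by
  simp only [Dat.rp, Dat.Pm, Dat.Pv, Matrix.mul_apply, Fin.sum_univ_two]
  rcases D.eps_cases with h | h <;> simp [h] <;> (try constructorm* _ ∧ _) <;> ring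

theorem Dat.rp_D (D : Dat) (h : g ∈ w2.D) :
    D.rp g 1 0 = 0 ∧ D.rp g 0 0 = D.rd g 0 0 ∧ D.rp g 1 1 = D.rd g 1 1 := by
  obtain ⟨a, -, b, c⟩ := D.rp_eq g
  simp [a, b, c, D.rd_up h]

/-- a bound for the second lattice from a bound for the first one -/
theorem Dat.rp_near (D : Dat) {ε : ℝ} (h : ∀ i, ‖D.rd g i i - 1‖ ≤ ε) (h0 : ‖D.rd g 0 1‖ ≤ ε)
    (h1 : ‖D.rd g 1 0‖ ≤ ε / 2) (i j : Fin 2) : ‖(D.rp g - 1) i j‖ ≤ ε := by
  obtain ⟨a, b, c, d⟩ := D.rp_eq g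
  have e1 : ‖D.rd g 1 0 / 2‖ ≤ ε := by rw [norm_div, SelA.two, div_inv_eq_mul]; linarith
  have e2 : ∀ x : ℚ_[2], ‖x‖ ≤ ε → ‖D.eps * x‖ ≤ ε := fun x hx => by
    rcases D.eps_cases with e | e <;> simp [e, hx, (norm_nonneg x).trans hx]
  have e3 : ‖2 * D.rd g 0 1‖ ≤ ε := by
    rw [norm_mul, SelA.two]; linarith [norm_nonneg (D.rd g 0 1)]
  fin_cases i <;> fin_cases j
  · simpa [a, sub_right_comm _ _ (1 : ℚ_[2])] using us (h 0) (e2 _ e1)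
  · simpa [b] using ua (e2 _ (us (us (h 0) (h 1)) e1)) e3
  · simpa [c] using e1
  · simpa [d, add_sub_right_comm] using ua (h 1) (e2 _ e1)

theorem Dat.rp_two (D : Dat) (g : GQ) (i j : Fin 2) : ‖(D.rp g - 1) i j‖ ≤ 2⁻¹ :=
  D.rp_near (fun i => by simpa using D.rd_two g i i) (by simpa using D.rd_two g 0 1)
    ((D.rd_off g).2.trans (by norm_num)) i j

theorem Dat.rp_le (D : Dat) (g : GQ) (i j : Fin 2) : ‖D.rp g i j‖ ≤ 1 := by
  rw [← sub_add_cancel (D.rp g) 1, Matrix.add_apply]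
  refine ua ((D.rp_two g i j).trans (by norm_num)) ?_
  rw [Matrix.one_apply]
  split_ifs <;> simp

theorem Dat.rp_vec (D : Dat) (g : GQ) (v : V2) : ‖D.rp g *ᵥ v‖ ≤ ‖v‖ := by
  simpa using mulVec_le (D.rp_le g) v

theorem Dat.rp_of (D : Dat) {ε : ℝ} (h : ∀ i j, ‖(D.rd g - 1) i j‖ ≤ ε / 2) (i j : Fin 2) :
    ‖(D.rp g - 1) i j‖ ≤ ε := by
  have h0 : ε / 2 ≤ ε := by linarith [(norm_nonneg _).trans (h 0 0)]
  exact D.rp_near (fun i => le_trans (by simpa using h i i) h0) (le_trans (by simpa using h 0 1) h0)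
    (by simpa using h 1 0) i j

theorem Dat.rp_sm (D : Dat) {ε : ℝ} (hε : 0 < ε) :
    ∃ N, ON N ∧ ∀ g ∈ N, ∀ i j, ‖(D.rp g - 1) i j‖ ≤ ε :=
  let ⟨N, h1, h2⟩ := D.rd_sm (half_pos hε); ⟨N, h1, fun g hg => D.rp_of (h2 g hg)⟩

theorem p0_eq_zero {v : V2} : p0 v = 0 ↔ ‖v‖ ≤ 1 := QuotientAddGroup.eq_zero_iff v

theorem p0_surj (P : A0) : ∃ v, p0 v = P := QuotientAddGroup.mk'_surjective _ P

theorem am_p0 {B : Mt} (h : ∀ i j, ‖B i j‖ ≤ 1) (v : V2) : am B (p0 v) = p0 (B *ᵥ v) := by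
  have k : B0 ≤ B0.comap (Matrix.toLin' B).toAddMonoidHom := fun u (hu : ‖u‖ ≤ 1) =>
    show ‖B *ᵥ u‖ ≤ 1 from (mulVec_le h u).trans (by simpa using hu)
  rw [am, dif_pos k]
  rfl

theorem Dat.a0_p0 (D : Dat) (g : GQ) (v : V2) : D.a0 g (p0 v) = p0 (D.rp g *ᵥ v) :=
  am_p0 (D.rp_le g) v

theorem Dat.a0_mul (D : Dat) (g h : GQ) (P : A0) : D.a0 (g * h) P = D.a0 g (D.a0 h P) := by
  obtain ⟨v, rfl⟩ := p0_surj P
  rw [D.a0_p0, D.a0_p0, D.a0_p0, D.rp_mul, Matrix.mulVec_mulVec]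

theorem Dat.a0_one (D : Dat) (P : A0) : D.a0 1 P = P := by
  obtain ⟨v, rfl⟩ := p0_surj P
  rw [D.a0_p0, D.rp_one, Matrix.one_mulVec]

end Pool.Agent.P.MP_9c97e9_nt.K2
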