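import Pool.Agent.P.MP_9c97e9_nt.K2.MuJ

/-! The finite-singular relation at finite level. -/

namespace Pool.Agent.P.MP_9c97e9_nt.K2

open scoped NNReal Matrix
open MP_8b7eba_nt.R2 KT
open Filter Topology

namespace TFSR

variable {D : Dat} {μ : MA} (l : Kp D) {k M : ℕ} {W : Wt}

theorem nd15 (k : ℕ) : ¬ (l.w k).p ∣ 15 * D.n * D.q := l.big' k

theorem nd (hM : ¬ (l.w k).p ∣ M) : ¬ (l.w k).p ∣ 15 * D.n * D.q * M := fun h =>
  ((Nat.Prime.dvd_mul (l.w k).prime).1 h).elim (nd15 l k) hM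

theorem near' (k : ℕ) : ‖((l.w k).p : ℚ_[2]) - 1‖ ≤ (2 ^ k)⁻¹ :=
  (l.near k).trans (inv_anti₀ (by positivity) (pow_le_pow_right₀ one_le_two (by omega)))

theorem pn (k : ℕ) : ‖((l.w k).p : ℚ_[2])‖ = 1 :=
  Padic.norm_natCast_eq_one_iff.2
    ((Nat.coprime_primes Nat.prime_two (l.w k).prime).2 (l.ne2 k).symm)

theorem el {a b : V2} {ε : ℝ} (h : ‖b‖ ≤ ε) (e : a = b) : ‖a‖ ≤ ε := e ▸ h

theorem sm_le {a : ℚ_[2]} {v : V2} {ε : ℝ} (ha : ‖a‖ ≤ ε) (hv : ‖v‖ ≤ 1) : ‖a • v‖ ≤ ε := by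
  rw [norm_smul]
  exact (mul_le_of_le_one_right (norm_nonneg _) hv).trans ha

theorem le_sm {a : ℚ_[2]} {v : V2} {ε : ℝ} (ha : ‖a‖ ≤ 1) (hv : ‖v‖ ≤ ε) : ‖a • v‖ ≤ ε := by
  rw [norm_smul]
  exact (mul_le_of_le_one_left (norm_nonneg _) ha).trans hv

/-- the Hecke relation in terms of the trace and of the determinant -/
theorem hec (h : D.MS μ) (hL : D.Lv k M) (hM : ¬ (l.w k).p ∣ M) (hW : Wi M W) (g : GQ) :
    ‖μ k (M * (l.w k).p) g W - (μ k M g W - (D.rd (l.F k)).trace • μ k M g (tl W (l.F k)) +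
      ((l.w k).p : ℚ_[2]) • μ k M g (tl W (l.F k * l.F k)))‖ ≤ (2 ^ k)⁻¹ := by
  have h0 := h.hec k M (l.w k) (l.F k) hL (nd l hM) (l.fr k) g W hW
  rw [← l.tr k] at h0
  have hp : ((l.w k).p : ℚ_[2]) ≠ 0 := Nat.cast_ne_zero.2 (l.w k).prime.ne_zero
  have hb : ∀ s, ‖μ k M g (tl W s)‖ ≤ 1 := fun s => h.le k M g _ 1 zero_le_one (hW.tl s).1
  have ht : ‖(D.rd (l.F k)).trace‖ ≤ 1 := by
    rw [Matrix.trace_fin_two]; exact ua (D.rd_le _ _ _) (D.rd_le _ _ _)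
  have h1 : ‖(D.rd (l.F k)).trace - (D.rd (l.F k)).trace / (l.w k).p‖ ≤ (2 ^ k)⁻¹ := by
    rw [show (D.rd (l.F k)).trace - (D.rd (l.F k)).trace / (l.w k).p =
      (D.rd (l.F k)).trace * (((l.w k).p : ℚ_[2]) - 1) / (l.w k).p by field_simp, norm_div, pn,
      div_one, norm_mul]
    exact (mul_le_of_le_one_left (norm_nonneg _) ht).trans (near' l k)
  have h2 : ‖((l.w k).p : ℚ_[2])⁻¹ - (l.w k).p‖ ≤ (2 ^ k)⁻¹ := by
    rw [show ((l.w k).p : ℚ_[2])⁻¹ - (l.w k).p =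
      -(((l.w k).p : ℚ_[2]) + 1) * (((l.w k).p : ℚ_[2]) - 1) / (l.w k).p by field_simp; ring,
      norm_div, pn, div_one, norm_mul, norm_neg]
    exact (mul_le_of_le_one_left (norm_nonneg _) (ua (pn l k).le norm_one.le)).trans (near' l k)
  refine el (ua (ua h0 (sm_le h1 (hb (l.F k)))) (sm_le h2 (hb (l.F k * l.F k)))) ?_
  module

/-- the measures of level `M` are killed by inertia -/
theorem kill (hU : UNRF) (h : D.MS μ) (hL : D.Lv k M) (hM : ¬ (l.w k).p ∣ M) (hW : Wi M W)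
    {g : GQ} (hg : g ∈ (l.w k).I) : ‖μ k (M * (l.w k).p) g W‖ ≤ (2 ^ k)⁻¹ := by
  have hb : ∀ V, Wi M V → ‖μ k M g V‖ ≤ (2 ^ k)⁻¹ := fun V hV =>
    (hU D μ h k M (l.w k) V hL hM hV).1 (fun e => nd15 l k (e.mul_right _)) g hg
  have ht : ‖(D.rd (l.F k)).trace‖ ≤ 1 := by
    rw [Matrix.trace_fin_two]; exact ua (D.rd_le _ _ _) (D.rd_le _ _ _)
  simpa only [sub_add_cancel] using ua (hec l h hL hM hW g)
    (ua (us (hb W hW) (le_sm ht (hb _ (hW.tl (l.F k))))) (le_sm (pn l k).le (hb _ (hW.tl (l.F k * l.F k)))))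

theorem wi (hC : CYB) (hL : D.Lv k M) (hW : Wi M W) : Wi (M * (l.w k).p) (l.d k * W) :=
  have h := mul_ne_zero hL.1 (l.w k).prime.ne_zero
  ((l.dw k).mono hC (dvd_mul_left _ _) h).mul (hW.mono hC (dvd_mul_right _ _) h)

/-- the cocycle relation for the derived weight -/
theorem co (hC : CYB) (h : D.MS μ) (hL : D.Lv k M) (hW : Wi M W) (g s : GQ) :
    ‖μ k (M * (l.w k).p) (g * s) (l.d k * W) - μ k (M * (l.w k).p) g (l.d k * W) -
      D.rd g *ᵥ (μ k (M * (l.w k).p) s (l.d k * tl W g) +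
        l.d k g • μ k (M * (l.w k).p) s (tl W g))‖ ≤ (2 ^ k)⁻¹ := by
  have h1 := h.co k _ (hL.prime (l.w k).prime (nd15 l k)) g s _ (wi l hC hL hW)
  have h2 := h.near k (M * (l.w k).p) s (W := tl (l.d k * W) g)
    (W' := l.d k * tl W g + l.d k g • tl W g) (ε := (2 ^ k)⁻¹) fun σ => by
      rw [show tl (l.d k * W) g σ - (l.d k * tl W g + l.d k g • tl W g) σ =
        (l.d k (σ * g) - l.d k σ - l.d k g) * W (σ * g) by
          simp only [tl, Pi.mul_apply, Pi.add_apply, Pi.smul_apply, smul_eq_mul]; ring, norm_mul]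
      exact (mul_le_of_le_one_right (norm_nonneg _) (hW.1 _)).trans (l.da k σ g)
  refine el (ua h1 ((D.rd_vec g _).trans h2)) ?_
  rw [map_add, map_smul, Matrix.mulVec_sub]
  abel

theorem coI (hC : CYB) (h : D.MS μ) (hL : D.Lv k M) (hM : ¬ (l.w k).p ∣ M) (hW : Wi M W)
    {g : GQ} (hg : g ∈ (l.w k).I) (s : GQ) :
    ‖μ k (M * (l.w k).p) (g * s) (l.d k * W) - μ k (M * (l.w k).p) g (l.d k * W) -
      (μ k (M * (l.w k).p) s (l.d k * W) + l.d k g • μ k (M * (l.w k).p) s W)‖ ≤ (2 ^ k)⁻¹ := by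
  have h1 := co l hC h hL hW g s
  rwa [(Dat.rd_I (l.big k) hg).1, hW.tl_eq (((hC.1 M hL.1).2.2.2 _ hM).1 g hg),
    Matrix.one_mulVec] at h1

theorem hom (hC : CYB) (hU : UNRF) (h : D.MS μ) (hL : D.Lv k M) (hM : ¬ (l.w k).p ∣ M)
    (hW : Wi M W) {g s : GQ} (hg : g ∈ (l.w k).I) (hs : s ∈ (l.w k).I) :
    ‖μ k (M * (l.w k).p) (g * s) (l.d k * W) - μ k (M * (l.w k).p) g (l.d k * W) -
      μ k (M * (l.w k).p) s (l.d k * W)‖ ≤ (2 ^ k)⁻¹ := by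
  refine el (ua (coI l hC h hL hM hW hg s) (le_sm ((l.dw k).1 g) (kill l hU h hL hM hW hs))) ?_
  abel

theorem pw (hC : CYB) (hU : UNRF) (h : D.MS μ) (hL : D.Lv k M) (hM : ¬ (l.w k).p ∣ M)
    (hW : Wi M W) {g : GQ} (hg : g ∈ (l.w k).I) (m : ℕ) :
    ‖μ k (M * (l.w k).p) (g ^ m) (l.d k * W) -
      (m : ℚ_[2]) • μ k (M * (l.w k).p) g (l.d k * W)‖ ≤ (2 ^ k)⁻¹ := by
  induction m with
  | zero => simpa using h.one (hL.prime (l.w k).prime (nd15 l k)) (wi l hC hL hW)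
  | succ m ih =>
    refine el (ua (hom l hC hU h hL hM hW (pow_mem hg m) hg) ih) ?_
    rw [pow_succ, Nat.cast_succ]
    module

/-- conjugation by the Frobenius element -/
theorem conj (hC : CYB) (hU : UNRF) (h : D.MS μ) (hL : D.Lv k M) (hM : ¬ (l.w k).p ∣ M)
    (hW : Wi M W) : ‖μ k (M * (l.w k).p) (l.F k * l.t k * (l.F k)⁻¹) (l.d k * W) -
      μ k (M * (l.w k).p) (l.t k) (l.d k * W)‖ ≤ (2 ^ k)⁻¹ := by
  have hL' := hL.prime (l.w k).prime (nd15 l k)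
  obtain ⟨N, hN, h1⟩ := h.sm k _ hL'
  obtain ⟨r, hr, h2⟩ := (a_TAME2 (l.w k) _ (l.w k).p (l.t k) (l.ne2 k) (l.w k).loc_D
    (by rw [inf_eq_left.2 (l.w k).I_le_D]; exact (a_RES _ _ (l.w k).loc_D).2.2.2.2.1)
    ⟨l.tI k, (l.tI k).1⟩ (l.mov k) _ hN).2 1 (l.F k) (l.fr k) (map_natCast _ _)
    fun g hg => mul_mem (mul_mem (l.fr k).1 hg) (inv_mem (l.fr k).1)
  rw [pow_one] at h2
  have hq := pow_mem (l.tI k) (l.w k).p
  have hs := mul_mem (Pl.conj_mem_I (l.fr k).1 (l.tI k)) (inv_mem hq)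
  have h3 := pw l hC hU h hL hM hW hs r
  have h4 := h1 1 trivial _ trivial h2
  rw [one_mul] at h4
  rw [h4] at h3
  have h5 := us (h.one hL' (wi l hC hL hW)) h3
  rw [sub_sub_cancel, odd_smul hr] at h5
  have h6 := hom l hC hU h hL hM hW hs hq
  rw [inv_mul_cancel_right] at h6
  refine el (ua (ua (ua h6 h5) (pw l hC hU h hL hM hW (l.tI k) (l.w k).p)) (sm_le (near' l k)
    (h.le k (M * (l.w k).p) (l.t k) _ 1 zero_le_one (wi l hC hL hW).1))) ?_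
  module

theorem adj_le (g : GQ) (v : V2) : ‖(D.rd g).adjugate *ᵥ v‖ ≤ ‖v‖ := by
  simpa using mulVec_le (ε := 1) (B := (D.rd g).adjugate) (fun i j => by
    rw [Matrix.adjugate_fin_two]
    fin_cases i <;> fin_cases j <;> simpa using D.rd_le g _ _) v

theorem adj_add (R : Mt) (v : V2) : R.adjugate *ᵥ v = R.trace • v - R *ᵥ v := by
  funext i
  fin_cases i <;> simp [Matrix.adjugate_fin_two, Matrix.trace_fin_two, Matrix.mulVec, dotProduct,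
    Fin.sum_univ_two] <;> ring

end TFSR

open TFSR

theorem t_FSR (hC : CYB) (hP : PUSH) (hU : UNRF) : FSR := by
  intro D μ h l k M W hL hM hW
  refine hP k (fun M => D.Lv k M ∧ ¬ (l.w k).p ∣ M)
    (fun M => μ k (M * (l.w k).p) (l.t k) ∘ₗ LinearMap.mulLeft ℚ_[2] (l.d k) + μ k M (l.F k) -
      (D.rd (l.F k)).adjugate.mulVecLin ∘ₗ μ k M (l.F k) ∘ₗ
        LinearMap.funLeft ℚ_[2] ℚ_[2] (· * l.F k)) (D.rd (l.F k)) (l.F k)
    (fun M hM => ⟨hM.1.1, hM.1.two, fun e => ((Nat.Prime.dvd_mul (l.w k).prime).1 e).elim hM.2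
      fun e => l.ne2 k ((Nat.prime_dvd_prime_iff_eq (l.w k).prime Nat.prime_two).1 e)⟩)
    (hC.2.1 _ _ (l.ne2 k) (l.fr k)).1 (D.rd_two _) ?_ ?_ ?_ M W ⟨hL, hM⟩ hW
  · intro M W ε _ hε hW
    refine us (ua (h.le _ _ _ (l.d k * W) ε hε fun σ => ?_) (h.le _ _ _ _ ε hε hW))
      ((adj_le _ _).trans (h.le _ _ _ (tl W (l.F k)) ε hε fun σ => hW _))
    exact (norm_mul _ _).trans_le
      ((mul_le_of_le_one_left (norm_nonneg _) ((l.dw k).1 σ)).trans (hW σ))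
  · intro M W ⟨hL, hM⟩ hW
    have h1 := h.two k _ (hL.prime (l.w k).prime (nd15 l k)) (l.t k) _ (wi l hC hL hW)
    rw [mul_right_comm] at h1
    refine el (us (ua h1 (h.two k M hL (l.F k) W hW))
      ((adj_le (D := D) (l.F k) _).trans (h.two k M hL (l.F k) _ (hW.tl (l.F k))))) ?_
    rw [Matrix.mulVec_sub]
    change μ k _ _ (l.d k * W) + μ k _ _ W - _ *ᵥ μ k _ _ (tl W (l.F k)) -
      (μ k _ _ (l.d k * W) + μ k _ _ W - _ *ᵥ μ k _ _ (tl W (l.F k))) = _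
    abel
  · intro M W ⟨hL, hM⟩ hW
    have h1 := co l hC h hL hW (l.F k) (l.t k)
    have h2 := coI l hC h hL hM hW (Pl.conj_mem_I (l.fr k).1 (l.tI k)) (l.F k)
    rw [inv_mul_cancel_right, (l.dw k).2 _ (l.t k) (by
      rw [map_mul, map_mul, map_inv, mul_inv_cancel_comm]), l.d1, one_smul] at h2
    have h3 := (D.rd_vec (l.F k) _).trans (sm_le (l.d0 k)
      (h.le k (M * (l.w k).p) (l.t k) _ 1 zero_le_one (hW.tl (l.F k)).1))
    have h4 := hec l h hL hM hW (l.F k)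
    refine el (us (us (ua (us h1 h2) h3) (conj l hC hU h hL hM hW)) h4) ?_
    change μ k _ _ (l.d k * W) + μ k _ _ W - _ *ᵥ μ k M _ (tl W (l.F k)) -
      _ *ᵥ (μ k _ _ (l.d k * tl W (l.F k)) + μ k M _ (tl W (l.F k)) -
        _ *ᵥ μ k M _ (tl (tl W (l.F k)) (l.F k))) = _
    rw [tl_tl, Matrix.mulVec_sub, Matrix.mulVec_add, Matrix.mulVec_add, Matrix.mulVec_mulVec,
      Matrix.mul_adjugate, D.rd_det, cq_frob (l.ne2 k) (l.fr k), Matrix.smul_mulVec,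
      Matrix.one_mulVec, adj_add]
    abel

end Pool.Agent.P.MP_9c97e9_nt.K2
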