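import Pool.Agent.P.MP_9c97e9_nt.K2.SelJ

/-! Proof of GLOB. -/

namespace Pool.Agent.P.MP_9c97e9_nt.K2

open scoped NNReal Matrix
open MP_8b7eba_nt.R2 KT
open Filter Topology Polynomial Module

namespace TGLOB

open TDUAL (bt bt_fix)

variable {A : Type} [NormedCommRing A] [NormedAlgebra ℚ_[2] A] [IsUltrametricDist A]
  [FiniteDimensional ℚ_[2] A] {ψ : ℤ_[2] → A} {D : Dat} {x y : GS → Fin 2 → A}
  {t : A →ₗ[ℚ_[2]] ℚ_[2]} {s : Finset (Kp D)}

theorem ne2 {p : ℕ} (h : p ∣ 15 * D.n) : p ≠ 2 := fun e => by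
  have := D.n2
  rw [e] at h
  omega

theorem at_d (h : IsPsi ψ) {w : Pl} (hw : w.p ∣ D.n) (h15 : ¬w.p ∣ 15)
    (hy : PZ (fun _ => ⊤) (D.r (bar ψ)) y) (hx : PZ (fun _ => ⊤) (D.r ψ) x) :
    Cob2 (fun _ => w.D) (cupS (bt t) (D.r ψ) y x) := by
  have h2 : w.p ≠ 2 := ne2 (hw.mul_left _)
  have h30 : ¬w.p ∣ 30 := fun e => by
    rcases (Nat.Prime.dvd_mul w.prime).1 (show w.p ∣ 2 * 15 from e) with e | e
    · exact h2 ((Nat.prime_dvd_prime_iff_eq w.prime Nat.prime_two).1 e)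
    · exact h15 e
  obtain ⟨u, hu, hu'⟩ := Pl.exists_gen a_TAME a_RES h2
  have h4 : sd D.dl u = -1 := sd_eq_neg.2 fun e => D.dl_ne
    (self_eq_neg.1 (e.symm.trans (D.gen_dl hw hu hu')))
  refine cob2_cup_right (D.rep h.bar) (D.rep h) (fun _ => le_top) (fun g _ => D.bt_r h t g)
    (hy.mono fun _ => le_top)
    (a_SAH _ _ w u x h2 ((D.rep h).mono le_top) hu hu' (fun v => ?_) (hx.mono fun _ => le_top))
  rw [Dat.r_la h (la_I h2 hu), Dat.rd, Tate.rd, h4, (a_TR _ T2 w h30).1 u hu, mv_smul, mv_one]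
  simp

theorem fix_of (h : IsPsi ψ) {w : Pl} (h2 : w.p ≠ 2) (hx : PZ (fun _ => w.D) (D.r ψ) x)
    (h0 : ∀ g ∈ S1 w.I, x g = 0) {u : GQ} (hu : u ∈ w.I) {g : GS} (hg : g ∈ S1 w.D) :
    mv (D.rd u) (x g) = x g := by
  have h1 : g⁻¹ * cs u * g ∈ S1 w.I := hg.mono fun k hk => by
    have := Pl.conj_mem_I (w.D.inv_mem hk) hu
    rwa [inv_inv] at this
  have h4 := hx.conj (D.rep h) (fun _ => le_top) hg (S1_mono w.I_le_D h1)
  have h3 : g * (g⁻¹ * cs u * g) * g⁻¹ = cs u := by group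
  rw [h3, h0 _ h1, h0 _ (cs_mem.2 hu), rS_zero, add_zero, rS_cs, Dat.r_la h (la_I h2 hu)] at h4
  exact (sub_eq_zero.1 h4.symm).symm

theorem exists_mov (D : Dat) {w : Pl} (hw : w.p ∣ 15) :
    ∃ u ∈ w.I, ∃ i j, (D.rd u - 1) i j ≠ 0 := by
  obtain ⟨u, e, c, hB⟩ := bad_r hw
  refine ⟨u, hB.tI, ?_⟩
  by_contra k
  by_cases hn : w.p ∣ D.n
  · simp only [not_exists, not_not, hB.neg hn] at k
    have k0 := k 0 0
    have k1 := k 1 1
    simp [nu] at k0 k1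
    have : (4 : ℚ_[2]) = 0 := by linear_combination -k0 - k1
    norm_num at this
  · simp only [not_exists, not_not, (hB.toJ hw hn).rt, add_sub_cancel_left] at k
    have k0 := k 0 1
    have k1 := k 1 0
    simp [nu, hB.c0] at k0 k1
    have e1 := hB.e1
    rw [show e = 0 from funext (Fin.forall_fin_two.2 ⟨k0, k1⟩), norm_zero] at e1
    exact zero_ne_one e1

theorem at_15 (h : IsPsi ψ) {w : Pl} (hw : w.p ∣ 15) (hy : PZ (fun _ => ⊤) (D.r (bar ψ)) y)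
    (hx : PZ (fun _ => ⊤) (D.r ψ) x) (hy' : Cob (S1 w.I) (D.r (bar ψ)) y)
    (hx' : Cob (S1 w.I) (D.r ψ) x) : Cob2 (fun _ => w.D) (cupS (bt t) (D.r ψ) y x) := by
  have h2 : w.p ≠ 2 := ne2 (D := D) (hw.mul_right _)
  obtain ⟨v, hv⟩ := hy'
  obtain ⟨v', hv'⟩ := hx'
  obtain ⟨h3, h4, h5⟩ := cob2_cup_sub (D.rep h.bar) (D.rep h) (H := fun _ => w.D)
    (fun _ => le_top) (fun g _ => D.bt_r h t g) (hy.mono fun _ => le_top) (hx.mono fun _ => le_top)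
    (y := fun g => y g - (rS (D.r (bar ψ)) g v - v)) (z' := fun g => x g - (rS (D.r ψ) g v' - v'))
    ⟨v, fun g _ => sub_sub_cancel _ _⟩ ⟨v', fun g _ => sub_sub_cancel _ _⟩
  obtain ⟨u, hu, i, j, hij⟩ := exists_mov D hw
  refine h5.congr fun g hg g' hg' => ?_
  have h6 := fun g hg => fix_of h h2 h4 (fun g hg => sub_eq_zero.2 (hv' g hg)) hu (g := g) hg
  rw [Pi.sub_apply, Pi.sub_apply, eq_comm, sub_eq_self]
  refine bt_fix (B := D.rd u) i j hij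
    (fix_of h.bar h2 h3 (fun g hg => sub_eq_zero.2 (hv g hg)) hu hg) ?_
  rw [← sub_eq_iff_eq_add'.2 (h4.2 g hg g' hg'), map_sub, h6 _ (mul_mem hg hg'), h6 _ hg]

theorem at_out (h : IsPsi ψ) (hy : D.Rel (bar ψ) s y) (hx : D.Rel ψ s x) {w : ℕ → Pl}
    (hw : ∀ᶠ k in UF, ¬ (w k).p ∣ 30 * D.n ∧ ∀ l ∈ s, (w k).p ≠ (l.w k).p) :
    PI w (fun k => (w k).D) (cupS (bt t) (D.r ψ) y x) = 0 := by
  refine (a_PIX _ _ (fun k => (w k).loc_D) _ (D.pz2 h t (hy.pz.mono fun _ => le_top)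
    (hx.pz.mono fun _ => le_top))).2.2.2.2.2.2 (hw.mono fun k hk e => hk.1 ?_)
    fun g _ g' _ i hi => ?_
  · rw [e]
    exact Dvd.dvd.mul_right (by norm_num) _
  have h1 : y i = 0 := hy.unr w i ((hi.and hw).mono fun k e => ⟨e.1.1, e.2⟩)
  have h2 : x i = 0 := hx.unr w i ((hi.and hw).mono fun k e => ⟨e.1.1, e.2⟩)
  simp only [cupS]
  rw [hy.pz.2 g (mem_top _) i (mem_top _), hx.pz.2 g' (mem_top _) i (mem_top _), h1, h2, rS_zero,
    rS_zero, add_zero, add_zero, D.rS_mul h,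
    Dat.rS_unr h (w := w) ((hi.and hw).mono fun k e => ⟨e.1.1, e.2.1⟩)]
  exact ⟨rfl, rfl⟩

end TGLOB

open TGLOB in
theorem t_GLOB (hP : PRECQ) : GLOB := by
  intro D A _ _ _ _ ψ h s ok t x y hx hy
  have hd : 15 * D.n ≠ 0 := mul_ne_zero (by norm_num) D.sq.ne_zero
  choose pl hpl using fun p : (15 * D.n).primeFactors =>
    a_PL.1 p.1 (Nat.prime_of_mem_primeFactors p.2)
  have hR1 : ∀ p, (pl p).p ∣ 15 * D.n := fun p => hpl p ▸ Nat.dvd_of_mem_primeFactors p.2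
  have hl : ∀ (l : Kp D) k p, (pl p).p ≠ (l.w k).p := fun l k p e => l.big k
    (e ▸ (hR1 p).trans ⟨2, by ring⟩)
  have hB := D.pz2 h t hy.pz hx.pz
  have h1 := hP _ (Option ((15 * D.n).primeFactors ⊕ s))
    (fun o => o.elim (fun _ => w2) (Sum.elim (fun p _ => pl p) fun l => l.1.w)) hB
    (Eventually.of_forall fun k => ⟨?_, none, rfl⟩) fun w hw => ?_
  · rw [Fintype.sum_option, Fintype.sum_sum_type, Finset.sum_eq_zero, zero_add] at h1
    · rw [← Finset.sum_coe_sort]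
      exact h1
    · intro p _
      refine (a_PIX _ _ (fun _ => (pl p).loc_D) _ (hB.mono fun _ => le_top)).2.2.2.2.2.1 ?_
      by_cases e : (pl p).p ∣ 15
      · exact at_15 h e hy.pz hx.pz (hy.bad _ e) (hx.bad _ e)
      · exact at_d h (((Nat.Prime.dvd_mul (pl p).prime).1 (hR1 p)).resolve_left e) e hy.pz hx.pz
  · rintro (_ | i | i) (_ | j | j) e
    · rfl
    · exact (ne2 (hR1 j) e.symm).elim
    · exact (j.1.ne2 k e.symm).elim
    · exact (ne2 (hR1 i) e).elim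
    · rw [Subtype.ext ((hpl i).symm.trans (e.trans (hpl j)))]
    · exact (hl _ k i e).elim
    · exact (i.1.ne2 k e).elim
    · exact (hl _ k j e.symm).elim
    · by_contra c
      exact ok _ i.2 _ j.2 (fun a => c (by rw [Subtype.ext a])) k e
  · refine at_out h hy hx (hw.mono fun k hk => ⟨fun e => ?_, fun l hl => hk (some (.inr ⟨l, hl⟩))⟩)
    rcases (Nat.Prime.dvd_mul (w k).prime).1
      (show (w k).p ∣ 2 * (15 * D.n) by rwa [← mul_assoc]) with e | e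
    · exact hk none ((Nat.prime_dvd_prime_iff_eq (w k).prime Nat.prime_two).1 e)
    · have m := Nat.mem_primeFactors.2 ⟨(w k).prime, e, hd⟩
      exact hk (some (.inl ⟨_, m⟩)) (hpl ⟨_, m⟩).symm

end Pool.Agent.P.MP_9c97e9_nt.K2
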