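import Pool.Agent.P.MP_9c97e9_nt.K2.SelJ

/-! Proof of HBJ. -/

namespace Pool.Agent.P.MP_9c97e9_nt.K2

open scoped NNReal Matrix
open MP_8b7eba_nt.R2 KT
open Filter Topology Polynomial Module

namespace THBJ

/-- the abstract bound -/
theorem bound {A : Type} [NormedCommRing A] [NormedAlgebra ℚ_[2] A] [FiniteDimensional ℚ_[2] A]
    {π : A} {j e : ℕ} (hC : Chain π j e) {X : Type} [AddCommGroup X] [Module A X] [Module ℚ_[2] X]
    [IsScalarTower ℚ_[2] A X] {ι : Type} (S : ι → Submodule A X) (G : ι → ℕ → Prop)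
    (h : ∀ s α, G s α → ∀ x ∈ S s, x ≠ 0 → ∃ (s' : ι) (α' : ℕ) (f : X →ₗ[A] A), α' ≤ α ∧ G s' α' ∧
      f x ≠ 0 ∧ ∀ y ∈ S s, π ^ (α - α') * f y = 0 ∧ (f y = 0 → y ∈ S s')) (α : ℕ) :
    ∀ s, G s α → ∀ M ≤ S s, FiniteDimensional ℚ_[2] M → finrank ℚ_[2] M ≤ e * α := by
  induction α using Nat.strong_induction_on with
  | _ α ih =>
  intro s hs M hM hf
  by_cases h0 : M = ⊥
  · subst h0
    rw [Module.finrank_zero_of_subsingleton]
    exact Nat.zero_le _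
  obtain ⟨x, hx, x0⟩ := Submodule.exists_mem_ne_zero_of_ne_bot h0
  obtain ⟨s', α', f, h1, h2, h3, h4⟩ := h s α hs x (hM hx) x0
  have h5 : α' < α := h1.lt_of_ne fun e => h3 (by simpa [e] using (h4 x (hM hx)).1)
  let i : ↥(M ⊓ LinearMap.ker f) →ₗ[ℚ_[2]] M :=
    (Submodule.inclusion inf_le_left).restrictScalars ℚ_[2]
  have f0 : FiniteDimensional ℚ_[2] ↥(M ⊓ LinearMap.ker f) :=
    Module.Finite.of_injective i (Submodule.inclusion_injective inf_le_left)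
  have h6 := ih α' h5 s' h2 (M ⊓ LinearMap.ker f) (fun y hy => (h4 y (hM hy.1)).2 hy.2) f0
  let g : M →ₗ[ℚ_[2]] A := (f ∘ₗ M.subtype).restrictScalars ℚ_[2]
  have h7 := g.finrank_range_add_finrank_ker
  have h8 : finrank ℚ_[2] (LinearMap.ker g) ≤ finrank ℚ_[2] ↥(M ⊓ LinearMap.ker f) :=
    (Submodule.finrank_mono (t := LinearMap.range i) fun y hy => ⟨⟨y, y.2, hy⟩, rfl⟩).trans
      (LinearMap.finrank_range_le i)
  have h9 : finrank ℚ_[2] (LinearMap.range g) ≤ e * (α - α') := by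
    have a1 : LinearMap.range g ≤
        (Ideal.span {π ^ (j - min j (α - α'))}).restrictScalars ℚ_[2] := by
      rintro _ ⟨y, rfl⟩
      refine Ideal.mem_span_singleton.2 ((hC.ann (min_le_left _ _)).1 ?_)
      rcases le_total j (α - α') with c | c
      · rw [min_eq_left c, hC.nil, zero_mul]
      · rw [min_eq_right c]; exact (h4 y (hM y.2)).1
    refine (Submodule.finrank_mono a1).trans ((hC.rk _ (Nat.sub_le _ _)).le.trans ?_)
    exact Nat.mul_le_mul_left _ (by omega)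
  have h10 : e * α = e * (α - α') + e * α' := by rw [← mul_add, Nat.sub_add_cancel h1]
  omega

end THBJ

open THB in
theorem t_HBJ (hD : DUALJ) (hCH : CHEBJ) : HBJ := by
  intro D v hv q j m α hq hα A _ _ _ _ ψ A' _ _ _ _ ψ' h h' h0 M hM hS
  have c' := ((a_AFX.2.2.2.2.2.2 A' ψ' _ h').1 q j hq rfl).1
  rcases j with _ | j
  · rw [rank_zero c']; exact Nat.zero_le _
  have c := ((a_AFX.2.2.2.2.2.2 A ψ _ h).1 q _ hq rfl).1
  obtain ⟨ν, n1, n2, n3⟩ := nu_ex a_AFX (m := m) (by rwa [← pow_add, add_comm m]) h' hq.ne_zero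
  set π := aeval (ψ 1 - 1) q
  set π' := aeval (ψ' 1 - 1) q
  choose Sl hSl using fun s => Dat.exists_ds (D := D) h'.1 s
  let κ : Finset (Kp D) → GS → Fin 2 → A := fun s => raw (bar ψ) (v s)
  have hV : ∀ s a, a < m → π ^ (j + 1 + m - a) • κ s = 0 →
      ∀ g i, (π ^ (m - a) • κ s) g i ∈ Ideal.span {π ^ m} := fun s a ha e g i => by
    have := (c.ann (i := j + 1) (a := (π ^ (m - a) • κ s) g i) (by omega)).1 (by
      have := congrFun (congrFun e g) i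
      rw [show j + 1 + m - a = j + 1 + (m - a) by omega, pow_add, mul_smul] at this
      exact this)
    rw [Nat.add_sub_cancel_left] at this
    exact Ideal.mem_span_singleton.2 this
  let κ' : Finset (Kp D) → ℕ → GS → Fin 2 → A' := fun s a g i => ν ((π ^ (m - a) • κ s) g i)
  have hpw : ∀ s a, a < m → π ^ (j + 1 + m - a) • κ s = 0 → ∀ g i,
      π' ^ j * κ' s a g i = ν ((π ^ (j + 1 + m - a - 1) • κ s) g i) ∧
      (π ^ (j + 1 + m - a - 1) • κ s) g i ∈ Ideal.span {π ^ m} := fun s a ha e g i => by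
    rw [show j + 1 + m - a - 1 = j + (m - a) by omega, pow_add, mul_smul]
    exact ⟨(n2 j _ (hV s a ha e g i)).symm, Ideal.mul_mem_left _ _ (hV s a ha e g i)⟩
  have hR : ∀ s a, Ok s → a < m → π ^ (j + 1 + m - a) • κ s = 0 → D.Rel (bar ψ') s (κ' s a) :=
    fun s a h1 h2 h3 => (((hv s h1).2 A _ h.1.bar).1.smul h.1.bar _).map h.1.bar h'.1.bar ν _
      (fun b => n1 (-b)) (hV s a h2 h3)
  obtain ⟨a, e1, e2, e3⟩ := ex_min c.nil (κ ∅) α h0
  refine (THBJ.bound c' Sl (fun s a => Ok s ∧ a < m ∧ π ^ (j + 1 + m - a) • κ s = 0 ∧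
    π ^ (j + 1 + m - a - 1) • κ s ≠ 0) ?_ a ∅ ⟨by simp [Ok], e1.trans_lt hα, e2, e3⟩ M
    (fun x hx => (hSl _ x).2 ⟨(Dat.sel_iff.1 (hS x hx).1).1, (hS x hx).2, by simp⟩) hM).trans
    (Nat.mul_le_mul_left _ e1)
  rintro s a ⟨h1, h2, h3, h4⟩ x hx x0
  have hx := (hSl s x).1 hx
  have h5 := (hR s a h1 h2 h3).smul h'.1.bar (π' ^ j)
  obtain ⟨l, l1, l2, l3⟩ := hCH D s A' ψ' (bar ψ') x _ h'.1 h'.1.bar hx.1.pz h5.pz hx.1.nz h5.nz x0
    fun e => h4 (funext fun g => funext fun i => n3 _ (hpw s a h2 h3 g i).2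
      ((hpw s a h2 h3 g i).1.symm.trans (congrFun (congrFun e g) i)))
  obtain ⟨h6, h7⟩ := ok_cons h1 l1
  have e : κ (s.cons l h6) l.t = ve l.e (-l.c • de l.e (κ s l.F)) :=
    ((hv s h1).2 A _ h.1.bar).2 l h6 h7
  have hde : de l.e ((π ^ (m - a) • κ s) l.F) ∈ Ideal.span {π ^ m} :=
    Ideal.sub_mem _ (Submodule.smul_of_tower_mem _ _ (hV s a h2 h3 _ _))
      (Submodule.smul_of_tower_mem _ _ (hV s a h2 h3 _ _))
  rw [Pi.smul_apply, map_smul, smul_eq_mul] at l3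
  obtain ⟨a', e1, e2, e3⟩ := ex_min c.nil (κ (s.cons l h6)) a fun e4 => l3 (by
    have e5 := congrFun e4 l.t
    obtain ⟨i, hi⟩ := Function.ne_iff.1 l.e0
    rw [Pi.smul_apply, e, ← ve_smul] at e5
    have e6 := (smul_eq_zero_iff_right hi).1 (congrFun e5 i)
    rw [mul_smul_comm, smul_eq_zero_iff_right (neg_ne_zero.2 l.c0)] at e6
    rw [de_map, ← n2 j _ hde, Pi.smul_apply, map_smul, smul_eq_mul, ← mul_assoc, ← pow_add,
      show j + (m - a) = j + 1 + m - a - 1 by omega, e6, map_zero])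
  have hu : IsUnit (de l.e (κ' s a l.F)) := (c'.loc _).resolve_right fun ⟨b, hb⟩ => l3 (by
    rw [hb, ← mul_assoc, ← pow_succ, c'.nil, zero_mul])
  refine ⟨s.cons l h6, a', de l.e ∘ₗ LinearMap.proj l.F, e1, ⟨h7, e1.trans_lt h2, e2, e3⟩, l2,
    fun y hy => ⟨?_, fun y0 => ?_⟩⟩
  · have h8 := (hD D A' ψ' h'.1).1 s l h6 y _ (-l.c • (π' ^ (a - a') * de l.e (κ' s a l.F))) h7
      ((hSl s y).1 hy) (hR _ a' h7 (e1.trans_lt h2) e2) (by
        rw [de_map, ← n2 _ _ hde, ← map_smul, ← ve_map]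
        funext i
        refine congrArg ν (congrFun ?_ i)
        rw [Pi.smul_apply, Pi.smul_apply, e, ← ve_smul, map_smul, smul_eq_mul, ← mul_assoc,
          ← pow_add, mul_smul_comm, show a - a' + (m - a) = m - a' by omega])
    rw [smul_mul_assoc, smul_eq_zero_iff_right (neg_ne_zero.2 l.c0), mul_right_comm,
      hu.mul_left_eq_zero] at h8
    exact h8
  · have hy := (hSl s y).1 hy
    exact (hSl _ y).2 ⟨hy.1, hy.2.1, (Finset.forall_mem_cons _ _).2 ⟨y0, hy.2.2⟩⟩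

end Pool.Agent.P.MP_9c97e9_nt.K2
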