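import Pool.Agent.P.MP_9c97e9_nt.K2.BasK

/-! The reduction of the lattice of the integral cocycles. -/

namespace Pool.Agent.P.MP_9c97e9_nt.K2

open scoped NNReal Matrix
open MP_8b7eba_nt.R2 KT
open Filter Topology Polynomial Module

namespace TIW1

open TIW0 K2.BK

variable {D : Dat} {c : GQ → V2} {v : V2} {n : ℕ}

theorem r_sub (g : GQ) (hv : ‖v‖ ≤ 1) : ‖D.rp g *ᵥ v - v‖ ≤ 2⁻¹ :=
  (rd_sub D g v).trans (mul_le_of_le_one_right (by norm_num) hv)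

theorem rz_r (g : GQ) (hv : ‖v‖ ≤ 1) (i : Fin 2) : rz ((D.rp g *ᵥ v) i) = rz (v i) :=
  (rz_eq ((norm_le_pi_norm _ i).trans (rd_le D g hv)) ((norm_le_pi_norm _ i).trans hv)).2
    ((norm_le_pi_norm (D.rp g *ᵥ v - v) i).trans (r_sub g hv))

theorem ni_pos (D : Dat) : (0 : ℝ) < D.ni := by rcases D.ni_cases with e | e <;> simp [e]

theorem ni_norm (D : Dat) : ‖(D.ni : ℚ_[2])‖ = (D.ni : ℝ)⁻¹ := by
  rcases D.ni_cases with e | e <;> simp [e, TLS2.n4, TIW0.norm_two]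

theorem near_mul {g : GQ} (hg : g ∈ w2.D ⊓ KP 1) (x : ℚ_[2]) :
    ‖(D.rp g 1 1 - 1) * x - (qz D.mi g).val * (D.ni * x)‖ ≤ 2⁻¹ * ‖D.ni * x‖ := by
  rw [show (D.rp g 1 1 - 1) * x - (qz D.mi g).val * (D.ni * x) =
    (D.rp g 1 1 - (1 + D.ni * (qz D.mi g).val)) * x by ring, norm_mul, norm_mul, ni_norm,
    ← mul_assoc, ← mul_inv]
  exact mul_le_mul_of_nonneg_right (near_K hg) (norm_nonneg _)

theorem mul_le {x y : ℚ_[2]} {r : ℝ} (hx : ‖x‖ ≤ r) (hy : ‖y‖ ≤ 1) : ‖x * y‖ ≤ r :=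
  (norm_mul_le _ _).trans ((mul_le_of_le_one_right (norm_nonneg _) hy).trans hx)

theorem red_mem (hR : RTS) (h : c ∈ D.LL) (i : Fin 2) : D.Cq KI i fun g => rz (c g i) := by
  have hc : D.XC c := h.1
  refine ⟨⟨hc.uc.sm (fun v => rz (v i)) (ε := 2⁻¹) (by norm_num) fun v v' e => ?_,
    fun g hg k hk => ?_⟩, fun g hg => ?_, ?_, fun w hw g hg => ?_, fun e s => ?_, fun e => ?_⟩
  · have e' : ‖v i - v' i‖ ≤ 2⁻¹ := (norm_le_pi_norm (v - v') i).trans e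
    by_cases h1 : ‖v i‖ ≤ 1
    · exact (rz_eq h1 (by simpa using le_sub h1 (e'.trans (by norm_num)))).2 e'
    · rw [rz, rz, dif_neg h1, dif_neg fun h2 : ‖v' i‖ ≤ 1 => h1 (by
        simpa using le_add (e'.trans (by norm_num)) h2)]
  · beta_reduce
    rw [hc.co g hg k hk, Pi.add_apply, rz_add (co_le h g i)
      ((norm_le_pi_norm _ i).trans (rd_le D g (h.2 k))), rz_r g (h.2 k)]
  · rw [hc.off g hg, Pi.zero_apply, rz_zero]
  · rw [hc.nz, Pi.zero_apply, rz_zero]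
  · rw [hc.unr w hw g hg, Pi.zero_apply, rz_zero]
  · subst e
    have h0 : c 1 = 0 := by simpa [rd_one] using hc.co 1 (one_mem _) 1 (one_mem _)
    have h1 := hc.co _ (ts_mem s) _ (ts_mem s)
    rw [ts_ts, h0] at h1
    have h2 := congrFun h1 0
    rw [Pi.zero_apply, Pi.add_apply, LC.mv] at h2
    have h3 := le_add (mul_le (rp_ts D hR s).1 (co_le h (ts s) 0))
      (mul_le (rp_ts D hR s).2.1 (co_le h (ts s) 1))
    rw [show (D.rp (ts s) 0 0 - 1) * c (ts s) 0 + D.rp (ts s) 0 1 * c (ts s) 1 =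
      -(2 * c (ts s) 0) by linear_combination -h2, norm_neg, norm_mul, TIW0.norm_two] at h3
    exact (rz_eq_zero (co_le h _ 0)).2 (by linarith)
  · subst e
    obtain ⟨v, hv⟩ := XC_ord hc
    obtain ⟨g₀, g0, e0⟩ := D.exists_mi
    have h1 : ‖D.ni * v‖ ≤ 1 := by
      have h2 := near_mul (D := D) ⟨g0.1, KI_le 1 g0.2⟩ v
      rw [e0, ← hv g₀ g0, LC.v1, Nat.cast_one, one_mul, ← norm_neg] at h2
      have h3 := IsUltrametricDist.norm_add_le_max (-(c g₀ 1 - D.ni * v)) (c g₀ 1)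
      rw [neg_sub, sub_add_cancel, le_max_iff, ← neg_sub] at h3
      rcases h3 with h3 | h3 <;> linarith [co_le h g₀ 1, norm_nonneg (D.ni * v : ℚ_[2])]
    refine ⟨rz (D.ni * v), fun g hg => ?_⟩
    have h2 := near_mul (D := D) ⟨hg.1, KI_le 1 hg.2⟩ v
    rw [← hv g hg] at h2
    rw [(rz_eq (co_le h g 1) (mul_le (norm_val _) h1)).2 (h2.trans (by linarith))]
    rcases LA.cases (qz D.mi g) with e | e <;> simp [e, rz_zero, LC.v1]

theorem lift (hO : ∀ k c, D.Zm (n + k) (1 + k) c →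
      ∃ c', D.Zm (n + (k + 1)) (1 + (k + 1)) c' ∧ ∀ g, ‖c' g - c g‖ ≤ (2 ^ (1 + k))⁻¹)
    (h : D.Zm n 1 c) : ∃ x ∈ D.LL, ∀ g ∈ KI, ‖x g - c g‖ ≤ 2⁻¹ := by
  choose! F h1 h2 using hO
  let u : ℕ → GQ → V2 := fun k => Nat.rec c F k
  have hu : ∀ k, D.Zm (n + k) (1 + k) (u k) := fun k => by
    induction k with
    | zero => exact h
    | succ k ih => exact h1 k _ ih
  have mono : ∀ {k l : ℕ}, k ≤ l → ((2 : ℝ) ^ l)⁻¹ ≤ (2 ^ k)⁻¹ := fun h =>
    inv_anti₀ (by positivity) (pow_le_pow_right₀ one_le_two h)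
  have h3 : ∀ g k l, k ≤ l → ‖u l g - u k g‖ ≤ (2 ^ (1 + k))⁻¹ := fun g k l hl => by
    induction l, hl using Nat.le_induction with
    | base => simp
    | succ l hl ih => simpa using le_add ((h2 l _ (hu l) g).trans (mono (by omega))) ih
  have small : ∀ ε : ℝ, 0 < ε → ∃ k : ℕ, ((2 : ℝ) ^ (1 + k))⁻¹ < ε := fun ε hε => by
    obtain ⟨k, hk⟩ := pow_unbounded_of_one_lt ε⁻¹ (one_lt_two (α := ℝ))
    exact ⟨k, (mono (by omega)).trans_lt (inv_lt_of_inv_lt₀ hε hk)⟩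
  choose y hy using fun g => cauchySeq_tendsto_of_complete
    (Metric.cauchySeq_iff'.2 fun ε hε => (small ε hε).imp fun k hk l hl =>
      (dist_eq_norm (u l g) _).trans_lt ((h3 g k l hl).trans_lt hk))
  have h4 : ∀ g ∈ KI, ∀ k, ‖cut KI y g - u k g‖ ≤ (2 ^ (1 + k))⁻¹ := fun g hg k => by
    rw [cut_pos hg]
    exact le_of_tendsto ((hy g).sub_const _).norm (eventually_atTop.2 ⟨k, h3 g k⟩)
  have h5 : ∀ g ∈ KI, (∀ k, ‖u k g‖ ≤ (2 ^ (1 + k))⁻¹) → cut KI y g = 0 := fun g hg h =>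
    eq_zero fun k => (by simpa using le_add (h4 g hg k) (h k) :
      _ ≤ ((2 : ℝ) ^ (1 + k))⁻¹).trans (mono (by omega))
  refine ⟨cut KI y, ⟨⟨fun ε hε => ?_, fun g hg s hs => ?_, fun g => cut_neg,
    h5 _ (z_mem D) fun k => (hu k).nz, fun g hg hc => ?_,
    fun w hw g hg => h5 g (I_le (odd hw) hg) fun k => (hu k).unr w hw g hg⟩, fun g => ?_⟩,
    fun g hg => (h4 g hg 0).trans_eq (by norm_num)⟩
  · obtain ⟨k, hk⟩ := small ε hε
    obtain ⟨N, hN, e⟩ := (hu k).sm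
    refine ⟨N, hN, fun g hg s hs m => le_trans ?_ hk.le⟩
    have := le_sub (h4 _ (mul_mem hg hs) k) (h4 g hg k)
    rwa [e g (KI_le _ hg) s (KI_le _ hs) m, sub_sub_sub_cancel_right] at this
  · refine sub_eq_zero.1 (eq_zero fun k => le_trans ?_ (mono (Nat.le_add_left k 1)))
    have := le_add (le_sub (le_sub (h4 _ (mul_mem hg hs) k) (h4 g hg k))
      (rd_le D g (h4 s hs k))) ((hu k).co g (KI_le _ hg) s (KI_le _ hs))
    rw [Matrix.mulVec_sub] at this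
    exact le_of_eq_of_le (congrArg norm (by abel)) this
  · have hk := mem_KI.2 (la_of_cyc hc)
    refine eq_zero fun k => le_trans ?_ (mono (Nat.le_add_left k 1))
    obtain ⟨v, hv⟩ := (hu k).ord
    simpa [rd_I hg hc] using le_add ((norm_le_pi_norm _ 1).trans (h4 g hk k))
      (hv g ⟨w2.I_le_D hg, KI_le _ hk⟩)
  · by_cases hg : g ∈ KI
    · simpa using le_add ((h4 g hg 0).trans (by norm_num)) ((hu 0).int g)
    · simp [cut_neg hg]

theorem start (hR : RTS) (hn : 1 ≤ n) {f : Fin 2 → GQ → ZMod 2} (hf : ∀ i, D.Cq (KP n) i (f i)) :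
    D.Zm n 1 fun g i => ((f i g).val : ℕ) := by
  let c : GQ → V2 := fun g i => ((f i g).val : ℕ)
  have h1 : ∀ g, ‖c g‖ ≤ 1 := fun g => (pi_norm_le_iff_of_nonneg zero_le_one).2 fun i => norm_val _
  have h0 : ∀ g, (∀ i, f i g = 0) → ‖c g‖ ≤ (2 ^ 1)⁻¹ := fun g e =>
    (pi_norm_le_iff_of_nonneg (by norm_num)).2 fun i => by simp [c, e i]
  obtain ⟨a, ha⟩ := (hf 1).ord rfl
  refine (⟨⟨Sm.pi fun i => (hf i).ch.1.comp fun a => ((a.val : ℕ) : ℚ_[2]), h1,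
    fun g hg k hk => ?_, fun w hw g hg => h0 g fun i => (hf i).unr w hw g hg⟩,
    h0 _ fun i => (hf i).nz, ⟨a.val / D.ni, fun g hg => ?_⟩, fun s => ?_⟩ : D.Zm n 1 c)
  · rw [pow_one, show c (g * k) - c g - D.rp g *ᵥ c k =
      c (g * k) - (c g + c k) - (D.rp g *ᵥ c k - c k) by abel]
    refine le_sub ((pi_norm_le_iff_of_nonneg (by norm_num)).2 fun i =>
      (rz_eq (norm_val _) (le_add (norm_val _) (norm_val _))).1 ?_) (r_sub g (h1 k))
    rw [rz_add (norm_val _) (norm_val _), rz_val, rz_val, rz_val, (hf i).ch.2 g hg k hk]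
  · have h2 := near_mul (D := D) ⟨hg.1, KP_le hn hg.2⟩ (a.val / D.ni)
    rw [mul_div_cancel₀ _ (by exact_mod_cast (ni_pos D).ne'), ← norm_neg, neg_sub] at h2
    have h3 : c g 1 = (qz D.mi g).val * a.val := by
      rcases LA.cases (qz D.mi g) with e | e <;> simp [c, ha g hg, e, LC.v1]
    rw [h3, pow_one]
    exact h2.trans (mul_le_of_le_one_right (by norm_num) (norm_val _))
  · have h2 : c (ts s) 0 = 0 := by simp [c, (hf 0).re rfl s]
    obtain ⟨-, r1, -, r2⟩ := rp_ts D hR s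
    refine le_trans ((pi_norm_le_iff_of_nonneg (r := 4⁻¹) (by norm_num)).2
      (Fin.forall_fin_two.2 ⟨?_, ?_⟩)) (by norm_num)
    · rw [Pi.add_apply, LC.mv, h2, mul_zero, zero_add, zero_add]
      exact mul_le r1 (norm_val _)
    · rw [Pi.add_apply, LC.mv, h2, mul_zero, zero_add, add_comm, ← add_one_mul]
      exact mul_le r2 (norm_val _)

end TIW1

open TIW0 TIW1 K2.BK in
theorem t_IW1 (hZI : ZI) (hOB1 : OB1) (hOB2 : OB2) (hRTS : RTS) : IW1 := by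
  refine fun D => ⟨fun c => red_mem hRTS, fun χ hχ => ?_⟩
  choose m hm using fun i => (hZI D i).2 (χ i) (hχ i)
  obtain ⟨k₀, hk⟩ := exists_big D
  choose f hf e using fun i => hm i (m 0 + m 1 + k₀ + 1) (by fin_cases i <;> simp <;> omega)
  obtain ⟨x, hx, h1⟩ := TIW1.lift (fun k c hc => by
    obtain ⟨c', a1, a2, a3⟩ := hOB1 D _ _ c (hk _ (by omega)) hc
    obtain ⟨c'', b1, b2⟩ := hOB2 D _ _ c' a1 a2
    exact ⟨c'', b1, fun g => by simpa using le_add (b2 g) (a3 g)⟩) (start hRTS (by omega) hf)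
  refine ⟨x, hx, fun g i => ?_⟩
  by_cases hg : g ∈ KI
  · rw [← e i g hg, ← rz_val (f i g)]
    exact (rz_eq (co_le hx g i) (norm_val _)).2 ((norm_le_pi_norm _ i).trans (h1 g hg))
  · rw [(hχ i).off g hg, hx.1.off g hg, Pi.zero_apply, rz_zero]

end Pool.Agent.P.MP_9c97e9_nt.K2
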