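import Pool.Agent.P.MP_9c97e9_nt.K2.BasK

/-! The Iwasawa module and its Euler characteristic: assembly. -/

namespace Pool.Agent.P.MP_9c97e9_nt.K2

open scoped NNReal Matrix
open MP_8b7eba_nt.R2 KT
open Filter Topology Polynomial Module K2.BK

namespace TIWX

lemma det0 {V : Type} [AddCommGroup V] [Module ℚ_[2] V] (X Y : Submodule ℚ_[2] V)
    [FiniteDimensional ℚ_[2] X] [FiniteDimensional ℚ_[2] Y] (T : Module.End ℚ_[2] V)
    (hX : ∀ x ∈ X, T x ∈ X) (hY : ∀ x ∈ Y, T x ∈ Y) (h : Y = X) :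
    ‖LinearMap.det (T.restrict hX)‖ = ‖(T.restrict hY).charpoly.eval 0‖ := by
  subst h
  rw [LinearMap.det_eq_sign_charpoly_coeff, coeff_zero_eq_eval_zero]
  simp

lemma eu_ne (D : Dat) (p : ℕ) : (D.eu p : ℝ) ≠ 0 := by
  unfold Dat.eu
  split_ifs <;> norm_num

lemma sg_pos (D : Dat) : 0 < D.sg :=
  Finset.sum_pos (fun _ _ => Nat.two_pow_pos _)
    ⟨D.wz.p, Nat.mem_primeFactors.2 ⟨D.wz.prime, D.zp, D.sq.ne_zero⟩⟩

lemma key (hBADP : BADP) (hDETQ : DETQ) (hDET1 : DET1) (D : Dat) [FiniteDimensional ℚ_[2] D.XX]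
    [FiniteDimensional ℚ_[2] D.XB] (tX : ∀ c ∈ D.XX, D.Th c ∈ D.XX)
    (tB : ∀ c ∈ D.XB, D.Th c ∈ D.XB) : finrank ℚ_[2] D.XX ≤ finrank ℚ_[2] D.XB + D.bb ∧
    (finrank ℚ_[2] D.XX = finrank ℚ_[2] D.XB + D.bb →
      ‖LinearMap.det (D.Th.restrict tX)‖ * (D.eu 3 * D.eu 5) =
        ‖(D.Th.restrict tB).charpoly.eval 0‖) := by
  obtain ⟨a3, b3⟩ := hBADP D 3 (Or.inl rfl)
  obtain ⟨a5, b5⟩ := hBADP D 5 (Or.inr rfl)
  have n3 := eu_ne D 3
  have n5 := eu_ne D 5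
  by_cases h3 : 3 ∣ D.n <;> by_cases h5 : 5 ∣ D.n
  · have e : D.XB = D.XX := inf_eq_left.2 (le_inf (a3 h3) (a5 h5))
    refine ⟨by rw [e]; omega, fun _ => ?_⟩
    rw [det0 _ _ _ tX tB e, Dat.eu, Dat.eu, if_pos h3, if_pos h5]
    simp
  · obtain ⟨l, μ, l1, l2⟩ := b5 h5
    obtain ⟨d1, d2⟩ := hDET1 _ D.XX D.XB D.Th tX tB l μ
      (fun x => and_congr_right fun h => (and_iff_right (a3 h3 h)).trans (l1 x h).1.symm)
      fun x h => (l1 x h).2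
    have e : D.bb = 1 := by rw [Dat.bb, if_pos h3, if_neg h5]
    have e' : D.eu 3 = 1 := by rw [Dat.eu, if_pos h3]
    rw [e, e']
    refine ⟨d1, fun h => ?_⟩
    rw [d2 h, l2, Nat.cast_one]
    field_simp
  · obtain ⟨l, μ, l1, l2⟩ := b3 h3
    obtain ⟨d1, d2⟩ := hDET1 _ D.XX D.XB D.Th tX tB l μ
      (fun x => and_congr_right fun h => (and_iff_left (a5 h5 h)).trans (l1 x h).1.symm)
      fun x h => (l1 x h).2
    have e : D.bb = 1 := by rw [Dat.bb, if_neg h3, if_pos h5]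
    have e' : D.eu 5 = 1 := by rw [Dat.eu, if_pos h5]
    rw [e, e']
    refine ⟨d1, fun h => ?_⟩
    rw [d2 h, l2, Nat.cast_one]
    field_simp
  · obtain ⟨l, μ, l1, l2⟩ := b3 h3
    obtain ⟨l', μ', l1', l2'⟩ := b5 h5
    obtain ⟨d1, d2⟩ := hDETQ _ D.XX D.XB D.Th tX tB l l' μ μ'
      (fun x => and_congr_right fun h => and_congr (l1 x h).1.symm (l1' x h).1.symm)
      fun x h => ⟨(l1 x h).2, (l1' x h).2⟩
    have e : D.bb = 2 := by rw [Dat.bb, if_neg h3, if_neg h5]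
    rw [e]
    refine ⟨d1, fun h => ?_⟩
    rw [d2 h, l2, l2']
    field_simp

end TIWX

theorem t_IWX (hCJ : CJ) (hIWA : IWA) (hBADP : BADP) (hLATD : LATD) (hDETQ : DETQ) (hDET1 : DET1)
    (hEUL : EUL) (hLBK : LBK) : IWX := by
  intro D
  obtain ⟨⟨e, he, hX, hL⟩, F0, hF0, hF0X⟩ := hIWA D
  obtain ⟨c1, c2⟩ := hCJ D
  have fX : FiniteDimensional ℚ_[2] D.XX := hX ▸ Module.Finite.span_of_finite _ (Set.finite_range e)
  have dX : finrank ℚ_[2] D.XX = D.lam + D.bb := by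
    have := TIWX.sg_pos D
    rw [hX, finrank_span_eq_card he, Fintype.card_fin, Dat.s1, Dat.lam]
    omega
  have fB : FiniteDimensional ℚ_[2] D.XB := Submodule.finiteDimensional_of_le inf_le_left
  have tX : ∀ c ∈ D.XX, D.Th c ∈ D.XX := fun c hc => D.XX.sub_mem ((c2 c hc).1 _) hc
  have tB : ∀ c ∈ D.XB, D.Th c ∈ D.XB := fun c hc => ⟨tX c hc.1,
    (D.Bad 3).sub_mem ((c2 c hc.1).2.1 _ 3 (by norm_num) hc.2.1) hc.2.1,
    (D.Bad 5).sub_mem ((c2 c hc.1).2.1 _ 5 (by norm_num) hc.2.2) hc.2.2⟩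
  have tL : ∀ c ∈ D.LL.toAddSubgroup, D.Th c ∈ D.LL.toAddSubgroup := fun c hc =>
    ⟨tX c hc.1, fun g => TIW0.le_sub (c1 _ c 1 hc.2 g) (hc.2 g)⟩
  obtain ⟨d1, d2⟩ := TIWX.key hBADP hDETQ hDET1 D tX tB
  obtain ⟨a1, a2⟩ := hLATD _ _ e D.XX D.LL.toAddSubgroup D.Th tX he hX hL tL
  obtain ⟨e1, e2⟩ := hEUL D
  obtain ⟨-, hmul, hdvd, -, hone, -⟩ := a_AFX
  have hpow : ∀ n : ℕ, Dist (F0 ^ n) := fun n => by
    induction n with
    | zero => simpa using hone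
    | succ n ih => exact pow_succ F0 n ▸ hmul _ _ ih hF0
  refine ⟨(D.Th.restrict tB).charpoly, hdvd _ _ (hpow _) (LinearMap.charpoly_monic _)
    (TLB.char_dvd _ F0 (LinearMap.ext fun x => Subtype.ext ?_)), ?_, hLBK D tB, fun h => ?_⟩
  · rw [TLB.aeval_res]
    exact hF0X _ x.2.1
  · rw [LinearMap.charpoly_natDegree]
    omega
  rw [LinearMap.charpoly_natDegree] at h
  replace d2 := d2 (by omega)
  have z : LinearMap.det (D.Th.restrict tX) ≠ 0 ↔ (D.Th.restrict tB).charpoly.eval 0 ≠ 0 := by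
    rw [← norm_ne_zero_iff (a := eval _ _), ← d2, mul_ne_zero_iff, norm_ne_zero_iff,
      and_iff_left (mul_ne_zero (TIWX.eu_ne D 3) (TIWX.eu_ne D 5))]
  refine ⟨?_, fun h0 => ?_⟩
  · rw [← z, ← a1]
    refine ⟨fun hf e0 => ?_, fun h0 => Set.finite_of_ncard_ne_zero ?_⟩
    · have := (Set.ncard_pos hf).2 ⟨0, e1⟩
      rw [e2, Dat.h0, e0] at this
      exact lt_irrefl _ this
    · rw [e2]
      exact mul_ne_zero four_ne_zero h0
  · have := a2 (z.2 h0)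
    rw [e2, Dat.h0, ← d2]
    push_cast
    linear_combination 4 * (D.eu 3 : ℝ) * D.eu 5 * this

end Pool.Agent.P.MP_9c97e9_nt.K2
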