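import Pool.Agent.P.MP_9c97e9_nt.K2.SelJ

/-! The derived cochains are normalised cocycles. -/

namespace Pool.Agent.P.MP_9c97e9_nt.K2

open scoped NNReal Matrix
open MP_8b7eba_nt.R2 KT
open Filter Topology

namespace TKPZJ

theorem tl_ind (k : ℕ) (j : ZMod (2 ^ k)) (g : GQ) :
    tl (ind k j.val) g = ind k (j - Ps k g).val := by
  funext σ
  simp only [tl, ind, Ps_mul, (ZMod.val_injective _).eq_iff, eq_sub_iff_add_eq]

variable {A : Type} [NormedCommRing A] [NormedAlgebra ℚ_[2] A] [IsUltrametricDist A]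
  [FiniteDimensional ℚ_[2] A] {ψ : ℤ_[2] → A} {D : Dat}

theorem cob_gen (h : IsPsi ψ) {x : GS → Fin 2 → A} (hx : PZ (fun _ => ⊤) (D.r ψ) x) {w : Pl}
    (h2 : w.p ≠ 2) {t : GQ} (ht : t ∈ w.I) (hm : ∀ β : Om, β ^ 2 = w.p → t β = -β)
    {u : Fin 2 → A} (hu : x (cs t) = mv (D.rd t) u - u) : Cob (S1 w.I) (D.r ψ) x := by
  refine ⟨u, fun g hg => sub_eq_zero.1 ?_⟩
  refine a_PTAME _ ⊤ (D.r ψ) (fun _ => w) (cs t) (fun _ => w.p)
    (x - fun g => rS (D.r ψ) g u - u) isOpen_univ ⟨⊤, D.rep h, fun _ => le_top⟩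
    (.of_forall fun _ => ⟨h2, by rw [inf_top_eq]; exact (a_RES _ _ w.loc_D).2.2.2.2.1,
      ⟨ht, trivial⟩, hm⟩)
    ((hx.sub (D.rep h) (pz_cob (D.rep h) (fun _ => le_top) u)).mono fun _ => le_top) ?_ g
    (Eventually.mono hg fun _ a => ⟨a, trivial⟩)
  rw [Pi.sub_apply, rS_cs, Dat.r_la h (la_I h2 ht), hu, sub_self]

theorem cob_bad (h : IsPsi ψ) {x : GS → Fin 2 → A} (hx : PZ (fun _ => ⊤) (D.r ψ) x) {w : Pl}
    (h2 : w.p ≠ 2) {t : GQ} {e : V2} {c : ℚ_[2]} (hb : D.BadJ w t e c)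
    (h0 : de e (x (cs t)) = 0) : Cob (S1 w.I) (D.r ψ) x := by
  have he : e ≠ 0 := fun a => by simpa [a] using hb.e1
  obtain ⟨u, hu⟩ := exists_uni he hb.c0 h0
  exact cob_gen h hx h2 hb.tI hb.mov (u := u) (by rw [hb.rt, mv_uni, hu, add_sub_cancel_left])

theorem cob_neg (h : IsPsi ψ) {x : GS → Fin 2 → A} (hx : PZ (fun _ => ⊤) (D.r ψ) x) {w : Pl}
    (h2 : w.p ≠ 2) {t : GQ} {e : V2} {c : ℚ_[2]} (hb : BadR w t e c) (hn : w.p ∣ D.n) :
    Cob (S1 w.I) (D.r ψ) x := by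
  have hd : (D.rd t - 1).det = 4 := by
    rw [hb.neg hn]
    simp [nu, Matrix.det_fin_two]
    ring
  refine cob_gen h hx h2 hb.tI hb.mov (u := mv (D.rd t - 1)⁻¹ (x (cs t))) ?_
  rw [SelB.mv_sub_one, ← mv_mul, Matrix.mul_nonsing_inv _ (by rw [hd]; norm_num), mv_one]

end TKPZJ

theorem t_KPZJ (hC : CYB) (hU : UNRF) (hQ : QZ) : KPZJ := by
  intro D μ hμ s hs
  have hi : ∀ k j, Wi (2 ^ (k + 2)) (ind k j) := fun k => (hC.2.2 k).2.2.2.2.1
  have hL : ∀ k, D.Lv k (ck s k) := fun k => (hQ D μ hμ s hs k).1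
  have hW : ∀ k j, Wi (ck s k) (wt s k * ind k j) := fun k j =>
    ((hQ D μ hμ s hs k).2.2 _ (hi k j)).1
  have hb : ∀ k g j, ‖der μ s k g j‖ ≤ 1 := fun k g j =>
    hμ.le _ _ _ _ 1 zero_le_one (hW k j).1
  refine ⟨hb, fun A _ _ _ _ ψ h => ?_⟩
  have hz : PZ (fun _ => ⊤) (D.r ψ) (raw ψ (der μ s)) := by
    refine (D.raw_pz h hb (fun k => (hμ.sm k _ (hL k)).comp fun m j => m (wt s k * ind k j))
      fun k g _ g' _ j => ?_).2
    have h1 := hμ.co k _ (hL k) g g' _ (hW k j.val)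
    rw [tl_mul, TKPZJ.tl_ind] at h1
    have h2 := (D.rd_vec g _).trans
      (((hQ D μ hμ s hs k).2.2 _ (hi k (j - Ps k g).val)).2 g g')
    rw [Matrix.mulVec_sub] at h2
    simpa only [der, sub_add_sub_cancel] using ua h1 h2
  refine ⟨hz, ?_, fun w g hg => ?_, fun w hw => ?_⟩
  · refine (mv_one _).symm.trans (raw_zero h hb 1 (.of_forall fun k j => ?_))
    rw [Matrix.one_mulVec]
    exact hμ.nz k _ (hL k) _ (hW k j)
  · refine (mv_one _).symm.trans (raw_zero h hb 1 (hg.mono fun k hk j => ?_))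
    rw [Matrix.one_mulVec]
    have h2 : (w k).p ≠ 2 := fun e => hk.2.1 (by rw [e]; exact Dvd.dvd.mul_right (by norm_num) _)
    exact (hU D μ hμ k _ (w k) _ (hL k) (not_dvd_ck (w k).prime h2 hk.2.2) (hW k j)).1
      (fun e => hk.2.1 (e.trans (mul_dvd_mul_right (by norm_num) _))) _ hk.1
  · have h2 : w.p ≠ 2 := fun e => by rw [e] at hw; norm_num at hw
    by_cases hn : w.p ∣ D.n
    · obtain ⟨t, e, c, hB⟩ := bad_r hw
      exact TKPZJ.cob_neg h hz h2 hB hn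
    obtain ⟨t, e, c, hB⟩ := D.bad hw hn
    refine TKPZJ.cob_bad h hz h2 hB ?_
    have h3 := raw_zero h hb (g := cs t) (nu e) (.of_forall fun k j => by
      rw [nu_mulVec, norm_smul, hB.e1, mul_one]
      exact (hU D μ hμ k _ w _ (hL k) (not_dvd_ck w.prime h2 fun l _ a => l.big k
        (a ▸ (hw.trans (by norm_num)).mul_right _)) (hW k j)).2 t e c hw hB)
    rw [mv_nu] at h3
    by_contra h4
    have he : e = 0 := funext fun i => (smul_eq_zero.1 (congrFun h3 i)).resolve_right h4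
    simpa [he] using hB.e1

end Pool.Agent.P.MP_9c97e9_nt.K2
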