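import Pool.Agent.P.MP_9c97e9_nt.K2.BasL

/-! The local cohomology at three and five. -/

namespace Pool.Agent.P.MP_9c97e9_nt.K2

open scoped NNReal Matrix
open MP_8b7eba_nt.R2 KT
open Filter Topology Polynomial

namespace TL35

theorem n2 (j : ℕ) : ‖(2 ^ j : ℚ_[2])‖ = (2 ^ j)⁻¹ := by rw [norm_pow, SelA.two, inv_pow]

theorem dv (k : ℤ) (j : ℕ) : ‖(k / 2 ^ j : ℚ_[2])‖ ≤ 1 ↔ (2 ^ j : ℤ) ∣ k := by
  rw [← LC.int_le, norm_div, n2, div_le_one (by positivity)]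

theorem appr (y : ℚ_[2]) (j : ℕ) (h : ‖2 ^ j * y‖ ≤ 1) : ∃ k : ℤ, ‖y - k / 2 ^ j‖ ≤ 1 := by
  have h1 := PadicInt.appr_spec j (⟨2 ^ j * y, h⟩ : ℤ_[2])
  rw [Ideal.mem_span_singleton] at h1
  obtain ⟨c, hc⟩ := h1
  refine ⟨PadicInt.appr (⟨2 ^ j * y, h⟩ : ℤ_[2]) j, ?_⟩
  have h2 : 2 ^ j * y - (PadicInt.appr (⟨2 ^ j * y, h⟩ : ℤ_[2]) j : ℕ) = 2 ^ j * (c : ℚ_[2]) := by
    have := congrArg (fun z : ℤ_[2] => (z : ℚ_[2])) hc
    simp only [PadicInt.coe_mul, PadicInt.coe_pow, PadicInt.coe_natCast] at this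
    exact_mod_cast this
  rw [show y - ((PadicInt.appr (⟨2 ^ j * y, h⟩ : ℤ_[2]) j : ℕ) : ℤ) / 2 ^ j = c by
    rw [Int.cast_natCast, sub_div' (by simp), mul_comm y, h2, mul_div_cancel_left₀ _ (by simp)]]
  exact c.2

theorem odd_norm {k : ℤ} (h : ¬ 2 ∣ k) : ‖(k : ℚ_[2])‖ = 1 :=
  le_antisymm (Padic.norm_int_le_one k) (not_lt.1 fun e => h ((LC.int2 k).1 (LC.lt_one e)))

variable {D : Dat} {w : Pl} {t φ : GQ} {E F : ℚ_[2] →+ EO} {u a : ℚ_[2]}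

theorem tpow (S : D.S35 w t φ E F u a) (ht : t ∈ w.I) (i : ℕ) (x y : ℚ_[2]) :
    tac D.dl (t ^ i) (E x + F y) = E (x + 4 * u * i * y) + F y := by
  induction i with
  | zero => simp [tac_one]
  | succ i ih =>
    rw [pow_succ', D.tmul, ih, map_add, S.IE t ht, S.tF, add_comm (F y), ← add_assoc, ← map_add]
    congr 2
    push_cast
    ring

theorem tsum (S : D.S35 w t φ E F u a) (ht : t ∈ w.I) (n : ℕ) (x y : ℚ_[2]) :
    ∑ i ∈ Finset.range n, tac D.dl (t ^ i) (E x + F y) =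
      E (n * x + 2 * u * n * (n - 1) * y) + F (n * y) := by
  induction n with
  | zero => simp
  | succ n ih =>
    rw [Finset.sum_range_succ, ih, tpow S ht, add_add_add_comm, ← map_add, ← map_add]
    congr 2 <;> push_cast <;> ring

theorem rel (S : D.S35 w t φ E F u a) (ht : t ∈ w.I) (x1 y1 x2 y2 : ℚ_[2]) :
    tac D.dl φ (E x1 + F y1) - ∑ i ∈ Finset.range w.p, tac D.dl (t ^ i) (E x1 + F y1) =
      tac D.dl (t ^ w.p) (E x2 + F y2) - (E x2 + F y2) ↔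
    ‖(D.ep w.p - 1) * w.p * x1 + (a - 2 * u * w.p * (w.p - 1)) * y1 - 4 * u * w.p * y2‖ ≤ 1 ∧
      ‖(D.ep w.p - w.p) * y1‖ ≤ 1 := by
  rw [← S.ker, tsum S ht, tpow S ht, map_add, S.fE, S.fF, ← sub_eq_zero]
  simp only [sub_mul, map_sub, map_add, one_mul]
  refine Eq.congr_left ?_
  abel

theorem cb_t (S : D.S35 w t φ E F u a) (ht : t ∈ w.I) (x y : ℚ_[2]) :
    D.cb (E x + F y) t = E (4 * u * y) := by
  rw [Dat.cb, map_add, S.IE t ht, S.tF]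
  abel

theorem cb_f (S : D.S35 w t φ E F u a) (x y : ℚ_[2]) :
    D.cb (E x + F y) φ = E ((D.ep w.p * w.p - 1) * x + a * y) + F ((D.ep w.p - 1) * y) := by
  rw [Dat.cb, map_add, S.fE, S.fF]
  simp only [sub_mul, map_sub, map_add, one_mul]
  abel

theorem E_eq (S : D.S35 w t φ E F u a) {x : ℚ_[2]} : E x = 0 ↔ ‖x‖ ≤ 1 := by
  simpa using S.ker x 0

theorem F_eq (S : D.S35 w t φ E F u a) {y : ℚ_[2]} : F y = 0 ↔ ‖y‖ ≤ 1 := by
  simpa using S.ker 0 y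

theorem main (hLCY : LCY) (hLTU : LTU) (hLTZ : LTZ) (S : D.S35 w t φ E F u a) (h2 : w.p ≠ 2)
    (ht : Gn w t) (hφ : w.IsFrob 1 φ) (i j : ℕ) (v : ℤ) (hv : ¬ 2 ∣ v)
    (hm : D.ep w.p - w.p = 2 ^ j * v) (hp : ‖(w.p : ℚ_[2])‖ = 1)
    (he : (D.ep w.p * w.p - 1 : ℚ_[2]) ≠ 0)
    (hi : ∀ k : ℤ, (∃ y : ℚ_[2], ‖4 * y‖ ≤ 1 ∧ ‖(D.ep w.p - 1) * y - k / 4‖ ≤ 1) ↔ 2 ^ i ∣ k) :
    Lq (D.BH w.D) (D.ZH w.D) (2 ^ i * 2 ^ j) := by
  have hu := S.hu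
  have u0 : u ≠ 0 := norm_ne_zero_iff.1 (hu ▸ one_ne_zero)
  have p0 : (w.p : ℚ_[2]) ≠ 0 := norm_ne_zero_iff.1 (hp ▸ one_ne_zero)
  have hm' : (D.ep w.p - w.p : ℚ_[2]) = 2 ^ j * v := by exact_mod_cast hm
  have tD : t ∈ w.D := ht.1.1
  have hB : ∀ c ∈ D.ZH w.D, c ∈ D.BH w.D ↔
      ∃ x y, c t = D.cb (E x + F y) t ∧ c φ = D.cb (E x + F y) φ := by
    refine fun c hc => ⟨fun ⟨_, P, h1, h3⟩ => ?_, fun ⟨x, y, h1, h3⟩ => ?_⟩
    · obtain ⟨x, y, rfl⟩ := (S.tp P).1 h1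
      exact ⟨x, y, h3 t tD, h3 φ hφ.1⟩
    · have h4 := rs_cb_B (D := D) (H := w.D) ((S.tp _).2 ⟨x, y, rfl⟩)
      have h5 := ((hLTU D w t h2 ht _ (sub_mem hc h4.1)).2 φ hφ).1
        (by rw [Pi.sub_apply, rs_of_mem tD, h1, sub_self])
        (by rw [Pi.sub_apply, rs_of_mem hφ.1, h3, sub_self])
      rwa [sub_eq_zero.1 h5]
  have hR : ∀ c ∈ D.ZH w.D, ∀ x1 y1 x2 y2, c t = E x1 + F y1 → c φ = E x2 + F y2 →
      ‖(D.ep w.p - 1) * w.p * x1 + (a - 2 * u * w.p * (w.p - 1)) * y1 - 4 * u * w.p * y2‖ ≤ 1 ∧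
        ‖(D.ep w.p - w.p) * y1‖ ≤ 1 := fun c hc x1 y1 x2 y2 h1 h3 => by
    rw [← rel S ht.1 x1 y1 x2 y2, ← h1, ← h3]
    exact ((hLTU D w t h2 ht c hc).2 φ hφ).2
  refine hLCY _ _ _ |>.1 (D.ZH w.D ⊓ E.range.comap (Pi.evalAddMonoidHom (fun _ => EO) t)) _ _
    ⟨fun c hc => ⟨hc.1, ?_⟩, ?_⟩ ⟨inf_le_left, ?_⟩
  · obtain ⟨x, y, h1, -⟩ := (hB c hc.1).1 hc
    exact ⟨_, (h1.trans (cb_t S ht.1 x y)).symm⟩
  · obtain ⟨z, hz, z1, z2⟩ := hLTZ D w t φ h2 ht hφ (E 0 + F 0) (E 0 + F 4⁻¹)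
      ((S.tp _).2 ⟨_, _, rfl⟩) ((S.tp _).2 ⟨_, _, rfl⟩) ((rel S ht.1 _ _ _ _).2 ⟨by
        rw [show (D.ep w.p - 1 : ℚ_[2]) * w.p * 0 + (a - 2 * u * w.p * (w.p - 1)) * 0 -
          4 * u * w.p * 4⁻¹ = -(u * w.p) by ring, norm_neg, norm_mul, hu, hp, one_mul], by simp⟩)
    simp only [map_zero, zero_add] at z1 z2
    have zk : ∀ k : ℤ, (k • z) t = 0 ∧ (k • z) φ = F (k / 4) := fun k =>
      ⟨by rw [Pi.smul_apply, z1, smul_zero], by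
        rw [Pi.smul_apply, z2, ← map_zsmul, zsmul_eq_mul, div_eq_mul_inv]⟩
    refine ⟨z, ⟨hz, 0, by simpa using z1.symm⟩, ?_, fun k => ?_⟩
    · rintro c ⟨hc, x1, h1⟩
      obtain ⟨x2, y2, h3⟩ := (S.tp _).1 (ZH_tp hc φ)
      have h4 := (hR c hc x1 0 x2 y2 (by simpa using h1.symm) h3).1
      obtain ⟨k, hk⟩ := appr (y2 - (D.ep w.p - 1) * (x1 / (4 * u))) 2 (by
        rw [show (D.ep w.p - 1 : ℚ_[2]) * w.p * x1 + (a - 2 * u * w.p * (w.p - 1)) * 0 -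
          4 * u * w.p * y2 = -(u * w.p * (2 ^ 2 * (y2 - (D.ep w.p - 1) * (x1 / (4 * u))))) by
            field_simp; ring, norm_neg, norm_mul, norm_mul, hu, hp, one_mul, one_mul] at h4
        exact h4)
      refine ⟨k, (hB _ (sub_mem hc (zsmul_mem hz k))).2
        ⟨(x2 - a * (x1 / (4 * u))) / (D.ep w.p * w.p - 1), x1 / (4 * u), ?_, ?_⟩⟩
      · rw [Pi.sub_apply, (zk k).1, sub_zero, cb_t S ht.1, mul_div_cancel₀ _ (by simp [u0])]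
        exact h1.symm
      · rw [Pi.sub_apply, (zk k).2, cb_f S, mul_div_cancel₀ _ he, sub_add_cancel, h3,
          add_sub_assoc, add_right_inj, ← sub_eq_zero, ← map_sub, ← map_sub, F_eq S, sub_right_comm]
        norm_num at hk ⊢
        exact hk
    · rw [hB _ (zsmul_mem hz k), (zk k).1, (zk k).2, Nat.cast_pow, Nat.cast_two, ← hi]
      simp only [cb_t S ht.1, cb_f S]
      constructor
      · rintro ⟨x, y, h1, h3⟩
        rw [eq_comm, E_eq S, mul_right_comm, norm_mul, hu, mul_one] at h1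
        rw [eq_comm, ← sub_eq_zero, add_sub_assoc, ← map_sub, S.ker] at h3
        exact ⟨y, h1, h3.2⟩
      · rintro ⟨y, h1, h3⟩
        refine ⟨-(a * y) / (D.ep w.p * w.p - 1), y, ?_, ?_⟩
        · rwa [eq_comm, E_eq S, mul_right_comm, norm_mul, hu, mul_one]
        · rwa [mul_div_cancel₀ _ he, neg_add_cancel, map_zero, zero_add, eq_comm, ← sub_eq_zero,
            ← map_sub, F_eq S]
  · obtain ⟨z, hz, z1, -⟩ := hLTZ D w t φ h2 ht hφ (E 0 + F (2 ^ j)⁻¹)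
      (E 0 + F ((a - 2 * u * w.p * (w.p - 1)) * (2 ^ j)⁻¹ / (4 * u * w.p)))
      ((S.tp _).2 ⟨_, _, rfl⟩) ((S.tp _).2 ⟨_, _, rfl⟩) ((rel S ht.1 _ _ _ _).2 ⟨by
        rw [mul_div_cancel₀ _ (by simp [u0, p0])]; simp, by
        rw [hm', mul_right_comm, mul_inv_cancel₀ (by simp), one_mul, odd_norm hv]⟩)
    simp only [map_zero, zero_add] at z1
    have zk : ∀ k : ℤ, (k • z) t = F (k / 2 ^ j) := fun k => by
      rw [Pi.smul_apply, z1, ← map_zsmul, zsmul_eq_mul, div_eq_mul_inv]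
    refine ⟨z, hz, fun c hc => ?_, fun k => ?_⟩
    · obtain ⟨x1, y1, h1⟩ := (S.tp _).1 (ZH_tp hc t)
      obtain ⟨x2, y2, h3⟩ := (S.tp _).1 (ZH_tp hc φ)
      have h4 := (hR c hc x1 y1 x2 y2 h1 h3).2
      rw [hm', mul_right_comm, norm_mul, odd_norm hv, mul_one] at h4
      obtain ⟨k, hk⟩ := appr y1 j h4
      refine ⟨k, (D.ZH w.D).sub_mem hc (zsmul_mem hz k), x1, ?_⟩
      change E x1 = (c - k • z) t
      rw [Pi.sub_apply, zk, h1, add_sub_assoc, ← map_sub, (F_eq S).2 hk, add_zero]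
    · rw [Nat.cast_pow, Nat.cast_two, ← dv]
      constructor
      · rintro ⟨-, x, h1⟩
        change E x = (k • z) t at h1
        rw [zk, eq_comm, ← sub_eq_zero, sub_eq_neg_add, ← map_neg, S.ker] at h1
        exact h1.2
      · intro h1
        refine ⟨zsmul_mem hz k, 0, ?_⟩
        change E 0 = (k • z) t
        rw [zk, map_zero, (F_eq S).2 h1]

theorem c1 (k : ℤ) :
    (∃ y : ℚ_[2], ‖4 * y‖ ≤ 1 ∧ ‖(((1 : ℤ) : ℚ_[2]) - 1) * y - k / 4‖ ≤ 1) ↔ 2 ^ 2 ∣ k := by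
  rw [← dv]
  norm_num
  exact fun _ => ⟨0, by simp⟩

theorem c2 (k : ℤ) :
    (∃ y : ℚ_[2], ‖4 * y‖ ≤ 1 ∧ ‖(((-1 : ℤ) : ℚ_[2]) - 1) * y - k / 4‖ ≤ 1) ↔ 2 ^ 1 ∣ k := by
  rw [← dv]
  constructor
  · rintro ⟨y, h1, h3⟩
    rw [show (k / 2 ^ 1 : ℚ_[2]) = -(4 * y) - 2 * ((((-1 : ℤ) : ℚ_[2]) - 1) * y - k / 4) by
      push_cast; ring]
    exact LC.sub (by rwa [norm_neg]) (LC.mul_l (SelA.two.le.trans (by norm_num)) h3)
  · intro h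
    exact ⟨-k / 8, by rwa [show (4 * (-k / 8) : ℚ_[2]) = -(k / 2 ^ 1) by ring, norm_neg], by
      rw [show (((-1 : ℤ) : ℚ_[2]) - 1) * (-k / 8) - k / 4 = 0 by push_cast; ring]; simp⟩

end TL35

open TL35 in
theorem t_L35 (hLCY : LCY) (hLTU : LTU) (hLTZ : LTZ) (hLS35 : LS35) : L35 := by
  intro D w hw hn
  have h35 : w.p = 3 ∨ w.p = 5 := by
    rcases (Nat.Prime.dvd_mul w.prime).1 (show w.p ∣ 3 * 5 from hw) with h | h
    · exact .inl ((Nat.prime_dvd_prime_iff_eq w.prime Nat.prime_three).1 h)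
    · exact .inr ((Nat.prime_dvd_prime_iff_eq w.prime Nat.prime_five).1 h)
  have h2 : w.p ≠ 2 := by omega
  obtain ⟨t, ht⟩ := exists_gn h2
  obtain ⟨φ, hφ⟩ := w.exists_frob a_FROB
  obtain ⟨E, F, u, a, S⟩ := hLS35 D w t φ hw hn ht hφ
  have hp : ‖(w.p : ℚ_[2])‖ = 1 := by
    simpa using odd_norm (k := w.p) (by omega)
  have key := main hLCY hLTU hLTZ S h2 ht hφ
  rw [Dat.N, if_neg h2, if_neg hn]
  rcases h35 with h | h <;> rcases D.ep_cases w.prime hw hn with e1 | e1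
  · rw [if_pos h]
    exact key 2 1 (-1) (by decide) (by rw [e1, h]; rfl) hp (by rw [e1, h]; norm_num) (e1 ▸ c1)
  · rw [if_pos h]
    exact key 1 2 (-1) (by decide) (by rw [e1, h]; rfl) hp (by rw [e1, h]; norm_num) (e1 ▸ c2)
  · rw [if_neg (by omega), if_pos e1]
    exact key 2 2 (-1) (by decide) (by rw [e1, h]; rfl) hp (by rw [e1, h]; norm_num) (e1 ▸ c1)
  · rw [if_neg (by omega), if_neg (by omega)]
    exact key 1 1 (-3) (by decide) (by rw [e1, h]; rfl) hp (by rw [e1, h]; norm_num) (e1 ▸ c2)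

end Pool.Agent.P.MP_9c97e9_nt.K2
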