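import Pool.Agent.P.MP_9c97e9_nt.K2.BasL
import Pool.Agent.P.MP_9c97e9_nt.KT.TLABS

/-! The abstract count for the change of lattice. -/

namespace Pool.Agent.P.MP_9c97e9_nt.K2

open KT.TLABS (dbl dbl_apply index_dbl)

namespace TLAB2

lemma step {Y ι : Type} [AddCommGroup Y] [Fintype ι] (A : AddSubgroup Y) (K : ι → AddSubgroup Y)
    (h : ∀ i, ∀ x ∈ A, ∀ y ∈ A, x ∉ K i → y ∉ K i → x - y ∈ K i) :
    (⨅ i, K i).relIndex A ≠ 0 ∧ (⨅ i, K i).relIndex A ≤ 2 ^ Fintype.card ι := by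
  classical
  let f : A ⧸ (⨅ i, K i).addSubgroupOf A → ι → Bool := fun q i => decide ((q.out : A).1 ∈ K i)
  have hf : Function.Injective f := fun q q' e => by
    rw [← q.out_eq, ← q'.out_eq]
    refine QuotientAddGroup.eq.2
      (AddSubgroup.mem_addSubgroupOf.2 (AddSubgroup.mem_iInf.2 fun i => ?_))
    have h1 : (q.out : A).1 ∈ K i ↔ (q'.out : A).1 ∈ K i := decide_eq_decide.1 (congrFun e i)
    change -(q.out : A).1 + (q'.out : A).1 ∈ K i
    rw [neg_add_eq_sub]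
    by_cases h2 : (q.out : A).1 ∈ K i
    · exact sub_mem (h1.1 h2) h2
    · exact h i _ (q'.out : A).2 _ (q.out : A).2 (mt h1.2 h2) h2
  have : Finite (A ⧸ (⨅ i, K i).addSubgroupOf A) := Finite.of_injective f hf
  refine ⟨AddSubgroup.index_ne_zero_of_finite, ?_⟩
  simpa [AddSubgroup.relIndex, AddSubgroup.index_eq_card] using
    Nat.card_le_card_of_injective f hf

/-- a subgroup from a set -/
def ofSet {X : Type} [AddCommGroup X] (S : Set X) (h0 : 0 ∈ S) (h : ∀ x ∈ S, ∀ y ∈ S, x - y ∈ S) :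
    AddSubgroup X :=
  AddSubgroup.ofSub S ⟨0, h0⟩ fun x hx y hy => by rw [← sub_eq_add_neg]; exact h x hx y hy

end TLAB2

open TLAB2 in
theorem t_LAB2 : LAB2 := by
  intro X _ ι _ G r M F Z hr h hh hs
  let ρ : ι → G →+ X := fun i => (r i).comp G.subtype
  let M' : ι → AddSubgroup G := fun i => (ofSet (M i) (h i).1 (h i).2.2.1).comap (ρ i)
  let F' : ι → AddSubgroup G := fun i =>
    (ofSet (F i) ((h i).2.1 (h i).1) (h i).2.2.2.1).comap (ρ i)
  have hM : ∀ i g, g ∈ M' i ↔ ρ i g ∈ M i := fun _ _ => Iff.rfl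
  have hF : ∀ i g, g ∈ F' i ↔ ρ i g ∈ F i := fun _ _ => Iff.rfl
  obtain ⟨a1, a2⟩ := step ⊤ F' fun i x _ y _ hx hy => by
    rw [hF, map_sub]
    exact (h i).2.2.2.2.2 _ (hr i x x.2) _ (hr i y y.2) hx hy
  obtain ⟨-, b2⟩ := step (⨅ i, F' i) M' fun i x hx y hy hx' hy' => by
    rw [hM, map_sub]
    exact (h i).2.2.2.2.1 _ (AddSubgroup.mem_iInf.1 hx i) _ (AddSubgroup.mem_iInf.1 hy i) hx' hy'
  rw [AddSubgroup.relIndex_top_right] at a1 a2
  have hle : ⨅ i, M' i ≤ ⨅ i, F' i := iInf_mono fun i g hg => (h i).2.1 hg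
  have hk : {g | g ∈ G ∧ ∀ i, r i g ∈ F i} =
      Subtype.val '' ((⨅ i, F' i : AddSubgroup G) : Set G) := by
    ext g
    exact ⟨fun k => ⟨⟨g, k.1⟩, AddSubgroup.mem_iInf.2 k.2, rfl⟩,
      fun ⟨x, h1, h2⟩ => h2 ▸ ⟨x.2, AddSubgroup.mem_iInf.1 h1⟩⟩
  have key : (G : Set X).Finite ↔ {g | g ∈ G ∧ ∀ i, r i g ∈ F i}.Finite := by
    refine ⟨fun k => k.subset fun _ k => k.1, fun k => ?_⟩
    rw [hk] at k
    have : Finite (⨅ i, F' i : AddSubgroup G) :=
      (k.of_finite_image Subtype.val_injective.injOn).to_subtype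
    have : Finite (G ⧸ ⨅ i, F' i) := Nat.finite_of_card_ne_zero a1
    exact Set.finite_coe_iff.1 (Finite.of_addSubgroup_quotient (G := G) (⨅ i, F' i))
  refine ⟨key, ?_⟩
  by_cases hG : (G : Set X).Finite
  swap
  · rw [Set.Infinite.ncard hG, Set.Infinite.ncard (mt key.2 hG), mul_zero]
  have : Finite G := hG.to_subtype
  have k1 : ⨅ i, M' i ≤ (dbl G).range := fun g hg => by
    obtain ⟨g', h1, h2⟩ := hh g g.2 (AddSubgroup.mem_iInf.1 hg)
    exact ⟨⟨g', h1⟩, Subtype.ext h2.symm⟩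
  have k2 := AddSubgroup.index_antitone k1
  have k3 : 4 ^ Fintype.card ι ≤ Nat.card (dbl G).ker := by
    obtain ⟨s, h1, h3⟩ := hs
    refine h1.trans ?_
    rw [← Nat.card_eq_finsetCard]
    exact Nat.card_le_card_of_injective
      (fun g : s => (⟨⟨g, (h3 g g.2).1⟩, Subtype.ext (h3 g g.2).2⟩ : (dbl G).ker))
      fun a b e => Subtype.ext (congrArg (fun x : (dbl G).ker => x.1.1) e)
  rw [index_dbl, ← AddSubgroup.relIndex_mul_index hle] at k2
  have k4 : 2 ^ Fintype.card ι * 2 ^ Fintype.card ι ≤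
      2 ^ Fintype.card ι * (⨅ i, F' i).index := by
    rw [← mul_pow]
    exact (k3.trans k2).trans (Nat.mul_le_mul_right _ b2)
  have k5 := le_antisymm a2 (Nat.le_of_mul_le_mul_left k4 (by positivity))
  have h1 := (⨅ i, F' i).card_mul_index
  rw [hk, Set.ncard_image_of_injective _ Subtype.val_injective, ← Nat.card_coe_set_eq,
    ← Nat.card_coe_set_eq, ← k5, mul_comm]
  exact h1.symm

end Pool.Agent.P.MP_9c97e9_nt.K2
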