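import Pool.Agent.P.MP_9c97e9_nt.K2.IfL
import Pool.Agent.P.MP_9c97e9_nt.KT.TLAL
import Pool.Agent.P.MP_8b7eba_nt.R3.MM

/-! A torsion cocycle which comes from a local point comes from an algebraic point. -/

namespace Pool.Agent.P.MP_9c97e9_nt.K2

open MP_8b7eba_nt.R2 KT Classical
open MP_8b7eba_nt.R3 (twa)
open KT.TLAL (Rt iter al_pow)

theorem t_LAL : LAL := by
  intro d hd K _ _ hA c i hc ⟨P, hP⟩
  obtain ⟨s, -, h⟩ := MP_8b7eba_nt.R3.MM.split hd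
  have r : Rt (W := twa d) (K := K) (2 ^ i • P) := fun σ => by
    obtain ⟨τ, hτ⟩ := exists_restrict (k := ℚ) σ
    rw [map_nsmul, ← sub_eq_zero, ← nsmul_sub, ← hP σ τ hτ, ← map_nsmul, hc, map_zero]
  obtain ⟨R₁, R₂, a1, r2, e⟩ := iter h hA i r
  obtain ⟨Q, hQ⟩ := al_pow h i (Q := P - R₂) (by rwa [nsmul_sub, e, add_sub_cancel_right])
  refine ⟨Q, fun σ τ hτ => pm_injective (emb ℚ K) ?_⟩
  rw [hP σ τ hτ, map_sub, pm_compat hτ, hQ, map_sub, r2 σ]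
  abel

end Pool.Agent.P.MP_9c97e9_nt.K2
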