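import Pool.Agent.P.MP_9c97e9_nt.K2.BasK
import Pool.Agent.P.MP_9c97e9_nt.KT.TLAYK

/-! Proof of LAYK. -/

namespace Pool.Agent.P.MP_9c97e9_nt.K2

open MP_8b7eba_nt.R2 KT K2.BK
open KT.TLAYK (Im vv im_odd vv_zero im_zero count)

theorem t_LAYK : LAYK := by
  refine ⟨KT.t_LAYK.1, KT.t_LAYK.2.1, fun D k hk => ?_⟩
  have n0 := D.n_ne
  have odd : ∀ p, p ∣ D.n → p ≠ 2 := fun p h e => by
    have := D.n2
    subst e
    omega
  have h35 : ∀ p ∈ ({3, 5} : Finset ℕ).filter (¬ · ∣ D.n), (p = 3 ∨ p = 5) ∧ ¬ p ∣ D.n :=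
    fun p hp => by simpa using hp
  refine ⟨?_, fun w hw => ?_⟩
  · have h0 : 0 < D.sg := Finset.sum_pos (fun _ _ => Nat.two_pow_pos _)
      ⟨_, Nat.mem_primeFactors.2 ⟨D.wz.prime, D.zp, n0⟩⟩
    have hb : (({3, 5} : Finset ℕ).filter (¬ · ∣ D.n)).card = D.bb := by
      rw [Finset.card_filter, Finset.sum_pair (by norm_num), Dat.bb]
      simp only [ite_not]
    have h1 := count (n := k) (D.n.primeFactors ∪ ({3, 5} : Finset ℕ).filter (¬ · ∣ D.n)) vv
      (fun p hp => ?_) fun w hw => ?_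
    · rw [Finset.sum_union (Finset.disjoint_left.2 fun p h hp =>
        (h35 p hp).2 (Nat.dvd_of_mem_primeFactors h)),
        Finset.sum_congr (s₁ := Finset.filter _ _) (g := fun _ => 1) rfl fun p hp => by
          rw [vv_zero (h35 p hp).1, pow_zero], ← Finset.card_eq_sum_ones, hb] at h1
      rw [Dat.s1, Nat.sub_add_cancel (by omega)]
      refine Eq.trans (congrArg _ (Set.ext fun w => ?_)) h1
      simp only [Set.mem_ofPred_eq, w.prime.dvd_mul, Finset.mem_union, Nat.mem_primeFactors]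
      refine ⟨fun h => ?_, fun h => h.symm.imp (fun h => ?_) fun h => h.2.1⟩
      · by_cases e : w.p ∣ D.n
        · exact .inl ⟨w.prime, e, n0⟩
        · exact .inr (by simpa [e] using TLAY.dvd15 w.prime (h.resolve_right e))
      · rcases (h35 _ h).1 with h | h <;> rw [h] <;> norm_num
    · rcases Finset.mem_union.1 hp with h | h
      · exact ⟨Nat.prime_of_mem_primeFactors h, hk p h⟩
      · rw [vv_zero (h35 p h).1]
        rcases (h35 p h).1 with rfl | rfl <;> norm_num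
    · rcases Finset.mem_union.1 hw with h | h
      · exact im_odd (odd _ (Nat.dvd_of_mem_primeFactors h))
      · exact im_odd (by have := (h35 _ h).1; omega)
  · obtain ⟨v, h1, h2⟩ : ∃ v ≤ k, Im w v := by
      rcases w.prime.dvd_mul.1 hw with h | h
      · exact ⟨0, k.zero_le, im_zero h⟩
      · exact ⟨_, hk _ (Nat.mem_primeFactors.2 ⟨w.prime, h, n0⟩), im_odd (odd _ h)⟩
    exact ⟨h2.not_le h1, fun u hu => h2.lim (KP_le h1 hu)⟩

end Pool.Agent.P.MP_9c97e9_nt.K2
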