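import Pool.Agent.P.MP_9c97e9_nt.K2.BasL

/-! Many classes of order two. -/

namespace Pool.Agent.P.MP_9c97e9_nt.K2

open scoped NNReal Matrix
open MP_8b7eba_nt.R2 KT

namespace TLCN

variable {D : Dat}

theorem sh (hLSI : LSI) {a b : GQ → ZMod 2} (ha : D.HC a) (hb : D.HC b) (ho : D.OC b)
    (hr : ∃ P, s2 (a tau) (b tau) = D.cb P tau) : D.SH ⊤ fun g => s2 (a g) (b g) := by
  have hz : (fun g => s2 (a g) (b g)) ∈ D.ZH ⊤ :=
    ⟨ha.1.1.comp₂ hb.1.1 s2, fun g hg k hk => by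
      beta_reduce
      rw [ha.1.2 g hg k hk, hb.1.2 g hg k hk, s2_add, D.tac_two g (two_s2 _ _)],
      fun g hg => (hg trivial).elim, 1, fun g => by simpa using two_s2 _ _⟩
  obtain ⟨t, ht⟩ := (hLSI D b).1 ho
  obtain ⟨P, hP⟩ := hr
  refine ⟨hz.1, hz.2.1, hz.2.2.1, hz.2.2.2, by rw [ha.2.1, hb.2.1, s2_zero],
    ⟨pF t, tp_pF t, fun g hg => ?_⟩,
    fun w hw g hg => by rw [ha.2.2 w hw g hg.1, hb.2.2 w hw g hg.1, s2_zero],
    fun s => ⟨_, ZH_re hz hP s⟩⟩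
  have := D.cb_pair hg.1 0 t
  rw [map_zero, zero_add] at this
  change _ - D.cb _ g ∈ _
  rw [this, s2_eq, add_sub_add_comm, ← map_sub, ← map_sub, pEF_mem]
  exact ht g hg

theorem cnt {A B : Set (GQ → ZMod 2)} (h : 4 ^ D.om = A.ncard * B.ncard)
    (k : ∀ a ∈ A, ∀ b ∈ B, D.SH ⊤ fun g => s2 (a g) (b g)) :
    ∃ s : Finset (GQ → EO), 4 ^ D.om ≤ s.card ∧ ∀ c ∈ s, D.SH ⊤ c ∧ 2 • c = 0 := by
  classical
  have h0 : A.ncard * B.ncard ≠ 0 := h ▸ by positivity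
  have hA := Set.finite_of_ncard_ne_zero (left_ne_zero_of_mul h0)
  have hB := Set.finite_of_ncard_ne_zero (right_ne_zero_of_mul h0)
  refine ⟨(hA.toFinset ×ˢ hB.toFinset).image fun q g => s2 (q.1 g) (q.2 g), ?_, fun c hc => ?_⟩
  · rw [Finset.card_image_of_injective _ fun q q' e => Prod.ext
      (funext fun g => (s2_inj (congrFun e g)).1) (funext fun g => (s2_inj (congrFun e g)).2),
      Finset.card_product, h, Set.ncard_eq_toFinset_card A hA, Set.ncard_eq_toFinset_card B hB]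
  · obtain ⟨q, hq, rfl⟩ := Finset.mem_image.1 hc
    rw [Finset.mem_product, hA.mem_toFinset, hB.mem_toFinset] at hq
    exact ⟨k _ hq.1 _ hq.2, funext fun g => two_s2 _ _⟩

end TLCN

open TLCN in
theorem t_LCN (hLCH : LCH) (hLSI : LSI) : LCN := fun D => by
  obtain ⟨h1, h2, h3, h4⟩ := hLCH D
  have e4 : 4 ^ D.om = 2 ^ D.om * 2 ^ D.om := by rw [← mul_pow]; rfl
  by_cases hd : D.d < 0
  · refine cnt (A := {χ | D.HC χ ∧ χ tau = 0}) (B := {χ | D.HC χ ∧ D.OC χ})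
      (by rw [h2, h3, e4]) fun a ha b hb => sh hLSI ha.1 hb.1 hb.2 ?_
    refine ⟨_, Eq.symm ((D.cb_four 0 (b tau).val tau).trans ?_)⟩
    rw [(D.qz_tau.1 hd).1, ha.2]
    simp
  · refine cnt (A := {χ | D.HC χ}) (B := {χ | D.HC χ ∧ D.OC χ ∧ χ tau = 0})
      (by rw [h1, e4, mul_comm 2, mul_assoc, h4]) fun a ha b hb => sh hLSI ha hb.1 hb.2.1 ?_
    refine ⟨_, Eq.symm ((D.cb_four (a tau).val 0 tau).trans ?_)⟩
    rw [(D.qz_tau.2 hd).2, hb.2.2]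
    simp

end Pool.Agent.P.MP_9c97e9_nt.K2
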