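import Pool.Agent.P.MP_9c97e9_nt.K2.BasL

/-! Proof of LD1. -/

namespace Pool.Agent.P.MP_9c97e9_nt.K2

open MP_8b7eba_nt.R2 KT

namespace TLD1

/-- the global triviality when one prime is omitted -/
theorem gth (n p0 : ℕ) (κ : GQ → GQ → ZMod 2) (h0 : n ≠ 0) (h2 : 2 ∣ n) (hκ : Co2 ⊤ (sgn κ))
    (hI : ∀ w : Pl, ¬ w.p ∣ n → ∀ i ∈ w.I, ∀ g, κ g i = 0 ∧ κ i g = 0)
    (hb : ∀ p : ℕ, p.Prime → p ∣ n → p ≠ p0 → ∃ w : Pl, w.p = p ∧ Triv w.D (sgn κ))
    (hr : ∀ g ∈ Subgroup.zpowers tau, ∀ h ∈ Subgroup.zpowers tau, κ g h = 0) :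
    ∃ θ, Bd ⊤ κ θ ∧ ∀ w : Pl, ¬ w.p ∣ n → ∀ i ∈ w.I, θ i = 0 := by
  have co := fun g h k => (co2_sgn.1 hκ).2 g trivial h trivial k trivial
  have r1 : ∀ w : Pl, ¬ w.p ∣ n → ∀ i ∈ w.I, ∀ g h, κ g (h * i) = κ g h :=
    fun w hw i hi g h => by
      have := co g h i
      rwa [(hI w hw i hi h).1, (hI w hw i hi _).1, zero_add, zero_add] at this
  have hu : ∀ w : Pl, ¬ w.p ∣ n → Triv w.D (sgn κ) := fun w hw => by
    refine a_UNR w w.D w.loc_D 1 _ (hκ.mono le_top)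
      (fun g _ h _ => congrFun (congrFun (sgn_sq κ) g) h) fun g _ h hh i hi => ⟨?_, ?_, ?_⟩
    · have h1 := co g i h
      have h3 := r1 w hw _ (Pl.conj_mem_I (inv_mem hh) hi.1) g h
      rw [show h * (h⁻¹ * i * h⁻¹⁻¹) = i * h by group] at h3
      rw [(hI w hw i hi.1 h).2, (hI w hw i hi.1 g).1, zero_add, add_zero, h3] at h1
      rw [sgn, ← h1, sgn]
    · rw [sgn, r1 w hw i hi.1, sgn]
    · rw [sgn, map_pow, map_neg, map_one]
  have ha : ∀ w : Pl, w.p ≠ p0 → Triv w.D (sgn κ) := fun w hw => by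
    by_cases e : w.p ∣ n
    · obtain ⟨v, hv, ht⟩ := hb w.p w.prime e hw
      obtain ⟨σ, rfl⟩ := a_PL.2.1 v w hv
      have := Triv.smul_place (w := v) hκ le_rfl (Subgroup.mem_top σ) (fun _ _ => trivial)
        (ht.mono inf_le_left)
      rwa [inf_top_eq] at this
    · exact hu w e
  obtain ⟨θ, h1, h3⟩ := a_GTH n κ (by exact_mod_cast h0) (by exact_mod_cast h2) hκ
    (fun w hw => hI w (by exact_mod_cast hw)) (fun p hp _ => by
      obtain ⟨w, rfl⟩ := a_PL.1 p hp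
      refine ⟨w, rfl, ?_⟩
      by_cases e : w.p = p0
      · have := a_RECQ _ {w} hκ.sgnT (fun v hv u _ hu => by
          rw [Finset.coe_singleton, Set.mem_singleton_iff] at hv hu
          rw [hu, hv]) fun v hv => ha v fun e' => by
            obtain ⟨σ, hσ⟩ := a_PL.2.1 v w (e'.trans e.symm)
            exact hv σ trivial (by simp [hσ])
        rw [Finset.prod_singleton, show nvR (sgn κ) = 1 from if_pos
          (Triv.one.congr fun g hg h hh => by rw [sgn, hr g hg h hh]; rfl), one_mul] at this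
        exact (nv_sgn a_CA (hκ.mono le_top)).2.1 this
      · exact ha w e) hr
  exact ⟨θ, h1, fun w hw => h3 w (by exact_mod_cast hw)⟩

/-- coordinates of the points of order two -/
theorem coord : ∃ q : EO → ZMod 2 × ZMod 2, (∀ P, 2 • P = 0 → P = s2 (q P).1 (q P).2) ∧
    ∀ P Q, 2 • P = 0 → 2 • Q = 0 → q (P + Q) = q P + q Q := by
  have : ∀ P : EO, ∃ q : ZMod 2 × ZMod 2, 2 • P = 0 → P = s2 q.1 q.2 := fun P => by
    by_cases e : 2 • P = 0
    · obtain ⟨a, b, e'⟩ := exists_s2 e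
      exact ⟨(a, b), fun _ => e'⟩
    · exact ⟨0, fun e' => absurd e' e⟩
  choose q hq using this
  refine ⟨q, hq, fun P Q hP hQ => ?_⟩
  have := s2_inj (a := (q (P + Q)).1) (b := (q (P + Q)).2) (a' := (q P).1 + (q Q).1)
    (b' := (q P).2 + (q Q).2)
    (by rw [s2_add, ← hq _ hP, ← hq _ hQ, ← hq _ (by rw [smul_add, hP, hQ, add_zero])])
  exact Prod.ext this.1 this.2

/-- a choice of halves -/
theorem half (D : Dat) {c : GQ → EO} (hc : D.SH ⊤ c) : ∃ (f : EO → EO) (P : EO),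
    (∀ Q, 2 • f Q = Q) ∧ f 0 = 0 ∧ f (c tau) = D.cb P tau := by
  classical
  obtain ⟨P, hP⟩ := hc.re 1
  rw [one_mul, inv_one, mul_one] at hP
  obtain ⟨P', hP'⟩ := exists_two P
  choose f hf using exists_two
  by_cases e : c tau = 0
  · refine ⟨Function.update f 0 0, 0, fun Q => ?_, by simp, by simp [e, D.cb_zero]⟩
    by_cases h : Q = 0
    · simp [h]
    · rw [Function.update_of_ne h, hf]
  · refine ⟨Function.update (Function.update f 0 0) (c tau) (D.cb P' tau), P', fun Q => ?_,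
      by simp [Function.update_of_ne (Ne.symm e)], by simp⟩
    by_cases h' : Q = c tau
    · rw [h', Function.update_self, ← D.cb_nsmul, hP', hP, Dat.cb]
    · rw [Function.update_of_ne h']
      by_cases h : Q = 0
      · simp [h]
      · rw [Function.update_of_ne h, hf]

end TLD1

open TLD1

theorem t_LD1 : LD1 := by
  intro D c hc hp
  have hz := SH_mem_ZH hc
  have co := fun g h => hc.co g trivial h trivial
  obtain ⟨q, hq, ha⟩ := coord
  obtain ⟨f, P, f2, f0, ft⟩ := half D hc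
  obtain ⟨b, hb⟩ : ∃ b : GQ → EO, b = fun g => f (c g) := ⟨_, rfl⟩
  have b2 : ∀ g, 2 • b g = c g := fun g => by rw [hb]; exact f2 _
  have bc : ∀ g h, c g = c h → b g = b h := fun g h e => by simp only [hb, e]
  have b0 : ∀ g, c g = 0 → b g = 0 := fun g e => by simp only [hb, e, f0]
  have bs : Sm ⊤ b := hb ▸ hc.sm.comp f
  obtain ⟨i, hi⟩ := hc.tor
  have bi : ∀ g, 2 ^ (i + 1) • b g = 0 := fun g => by rw [pow_succ, mul_smul, b2, hi]
  obtain ⟨K, hK⟩ : ∃ K : GQ → GQ → EO, ∀ g h, K g h = b g + tac D.dl g (b h) - b (g * h) :=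
    ⟨_, fun _ _ => rfl⟩
  have K2 : ∀ g h, 2 • K g h = 0 := fun g h => by
    rw [hK, smul_sub, smul_add, ← map_nsmul, b2, b2, b2, co, sub_self]
  have Ks : Sm2 ⊤ K := by
    have h1 : Sm2 ⊤ fun g h => tac D.dl g (b h) := by
      obtain ⟨N, hN, e⟩ := bs
      obtain ⟨N', hN', e'⟩ := D.exists_ON (i + 1)
      exact ⟨_, hN.inf hN', fun g _ h _ n _ hn =>
        ⟨by simp only [D.tmul, e' n hn.2 _ (bi h)], by simp only [e h trivial n trivial hn.1]⟩⟩
    exact ((bs.fst.comp₂ h1 (· + ·)).comp₂ bs.mul2 (· - ·)).congr fun g _ h _ => hK g h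
  have q0 : q 0 = 0 := by simpa using ha 0 0 (by simp) (by simp)
  have main : ∀ l : ZMod 2 × ZMod 2 →+ ZMod 2, ∃ θ, Bd ⊤ (fun g h => l (q (K g h))) θ ∧
      ∀ w : Pl, ¬ w.p ∣ 30 * D.n → ∀ i ∈ w.I, θ i = 0 := fun l => by
    refine gth (30 * D.n) D.wz.p _ (by have := D.n_pos; omega) ⟨15 * D.n, by ring⟩
      (co2_sgn.2 ⟨Ks.comp fun x => l (q x), fun g _ h _ k _ => ?_⟩) (fun w hw j hj g => ?_)
      (fun p h1 h2 h3 => ?_) fun g hg h hh => ?_
    · rw [← map_add, ← map_add, ← ha _ _ (K2 _ _) (K2 _ _), ← ha _ _ (K2 _ _) (K2 _ _),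
        ← D.tac_two g (K2 h k)]
      simp only [hK, map_add, map_sub, D.tmul, mul_assoc]
      congr 2
      abel
    · have e := hc.unr w hw j ⟨hj, trivial⟩
      constructor
      · rw [hK, b0 j e, bc (g * j) g (by rw [co, e, map_zero, add_zero])]
        simp [q0]
      · rw [hK, b0 j e, bc (j * g) g (by rw [co, e, zero_add, D.tac_good hw hj (ZH_tp hz g)]),
          D.tac_good hw hj ⟨_, bi g⟩]
        simp [q0]
    · obtain ⟨w, hw, c', hc', e⟩ := hp p h1 h2 h3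
      have d2 : ∀ g ∈ w.D, 2 • (b g - c' g) = 0 := fun g hg => by
        rw [smul_sub, b2, e g hg, sub_self]
      refine ⟨w, hw, Bd.triv (θ := fun g => l (q (b g - c' g)))
        ⟨(bs.mono le_top).comp₂ hc'.1 fun x y => l (q (x - y)), fun g hg h hh => ?_⟩⟩
      have e1 : b (g * h) - c' (g * h) = b g - c' g + (b h - c' h) + K g h := by
        rw [← D.tac_two g (d2 h hh), ← neg_eq_of_add_eq_zero_left ((two_nsmul _).symm.trans (K2 g h)),
          hK, hc'.2.1 g hg h hh, map_sub]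
        abel
      simp only
      rw [e1, ha _ _ (by rw [smul_add, d2 g hg, d2 h hh, add_zero]) (K2 g h),
        ha _ _ (d2 g hg) (d2 h hh), map_add, map_add]
    · have e : ∀ g ∈ Subgroup.zpowers tau, b g = D.cb P g := fun g hg => by
        rcases TRECQ.mem_zp a_TAU hg with rfl | rfl
        · rw [b0 1 (ZH_one hz), Dat.cb, tac_one, sub_self]
        · rw [hb, ← ft]
      rw [hK, e g hg, e h hh, e _ (mul_mem hg hh), D.cb_mul, sub_self, q0, map_zero]
  obtain ⟨θ, h1, h2⟩ := main (AddMonoidHom.fst _ _)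
  obtain ⟨η, h3, h4⟩ := main (AddMonoidHom.snd _ _)
  refine ⟨fun g => b g + s2 (θ g) (η g), ⟨bs.comp₂ (h1.1.comp₂ h3.1 s2) (· + ·), fun g _ h _ => ?_,
    fun g hg => absurd trivial hg, i + 1, fun g => ?_⟩, funext fun g => ?_, fun w hw g hg => ?_⟩
  · simp only [h1.2 g trivial h trivial, h3.2 g trivial h trivial, s2_add, AddMonoidHom.coe_fst,
      AddMonoidHom.coe_snd, map_add, D.tac_two g (two_s2 _ _)]
    rw [← hq _ (K2 g h), hK]
    abel
  · rw [smul_add, bi, pow_succ, mul_smul, two_s2, smul_zero, add_zero]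
  · rw [Pi.smul_apply, smul_add, b2, two_s2, add_zero]
  · simp only [b0 g (hc.unr w hw g ⟨hg, trivial⟩), h2 w hw g hg, h4 w hw g hg, s2_zero, add_zero]

end Pool.Agent.P.MP_9c97e9_nt.K2
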