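import Pool.Agent.P.MP_9c97e9_nt.K2.BasL

/-! Normalisation of the half of a relaxed Selmer class. -/

namespace Pool.Agent.P.MP_9c97e9_nt.K2

open MP_8b7eba_nt.R2 KT

namespace TLD2

/-- a normalised unramified half of `c` -/
structure Hf (D : Dat) (c d : GQ → EO) : Prop where
  mem : d ∈ D.ZH ⊤
  two : ∀ g, c g = 2 • d g
  unr : ∀ w : Pl, ¬ w.p ∣ 30 * D.n → ∀ g ∈ w.I, d g = 0
  nz : d D.z = 0

variable {D : Dat} {χ χ' : GQ → ZMod 2}

theorem hc_qz (D : Dat) {m : ℤ} (hm : m ∣ 30) : D.HC (qz m) := by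
  have k : ∀ w : Pl, ¬ w.p ∣ 30 → ∀ g ∈ w.I, qz m g = 0 := fun w hw g hg =>
    qz_I a_CA (fun e => hw (by
      rcases (Nat.prime_iff_prime_int.1 w.prime).dvd_mul.1 e with e | e
      · exact_mod_cast e.trans (by norm_num : (2 : ℤ) ∣ 30)
      · exact_mod_cast e.trans hm)) hg
  exact ⟨isCh_qz m, k _ D.z30 _ D.zI, fun w hw => k w fun e => hw (e.mul_right _)⟩

theorem hc_mul (a : ZMod 2) (h : D.HC χ) : D.HC fun g => a * χ g :=
  ⟨⟨h.1.1.comp fun x => a * x, fun g hg k hk => by simp only [h.1.2 g hg k hk, mul_add]⟩,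
    by simp [h.2.1], fun w hw g hg => by simp [h.2.2 w hw g hg]⟩

theorem hc_add (h : D.HC χ) (h' : D.HC χ') : D.HC fun g => χ g + χ' g :=
  ⟨⟨h.1.1.comp₂ h'.1.1 (· + ·), fun g hg k hk => by
      simp only [h.1.2 g hg k hk, h'.1.2 g hg k hk, add_add_add_comm]⟩,
    by simp [h.2.1, h'.2.1], fun w hw g hg => by simp [h.2.2 w hw g hg, h'.2.2 w hw g hg]⟩

theorem Hf.add {c d : GQ → EO} (h : Hf D c d) (ha : D.HC χ) (hb : D.HC χ') :
    Hf D c (d + fun g => s2 (χ g) (χ' g)) := by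
  refine ⟨add_mem h.mem ?_, fun g => ?_, fun w hw g hg => ?_, ?_⟩
  · have := rs_s2 (D := D) ha.1 hb.1
    rwa [rs_top] at this
  · rw [Pi.add_apply, smul_add, two_s2, add_zero, h.two]
  · rw [Pi.add_apply, h.unr w hw g hg, ha.2.2 w hw g hg, hb.2.2 w hw g hg, s2_zero, add_zero]
  · rw [Pi.add_apply, h.nz, ha.2.1, hb.2.1, s2_zero, add_zero]

theorem one_of_ne {x : ZMod 2} (h : x ≠ 0) : x = 1 := (LA.cases x).resolve_left h

theorem qz_neg {m : ℤ} (h : m < 0) : qz m tau = 1 := one_of_ne fun k => by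
  have := (qz_tau a_TAU h.ne).1 k
  omega

theorem real (D : Dat) (x y : ZMod 2) : ∃ a b, D.HC a ∧ D.HC b ∧ (∀ g ∈ w2.D, b g = 0) ∧
    ∃ R, s2 x y + s2 (a tau) (b tau) = D.cb R tau := by
  have h1 := hc_qz D (m := -1) (by norm_num)
  by_cases h : D.d < 0
  · refine ⟨_, _, hc_mul x h1, hc_mul 0 h1, fun g _ => zero_mul _,
      pE ((0 : ℤ) / 4) + pF ((y.val : ℤ) / 4), ?_⟩
    rw [D.cb_four, ← s2_add, qz_neg (m := -1) (by norm_num), (D.qz_tau.1 h).1]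
    simp [CharTwo.add_self_eq_zero]
  · refine ⟨_, _, hc_mul 0 h1, hc_mul y (hc_qz D (m := -15) (by norm_num)), fun g hg => ?_,
      pE ((x.val : ℤ) / 4) + pF ((0 : ℤ) / 4), ?_⟩
    · rw [qz_D_two a_CA (w := w2) rfl (by norm_num) hg, mul_zero]
    · rw [D.cb_four, ← s2_add, qz_neg (m := -15) (by norm_num), (D.qz_tau.2 h).2]
      simp [CharTwo.add_self_eq_zero]

end TLD2

open TLD2 in
theorem t_LD2 (hLQ2 : LQ2) (hLO1 : LO1) : LD2 := by
  rintro D c c' hc hc' e hu ⟨z, hz, P, hP⟩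
  have e' : ∀ g, c g = 2 • c' g := fun g => congrFun e g
  obtain ⟨Q, hQ⟩ := exists_two (c' D.z)
  have tQ : Tp Q := Tp.of_two (hQ ▸ ZH_tp hc' D.z)
  have h1 : Hf D c (c' + D.cb Q) := by
    refine ⟨add_mem hc' ?_, fun g => ?_, fun w hw g hg => ?_, ?_⟩
    · have := (rs_cb_B (D := D) (H := ⊤) tQ).1
      rwa [rs_top] at this
    · rw [Pi.add_apply, smul_add, ← D.cb_nsmul, D.cb_two (by rw [hQ, ← e', hc.nz]), add_zero, e']
    · rw [Pi.add_apply, hu w hw g hg, Dat.cb, D.tac_good hw hg tQ, sub_self, add_zero]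
    · rw [Pi.add_apply, D.cb_z t_F2X tQ, hQ, add_neg_cancel]
  generalize c' + D.cb Q = c1 at h1
  obtain ⟨P', hP'⟩ := exists_two P
  have k2 : ∀ g ∈ w2.D, 2 • (c1 g - z g - D.cb P' g) = 0 := fun g hg => by
    rw [smul_sub, smul_sub, ← h1.two, ← D.cb_nsmul, hP', hP g hg]
    abel
  have hd : rs w2.D (fun g => c1 g - z g - D.cb P' g) ∈ D.ZH w2.D := by
    refine rs_mem (((h1.mem.1.mono le_top).comp₂ hz.1.1 (· - ·)).comp₂ (D.sm_cb _ P') (· - ·))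
      (fun g hg h hh => ?_) ⟨1, fun g hg => by simpa using k2 g hg⟩
    rw [h1.mem.2.1 g trivial h trivial, hz.1.2.1 g hg h hh, D.cb_mul, map_sub, map_sub]
    abel
  obtain ⟨a, b, -, hb, hab⟩ := ZH_two hd fun g hg => by rw [rs_of_mem hg]; exact k2 g hg
  obtain ⟨u, v, w, huv⟩ := hLQ2 w2 b rfl hb
  have hm := (hLO1 D).1 ⟨sub_mem (sub_mem (rs_mem_of_le h1.mem le_top) hz.1) hd, P',
    fun g hg => by simp only [Pi.sub_apply, rs_of_mem hg]; abel⟩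
  have q1 := hc_qz D (m := -1) (by norm_num)
  have h2 := h1.add (hc_mul 0 q1) (hc_add (hc_add (hc_mul u q1) (hc_mul v (hc_qz D (m := 2)
    (by norm_num)))) (hc_mul w (hc_qz D (m := 5) (by norm_num))))
  have o2 : (c1 + fun g => s2 (0 * qz (-1) g) (u * qz (-1) g + v * qz 2 g + w * qz 5 g)) ∈
      D.CS (w2.D ⊓ KI) := CS_congr (add_mem hz.2 (CS_mono inf_le_left hm.2)) fun g hg => by
    simp only [Pi.add_apply, Pi.sub_apply, hab g hg.1, rs_of_mem hg.1, ← huv g hg.1]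
    rw [add_sub_right_comm, show ∀ x y s : EO, x - (y + (x - y - s)) = s from fun _ _ _ => by abel,
      ← s2_add]
    exact s2_mem.2 (CharTwo.add_self_eq_zero _)
  generalize (c1 + fun g => s2 (0 * qz (-1) g) (u * qz (-1) g + v * qz 2 g + w * qz 5 g)) = c2
    at h2 o2
  obtain ⟨P1, hP1⟩ : ∃ P1, c tau = D.cb P1 tau := by simpa [Dat.cb] using hc.re 1
  obtain ⟨P2, hP2⟩ := exists_two P1
  obtain ⟨x, y, hxy⟩ := exists_s2 (P := c2 tau - D.cb P2 tau) (by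
    rw [smul_sub, ← h2.two, ← D.cb_nsmul, hP2, hP1, sub_self])
  obtain ⟨a', b', ha', hb', h0, R, hR⟩ := real D x y
  have h3 := h2.add ha' hb'
  have r3 : (c2 + fun g => s2 (a' g) (b' g)) tau = D.cb (P2 + R) tau := by
    rw [D.cb_add, ← hR, ← hxy, Pi.add_apply]
    abel
  refine ⟨_, ⟨h3.mem.1, h3.mem.2.1, h3.mem.2.2.1, h3.mem.2.2.2, h3.nz, CS_congr o2 fun g hg => ?_,
    fun w hw g hg => h3.unr w hw g hg.1, fun s => ⟨_, ZH_re h3.mem r3 s⟩⟩, funext h3.two⟩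
  rw [Pi.add_apply, add_sub_cancel_left]
  exact s2_mem.2 (h0 g hg.1)

end Pool.Agent.P.MP_9c97e9_nt.K2
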