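import Pool.Agent.P.MP_9c97e9_nt.K2.BasL
import Pool.Agent.P.MP_9c97e9_nt.KT.TLO3

/-! The quadratic characters at two modulo the Kummer image. -/

namespace Pool.Agent.P.MP_9c97e9_nt.K2

open MP_8b7eba_nt.R2 KT
open MP_8b7eba_nt.R1 (st)
open KT.TLO3 (s2_smul)

namespace TLGD

variable {D : Dat}

theorem comb {χ ψ φ : GQ → ZMod 2} (h : D.Gd χ) (h' : D.Gd ψ) (a b : ZMod 2)
    (e : ∀ g ∈ w2.D, φ g = a * χ g + b * ψ g) : D.Gd φ := by
  obtain ⟨P, hP⟩ := h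
  obtain ⟨Q, hQ⟩ := h'
  refine ⟨a.val • P + b.val • Q, fun g hg => ?_⟩
  rw [D.cb_add, D.cb_nsmul, D.cb_nsmul, hP g hg, hQ g hg, ← s2_smul, ← s2_smul, ← s2_add, e g hg]
  simp

theorem gd_d (D : Dat) : D.Gd (qz (-D.d)) :=
  ⟨_, fun g _ => by simpa using D.cb_four 1 0 g⟩

theorem one4 {u : ℤ} (h : u % 4 = 1) : ∃ β : ZMod 2, ∀ g ∈ w2.D, qz u g = β * qz 5 g := by
  by_cases h8 : u % 8 = 1
  · exact ⟨0, fun g hg => by rw [qz_D_two a_CA rfl h8 hg, zero_mul]⟩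
  · exact ⟨1, fun g hg => by rw [qz_D_five (by omega) hg, one_mul]⟩

theorem three4 {u : ℤ} (h : u % 4 = 3) :
    ∃ β : ZMod 2, ∀ g ∈ w2.D, qz u g = qz (-1) g + β * qz 5 g := by
  obtain ⟨β, e⟩ := one4 (u := -u) (by omega)
  refine ⟨β, fun g hg => ?_⟩
  rw [← e g hg, ← Pi.add_apply (qz (-1)), ← qz_mul (by norm_num) (by omega), neg_one_mul, neg_neg]

theorem two4 {u : ℤ} (h : u % 4 = 2) :
    ∃ α β : ZMod 2, ∀ g ∈ w2.D, qz u g = qz 2 g + α * qz (-1) g + β * qz 5 g := by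
  obtain ⟨v, rfl⟩ : ∃ v, u = 2 * v := ⟨u / 2, by omega⟩
  rw [qz_mul (by norm_num) (by omega)]
  by_cases h4 : v % 4 = 1
  · obtain ⟨β, e⟩ := one4 h4
    exact ⟨0, β, fun g hg => by rw [Pi.add_apply, e g hg]; ring⟩
  · obtain ⟨β, e⟩ := three4 (u := v) (by omega)
    exact ⟨1, β, fun g hg => by rw [Pi.add_apply, e g hg]; ring⟩

theorem sq8 {u v : ℤ} (hu : u % 2 = 1) (h : (u - v) % 8 = 0) : Sq w2.D ((u * v : ℤ) : Om) := by
  have h8 : (u * v) % 8 = 1 := by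
    have : u % 8 = v % 8 := by omega
    rw [Int.mul_emod, ← this]
    have : u % 8 = 1 ∨ u % 8 = 3 ∨ u % 8 = 5 ∨ u % 8 = 7 := by omega
    rcases this with e | e | e | e <;> rw [e] <;> norm_num
  exact ((a_SQ2 w2).2.2.2.2.1 rfl (u * v) (Int.odd_iff.2 (by omega))).1.2 h8

theorem gd5 (hLK : LK) (D : Dat) (h : D.d % 2 = 1) : D.Gd (qz 5) := by
  have h1 := hLK D 1 2 one_ne_zero two_ne_zero (sq8 (by omega) (by omega))
  refine comb h1 h1 1 0 fun g hg => ?_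
  rw [qz_D_five (m := 1 ^ 2 - 9 * D.d * 2 ^ 2) (by omega) hg]
  ring

theorem gd11 (hLK : LK) (D : Dat) (h : D.d % 4 ≠ 1) : D.Gd (qz (1 ^ 2 - 9 * D.d * 1 ^ 2)) := by
  refine hLK D 1 1 one_ne_zero one_ne_zero ?_
  by_cases h2 : D.d % 2 = 0
  · exact sq8 (by omega) (by omega)
  · obtain ⟨u, hu⟩ : ∃ u, 1 ^ 2 - 9 * D.d * 1 ^ 2 = 2 * u := ⟨(1 - 9 * D.d) / 2, by omega⟩
    obtain ⟨x, hx, ex⟩ := sq8 (u := u) (v := u - 8 * D.d) (by omega) (by omega)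
    refine ⟨2 * x, fun g hg => by rw [map_mul, map_ofNat, hx g hg], ?_⟩
    rw [mul_pow, ← ex, hu, show 1 ^ 2 - 25 * D.d * 1 ^ 2 = 2 * (u - 8 * D.d) by omega]
    push_cast
    ring

end TLGD

open TLGD in
theorem t_LGD (hLQ2 : LQ2) (hLK : LK) : LGD := by
  intro D χ hχ
  obtain ⟨a, b, c, e⟩ := hLQ2 w2 χ rfl hχ
  have s4 := st_four D.odd
  have hd := D.hd
  have k : ∀ x : ZMod 2, 2 * x = 0 := by decide
  unfold Dat.s2c
  split_ifs with h1 h2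
  · rw [h1] at hd
    obtain ⟨β, f⟩ := three4 (u := -D.d) (by omega)
    refine ⟨b, comb (gd_d D) (gd5 hLK D (by omega)) a (c - a * β) fun g hg => ?_⟩
    rw [e g hg, f g hg]
    linear_combination k (b * qz 2 g)
  · rw [h2] at hd
    obtain ⟨α, β, f⟩ := two4 (u := 1 ^ 2 - 9 * D.d * 1 ^ 2) (by omega)
    refine ⟨b * α - a, comb (gd11 hLK D (by omega)) (gd5 hLK D (by omega)) b (c - b * β)
      fun g hg => ?_⟩
    rw [e g hg, f g hg]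
    ring
  · have h4 : D.d % 4 = 2 := by
      rcases D.he with h | h | h | h <;> rw [h] at hd h1 h2 <;> omega
    obtain ⟨α, β, f⟩ := two4 (u := -D.d) (by omega)
    obtain ⟨γ, f'⟩ := three4 (u := 1 ^ 2 - 9 * D.d * 1 ^ 2) (by omega)
    refine ⟨b * β + (a - b * α) * γ - c, comb (gd_d D) (gd11 hLK D (by omega)) b (a - b * α)
      fun g hg => ?_⟩
    rw [e g hg, f g hg, f' g hg]
    ring

end Pool.Agent.P.MP_9c97e9_nt.K2
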