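import Pool.Agent.P.MP_9c97e9_nt.K2.BasL
import Pool.Agent.P.MP_9c97e9_nt.KT.TLK5

/-! Local points at two and their Kummer classes. -/

namespace Pool.Agent.P.MP_9c97e9_nt.K2

open MP_8b7eba_nt.R2 KT
open KT.TLK5 (uu_tac)

namespace TLK

theorem act (D : Dat) (g : GQ) (k : ℤ) {P T : EO} {a b c : Om} (s : Split W15 a b c)
    (ha : g a = a) (hb : g b = b) (hc : g c = c) (hT : T + T = 0) (hP : P + P ≠ 0)
    (e : tac D.dl g P = P + T) :
    g (k * D.dl * UU a b c P) = sg a T * (k * D.dl * UU a b c P) := by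
  have h := uu_tac (δ := D.dl) g P ha hb hc
  rw [e, UU_add s hT hP] at h
  rw [map_mul, map_mul, map_intCast, sd_apply D.dl_fix g]
  linear_combination -k * D.dl * h

end TLK

open TLK in
theorem t_LK : LK := by
  intro D a c a0 c0 hs
  by_cases m0 : a ^ 2 - 9 * D.d * c ^ 2 = 0
  · refine ⟨0, fun g _ => ?_⟩
    rw [m0, D.cb_zero, show (0 : ℤ) = 0 ^ 2 by norm_num, qz_sq, Pi.zero_apply, s2_zero]
  obtain ⟨s, hs, es⟩ := hs
  have hd := D.hdl
  have d0 := D.dl_ne
  have c1 : (c : Om) ≠ 0 := Int.cast_ne_zero.2 c0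
  have a1 : (a : Om) ≠ 0 := Int.cast_ne_zero.2 a0
  push_cast at es
  obtain ⟨R, h⟩ := split15.exists_is (x := (a ^ 2 - 9 * D.dl ^ 2 * c ^ 2) / (c * D.dl) ^ 2)
    (η := 2 * a * s / (c * D.dl) ^ 3) (by
    rw [div_pow, mul_pow, ← es, ← hd]
    field_simp
    ring)
  have fR : ∀ g ∈ w2.D, tac D.dl g R = R := fun g hg => by
    have h1 := is_ac g h
    simp only [map_div₀, map_mul, map_sub, map_pow, map_ofNat, map_intCast, hs g hg,
      sd_apply D.dl_fix g] at h1
    rw [tac_apply]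
    rcases sd_cases D.dl g with e | e <;> rw [e] at h1 ⊢
    · exact Is.unique split15 (by simpa using h1) h
    · refine Is.unique split15 ?_ h
      have h2 := h1.neg
      rw [neg_one_zsmul]
      convert h2 using 1
      · push_cast; ring
      · push_cast; ring
  obtain ⟨P, rfl⟩ := exists_half split15 R
  refine ⟨P, fun g hg => ?_⟩
  have hT : D.cb P g + D.cb P g = 0 := by
    rw [← D.cb_add, Dat.cb, fR g hg, sub_self]
  have e : tac D.dl g P = P + D.cb P g := by rw [Dat.cb]; abel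
  have u0 := UU_sq split15 h
  have u9 := UU_sq split15.swap h
  have b0 := act D g c split15 (map_zero g) (by simp [map_ofNat]) (map_ofNat g 16) hT h.ne_zero e
  have b9 := act D g c split15.swap (by simp [map_ofNat]) (map_zero g) (map_ofNat g 16) hT
    h.ne_zero e
  generalize UU (0 : Om) (-9) 16 P = U at u0 b0
  generalize UU (-9 : Om) 0 16 P = V at u9 b9
  have q0 : (c * D.dl * U) ^ 2 = ((a ^ 2 - 9 * D.d * c ^ 2 : ℤ) : Om) := by
    rw [mul_pow, ← u0]; push_cast; rw [← hd]; field_simp; ring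
  have q9 : (c * D.dl * V) ^ 2 = (a : Om) ^ 2 := by
    rw [mul_pow, ← u9]; field_simp; ring
  have c9 : sg (-9 : Om) (D.cb P g) = 1 := by
    have k : g (c * D.dl * V) = c * D.dl * V := by
      rcases sq_eq_sq_iff_eq_or_eq_neg.1 q9 with e1 | e1 <;> rw [e1]
      · exact map_intCast g a
      · rw [map_neg, map_intCast]
    have v0 : c * D.dl * V ≠ 0 := fun e0 => a1 (by
      rw [e0] at q9; exact pow_eq_zero_iff two_ne_zero |>.1 (by rw [← q9]; ring))
    rw [k] at b9
    have := mul_right_cancel₀ v0 (b9.symm.trans (one_mul _).symm)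
    exact_mod_cast this
  have u5 : c * D.dl * U ≠ 0 := LA.ne q0 m0
  by_cases k : D.cb P g = 0
  · rw [k, sg_zero] at b0
    rw [k, (qz_eq_zero q0).2 (by simpa using b0), s2_zero]
  · have k9 : Is (D.cb P g) (-9) 0 := by_contra fun e1 => by simp [sg, k, e1] at c9
    rw [k9.sg_ne (e₂ := 0) (by norm_num)] at b0
    rw [(qz_eq_one q0).2 (fun e1 => u5 (by
      rw [e1] at b0; push_cast at b0; linear_combination b0 / 2))]
    refine k9.unique split15 ?_
    simpa [s2, LC.v1, pE_eq] using T2.t0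

end Pool.Agent.P.MP_9c97e9_nt.K2
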