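import Pool.Agent.P.MP_9c97e9_nt.K2.BasL

/-! Proof of LK35: the Kummer image at three and five. -/

namespace Pool.Agent.P.MP_9c97e9_nt.K2

open MP_8b7eba_nt.R2 KT

namespace TLK35

theorem ep_ne (D : Dat) {p : ℕ} (hp : p.Prime) (h : p ∣ 15) (hn : ¬ p ∣ D.n) :
    (D.ep p : ℚ_[2]) * p - 1 ≠ 0 := by
  have h2 := hp.two_le
  have : (D.ep p * p - 1 : ℤ) ≠ 0 := by
    rcases D.ep_cases hp h hn with e | e <;> rw [e] <;> omega
  exact_mod_cast this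

end TLK35

theorem t_LK35 (hLTU : LTU) (hLS35 : LS35) : LK35 := by
  intro D w hw hn
  refine le_antisymm (fun c hc => ?_) BH_le_LH
  obtain ⟨hZ, P, hP⟩ := hc
  obtain ⟨i, hi⟩ := hZ.2.2.2
  have hp := w.prime
  have h2 : w.p ≠ 2 := fun e => by rw [e] at hw; omega
  obtain ⟨t, ht⟩ := exists_gn h2
  obtain ⟨φ, hφ⟩ := Pl.exists_frob a_FROB w
  obtain ⟨E, F, u, a, S⟩ := hLS35 D w t φ hw hn ht hφ
  obtain ⟨P', S', h1, h4, e⟩ := a_HALF w hw (2 ^ i • P) (fun g hg => by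
    have := hi g
    rw [hP g hg.1, ← D.cb_nsmul, Dat.cb, D.tac_I h2 hn hg] at this
    exact sub_eq_zero.1 this) (i + 2)
  have h1' : ∀ g ∈ w.I, tac D.dl g P' = P' := fun g hg => by rw [D.tac_I h2 hn hg, h1 g hg]
  have hT : Tp (P - 4 • P') := by
    refine Tp.of_pow (k := i) ⟨2, ?_⟩
    rw [smul_sub, e, smul_smul (2 ^ i) 4, show 2 ^ i * 4 = 2 ^ (i + 2) by ring,
      add_sub_cancel_left]
    exact h4
  have hc' : ∀ g ∈ w.D, c g = D.cb (P - 4 • P') g + 4 • D.cb P' g := fun g hg => by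
    rw [hP g hg, D.cb_sub, D.cb_nsmul, sub_add_cancel]
  have hb : Tp (D.cb P' φ) := by
    refine Tp.of_pow (k := 2) ?_
    have : 2 ^ 2 • D.cb P' φ = c φ - D.cb (P - 4 • P') φ := by
      rw [hc' φ hφ.1, add_sub_cancel_left]; rfl
    rw [this]
    exact (ZH_tp hZ φ).sub ((hT.map _).sub hT)
  have hfix : tac D.dl t (D.cb P' φ) = D.cb P' φ := by
    have := h1' _ (Pl.conj_mem_I (w.D.inv_mem hφ.1) ht.1)
    rw [Dat.cb, map_sub, h1' t ht.1, ← D.tmul, show t * φ = φ * (φ⁻¹ * t * φ⁻¹⁻¹) by group,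
      D.tmul, this]
  obtain ⟨x, y, hxy⟩ := (S.tp _).1 hb
  have hy : F (4 * y) = 0 := by
    rw [hxy, map_add, S.IE t ht.1, S.tF, ← add_assoc, add_eq_left] at hfix
    have k1 := ((S.ker (4 * u * y) 0).1 (by rw [hfix, map_zero, add_zero])).1
    have k2 := (S.ker 0 (4 * y)).2 ⟨by simp, by
      rwa [mul_right_comm, norm_mul, S.hu, mul_one] at k1⟩
    rwa [map_zero, zero_add] at k2
  have hne := TLK35.ep_ne D hp hw hn
  set x' : ℚ_[2] := 4 * x / ((D.ep w.p : ℚ_[2]) * w.p - 1) with hx'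
  have h4b : 4 • D.cb P' φ = D.cb (E x') φ := by
    rw [hxy, smul_add, ← map_nsmul, ← map_nsmul, Dat.cb, S.fE, ← map_sub, nsmul_eq_mul,
      nsmul_eq_mul, Nat.cast_ofNat, hy, add_zero]
    congr 1
    rw [hx']
    field_simp
  have hT' : Tp (P - 4 • P' + E x') := hT.add ((S.tp _).2 ⟨x', 0, by simp⟩)
  have hB := rs_cb_B (D := D) (H := w.D) hT'
  have := ZH_D_zero (sub_mem hZ hB.1) (fun g hg => by
    rw [Pi.sub_apply, rs_of_mem hg.1, hc' g hg.1, D.cb_add, sub_eq_zero]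
    congr 1
    rw [Dat.cb, Dat.cb, h1' g hg, S.IE g hg, sub_self, sub_self, smul_zero]) hφ (by
    rw [Pi.sub_apply, rs_of_mem hφ.1, hc' φ hφ.1, D.cb_add, h4b, sub_self])
  rw [sub_eq_zero.1 this]
  exact hB

end Pool.Agent.P.MP_9c97e9_nt.K2
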