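import Pool.Agent.P.MP_9c97e9_nt.K2.BasL

/-! The classical Selmer group inside the relaxed one. -/

namespace Pool.Agent.P.MP_9c97e9_nt.K2

open MP_8b7eba_nt.R2 KT

theorem t_LKE (hLO1 : LO1) : LKE := by
  intro D c
  constructor
  · rintro ⟨⟨sm, co, tor, loc⟩, nz, P, hP⟩
    have hc : c ∈ D.ZH ⊤ := ⟨sm, fun g _ h _ => co g h, fun g hg => absurd trivial hg, tor⟩
    refine ⟨⟨hc.1, hc.2.1, hc.2.2.1, tor, nz, ?_, fun w hw g hg => ?_,
      fun s => ⟨_, ZH_re hc hP s⟩⟩, fun p hp _ => ?_⟩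
    · obtain ⟨Q, hQ⟩ := loc w2
      have h1 : rs w2.D c ∈ D.LH w2.D :=
        ⟨rs_mem_of_le hc le_top, Q, fun g hg => (rs_of_mem hg c).trans (hQ g hg)⟩
      exact CS_congr (CS_mono (H := w2.D ⊓ KI) inf_le_left ((hLO1 D).1 h1).2) fun g hg => by
        rw [rs_of_mem hg.1, sub_self]; exact zero_mem _
    · obtain ⟨Q, hQ⟩ := loc w
      obtain ⟨i, hi⟩ := tor
      refine (a_E1G w).2.2.2.2.2 (fun e => hw ?_) _ i ?_ (hi g)
      · rw [e]
        exact Dvd.dvd.mul_right (by norm_num) _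
      · rw [hQ g (w.I_le_D hg.1)]
        exact D.cb_EG (fun e => hw ((e.trans (by norm_num : 15 ∣ 30)).mul_right _))
          (D.I_dl (fun e => hw (e ▸ Dvd.dvd.mul_right (by norm_num) _))
            (fun e => hw (e.mul_left _)) hg.1) hg.1 Q
    · obtain ⟨w, hw⟩ := a_PL.1 p hp
      exact ⟨w, hw, loc w⟩
  · rintro ⟨h, k⟩
    have co : ∀ g g', c (g * g') = c g + tac D.dl g (c g') := fun g g' => h.co g trivial g' trivial
    refine ⟨⟨h.sm, co, h.tor, fun w => ?_⟩, h.nz, by simpa using h.re 1⟩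
    by_cases hw : w.p ∣ 30 * D.n
    · obtain ⟨w', e, P, hP⟩ := k w.p w.prime hw
      exact TLOC2.LT.of_eq a_CP D.dl_fix co ⟨P, hP⟩ e
    · refine TLOC2.unr a_CP T2 D.hdl h.sm co (fun g => tp_iff.1 (ZH_tp (SH_mem_ZH h) g))
        (fun e => hw ?_) fun g hg => h.unr w hw g ⟨hg, trivial⟩
      by_cases h2 : w.p = 2
      · rw [h2]
        exact Dvd.dvd.mul_right (by norm_num) _
      · rcases (Nat.prime_iff_prime_int.1 w.prime).dvd_or_dvd e with e | e
        · exact Dvd.dvd.mul_right (by exact_mod_cast e) _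
        · exact ((D.dvd_d w.prime h2).1 e).mul_left _

end Pool.Agent.P.MP_9c97e9_nt.K2
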