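import Pool.Agent.P.MP_9c97e9_nt.K2.BasL

/-! The local cohomology at the primes which divide `n`. -/

namespace Pool.Agent.P.MP_9c97e9_nt.K2

open scoped NNReal Matrix
open MP_8b7eba_nt.R2 KT
open Filter Topology Polynomial

namespace TLN

variable {D : Dat} {w : Pl} {t φ g : GQ} {P : EO} {c : GQ → EO}

theorem ne_two (hw : w.p ∣ D.n) : w.p ≠ 2 := fun e => by
  rw [e] at hw
  have := D.n2
  omega

/-- the automorphisms which act as minus one on the points of order four -/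
def Ng (D : Dat) (g : GQ) : Prop := qz D.d g = 1 ∧ qz (-D.d) g = 1

theorem ng_gen (hw : w.p ∣ D.n) (ht : Gn w t) (g : GQ) : Ng D (g * t * g⁻¹) := by
  have h := (D.dvd_d w.prime (ne_two hw)).2 hw
  have k : ∀ m : ℤ, Squarefree m → (w.p : ℤ) ∣ m → qz m (g * t * g⁻¹) = 1 := fun m h1 h2 => by
    rw [qz_conj]
    exact (LA.cases _).resolve_left fun e => (qz_gen a_CA (ne_two hw) ht.1 ht.2 h1).1 e h2
  exact ⟨k _ D.sq_d h, k _ (Int.squarefree_natAbs.1 (by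
    rw [Int.natAbs_neg]; exact Int.squarefree_natAbs.2 D.sq_d)) h.neg_right⟩

theorem ng_norm (h : Ng D g) (v : V2) : ‖D.rd g *ᵥ v - v‖ = 2⁻¹ * ‖v‖ := by
  have h1 : ‖D.rd g *ᵥ v - ![(-1) ^ (qz (-D.d) g).val * v 0, (-1) ^ (qz D.d g).val * v 1]‖ ≤
    4⁻¹ * ‖v‖ := T2.rd_four a_EC D.hdl D.d_ne g v
  have h2 : (![(-1) ^ (qz (-D.d) g).val * v 0, (-1) ^ (qz D.d g).val * v 1] : V2) = -v := by
    rw [h.1, h.2, LC.v1]
    ext i
    fin_cases i <;> simp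
  rw [h2] at h1
  have h3 : ‖(-2 : ℚ_[2]) • v‖ = 2⁻¹ * ‖v‖ := by rw [norm_smul, norm_neg, SelA.two]
  rcases (norm_nonneg v).eq_or_lt with e | e
  · rw [norm_eq_zero.1 e.symm]
    simp
  · have h4 : ‖D.rd g *ᵥ v - -v‖ < ‖(-2 : ℚ_[2]) • v‖ := by rw [h3]; linarith
    rw [show D.rd g *ᵥ v - v = (D.rd g *ᵥ v - -v) + (-2 : ℚ_[2]) • v by module,
      IsUltrametricDist.norm_add_eq_max_of_norm_ne_norm h4.ne, max_eq_right h4.le, h3]

theorem cb_pt (D : Dat) (g : GQ) (v : V2) : D.cb (T2.pt v) g = T2.pt (D.rd g *ᵥ v - v) := by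
  rw [Dat.cb, D.tgal, map_sub]

/-- the fixed torsion points have order two -/
theorem ng_fix (h : Ng D g) (hP : Tp P) (e : D.cb P g = 0) : 2 • P = 0 := by
  obtain ⟨v, rfl⟩ := tp_iff.1 hP
  rw [cb_pt, T2.ker, ng_norm h] at e
  have := (T2.pt_pow (v := v) (k := 1)).2 (by linarith)
  simpa using this

theorem ng_surj (h : Ng D g) (hP : Tp P) : ∃ Q, Tp Q ∧ D.cb Q g = P := by
  obtain ⟨v, rfl⟩ := tp_iff.1 hP
  have h1 : Function.Injective (Matrix.toLin' (D.rd g) - LinearMap.id : V2 →ₗ[ℚ_[2]] V2) :=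
    (injective_iff_map_eq_zero _).2 fun u hu => by
      have h2 := ng_norm h u
      rw [show D.rd g *ᵥ u - u = 0 from hu, norm_zero] at h2
      exact norm_eq_zero.1 (by linarith)
  obtain ⟨u, rfl⟩ := LinearMap.injective_iff_surjective.1 h1 v
  exact ⟨_, tp_iff.2 ⟨u, rfl⟩, cb_pt D g u⟩

/-- reduction to unramified cocycles of order two -/
theorem red (hLTU : LTU) (hw : w.p ∣ D.n) (hc : c ∈ D.ZH w.D) :
    ∃ b ∈ D.BH w.D, (∀ g ∈ w.I, (c - b) g = 0) ∧ ∀ g, 2 • (c - b) g = 0 := by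
  obtain ⟨t, ht⟩ := exists_gn (ne_two hw)
  obtain ⟨Q, tQ, hQ⟩ := ng_surj (by simpa using ng_gen hw ht 1 : Ng D t) (ZH_tp hc t)
  have hb : rs w.D (D.cb Q) ∈ D.BH w.D := rs_cb_B tQ
  have h0 := sub_mem hc hb.1
  have h1 : (c - rs w.D (D.cb Q)) t = 0 := by
    rw [Pi.sub_apply, rs_of_mem ht.1.1, hQ, sub_self]
  have h2 := (hLTU D w t (ne_two hw) ht _ h0).1 h1
  refine ⟨_, hb, h2, fun g => ?_⟩
  by_cases hg : g ∈ w.D
  · have h3 := ZH_conj h0 hg ht.1.1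
    rw [h2 _ (Pl.conj_mem_I hg ht.1), h1, map_zero, zero_sub, eq_comm, neg_eq_zero] at h3
    exact ng_fix (ng_gen hw ht g) (ZH_tp h0 g) h3
  · rw [h0.2.2.1 g hg, smul_zero]

/-- an unramified cocycle which comes from a point is trivial -/
theorem triv (hLTU : LTU) (hw : w.p ∣ D.n) (hc : c ∈ D.LH w.D) (h : ∀ g ∈ w.I, c g = 0)
    (hg : g ∈ w.D) : c g = 0 := by
  obtain ⟨t, ht⟩ := exists_gn (ne_two hw)
  obtain ⟨Q, hQ, e⟩ := LH_half hc
  obtain ⟨b, ⟨-, S, tS, hS⟩, -, h2⟩ := red hLTU hw hQ.1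
  have k : ∀ g ∈ w.D, c g = D.cb (2 • S) g := fun g hg => by
    have h3 := h2 g
    rw [Pi.sub_apply, smul_sub, sub_eq_zero, hS g hg] at h3
    rw [D.cb_nsmul, ← h3, e, Pi.smul_apply]
  rw [k g hg]
  exact D.cb_two (ng_fix (by simpa using ng_gen hw ht 1 : Ng D t) (tS.nsmul 2)
    ((k t ht.1.1).symm.trans (h t ht.1))) g

/-- the unramified cocycles of order two -/
noncomputable def uf (w : Pl) (χ : GQ → ZMod 2) : ZMod 2 × ZMod 2 →+ GQ → EO :=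
  AddMonoidHom.mk' (fun q => rs w.D fun g => s2 (q.1 * χ g) (q.2 * χ g)) fun q r => by
    rw [← map_add]
    congr 1
    ext g
    simp only [Prod.fst_add, Prod.snd_add, add_mul, s2_add, Pi.add_apply]

theorem uf_apply (χ : GQ → ZMod 2) (q : ZMod 2 × ZMod 2) (hg : g ∈ w.D) :
    uf w χ q g = s2 (q.1 * χ g) (q.2 * χ g) :=
  rs_of_mem hg fun g => s2 (q.1 * χ g) (q.2 * χ g)

theorem uf_mem {χ : GQ → ZMod 2} (h : IsCh w.D χ) (q : ZMod 2 × ZMod 2) :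
    uf w χ q ∈ D.ZH w.D :=
  have k : ∀ a : ZMod 2, IsCh w.D fun g => a * χ g := fun a =>
    ⟨h.1.comp (a * ·), fun g hg g' hg' => by simp only [h.2 g hg g' hg', mul_add]⟩
  rs_s2 (k _) (k _)

end TLN

open TLN in
theorem t_LN (hLTU : LTU) : LN := by
  intro D w hw
  refine ⟨?_, fun c hc => ?_⟩
  swap
  · obtain ⟨b, hb, -, h⟩ := red hLTU hw hc
    have e : 2 • c = 2 • b := by
      rw [← sub_eq_zero, ← smul_sub]
      exact funext h
    rw [e]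
    exact nsmul_mem (BH_le_LH hb) 2
  obtain ⟨χ, h1, h2, h3⟩ : ∃ χ : GQ → ZMod 2, IsCh w.D χ ∧ (∀ g ∈ w.I, χ g = 0) ∧
    ∀ (f : ℕ) φ, w.IsFrob f φ → χ φ = f := (a_UCH w 1).1
  obtain ⟨f, φ, -, -, hφ, hf, -⟩ := a_FROB w w.D w.loc_D
  obtain rfl := hf rfl
  have h4 : χ φ = 1 := by simpa using h3 1 φ hφ
  have hI : ∀ q, ∀ g ∈ w.I, uf w χ q g = 0 := fun q g hg => by
    rw [uf_apply χ q hg.1, h2 g hg, mul_zero, mul_zero, s2_zero]
  have hs : ∀ c ∈ D.ZH w.D, ∃ q, c - uf w χ q ∈ D.LH w.D := fun c hc => by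
    obtain ⟨b, hb, k1, k2⟩ := red hLTU hw hc
    obtain ⟨x, y, e⟩ := exists_s2 (k2 φ)
    have k3 := ZH_D_zero (sub_mem (sub_mem hc hb.1) (uf_mem h1 (x, y)))
      (fun g hg => by rw [Pi.sub_apply, k1 g hg, hI _ g hg, sub_zero]) hφ
      (by rw [Pi.sub_apply, e, uf_apply χ _ hφ.1, h4, mul_one, mul_one, sub_self])
    refine ⟨(x, y), ?_⟩
    rw [sub_right_comm, sub_eq_zero] at k3
    exact k3 ▸ BH_le_LH hb
  have hk : (D.LH w.D).comap (uf w χ) = ⊥ := eq_bot_iff.2 fun q hq => by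
    have k := triv hLTU hw hq (hI q) hφ.1
    rw [uf_apply χ _ hφ.1, h4, mul_one, mul_one, s2_eq_zero] at k
    exact Prod.ext k.1 k.2
  have hle : D.LH w.D ≤ D.ZH w.D := fun _ h => h.1
  have hsup : D.ZH w.D = D.LH w.D ⊔ (uf w χ).range := by
    refine le_antisymm (fun c hc => ?_) (sup_le hle ?_)
    · obtain ⟨q, hq⟩ := hs c hc
      simpa using AddSubgroup.add_mem_sup hq (AddMonoidHom.mem_range (f := uf w χ).2 ⟨q, rfl⟩)
    · rintro _ ⟨q, rfl⟩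
      exact uf_mem h1 q
  refine ⟨hle, ?_, _, uf_mem h1 (1, 0), _, uf_mem h1 (0, 1), fun c hc => ?_⟩
  · rw [hsup, AddSubgroup.relIndex_sup_left, ← AddSubgroup.index_comap, hk, AddSubgroup.index_bot]
    simp
  · obtain ⟨q, hq⟩ := hs c hc
    have k : ∀ q : ZMod 2 × ZMod 2, q = (q.1.val : ℤ) • (1, 0) + (q.2.val : ℤ) • (0, 1) := by decide
    refine ⟨q.1.val, q.2.val, ?_⟩
    rwa [sub_sub, ← map_zsmul, ← map_zsmul, ← map_add, ← k]

end Pool.Agent.P.MP_9c97e9_nt.K2
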