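import Pool.Agent.P.MP_9c97e9_nt.K2.BasL

/-! Cocycles which are ordinary at two. -/

namespace Pool.Agent.P.MP_9c97e9_nt.K2

open scoped NNReal Matrix
open MP_8b7eba_nt.R2 KT

namespace TLO1

variable {D : Dat} {c : GQ → EO}

/-- normalisation at one element -/
theorem adj (hc : c ∈ D.LH w2.D) {s : GQ} (hs : s ∈ w2.D) (hb : D.rd s 1 1 - 1 ≠ 0) :
    ∃ T c', Tp T ∧ c' ∈ D.ZH w2.D ∧ (∀ g ∈ w2.D, c' g = c g - D.cb T g) ∧ c' s ∈ EG w2 ∧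
      ∀ g ∈ w2.I, g D.dl = D.dl → c' g ∈ EG w2 := by
  obtain ⟨x, y, e⟩ := tp_iff'.1 (ZH_tp hc.1 s)
  have ht := tp_pF (y / (D.rd s 1 1 - 1))
  refine ⟨_, _, ht, sub_mem hc.1 (rs_cb_B ht).1, fun g hg => by rw [Pi.sub_apply, rs_of_mem hg],
    ?_, fun g hg hd => ?_⟩
  · have := D.cb_pair hs 0 (y / (D.rd s 1 1 - 1))
    rw [map_zero, zero_add, mul_div_cancel₀ _ hb] at this
    rw [Pi.sub_apply, rs_of_mem hs, e, this, add_sub_add_right_eq_sub]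
    exact sub_mem (pE_mem _) (pE_mem _)
  · obtain ⟨-, P, hP⟩ := hc
    rw [Pi.sub_apply, rs_of_mem hg.1, hP g hg.1]
    exact sub_mem (D.cb_EG2 hd hg _) (D.cb_EG2 hd hg _)

theorem two_mem (hc : c ∈ D.LH w2.D) : 2 • c ∈ D.CS w2.D := by
  by_cases hI : ∀ g ∈ w2.I, g D.dl = D.dl
  · obtain ⟨T, c', h1, h2, h3, h4, h5⟩ := adj hc D.fr.1 fun e => by
      have := (t_F2X D).1
      rw [e, norm_zero] at this
      split_ifs at this <;> norm_num at this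
    exact nsmul_mem (show c ∈ D.CS w2.D from ⟨T, h1, fun g hg => h3 g hg ▸ ZH_D h2 (EG w2)
      (fun g hg P hP => tac_EG D hg hP) (fun g hg => h5 g hg (hI g hg)) D.fr h4 g⟩) 2
  push Not at hI
  obtain ⟨s, hs, hd⟩ := hI
  replace hd := sd_eq_neg.2 hd
  obtain ⟨T, c', h1, h2, h3, h4, h5⟩ := adj hc hs.1 (by rw [D.rd_I2 hs, hd]; norm_num)
  refine ⟨2 • T, h1.nsmul 2, fun g hg => ?_⟩
  have hi := Pl.conj_mem_I hg hs
  have he : sd D.dl (g * s * g⁻¹) = -1 := by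
    rw [sd_mul D.fix_dl, sd_mul D.fix_dl, sd_inv, mul_right_comm, sd_sq, one_mul, hd]
  have h6 : c' (g * s * g⁻¹) ∈ EG w2 := by
    have hj := mul_mem (inv_mem hs) hi
    rw [← mul_inv_cancel_left s (g * s * g⁻¹), h2.2.1 s hs.1 _ hj.1]
    exact add_mem h4 (tac_EG D hs.1 (h5 _ hj (sd_eq_one.1 (by
      rw [sd_mul D.fix_dl, sd_inv, hd, he]; norm_num))))
  rw [ZH_conj h2 hg hs.1] at h6
  have h7 := sub_mem (tac_EG D hg h4) h6
  obtain ⟨x, y, e⟩ := tp_iff'.1 (ZH_tp h2 g)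
  rw [sub_sub_cancel, e, D.cb_pair hi.1, pEF_mem, D.rd_I2 hi, he] at h7
  rw [Pi.smul_apply, D.cb_nsmul, ← smul_sub, ← h3 g hg, e, smul_add, ← map_nsmul, ← map_nsmul,
    pEF_mem, ← norm_neg]
  exact le_of_eq_of_le (congrArg _ (by rw [nsmul_eq_mul]; push_cast; ring)) h7

theorem exists_norm (D : Dat) : ∃ g ∈ w2.D, ‖D.rd g 1 1 - 1‖ = (D.nn : ℝ)⁻¹ := by
  obtain ⟨g, hg, e⟩ := D.exists_m2
  obtain ⟨h1, h2, -⟩ := D.nn_norm
  have h3 := D.near_D hg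
  rw [e, LC.v1, Nat.cast_one, mul_one] at h3
  have h4 : ‖D.rd g 1 1 - (1 + D.nn)‖ < ‖(D.nn : ℚ_[2])‖ := by
    rw [mul_inv, ← h1] at h3
    linarith
  refine ⟨g, hg, ?_⟩
  rw [show D.rd g 1 1 - 1 = D.rd g 1 1 - (1 + D.nn) + D.nn by ring,
    IsUltrametricDist.norm_add_eq_max_of_norm_ne_norm h4.ne, max_eq_right h4.le, h1]

end TLO1

open TLO1 in
theorem t_LO1 : LO1 := fun D => by
  refine ⟨fun c hc => ⟨hc.1, ?_⟩, fun c hc hB => ?_⟩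
  · obtain ⟨P, h1, h2⟩ := LH_half hc
    exact h2 ▸ two_mem h1
  · obtain ⟨-, P, tP, hP⟩ := hB
    obtain ⟨x, y, rfl⟩ := tp_iff'.1 tP
    obtain ⟨s, hs, h1⟩ := exists_norm D
    have h4 := hc.2 s
    have h3 : (0 : ℝ) < D.nn := by
      exact_mod_cast Nat.pos_of_ne_zero fun e => D.nn_norm.2.2 (by simp [e])
    rw [hP _ hs, D.cb_pair hs, pEF_mem, norm_mul, h1, inv_mul_le_iff₀ h3, mul_one] at h4
    have hv := rs_cb_B (D := D) (H := w2.D) (tp_pE (x / 2))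
    refine ⟨_, ⟨hv.1, fun g => ?_⟩, ZH_ext hc.1 (nsmul_mem hv.1 2) fun g hg => ?_⟩
    · by_cases hg : g ∈ w2.D
      · rw [rs_of_mem hg]
        exact sub_mem (tac_EG D hg (pE_mem _)) (pE_mem _)
      · rw [rs_of_not hg]; exact zero_mem _
    · have h6 : D.cb (pF y) g = 0 := by rw [Dat.cb, D.tac_nn hg h4, sub_self]
      rw [hP g hg, D.cb_add, h6, add_zero, Pi.smul_apply, rs_of_mem hg, ← D.cb_nsmul, ← map_nsmul,
        nsmul_eq_mul]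
      congr 2
      push_cast
      ring

end Pool.Agent.P.MP_9c97e9_nt.K2
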