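import Pool.Agent.P.MP_9c97e9_nt.K2.BasL

/-! Ordinary cocycles at two modulo the Kummer image form a cyclic group. -/

namespace Pool.Agent.P.MP_9c97e9_nt.K2

open scoped NNReal Matrix
open MP_8b7eba_nt.R2 KT
open Filter Topology Polynomial

namespace TLO3

variable {D : Dat}

theorem norm_le {t : ℚ_[2]} (h : ∀ g ∈ w2.D, ‖(D.rd g 1 1 - 1) * t‖ ≤ 2) :
    ‖2 * t‖ ≤ D.nn := by
  obtain ⟨g, hg, e⟩ := D.exists_m2
  obtain ⟨h1, -, h3⟩ := D.nn_norm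
  have h4 : (0 : ℝ) < D.nn := by exact_mod_cast Nat.pos_of_ne_zero fun e => h3 (by simp [e])
  have h5 := D.near_D hg
  rw [e, LC.v1, Nat.cast_one, mul_one] at h5
  have h6 := Padic.nonarchimedean ((D.rd g 1 1 - 1) * t)
    (-((D.rd g 1 1 - (1 + (D.nn : ℚ_[2]))) * t))
  rw [show (D.rd g 1 1 - 1) * t + -((D.rd g 1 1 - (1 + D.nn)) * t) = D.nn * t by ring, norm_mul,
    h1, norm_neg, le_max_iff] at h6
  rw [norm_mul, SelA.two]
  have h7 := norm_nonneg t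
  rcases h6 with k | k
  · have := k.trans (h g hg)
    rw [inv_mul_le_iff₀ h4] at this
    linarith
  · rw [norm_mul] at k
    have := k.trans (mul_le_mul_of_nonneg_right h5 h7)
    rw [mul_inv, mul_comm (2⁻¹ : ℝ), mul_assoc, mul_le_mul_iff_right₀ (inv_pos.2 h4)] at this
    linarith

theorem two_tors (hLO1 : LO1) (hLGD : LGD) {x : GQ → EO} (hx : x ∈ D.ZS w2.D)
    (h2 : 2 • x ∈ D.LH w2.D) :
    ∃ b : ZMod 2, ∃ P, ∀ g ∈ w2.D, x g = D.cb P g + s2 (b * qz D.s2c g) 0 := by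
  obtain ⟨P, m, e⟩ := LH_half h2
  obtain ⟨a, b, ha, hb, q⟩ := ZH_two (sub_mem hx.1 m.1) fun g _ => by
    rw [← Pi.smul_apply, smul_sub, ← e, sub_self, Pi.zero_apply]
  have q' : ∀ g ∈ w2.D, x g - D.cb P g = s2 (a g) (b g) := fun g hg => by
    rw [← q g hg, Pi.sub_apply, rs_of_mem hg]
  obtain ⟨-, R, tR, hR⟩ := sub_mem hx ((hLO1 D).1 m)
  obtain ⟨u, t, rfl⟩ := tp_iff'.1 tR
  have h3 : ‖2 * t‖ ≤ D.nn := norm_le fun g hg => by
    have h := hR g hg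
    rw [q g hg, s2_eq, D.cb_pair hg, add_sub_add_comm, ← map_sub, ← map_sub, pEF_mem] at h
    have h' : ‖((b g).val / 2 : ℚ_[2])‖ ≤ 2 := by
      rcases LA.cases (b g) with k | k <;> rw [k]
      · simp
      · rw [LC.v1, Nat.cast_one, LC.half, norm_one, mul_one]
    have := us h' (h.trans one_le_two)
    rwa [sub_sub_cancel] at this
  obtain ⟨a', b', ha', -, r⟩ := ZH_two (rs_cb_B (D := D) (H := w2.D) (tp_pF t)).1 fun g hg => by
    rw [rs_of_mem hg, ← D.cb_nsmul, ← map_nsmul, nsmul_eq_mul, Nat.cast_ofNat, Dat.cb,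
      D.tac_nn hg h3, sub_self]
  have r' : ∀ g ∈ w2.D, D.cb (pF t) g = s2 (a' g) (b' g) := fun g hg => by
    rw [← r g hg, rs_of_mem hg]
  have k : ∀ x y : ZMod 2, x + y = 0 → x = y := by decide
  have z : ∀ g ∈ w2.D, b g = b' g := fun g hg => by
    have h := hR g hg
    have h' : D.cb (pE u) g ∈ EG w2 := sub_mem (tac_EG D hg (pE_mem u)) (pE_mem u)
    rw [q g hg, D.cb_add, r' g hg] at h
    have h4 := add_mem h h'
    rw [show ∀ A B C : EO, A - (B + C) + B = A + C - 2 • C from fun A B C => by abel, two_s2,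
      sub_zero, ← s2_add] at h4
    exact k _ _ (s2_mem.1 h4)
  obtain ⟨β, Q, hQ⟩ := hLGD D (fun g => a g + a' g)
    ⟨ha.1.comp₂ ha'.1 (· + ·), fun g hg k hk => by
      simp only [ha.2 g hg k hk, ha'.2 g hg k hk]; ring⟩
  refine ⟨β, P + Q + pF t, fun g hg => ?_⟩
  have k' : ∀ x y z : ZMod 2, x = x + y + z + y + z := by decide
  rw [D.cb_add, D.cb_add, hQ g hg, r' g hg, add_assoc (D.cb P g), add_assoc (D.cb P g), ← s2_add,
    ← s2_add, ← k', zero_add, add_zero, ← z g hg, ← q' g hg, add_sub_cancel]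

end TLO3

open TLO3 in
theorem t_LO3 (hLCY : LCY) (hLO1 : LO1) (hLGD : LGD) (hLYY : LYY) : LO3 := by
  intro D
  obtain ⟨y, hy, y2, yn⟩ := hLYY D
  obtain ⟨o2, o3⟩ := hLO1 D
  have hs : rs w2.D (fun g => s2 (qz D.s2c g) 0) ∈ D.ZH w2.D :=
    rs_s2 (b := fun _ => 0) (isCh_qz _) ⟨Sm.const 0, by simp⟩
  obtain ⟨j, j1, j2⟩ : ∃ j : ℕ, D.nn = 2 ^ (j + 1) ∧ D.nn / 2 = 2 ^ j := by
    rcases D.nn_cases with ⟨-, b, -⟩ | ⟨-, b, -⟩ <;> rw [b]
    exacts [⟨1, rfl, rfl⟩, ⟨0, rfl, rfl⟩]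
  rw [j1]
  refine (hLCY _ _ _).2 (rs w2.D fun g => s2 (qz D.s2c g) 0) y j o2 (fun x hx => ?_)
    (ZE_le_ZS hy) (fun x hx h2 => ?_) (fun x hx h => ?_) ?_ ?_
  · obtain ⟨i, hi⟩ := hx.1.2.2.2
    exact ⟨i, by rw [show 2 ^ i • x = 0 from funext hi]; exact zero_mem _⟩
  · obtain ⟨b, P, e⟩ := two_tors hLO1 hLGD hx h2
    rcases LA.cases b with rfl | rfl
    · exact Or.inl ⟨hx.1, P, fun g hg => by simpa [s2_zero] using e g hg⟩
    · exact Or.inr ⟨sub_mem hx.1 hs, P, fun g hg => by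
        rw [Pi.sub_apply, rs_of_mem hg, e g hg, one_mul, add_sub_cancel_right]⟩
  · obtain ⟨P, m, e⟩ := LH_half h
    obtain ⟨z, hz, hb⟩ := ZS_split (add_mem hx (o2 m))
    have e' : y - 2 • z = 2 • (x + rs w2.D (D.cb P) - z) := by
      rw [smul_sub, smul_add, ← e]; abel
    obtain ⟨z', hz', q⟩ := o3 _ (sub_mem hy (nsmul_mem hz 2)) (e' ▸ nsmul_mem hb 2)
    exact yn _ (add_mem hz hz') (by rw [smul_add, ← q]; abel)
  · rw [ZH_ext (nsmul_mem hy.1 (2 ^ j)) hs fun g hg => by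
      rw [Pi.smul_apply, rs_of_mem hg, ← j2, y2 g hg], sub_self]
    exact zero_mem _
  · rw [ZH_ext (nsmul_mem hs 2) (zero_mem _) fun g hg => by
      rw [Pi.smul_apply, rs_of_mem hg, two_s2, Pi.zero_apply]]
    exact zero_mem _

end Pool.Agent.P.MP_9c97e9_nt.K2
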