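import Pool.Agent.P.MP_9c97e9_nt.K2.BasL
import Pool.Agent.P.MP_9c97e9_nt.KT.TLD1

/-! Proof of LOB. -/

namespace Pool.Agent.P.MP_9c97e9_nt.K2

open MP_8b7eba_nt.R2 KT
open KT.TLD1 (coord)

namespace TLOB

variable {D : Dat} {H : Subgroup GQ} {c b t : GQ → EO} {S : EO} {l : EO → ZMod 2} {g h : GQ}

/-- the coboundary of a cochain -/
noncomputable def db (D : Dat) (b : GQ → EO) (g h : GQ) : EO :=
  b g + tac D.dl g (b h) - b (g * h)

/-- functions which are additive on the points of order two -/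
def Ad (l : EO → ZMod 2) : Prop := ∀ P Q, 2 • P = 0 → 2 • Q = 0 → l (P + Q) = l P + l Q

/-- functions whose kernel on the points of order two is the line through `S` -/
def Kr (l : EO → ZMod 2) (S : EO) : Prop := ∀ P, 2 • P = 0 → (l P = 0 ↔ P = 0 ∨ P = S)

theorem neg2 {P : EO} (h : 2 • P = 0) : -P = P :=
  neg_eq_of_add_eq_zero_left ((two_nsmul _).symm.trans h)

theorem add2 {P Q : EO} (h : 2 • P = 0) (h' : 2 • Q = 0) : 2 • (P + Q) = 0 := by
  rw [smul_add, h, h', add_zero]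

theorem db2 (hc : c ∈ D.ZH H) (h2 : ∀ g ∈ H, 2 • b g = c g) (hg : g ∈ H) (hh : h ∈ H) :
    2 • db D b g h = 0 := by
  rw [db, smul_sub, smul_add, ← map_nsmul, h2 g hg, h2 h hh, h2 _ (mul_mem hg hh),
    hc.2.1 g hg h hh, sub_self]

theorem db_add (hl : Ad l) (hc : c ∈ D.ZH H) (h2 : ∀ g ∈ H, 2 • b g = c g)
    (ht : ∀ g ∈ H, 2 • t g = 0) (hg : g ∈ H) (hh : h ∈ H) :
    l (db D (b + t) g h) = l (db D b g h) + l (t g) + l (t h) + l (t (g * h)) := by
  have e : db D (b + t) g h = db D b g h + t g + t h + -t (g * h) := by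
    simp only [db, Pi.add_apply, map_add, D.tac_two g (ht h hh)]
    abel
  have k := db2 hc h2 hg hh
  rw [e, neg2 (ht _ (mul_mem hg hh)),
    hl _ _ (add2 (add2 k (ht g hg)) (ht h hh)) (ht _ (mul_mem hg hh)),
    hl _ _ (add2 k (ht g hg)) (ht h hh), hl _ _ k (ht g hg)]

theorem co2 (hl : Ad l) (hc : c ∈ D.ZH H) (bs : Sm H b) (h2 : ∀ g ∈ H, 2 • b g = c g) :
    Co2 H (sgn fun g h => l (db D b g h)) := by
  obtain ⟨i, hi⟩ := hc.2.2.2
  have bi : ∀ g ∈ H, 2 ^ (i + 1) • b g = 0 := fun g hg => by rw [pow_succ, mul_smul, h2 g hg, hi]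
  have h1 : Sm2 H fun g h => tac D.dl g (b h) := by
    obtain ⟨N, hN, e⟩ := bs
    obtain ⟨N', hN', e'⟩ := D.exists_ON (i + 1)
    exact ⟨_, hN.inf hN', fun g _ h hh n hn' hn =>
      ⟨by simp only [D.tmul, e' n hn.2 _ (bi h hh)], by simp only [e h hh n hn' hn.1]⟩⟩
  refine co2_sgn.2 ⟨((bs.fst.comp₂ h1 (· + ·)).comp₂ bs.mul2 (· - ·)).comp l,
    fun g hg h hh k hk => ?_⟩
  rw [← hl _ _ (db2 hc h2 hh hk) (db2 hc h2 hg (mul_mem hh hk)),
    ← hl _ _ (db2 hc h2 (mul_mem hg hh) hk) (db2 hc h2 hg hh), ← D.tac_two g (db2 hc h2 hh hk)]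
  simp only [db, map_add, map_sub, D.tmul, mul_assoc]
  congr 1
  abel

theorem hf_iff (hS : 2 • S = 0) (hk : Kr l S) (hc : c ∈ D.ZH H) : D.Hf H S c b ↔
    Sm H b ∧ (∀ g ∈ H, 2 • b g = c g) ∧ ∀ g ∈ H, ∀ h ∈ H, l (db D b g h) = 0 := by
  have k : ∀ g h, (b (g * h) = b g + tac D.dl g (b h) ∨ b (g * h) = b g + tac D.dl g (b h) + S) ↔
      (db D b g h = 0 ∨ db D b g h = S) := fun g h =>
    or_congr (by rw [db, sub_eq_zero, eq_comm]) ⟨fun e => by
      rw [db, e, sub_add_cancel_left, neg2 hS], fun e => by rw [← neg2 hS, ← e, db]; abel⟩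
  exact ⟨fun a => ⟨a.sm, a.two, fun g hg h hh =>
      (hk _ (db2 hc a.two hg hh)).2 ((k g h).1 (a.co g hg h hh))⟩,
    fun a => ⟨a.1, a.2.1, fun g hg h hh =>
      (k g h).2 ((hk _ (db2 hc a.2.1 hg hh)).1 (a.2.2 g hg h hh))⟩⟩

/-- coordinates of the points of order two -/
theorem crd : ∃ q : EO → ZMod 2 × ZMod 2, (∀ P, 2 • P = 0 → P = s2 (q P).1 (q P).2) ∧
    Ad (fun P => (q P).1) ∧ Ad (fun P => (q P).2) ∧ (∀ a b, q (s2 a b) = (a, b)) ∧
    Kr (fun P => (q P).2) (pE 2⁻¹) ∧ Kr (fun P => (q P).1) (pF 2⁻¹) := by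
  obtain ⟨q, hq, ha⟩ := coord
  have e : ∀ a b, q (s2 a b) = (a, b) := fun a b =>
    Prod.ext (s2_inj (hq _ (two_s2 a b))).1.symm (s2_inj (hq _ (two_s2 a b))).2.symm
  have e1 : s2 1 0 = pE 2⁻¹ := by simp [s2, LC.v1]
  have e2 : s2 0 1 = pF 2⁻¹ := by simp [s2, LC.v1]
  refine ⟨q, hq, fun P Q a b => congrArg Prod.fst (ha P Q a b),
    fun P Q a b => congrArg Prod.snd (ha P Q a b), e, fun P hP => ?_, fun P hP => ?_⟩
  all_goals
    obtain ⟨x, y, rfl⟩ := exists_s2 hP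
    simp only [← e1, ← e2, e, s2_eq_zero]
  · refine ⟨fun k => (LA.cases x).imp (fun j => ⟨j, k⟩) fun j => by rw [j, k], fun k => ?_⟩
    exact k.elim And.right fun j => (s2_inj j).2
  · refine ⟨fun k => (LA.cases y).imp (fun j => ⟨k, j⟩) fun j => by rw [j, k], fun k => ?_⟩
    exact k.elim And.left fun j => (s2_inj j).1

theorem lift {w : Pl} {T : ZMod 2 → EO} (hS : 2 • S = 0) (hl : Ad l) (hk : Kr l S)
    (t2 : ∀ a, 2 • T a = 0) (lt : ∀ a, l (T a) = a) (hc : c ∈ D.ZH w.D) (bs : Sm w.D b)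
    (h2 : ∀ g ∈ w.D, 2 • b g = c g) (ht : Triv w.D (sgn fun g h => l (db D b g h))) :
    ∃ b, D.Hf w.D S c b := by
  obtain ⟨θ, h3, h4⟩ := exists_bd a_GAL w.closed_D ht
  refine ⟨b + fun g => T (θ g), (hf_iff hS hk hc).2 ⟨bs.comp₂ h3 fun x y => x + T y,
    fun g hg => by rw [Pi.add_apply, smul_add, h2 g hg, t2, add_zero], fun g hg h hh => ?_⟩⟩
  rw [db_add hl hc h2 (fun g _ => t2 _) hg hh, lt, lt, lt, h4 g hg h hh]
  beta_reduce
  generalize l (db D b g h) = x, θ g = y, θ h = z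
  revert x y z
  decide

theorem idx {w : Pl} {T : ZMod 2 → EO} {c' : GQ → EO} (hS : 2 • S = 0) (hl : Ad l) (hk : Kr l S)
    (t2 : ∀ a, 2 • T a = 0) (lt : ∀ a, l (T a) = a) (hc : c ∈ D.ZH w.D) (hc' : c' ∈ D.ZH w.D)
    (n : ¬ ∃ b, D.Hf w.D S c b) (n' : ¬ ∃ b, D.Hf w.D S c' b) : ∃ b, D.Hf w.D S (c - c') b := by
  choose f hf using exists_two
  have s := hc.1.comp f
  have s' := hc'.1.comp f
  have k := co2 hl hc s fun g _ => hf _
  have k' := co2 hl hc' s' fun g _ => hf _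
  have v := (nv_sgn a_CA k).1.resolve_left fun e =>
    n (lift hS hl hk t2 lt hc s (fun g _ => hf _) ((nv_sgn a_CA k).2.1 e))
  have v' := (nv_sgn a_CA k').1.resolve_left fun e =>
    n' (lift hS hl hk t2 lt hc' s' (fun g _ => hf _) ((nv_sgn a_CA k').2.1 e))
  have m := (a_INV w _ w.loc_D).mul _ _ k.sgnT k'.sgnT
  have k2 := k.mul k'
  rw [v, v', neg_mul_neg, one_mul, ← sgn_add] at m
  rw [← sgn_add] at k2
  refine lift (b := fun g => f (c g) - f (c' g)) hS hl hk t2 lt (sub_mem hc hc')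
    (s.comp₂ s' (· - ·)) (fun g _ => by rw [smul_sub, hf, hf, Pi.sub_apply])
    (((nv_sgn a_CA k2).2.1 m).congr fun g hg h hh => sgn_inj.2 ?_)
  have a := db2 hc (b := fun g => f (c g)) (fun g _ => hf _) hg hh
  have a' := db2 hc' (b := fun g => f (c' g)) (fun g _ => hf _) hg hh
  simp only [Pi.add_apply]
  rw [← hl _ _ a a', ← neg2 a']
  simp only [db, map_sub]
  congr 1
  abel

end TLOB

open TLOB

theorem t_LOB : LOB := by
  intro D w c hc
  obtain ⟨q, hq, a1, a2, e, k2, k1⟩ := crd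
  refine ⟨fun b b' hb hb' => ?_, fun c' hc' S hS => ⟨fun b b' hb hb' => ?_, ?_⟩⟩
  · obtain ⟨s, u, v⟩ := (hf_iff two_pE k2 hc).1 hb
    obtain ⟨s', u', v'⟩ := (hf_iff two_pF k1 hc).1 hb'
    have d : ∀ g ∈ w.D, 2 • (b g - b' g) = 0 := fun g hg => by
      rw [smul_sub, u g hg, u' g hg, sub_self]
    obtain ⟨t, ht⟩ : ∃ t : GQ → EO, t = fun g => s2 (q (b g - b' g)).1 0 := ⟨_, rfl⟩
    have t2 : ∀ g, 2 • t g = 0 := fun g => by rw [ht]; exact two_s2 _ _
    have u2 : ∀ g ∈ w.D, 2 • (b + t) g = c g := fun g hg => by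
      rw [Pi.add_apply, smul_add, u g hg, t2, add_zero]
    have z : ∀ g ∈ w.D, (q ((b - b' + t) g)).1 = 0 := fun g hg => by
      refine (a1 _ _ (d g hg) (t2 g)).trans ?_
      simp only [ht, e]
      exact CharTwo.add_self_eq_zero _
    obtain ⟨i, hi⟩ := hc.2.2.2
    have m : rs w.D (b + t) ∈ D.ZH w.D := by
      refine rs_mem (ht ▸ s.comp₂ s' fun x y => x + s2 (q (x - y)).1 0) (fun g hg h hh => ?_)
        ⟨i + 1, fun g hg => by rw [pow_succ, mul_smul, u2 g hg, hi]⟩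
      have r2 := db_add a2 hc u (fun g _ => t2 g) hg hh
      have r1 := db_add (t := b - b' + t) a1 hc u' (fun g hg => add2 (d g hg) (t2 g)) hg hh
      rw [← add_assoc, add_sub_cancel] at r1
      simp only [v' g hg h hh, z g hg, z h hh, z _ (mul_mem hg hh), add_zero] at r1
      rw [v g hg h hh] at r2
      have r3 : (q (db D (b + t) g h)).2 = 0 := r2.trans (by simp only [ht, e, add_zero])
      have r := hq _ (db2 hc u2 hg hh)
      rw [r1, r3, s2_zero, db, sub_eq_zero] at r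
      exact r.symm
    exact ⟨_, m, ZH_ext hc (nsmul_mem m 2) fun g hg => by
      rw [Pi.smul_apply, rs_of_mem hg, u2 g hg]⟩
  · have h2 : -S = S := neg2 (by rcases hS with rfl | rfl; exacts [two_pE, two_pF])
    refine ⟨hb.sm.comp₂ hb'.sm (· - ·), fun g hg => by
      rw [Pi.sub_apply, smul_sub, hb.two g hg, hb'.two g hg, Pi.sub_apply], fun g hg h hh => ?_⟩
    simp only [Pi.sub_apply, map_sub]
    rcases hb.co g hg h hh with r | r <;> rcases hb'.co g hg h hh with r' | r' <;> rw [r, r']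
    · left; abel
    · right; conv_rhs => rw [← h2]
      abel
    · right; abel
    · left; abel
  · rcases hS with rfl | rfl
    · exact idx (T := s2 0) two_pE a2 k2 (two_s2 0) (fun a => by rw [e]) hc hc'
    · exact idx (T := (s2 · 0)) two_pF a1 k1 (two_s2 · 0) (fun a => by rw [e]) hc hc'

end Pool.Agent.P.MP_9c97e9_nt.K2
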