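import Pool.Agent.P.MP_9c97e9_nt.K2.TLOB

/-! Proof of LOH. -/

namespace Pool.Agent.P.MP_9c97e9_nt.K2

open MP_8b7eba_nt.R2 KT

open TLOB in
theorem t_LOH : LOH := by
  rintro D c y hc hy ⟨P, tP, hP⟩
  obtain ⟨q, hq, -, -, -, k2, -⟩ := crd
  obtain ⟨T, rfl⟩ := exists_two P
  have : ∀ Q : EO, ∃ x, Tp Q → Q ∈ EG w2 → Q = pE x := fun Q => by
    by_cases h : Tp Q ∧ Q ∈ EG w2
    · exact (h.1.eq_pE h.2).imp fun _ e _ _ => e
    · exact ⟨0, fun a b => absurd ⟨a, b⟩ h⟩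
  choose x hx using this
  obtain ⟨u, hu⟩ : ∃ u : GQ → EO, u = fun g => pE (x (c g - 2 • y g - D.cb (2 • T) g) / 2) :=
    ⟨_, rfl⟩
  have u2 : ∀ g ∈ w2.D, 2 • (y g + D.cb T g + u g) = c g := fun g hg => by
    have := hx _ (((ZH_tp hc g).sub ((ZH_tp hy g).nsmul 2)).sub ((tP.map _).sub tP)) (hP g hg)
    rw [smul_add, smul_add, hu, ← map_nsmul, nsmul_eq_mul, Nat.cast_ofNat,
      mul_div_cancel₀ _ two_ne_zero, ← D.cb_nsmul]
    exact (congrArg _ this.symm).trans (by rw [Dat.cb]; abel)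
  have uE : ∀ g, u g ∈ EG w2 := fun g => by rw [hu]; exact pE_mem _
  refine ⟨fun g => y g + D.cb T g + u g, (hf_iff two_pE k2 hc).2
    ⟨(hy.1.comp₂ (D.sm_cb _ T) (· + ·)).comp₂ (hu ▸ ((hc.1.comp₂ hy.1 fun a b => a - 2 • b).comp₂
      (D.sm_cb _ (2 • T)) fun a b => pE (x (a - b) / 2))) (· + ·), u2, fun g hg h hh => ?_⟩⟩
  refine s2_mem.1 ((congrArg (· ∈ EG w2) (hq _ (db2 hc u2 hg hh))).mp ?_)
  have e : db D (fun g => y g + D.cb T g + u g) g h = u g + tac D.dl g (u h) - u (g * h) := by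
    simp only [db, hy.2.1 g hg h hh, D.cb_mul, map_add]
    abel
  rw [e]
  exact sub_mem (add_mem (uE g) (tac_EG D hg (uE h))) (uE _)

end Pool.Agent.P.MP_9c97e9_nt.K2
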