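import Pool.Agent.P.MP_9c97e9_nt.K2.BasL
import Pool.Agent.P.MP_9c97e9_nt.KT.TRE

/-! The condition at the real place. -/

namespace Pool.Agent.P.MP_9c97e9_nt.K2

open scoped NNReal Matrix
open MP_8b7eba_nt.R2 KT

namespace TLRE

theorem s10 : Is (s2 1 0) (-9 : Om) 0 := by simpa [s2, LC.v1, pE_eq] using T2.t0

theorem s01 : Is (s2 0 1) (16 : Om) 0 := by simpa [s2, LC.v1, pF_eq] using T2.t1

theorem s11 : Is (s2 1 1) (0 : Om) 0 := by
  have := s10.add_ne split15 s01 (by norm_num) (m := 0) (x₃ := 0) (by ring) (by ring)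
  rw [← s2_add] at this
  simpa using this

theorem pos {P T : EO} (hT : T + T = 0) (h : ac tau P = P + T) :
    Tp P ∨ T = 0 ∨ Is T (-9) 0 := by
  rcases zero_or_is (P + P) with h2 | ⟨x, η, h2⟩
  · exact .inl ⟨1, by rw [pow_one, two_nsmul, h2]⟩
  by_cases hs : T = 0 ∨ Is T (-9) 0
  · exact .inr hs
  left
  have h3 := is_ac tau h2
  rw [map_add, h, add_add_add_comm, hT, add_zero] at h3
  obtain ⟨-, h5⟩ := h2.inj h3
  have h6 := UU_sq split15.swap h2
  have h7 : tau (UU (-9) 0 16 P) = UU (-9) 0 16 (ac tau P) := by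
    have := UU_map (W := W15) (e₁ := -9) (e₂ := 0) (e₃ := 16) (tau : Om →+* Om) P
    simp only [map_neg, map_ofNat, map_zero] at this
    exact this.symm
  rw [h, UU_add split15.swap hT h2.ne_zero, sg, if_neg hs] at h7
  generalize UU (-9) 0 16 P = U at h6 h7
  have h8 := h2.eq split15
  have hc := a_TAU.1
  have k1 := congrArg Complex.re (hc U)
  have k2 := congrArg Complex.im (hc η)
  rw [h7] at k1
  rw [← h5] at k2
  simp only [Int.cast_neg, Int.cast_one, neg_mul, one_mul, map_neg, Complex.neg_re, Complex.conj_re,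
    Complex.conj_im] at k1 k2
  have k3 : (io U).re = 0 := by linarith
  have k4 : (io η).im = 0 := by linarith
  have h9 : η * η = 4 * ((U * U - 9) * (U * U) * (U * U - 25)) := by
    rw [show x = U * U - 9 by linear_combination h6] at h8
    linear_combination h8
  have k5 := congrArg (fun z => (io z).re) h9
  simp only [map_mul, map_sub, map_ofNat, Complex.mul_re, Complex.mul_im, Complex.sub_re,
    Complex.sub_im, Complex.re_ofNat, Complex.im_ofNat, k3, k4] at k5
  have k6 : (io η).re = 0 := by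
    refine mul_self_eq_zero.1 (le_antisymm ?_ (mul_self_nonneg _))
    have := mul_nonneg (mul_nonneg (mul_self_nonneg (io U).im)
      (show 0 ≤ (io U).im * (io U).im + 9 by nlinarith [mul_self_nonneg (io U).im]))
      (show 0 ≤ (io U).im * (io U).im + 25 by nlinarith [mul_self_nonneg (io U).im])
    nlinarith
  obtain rfl : η = 0 := (map_eq_zero io).1 (Complex.ext k6 k4)
  exact ⟨2, by
    rw [show 2 ^ 2 • P = P + P + (P + P) by abel]
    exact h2.add_eq_zero split15 (by simpa using h2)⟩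

theorem two (D : Dat) (P : EO) (h : 2 • D.cb P tau = 0) :
    ∃ Q, Tp Q ∧ D.cb P tau = D.cb Q tau := by
  obtain ⟨a, b, e⟩ := exists_s2 h
  have k : ∀ a b : ℤ, Tp (pE (a / 4) + pF (b / 4)) := fun a b => (tp_pE _).add (tp_pF _)
  have hs := sd_eq_qz D.hdl tau
  by_cases hd : D.d < 0
  · obtain ⟨h1, h2⟩ := D.qz_tau.1 hd
    have e' : ac tau (-P) + -P = s2 a b := by
      rw [← e, Dat.cb, tac_apply, hs, h1, LC.v1]
      simp [sub_eq_add_neg]
    refine ⟨_, k 0 b.val, ?_⟩
    rw [D.cb_four, h1, h2, e]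
    rcases LA.cases a with rfl | rfl
    · simp
    · rcases LA.cases b with rfl | rfl
      · exact (TRE.core (.inr rfl) s10 e').elim
      · exact (TRE.core (.inl rfl) s11 e').elim
  · obtain ⟨h1, h2⟩ := D.qz_tau.2 hd
    have e' : ac tau P = P + s2 a b := by
      rw [← e, Dat.cb, tac_apply, hs, h1]
      simp
    rcases pos (by rw [← two_nsmul, two_s2]) e' with h3 | h3
    · exact ⟨P, h3, rfl⟩
    refine ⟨_, k a.val 0, ?_⟩
    rw [D.cb_four, h1, h2, e]
    rcases LA.cases b with rfl | rfl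
    · simp
    · rcases h3 with h3 | h3
      · exact absurd (s2_eq_zero.1 h3).2 one_ne_zero
      · rcases LA.cases a with rfl | rfl
        · exact absurd (s01.inj h3).1 (by norm_num)
        · exact absurd (s11.inj h3).1 (by norm_num)

end TLRE

theorem t_LRE : LRE := by
  intro D P h
  obtain ⟨S, hS⟩ := exists_two (D.cb P tau)
  have h1 := D.cb_mul P tau tau
  rw [a_TAU.2.1, Dat.cb, tac_one, sub_self] at h1
  obtain ⟨Q, h2, h3⟩ := TLRE.two D (P + S) (by
    rw [D.cb_add, smul_add, ← D.cb_nsmul 2 S, hS, h1]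
    generalize D.cb P tau = T
    rw [Dat.cb]
    abel)
  exact ⟨Q - S, h2.sub (Tp.of_two (hS ▸ h)), by rw [D.cb_sub, ← h3, D.cb_add, add_sub_cancel_right]⟩

end Pool.Agent.P.MP_9c97e9_nt.K2
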