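import Pool.Agent.P.MP_9c97e9_nt.K2.BasL

/-! The model of the twist and its rational points. -/

namespace Pool.Agent.P.MP_9c97e9_nt.K2

open scoped NNReal Matrix
open MP_8b7eba_nt.R2 KT
open MP_8b7eba_nt.R3 (twa)
open Filter Topology Polynomial

namespace TLSF

attribute [local instance 10000] All.g3_dec

open Classical in
theorem iso (D : Dat) : ∃ ι, D.Eqv ι := by
  obtain ⟨s, hs0, hq⟩ := MP_8b7eba_nt.R3.MM.split D.d_ne
  have hs1 : (s : Om) ≠ 0 := by exact_mod_cast hs0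
  have hs : Split (twa D.d) ((D.dl * s) ^ 2 * 0 + 0) ((D.dl * s) ^ 2 * -9 + 0)
      ((D.dl * s) ^ 2 * 16 + (0 : Om)) := by
    convert hq.map (algebraMap ℚ Om) using 1
    · simp
    · simp only [map_mul, map_neg, map_ofNat, map_intCast, map_pow, eq_ratCast]
      linear_combination -9 * (s : Om) ^ 2 * D.hdl
    · simp only [map_mul, map_ofNat, map_intCast, map_pow, eq_ratCast]
      linear_combination 16 * (s : Om) ^ 2 * D.hdl
  obtain ⟨ι, bij, hι⟩ := TSHA.exists_iso split15 hs (mul_ne_zero D.dl_ne hs1)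
  refine ⟨AddEquiv.ofBijective ι bij, fun g P => ?_⟩
  change pm (twa D.d) g (ι P) = ι (tac D.dl g P)
  rcases zero_or_is P with rfl | ⟨x, η, hP⟩
  · simp
  have h1 := (hι _ _ _ hP).map (K := Om) g
  have h2 := sd_apply D.dl_fix g
  have h3 := is_ac g hP
  refine h1.unique hs ?_
  rw [tac_apply]
  rcases sd_cases D.dl g with e | e <;> rw [e] at h2 ⊢
  · convert hι _ _ _ h3 using 1 <;> simp [h2]
  · rw [neg_smul, one_smul]
    convert hι _ _ _ h3.neg using 1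
    · simp [h2]
    · simp [h2]
      ring

theorem rat {W : WeierstrassCurve ℤ} {e₁ e₂ e₃ : ℚ} (hq : Split W e₁ e₂ e₃) {P : Pt W Om}
    (h : ∀ g : GQ, pm W (g : Om →+* Om) P = P) :
    ∃ Q : Pt W ℚ, pm W (algebraMap ℚ Om) Q = P := by
  rcases zero_or_is P with rfl | ⟨X, H, h1⟩
  · exact ⟨0, rfl⟩
  have h2 : ∀ g : GQ, g X = X ∧ g H = H := fun g => by
    have := h1.map (K := Om) g
    rw [h g] at this
    exact this.inj h1
  obtain ⟨a, rfl⟩ := of_fixed fun g => (h2 g).1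
  obtain ⟨b, rfl⟩ := of_fixed fun g => (h2 g).2
  have hs := hq.map (algebraMap ℚ Om)
  obtain ⟨Q, hQ⟩ := hq.exists_is (x := a) (η := b) ((algebraMap ℚ Om).injective (by
    rw [map_pow, h1.eq hs]
    simp only [map_mul, map_sub, map_ofNat]))
  exact ⟨Q, (hQ.map _).unique hs h1⟩

theorem fixed {W : WeierstrassCurve ℤ} (Q : Pt W ℚ) (g : GQ) :
    pm W (g : Om →+* Om) (pm W (algebraMap ℚ Om) Q) = pm W (algebraMap ℚ Om) Q := by
  rw [pm_pm, Subsingleton.elim ((g : Om →+* Om).comp _) (algebraMap ℚ Om)]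

open Height in
theorem fin {W : WeierstrassCurve ℤ} {a b : ℚ} (h : Split W 0 a b)
    (H : ∀ P : Pt W ℚ, ∃ T R, T + T = 0 ∧ P = T + (R + R)) : Finite (Pt W ℚ) := by
  obtain ⟨c, hc⟩ := All.g3_height (a := a) (b := b) (fun e => h.n12 (by simp [e]))
    (fun e => h.n13 (by simp [e])) (fun e => h.n23 (by linear_combination -e))
  have hS : {x : ℚ | ∃ (R : Pt W ℚ) (η : ℚ), Is (R + R) x η}.Finite := by
    refine MP_8b7eba_nt.Desc.finite_of_descent _ logHeight₁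
      (MP_8b7eba_nt.Desc.dup a b) c (NumberField.finite_setOfPred_logHeight₁_le ℚ) ?_
    rintro x ⟨P, η, hP⟩
    obtain ⟨T, R, hT, rfl⟩ := H P
    rw [add_add_add_comm, hT, zero_add] at hP
    rcases zero_or_is (R + R) with e | ⟨x', η', hQ'⟩
    · rw [e] at hP
      exact absurd (add_zero _) hP.ne_zero
    have h1 : MP_8b7eba_nt.Desc.dup a b x' = x := by
      have h2 := UU_sq h hP
      rw [hQ'.UU_eq, div_pow, hQ'.eq h] at h2
      simp only [sub_zero, zero_sub, neg_mul_neg] at h2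
      rw [h2, MP_8b7eba_nt.Desc.dup]
    exact ⟨x', ⟨R, η', hQ'⟩, h1, h1 ▸ hc x'⟩
  refine Set.finite_univ_iff.1 (((All.g3_ker h).image2 (· + ·)
    ((hS.biUnion fun x _ => All.g3_fib h x).insert 0)).subset fun P _ => ?_)
  obtain ⟨T, R, hT, rfl⟩ := H P
  exact ⟨T, hT, R + R, (zero_or_is (R + R)).imp_right fun ⟨x, η, hx⟩ =>
    Set.mem_iUnion₂.2 ⟨x, ⟨R, η, hx⟩, η, hx⟩, rfl⟩

theorem half (hF : F2X) (D : Dat) (h : D.SelN.Finite) {P : EO} (hP : ∀ g, tac D.dl g P = P) :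
    ∃ R, (∀ g, tac D.dl g R = R) ∧ 2 • (P - 2 • R) = 0 := by
  have h1 : ∀ c : GQ → EO, ∃ i : ℕ, c ∈ D.SelN → ∀ g, 2 ^ i • c g = 0 := fun c => by
    by_cases hc : c ∈ D.SelN
    · exact hc.1.tor.imp fun i e _ => e
    · exact ⟨0, fun e => absurd e hc⟩
  choose f hf using h1
  obtain ⟨j, hj⟩ := (h.image f).bddAbove
  obtain ⟨Q, rfl⟩ := exists_div P (j + 1)
  have h2 : ∀ g, 2 ^ (j + 1) • D.cb Q g = 0 := fun g => by
    rw [← D.cb_nsmul, Dat.cb, hP, sub_self]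
  obtain ⟨T, hT⟩ := exists_two (D.cb Q D.z)
  have tT : Tp T := Tp.of_two (hT ▸ ⟨_, h2 _⟩)
  obtain ⟨l, hl⟩ := id tT
  have h3 : D.cb (Q + T) ∈ D.SelN :=
    ⟨⟨D.sm_cb _ _, D.cb_mul _, ⟨j + 1 + l, fun g => by
      rw [D.cb_add, smul_add, pow_add, mul_smul _ _ (D.cb T g), ← D.cb_nsmul _ T, hl, D.cb_zero,
        mul_comm, mul_smul, h2]
      simp⟩, fun _ => ⟨_, fun _ _ => rfl⟩⟩,
    by rw [D.cb_add, D.cb_z hF tT, hT, add_neg_cancel], _, rfl⟩
  have h4 : ∀ g, tac D.dl g (2 ^ j • (Q + T)) = 2 ^ j • (Q + T) := fun g => by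
    obtain ⟨m, hm⟩ := Nat.exists_eq_add_of_le' (hj ⟨_, h3, rfl⟩)
    rw [← sub_eq_zero, ← Dat.cb, D.cb_nsmul, hm, pow_add, mul_smul, hf _ h3, smul_zero]
  refine ⟨_, h4, ?_⟩
  have h5 : Tp (2 ^ (j + 1) • Q - 2 • 2 ^ j • (Q + T)) := by
    rw [smul_smul, ← pow_succ', smul_add, sub_add_cancel_left]
    exact (tT.nsmul _).neg
  have h6 := D.tac_z hF h5
  rw [map_sub, hP, map_nsmul, h4] at h6
  rw [two_nsmul, ← eq_neg_iff_add_eq_zero]
  exact h6

end TLSF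

attribute [local instance 10000] All.g3_dec

open TLSF Classical in
theorem t_LSF : LSF := by
  intro D
  have hF2X := t_F2X
  obtain ⟨s, -, hq⟩ := MP_8b7eba_nt.R3.MM.split D.d_ne
  obtain ⟨ι, hι⟩ := iso D
  have down : ∀ P : EO, (∀ g, tac D.dl g P = P) →
      ∃ Q : Pt (twa D.d) ℚ, pm (twa D.d) (algebraMap ℚ Om) Q = ι P := fun P hP =>
    rat hq fun g => by rw [hι, hP]
  refine ⟨⟨ι, hι⟩, fun h => fin hq fun P₀ => ?_, fun hf c hc P hP => ?_⟩
  · obtain ⟨P, hP⟩ := ι.surjective (pm (twa D.d) (algebraMap ℚ Om) P₀)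
    obtain ⟨R, h1, h2⟩ := half hF2X D h (P := P) fun g => ι.injective (by
      rw [← hι, hP, fixed])
    obtain ⟨R₀, hR⟩ := down R h1
    refine ⟨_, R₀, ?_, (sub_add_cancel _ _).symm⟩
    apply pm_injective (algebraMap ℚ Om)
    rw [map_add, map_sub, map_add, hR, ← hP, ← map_add, ← map_sub, ← map_add, ← two_nsmul,
      ← two_nsmul, h2, map_zero, map_zero]
  · obtain ⟨i, hi⟩ := hc.1.tor
    obtain ⟨Q, hQ⟩ := down (2 ^ i • P) fun g => by
      rw [← sub_eq_zero, ← Dat.cb, D.cb_nsmul, ← hP, hi]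
    have h1 : IsOfFinAddOrder P := by
      have h2 := (pm (twa D.d) (algebraMap ℚ Om)).isOfFinAddOrder
        (@isOfFinAddOrder_of_finite _ (_) hf Q)
      rw [hQ] at h2
      obtain ⟨m, hm, h3⟩ := h2.exists_nsmul_eq_zero
      exact isOfFinAddOrder_iff_nsmul_eq_zero.2 ⟨m * 2 ^ i, by positivity, ι.injective (by
        rw [mul_smul, map_nsmul, h3, map_zero])⟩
    obtain ⟨P₁, P₂, k, m, hm, h2, h3, rfl⟩ := exists_split h1
    have h4 : ∀ g, D.cb P₂ g = 0 := fun g => by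
      have a : m • D.cb P₂ g = 0 := by rw [← D.cb_nsmul, h3, D.cb_zero]
      have b : 2 ^ (i + k) • D.cb P₂ g = 0 := by
        rw [show D.cb P₂ g = c g - D.cb P₁ g by rw [hP, D.cb_add, add_sub_cancel_left], smul_sub,
          pow_add, mul_smul _ _ (D.cb P₁ g), ← D.cb_nsmul _ P₁, h2, D.cb_zero, mul_comm, mul_smul,
          hi]
        simp
      exact AddMonoid.addOrderOf_eq_one_iff.1 (Nat.eq_one_of_dvd_coprimes
        (Nat.Coprime.pow_left _ (Nat.coprime_two_left.2 hm)) (addOrderOf_dvd_of_nsmul_eq_zero b)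
        (addOrderOf_dvd_of_nsmul_eq_zero a))
    have h5 := hc.2.1
    rw [hP, D.cb_add, h4, add_zero, D.cb_z hF2X ⟨k, h2⟩, neg_eq_zero] at h5
    funext g
    rw [hP, D.cb_add, h4, D.cb_two h5, add_zero, Pi.zero_apply]

end Pool.Agent.P.MP_9c97e9_nt.K2
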