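import Pool.Agent.P.MP_9c97e9_nt.K2.IfK

/-! Basic facts on the cyclotomic tower. -/

namespace Pool.Agent.P.MP_9c97e9_nt.K2.BK

open scoped NNReal Matrix
open MP_8b7eba_nt.R2 KT
open MP_8b7eba_nt.R1 (st)
open Filter Topology Polynomial Module

export KT.BK (la_mul la_one la_inv la_pow la_conj la_of_cyc cyc_conj mem_KP on_KP Ps_eq_zero
  Ps_mul mem_KI KI_le KP_le KP_zero conj_KI conj_KP normal_KI closed_KI div_KI comm_KI I_le
  conj_I surj surjI small exists_gen Ps_pow pow_mem_KP dec_iff dec dec' relIndex_KP index_KP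
  relIndex_succ mul_succ ts_one ts_mul ts_ts cyc_ts ts_mem tau_mem zp_cases closed_zp qz_ts ts_i
  pos mem_KC mem_KC' on_KC ts_not tc_KC I_le_KC mul_KC exists_qc qc_eq_zero isCh_qc qc_mul
  ev_iff ch_conj exists_t)

variable {g h s γ : GQ} {k m : ℕ} {w : Pl} {v : V2}

/-! ### The data -/

variable (D : Dat)

theorem z_mem : D.z ∈ KI := mem_KI.2 (la_of_cyc (t_F2X D).2.2.2.2.1)

theorem f2_mem : D.f2 ∈ KI := mem_KI.2 (la_of_cyc D.fc)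

theorem la_gm : la D.gm = 1 := a_LG.1.five _ D.gc

theorem exists_big : ∃ k₀, ∀ k, k₀ ≤ k → D.Big k :=
  ⟨_, fun _ h _ hp => (Finset.le_sup (f := fun p : ℕ => (lg (un (p : ℤ_[2]))).valuation) hp).trans h⟩

theorem rd_mul (g h : GQ) : D.rp (g * h) = D.rp g * D.rp h := D.rp_mul g h

theorem rd_one : D.rp 1 = 1 := D.rp_one

theorem rd_mulVec (g h : GQ) (v : V2) : D.rp (g * h) *ᵥ v = D.rp g *ᵥ D.rp h *ᵥ v := by
  rw [rd_mul, Matrix.mulVec_mulVec]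

theorem rep (H : Subgroup GQ) : Rep H D.rq := by
  have k : ∀ (g : GQ) {ε : ℝ}, (∀ i j, ‖(D.rp g - 1) i j‖ ≤ ε) → ∀ v, ‖D.rq g v - v‖ ≤ ε * ‖v‖ :=
    fun g ε h v => by simpa [Dat.rq, Matrix.sub_mulVec] using mulVec_le h v
  refine ⟨fun v => by simp [Dat.rq, D.rp_one], fun g _ h _ v => rd_mulVec D g h v,
    fun g v => D.rp_vec g v, fun ε hε => ?_, fun g _ ε hε => ?_⟩
  · obtain ⟨N, h1, h2⟩ := D.rp_sm hε
    exact ⟨N, h1, fun n _ m => k n (h2 n m)⟩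
  · obtain ⟨m, h⟩ := (SelA.rd_pow T2 D.fix_dl g (half_pos hε)).exists
    exact ⟨m, k _ (D.rp_of h)⟩

theorem rq_apply (g : GQ) (v : V2) : D.rq g v = D.rp g *ᵥ v := rfl

theorem rd_le {r : ℝ} (g : GQ) (hv : ‖v‖ ≤ r) : ‖D.rp g *ᵥ v‖ ≤ r := (D.rp_vec g v).trans hv

theorem rd_norm (g : GQ) (v : V2) : ‖D.rp g *ᵥ v‖ = ‖v‖ := (rep D ⊤).norm (g := g) trivial v

theorem rd_sub (g : GQ) (v : V2) : ‖D.rp g *ᵥ v - v‖ ≤ 2⁻¹ * ‖v‖ := by
  simpa [Matrix.sub_mulVec] using mulVec_le (D.rp_two g) v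

theorem rd_zc (s : GQ) (v : V2) : D.rp (s * D.z * s⁻¹) *ᵥ v = -v := by
  rw [rd_mul, rd_mul, D.rp_z, mul_neg, mul_one, neg_mul, ← rd_mul, mul_inv_cancel, rd_one,
    Matrix.neg_mulVec, Matrix.one_mulVec]

theorem rd_z (v : V2) : D.rp D.z *ᵥ v = -v := by simpa using rd_zc D 1 v

theorem qz_ts_n (s : GQ) : qz D.n (ts s) = 0 :=
  (qz_ts (Nat.cast_ne_zero.2 D.n_ne) s).2 (Nat.cast_pos.2 D.n_pos)

theorem sd_ts (s : GQ) : sd D.dl (ts s) = if D.d < 0 then -1 else 1 := by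
  have h := qz_ts D.d_ne s
  have := D.d_ne
  split_ifs with e
  · exact sd_eq_neg.2 fun a => by have := h.1 ((qz_eq_zero D.hdl).2 a); omega
  · exact sd_eq_one.2 ((qz_eq_zero D.hdl).1 (h.2 (by omega)))

/-- complex conjugations in the second lattice -/
theorem rp_ts (hR : RTS) (s : GQ) : ‖D.rp (ts s) 0 0 - 1‖ ≤ 4⁻¹ ∧ ‖D.rp (ts s) 0 1‖ ≤ 4⁻¹ ∧
    ‖D.rp (ts s) 1 0‖ ≤ 2⁻¹ ∧ ‖D.rp (ts s) 1 1 + 1‖ ≤ 4⁻¹ := by
  obtain ⟨a, b, -, d⟩ := D.rp_eq (ts s)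
  obtain ⟨h01, -, h11⟩ := TF2X.four T2 (ts s)
  have h00 : ‖T2.rho (ts s) 0 0 + 1‖ ≤ 4⁻¹ := by simpa [cq, cyc_ts] using T2.four (ts s) 0 0
  have h2 : ‖2 * D.rd (ts s) 0 1‖ ≤ 4⁻¹ := by
    rw [norm_mul, SelA.two]; linarith [(D.rd_off (ts s)).1]
  refine (fun h : _ ∧ _ ∧ _ => ⟨h.1, h.2.1, by simpa using D.rp_two (ts s) 1 0, h.2.2⟩) ?_
  rw [a, b, d, Dat.eps]
  have e := sd_ts D s
  split_ifs at e ⊢ with h
  · simp only [zero_mul, sub_zero, add_zero, zero_add]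
    refine ⟨?_, h2, ?_⟩
    · rw [← norm_neg]; simpa [D.rd_eq, e, add_comm] using h00
    · rw [← norm_neg]; simpa [D.rd_eq, e, sub_eq_neg_add] using h11
  · have h3 : ‖T2.rho (ts s) 1 0 / 2 + 2‖ ≤ 4⁻¹ := by
      have h4 : ‖T2.rho (ts s) 1 0 / 4‖ = 1 := by rw [norm_div, hR, TLS2.n4]; norm_num
      obtain ⟨r, r1, -⟩ := exists_red
      have h5 := r1 _ h4.le
      rcases LA.cases (r (T2.rho (ts s) 1 0 / 4)) with k | k <;> rw [k] at h5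
      · rw [ZMod.val_zero, Nat.cast_zero, sub_zero, h4] at h5; norm_num at h5
      rw [show T2.rho (ts s) 1 0 / 2 + 2 =
        2 * (T2.rho (ts s) 1 0 / 4 - ((1 : ZMod 2).val : ℚ_[2])) + 4 by
          rw [ZMod.val_one]; push_cast; ring]
      exact ua (by rw [norm_mul, SelA.two]; linarith) TLS2.n4.le
    have f : D.rd (ts s) = T2.rho (ts s) := by simp [D.rd_eq, e]
    rw [f] at h2 ⊢
    exact ⟨le_of_eq_of_le (congrArg _ (by ring)) (us h00 h3),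
      le_of_eq_of_le (congrArg _ (by ring)) (ua (us (us h00 h11) h3) h2),
      le_of_eq_of_le (congrArg _ (by ring)) (ua h11 h3)⟩

theorem tac_pt (g : GQ) (v : V2) : D.a0 g (p0 v) = p0 (D.rp g *ᵥ v) := D.a0_p0 g v

theorem tac_mul' (g h : GQ) (P : A0) : D.a0 (g * h) P = D.a0 g (D.a0 h P) := D.a0_mul g h P

variable {D}

theorem odd (hw : ¬ w.p ∣ 30 * D.n) : w.p ≠ 2 := fun e =>
  hw (by rw [e]; exact Dvd.dvd.mul_right (by norm_num) _)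

theorem odd' (hw : w.p ∣ 15 * D.n) : w.p ≠ 2 := fun e => by
  have := D.n2
  rw [e] at hw
  omega

theorem dvd30 : w.p ∣ 30 * D.n ↔ w.p = 2 ∨ w.p ∣ 15 * D.n := by
  rw [show 30 * D.n = 2 * (15 * D.n) by ring, w.prime.dvd_mul,
    Nat.prime_dvd_prime_iff_eq w.prime Nat.prime_two]

theorem rd_unr (hw : ¬ w.p ∣ 30 * D.n) (hg : g ∈ w.I) : D.rp g = 1 := Dat.rp_I hw hg

theorem rd_D (hg : g ∈ w2.D) (v : V2) : (D.rp g *ᵥ v) 1 = D.rp g 1 1 * v 1 := by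
  rw [LC.mv, (D.rp_D hg).1, zero_mul, zero_add]

theorem rd_mul11 (hg : g ∈ w2.D) (h : GQ) : D.rp (g * h) 1 1 = D.rp g 1 1 * D.rp h 1 1 := by
  rw [rd_mul, Matrix.mul_apply, Fin.sum_univ_two, (D.rp_D hg).1, zero_mul, zero_add]

theorem rd_I (hg : g ∈ w2.I) (hc : cyc g = 1) : D.rp g 1 1 = 1 := by
  rw [(D.rp_D (w2.I_le_D hg)).2.2, D.rd_I2 hg, sd_eq_one.2 (D.I2_dl hg (by simp [hc])),
    Int.cast_one]

theorem rd_I' (hg : g ∈ w2.I) (hc : cyc g = 1) (v : V2) : (D.rp g *ᵥ v) 1 = v 1 := by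
  rw [rd_D (w2.I_le_D hg), rd_I hg hc, one_mul]

theorem f2_ne (D : Dat) : D.rp D.f2 1 1 ≠ 1 := fun e => by
  have := (t_F2X D).1
  rw [← (D.rp_D D.fr.1).2.2, e, sub_self, norm_zero] at this
  split_ifs at this <;> norm_num at this

theorem near_K (hg : g ∈ w2.D ⊓ KP 1) :
    ‖D.rp g 1 1 - (1 + D.ni * (qz D.mi g).val)‖ ≤ (2 * D.ni : ℝ)⁻¹ :=
  (D.rp_D hg.1).2.2 ▸ D.near_K hg

theorem qz_z (D : Dat) : qz (st D.n) D.z = 1 ∧ qz D.n D.z = 1 ∧ qz D.wz.p D.z = 1 ∧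
    qz D.d D.z = 1 ∧ qz 5 D.z = 0 := by
  have h0 : (D.n : ℤ) ≠ 0 := Nat.cast_ne_zero.2 D.n_ne
  have h1 : qz (st D.n) D.z = 1 := (qz_eq_one D.hdl0).2 fun e =>
    D.dl0_ne (self_eq_neg.1 (e.symm.trans D.z_dl0))
  have h2 : qz (-1) D.z = 0 := (qz_neg_one a_EC).2 (by simp [D.cyc_z])
  have h3 := ch_tame a_CA D.z2 (isCh_qz (st D.n))
    (Pl.exists_gen a_TAME a_RES D.z2).choose_spec.1
    (Pl.exists_gen a_TAME a_RES D.z2).choose_spec.2 _ D.zI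
  refine ⟨h1, ?_, (LA.cases _).resolve_left fun e => ?_, (qz_eq_one D.hdl).2 (sd_eq_neg.1 D.sd_z),
    qz_I a_CA (fun e => D.z30 ((show D.wz.p ∣ 2 * 5 by exact_mod_cast e).trans (by norm_num))) D.zI⟩
  · rcases st_cases D.n with e | e <;> rw [e] at h1
    · exact h1
    · rwa [← neg_one_mul, qz_mul (by norm_num) h0, Pi.add_apply, h2, zero_add] at h1
  · rw [h1, e, mul_zero] at h3
    exact one_ne_zero h3

/-- characters of divisors of `30 n` are unramified outside `30 n` -/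
theorem qz_unr {m : ℤ} (hm : m ∣ 30 * D.n) (hw : ¬ w.p ∣ 30 * D.n) (hg : g ∈ w.I) : qz m g = 0 := by
  refine qz_I a_CA (fun e => ?_) hg
  rcases (Nat.prime_iff_prime_int.1 w.prime).dvd_mul.1 e with e | e
  · exact odd hw ((Nat.prime_dvd_prime_iff_eq w.prime Nat.prime_two).1 (by exact_mod_cast e))
  · exact hw (by exact_mod_cast e.trans hm)

theorem st_dvd (D : Dat) : st D.n ∣ 30 * D.n := by
  rcases st_cases D.n with e | e <;> simp [e]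

theorem d_dvd (D : Dat) : D.d ∣ 30 * D.n := by
  rw [D.hd]
  refine mul_dvd_mul ?_ ?_
  · rcases D.he with e | e | e | e <;> rw [e] <;> norm_num
  · rcases st_cases D.n with e | e <;> simp [e]

theorem mi_dvd (D : Dat) : D.mi ∣ 30 * D.n := by
  unfold Dat.mi
  split_ifs
  · exact Dvd.dvd.mul_right (by norm_num) _
  · exact d_dvd D

theorem qz_two_I (hg : g ∈ w2.I) : qz (st D.n) g = 0 := qz_I_two rfl (st_four D.odd) hg

theorem cyc_comm (g h : GQ) : cyc (g * h * g⁻¹ * h⁻¹) = 1 := by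
  have := a_EC.2.1 (g * h * g⁻¹ * h⁻¹) h
  rw [inv_mul_cancel_right, cyc_conj] at this
  exact (mul_eq_right.1 this.symm)

/-- the strict form of the ordinary condition -/
theorem XC_ord {c : GQ → V2} (hc : D.XC c) :
    ∃ v, ∀ g ∈ w2.D ⊓ KI, c g 1 = (D.rp g 1 1 - 1) * v := by
  have h0 := sub_ne_zero.2 (f2_ne D)
  refine ⟨c D.f2 1 / (D.rp D.f2 1 1 - 1), fun g hg => ?_⟩
  have hI := Pl.comm_mem a_FROB hg.1 D.fr.1
  have h1 := congrFun (hc.co _ (comm_KI g D.f2) _ (mul_mem (f2_mem D) hg.2)) 1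
  rw [show g * D.f2 * g⁻¹ * D.f2⁻¹ * (D.f2 * g) = g * D.f2 by group, hc.co g hg.2 _ (f2_mem D),
    hc.co _ (f2_mem D) g hg.2] at h1
  simp only [Pi.add_apply, rd_I' hI (cyc_comm _ _), hc.ord _ hI (cyc_comm _ _), rd_D hg.1,
    rd_D D.fr.1] at h1
  field_simp
  linear_combination -h1

/-- a normalised cocycle is determined by its values at the conjugates of `z` -/
theorem XC_conj {c : GQ → V2} (hc : D.XC c) (hs : s ∈ KI) (hg : g ∈ KI) :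
    c (s * g * s⁻¹) = c s + D.rp s *ᵥ c g - D.rp (s * g * s⁻¹) *ᵥ c s := by
  have h1 := hc.co _ (conj_KI (s := s).2 hg) s hs
  rw [inv_mul_cancel_right, hc.co s hs g hg] at h1
  rw [h1, add_sub_cancel_right]

theorem XC_z {c : GQ → V2} (hc : D.XC c) (hs : s ∈ KI) :
    c (s * D.z * s⁻¹) = (2 : ℚ_[2]) • c s := by
  rw [XC_conj hc hs (z_mem D), hc.nz, rd_zc, Matrix.mulVec_zero, add_zero, sub_neg_eq_add, two_smul]

theorem XC_bdd {c : GQ → V2} (hc : D.XC c) : ∃ B : ℝ, ∀ g, ‖c g‖ ≤ B := by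
  obtain ⟨B, hB⟩ := hc.uc.bdd
  refine ⟨B, fun g => ?_⟩
  by_cases hg : g ∈ KI
  · exact hB g hg
  · rw [hc.off g hg, norm_zero]
    exact (norm_nonneg _).trans (hB 1 (one_mem _))

theorem mem_LL {c : GQ → V2} : c ∈ D.LL ↔ D.XC c ∧ ∀ g, ‖c g‖ ≤ 1 := Iff.rfl

theorem Th_apply (c : GQ → V2) : D.Th c = D.cj D.gm c - c := rfl

end Pool.Agent.P.MP_9c97e9_nt.K2.BK
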