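import Pool.Agent.P.MP_9c97e9_nt.K2.BasL
import Pool.Agent.P.MP_9c97e9_nt.K2.BasK

/-! The ordinary condition for classes of order two. -/

namespace Pool.Agent.P.MP_9c97e9_nt.K2

open MP_8b7eba_nt.R2 KT

namespace TLSI

theorem ni (D : Dat) : (D.ni : ℚ_[2]) ≠ 0 ∧ ‖(D.ni : ℚ_[2])‖ = (D.ni : ℝ)⁻¹ := by
  rcases D.ni_cases with e | e <;> rw [e] <;>
    simp only [Nat.cast_ofNat, TLS2.n4, SelA.two] <;> norm_num

theorem near (D : Dat) {g : GQ} (hg : g ∈ w2.D ⊓ KI) :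
    ‖(D.rd g 1 1 - 1) / D.ni - (qz D.mi g).val‖ ≤ 2⁻¹ := by
  obtain ⟨h0, h1⟩ := ni D
  have h2 := D.near_K (g := g) ⟨hg.1, BK.KI_le 1 hg.2⟩
  have h3 : (0 : ℝ) < D.ni := by rcases D.ni_cases with e | e <;> rw [e] <;> norm_num
  rw [show (D.rd g 1 1 - 1) / D.ni - (qz D.mi g).val =
    (D.rd g 1 1 - (1 + D.ni * (qz D.mi g).val)) / D.ni by field_simp; ring, norm_div, h1,
    div_inv_eq_mul, ← le_div_iff₀ h3]
  rwa [mul_inv, ← div_eq_mul_inv] at h2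

theorem iff (D : Dat) (g : GQ) (s : ZMod 2) (t : ℚ_[2]) :
    ‖s.val / 2 - (D.rd g 1 1 - 1) * t‖ ≤ 1 ↔
      ‖(D.rd g 1 1 - 1) / D.ni * (2 * D.ni * t) - s.val‖ ≤ 2⁻¹ := by
  have h0 := (ni D).1
  rw [show s.val / 2 - (D.rd g 1 1 - 1) * t =
    -((D.rd g 1 1 - 1) / D.ni * (2 * D.ni * t) - s.val) / 2 by field_simp; ring, LC.half, norm_neg]
  constructor <;> intro h <;> linarith

end TLSI

open TLSI in
theorem t_LSI : LSI := by
  intro D b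
  have h0 := (ni D).1
  simp only [iff]
  refine ⟨fun ⟨a, ha⟩ => ⟨a.val / (2 * D.ni), fun g hg => ?_⟩, fun ⟨t, ht⟩ => ?_⟩
  · rw [ha g hg, mul_comm a, mul_div_cancel₀ _ (mul_ne_zero two_ne_zero h0)]
    exact LC.r_mul (near D hg) (by simp)
  · obtain ⟨g, hg, e⟩ := D.exists_mi
    have h1 := near D hg
    have h2 := LC.le (ht g hg)
    rw [e, LC.v1, Nat.cast_one] at h1
    have h3 : ‖(D.rd g 1 1 - 1) / D.ni‖ = 1 := by
      rw [← sub_add_cancel ((D.rd g 1 1 - 1) / D.ni) 1,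
        IsUltrametricDist.norm_add_eq_max_of_norm_ne_norm (by rw [norm_one]; linarith), norm_one]
      exact max_eq_right (by linarith)
    rw [norm_mul, h3, one_mul] at h2
    obtain ⟨a, ha⟩ := LC.ex h2
    exact ⟨a, fun k hk => by rw [mul_comm]; exact LC.uniq (ht k hk) (LC.r_mul (near D hk) ha)⟩

end Pool.Agent.P.MP_9c97e9_nt.K2
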