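import Pool.Agent.P.MP_9c97e9_nt.K2.BasL
import Pool.Agent.P.MP_9c97e9_nt.KT.TLSM

/-! Selmer cocycles and the Tate-Shafarevich group. -/

namespace Pool.Agent.P.MP_9c97e9_nt.K2

open scoped NNReal Matrix ComplexConjugate
open MP_8b7eba_nt.R2 KT
open MP_8b7eba_nt.R3 (twa)
open KT.TLSM (real_place cob_loc)
open Filter Topology Polynomial

open Classical in
theorem t_LSM (hF2X : F2X) (hDEC : DEC) (hLAP : LAP) (hLAL : LAL) : LSM := by
  intro D ι hι
  obtain ⟨σ₀, s, h1, h2⟩ := real_place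
  have hcb : ∀ (P : EO) (g : GQ), ι (D.cb P g) = pm (twa D.d) g (ι P) - ι P := fun P g => by
    rw [Dat.cb, map_sub, hι]
  refine ⟨fun c ⟨hc, _, P, hP⟩ => ?_, fun C hC i ⟨R, hR⟩ => ?_⟩
  · have hZ : c ∈ D.ZH ⊤ := ⟨hc.sm, fun g _ h _ => hc.co g h, fun g hg => absurd trivial hg, hc.tor⟩
    refine ⟨(sm_top_iff.1 hc.sm).comp ι, fun σ τ => by
      beta_reduce; rw [hc.co, map_add, hι], ?_, fun p _ => ?_⟩
    · have h3 := ZH_re hZ (P := P) hP s
      refine ⟨pm _ (emb ℚ ℝ) (ι (tac D.dl s P - c s)), fun σ τ h => ?_⟩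
      beta_reduce
      rcases h1 σ with rfl | rfl
      · obtain rfl : τ = 1 := AlgEquiv.ext fun x => (emb ℚ ℝ).injective (h x)
        simp [ZH_one hZ, pm_one]
      · obtain rfl : τ = s * tau * s⁻¹ :=
          AlgEquiv.ext fun x => (emb ℚ ℝ).injective ((h x).trans (h2 x).symm)
        rw [← pm_compat h, h3, hcb, map_sub]
    · obtain ⟨w, hw⟩ := TSHA.place p (emb ℚ ℚ_[p])
      obtain ⟨Q, hQ⟩ := hc.loc w
      refine ⟨pm _ (emb ℚ ℚ_[p]) (ι Q), fun σ τ h => ?_⟩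
      beta_reduce
      rw [← pm_compat h, hQ τ (hw σ τ h), map_sub, ← hι, map_sub]
  · obtain ⟨R, rfl⟩ := ι.surjective R
    obtain ⟨R, rfl⟩ := exists_div R i
    have h3 : ∀ g, 2 ^ i • ι.symm (C g) = 2 ^ i • D.cb R g := fun g => ι.injective (by
      have : pm (twa D.d) g (ι (2 ^ i • R)) - ι (2 ^ i • R) = 2 ^ i • C g := congrFun hR g
      rw [← D.cb_nsmul, hcb, this, map_nsmul, ι.apply_symm_apply])
    have hZ1 : (fun g => ι.symm (C g) - D.cb R g) ∈ D.ZH ⊤ := by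
      refine ⟨(sm_top_iff.2 hC.1).comp₂ (D.sm_cb ⊤ R) fun a b => ι.symm a - b,
        fun g _ h _ => ι.injective ?_, fun g hg => absurd trivial hg, i, fun g => ?_⟩
      · have h4 := hι g (ι.symm (C h))
        rw [ι.apply_symm_apply] at h4
        simp only [D.cb_mul, map_add, map_sub, ← h4, ι.apply_symm_apply, hC.2.1 g h]
        abel
      · rw [smul_sub, h3, sub_self]
    obtain ⟨Q, hQ⟩ := exists_two (ι.symm (C D.z) - D.cb R D.z)
    have tQ : Tp Q := Tp.of_two (hQ ▸ ZH_tp hZ1 D.z)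
    have hZ2 : D.cb Q ∈ D.ZH ⊤ := by simpa only [rs_top] using (rs_cb_B (D := D) (H := ⊤) tQ).1
    have hZ := (D.ZH ⊤).add_mem hZ1 hZ2
    set c : GQ → EO := (fun g => ι.symm (C g) - D.cb R g) + D.cb Q with hc
    have h4 : ∀ g, ι (c g) = C g + (pm (twa D.d) g (ι (Q - R)) - ι (Q - R)) := fun g => by
      rw [← hcb, hc, Pi.add_apply, map_add, map_sub, ι.apply_symm_apply, D.cb_sub, map_sub]
      abel
    obtain ⟨j, hj⟩ := hZ.2.2.2
    have h5 : ∀ (K : Type) [Field K] [CharZero K], Apx K → LocTriv (twa D.d) K C →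
        ∃ P : EO, ∀ (σ : Gal K) (τ : GQ), (∀ x, emb ℚ K (τ x) = σ (emb ℚ K x)) →
          c τ = D.cb P τ := fun K _ _ hK hl => by
      obtain ⟨P, hP⟩ := hLAL D.d D.d_ne K hK (fun g => ι (c g)) j
        (fun g => by rw [← map_nsmul, hj, map_zero])
        (by rw [funext h4]; exact hl.add (cob_loc K (ι (Q - R))))
      obtain ⟨P, rfl⟩ := ι.surjective P
      exact ⟨P, fun σ τ h => ι.injective (by rw [hcb]; exact hP σ τ h)⟩
    have co : ∀ g h, c (g * h) = c g + tac D.dl g (c h) := fun g h => hZ.2.1 g trivial h trivial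
    refine ⟨c, ⟨⟨hZ.1, co, ⟨j, hj⟩, fun w => ?_⟩, ?_, ?_⟩, ι (R - Q), funext fun g => ?_⟩
    · have := Fact.mk w.prime
      obtain ⟨P, hP⟩ := h5 ℚ_[w.p] (hLAP.2 w.p) (hC.2.2.2 w.p)
      let w' : Pl := ⟨w.p, w.prime, (PadicAlgCl.valued w.p).v.comap (emb ℚ ℚ_[w.p]), by
        rw [Valuation.comap_apply, map_natCast, ← one_div]
        exact PadicAlgCl.valuation_p w.p⟩
      refine TLOC2.LT.of_eq (w₂ := w') a_CP D.dl_fix co ⟨P, fun g hg => ?_⟩ rfl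
      obtain ⟨σ, hσ⟩ := hDEC w.p w' rfl g hg
      exact hP σ g hσ
    · rw [hc, Pi.add_apply, D.cb_z hF2X tQ, hQ, add_neg_cancel]
    · obtain ⟨P, hP⟩ := h5 ℝ hLAP.1 hC.2.2.1
      have h6 := ZH_re hZ (hP σ₀ _ h2) s⁻¹
      rw [show s⁻¹ * (s * tau * s⁻¹) * s⁻¹⁻¹ = tau by group] at h6
      exact ⟨_, h6⟩
    · change pm (twa D.d) g (ι (R - Q)) - ι (R - Q) = C g - ι (c g)
      rw [h4, ← neg_sub Q R, map_neg, map_neg]
      abel

end Pool.Agent.P.MP_9c97e9_nt.K2
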