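import Pool.Agent.P.MP_9c97e9_nt.K2.BasL

/-! Proof of LTU. -/

namespace Pool.Agent.P.MP_9c97e9_nt.K2

open MP_8b7eba_nt.R2 KT

namespace TLTU

theorem iter (D : Dat) (x : GQ) (P : EO) (n : ℕ) : (tac D.dl x)^[n] P = tac D.dl (x ^ n) P := by
  induction n with
  | zero => simp [tac_one]
  | succ n ih => rw [Function.iterate_succ_apply', ih, pow_succ', D.tmul]

theorem key {D : Dat} {H : Subgroup GQ} {c : GQ → EO} (hc : c ∈ D.ZH H) : ∃ N, ON N ∧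
    ∀ x ∈ H, ∀ r : ℕ, Odd r → x ^ r ∈ N → ∀ y ∈ H, c (x * y) = c y := by
  obtain ⟨i, hi⟩ := hc.2.2.2
  obtain ⟨N, hN, e⟩ := ZH_ker hc
  obtain ⟨N', hN', e'⟩ := D.exists_ON i
  refine ⟨_, hN.inf hN', fun x hx r hr hn y hy => ?_⟩
  have hco : ∀ k, r.gcd (2 ^ k) = 1 := fun k => (Nat.coprime_two_right.2 hr).pow_right k
  obtain ⟨k, hk⟩ := D.exists_pow x i
  have h1 : ∀ P : EO, 2 ^ i • P = 0 → Function.IsFixedPt (tac D.dl x) P := fun P hP => by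
    have h2 : Function.IsPeriodicPt (tac D.dl x) r P := (iter D x P r).trans (e' _ hn.2 P hP)
    have h3 : Function.IsPeriodicPt (tac D.dl x) (2 ^ k) P := (iter D x P _).trans (hk P hP)
    have := h2.gcd h3
    rwa [hco] at this
  have h4 : r • c x = 0 := by
    rw [← e _ (pow_mem hx r) hn.1, ZH_pow hc hx,
      Finset.sum_congr rfl fun j _ => (iter D x _ j).symm.trans ((h1 _ (hi x)).iterate j)]
    simp
  have h5 : c x = 0 := AddMonoid.addOrderOf_eq_one_iff.1 (Nat.eq_one_of_dvd_coprimes (hco i)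
    (addOrderOf_dvd_of_nsmul_eq_zero h4) (addOrderOf_dvd_of_nsmul_eq_zero (hi x)))
  rw [hc.2.1 x hx y hy, h5, zero_add, h1 _ (hi y)]

end TLTU

theorem t_LTU : LTU := by
  intro D w t h2 ht c hc
  obtain ⟨N, hN, e⟩ := TLTU.key hc
  have hU : w.Unif (w.I ⊓ w.D) w.p := by
    rw [inf_eq_left.2 fun g hg => hg.1]
    exact (a_RES w w.D w.loc_D).2.2.2.2.1
  obtain ⟨h3, h4⟩ := a_TAME2 w w.D w.p t h2 w.loc_D hU ⟨ht.1, ht.1.1⟩ ht.2 N hN
  have h5 : c t = 0 → ∀ g ∈ w.I, c g = 0 := fun h0 g hg => by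
    obtain ⟨m, r, hr, hn⟩ := h3 g ⟨hg, hg.1⟩
    have := e _ (mul_mem hg.1 (inv_mem (pow_mem ht.1.1 m))) r hr hn _ (pow_mem ht.1.1 m)
    rw [inv_mul_cancel_right, ZH_pow hc ht.1.1, h0] at this
    simpa using this
  refine ⟨h5, fun φ hφ => ⟨fun h0 h1 => ZH_D_zero hc (h5 h0) hφ h1, ?_⟩⟩
  obtain ⟨r, hr, hn⟩ := h4 1 φ hφ (map_natCast φ _)
    fun g hg => mul_mem (mul_mem hφ.1 hg) (inv_mem hφ.1)
  rw [pow_one] at hn
  have := e _ (mul_mem (mul_mem (mul_mem hφ.1 ht.1.1) (inv_mem hφ.1))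
    (inv_mem (pow_mem ht.1.1 w.p))) r hr hn _ (mul_mem (pow_mem ht.1.1 w.p) hφ.1)
  rw [← mul_assoc, inv_mul_cancel_right, inv_mul_cancel_right, hc.2.1 _ hφ.1 _ ht.1.1,
    hc.2.1 _ (pow_mem ht.1.1 w.p) _ hφ.1, ZH_pow hc ht.1.1] at this
  rw [sub_eq_sub_iff_add_eq_add, add_comm, this, add_comm]

end Pool.Agent.P.MP_9c97e9_nt.K2
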