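import Pool.Agent.P.MP_9c97e9_nt.K2.TF2X
import Pool.Agent.P.MP_9c97e9_nt.KT.TBAS

/-! Assembly of the chapters of the project K2. -/

namespace Pool.Agent.P.MP_9c97e9_nt.K2

open MP_8b7eba_nt.R2 KT Polynomial
open MP_8b7eba_nt.R1 (st)
open MP_8b7eba_nt.R3 (twa kc od e2 c2)

namespace TMAIN

theorem norm_two : ‖(2 : ℚ_[2])‖ = 2⁻¹ := by
  have := Padic.norm_p (p := 2)
  simpa using this

theorem norm_add_two {a : ℚ_[2]} (h1 : ‖a‖ = 1) : ‖a + 2‖ = 1 := by
  rw [Padic.add_eq_max_of_ne (by rw [h1, norm_two]; norm_num), h1, norm_two]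
  norm_num

theorem norm_sub {a : ℚ_[2]} (h1 : ‖a‖ = 1) (h2 : a ^ 2 + a + 2 = 0) : ‖1 - 1 / a‖ = 4⁻¹ := by
  have ha : a ≠ 0 := fun h => by simp [h] at h1
  have h3 : (1 - 1 / a) * a * (a + 2) = -(2 * 2) := by
    field_simp
    linear_combination h2
  have h4 := congrArg norm h3
  rw [norm_mul, norm_mul, h1, norm_add_two h1, norm_neg, norm_mul, norm_two] at h4
  linarith

theorem norm_add {a : ℚ_[2]} (h1 : ‖a‖ = 1) (h2 : a ^ 2 + a + 2 = 0) : ‖1 - -1 / a‖ = 2⁻¹ := by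
  have ha : a ≠ 0 := fun h => by simp [h] at h1
  have h3 : (1 - -1 / a) * a * a = -2 := by
    field_simp
    linear_combination h2
  have h4 := congrArg norm h3
  rw [norm_mul, norm_mul, h1, norm_neg, norm_two] at h4
  linarith

theorem od_eq (D : Dat) : od D.d = D.n := by
  have h := D.hd
  have := D.n2
  unfold od
  rcases D.he with e | e | e | e <;> rcases st_cases D.n with k | k <;> rw [e, k] at h <;>
    split_ifs <;> omega

theorem kc_two (D : Dat) : kc D.d 2 = if D.d % 4 = 1 then jacobiSym 2 D.n else 0 := by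
  have h : e2 D.d = D.e := by rw [e2, od_eq, D.hd, Int.mul_ediv_cancel _ D.st_ne]
  rw [kc, od_eq, h]
  simp only [D.d4]
  rcases D.he with e | e | e | e <;> simp only [e, c2] <;> norm_num <;> exact .inr rfl

/-- the local index at two divided by the Tamagawa number -/
def mm (D : Dat) : ℕ := if D.d % 4 = 1 then D.nn ^ 2 else 1

theorem norm_eps (D : Dat) : ‖(1 - kc D.d 2 / al0) ^ 2‖ * mm D = 1 := by
  obtain ⟨h1, h2⟩ := KT.t_BAS.1
  rw [kc_two, mm]
  split_ifs with h4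
  · have h := D.hd
    rw [D.d4.1 h4, one_mul, st] at h
    have := D.n2
    rw [jacobiSym.at_two D.odd, ZMod.χ₈_nat_eq_if_mod_eight, if_neg (by omega), norm_pow, Dat.nn]
    by_cases k : D.d % 8 = 1
    · rw [if_pos (by split_ifs at h <;> omega), if_pos k, Int.cast_one, norm_sub h1 h2]
      norm_num
    · rw [if_neg (by split_ifs at h <;> omega), if_neg k, Int.cast_neg, Int.cast_one,
        norm_add h1 h2]
      norm_num
  · simp

theorem norm_four : ‖(4 : ℚ_[2])‖ = 4⁻¹ := by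
  rw [show (4 : ℚ_[2]) = 2 * 2 by norm_num, norm_mul, norm_two]
  norm_num

theorem norm_tc (D : Dat) (s : Finset ℕ) :
    ‖((∏ p ∈ s, D.tc p : ℕ) : ℚ_[2])‖ * (∏ p ∈ s, D.tc p : ℕ) = 1 := by
  push_cast
  rw [norm_prod, ← Finset.prod_mul_distrib]
  refine Finset.prod_eq_one fun p _ => ?_
  unfold Dat.tc
  split_ifs <;> simp [norm_four, norm_two]

theorem prod_N (D : Dat) : ∏ p ∈ (30 * D.n).primeFactors, D.N p =
    (∏ p ∈ (30 * D.n).primeFactors, D.tc p) * (mm D * (D.eu 3 * D.eu 5)) := by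
  have h0 : 30 * D.n ≠ 0 := mul_ne_zero (by norm_num) D.n_ne
  have h1 : ∏ p ∈ ({2, 3, 5} : Finset ℕ), (if p = 2 then mm D else D.eu p) =
      ∏ p ∈ (30 * D.n).primeFactors, (if p = 2 then mm D else D.eu p) := by
    refine Finset.prod_subset (fun p hp => ?_) fun p hp hn => ?_
    · simp only [Finset.mem_insert, Finset.mem_singleton] at hp
      rcases hp with rfl | rfl | rfl <;>
        exact Nat.mem_primeFactors.2 ⟨by norm_num, Dvd.dvd.mul_right (by norm_num) _, h0⟩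
    · obtain ⟨a, b, -⟩ := Nat.mem_primeFactors.1 hp
      simp only [Finset.mem_insert, Finset.mem_singleton, not_or] at hn
      rw [if_neg hn.1, Dat.eu, if_pos (((Nat.Prime.dvd_mul a).1 b).resolve_left fun c => ?_)]
      have := Nat.le_of_dvd (by norm_num) c
      interval_cases p <;> first | omega | norm_num at a
  have h2 : mm D * (D.eu 3 * D.eu 5) =
      ∏ p ∈ ({2, 3, 5} : Finset ℕ), (if p = 2 then mm D else D.eu p) := by simp
  rw [h2, h1, ← Finset.prod_mul_distrib]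
  refine Finset.prod_congr rfl fun p hp => ?_
  unfold Dat.N Dat.tc Dat.eu mm Dat.nn
  split_ifs <;> first | rfl | omega | tauto

theorem norm_odd {t : ℤ} (ht : Odd t) : ‖(t : ℚ_[2])‖ = 1 :=
  le_antisymm (Padic.norm_int_le_one t) (not_lt.1 fun h => by
    have := Padic.norm_intCast_lt_one_iff.1 h
    have := Int.odd_iff.1 ht
    omega)

end TMAIN

open TMAIN in
theorem t_MAIN (hBAS : BAS) (hESX : ESX) (hUBX : UBX) (hIWX : IWX) (hTRX : TRX) (hCASX : CASX)
    (hSHAX : SHAX) (hANA : ANA) (hTOPX : TOPX) (hALV : ALV) (hATM : ATM) (hATO : ATO) : MAIN := by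
  intro d hd h30
  obtain ⟨D, rfl⟩ := hBAS d hd h30
  obtain ⟨z, hz1, hz2⟩ := hESX D
  obtain ⟨F, hF1, hF2, hF3, hF4⟩ := hIWX D
  obtain ⟨hA1, hA2, hA3⟩ := hANA D
  obtain ⟨hT1, hT2⟩ := hTOPX D F _ _ (hUBX D z hz1 hz2) hF1 hF2 hF3 hA1 hA2 hA3
  obtain ⟨hS1, hS2⟩ := hF4 hT1
  obtain ⟨hR1, hR2⟩ := hTRX D
  obtain ⟨hC1, hC2⟩ := hCASX D
  obtain ⟨hH1, hH2⟩ := hSHAX D
  obtain ⟨hp, L, h2, s, hs, h3⟩ := hALV D.d hd
  obtain ⟨hf, t, ht, hc⟩ := hATO D
  have he := norm_eps D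
  have hP := norm_tc D (30 * D.n).primeFactors
  rw [prod_N] at hC2
  rw [hATM D, hc]
  generalize ∏ p ∈ (30 * D.n).primeFactors, D.tc p = P at hP hC2 ⊢
  have P0 : P ≠ 0 := fun e => by simp [e] at hP
  have s0 : s ≠ 0 := fun e => by simp [e] at hs
  have t0 := ht.pos.ne'
  have hF : ‖F.eval 0‖ * mm D = ‖(S0 D.d : ℚ_[2])‖ * ka D.d := by
    have : ‖(ka D.d : ℚ_[2])‖ * ka D.d = 1 := by
      unfold ka
      split_ifs
      · simp [norm_four]
      · rw [show ((16 : ℕ) : ℚ_[2]) = 4 * 4 by norm_num, norm_mul, norm_four]; norm_num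
    rw [hT2, norm_div, norm_mul, eq_inv_of_mul_eq_one_left this, div_inv_eq_mul]
    linear_combination ‖(S0 D.d : ℚ_[2])‖ * ka D.d * he
  have m0 : (mm D : ℝ) ≠ 0 := right_ne_zero_of_mul_eq_one he
  have k0 : (ka D.d : ℝ) ≠ 0 := by unfold ka; split_ifs <;> simp
  let c : ℕ := if D.d < 0 then 4 else 8
  have c0 : c ≠ 0 := by simp only [c]; split_ifs <;> simp
  have r0 : (s * S0 D.d * (4 * t) ^ 2 / (c * P) : ℚ) = 0 ↔ S0 D.d = 0 := by simp [s0, t0, c0, P0]
  have key : S0 D.d ≠ 0 ↔ F.eval 0 ≠ 0 := by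
    refine not_congr ⟨fun h => ?_, fun h => ?_⟩
    · simpa [h, m0] using hF
    · simpa [h, k0] using hF
  have h4 : L 1 * c = s * S0 D.d * (period (twa D.d) : ℂ) := by
    rw [← h3]; simp only [c]; split_ifs <;> simp
  have h5 : L 1 = s * S0 D.d * (period (twa D.d) : ℂ) / c :=
    eq_div_of_mul_eq (by exact_mod_cast c0) h4
  refine ⟨fun p _ => MP_8b7eba_nt.R3.twa_minimal hd p, hf, L, h2,
    s * S0 D.d * (4 * t) ^ 2 / (c * P), ?_, ?_, ?_, fun hr => ?_⟩
  · rw [h5]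
    push_cast
    field_simp
  · rw [r0, h5]
    simp [s0, c0, hp.ne']
  · rw [Ne, r0, ← Ne, key, ← hS1, hR1, hC1, hH1]
  · have hF0 := key.1 (mt r0.2 hr)
    have hfin := hC1.1 (hR1.1 (hS1.2 hF0))
    have e1 := hS2 hF0
    have e2 := hC2 hfin
    rw [← hR2] at e2
    have e3 := congrArg (Nat.cast : ℕ → ℝ) e2
    have u0 : (D.eu 3 * D.eu 5 : ℝ) ≠ 0 := by unfold Dat.eu; split_ifs <;> norm_num
    have e4 : ‖(c : ℚ_[2])‖ * c = 1 ∧ ((if D.d < 0 then 1 else 2 : ℕ) : ℝ) * c = ka D.d := by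
      simp only [c, ka]
      split_ifs
      · simp [norm_four]
      · rw [show ((8 : ℕ) : ℚ_[2]) = 4 * 2 by norm_num, norm_mul, norm_four, norm_two]; norm_num
    have e5 : ‖((s * S0 D.d * (4 * t) ^ 2 / (c * P) : ℚ) : ℚ_[2])‖ =
        ‖(S0 D.d : ℚ_[2])‖ * (c * P) / 16 := by
      have := norm_odd (ht.natCast (R := ℤ))
      push_cast at this ⊢
      simp only [norm_div, norm_mul, norm_pow, norm_odd hs, this, norm_four,
        eq_inv_of_mul_eq_one_left e4.1, eq_inv_of_mul_eq_one_left hP]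
      field_simp
      norm_num
    have e6 : (D.SelN.ncard : ℝ) * (‖(S0 D.d : ℚ_[2])‖ * (c * P) / 16) = 1 := by
      apply mul_left_cancel₀ (mul_ne_zero u0 k0)
      rw [Nat.cast_mul, Nat.cast_mul] at e3
      generalize ((if D.d < 0 then 1 else 2 : ℕ) : ℝ) = u at e3 e4
      push_cast at e3
      linear_combination (-(c : ℝ) * ‖F.eval 0‖ / 16) * e3 + u * c / 4 * e1 -
        D.SelN.ncard * P * c * (D.eu 3 * D.eu 5) / 16 * hF + D.eu 3 * D.eu 5 * e4.2
    rw [← e5, Padic.eq_padicNorm, padicNorm.eq_zpow_of_nonzero hr] at e6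
    rw [← hH2 hfin]
    have e7 : (D.SelN.ncard : ℚ) * ((2 : ℕ) : ℚ) ^ (-padicValRat 2
        (s * S0 D.d * (4 * t) ^ 2 / (c * P) : ℚ)) = 1 := by exact_mod_cast e6
    rw [zpow_neg, mul_inv_eq_one₀ (by positivity)] at e7
    exact_mod_cast e7

end Pool.Agent.P.MP_9c97e9_nt.K2
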