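import Pool.Agent.P.MP_9c97e9_nt.K2.IfJ

/-! Passage from cochains indexed by residue classes to measures. -/

namespace Pool.Agent.P.MP_9c97e9_nt.K2

open scoped NNReal Matrix
open MP_8b7eba_nt.R2 KT
open Filter Topology Polynomial

namespace TMU

theorem mu_apply (z : EA) (k M : ℕ) [Fintype (ZMod M)ˣ] (g : GQ) (W : Wt) :
    mu z k M g W = ∑ δ, W (Function.invFun (cy M) δ) • z k M g δ := by
  unfold mu
  rw [finsum_eq_sum_of_fintype, LinearMap.sum_apply]
  rfl

theorem bound {ι : Type} [Fintype ι] (a : ι → ℚ_[2]) (v : ι → V2) {s t : ℝ} (hs : 0 ≤ s)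
    (ht : 0 ≤ t) (ha : ∀ i, ‖a i‖ ≤ s) (hv : ∀ i, ‖v i‖ ≤ t) : ‖∑ i, a i • v i‖ ≤ s * t :=
  IsUltrametricDist.norm_sum_le_of_forall_le_of_nonneg (mul_nonneg hs ht) fun i _ => by
    rw [norm_smul]
    exact mul_le_mul (ha i) (hv i) (norm_nonneg _) hs

theorem bound1 {ι : Type} [Fintype ι] (a : ι → ℚ_[2]) (v : ι → V2) {k : ℕ}
    (ha : ∀ i, ‖a i‖ ≤ 1) (hv : ∀ i, ‖v i‖ ≤ (2 ^ k)⁻¹) : ‖∑ i, a i • v i‖ ≤ (2 ^ k)⁻¹ := by
  simpa using bound a v zero_le_one (by positivity) ha hv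

theorem mu_tl (z : EA) (k M : ℕ) [Fintype (ZMod M)ˣ] (hs : Function.Surjective (cy M))
    (g h : GQ) (W : Wt) (hW : Wi M W) : mu z k M h (tl W g) =
      ∑ δ, W (Function.invFun (cy M) δ) • z k M h (δ * (cy M g)⁻¹) := by
  rw [mu_apply, ← Equiv.sum_comp (Equiv.mulRight (cy M g))
    fun δ => W (Function.invFun (cy M) δ) • z k M h (δ * (cy M g)⁻¹)]
  refine Finset.sum_congr rfl fun δ _ => ?_
  simp only [Equiv.coe_mulRight, mul_inv_cancel_right, tl]
  congr 1
  refine hW.2 _ _ ?_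
  rw [map_mul, Function.rightInverse_invFun hs, Function.rightInverse_invFun hs]

theorem mu_psh (hC : CYB) (z : EA) (k M l : ℕ) [Fintype (ZMod M)ˣ] (hM : M ≠ 0) (hl : l ≠ 0)
    (g : GQ) (W : Wt) (hW : Wi M W) : mu z k (M * l) g W =
      ∑ ε, W (Function.invFun (cy M) ε) • psh M l (z k (M * l) g) ε := by
  classical
  have := Fintype.ofFinite (ZMod (M * l))ˣ
  have hN := mul_ne_zero hM hl
  simp only [psh, finsum_eq_sum_of_fintype, Finset.smul_sum, smul_ite, smul_zero]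
  rw [mu_apply, Finset.sum_comm]
  refine Finset.sum_congr rfl fun δ _ => ?_
  rw [Finset.sum_ite_eq, if_pos (Finset.mem_univ _)]
  congr 1
  refine hW.2 _ _ ?_
  rw [Function.rightInverse_invFun (hC.1 M hM).1, ← (hC.1 M hM).2.2.1 _ (Nat.dvd_mul_right M l) hN,
    Function.rightInverse_invFun (hC.1 _ hN).1]

end TMU

open TMU in
theorem t_MU (hC : CYB) : MU := by
  intro D z hz
  have hF : ∀ M : ℕ, Fintype (ZMod M)ˣ := fun M => Fintype.ofFinite _
  refine ⟨⟨?_, ?_, ?_, ?_, ?_, ?_⟩, ?_⟩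
  · intro k M g W ε hε hW
    rw [mu_apply]
    simpa using bound _ _ hε zero_le_one (fun _ => hW _) fun δ => hz.int k M g δ
  · intro k M hL
    obtain ⟨N, hN, h⟩ := hz.sm k M hL
    refine ⟨N, hN, fun g hg n hn hn' => ?_⟩
    unfold mu
    rw [h g hg n hn hn']
  · intro k M hL g h W hW
    rw [mu_tl z k M (hC.1 M hL.1).1 g h W hW, mu_apply, mu_apply, Matrix.mulVec_sum,
      ← Finset.sum_sub_distrib, ← Finset.sum_sub_distrib]
    simp only [Matrix.mulVec_smul, ← smul_sub]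
    exact bound1 _ _ (fun _ => hW.1 _) (hz.co k M hL g h)
  · intro k M hL W hW
    rw [mu_apply]
    exact bound1 _ _ (fun _ => hW.1 _) (hz.nz k M hL)
  · intro k M hL g W hW
    rw [mu_psh hC z k M 2 hL.1 two_ne_zero g W hW, mu_apply, ← Finset.sum_sub_distrib]
    simp only [← smul_sub]
    exact bound1 _ _ (fun _ => hW.1 _) (hz.two k M hL g)
  · intro k M w φ hL hw hφ g W hW
    have hc := (((hC.1 M hL.1).2.2.2 w fun h => hw (h.mul_left _)).2 φ hφ).1
    rw [mu_psh hC z k M w.p hL.1 w.prime.ne_zero g W hW,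
      mu_tl z k M (hC.1 M hL.1).1 φ g W hW, mu_tl z k M (hC.1 M hL.1).1 (φ * φ) g W hW, mu_apply,
      map_mul, hc, ← sq, ← inv_pow, Finset.smul_sum, Finset.smul_sum, ← Finset.sum_sub_distrib,
      ← Finset.sum_add_distrib, ← Finset.sum_sub_distrib]
    simp only [smul_comm _ (W _), ← smul_sub, ← smul_add]
    exact bound1 _ _ (fun _ => hW.1 _) (hz.hec k M w.p hL w.prime hw g)
  · intro k j g
    have h1 : ck (D := D) ∅ k = 2 ^ (k + 2) := by simp [ck]
    have h2 : wt (D := D) ∅ k = 1 := by simp [wt]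
    unfold der
    rw [h1, h2, one_mul, @mu_apply z k _ (by infer_instance), Finset.sum_filter]
    refine Finset.sum_congr (by congr; exact Subsingleton.elim _ _) fun δ _ => ?_
    rw [ind, ← (hC.2.2 k).1, Function.rightInverse_invFun (hC.1 _ (by positivity)).1]
    split_ifs <;> simp

end Pool.Agent.P.MP_9c97e9_nt.K2
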