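import Pool.Agent.P.MP_9c97e9_nt.K2.BasK

/-! Proof of OB2. -/

namespace Pool.Agent.P.MP_9c97e9_nt.K2

open scoped Matrix
open MP_8b7eba_nt.R2 KT K2.BK TIW0
open MP_8b7eba_nt.R1 (st)

namespace TOB2

/-- the digit of a small number -/
noncomputable def dg (j : ℕ) (x : ℚ_[2]) : ZMod 2 := rz (x / 2 ^ j)

/-- the vector with two digits -/
noncomputable def xv (s t : ZMod 2) : V2 := ![s.val, t.val]

variable {j : ℕ} {x y : ℚ_[2]}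

theorem nd (j : ℕ) (x : ℚ_[2]) : ‖x / 2 ^ j‖ = 2 ^ j * ‖x‖ := by
  rw [norm_div, norm_pow, norm_two, inv_pow, div_inv_eq_mul, mul_comm]

theorem d1 (h : ‖x‖ ≤ (2 ^ j)⁻¹) : ‖x / 2 ^ j‖ ≤ 1 := by
  rwa [nd, ← le_div_iff₀' (by positivity), one_div]

theorem d2 : ‖x / 2 ^ j‖ ≤ 2⁻¹ ↔ ‖x‖ ≤ (2 ^ (j + 1))⁻¹ := by
  rw [nd, ← le_div_iff₀' (by positivity), pow_succ, mul_inv, div_eq_mul_inv, mul_comm]

theorem hf (j : ℕ) : ((2 : ℝ) ^ (j + 1))⁻¹ ≤ (2 ^ j)⁻¹ :=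
  inv_anti₀ (by positivity) (pow_le_pow_right₀ one_le_two j.le_succ)

theorem hm (j : ℕ) : (2⁻¹ : ℝ) * (2 ^ j)⁻¹ = (2 ^ (j + 1))⁻¹ := by rw [pow_succ', mul_inv]

theorem dg_congr (h : ‖x‖ ≤ (2 ^ j)⁻¹) (e : ‖y - x‖ ≤ (2 ^ (j + 1))⁻¹) : dg j y = dg j x :=
  (rz_eq (d1 (by simpa using le_add (e.trans (hf j)) h)) (d1 h)).2 (by rwa [← sub_div, d2])

theorem dg_add (h : ‖x‖ ≤ (2 ^ j)⁻¹) (h' : ‖y‖ ≤ (2 ^ j)⁻¹) : dg j (x + y) = dg j x + dg j y := by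
  rw [dg, add_div, rz_add (d1 h) (d1 h'), dg, dg]

theorem dg_can (h : ‖x‖ ≤ (2 ^ j)⁻¹) : ‖x + 2 ^ j * (dg j x).val‖ ≤ (2 ^ (j + 1))⁻¹ := by
  rw [← d2, add_div, mul_div_cancel_left₀ _ (pow_ne_zero j two_ne_zero),
    ← rz_eq_zero (le_add (d1 h) (norm_val _)), rz_add (d1 h) (norm_val _), rz_val, dg, LC.two]

theorem sm_le {v : V2} {r : ℝ} (j : ℕ) (h : ‖v‖ ≤ r) : ‖(2 ^ j : ℚ_[2]) • v‖ ≤ r * (2 ^ j)⁻¹ := by
  rw [norm_smul, norm_pow, norm_two, inv_pow, mul_comm]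
  exact mul_le_mul_of_nonneg_right h (by positivity)

theorem co_le {v : V2} {r : ℝ} (h : ‖v‖ ≤ r) (i : Fin 2) : ‖v i‖ ≤ r :=
  (norm_le_pi_norm v i).trans h

variable (D : Dat)

theorem rd_sub' (g : GQ) {v : V2} (h : ‖v‖ ≤ (2 ^ j)⁻¹) : ‖D.rp g *ᵥ v - v‖ ≤ (2 ^ (j + 1))⁻¹ :=
  (rd_sub D g v).trans (hm j ▸ mul_le_mul_of_nonneg_left h (by norm_num))

theorem rd_add' (g : GQ) {v : V2} (h : ‖v‖ ≤ (2 ^ j)⁻¹) : ‖v + D.rp g *ᵥ v‖ ≤ (2 ^ (j + 1))⁻¹ := by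
  have h1 := sm_le 1 h
  rw [pow_one, pow_one, mul_comm, hm, two_smul] at h1
  rw [show v + D.rp g *ᵥ v = (D.rp g *ᵥ v - v) + (v + v) by abel]
  exact le_add (rd_sub' D g h) h1

theorem rd_tt (s : GQ) (v : V2) : D.rp (ts s) *ᵥ D.rp (ts s) *ᵥ v = v := by
  rw [← rd_mulVec, ts_ts, rd_one, Matrix.one_mulVec]

theorem ch_add {H : Subgroup GQ} {χ : GQ → ZMod 2} (h : IsCh H χ) (e : ZMod 2) (m : ℤ) :
    IsCh H fun g => χ g + e * qz m g :=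
  ⟨h.1.comp₂ (isCh_qz m).1 fun a b => a + e * b, fun g hg k hk => by
    beta_reduce
    rw [h.2 g hg k hk, (isCh_qz (H := H) m).2 g hg k hk]; ring⟩

variable {D} {k i : ℕ} {c : GQ → V2}

theorem chi0 (hCH : CH) (hp : D.Zp k (i + 1) c) (hq : D.Zm k i c) :
    ∃ χ, Ch0 k χ ∧ ∀ s, χ (ts s) = dg (i + 1) ((c (ts s) + D.rp (ts s) *ᵥ c (ts s)) 0) := by
  refine (hCH k).2.2.1 _ fun u hu s => dg_congr (co_le (hq.re s) 0) ?_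
  have e1 := hp.co _ (KI_le k (ts_mem (u * s))) u hu
  have e2 := hp.co u hu _ (KI_le k (ts_mem s))
  have e3 : ts (u * s) * u = u * ts s := by rw [ts_mul, inv_mul_cancel_right]
  have e4 : ∀ v, D.rp (ts (u * s)) *ᵥ D.rp u *ᵥ v = D.rp u *ᵥ D.rp (ts s) *ᵥ v := fun v => by
    rw [← rd_mulVec, e3, rd_mulVec]
  rw [e3] at e1
  have h1 := le_add (rd_add' D (ts (u * s)) (le_sub e2 e1)) (rd_sub' D u (hq.re s))
  simp only [Matrix.mulVec_sub, Matrix.mulVec_add, rd_tt, e4] at h1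
  refine co_le (v := _ - _) (le_of_eq_of_le (congrArg _ ?_) h1) 0
  abel

theorem unr_ext (D : Dat) {χ β : GQ → ZMod 2} (h : IsCh (w2.D ⊓ KP k) χ)
    (h' : IsCh (w2.D ⊓ KP k) β) (hI : ∀ j ∈ w2.I ⊓ KP k, χ j = β j) (h0 : χ D.f2 = β D.f2) :
    ∀ g ∈ w2.D ⊓ KP k, χ g = β g := by
  intro g hg
  have hf2 : D.f2 ∈ w2.D ⊓ KP k := ⟨D.fr.1, KI_le k (f2_mem D)⟩
  obtain ⟨N, hN, h1⟩ := h.1
  obtain ⟨N', hN', h2⟩ := h'.1
  obtain ⟨f, φ, -, hφ, hf, -, -, hd⟩ := a_FROB w2 _ (w2.loc_inf (on_KP k).2)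
  obtain ⟨m, l, hl, n, hn, rfl⟩ := hd _ (hN.inf hN') g hg
  have h3 := (D.fr.pow f).inv_mul (by rwa [one_mul])
  have h4 := mul_mem (inv_mem (pow_mem hf2 f)) hφ
  have e : χ φ = β φ := by
    rw [← mul_inv_cancel_left (D.f2 ^ f) φ, h.2 _ (pow_mem hf2 f) _ h4, h'.2 _ (pow_mem hf2 f) _ h4,
      h.pow hf2, h'.pow hf2, h0, hI _ ⟨h3, h4.2⟩]
  have h5 := mul_mem (pow_mem hφ m) hl.2
  rw [h1 _ h5 n hn.2 hn.1.1, h2 _ h5 n hn.2 hn.1.2, h.2 _ (pow_mem hφ m) _ hl.2,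
    h'.2 _ (pow_mem hφ m) _ hl.2, h.pow hφ, h'.pow hφ, e, hI l ⟨hl.1, hl.2.2⟩]

theorem chi1 (hCH : CH) (hp : D.Zp k (i + 1) c) (hq : D.Zm k i c) :
    ∃ χ, IsCh (KP k) χ ∧ (∀ w : Pl, ¬ w.p ∣ 30 * D.n → ∀ j ∈ w.I, χ j = 0) ∧
      χ D.z = dg i (c D.z 1) ∧ ∃ v, ∀ g ∈ w2.D ⊓ KP k,
        ‖c g 1 - (D.rp g 1 1 - 1) * v + 2 ^ i * (χ g).val‖ ≤ (2 ^ (i + 1))⁻¹ := by
  obtain ⟨v, b7⟩ := hq.ord
  obtain ⟨y, hy⟩ : ∃ y : GQ → ℚ_[2], ∀ g, y g = c g 1 - (D.rp g 1 1 - 1) * v := ⟨_, fun _ => rfl⟩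
  simp only [← hy] at b7
  have a2 : ∀ g, ‖D.rp g 1 1 - 1‖ ≤ 2⁻¹ := fun g => by simpa using D.rp_two g 1 1
  have b1 : ∀ g ∈ w2.D ⊓ KP k, ∀ h ∈ KP k,
      ‖y (g * h) - y g - D.rp g 1 1 * y h‖ ≤ (2 ^ (i + 1))⁻¹ := fun g hg h hh => by
    have := co_le (hp.co g hg.2 h hh) 1
    rw [Pi.sub_apply, Pi.sub_apply, rd_D hg.1] at this
    refine le_of_eq_of_le (congrArg _ ?_) this
    rw [hy, hy, hy, rd_mul11 hg.1]
    ring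
  have b2 : ∀ g ∈ w2.D ⊓ KP k, ∀ h ∈ KP k, ‖y h‖ ≤ (2 ^ i)⁻¹ →
      ‖y (g * h) - (y g + y h)‖ ≤ (2 ^ (i + 1))⁻¹ := fun g hg h hh e => by
    have h1 : ‖(D.rp g 1 1 - 1) * y h‖ ≤ (2 ^ (i + 1))⁻¹ := by
      rw [norm_mul, ← hm]
      exact mul_le_mul (a2 g) e (norm_nonneg _) (by norm_num)
    refine le_of_eq_of_le (congrArg _ ?_) (le_add (b1 g hg h hh) h1)
    ring
  obtain ⟨N, hN, h1⟩ := hp.sm
  obtain ⟨N', hN', h2⟩ := D.rp_sm (ε := (2 ^ (i + 1))⁻¹ / (‖v‖ + 1)) (by positivity)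
  have b6 : ∀ g ∈ w2.D ⊓ KP k, ∀ n ∈ KP k, n ∈ N ⊓ N' →
      ‖y (g * n) - y g‖ ≤ (2 ^ (i + 1))⁻¹ := fun g hg n hn e => by
    have h3 := h2 n e.2 1 1
    rw [Matrix.sub_apply, Matrix.one_apply_eq, le_div_iff₀ (by positivity)] at h3
    rw [hy, hy, h1 g hg.2 n hn e.1, rd_mul11 hg.1, show c g 1 - (D.rp g 1 1 * D.rp n 1 1 - 1) * v -
      (c g 1 - (D.rp g 1 1 - 1) * v) = -(D.rp g 1 1 * ((D.rp n 1 1 - 1) * v)) by ring, norm_neg,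
      norm_mul, norm_mul]
    refine (mul_le_of_le_one_left (by positivity) (D.rp_le g 1 1)).trans (le_trans ?_ h3)
    exact mul_le_mul_of_nonneg_left (by linarith) (norm_nonneg _)
  have hβ : IsCh (w2.D ⊓ KP k) fun g => dg i (y g) := ⟨⟨_, hN.inf hN', fun g hg n hn e =>
    dg_congr (b7 g hg) (b6 g hg n hn.2 e)⟩, fun g hg h hh => by
      rw [← dg_add (b7 g hg) (b7 h hh)]
      exact dg_congr (le_add (b7 g hg) (b7 h hh)) (b2 g hg h hh.2 (b7 h hh))⟩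
  obtain ⟨χ, h3, h4⟩ := (hCH k).2.1 _ hβ
  obtain ⟨s, hs⟩ : ∃ s, s = dg i (c D.z 1) - χ D.z := ⟨_, rfl⟩
  obtain ⟨t, ht⟩ : ∃ t, t = dg i (y D.f2) - (χ D.f2 + s * qz (st D.n) D.f2) := ⟨_, rfl⟩
  have h5 := ch_add (ch_add h3.1 s (st D.n)) t 5
  refine ⟨_, h5, fun w hw j hj => ?_, by simp [qz_z D, hs], v, fun g hg => ?_⟩
  · simp [h3.2 w (odd hw) j hj, qz_unr (st_dvd D) hw hj,
      qz_unr (m := 5) (Dvd.dvd.mul_right (by norm_num) _) hw hj]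
  · rw [← hy, unr_ext D (h5.mono inf_le_right) hβ (fun j hj => ?_) ?_ g hg]
    · exact dg_can (b7 g hg)
    · simp [qz5_frob D.fr, ht]
    · simp [h4 j hj, qz_two_I hj.1, qz_I_two (w := w2) (m := 5) rfl (by norm_num) hj.1]

/-- a vector which is fixed by a complex conjugation -/
theorem fix_le (hR : RTS) (D : Dat) (s : GQ) {u : V2} (e : D.rp (ts s) *ᵥ u = u) :
    ‖u 1‖ ≤ ‖u 0‖ := by
  obtain ⟨-, -, h1, h2⟩ := rp_ts D hR s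
  have h3 : 2 * u 1 = D.rp (ts s) 1 0 * u 0 + (D.rp (ts s) 1 1 + 1) * u 1 := by
    have := congrFun e 1
    rw [LC.mv] at this
    linear_combination -this
  have h4 := Padic.nonarchimedean (D.rp (ts s) 1 0 * u 0) ((D.rp (ts s) 1 1 + 1) * u 1)
  rw [← h3, norm_mul, norm_mul, norm_mul, norm_two] at h4
  have h5 := norm_nonneg (u 0)
  have h6 := norm_nonneg (u 1)
  rcases le_max_iff.1 h4 with h | h <;> nlinarith

end TOB2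

open TOB2 in
theorem t_OB2 (hCH : CH) (hRTS : RTS) : OB2 := by
  intro D k i c hp hq
  obtain ⟨χ, h1, h2⟩ := chi0 hCH hp hq
  obtain ⟨b, k1, h3, h4, v, hv⟩ := chi1 hCH hp hq
  have k0 := ch_add h1.1 (dg i (c D.z 0) - χ D.z) D.n
  obtain ⟨a, ha⟩ : ∃ a : GQ → ZMod 2, a = fun g => χ g + (dg i (c D.z 0) - χ D.z) * qz D.n g :=
    ⟨_, rfl⟩
  rw [← ha] at k0
  have x1 : ∀ g, ‖xv (a g) (b g)‖ ≤ 1 := fun g =>
    LC.pi (norm_val _) (norm_val _) rfl rfl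
  have x2 : ∀ s t : ZMod 2, ‖((s + t).val - s.val - t.val : ℚ_[2])‖ ≤ 2⁻¹ := fun s t => by
    have : ‖(((s + t).val - s.val - t.val : ℤ) : ℚ_[2])‖ ≤ 2⁻¹ := by
      rw [LC.int2]; revert s t; decide
    simpa using this
  have x3 : ∀ g, ‖(2 ^ i : ℚ_[2]) • xv (a g) (b g)‖ ≤ (2 ^ i)⁻¹ := fun g =>
    (sm_le i (x1 g)).trans (one_mul _).le
  refine ⟨fun g => c g + (2 ^ i : ℚ_[2]) • xv (a g) (b g), ⟨⟨?_, fun g => ?_,
    fun g hg h hh => ?_, fun w hw g hg => ?_⟩, ?_, ⟨v, fun g hg => ?_⟩, fun s => ?_⟩,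
    fun g => by simpa only [add_sub_cancel_left] using x3 g⟩
  · exact hp.sm.comp₂ (k0.1.comp₂ k1.1 xv)
      fun v x => v + (2 ^ i : ℚ_[2]) • x
  · exact le_add (hp.int g) ((x3 g).trans (inv_le_one_of_one_le₀ (one_le_pow₀ one_le_two)))
  · have e1 : ‖xv (a (g * h)) (b (g * h)) - xv (a g) (b g) - xv (a h) (b h)‖ ≤ 2⁻¹ := by
      rw [k0.2 g hg h hh, k1.2 g hg h hh]
      exact LC.pi (x2 _ _) (x2 _ _) rfl rfl
    have e2 := sm_le i (le_sub e1 ((rd_sub D g _).trans (mul_le_of_le_one_right (by norm_num) (x1 h))))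
    rw [hm] at e2
    refine le_of_eq_of_le (congrArg _ ?_) (le_add (hp.co g hg h hh) e2)
    simp only [Matrix.mulVec_add, Matrix.mulVec_smul, smul_sub]
    abel
  · have e1 : a g = 0 := by
      rw [ha]; simp [h1.2 w (odd hw) g hg, qz_unr (Dvd.intro_left 30 rfl) hw hg]
    rw [e1, h3 w hw g hg, show xv 0 0 = 0 by simp [xv], smul_zero, add_zero]
    exact hp.unr w hw g hg
  · have e1 : a D.z = dg i (c D.z 0) := by rw [ha]; simp [qz_z D]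
    rw [e1, h4]
    exact LC.pi (dg_can (co_le hq.nz 0)) (dg_can (co_le hq.nz 1)) rfl rfl
  · rw [Pi.add_apply, add_sub_right_comm]
    exact hv g hg
  · have e1 : a (ts s) = dg (i + 1) ((c (ts s) + D.rp (ts s) *ᵥ c (ts s)) 0) := by
      rw [ha]; simp only [qz_ts_n D s, h2 s, mul_zero, add_zero]
    have e6 := dg_can (co_le (hq.re s) 0)
    rw [← e1] at e6
    obtain ⟨r1, r2, -⟩ := rp_ts D hRTS s
    have e4 : ‖(2 : ℚ_[2]) ^ i * ((D.rp (ts s) 0 0 - 1) * (a (ts s)).val +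
        D.rp (ts s) 0 1 * (b (ts s)).val)‖ ≤ (2 ^ (i + 1 + 1))⁻¹ := by
      rw [norm_mul, norm_pow, norm_two, inv_pow, ← hm, ← hm, ← mul_assoc, mul_comm]
      refine mul_le_mul_of_nonneg_right (le_add ?_ ?_) (by positivity) <;> rw [norm_mul]
      · nlinarith [norm_val (a (ts s)), norm_nonneg (D.rp (ts s) 0 0 - 1)]
      · nlinarith [norm_val (b (ts s)), norm_nonneg (D.rp (ts s) 0 1)]
    generalize hu : _ + D.rp (ts s) *ᵥ _ = u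
    have e3 : D.rp (ts s) *ᵥ u = u := by rw [← hu, Matrix.mulVec_add, rd_tt, add_comm]
    have e7 : ‖u 0‖ ≤ (2 ^ (i + 1 + 1))⁻¹ := by
      refine le_of_eq_of_le (congrArg _ ?_) (le_add e6 e4)
      rw [← hu]
      simp only [Pi.add_apply, Pi.smul_apply, LC.mv, xv, smul_eq_mul, Matrix.cons_val_zero,
        Matrix.cons_val_one]
      ring
    exact LC.pi e7 ((fix_le hRTS D s e3).trans e7) rfl rfl

end Pool.Agent.P.MP_9c97e9_nt.K2
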