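import Pool.Agent.P.MP_9c97e9_nt.K2.IfJ

/-! Proof of PKOLQ. -/

namespace Pool.Agent.P.MP_9c97e9_nt.K2

open scoped NNReal Matrix
open MP_8b7eba_nt.R2 KT
open Filter Topology Polynomial Module

namespace TPKOLQ

theorem idx (w : Pl) : 1 * w.D.relIndex w.I = w.D.relIndex w.D := by
  rw [Subgroup.relIndex_self, Subgroup.relIndex_eq_one.2 w.I_le_D]

theorem loc {D : Dat} (l : Kp D) (k : ℕ) :
    (l.w k).p ≠ 2 ∧ ∀ g ∈ (l.w k).D, 2 ^ k ∣ (cyc g : ℤ_[2]) - 1 := by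
  have hA := a_CA
  have h2 : (l.w k).p ≠ 2 := fun e => l.big k (by rw [e]; exact ⟨15 * D.n, by ring⟩)
  refine ⟨h2, fun g hg => ?_⟩
  obtain ⟨N, h8, h9⟩ := hA.ec.2.2.2.2.1 k
  obtain ⟨m, i, hi, n, hn, rfl⟩ :=
    TUPERPA.frob hA.frob (Pl.loc_D _) (l.fr k).1 (l.fr k) (idx _) h8 hg
  refine (h9 _).1 (mul_mem (mul_mem (pow_mem ((h9 _).2 ?_) m) ((h9 _).2 ?_)) hn.1)
  · rw [hA.ec.2.2.2.2.2.1 _ _ _ h2 (l.fr k), pow_one]
    obtain ⟨c, hc⟩ := (l.one k).symm.dvd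
    refine ⟨4 * c, ?_⟩
    have := congrArg (fun z : ℤ => (z : ℤ_[2])) hc
    push_cast at this
    rw [this]
    ring
  · simp [hA.ec.2.2.2.2.2.2.1 _ h2 i hi.1]

end TPKOLQ

open TPKOL TPKOLQ in
theorem t_PKOLQ : PKOLQ := by
  intro D l
  have hA := a_CA
  have hE := hA.ec.1
  have hPIX := a_PIX
  choose l1 l7 using TPKOLQ.loc l
  have un : ∀ k, (l.w k).Unif (l.w k).D (l.w k).p := fun k =>
    (hA.res _ _ (Pl.loc_D _)).2.2.2.1
  set H := fun k => (l.w k).D with hH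
  have hw : ∀ k, (l.w k).Loc (H k) := fun k => Pl.loc_D _
  have hph : ∀ k, l.F k ∈ H k := fun k => (l.fr k).1
  have mt : l.t ∈ St H := Eventually.of_forall fun k => Pl.I_le_D _ (l.tI k)
  have h1 : ∀ g ∈ St H, cS g = 1 := fun g hg => by
    refine tendsto_nhds_unique (tendsto_cS g) (Metric.tendsto_nhds.2 fun ε e => ?_)
    filter_upwards [hg, ev_small (half_pos e)] with k a1 a2
    rw [dist_eq_norm]
    exact ((TPKOL.small (by simpa [cq] using TTATE.co (m := 1) (by simpa using l7 k _ a1))).trans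
      a2).trans_lt (half_lt_self e)
  have fx : ∀ k, ∀ g ∈ H k, ∀ z : Om, z ^ 2 ^ k = 1 → g z = z := fun k g hg z e => by
    simpa using hA.ec.2.2.1 g k 1 z e (by simpa using l7 k g hg)
  have q0 : ∀ k, ((l.w k).p : Om) ≠ 0 := fun k => (un k).2.1
  choose χ c1 c2 c3 using fun k =>
    TUPERPA.chi hA.frob (hw k) (hph k) (l.fr k) (idx _) hA.uch k
  have ga := gd_val c1
  obtain ⟨b, gb, hb⟩ := kum hE q0 (fun _ => fix_nat _) fx
  have ab : PI l.w H (fun g g' => TPKOL.X (fun k g => (χ k g).val) g * TPKOL.X b g') = 1 := by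
    have h2 := (hPIX _ H hw _ (ga.pz2 gb h1)).1 _ (ga.ap2 gb)
    generalize PI l.w H _ = t at h2
    refine sub_eq_zero.1 (norm_le_zero_iff.1 (le_of_forall_pos_le_add fun ε e => ?_))
    obtain ⟨i, hi⟩ := (ev_small e).exists
    obtain ⟨k, h3, h4⟩ := ((h2 i).and (ev_ge i)).exists
    obtain ⟨j, rfl⟩ := Nat.exists_eq_add_of_le h4
    obtain ⟨β, b1, b2⟩ := hb i j
    let χ' := fun g => ZMod.castHom (pow_dvd_pow 2 h4) (ZMod (2 ^ i)) (χ _ g)
    have d1 : IsCh (H (i + j)) χ' :=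
      ⟨(c1 _).1.comp _, fun g hg g' hg' => by simp only [χ', (c1 _).2 g hg g' hg', map_add]⟩
    obtain ⟨d2, d3, -, -, -, -, d4⟩ :=
      hA.cup (H (i + j)) _ (fix_nat _) (q0 (i + j)) _ χ' (by positivity) d1
    have d5 := (d4 β b1).2.congr (f' := cup χ' (l.w (i + j)).p / fun g h =>
        ec ((χ (i + j) g).val * b (i + j) h / 2 ^ i)) fun g hg h _ => by
      have d6 : (h β / β) ^ 2 ^ i = 1 := by rw [div_pow, ← map_pow, b1, map_natCast, div_self (q0 _)]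
      simp only [Pi.div_apply, χ', ZMod.castHom_apply, ZMod.cast_eq_val, ZMod.val_natCast]
      rw [mul_div_assoc, ec_nat hE, b2, ← pow_eq_pow_mod _ (by rw [← map_pow, d6, map_one]),
        fx _ g hg _ (by rw [pow_add, pow_mul, d6, one_pow])]
    rw [← hA.inv2.1 _ _ _ _ (hw _) ⟨d2, i, d3⟩ ((d2.div d5.co2).congr fun g hg h hh =>
        (div_div_cancel₀ (d2.ne g hg h hh)).symm) d5,
      a_LOCV _ _ i 1 χ' _ _ _ 1 (l1 _) (hw _) d1 (fun g hg => by simp only [χ', c2 _ g hg, map_zero])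
        (hph _) (l.fr _) (idx _) (un _) (fix_nat _) (q0 _)
        (zpow_one _).symm, ec_eq hE, ← sub_div] at h3
    have d7 := (TEC.norm_iff i (1 - (χ' (l.F (i + j))).val * 1)).2
      ((ZMod.intCast_zmod_eq_zero_iff_dvd _ _).1 (by simp only [χ', c3, map_one]; simp))
    rw [zero_add, ← norm_neg]
    refine (TPKOL.small (k := i) ?_).trans hi
    have d8 := TTATE.ultra h3 d7
    rwa [← add_div, Int.cast_sub, sub_add_sub_cancel', Int.cast_one, ← neg_sub] at d8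
  have a1 : TPKOL.X (fun k g => (χ k g).val) l.F = 1 :=
    ul_eq (tendsto_const_nhds.congr' ((ev_ge 1).mono fun k hk => by
      simp only [c3]
      rw [ZMod.val_one_eq_one_mod, Nat.mod_eq_of_lt (Nat.one_lt_two_pow (by omega)), Nat.cast_one]))
  have a2 : ∀ g ∈ St fun k => (l.w k).I, TPKOL.X (fun k g => (χ k g).val) g = 0 := fun g hg =>
    ul_eq (tendsto_const_nhds.congr' (Eventually.mono hg fun k hk => by
      simp [c2 k _ ⟨hk, Pl.I_le_D _ hk⟩]))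
  have u0 : TPKOL.X b l.t ≠ 0 := by
    refine norm_pos_iff.1 (lt_of_lt_of_le (by norm_num : (0 : ℝ) < 2⁻¹)
      (ge_of_tendsto (gb.ap.lim _ mt).norm ((ev_ge 1).mono fun k hk => ?_)))
    obtain ⟨j, rfl⟩ := Nat.exists_eq_add_of_le hk
    obtain ⟨β, b1, b2⟩ := hb 1 j
    refine not_lt.1 fun e => ?_
    have h2 := (hE.eq_one (b (1 + j) (l.t (1 + j)) / 2 ^ 1)).2 (by
      rw [norm_div, TTATE.n2, div_le_one (by positivity), pow_one]; exact e.le)
    rw [b2, l.mov _ β b1, neg_div_self fun e => q0 _ (by rw [← b1, e]; simp)] at h2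
    norm_num at h2
  generalize (fun k g => ((χ k g).val : ℚ_[2])) = a at *
  refine ⟨h1, (TPKOL.X b l.t)⁻¹ • TPKOL.X b, -(TPKOL.X b l.t)⁻¹, neg_ne_zero.2 (inv_ne_zero u0),
    gb.pz.smul (G := ⊤) rep_id _, by simp [u0], fun y hy hu => ?_⟩
  have key : ∀ g ∈ St H, y g = y l.F * TPKOL.X a g := by
    intro g hg
    have z := hy.sub (G := ⊤) rep_id (ga.pz.smul (G := ⊤) rep_id (y l.F))
    rw [← sub_eq_zero]
    exact a_PFROB ℚ_[2] ⊤ _ l.w l.F (fun _ => 1) _ isOpen_univ ⟨⊤, rep_id, fun _ => le_top⟩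
      (.of_forall fun k => ⟨trivial, l.fr k, by simp⟩) (z.mono fun _ => inf_le_left)
      (by simp [a1]) (fun g hg => by
        have hg' : g ∈ St fun k => (l.w k).I := Eventually.mono hg fun _ h => h.1
        simp [hu g hg', a2 g hg']) g (Eventually.mono hg fun _ h => ⟨h, trivial⟩)
  have p3 := gb.pz2 ga h1
  rw [(hPIX _ H hw _ (p3.smul ((TPKOL.X b l.t)⁻¹ * y l.F))).2.2.1 _ fun g hg h hh => by
      simp only [key h hh, Pi.smul_apply, smul_eq_mul]
      ring,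
    (hPIX _ H hw _ p3).2.2.2.2.1, ga.sym hPIX hw gb h1, ab]
  ring

end Pool.Agent.P.MP_9c97e9_nt.K2
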