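import Pool.Agent.P.MP_9c97e9_nt.K2.BasK

/-! Proof of RTS. -/

namespace Pool.Agent.P.MP_9c97e9_nt.K2

open scoped Matrix
open MP_8b7eba_nt.R2 KT

namespace TRTS

theorem six : ∃ η, Is (T2.pt ![4⁻¹, 0]) 6 η := by
  have e : T2.pt ![4⁻¹, 0] + T2.pt ![4⁻¹, 0] = T2.pt ![2⁻¹, 0] := by
    rw [← map_add]
    congr 1
    ext i
    fin_cases i <;> norm_num
  have h2 := e ▸ T2.t0
  rcases zero_or_is (T2.pt ![4⁻¹, 0]) with h | ⟨x, η, h⟩
  · exact absurd (by rw [h, add_zero]) h2.ne_zero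
  have h0 := (h.two_ne split15).1 h2.ne_zero
  have h3 := UU_sq split15.swap h2
  rw [sub_self, h.UU_eq, eq_comm, pow_eq_zero_iff two_ne_zero, div_eq_zero_iff,
    or_iff_left h0] at h3
  rcases mul_eq_zero.1 (show (x - 6) * (x + 24) = 0 by linear_combination h3) with k | k
  · exact ⟨η, sub_eq_zero.1 k ▸ h⟩
  · have h4 := (T2.e1 ![4⁻¹, 0]).2 (by simp) x η h
    rw [show x = 4 * (-6 : ℤ) by push_cast; linear_combination k, map_mul] at h4
    exact absurd h4 (not_lt.2 (mul_le_of_le_one_right' (w2.v_int_le _)))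

theorem neg (P : EO) : UU (-9) 0 16 (-P) = -UU (-9) 0 16 P := by
  rcases zero_or_is P with rfl | ⟨x, η, h⟩
  · exact neg_zero.symm
  · rw [h.neg.UU_eq, h.UU_eq, div_neg]

end TRTS

open TRTS in
theorem t_RTS : RTS := by
  intro s
  refine le_antisymm (TF2X.four T2 _).2.1 (not_lt.1 fun h => ?_)
  have h8 : ‖T2.rho (ts s) 1 0‖ ≤ 8⁻¹ :=
    ((Padic.norm_le_pow_iff_norm_lt_pow_add_one _ (-3)).2
      (h.trans_eq (by norm_num))).trans_eq (by norm_num)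
  have h0 : ‖T2.rho (ts s) 0 0 + 1‖ ≤ 4⁻¹ := by
    simpa [cq, BK.cyc_ts] using T2.four (ts s) 0 0
  have n8 : ‖(8⁻¹ : ℚ_[2])‖ = 8 := by
    rw [norm_inv, show (8 : ℚ_[2]) = 2 ^ 3 by norm_num, TTATE.n2]
    norm_num
  obtain ⟨η, hC⟩ := six
  obtain ⟨u, hu⟩ : ∃ u : V2, u = ![8⁻¹, 0] := ⟨_, rfl⟩
  rw [show (![4⁻¹, 0] : V2) = u + u by rw [hu]; ext i; fin_cases i <;> norm_num, map_add] at hC
  have e1 : ‖(T2.rho (ts s) *ᵥ u - -u) 1‖ ≤ 1 := by
    rw [show (T2.rho (ts s) *ᵥ u - -u) 1 = T2.rho (ts s) 1 0 * 8⁻¹ by simp [hu]]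
    exact (TF2X.mul_le h8 n8.le).trans (by norm_num)
  have e0 : ‖(T2.rho (ts s) *ᵥ u - -u) 0‖ ≤ 2 := by
    rw [show (T2.rho (ts s) *ᵥ u - -u) 0 = (T2.rho (ts s) 0 0 + 1) * 8⁻¹ by simp [hu, add_mul]]
    exact (TF2X.mul_le h0 n8.le).trans (by norm_num)
  have sp := split15.swap
  have hU : UU (-9) 0 16 (T2.pt u) ^ 2 = ((15 : ℤ) : Om) := by
    rw [← UU_sq sp hC]
    norm_num
  have hg : ts s (UU (-9) 0 16 (T2.pt u)) = UU (-9) 0 16 (ac (ts s) (T2.pt u)) := by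
    have := UU_map (W := W15) (e₁ := -9) (e₂ := 0) (e₃ := 16) (ts s : Om →+* Om) (T2.pt u)
    simp only [map_neg, map_ofNat, map_zero] at this
    exact this.symm
  have hf : ts s (UU (-9) 0 16 (T2.pt u)) = -UU (-9) 0 16 (T2.pt u) := by
    rw [hg, T2.gal, ← neg, ← map_neg]
    rcases TTATE.half e0 with k | k
    · rw [sub_eq_zero.1 ((map_sub ..).symm.trans ((T2.ker _).2
        ((pi_norm_le_iff_of_nonneg zero_le_one).2 (Fin.forall_fin_two.2 ⟨k, e1⟩))))]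
    · have : T2.pt (T2.rho (ts s) *ᵥ u - -u - ![2⁻¹, 0]) = 0 := (T2.ker _).2
        ((pi_norm_le_iff_of_nonneg zero_le_one).2 (Fin.forall_fin_two.2
          ⟨k, (congrArg norm (sub_zero _)).trans_le e1⟩))
      rw [map_sub, map_sub, sub_sub, sub_eq_zero] at this
      rw [this]
      exact (UU_add_aux sp T2.t0 (by rw [map_neg, ← neg_add]; exact hC.neg.ne_zero)).1
  rw [(qz_eq_zero hU).1 ((BK.qz_ts (by decide) s).2 (by decide)), self_eq_neg] at hf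
  rw [hf] at hU
  norm_num at hU

end Pool.Agent.P.MP_9c97e9_nt.K2
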