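import Pool.Agent.P.MP_9c97e9_nt.K2.BasL

/-! Proof of TRA. -/

namespace Pool.Agent.P.MP_9c97e9_nt.K2

open scoped Matrix
open MP_8b7eba_nt.R2 KT

namespace TTRA

/-- the image of an integral vector -/
theorem int (D : Dat) {u : V2} (hu : p0 u = 0) :
    T2.pt (D.Pv *ᵥ u) = 0 ∨ T2.pt (D.Pv *ᵥ u) = pE 2⁻¹ := by
  have h : ∀ i, ‖u i‖ ≤ 1 := fun i => (norm_le_pi_norm u i).trans (p0_eq_zero.1 hu)
  have h2 : 2 • T2.pt (D.Pv *ᵥ u) = 0 := by rw [← D.ph_p0, hu, map_zero]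
  obtain ⟨a, b, e⟩ := exists_s2 h2
  have hb : b = 0 := s2_mem.1 (by rw [← e, D.pt_Pv]; exact pEF_mem.2 (h 1))
  rw [e, hb]
  rcases LA.cases a with rfl | rfl
  · exact .inl s2_zero
  · exact .inr (by simp [s2, LC.v1])

theorem near (D : Dat) {u v : V2} (h : p0 u = p0 v) :
    T2.pt (D.Pv *ᵥ u) = T2.pt (D.Pv *ᵥ v) ∨ T2.pt (D.Pv *ᵥ u) = T2.pt (D.Pv *ᵥ v) + pE 2⁻¹ := by
  have := int D (u := u - v) (by rw [map_sub, h, sub_self])
  rw [Matrix.mulVec_sub, map_sub] at this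
  exact this.imp sub_eq_zero.1 fun e => by rw [← e]; abel

theorem rp (D : Dat) (g : GQ) (v : V2) :
    T2.pt (D.Pv *ᵥ D.rp g *ᵥ v) = tac D.dl g (T2.pt (D.Pv *ᵥ v)) := by
  rw [D.tgal, Matrix.mulVec_mulVec, D.Pv_rp, Matrix.mulVec_mulVec]

theorem line (D : Dat) (x : ℚ_[2]) : T2.pt (D.Pv *ᵥ ![x, 0]) ∈ EG w2 := by
  rw [D.pt_Pv]; exact pEF_mem.2 (by simp)

end TTRA

open TTRA

theorem t_TRA (hLO2 : LO2) : TRA := by
  intro D c hc
  choose V hV using p0_surj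
  obtain ⟨b, hb⟩ : ∃ b : GQ → EO, b = fun g => T2.pt (D.Pv *ᵥ V (c g)) := ⟨_, rfl⟩
  have b2 : ∀ g, 2 • b g = D.ph (c g) := fun g => by rw [hb, ← D.ph_p0, hV]
  have bs : Sm ⊤ b := hb ▸ hc.sm.comp fun P => T2.pt (D.Pv *ᵥ V P)
  have bc : ∀ g h, b (g * h) = b g + tac D.dl g (b h) ∨
      b (g * h) = b g + tac D.dl g (b h) + pE 2⁻¹ := fun g h => by
    have := near D (u := V (c (g * h))) (v := V (c g) + D.rp g *ᵥ V (c h))
      (by rw [map_add, ← D.a0_p0, hV, hV, hV, hc.co g trivial h trivial])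
    rwa [Matrix.mulVec_add, map_add, rp, ← congrFun hb, ← congrFun hb, ← congrFun hb] at this
  obtain ⟨v, hv⟩ := hc.ord
  have bo : b ∈ D.CS (w2.D ⊓ KI) := ⟨T2.pt (D.Pv *ᵥ v), T2.tors _, fun g hg => by
    obtain ⟨x, hx⟩ := hv g hg
    have := near D (u := V (c g)) (v := D.rp g *ᵥ v - v + ![x, 0]) (by rw [hV, hx])
    rw [Matrix.mulVec_add, Matrix.mulVec_sub, map_add, map_sub, rp, ← congrFun hb] at this
    rcases this with e | e <;> rw [e, Dat.cb]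
    · simpa using line D x
    · simpa [add_assoc] using add_mem (line D x) (pE_mem 2⁻¹)⟩
  have e2 : (fun g => D.ph (c g)) = 2 • b := funext fun g => (b2 g).symm
  refine ⟨⟨hc.sm.comp D.ph, fun g hg h hh => by rw [hc.co g hg h hh, map_add, D.ph_a0],
    fun g hg => absurd trivial hg, hc.tor.imp fun i e g => by rw [← map_nsmul, e, map_zero],
    by rw [hc.nz, map_zero], ?_, fun w hw g hg => by rw [hc.unr w hw g hg, map_zero],
    fun s => ?_⟩, ⟨b, bs, fun g _ => b2 g, fun g _ h _ => bc g h⟩, ?_⟩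
  · have := nsmul_mem bo 2
    rw [← e2] at this
    exact this
  · obtain ⟨P, hP⟩ := hc.re s
    exact ⟨D.ph P, by rw [← D.ph_a0, ← map_sub]; exact congrArg D.ph hP⟩
  · obtain ⟨y, h1, h2, -⟩ := hLO2 D
    obtain ⟨m, hm⟩ := h2 b ⟨bs.mono le_top, fun g => hb ▸ T2.tors _, fun g _ h _ => by
      rcases bc g h with e | e <;> rw [e]
      · simp
      · simpa [add_assoc, add_sub_assoc, sub_sub] using pE_mem 2⁻¹⟩ bo
    exact ⟨m • y, zsmul_mem h1 m, by rw [e2, ← smul_sub]; exact nsmul_mem hm 2⟩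

end Pool.Agent.P.MP_9c97e9_nt.K2
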