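import Pool.Agent.P.MP_9c97e9_nt.K2.BasL

/-! Project K2: lifting to the second lattice. -/

namespace Pool.Agent.P.MP_9c97e9_nt.K2

open scoped NNReal Matrix
open MP_8b7eba_nt.R2 KT
open Filter Topology Polynomial

namespace TTRB

variable {D : Dat} {c b : GQ → EO} {P : EO}

/-- the dual isogeny -/
theorem exists_pi (D : Dat) : ∃ π : EO →+ A0, ∀ v, π (T2.pt v) = p0 (D.Pm *ᵥ v) := by
  let : DivisibleBy A0 ℤ := divisibleByOfSMulRightSurj A0 ℤ fun {n} hn a => by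
    obtain ⟨v, rfl⟩ := p0_surj a
    refine ⟨p0 ((n : ℚ_[2])⁻¹ • v), ?_⟩
    beta_reduce
    rw [← map_zsmul, ← Int.cast_smul_eq_zsmul ℚ_[2], smul_smul,
      mul_inv_cancel₀ (Int.cast_ne_zero.2 hn), one_smul]
  have hm : ∀ i j, ‖D.Pm i j‖ ≤ 1 := fun i j => by
    have := SelA.two
    fin_cases i <;> fin_cases j <;> rcases D.eps_cases with e | e <;> simp [Dat.Pm, e, this]
    all_goals norm_num
  obtain ⟨π, h⟩ := (Module.Baer.of_divisible A0).extension_property_addMonoidHom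
    (QuotientAddGroup.lift B0 T2.pt fun v (hv : ‖v‖ ≤ 1) => (T2.ker v).2 hv)
    ((injective_iff_map_eq_zero _).2 fun a ha => by
      obtain ⟨v, rfl⟩ := p0_surj a
      exact p0_eq_zero.2 ((T2.ker v).1 ha)) (am D.Pm)
  exact ⟨π, fun v => (DFunLike.congr_fun h (p0 v)).trans (am_p0 hm v)⟩

/-- the last step -/
theorem fin (hc : D.SH ⊤ c) (hb : D.Hf ⊤ (pE 2⁻¹) c b)
    (hu : ∀ w : Pl, ¬ w.p ∣ 30 * D.n → ∀ g ∈ w.I, b g = 0) (ho : b ∈ D.CS (w2.D ⊓ KI))
    {Q : EO} {x : ZMod 2} (hQ : Tp Q) (hr : b tau = D.cb Q tau + s2 x 0) (hz : b D.z = 0) :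
    ∃ c', D.SP ⊤ c' ∧ ∀ g, D.ph (c' g) = c g := by
  obtain ⟨π, hπ⟩ := exists_pi D
  have tb : ∀ g, Tp (b g) := fun g => Tp.of_two (hb.two g trivial ▸ ZH_tp (SH_mem_ZH hc) g)
  have h1 : ∀ x, π (pE x) = p0 ![2 * x, 0] := fun x => by rw [pE_eq, hπ, D.Pm_apply]; simp
  have h2 : π (pE 2⁻¹) = 0 := by
    rw [h1, p0_eq_zero, mul_inv_cancel₀ two_ne_zero, pi_norm_le_iff_of_nonneg zero_le_one,
      Fin.forall_fin_two]
    simp
  have h3 : ∀ g P, Tp P → π (tac D.dl g P) = D.a0 g (π P) := fun g P h => by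
    obtain ⟨v, rfl⟩ := tp_iff.1 h
    rw [D.tgal, hπ, hπ, D.a0_p0, Matrix.mulVec_mulVec, Matrix.mulVec_mulVec, D.rp_Pm]
  have co : ∀ g h, π (b (g * h)) = π (b g) + D.a0 g (π (b h)) := fun g h => by
    rcases hb.co g trivial h trivial with e | e <;> simp only [e, map_add, h2, h3 g _ (tb h), add_zero]
  refine ⟨fun g => π (b g), ⟨hb.sm.comp π, fun g _ h _ => co g h, fun g hg => absurd trivial hg,
    ?_, by rw [hz, map_zero], ?_, fun w hw g hg => by rw [hu w hw g hg.1, map_zero], fun s => ?_⟩,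
    fun g => ?_⟩
  · obtain ⟨i, hi⟩ := hc.tor
    exact ⟨i + 1, fun g => by rw [← map_nsmul, pow_succ, mul_smul, hb.two g trivial, hi, map_zero]⟩
  · obtain ⟨P, tP, hP⟩ := ho
    obtain ⟨u, rfl⟩ := tp_iff.1 tP
    refine ⟨D.Pm *ᵥ u, fun g hg => ?_⟩
    obtain ⟨t, ht⟩ := ((tb g).sub ((tP.map _).sub tP)).eq_pE (hP g hg)
    refine ⟨2 * t, ?_⟩
    rw [eq_add_of_sub_eq' ht, map_add, map_sub, h3 g _ tP, h1, hπ, D.a0_p0, map_add, map_sub]
  · have h4 : π (b tau) = D.a0 tau (π Q) - π Q := by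
      rw [hr, map_add, Dat.cb, map_sub, h3 _ _ hQ, s2, map_add, map_nsmul, h2]
      simp
    have h5 := co (ts s) s
    rw [show ts s * s = s * tau by rw [ts, inv_mul_cancel_right], co, h4] at h5
    refine ⟨D.a0 s (π Q) - π (b s), ?_⟩
    rw [map_sub, ← D.a0_mul, show ts s * s = s * tau by rw [ts, inv_mul_cancel_right], D.a0_mul,
      eq_sub_of_add_eq h5.symm, map_sub]
    abel
  · obtain ⟨v, hv⟩ := tp_iff.1 (tb g)
    beta_reduce
    rw [← hv, hπ, D.ph_Pm, hv, hb.two g trivial]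

theorem half (h : Tp P) (h' : 2 • P ∈ EG w2) : ∃ β, P - s2 0 β ∈ EG w2 := by
  obtain ⟨x, hx⟩ := (h.nsmul 2).eq_pE h'
  obtain ⟨a, β, e⟩ := exists_s2 (P := P - pE (x / 2)) (by
    rw [smul_sub, hx, ← map_nsmul, nsmul_eq_mul, Nat.cast_ofNat, mul_div_cancel₀ x two_ne_zero,
      sub_self])
  refine ⟨β, ?_⟩
  have := s2_add a 0 0 β
  rw [add_zero, zero_add] at this
  rw [eq_add_of_sub_eq e, this, show s2 a 0 + s2 0 β + pE (x / 2) - s2 0 β = s2 a 0 + pE (x / 2) by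
    abel]
  exact add_mem (s2_mem.2 rfl) (pE_mem _)

theorem s2_add' (x y : ZMod 2) : s2 0 (x + y) = s2 0 x + s2 0 y := by
  simpa using s2_add 0 x 0 y

/-- the ordinary condition holds after a change by a character -/
theorem ord (hc : D.SH ⊤ c) (hb : D.Hf ⊤ (pE 2⁻¹) c b) {y : GQ → EO}
    (hy : y ∈ D.ZS (w2.D ⊓ KI)) (h : c - 2 • y ∈ D.CS w2.D) :
    ∃ β, IsCh w2.D β ∧ (fun g => b g - s2 0 (β g)) ∈ D.CS (w2.D ⊓ KI) := by
  obtain ⟨T, tT, hT⟩ := h
  obtain ⟨T, rfl⟩ := exists_two T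
  have tT' := tT.of_two
  have : ∀ P : EO, ∃ β, Tp P → 2 • P ∈ EG w2 → P - s2 0 β ∈ EG w2 := fun P => by
    by_cases e : Tp P ∧ 2 • P ∈ EG w2
    · exact (half e.1 e.2).imp fun _ k _ _ => k
    · exact ⟨0, fun a b => absurd ⟨a, b⟩ e⟩
  choose q hq using this
  have key : ∀ g ∈ w2.D, b g - y g - D.cb T g - s2 0 (q (b g - y g - D.cb T g)) ∈ EG w2 :=
    fun g hg => hq _ (((Tp.of_two (hb.two g trivial ▸ ZH_tp (SH_mem_ZH hc) g)).sub
      (ZH_tp hy.1 g)).sub ((tT'.map _).sub tT')) (by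
      rw [smul_sub, smul_sub, hb.two g trivial, ← D.cb_nsmul]
      exact hT g hg)
  refine ⟨fun g => q (b g - y g - D.cb T g), ⟨((((hb.sm.mono le_top).comp₂ hy.1.1 (· - ·)).comp₂
    (D.sm_cb _ T) (· - ·)).comp q), fun g hg h hh => ?_⟩, ?_⟩
  · have h1 : b (g * h) - b g - tac D.dl g (b h) ∈ EG w2 := by
      rcases hb.co g trivial h trivial with e | e <;> rw [e]
      · simp
      · convert pE_mem 2⁻¹ using 1
        abel
    have h2 := add_mem (add_mem (sub_mem h1 (key _ (mul_mem hg hh))) (key g hg))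
      (tac_EG D hg (key h hh))
    have k : ∀ x y z : ZMod 2, x + y + z = 0 → x = y + z := by decide
    refine k _ _ _ ((s2_mem (a := 0)).1 ?_)
    rw [s2_add', s2_add']
    convert h2 using 1
    have t : ∀ z : ZMod 2, s2 0 z = -s2 0 z := fun z =>
      eq_neg_of_add_eq_zero_left (by rw [← two_nsmul, two_s2])
    simp only [map_sub, D.tac_two g (two_s2 _ _)]
    generalize q (b (g * h) - y (g * h) - D.cb T (g * h)) = z
    rw [hy.1.2.1 g hg h hh, D.cb_mul, t (q (b g - y g - D.cb T g)), t (q (b h - y h - D.cb T h))]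
    simp only [sub_neg_eq_add]
    nth_rewrite 2 [t (q (b g - y g - D.cb T g)), t (q (b h - y h - D.cb T h))]
    abel
  · obtain ⟨P, tP, hP⟩ := hy.2
    refine ⟨P + T, tP.add tT', fun g hg => ?_⟩
    convert add_mem (key g hg.1) (hP g hg) using 1
    beta_reduce
    generalize q (b g - y g - D.cb T g) = z
    rw [D.cb_add]
    abel

end TTRB

open TTRB

theorem t_TRB (hLQ2 : LQ2) (hLRE : LRE) : TRB := by
  rintro D c b hc hb hu ⟨y, hy, h⟩
  obtain ⟨β, hβ, P, tP, hP⟩ := ord hc hb hy h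
  obtain ⟨a1, a2, a3, ha⟩ := hLQ2 w2 β rfl hβ
  obtain ⟨Q, hQ⟩ := hc.re 1
  rw [one_mul, inv_one, mul_one] at hQ
  obtain ⟨Q, tQ, hQ'⟩ := hLRE D Q (by rw [Dat.cb, ← hQ]; exact ZH_tp (SH_mem_ZH hc) tau)
  obtain ⟨Q, rfl⟩ := exists_two Q
  obtain ⟨x, y0, hx⟩ := exists_s2 (P := b tau - D.cb Q tau) (by
    rw [smul_sub, hb.two _ trivial, ← D.cb_nsmul, ← hQ', hQ]; exact sub_self _)
  obtain ⟨B, B1, B2, B3, B4⟩ : ∃ B : GQ → ZMod 2, IsCh ⊤ B ∧ (∀ g ∈ w2.D, B g = β g) ∧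
      B tau = y0 ∧ ∀ w : Pl, ¬ w.p ∣ 30 * D.n → ∀ g ∈ w.I, B g = 0 := by
    have i := fun m => isCh_qz (H := ⊤) m
    refine ⟨fun g => a1 * qz (-1) g + a2 * qz 2 g + a3 * qz 5 g +
      (y0 - (a1 * qz (-1) tau + a2 * qz 2 tau + a3 * qz 5 tau)) * qz (-15) g,
      ⟨((((i (-1)).1.comp₂ (i 2).1 fun u v => a1 * u + a2 * v).comp₂ (i 5).1
        fun u v => u + a3 * v).comp₂ (i (-15)).1 fun u v => u + _ * v), fun g hg k hk => ?_⟩,
      fun g hg => ?_, ?_, fun w hw g hg => ?_⟩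
    · simp only [(i _).2 g hg k hk]; ring
    · simp only [ha g hg, qz_D_two a_CA (m := -15) rfl (by norm_num) hg, mul_zero, add_zero]
    · have : qz (-15) tau = 1 := (LA.cases _).resolve_left fun e => by
        have := (MP_8b7eba_nt.R2.qz_tau a_TAU (by norm_num)).1 e
        omega
      simp only [this]; ring
    · have k : ∀ m : ℤ, 2 * m ∣ 60 → qz m g = 0 := fun m hm => qz_I a_CA (fun e => hw (by
        have h1 : w.p ∣ 2 * 30 := by exact_mod_cast e.trans hm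
        rcases w.prime.dvd_mul.1 h1 with h2 | h2
        · exact (h2.trans (by norm_num)).mul_right _
        · exact h2.mul_right _)) hg
      simp only [k (-1) (by norm_num), k 2 (by norm_num), k 5 (by norm_num), k (-15) (by norm_num),
        mul_zero, add_zero]
  obtain ⟨R, hR⟩ := exists_two (b D.z - s2 0 (B D.z))
  have h4 : 2 • 2 • R = 0 := by rw [hR, smul_sub, hb.two _ trivial, hc.nz, two_s2, sub_zero]
  have tR : Tp R := Tp.of_two (Tp.of_two (h4 ▸ tp_zero))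
  refine fin (b := fun g => b g - s2 0 (B g) + D.cb R g) (Q := Q + R) (x := x) hc
    ⟨(hb.sm.comp₂ B1.1 fun u v => u - s2 0 v).comp₂ (D.sm_cb _ R) (· + ·), fun g hg => ?_,
      fun g hg k hk => ?_⟩ (fun w hw g hg => ?_) ⟨P + R, tP.add tR, fun g hg => ?_⟩
    (tQ.of_two.add tR) ?_ ?_
  · rw [smul_add, smul_sub, hb.two g hg, two_s2, ← D.cb_nsmul, D.cb_two h4, sub_zero, add_zero]
  · refine (hb.co g hg k hk).imp (fun e => ?_) fun e => ?_ <;>
      rw [e, B1.2 g hg k hk, s2_add', D.cb_mul, map_add, map_sub, D.tac_two g (two_s2 _ _)] <;> abel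
  · rw [hu w hw g hg, B4 w hw g hg, s2_zero, Dat.cb, D.tac_good hw hg tR]; simp
  · convert hP g hg using 1
    beta_reduce
    rw [D.cb_add, B2 g hg.1]
    abel
  · have := s2_add x 0 0 y0
    rw [add_zero, zero_add] at this
    rw [B3, eq_add_of_sub_eq hx, this, D.cb_add]
    abel
  · rw [D.cb_z t_F2X tR, hR, add_neg_cancel]

end Pool.Agent.P.MP_9c97e9_nt.K2
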