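import Pool.Agent.P.MP_9c97e9_nt.K2.BasL
import Pool.Agent.P.MP_9c97e9_nt.KT.TLD1

/-! Proof of TRH. -/

namespace Pool.Agent.P.MP_9c97e9_nt.K2

open MP_8b7eba_nt.R2 KT
open KT.TLD1 (gth coord)

namespace TTRH

/-- a choice of halves -/
theorem half (D : Dat) {c : GQ → EO} (hc : D.SH ⊤ c) : ∃ (f : EO → EO) (P : EO),
    (∀ Q, 2 • f Q = Q) ∧ f 0 = 0 ∧ f (c tau) = D.cb P tau := by
  classical
  obtain ⟨P, hP⟩ := hc.re 1
  rw [one_mul, inv_one, mul_one] at hP
  obtain ⟨P', hP'⟩ := exists_two P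
  choose f hf using exists_two
  by_cases e : c tau = 0
  · refine ⟨Function.update f 0 0, 0, fun Q => ?_, by simp, by simp [e, D.cb_zero]⟩
    by_cases h : Q = 0
    · simp [h]
    · rw [Function.update_of_ne h, hf]
  · refine ⟨Function.update (Function.update f 0 0) (c tau) (D.cb P' tau), P', fun Q => ?_,
      by simp [Function.update_of_ne (Ne.symm e)], by simp⟩
    by_cases h' : Q = c tau
    · rw [h', Function.update_self, ← D.cb_nsmul, hP', hP, Dat.cb]
    · rw [Function.update_of_ne h']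
      by_cases h : Q = 0
      · simp [h]
      · rw [Function.update_of_ne h, hf]

theorem s2_one : s2 1 0 = pE 2⁻¹ := by simp [s2, LC.v1]

theorem neg_two {P : EO} (h : 2 • P = 0) : -P = P :=
  neg_eq_of_add_eq_zero_left ((two_nsmul _).symm.trans h)

end TTRH

open TTRH

theorem t_TRH : TRH := by
  intro D c hc hp
  have hz := SH_mem_ZH hc
  have co := fun g h => hc.co g trivial h trivial
  obtain ⟨q, hq, ha⟩ := coord
  obtain ⟨f, P, f2, f0, ft⟩ := half D hc
  obtain ⟨b, hb⟩ : ∃ b : GQ → EO, b = fun g => f (c g) := ⟨_, rfl⟩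
  have b2 : ∀ g, 2 • b g = c g := fun g => by rw [hb]; exact f2 _
  have bc : ∀ g h, c g = c h → b g = b h := fun g h e => by simp only [hb, e]
  have b0 : ∀ g, c g = 0 → b g = 0 := fun g e => by simp only [hb, e, f0]
  have bs : Sm ⊤ b := hb ▸ hc.sm.comp f
  obtain ⟨i, hi⟩ := hc.tor
  have bi : ∀ g, 2 ^ (i + 1) • b g = 0 := fun g => by rw [pow_succ, mul_smul, b2, hi]
  obtain ⟨K, hK⟩ : ∃ K : GQ → GQ → EO, ∀ g h, K g h = b g + tac D.dl g (b h) - b (g * h) :=
    ⟨_, fun _ _ => rfl⟩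
  have k2 : ∀ g h, 2 • K g h = 0 := fun g h => by
    rw [hK, smul_sub, smul_add, ← map_nsmul, b2, b2, b2, co, sub_self]
  have Ks : Sm2 ⊤ K := by
    have h1 : Sm2 ⊤ fun g h => tac D.dl g (b h) := by
      obtain ⟨N, hN, e⟩ := bs
      obtain ⟨N', hN', e'⟩ := D.exists_ON (i + 1)
      exact ⟨_, hN.inf hN', fun g _ h _ n _ hn =>
        ⟨by simp only [D.tmul, e' n hn.2 _ (bi h)], by simp only [e h trivial n trivial hn.1]⟩⟩
    exact ((bs.fst.comp₂ h1 (· + ·)).comp₂ bs.mul2 (· - ·)).congr fun g _ h _ => hK g h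
  have q0 : q 0 = 0 := by simpa using ha 0 0 (by simp) (by simp)
  have q1 : (q (pE 2⁻¹)).2 = 0 := (s2_inj ((hq _ two_pE).symm.trans s2_one.symm)).2
  obtain ⟨η, h3, h4⟩ : ∃ θ, Bd ⊤ (fun g h => (q (K g h)).2) θ ∧
      ∀ w : Pl, ¬ w.p ∣ 30 * D.n → ∀ i ∈ w.I, θ i = 0 := by
    refine gth (30 * D.n) D.wz.p _ (by have := D.n_pos; omega) ⟨15 * D.n, by ring⟩
      (co2_sgn.2 ⟨Ks.comp fun x => (q x).2, fun g _ h _ k _ => ?_⟩) (fun w hw j hj g => ?_)
      (fun p h1 h2 h3 => ?_) fun g hg h hh => ?_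
    · rw [← Prod.snd_add, ← Prod.snd_add, ← ha _ _ (k2 _ _) (k2 _ _), ← ha _ _ (k2 _ _) (k2 _ _),
        ← D.tac_two g (k2 h k)]
      simp only [hK, map_add, map_sub, D.tmul, mul_assoc]
      congr 2
      abel
    · have e := hc.unr w hw j ⟨hj, trivial⟩
      constructor
      · rw [hK, b0 j e, bc (g * j) g (by rw [co, e, map_zero, add_zero])]
        simp [q0]
      · rw [hK, b0 j e, bc (j * g) g (by rw [co, e, zero_add, D.tac_good hw hj (ZH_tp hz g)]),
          D.tac_good hw hj ⟨_, bi g⟩]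
        simp [q0]
    · obtain ⟨w, hw, c', hc'⟩ := hp p h1 h2 h3
      have d2 : ∀ g ∈ w.D, 2 • (b g - c' g) = 0 := fun g hg => by
        rw [smul_sub, b2, hc'.two g hg, sub_self]
      refine ⟨w, hw, Bd.triv (θ := fun g => (q (b g - c' g)).2)
        ⟨(bs.mono le_top).comp₂ hc'.sm fun x y => (q (x - y)).2, fun g hg h hh => ?_⟩⟩
      have e1 : b (g * h) - (c' g + tac D.dl g (c' h)) = b g - c' g + (b h - c' h) + K g h := by
        rw [← D.tac_two g (d2 h hh), ← neg_two (k2 g h), hK, map_sub]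
        abel
      have d3 : 2 • (b g - c' g + (b h - c' h)) = 0 := by
        rw [smul_add, d2 g hg, d2 h hh, add_zero]
      simp only
      rcases hc'.co g hg h hh with e | e
      · rw [e, e1, ha _ _ d3 (k2 g h), ha _ _ (d2 g hg) (d2 h hh), Prod.snd_add, Prod.snd_add]
      · rw [e, ← sub_sub, e1, sub_eq_add_neg _ (pE _), neg_two two_pE,
          ha _ _ (by rw [smul_add, d3, k2, add_zero]) two_pE, ha _ _ d3 (k2 g h),
          ha _ _ (d2 g hg) (d2 h hh), Prod.snd_add, Prod.snd_add, Prod.snd_add, q1, add_zero]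
    · have e : ∀ g ∈ Subgroup.zpowers tau, b g = D.cb P g := fun g hg => by
        rcases TRECQ.mem_zp a_TAU hg with rfl | rfl
        · rw [b0 1 (ZH_one hz), Dat.cb, tac_one, sub_self]
        · rw [hb, ← ft]
      rw [hK, e g hg, e h hh, e _ (mul_mem hg hh), D.cb_mul, sub_self, q0, Prod.snd_zero]
  refine ⟨fun g => b g + s2 0 (η g), ⟨bs.comp₂ h3.1 fun x y => x + s2 0 y, fun g _ => ?_,
    fun g _ h _ => ?_⟩, fun w hw g hg => ?_⟩
  · rw [smul_add, b2, two_s2, add_zero]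
  · have e : b (g * h) + s2 0 (η (g * h)) =
        b g + s2 0 (η g) + tac D.dl g (b h + s2 0 (η h)) + s2 (q (K g h)).1 0 := by
      have e1 : b (g * h) = b g + tac D.dl g (b h) - K g h := by rw [hK]; abel
      have e2 : K g h = s2 (q (K g h)).1 0 + s2 0 (q (K g h)).2 := by
        rw [← s2_add, add_zero, zero_add, ← hq _ (k2 g h)]
      have e3 : s2 0 (η g + η h + (q (K g h)).2) =
          s2 0 (η g) + s2 0 (η h) + s2 0 (q (K g h)).2 := by
        rw [← s2_add, ← s2_add, add_zero, add_zero]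
      rw [h3.2 g trivial h trivial, e3, map_add, D.tac_two g (two_s2 _ _), e1,
        ← neg_two (two_s2 (q (K g h)).1 0)]
      nth_rewrite 1 [e2]
      abel
    rcases LA.cases (q (K g h)).1 with e' | e' <;> rw [e'] at e
    · exact .inl (by rw [e, s2_zero, add_zero])
    · exact .inr (by rw [e, s2_one])
  · simp only [b0 g (hc.unr w hw g ⟨hg, trivial⟩), h4 w hw g hg, s2_zero, add_zero]

end Pool.Agent.P.MP_9c97e9_nt.K2
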