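import Pool.Agent.P.MP_9c97e9_nt.K2.BasL
import Pool.Agent.P.MP_9c97e9_nt.K2.BasK

/-! The kernel of the change of lattice. -/

namespace Pool.Agent.P.MP_9c97e9_nt.K2

open scoped NNReal Matrix
open MP_8b7eba_nt.R2 KT
open K2.BK

namespace TTRK

variable (D : Dat)

/-- the vectors which represent the kernel -/
noncomputable def kv (s : ZMod 2) : V2 := ![D.eps * (s.val / 2), s.val / 2]

theorem p0_eq {u v : V2} : p0 u = p0 v ↔ ‖u 0 - v 0‖ ≤ 1 ∧ ‖u 1 - v 1‖ ≤ 1 := by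
  rw [← sub_eq_zero, ← map_sub, p0_eq_zero, pi_norm_le_iff_of_nonneg zero_le_one,
    Fin.forall_fin_two]
  rfl

theorem eps_le {x : ℚ_[2]} {r : ℝ} (h : ‖x‖ ≤ r) : ‖D.eps * x‖ ≤ r :=
  LC.mul_l (by rcases D.eps_cases with e | e <;> simp [e]) h

theorem hf {x : ℚ_[2]} (h : ‖x‖ ≤ 2⁻¹) : ‖x / 2‖ ≤ 1 := by rw [LC.half]; linarith

theorem val2 (s : ZMod 2) : ‖(s.val / 2 : ℚ_[2])‖ ≤ 2 := by
  rw [LC.half]; linarith [LC.nat_le s.val]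

theorem kv_zero : kv D 0 = 0 := by ext i; fin_cases i <;> simp [kv]

theorem kp_add (s t : ZMod 2) : p0 (kv D (s + t)) = p0 (kv D s) + p0 (kv D t) := by
  have h : ‖((s + t).val / 2 - (s.val / 2 + t.val / 2) : ℚ_[2])‖ ≤ 1 := by
    have := hf (LC.r_add (a := s.val) (b := t.val) (s := s) (t := t) (by simp) (by simp))
    rw [← norm_neg] at this
    exact le_of_eq_of_le (congrArg _ (by ring)) this
  rw [← map_add, p0_eq]
  exact ⟨le_of_eq_of_le (congrArg _ (by simp only [kv, Pi.add_apply, Matrix.cons_val_zero]; ring))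
    (eps_le D h), h⟩

theorem kp_inj {s t : ZMod 2} (h : p0 (kv D s) = p0 (kv D t)) : s = t := by
  have h1 : ‖((s.val - t.val) / 2 : ℚ_[2])‖ ≤ 1 := by rw [sub_div]; exact (p0_eq.1 h).2
  rw [LC.half] at h1
  exact LC.uniq (a := s.val) (by simp) (by linarith)

theorem kp_a0 (g : GQ) (s : ZMod 2) : D.a0 g (p0 (kv D s)) = p0 (kv D s) := by
  have h : ‖kv D s‖ ≤ 2 := LC.pi (eps_le D (val2 s)) (val2 s) rfl rfl
  rw [D.a0_p0, ← sub_eq_zero, ← map_sub, p0_eq_zero]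
  linarith [rd_sub D g (kv D s)]

theorem ph_iff (P : A0) : D.ph P = 0 ↔ ∃ s, P = p0 (kv D s) := by
  have k : ∀ v : V2, D.ph (p0 v) = 0 ↔ ‖v 0 + D.eps * v 1‖ ≤ 1 ∧ ‖2 * v 1‖ ≤ 1 := fun v => by
    rw [D.ph_p0, D.pt_Pv, smul_add, ← map_nsmul, ← map_nsmul, pEF_eq_zero, nsmul_eq_mul,
      nsmul_eq_mul, Nat.cast_ofNat, mul_div_cancel₀ _ two_ne_zero]
  constructor
  · obtain ⟨v, rfl⟩ := p0_surj P
    intro h
    obtain ⟨a, b⟩ := (k v).1 h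
    obtain ⟨s, hs⟩ := LC.ex b
    have c : ‖v 1 - s.val / 2‖ ≤ 1 := le_of_eq_of_le (congrArg _ (by ring)) (hf hs)
    exact ⟨s, p0_eq.2 ⟨le_of_eq_of_le (congrArg _ (by simp only [kv, Matrix.cons_val_zero]; ring))
      (us (us a (eps_le D c)) (eps_le D (LC.nat_le s.val))), c⟩⟩
  · rintro ⟨s, rfl⟩
    exact (k _).2 ⟨le_of_eq_of_le (congrArg _ (by simp [kv]; ring)) (eps_le D (LC.nat_le s.val)),
      le_of_eq_of_le (congrArg _ (by simp [kv]; ring)) (LC.nat_le s.val)⟩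

theorem ord_iff (χ : GQ → ZMod 2) :
    (∃ v, ∀ g ∈ w2.D ⊓ KI, ∃ x, p0 (kv D (χ g)) = p0 (D.rp g *ᵥ v - v + ![x, 0])) ↔
      ∃ t : ℚ_[2], ∀ g ∈ w2.D ⊓ KI, ‖(χ g).val / 2 - (D.rd g 1 1 - 1) * t‖ ≤ 1 := by
  have k : ∀ g ∈ w2.D ⊓ KI, ∀ (v : V2) (x : ℚ_[2]), kv D (χ g) 1 - (D.rp g *ᵥ v - v + ![x, 0]) 1 =
      (χ g).val / 2 - (D.rd g 1 1 - 1) * v 1 := fun g hg v x => by
    rw [Pi.add_apply, Pi.sub_apply, rd_D hg.1, (D.rp_D hg.1).2.2]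
    simp [kv, sub_mul]
  refine ⟨fun ⟨v, h⟩ => ⟨v 1, fun g hg => ?_⟩, fun ⟨t, h⟩ => ⟨![0, t], fun g hg =>
    ⟨kv D (χ g) 0 - (D.rp g *ᵥ ![0, t]) 0, p0_eq.2 ⟨by simp, ?_⟩⟩⟩⟩
  · obtain ⟨x, e⟩ := h g hg
    rw [← k g hg v x]
    exact (p0_eq.1 e).2
  · rw [k g hg]
    exact h g hg

theorem re_neg (hR : RTS) (hd : D.d < 0) (s : GQ) (a : ZMod 2) :
    p0 (kv D a) = D.a0 (ts s) (p0 ![0, a.val / 4]) - p0 ![0, a.val / 4] := by
  obtain ⟨-, h1, -, h2⟩ := rp_ts D hR s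
  have h3 : ‖(a.val / 4 : ℚ_[2])‖ ≤ 4 := by rw [LC.four]; linarith [LC.nat_le a.val]
  have h4 : (4⁻¹ : ℝ) * 4 ≤ 1 := by norm_num
  rw [D.a0_p0, ← map_sub, p0_eq, ← norm_neg]
  simp only [Pi.sub_apply, LC.mv, kv, Dat.eps, if_pos hd, Matrix.cons_val_zero, Matrix.cons_val_one]
  exact ⟨le_of_eq_of_le (congrArg _ (by ring)) ((LC.mul h1 h3).trans h4),
    le_of_eq_of_le (congrArg _ (by ring)) (us (LC.nat_le a.val) ((LC.mul h2 h3).trans h4))⟩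

theorem re_pos (hR : RTS) (hd : ¬ D.d < 0) (s : GQ) (P : A0) :
    p0 (kv D 1) ≠ D.a0 (ts s) P - P := fun h => by
  obtain ⟨v, rfl⟩ := p0_surj P
  obtain ⟨h0, h1, -⟩ := rp_ts D hR s
  rw [D.a0_p0, ← map_sub, eq_comm, p0_eq] at h
  have e : D.rp (ts s) *ᵥ (D.rp (ts s) *ᵥ v - v) = -(D.rp (ts s) *ᵥ v - v) := by
    rw [Matrix.mulVec_sub, ← rd_mulVec, ts_ts, rd_one, Matrix.one_mulVec, neg_sub]
  generalize D.rp (ts s) *ᵥ v - v = u at h e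
  have e0 := congrFun e 0
  rw [LC.mv, Pi.neg_apply] at e0
  simp only [kv, Dat.eps, if_neg hd, Matrix.cons_val_zero, Matrix.cons_val_one, one_mul] at h
  have k : ∀ x : ℚ_[2], ‖x - (1 : ZMod 2).val / 2‖ ≤ 1 → ‖x‖ ≤ 2 := fun x hx =>
    le_of_eq_of_le (congrArg _ (by ring)) (ua (hx.trans one_le_two) (val2 1))
  have h2 : ‖(2 : ℚ_[2]) * (u 0 - (1 : ZMod 2).val / 2)‖ ≤ 2⁻¹ := LC.mul_r SelA.two.le h.1
  have h4 : (4⁻¹ : ℝ) * 2 ≤ 2⁻¹ := by norm_num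
  have h5 := ua (ua h2 ((LC.mul h0 (k _ h.1)).trans h4)) ((LC.mul h1 (k _ h.2)).trans h4)
  rw [show 2 * (u 0 - (1 : ZMod 2).val / 2) + (D.rp (ts s) 0 0 - 1) * u 0 + D.rp (ts s) 0 1 * u 1 =
    -1 by rw [LC.v1]; push_cast; linear_combination e0] at h5
  norm_num at h5

theorem sp_iff (hLSI : LSI) (hR : RTS) (χ : GQ → ZMod 2) :
    (D.SP ⊤ fun g => p0 (kv D (χ g))) ↔ D.HC χ ∧ D.OC χ ∧ (¬ D.d < 0 → χ tau = 0) := by
  have z : ∀ {a}, p0 (kv D a) = 0 ↔ a = 0 :=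
    ⟨fun h => kp_inj D (by rw [h, kv_zero, map_zero]), fun h => by rw [h, kv_zero, map_zero]⟩
  constructor
  · intro h
    obtain ⟨N, a, b⟩ := h.sm
    refine ⟨⟨⟨⟨N, a, fun g hg n hn m => kp_inj D (b g hg n hn m)⟩, fun g hg k hk =>
      kp_inj D (by rw [kp_add, h.co g hg k hk, kp_a0])⟩, z.1 h.nz, fun w hw g hg =>
        z.1 (h.unr w hw g ⟨hg, trivial⟩)⟩, (hLSI D χ).2 ((ord_iff D χ).1 h.ord), fun hd => ?_⟩
    obtain ⟨P, e⟩ := h.re 1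
    refine (LA.cases _).resolve_right fun k => re_pos D hR hd 1 P ?_
    rw [← e, ts_one, k]
  · rintro ⟨⟨a, b, c⟩, d, e⟩
    refine ⟨a.1.comp fun s => p0 (kv D s), fun g hg k hk => by rw [a.2 g hg k hk, kp_add, kp_a0],
      fun g hg => absurd trivial hg, ⟨1, fun g => ?_⟩, z.2 b, (ord_iff D χ).2 ((hLSI D χ).1 d),
      fun w hw g hg => z.2 (c w hw g hg.1), fun s => ?_⟩
    · rw [pow_one, two_nsmul, ← kp_add, LC.two, z]
    by_cases hd : D.d < 0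
    · exact ⟨_, re_neg D hR hd s _⟩
    · exact ⟨0, by rw [map_zero, sub_zero, z, ts, ch_conj a trivial trivial, e hd]⟩

theorem card (hLSI : LSI) (hR : RTS) : {c | D.SP ⊤ c ∧ ∀ g, D.ph (c g) = 0}.ncard =
    {χ | D.HC χ ∧ D.OC χ ∧ (¬ D.d < 0 → χ tau = 0)}.ncard := by
  rw [← Set.ncard_image_of_injective _ (f := fun (χ : GQ → ZMod 2) g => p0 (kv D (χ g)))
    fun a b e => funext fun g => kp_inj D (congrFun e g)]
  congr 1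
  ext c
  constructor
  · rintro ⟨h, k⟩
    choose χ e using fun g => (ph_iff D _).1 (k g)
    obtain rfl : c = fun g => p0 (kv D (χ g)) := funext e
    exact ⟨χ, (sp_iff D hLSI hR χ).1 h, rfl⟩
  · rintro ⟨χ, h, rfl⟩
    exact ⟨(sp_iff D hLSI hR χ).2 h, fun g => (ph_iff D _).2 ⟨_, rfl⟩⟩

end TTRK

theorem t_TRK (hLCH : LCH) (hLSI : LSI) (hRTS : RTS) : TRK := fun D => by
  rw [TTRK.card D hLSI hRTS]
  split_ifs with h
  · simpa [h] using (hLCH D).2.2.1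
  · simpa [h] using (hLCH D).2.2.2

end Pool.Agent.P.MP_9c97e9_nt.K2
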