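import Pool.Agent.P.MP_9c97e9_nt.K2.BasL

/-! The comparison of the Selmer groups of the two lattices. -/

namespace Pool.Agent.P.MP_9c97e9_nt.K2

open scoped NNReal Matrix
open MP_8b7eba_nt.R2 KT
open Filter Topology Polynomial

namespace TTRX

section abs
variable {X Y : Type} [AddCommGroup X] [AddCommGroup Y]

/-- the sum of `S` and the doubles of `Z` -/
def Tw (Z S : AddSubgroup X) : Set X := {c | ∃ y ∈ Z, c - 2 • y ∈ S}

theorem Tw.sub {Z S : AddSubgroup X} {x y : X} (hx : x ∈ Tw Z S) (hy : y ∈ Tw Z S) :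
    x - y ∈ Tw Z S := by
  obtain ⟨a, ha, hx⟩ := hx
  obtain ⟨b, hb, hy⟩ := hy
  refine ⟨a - b, sub_mem ha hb, ?_⟩
  convert sub_mem hx hy using 1
  rw [smul_sub]; abel

theorem Tw.par {Z B S : AddSubgroup X} {ν : ℕ} (h : Cyc S B ν) (hB : B ≤ Z) {x y : X}
    (hx : x ∈ Tw Z B) (hy : y ∈ Tw Z B) (hx' : x ∉ Tw Z S) (hy' : y ∉ Tw Z S) :
    x - y ∈ Tw Z S := by
  obtain ⟨-, u, hu, hm, -⟩ := h
  have key : ∀ x ∈ Tw Z B, x ∉ Tw Z S → x - u ∈ Tw Z S := fun x ⟨a, ha, hx⟩ hx' => by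
    obtain ⟨m, e⟩ := hm _ hx
    rcases Int.even_or_odd' m with ⟨k, rfl | rfl⟩
    · refine absurd ⟨a + k • u, add_mem ha (zsmul_mem (hB hu) k), ?_⟩ hx'
      convert e using 1
      rw [two_mul, add_smul, two_nsmul, two_nsmul]; abel
    · refine ⟨a + k • u, add_mem ha (zsmul_mem (hB hu) k), ?_⟩
      convert e using 1
      rw [add_smul, one_smul, two_mul, add_smul, two_nsmul, two_nsmul]; abel
  simpa using Tw.sub (key x hx hx') (key y hy hy')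

theorem count (A : AddSubgroup X) (f : X →+ Y) (h : {c | c ∈ A ∧ f c = 0}.ncard ≠ 0) :
    ((A : Set X).Finite ↔ (f '' A).Finite) ∧
      (A : Set X).ncard = {c | c ∈ A ∧ f c = 0}.ncard * (f '' A).ncard := by
  have e1 : Nat.card (f.comp A.subtype).ker = {c | c ∈ A ∧ f c = 0}.ncard := by
    rw [← Nat.card_coe_set_eq]
    exact Nat.card_congr ⟨fun c => ⟨c.1.1, c.1.2, c.2⟩, fun c => ⟨⟨c.1, c.2.1⟩, c.2.2⟩,
      fun _ => rfl, fun _ => rfl⟩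
  have e2 : (f.comp A.subtype).ker.index = (f '' A).ncard := by
    rw [AddSubgroup.index_ker, ← Nat.card_coe_set_eq]
    refine Nat.card_congr (Equiv.setCongr ?_)
    ext y
    simp
  have e3 : (A : Set X).ncard = {c | c ∈ A ∧ f c = 0}.ncard * (f '' A).ncard := by
    rw [← e1, ← e2, AddSubgroup.card_mul_index]
    rfl
  refine ⟨⟨fun h => h.image f, fun h' => Set.finite_of_ncard_ne_zero ?_⟩, e3⟩
  rw [e3]
  exact mul_ne_zero h (Set.ncard_ne_zero_of_mem ⟨0, zero_mem A, rfl⟩ h')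

end abs

/-- the Selmer group of the second lattice -/
def SPG (D : Dat) : AddSubgroup (GQ → A0) where
  carrier := {c | D.SP ⊤ c}
  zero_mem' := ⟨Sm.const 0, by simp, by simp, ⟨0, by simp⟩, rfl,
    ⟨0, fun g _ => ⟨0, by
      rw [Matrix.mulVec_zero, sub_zero, zero_add, show (![0, 0] : V2) = 0 by simp, map_zero]
      rfl⟩⟩, fun _ _ _ _ => rfl, fun _ => ⟨0, by simp⟩⟩
  add_mem' := fun {c d} a b => by
    obtain ⟨i, a4⟩ := a.tor
    obtain ⟨j, b4⟩ := b.tor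
    obtain ⟨v, hv⟩ := a.ord
    obtain ⟨u, hu⟩ := b.ord
    refine ⟨a.sm.comp₂ b.sm (· + ·), fun g hg h hh => ?_, fun g hg => absurd trivial hg,
      ⟨i + j, fun g => ?_⟩, by simp [a.nz, b.nz], ⟨v + u, fun g hg => ?_⟩,
      fun w hw g hg => by simp [a.unr w hw g hg, b.unr w hw g hg], fun s => ?_⟩
    · simp only [Pi.add_apply, a.co g hg h hh, b.co g hg h hh, map_add]; abel
    · rw [Pi.add_apply, nsmul_add, pow_add, mul_nsmul (c g), a4, mul_nsmul' (d g), b4]; simp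
    · obtain ⟨x, hx⟩ := hv g hg
      obtain ⟨y, hy⟩ := hu g hg
      refine ⟨x + y, ?_⟩
      rw [Pi.add_apply, hx, hy, ← map_add, Matrix.mulVec_add,
        show (![x + y, 0] : V2) = ![x, 0] + ![y, 0] by simp]
      congr 1
      abel
    · obtain ⟨P, hP⟩ := a.re s
      obtain ⟨Q, hQ⟩ := b.re s
      exact ⟨P + Q, by rw [Pi.add_apply, hP, hQ, map_add]; abel⟩
  neg_mem' := fun {c} a => by
    obtain ⟨i, a4⟩ := a.tor
    obtain ⟨v, hv⟩ := a.ord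
    refine ⟨a.sm.comp Neg.neg, fun g hg h hh => ?_, fun g hg => absurd trivial hg,
      ⟨i, fun g => by simp [a4 g]⟩, by simp [a.nz], ⟨-v, fun g hg => ?_⟩,
      fun w hw g hg => by simp [a.unr w hw g hg], fun s => ?_⟩
    · simp only [Pi.neg_apply, a.co g hg h hh, map_neg]; abel
    · obtain ⟨x, hx⟩ := hv g hg
      refine ⟨-x, ?_⟩
      rw [Pi.neg_apply, hx, ← map_neg, Matrix.mulVec_neg,
        show (![-x, 0] : V2) = -![x, 0] by simp]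
      congr 1
      abel
    · obtain ⟨P, hP⟩ := a.re s
      exact ⟨-P, by rw [Pi.neg_apply, hP, map_neg]; abel⟩

open Classical in
/-- the first local condition -/
def Fw (D : Dat) (w : Pl) : Set (GQ → EO) :=
  if w = w2 then Tw (D.ZS (w2.D ⊓ KI)) (D.ZS w2.D)
  else {c | c ∈ D.ZH w.D ∧ ∃ b, D.Hf w.D (pE 2⁻¹) c b}

open Classical in
/-- the second local condition -/
def Mw (D : Dat) (w : Pl) : Set (GQ → EO) :=
  if w = w2 then Tw (D.ZS (w2.D ⊓ KI)) (D.LH w2.D)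
  else {c | (c ∈ D.ZH w.D ∧ ∃ b, D.Hf w.D (pE 2⁻¹) c b) ∧ ∃ b, D.Hf w.D (pF 2⁻¹) c b}

theorem hf_zero (D : Dat) (H : Subgroup GQ) (S : EO) : D.Hf H S 0 0 :=
  ⟨Sm.const 0, by simp, fun _ _ _ _ => .inl (by simp)⟩

theorem loc (hLOB : LOB) (hLO2 : LO2) (hLO3 : LO3) (D : Dat) (w : Pl) :
    0 ∈ Mw D w ∧ Mw D w ⊆ Fw D w ∧ (∀ x ∈ Mw D w, ∀ y ∈ Mw D w, x - y ∈ Mw D w) ∧
      (∀ x ∈ Fw D w, ∀ y ∈ Fw D w, x - y ∈ Fw D w) ∧
      (∀ x ∈ Fw D w, ∀ y ∈ Fw D w, x ∉ Mw D w → y ∉ Mw D w → x - y ∈ Mw D w) ∧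
      ∀ x ∈ (D.ZO w : Set (GQ → EO)), ∀ y ∈ (D.ZO w : Set (GQ → EO)),
        x ∉ Fw D w → y ∉ Fw D w → x - y ∈ Fw D w := by
  unfold Mw Fw Dat.ZO
  split_ifs with e
  · refine ⟨⟨0, zero_mem _, by simp⟩, fun x hx => hx.imp fun y h => ⟨h.1, (hLO3 D).1 h.2⟩,
      fun x hx y hy => Tw.sub hx hy, fun x hx y hy => Tw.sub hx hy,
      fun x hx y hy => Tw.par (hLO3 D) (ZS_mono inf_le_left) hx hy, fun x hx y hy => ?_⟩
    exact Tw.par (hLO2.cyc D) le_rfl ⟨0, zero_mem _, by simpa using hx⟩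
      ⟨0, zero_mem _, by simpa using hy⟩
  have hF : ∀ x y, (x ∈ D.ZH w.D ∧ ∃ b, D.Hf w.D (pE 2⁻¹) x b) →
      (y ∈ D.ZH w.D ∧ ∃ b, D.Hf w.D (pE 2⁻¹) y b) →
      x - y ∈ D.ZH w.D ∧ ∃ b, D.Hf w.D (pE 2⁻¹) (x - y) b := fun x y ⟨a, b, hb⟩ ⟨a', b', hb'⟩ =>
    ⟨sub_mem a a', _, ((hLOB D w x a).2 y a' _ (.inl rfl)).1 b b' hb hb'⟩
  refine ⟨⟨⟨zero_mem _, 0, hf_zero D _ _⟩, 0, hf_zero D _ _⟩, fun x hx => hx.1,
    fun x ⟨hx, b, hb⟩ y ⟨hy, b', hb'⟩ =>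
      ⟨hF x y hx hy, _, ((hLOB D w x hx.1).2 y hy.1 _ (.inr rfl)).1 b b' hb hb'⟩,
    fun x hx y hy => hF x y hx hy, fun x hx y hy h1 h2 => ⟨hF x y hx hy,
      ((hLOB D w x hx.1).2 y hy.1 _ (.inr rfl)).2 (fun k => h1 ⟨hx, k⟩) fun k => h2 ⟨hy, k⟩⟩,
    fun x hx y hy h1 h2 => ⟨sub_mem hx hy,
      ((hLOB D w x hx).2 y hy _ (.inl rfl)).2 (fun k => h1 ⟨hx, k⟩) fun k => h2 ⟨hy, k⟩⟩⟩

theorem half (hLOB : LOB) {D : Dat} {w : Pl} {c : GQ → EO} (h : rs w.D c ∈ Mw D w) :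
    ∃ c' ∈ D.ZH w.D, ∀ g ∈ w.D, c g = 2 • c' g := by
  unfold Mw at h
  split_ifs at h with e
  · subst e
    obtain ⟨y, hy, h⟩ := h
    obtain ⟨P, a, b⟩ := LH_half h
    refine ⟨y + rs w2.D (D.cb P), add_mem hy.1 a.1, fun g hg => ?_⟩
    have := congrFun b g
    rw [Pi.sub_apply, rs_of_mem hg, sub_eq_iff_eq_add] at this
    rw [this, Pi.add_apply, smul_add, add_comm]
    rfl
  · obtain ⟨⟨a, b, hb⟩, b', hb'⟩ := h
    obtain ⟨c', k, e⟩ := (hLOB D w _ a).1 b b' hb hb'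
    exact ⟨c', k, fun g hg => (rs_of_mem hg c).symm.trans (congrFun e g)⟩

theorem cs_rs {D : Dat} {c y : GQ → EO} : rs w2.D c - 2 • y ∈ D.CS w2.D ↔ c - 2 • y ∈ D.CS w2.D :=
  ⟨fun h => CS_congr h fun g hg => by simp [rs_of_mem hg],
    fun h => CS_congr h fun g hg => by simp [rs_of_mem hg]⟩

end TTRX

open TTRX in
theorem t_TRX (hLAB2 : LAB2) (hLOB : LOB) (hLOH : LOH) (hLO1 : LO1) (hLO2 : LO2) (hLO3 : LO3)
    (hLD1 : LD1) (hLD2 : LD2) (hLCN : LCN) (hTRA : TRA) (hTRH : TRH) (hTRB : TRB) (hTRK : TRK) :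
    TRX := by
  intro D
  have _ := hLO1
  obtain ⟨W, hW, W2⟩ : ∃ W : ℕ → Pl, (∀ p, p.Prime → (W p).p = p) ∧ W 2 = w2 := by
    have : Nonempty Pl := ⟨w2⟩
    choose! W hW using a_PL.1
    refine ⟨fun p => if p = 2 then w2 else W p, fun p hp => ?_, if_pos rfl⟩
    beta_reduce
    split_ifs with h
    · exact h.symm
    · exact hW p hp
  have n0 : 30 * D.n ≠ 0 := by have := D.n_pos; omega
  let s := (30 * D.n).primeFactors.erase D.wz.p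
  have hs : ∀ {p}, p ∈ s ↔ p.Prime ∧ p ∣ 30 * D.n ∧ p ≠ D.wz.p := fun {p} => by
    simp only [s, Finset.mem_erase, Nat.mem_primeFactors]; tauto
  have s2' : 2 ∈ s := hs.2 ⟨Nat.prime_two, Dvd.dvd.mul_right (by norm_num) _, fun e =>
    D.z30 (e ▸ by norm_num)⟩
  have hc : Fintype.card s = D.om := by rw [Fintype.card_coe, D.om_eq]
  have key := hLAB2 _ s D.SG (fun i => rs (W i).D) (fun i => Mw D (W i)) (fun i => Fw D (W i))
    (fun i => D.ZO (W i)) (fun i c h => ?_) (fun i => loc hLOB hLO2 hLO3 D _) (fun c h1 h => ?_)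
    (hc ▸ hLCN D)
  rotate_left
  · change rs (W i).D c ∈ D.ZO (W i)
    unfold Dat.ZO
    split_ifs with e
    · rw [e]
      exact SH_ZS h
    · exact rs_mem_of_le (SH_mem_ZH h) le_top
  · obtain ⟨c', a, b, d⟩ := hLD1 D c h1 fun p k1 k2 k3 =>
      ⟨W p, hW p k1, half hLOB (h ⟨p, hs.2 ⟨k1, k2, k3⟩⟩)⟩
    have h2 := h ⟨2, s2'⟩
    simp only [W2, Mw, if_pos] at h2
    obtain ⟨z, hz, -, P, hP⟩ := h2
    refine hLD2 D c c' h1 a b d ⟨z, hz, P, fun g hg => ?_⟩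
    rw [← hP g hg, Pi.sub_apply, rs_of_mem hg]
    simp
  have hK : {c | c ∈ D.SG ∧ ∀ i : s, rs (W i).D c ∈ Fw D (W i)} =
      D.ph.compLeft GQ '' SPG D := by
    ext c
    constructor
    · rintro ⟨h1, h⟩
      have h2 := h ⟨2, s2'⟩
      simp only [W2, Fw, if_pos] at h2
      obtain ⟨y, hy, h2⟩ := h2
      obtain ⟨b, hb, hb'⟩ := hTRH D c h1 fun p k1 k2 k3 => ⟨W p, hW p k1, by
        have h3 := h ⟨p, hs.2 ⟨k1, k2, k3⟩⟩
        unfold Fw at h3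
        split_ifs at h3 with e
        · rw [show W p = w2 from e]
          exact (hLOH D _ y (SH_ZS h1).1 hy.1 h2.2).imp fun b k =>
            k.congr fun g hg => rs_of_mem hg c
        · exact h3.2.imp fun b k => k.congr fun g hg => rs_of_mem hg c⟩
      obtain ⟨c', a, e⟩ := hTRB D c b h1 hb hb' ⟨y, hy, cs_rs.1 h2.2⟩
      exact ⟨c', a, funext e⟩
    · rintro ⟨c', a, rfl⟩
      obtain ⟨h1, ⟨b, hb⟩, y, hy, h2⟩ := hTRA D c' a
      refine ⟨h1, fun i => ?_⟩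
      unfold Fw
      split_ifs with e
      · rw [e]
        exact ⟨y, hy, sub_mem (SH_ZS h1).1 (nsmul_mem hy.1 2), cs_rs.2 h2⟩
      · exact ⟨rs_mem_of_le (SH_mem_ZH h1) le_top, b,
          (hb.mono le_top).congr fun g hg => (rs_of_mem hg (D.ph.compLeft GQ c')).symm⟩
  rw [hK, hc] at key
  have h3 := hTRK D
  have e : {c | D.SP ⊤ c ∧ ∀ g, D.ph (c g) = 0} = {c | c ∈ SPG D ∧ D.ph.compLeft GQ c = 0} :=
    Set.ext fun c => and_congr_right fun _ => funext_iff.symm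
  rw [e] at h3
  obtain ⟨h4, h5⟩ := count (SPG D) (D.ph.compLeft GQ) fun h => by
    rw [h, mul_zero] at h3
    exact (pow_pos two_pos _).ne h3
  refine ⟨h4.trans key.1.symm, ?_⟩
  change _ * (SPG D : Set (GQ → A0)).ncard = (D.SG : Set (GQ → EO)).ncard
  rw [h5, key.2, ← mul_assoc, h3]

end Pool.Agent.P.MP_9c97e9_nt.K2
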