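import Pool.Agent.P.MP_9c97e9_nt.K2.MuJ

/-! Proof of UNRF. -/

namespace Pool.Agent.P.MP_9c97e9_nt.K2

open scoped NNReal Matrix
open MP_8b7eba_nt.R2 KT
open Filter Topology

namespace TUNRF

variable {D : Dat} {μ : MA} {k M : ℕ} {w : Pl} {W : Wt} {L : V2 →ₗ[ℚ_[2]] V2} {t : GQ}

theorem ne2 (hM : D.Lv k M) (hp : ¬ w.p ∣ M) : w.p ≠ 2 := fun e =>
  hp (by rw [e]; exact (dvd_pow_self 2 (by omega)).trans hM.2.1)

section
variable (hC : CYB) (h : D.MS μ) (hM : D.Lv k M) (hp : ¬ w.p ∣ M) (hW : Wi M W)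
  (hL : ∀ v, ‖L v‖ ≤ ‖v‖) (hI : ∀ g ∈ w.I, ∀ v, L (D.rd g *ᵥ v) = L v)
include hC h hM hp hW hL hI

theorem add {g : GQ} (hg : g ∈ w.I) (g' : GQ) :
    ‖L (μ k M (g * g') W) - L (μ k M g W) - L (μ k M g' W)‖ ≤ (2 ^ k)⁻¹ := by
  have h1 := h.co k M hM g g' W hW
  rw [hW.tl_eq (((hC.1 M hM.1).2.2.2 w hp).1 g hg)] at h1
  rw [← hI g hg (μ k M g' W), ← map_sub, ← map_sub]
  exact (hL _).trans h1

theorem pw {g : GQ} (hg : g ∈ w.I) (m : ℕ) :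
    ‖L (μ k M (g ^ m) W) - (m : ℚ_[2]) • L (μ k M g W)‖ ≤ (2 ^ k)⁻¹ := by
  induction m with
  | zero => simpa using (hL _).trans (h.one hM hW)
  | succ m ih =>
    have := ua (add hC h hM hp hW hL hI hg (g ^ m)) ih
    rw [pow_succ', Nat.cast_succ, add_smul, one_smul]
    exact (congrArg norm (by abel)).trans_le this

/-- the passage to powers of the generator -/
theorem gen {N : Subgroup GQ} (hN : ∀ n ∈ N, μ k M n = μ k M 1) {g : GQ} (hg : g ∈ w.I)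
    (ht : t ∈ w.I) {m r : ℕ} (hr : Odd r) (e : (g * (t ^ m)⁻¹) ^ r ∈ N) :
    ‖L (μ k M g W) - (m : ℚ_[2]) • L (μ k M t W)‖ ≤ (2 ^ k)⁻¹ := by
  have hs : g * (t ^ m)⁻¹ ∈ w.I := mul_mem hg (inv_mem (pow_mem ht m))
  have h1 := pw hC h hM hp hW hL hI hs r
  rw [hN _ e] at h1
  have h2 := us ((hL _).trans (h.one hM hW)) h1
  rw [sub_sub_cancel, odd_smul hr] at h2
  have h3 := add hC h hM hp hW hL hI hs (t ^ m)
  rw [inv_mul_cancel_right] at h3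
  exact (congrArg norm (by abel)).trans_le (ua (ua h3 h2) (pw hC h hM hp hW hL hI ht m))
end

theorem tame (h : D.MS μ) (hM : D.Lv k M) (h2 : w.p ≠ 2) (ht : t ∈ w.I)
    (mov : ∀ β : Om, β ^ 2 = w.p → t β = -β) : ∃ N : Subgroup GQ, (∀ n ∈ N, μ k M n = μ k M 1) ∧
      (∀ g ∈ w.I, ∃ m r : ℕ, Odd r ∧ (g * (t ^ m)⁻¹) ^ r ∈ N) ∧
      ∀ φ, w.IsFrob 1 φ → ∃ r : ℕ, Odd r ∧ (φ * t * φ⁻¹ * (t ^ w.p)⁻¹) ^ r ∈ N := by
  obtain ⟨N, hN, h1⟩ := h.sm k M hM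
  obtain ⟨h3, h4⟩ := a_TAME2 w _ w.p t h2 w.loc_D
    (by rw [inf_eq_left.2 w.I_le_D]; exact (a_RES _ _ w.loc_D).2.2.2.2.1) ⟨ht, ht.1⟩ mov N hN
  refine ⟨N, fun n hn => by simpa using h1 1 trivial n trivial hn, fun g hg => h3 g ⟨hg, hg.1⟩,
    fun φ hφ => ?_⟩
  simpa only [pow_one] using h4 1 φ hφ (map_natCast _ _)
    fun g hg => mul_mem (mul_mem hφ.1 hg) (inv_mem hφ.1)

theorem key (hC : CYB) (hP : PUSH) (h : D.MS μ) (hM : D.Lv k M) (hp : ¬ w.p ∣ M) (hW : Wi M W)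
    (hL : ∀ v, ‖L v‖ ≤ ‖v‖) (hI : ∀ g ∈ w.I, ∀ v, L (D.rd g *ᵥ v) = L v) (ht : t ∈ w.I)
    (mov : ∀ β : Om, β ^ 2 = w.p → t β = -β) {φ : GQ} (hφ : w.IsFrob 1 φ) {R : Mt}
    (hR : ∀ i j, ‖(R - 1) i j‖ ≤ 2⁻¹) (hF : ∀ v, L (D.rd φ *ᵥ v) = R *ᵥ L v) :
    ‖L (μ k M t W)‖ ≤ (2 ^ k)⁻¹ := by
  have h2 := ne2 hM hp
  have ho : Odd w.p := w.prime.odd_of_ne_two h2
  have p0 : (w.p : ℚ_[2]) ≠ 0 := Nat.cast_ne_zero.2 w.prime.ne_zero
  have p1 : ‖(w.p : ℚ_[2])‖ = 1 := Padic.norm_natCast_eq_one_iff.2 (Nat.coprime_two_left.2 ho)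
  refine hP k (fun M => D.Lv k M ∧ ¬ w.p ∣ M) (fun M => L ∘ₗ μ k M t) ((w.p : ℚ_[2])⁻¹ • R) φ
    (fun M hM => ⟨hM.1.1, hM.1.two, fun e => ((Nat.Prime.dvd_mul w.prime).1 e).elim hM.2
      fun e => h2 ((Nat.prime_dvd_prime_iff_eq w.prime Nat.prime_two).1 e)⟩)
    (hC.2.1 w φ h2 hφ).1 (fun i j => ?_)
    (fun M W ε _ e hW => (hL _).trans (h.le k M t W ε e hW)) (fun M W hM hW => ?_)
    (fun M W hM hW => ?_) M W ⟨hM, hp⟩ hW
  · obtain ⟨c, hc⟩ := ho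
    have e : (w.p : ℚ_[2])⁻¹ • R - 1 = (w.p : ℚ_[2])⁻¹ • ((R - 1) - (2 * c : ℚ_[2]) • 1) := by
      rw [sub_sub, smul_sub, ← one_smul ℚ_[2] (1 : Mt), smul_smul, ← add_smul, smul_smul, one_smul,
        mul_one, show (1 + 2 * c : ℚ_[2]) = w.p by rw [hc]; push_cast; ring, inv_mul_cancel₀ p0,
        one_smul]
    rw [e, Matrix.smul_apply, norm_smul, norm_inv, p1, inv_one, one_mul, Matrix.sub_apply]
    refine us (hR i j) ?_
    rw [Matrix.smul_apply, norm_smul, norm_mul, SelA.two, Matrix.one_apply, mul_assoc]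
    refine mul_le_of_le_one_right (by norm_num)
      (mul_le_one₀ (IsUltrametricDist.norm_natCast_le_one _ _) (norm_nonneg _) ?_)
    split_ifs <;> simp
  · rw [LinearMap.comp_apply, LinearMap.comp_apply, ← map_sub]
    exact (hL _).trans (h.two k M hM.1 t W hW)
  · obtain ⟨N, hN, -, h4⟩ := tame h hM.1 h2 ht mov
    obtain ⟨r, hr, h5⟩ := h4 φ hφ
    have hc := Pl.conj_mem_I hφ.1 ht
    have h6 := gen hC h hM.1 hM.2 hW hL hI hN hc ht hr h5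
    have h7 := add hC h hM.1 hM.2 hW hL hI hc φ
    rw [inv_mul_cancel_right] at h7
    have h8 := (hL _).trans (h.co k M hM.1 φ t W hW)
    rw [map_sub, map_sub, hF] at h8
    rw [LinearMap.comp_apply, LinearMap.comp_apply, ← odd_smul ho, smul_sub, Matrix.smul_mulVec,
      smul_smul, mul_inv_cancel₀ p0, one_smul]
    exact (congrArg norm (by abel)).trans_le (us (us h8 h7) h6)

end TUNRF

open TUNRF in
theorem t_UNRF (hC : CYB) (hP : PUSH) : UNRF := by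
  intro D μ h k M w W hM hp hW
  have h2 := ne2 hM hp
  obtain ⟨φ, hφ⟩ := Pl.exists_frob a_FROB w
  refine ⟨fun hw g hg => ?_, fun t e c _ hB => ?_⟩
  · have h30 : ¬ w.p ∣ 30 * D.n := fun e =>
      ((Nat.Prime.dvd_mul w.prime).1 (show w.p ∣ 2 * (15 * D.n) by rwa [← mul_assoc])).elim
        (fun e => h2 ((Nat.prime_dvd_prime_iff_eq w.prime Nat.prime_two).1 e)) hw
    obtain ⟨t, ht, mov⟩ := Pl.exists_gen a_TAME a_RES h2
    have hI : ∀ g ∈ w.I, ∀ v, (LinearMap.id : V2 →ₗ[ℚ_[2]] V2) (D.rd g *ᵥ v) = LinearMap.id v :=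
      fun g hg v => by rw [(Dat.rd_I h30 hg).1, Matrix.one_mulVec]
    have h1 := key (L := LinearMap.id) hC hP h hM hp hW (fun _ => le_rfl) hI ht mov hφ (D.rd_two φ)
      fun _ => rfl
    obtain ⟨N, hN, h3, -⟩ := tame h hM h2 ht mov
    obtain ⟨m, r, hr, h4⟩ := h3 g hg
    have h5 := gen (L := LinearMap.id) hC h hM hp hW (fun _ => le_rfl) hI hN hg ht hr h4
    have h6 : ‖(m : ℚ_[2]) • (LinearMap.id : V2 →ₗ[ℚ_[2]] V2) (μ k M t W)‖ ≤ (2 ^ k)⁻¹ := by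
      rw [norm_smul]
      exact (mul_le_of_le_one_left (norm_nonneg _)
        (IsUltrametricDist.norm_natCast_le_one _ _)).trans h1
    simpa using ua h5 h6
  · have p0 : (w.p : ℚ_[2]) ≠ 0 := Nat.cast_ne_zero.2 w.prime.ne_zero
    have n1 : ∀ v, ‖(nu e).mulVecLin v‖ = ‖dt e v‖ := fun v => by
      rw [Matrix.mulVecLin_apply, nu_mulVec, norm_smul, hB.e1, mul_one]
    have hL : ∀ v, ‖(nu e).mulVecLin v‖ ≤ ‖v‖ := fun v => by
      rw [n1]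
      simpa [hB.e1] using dt_le e v
    have hI : ∀ g ∈ w.I, ∀ v, (nu e).mulVecLin (D.rd g *ᵥ v) = (nu e).mulVecLin v := by
      intro g hg v
      have := dt_mulVec (D.rd g) e v
      rw [(hB.fix g hg).1, D.rd_det, cq, (hB.fix g hg).2.2] at this
      simp only [Matrix.mulVecLin_apply, nu_mulVec, this]
      simp
    have h3 := fun v => dt_mulVec (D.rd φ) e v
    rw [D.rd_det, cq_frob h2 hφ] at h3
    rw [← n1]
    rcases hB.fr φ hφ with a | a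
    · refine key hC hP h hM hp hW hL hI hB.tI hB.mov hφ (R := 1) (by simp) fun v => ?_
      have : dt e (D.rd φ *ᵥ v) = dt e v := mul_left_cancel₀ p0 (by
        rw [← h3 v, a]
        simp only [dt, Pi.smul_apply, smul_eq_mul]
        ring)
      simp only [Matrix.mulVecLin_apply, nu_mulVec, this, Matrix.one_mulVec]
    · refine key hC hP h hM hp hW hL hI hB.tI hB.mov hφ (R := -1) (fun i j => ?_) fun v => ?_
      · rw [show (-1 - 1 : Mt) = (-2 : ℚ_[2]) • 1 by module, Matrix.smul_apply, norm_smul, norm_neg,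
          SelA.two, Matrix.one_apply]
        split_ifs <;> simp
      · have : dt e (D.rd φ *ᵥ v) = -dt e v := mul_left_cancel₀ p0 (by
          rw [mul_neg, ← h3 v, a]
          simp only [dt, Pi.smul_apply, smul_eq_mul]
          ring)
        simp only [Matrix.mulVecLin_apply, nu_mulVec, this, Matrix.neg_mulVec, Matrix.one_mulVec,
          neg_smul]

end Pool.Agent.P.MP_9c97e9_nt.K2
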