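import Pool.Agent.P.MP_9c97e9_nt.K2.BasK
import Pool.Agent.P.MP_9c97e9_nt.KT.TZI

/-! The quadratic characters at the top of the tower. -/

namespace Pool.Agent.P.MP_9c97e9_nt.K2

open scoped NNReal Matrix
open MP_8b7eba_nt.R2 KT
open MP_8b7eba_nt.R1 (st)
open K2.BK TIW0
open KT.TZI (ext ch_sub)

namespace TZI

variable {D : Dat} {i : Fin 2} {χ χ' κ : GQ → ZMod 2} {w : Pl}

/-- the characters which are unramified at two -/
structure Cu (D : Dat) (i : Fin 2) (χ : GQ → ZMod 2) : Prop where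
  ch : IsCh KI χ
  off : ∀ g, g ∉ KI → χ g = 0
  nz : χ D.z = 0
  unr : ∀ w : Pl, ¬ w.p ∣ 30 * D.n → ∀ g ∈ w.I, χ g = 0
  re : i = 0 → ∀ s, χ (ts s) = 0
  ord : i = 1 → ∀ g ∈ w2.I, χ g = 0

theorem ch_add {H : Subgroup GQ} (h : IsCh H χ) (a : ZMod 2) (h' : IsCh H χ') :
    IsCh H fun g => χ g + a * χ' g :=
  ⟨h.1.comp₂ h'.1 fun x y => x + a * y, fun g hg k hk => by
    beta_reduce
    rw [h.2 g hg k hk, h'.2 g hg k hk]
    ring⟩

theorem ch_cut {H : Subgroup GQ} (h : IsCh H χ) : IsCh H (cut H χ) :=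
  ⟨h.1.congr fun _ hg => cut_pos hg, fun g hg s hs => by
    rw [cut_pos hg, cut_pos hs, cut_pos (mul_mem hg hs)]
    exact h.2 g hg s hs⟩

theorem two (h : D.Cq KI i χ) :
    ∃ m₀, ∀ m, m₀ ≤ m → ∃ χ', D.Cq (KP m) i χ' ∧ ∀ g ∈ KI, χ' g = χ g := by
  obtain ⟨a, ha⟩ : ∃ a, i = 1 → ∀ g ∈ w2.D ⊓ KI, χ g = a * qz D.mi g := by
    by_cases e : i = 1
    · exact (h.ord e).imp fun _ k _ => k
    · exact ⟨0, fun k => absurd k e⟩
  obtain ⟨m₀, hm⟩ := ext (ch_cut (ch_add h.ch a (isCh_qz D.mi)))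
  refine ⟨m₀, fun m hmm => ?_⟩
  obtain ⟨χ', h1, -, h3, h4⟩ := hm m hmm
  have h5 : ∀ g ∈ KI, cut (KP m) (fun g => χ' g + a * qz D.mi g) g = χ g := fun g hg => by
    rw [cut_pos (KI_le m hg), h3 g hg, cut_pos hg, add_assoc, LC.two, add_zero]
  refine ⟨_, ⟨ch_cut (ch_add h1 a (isCh_qz D.mi)), fun g => cut_neg, (h5 _ (z_mem D)).trans h.nz,
    fun w hw g hg => (h5 _ (I_le (odd hw) hg)).trans (h.unr w hw g hg),
    fun e s => (h5 _ (ts_mem s)).trans (h.re e s), fun e => ⟨a, fun g hg => ?_⟩⟩, h5⟩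
  have h6 : ∀ g ∈ w2.D, cut KI (fun g => χ g + a * qz D.mi g) g = 0 := fun g hg => by
    by_cases hg' : g ∈ KI
    · rw [cut_pos hg', ha e g ⟨hg, hg'⟩, LC.two]
    · exact cut_neg hg'
  obtain ⟨s, hs, h7⟩ := surjI g
  have h8 := h1.2 _ (KI_le m h7) s (by simpa using mul_mem (inv_mem (KI_le m h7)) hg.2)
  rw [inv_mul_cancel_right, h3 _ h7, h6 _ (mul_mem hg.1 (inv_mem (w2.I_le_D hs))),
    h4 (fun g hg => h6 g (w2.I_le_D hg)) s hs, add_zero] at h8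
  rw [cut_pos hg.2, h8, zero_add]

theorem unr0 (D : Dat) (h : IsCh KI χ) (hI : ∀ g ∈ w2.I ⊓ KI, χ g = 0) (h0 : χ D.f2 = 0) :
    ∀ g ∈ w2.D ⊓ KI, χ g = 0 := by
  intro g hg
  obtain ⟨N, hN, hs⟩ := h.1
  obtain ⟨m, hm⟩ := small hN
  obtain ⟨f, ψ, -, -, hf, h1, -, hd⟩ := a_FROB w2 w2.D w2.loc_D
  obtain ⟨k, j, hj, u, hu, e⟩ := hd _ (hN.inf (on_KP m)) g hg.1
  have h2 := mul_mem ((D.fr.pow k).inv_mul ((h1 rfl ▸ hf).pow k)) hj.1
  have h3 := pow_mem (f2_mem D) k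
  have e1 : (D.f2 ^ k)⁻¹ * ψ ^ k * j = (D.f2 ^ k)⁻¹ * g * u⁻¹ := by rw [e]; group
  rw [e1] at h2
  obtain ⟨s, h4, h5⟩ := hm _ (mul_mem (KI_le m (mul_mem (inv_mem h3) hg.2)) (inv_mem hu.1.2))
  have e2 : g = D.f2 ^ k * ((D.f2 ^ k)⁻¹ * g * u⁻¹ * s⁻¹) * (s * u) := by group
  rw [e2, hs _ (mul_mem h3 h5) _ (KI.mul_mem_cancel_left (mul_mem h3 h5) |>.1 (e2 ▸ hg.2))
    (mul_mem h4.2 hu.1.1), h.2 _ h3 _ h5, h.pow (f2_mem D), h0,
    hI _ ⟨w2.I.mul_mem h2 (w2.I.inv_mem h4.1), h5⟩, smul_zero, add_zero]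

theorem unr5 (D : Dat) (h : IsCh KI χ) (hI : ∀ g ∈ w2.I, χ g = 0) :
    ∀ g ∈ w2.D ⊓ KI, χ g = χ D.f2 * qz 5 g := fun g hg => by
  have h1 := unr0 D (ch_add h (χ D.f2) (isCh_qz 5))
    (fun g hg => by rw [qz_I_two rfl (by norm_num) hg.1, hI g hg.1, mul_zero, add_zero])
    (by rw [qz5_frob D.fr, mul_one, LC.two]) g hg
  have k : ∀ x y : ZMod 2, x + y = 0 → x = y := by decide
  exact k _ _ h1

/-- a character which interchanges the two conditions at two -/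
theorem exists_kap (D : Dat) : ∃ κ : GQ → ZMod 2, IsCh KI κ ∧ κ D.z = 0 ∧
    (∀ w : Pl, ¬ w.p ∣ 30 * D.n → ∀ g ∈ w.I, κ g = 0) ∧
    ∀ g ∈ w2.D ⊓ KI, κ g = qz 5 g + qz D.mi g := by
  by_cases he : 0 < D.e
  · exact ⟨fun _ => 0, ⟨Sm.const 0, fun _ _ _ _ => (add_zero _).symm⟩, rfl, fun _ _ _ _ => rfl,
      fun g _ => by rw [Dat.mi, if_pos he, LC.two]⟩
  obtain ⟨a1, -, -, a2, a3⟩ := qz_z D
  refine ⟨fun g => qz (st D.n) g + 1 * qz D.d g + (qz (st D.n) D.f2 + 1) * qz 5 g,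
    ch_add (ch_add (isCh_qz _) 1 (isCh_qz _)) _ (isCh_qz _), ?_, fun w hw g hg => ?_,
    fun g hg => ?_⟩
  · beta_reduce
    rw [a1, a2, a3, mul_zero]; rfl
  · beta_reduce
    rw [qz_unr (st_dvd D) hw hg, qz_unr (d_dvd D) hw hg,
      qz_unr (m := 5) (Dvd.dvd.mul_right (by norm_num) _) hw hg]
    simp
  · beta_reduce
    rw [unr5 D (isCh_qz _) (fun g hg => qz_two_I hg) g hg, Dat.mi, if_neg he]
    linear_combination LC.two (qz (st D.n) D.f2 * qz 5 g)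

theorem card_eq (D : Dat) (i : Fin 2) : {χ | D.Cq KI i χ}.ncard = {χ | Cu D i χ}.ncard := by
  by_cases e : i = 1
  swap
  · congr 1
    ext χ
    exact ⟨fun h => ⟨h.ch, h.off, h.nz, h.unr, h.re, fun k => absurd k e⟩,
      fun h => ⟨h.ch, h.off, h.nz, h.unr, h.re, fun k => absurd k e⟩⟩
  subst e
  obtain ⟨κ, k1, k2, k3, k4⟩ := exists_kap D
  obtain ⟨g0, hg0, hq⟩ := D.exists_mi
  have kc : ∀ w : Pl, ¬ w.p ∣ 30 * D.n → ∀ g ∈ w.I, cut KI κ g = 0 := fun w hw g hg =>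
    (cut_pos (I_le (odd hw) hg)).trans (k3 w hw g hg)
  have kz : cut KI κ D.z = 0 := (cut_pos (z_mem D)).trans k2
  have kd : ∀ g ∈ w2.D ⊓ KI, cut KI κ g = qz 5 g + qz D.mi g := fun g hg =>
    (cut_pos hg.2).trans (k4 g hg)
  have hf : D.f2 ∈ w2.D ⊓ KI := ⟨D.fr.1, f2_mem D⟩
  have a1 : ∀ χ, D.Cq KI 1 χ → ∀ g ∈ w2.D ⊓ KI,
      χ g + χ g0 * cut KI κ g = χ g0 * qz 5 g := fun χ h g hg => by
    obtain ⟨a, ha⟩ := h.ord rfl
    rw [kd g hg, ha g hg, ha g0 hg0, hq]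
    linear_combination LC.two (a * qz D.mi g)
  have a2 : ∀ χ, Cu D 1 χ → ∀ g ∈ w2.D ⊓ KI,
      χ g + χ D.f2 * cut KI κ g = χ D.f2 * qz D.mi g := fun χ h g hg => by
    rw [kd g hg, unr5 D h.ch (h.ord rfl) g hg]
    linear_combination LC.two (χ D.f2 * qz 5 g)
  refine (Set.BijOn.ncard_eq (f := fun χ g => χ g + χ g0 * cut KI κ g)
    (Set.InvOn.bijOn (f' := fun χ g => χ g + χ D.f2 * cut KI κ g)
      ⟨fun χ h => funext fun g => ?_, fun χ h => funext fun g => ?_⟩ (fun χ h => ?_)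
      fun χ h => ?_))
  · beta_reduce
    rw [a1 χ h _ hf, qz5_frob D.fr, mul_one, add_assoc, LC.two, add_zero]
  · beta_reduce
    rw [a2 χ h _ hg0, hq, mul_one, add_assoc, LC.two, add_zero]
  · refine ⟨ch_add h.ch _ (ch_cut k1), fun g hg => by simp [h.off g hg, cut_neg hg],
      by simp [h.nz, kz], fun w hw g hg => by simp [h.unr w hw g hg, kc w hw g hg],
      fun e => absurd e (by decide), fun _ g hg => ?_⟩
    by_cases hg' : g ∈ KI
    · exact (a1 χ h g ⟨w2.I_le_D hg, hg'⟩).trans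
        (by rw [qz_I_two rfl (by norm_num) hg, mul_zero])
    · simp [h.off g hg', cut_neg hg']
  · exact ⟨ch_add h.ch _ (ch_cut k1), fun g hg => by simp [h.off g hg, cut_neg hg],
      by simp [h.nz, kz], fun w hw g hg => by simp [h.unr w hw g hg, kc w hw g hg],
      fun e => absurd e (by decide), fun _ => ⟨_, a2 χ h⟩⟩

theorem cq_sub (h : Cu D i χ) (h' : Cu D i χ') : Cu D i fun g => χ g - χ' g :=
  ⟨ch_sub h.ch h'.ch, fun g hg => by simp [h.off g hg, h'.off g hg], by simp [h.nz, h'.nz],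
    fun w hw g hg => by simp [h.unr w hw g hg, h'.unr w hw g hg],
    fun e s => by simp [h.re e s, h'.re e s], fun e g hg => by simp [h.ord e g hg, h'.ord e g hg]⟩

theorem zero (hCH : CH) (h : Cu D i χ) (h0 : ∀ w : Pl, w.p ≠ 2 → ∀ j ∈ w.I, χ j = 0) (g : GQ) :
    χ g = 0 := by
  by_cases hg : g ∈ KI
  swap
  · exact h.off g hg
  obtain ⟨m, hm⟩ := ext h.ch
  obtain ⟨χ', h1, -, h2, h4⟩ := hm m le_rfl
  have h3 := (hCH m).2.2.2 χ' ⟨h1, fun w hw j hj => (h2 j (I_le hw hj)).trans (h0 w hw j hj)⟩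
  rw [← h2 g hg]
  have : i = 0 ∨ i = 1 := by omega
  rcases this with e | e
  · exact h3.2 (fun s => (h2 _ (ts_mem s)).trans (h.re e s)) g (KI_le _ hg)
  · exact h3.1 (fun j hj => h4 (h.ord e) j hj.1) g (KI_le _ hg)

end TZI

open TZI in
theorem t_ZI (hLAYK : LAYK) (hCH : CH) : ZI := by
  classical
  intro D i
  refine ⟨(card_eq D i).trans ?_, fun χ h => two h⟩
  obtain ⟨k, hk⟩ := exists_big D
  obtain ⟨hc, hK⟩ := hLAYK.2.2 D k (hk k le_rfl)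
  choose! t ht hq _ hχ using fun (w : Pl) (hw : w.p ≠ 2) => exists_t hw
  have inv : ∀ χ : GQ → ZMod 2, IsCh KI χ → ∀ w : Pl, w.p ∣ 15 * D.n → ∀ u ∈ KP k,
      χ (t (u • w)) = χ (t w) := fun χ h w hw u hu => by
    obtain ⟨u', hu', e⟩ := (hK w (dvd30.2 (Or.inr hw))).2 u hu
    have o := odd' hw
    have h1 := hχ (u' • w) o χ (h.mono (I_le o)) _ (conj_I u' (ht w o))
    rw [ch_conj h hu' (I_le o (ht w o)), qz_conj, Pl.smul_p, hq w o, mul_one, e] at h1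
    exact h1.symm
  have oz : D.wz.p ∣ 15 * D.n := D.zp.mul_left 15
  have hz : ∀ χ : GQ → ZMod 2, Cu D i χ → χ (t D.wz) = 0 := fun χ h => by
    have h1 := hχ D.wz (odd' oz) χ (h.ch.mono (I_le (odd' oz))) _ D.zI
    rw [h.nz, (qz_z D).2.2.1, mul_one] at h1
    exact h1.symm
  rw [nOrb] at hc
  set O := (fun w => MulAction.orbit (KP k) w) '' {w : Pl | w.p ∣ 15 * D.n} with hO
  have hf : O.Finite := Set.finite_of_ncard_ne_zero (by omega)
  have mz : MulAction.orbit (KP k) D.wz ∈ O := ⟨D.wz, oz, rfl⟩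
  set O' := O \ {MulAction.orbit (KP k) D.wz} with hO'
  have hc' : O'.ncard = D.s1 := by
    rw [hO', Set.ncard_sdiff_singleton_of_mem mz, hc]
    omega
  have hf' : Finite O' := (hf.subset Set.sdiff_subset).to_subtype
  choose r hr hr' using fun o : O' => o.2.1
  have bij : Set.BijOn (fun (χ : GQ → ZMod 2) (o : O') => χ (t (r o))) {χ | Cu D i χ}
      Set.univ := by
    refine ⟨fun _ _ => trivial, fun χ h χ' h' e => ?_, fun f _ => ?_⟩
    · have h1 := cq_sub h h'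
      refine funext fun g => sub_eq_zero.1 (zero hCH h1 (fun w hw j hj => ?_) g)
      by_cases h2 : w.p ∣ 30 * D.n
      swap
      · exact h1.unr w h2 j hj
      have h3 := (dvd30.1 h2).resolve_left hw
      rw [hχ w hw _ (h1.ch.mono (I_le hw)) j hj]
      refine mul_eq_zero_of_left ?_ _
      by_cases h4 : MulAction.orbit (KP k) w = MulAction.orbit (KP k) D.wz
      · obtain ⟨u, hu, rfl⟩ := TZONE.orb_eq.1 h4
        exact (inv _ h1.ch _ oz u hu).trans (hz _ h1)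
      · have m : MulAction.orbit (KP k) w ∈ O' := ⟨⟨w, h3, rfl⟩, h4⟩
        obtain ⟨u, hu, e'⟩ := TZONE.orb_eq.1 (hr' ⟨_, m⟩)
        have h5 := inv _ h1.ch w h3 u hu
        rw [e'] at h5
        exact h5.symm.trans (sub_eq_zero.2 (congrFun e ⟨_, m⟩))
    · let c : Pl → ZMod 2 := fun w =>
        if h : MulAction.orbit (KP k) w ∈ O' then f ⟨_, h⟩ else 0
      have c0 : ∀ w : Pl, ¬ w.p ∣ 15 * D.n → c w = 0 := fun w hw => dif_neg fun ⟨⟨w', h1, h2⟩, _⟩ => by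
        obtain ⟨u, -, rfl⟩ := TZONE.orb_eq.1 h2
        exact hw h1
      obtain ⟨χ₀, h0, h1⟩ := (hCH k).1 c (15 * D.n) (fun u hu w => by
          have e : MulAction.orbit (KP k) (u • w) = MulAction.orbit (KP k) w :=
            TZONE.orb_eq.2 ⟨u, hu, rfl⟩
          simp only [c, e])
        fun w hw => c0 w fun h => absurd (Nat.le_of_dvd (by have := D.n_pos; omega) h) (by omega)
      obtain ⟨χ₁, h2, h3, h4⟩ : ∃ χ₁, Ch0 k χ₁ ∧ (i = 0 → ∀ s, χ₁ (ts s) = χ₀ (ts s)) ∧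
          (i = 1 → ∀ j ∈ w2.I ⊓ KP k, χ₁ j = χ₀ j) := by
        have : i = 0 ∨ i = 1 := by omega
        rcases this with e | e
        · obtain ⟨χ₁, a, b⟩ := (hCH k).2.2.1 (fun s => χ₀ (ts s)) fun u hu s => by
            beta_reduce
            rw [ts_mul, ch_conj h0 hu (KI_le k (ts_mem s))]
          exact ⟨χ₁, a, fun _ => b, fun e' => absurd (e.symm.trans e') (by decide)⟩
        · obtain ⟨χ₁, a, b⟩ := (hCH k).2.1 χ₀ (h0.mono inf_le_right)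
          exact ⟨χ₁, a, fun e' => absurd (e.symm.trans e') (by decide), fun _ => b⟩
      have h5 := (ch_sub h0 h2.1).mono (KI_le k)
      have h6 : ∀ w : Pl, w.p ≠ 2 → ∀ j ∈ w.I,
          cut KI (fun g => χ₀ g - χ₁ g) j = c w * qz w.p j := fun w hw j hj => by
        rw [cut_pos (I_le hw hj), h1 w hw j hj, h2.2 w hw j hj, sub_zero]
      refine ⟨cut KI fun g => χ₀ g - χ₁ g, ⟨⟨h5.1.congr fun g hg => cut_pos hg,
        fun g hg s hs => ?_⟩, fun g => cut_neg, ?_, fun w hw g hg => ?_, fun e s => ?_,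
        fun e g hg => ?_⟩, funext fun o => ?_⟩
      · rw [cut_pos hg, cut_pos hs, cut_pos (mul_mem hg hs)]
        exact h5.2 g hg s hs
      · rw [h6 _ (odd' oz) _ D.zI, show c D.wz = 0 from dif_neg fun h => h.2 rfl, zero_mul]
      · rw [h6 _ (odd hw) _ hg, c0 w fun h => hw (dvd30.2 (Or.inr h)), zero_mul]
      · rw [cut_pos (ts_mem s), h3 e s, sub_self]
      · by_cases hg' : g ∈ KI
        · rw [cut_pos hg', h4 e g ⟨hg, KI_le k hg'⟩, sub_self]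
        · exact cut_neg hg'
      · have o1 := odd' (hr o)
        beta_reduce
        rw [h6 _ o1 _ (ht _ o1), hq _ o1, mul_one]
        have e : MulAction.orbit (KP k) (r o) = o := hr' o
        simp only [c, e, o.2, dif_pos, Subtype.coe_eta]
  rw [← bij.injOn.ncard_image, bij.image_eq, Set.ncard_univ, Nat.card_fun, Nat.card_zmod,
    Nat.card_coe_set_eq, hc']

end Pool.Agent.P.MP_9c97e9_nt.K2
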