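import Pool.Agent.P.MP_9c97e9_nt.K2.TAF
import Pool.Agent.P.MP_9c97e9_nt.K2.TALV
import Pool.Agent.P.MP_9c97e9_nt.K2.TAN1
import Pool.Agent.P.MP_9c97e9_nt.K2.TAN2
import Pool.Agent.P.MP_9c97e9_nt.K2.TANA
import Pool.Agent.P.MP_9c97e9_nt.K2.TAPR
import Pool.Agent.P.MP_9c97e9_nt.K2.TAT2
import Pool.Agent.P.MP_9c97e9_nt.K2.TATM
import Pool.Agent.P.MP_9c97e9_nt.K2.TBADP
import Pool.Agent.P.MP_9c97e9_nt.K2.TBAS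
import Pool.Agent.P.MP_9c97e9_nt.K2.TBR
import Pool.Agent.P.MP_9c97e9_nt.K2.TCASX
import Pool.Agent.P.MP_9c97e9_nt.K2.TCHEB0J
import Pool.Agent.P.MP_9c97e9_nt.K2.TCHEBJ
import Pool.Agent.P.MP_9c97e9_nt.K2.TCJ
import Pool.Agent.P.MP_9c97e9_nt.K2.TDET1
import Pool.Agent.P.MP_9c97e9_nt.K2.TDSC
import Pool.Agent.P.MP_9c97e9_nt.K2.TDUALJ
import Pool.Agent.P.MP_9c97e9_nt.K2.TERLA
import Pool.Agent.P.MP_9c97e9_nt.K2.TERLB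
import Pool.Agent.P.MP_9c97e9_nt.K2.TERLP
import Pool.Agent.P.MP_9c97e9_nt.K2.TEUL
import Pool.Agent.P.MP_9c97e9_nt.K2.TEXT
import Pool.Agent.P.MP_9c97e9_nt.K2.TF2X
import Pool.Agent.P.MP_9c97e9_nt.K2.TFSR
import Pool.Agent.P.MP_9c97e9_nt.K2.TGLOB
import Pool.Agent.P.MP_9c97e9_nt.K2.TGTK
import Pool.Agent.P.MP_9c97e9_nt.K2.THBJ
import Pool.Agent.P.MP_9c97e9_nt.K2.TIW1
import Pool.Agent.P.MP_9c97e9_nt.K2.TIWA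
import Pool.Agent.P.MP_9c97e9_nt.K2.TIWX
import Pool.Agent.P.MP_9c97e9_nt.K2.TKPZJ
import Pool.Agent.P.MP_9c97e9_nt.K2.TKRELJ
import Pool.Agent.P.MP_9c97e9_nt.K2.TKTR
import Pool.Agent.P.MP_9c97e9_nt.K2.TL35
import Pool.Agent.P.MP_9c97e9_nt.K2.TLAB2
import Pool.Agent.P.MP_9c97e9_nt.K2.TLAL
import Pool.Agent.P.MP_9c97e9_nt.K2.TLAYK
import Pool.Agent.P.MP_9c97e9_nt.K2.TLBK
import Pool.Agent.P.MP_9c97e9_nt.K2.TLCH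
import Pool.Agent.P.MP_9c97e9_nt.K2.TLCN
import Pool.Agent.P.MP_9c97e9_nt.K2.TLD1
import Pool.Agent.P.MP_9c97e9_nt.K2.TLD2
import Pool.Agent.P.MP_9c97e9_nt.K2.TLGD
import Pool.Agent.P.MP_9c97e9_nt.K2.TLK
import Pool.Agent.P.MP_9c97e9_nt.K2.TLK35
import Pool.Agent.P.MP_9c97e9_nt.K2.TLKE
import Pool.Agent.P.MP_9c97e9_nt.K2.TLN
import Pool.Agent.P.MP_9c97e9_nt.K2.TLO1
import Pool.Agent.P.MP_9c97e9_nt.K2.TLO2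
import Pool.Agent.P.MP_9c97e9_nt.K2.TLO3
import Pool.Agent.P.MP_9c97e9_nt.K2.TLOB
import Pool.Agent.P.MP_9c97e9_nt.K2.TLOH
import Pool.Agent.P.MP_9c97e9_nt.K2.TLRE
import Pool.Agent.P.MP_9c97e9_nt.K2.TLS35
import Pool.Agent.P.MP_9c97e9_nt.K2.TLSF
import Pool.Agent.P.MP_9c97e9_nt.K2.TLSI
import Pool.Agent.P.MP_9c97e9_nt.K2.TLSM
import Pool.Agent.P.MP_9c97e9_nt.K2.TLTU
import Pool.Agent.P.MP_9c97e9_nt.K2.TLTZ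
import Pool.Agent.P.MP_9c97e9_nt.K2.TLYY
import Pool.Agent.P.MP_9c97e9_nt.K2.TMAIN
import Pool.Agent.P.MP_9c97e9_nt.K2.TMU
import Pool.Agent.P.MP_9c97e9_nt.K2.TOB1
import Pool.Agent.P.MP_9c97e9_nt.K2.TOB2
import Pool.Agent.P.MP_9c97e9_nt.K2.TPKOLQ
import Pool.Agent.P.MP_9c97e9_nt.K2.TQZ
import Pool.Agent.P.MP_9c97e9_nt.K2.TRTS
import Pool.Agent.P.MP_9c97e9_nt.K2.TSBJ
import Pool.Agent.P.MP_9c97e9_nt.K2.TSHAX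
import Pool.Agent.P.MP_9c97e9_nt.K2.TTOPX
import Pool.Agent.P.MP_9c97e9_nt.K2.TTRA
import Pool.Agent.P.MP_9c97e9_nt.K2.TTRB
import Pool.Agent.P.MP_9c97e9_nt.K2.TTRH
import Pool.Agent.P.MP_9c97e9_nt.K2.TTRK
import Pool.Agent.P.MP_9c97e9_nt.K2.TTRX
import Pool.Agent.P.MP_9c97e9_nt.K2.TUBX
import Pool.Agent.P.MP_9c97e9_nt.K2.TUNRF
import Pool.Agent.P.MP_9c97e9_nt.K2.TZI
import Pool.Agent.P.MP_9c97e9_nt.KT.AllM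

/-! The theorem, given the Euler system. -/

namespace Pool.Agent.P.MP_9c97e9_nt.K2

theorem a_MU : MU := t_MU KT.t_CYB

theorem a_UNRF : UNRF := t_UNRF KT.t_CYB KT.a_PUSH

theorem a_QZ : QZ := t_QZ KT.t_CYB

theorem a_KPZJ : KPZJ := t_KPZJ KT.t_CYB a_UNRF a_QZ

theorem a_DUALJ : DUALJ := t_DUALJ (t_KTR KT.t_CYB t_PKOLQ) (t_GLOB KT.t_PRECQ)

theorem a_UBX : UBX :=
  t_UBX a_MU a_KPZJ (t_KRELJ KT.t_CYB a_QZ (t_FSR KT.t_CYB KT.a_PUSH a_UNRF))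
    (t_HBJ a_DUALJ (t_CHEBJ (t_CHEB0J KT.t_CYB KT.t_DLOG))) (t_SBJ a_DUALJ)
    (t_ERLP KT.t_CYB a_MU a_KPZJ (t_ERLA KT.t_CYB) (t_ERLB KT.t_CYB a_MU a_KPZJ))

theorem a_ZI : ZI := t_ZI t_LAYK KT.a_CH

theorem a_IW1 : IW1 :=
  t_IW1 a_ZI (t_OB1 (t_GTK t_LAYK KT.a_ABK KT.a_CH)) (t_OB2 KT.a_CH t_RTS) t_RTS

theorem a_IWX : IWX :=
  t_IWX t_CJ (t_IWA a_ZI a_IW1 t_CJ) (t_BADP t_LAYK t_CJ) KT.a_LATD KT.a_DETQ t_DET1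
    (t_EUL (t_BR a_IW1 t_RTS) t_EXT t_CJ) (t_LBK (t_DSC t_CJ))

theorem a_LO3 : LO3 := t_LO3 KT.t_LCY t_LO1 (t_LGD KT.t_LQ2 t_LK) t_LYY

theorem a_LCH : LCH := t_LCH KT.t_LQ2

theorem a_LD2 : LD2 := t_LD2 KT.t_LQ2 t_LO1

theorem a_LCN : LCN := t_LCN a_LCH t_LSI

theorem a_CASX : CASX :=
  t_CASX KT.t_LABS KT.t_LCY (t_LN t_LTU)
    (t_L35 KT.t_LCY t_LTU (t_LTZ KT.t_LPR t_LTU) (t_LS35 t_F2X)) (t_LK35 t_LTU (t_LS35 t_F2X))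
    t_LO2 a_LO3 t_LD1 a_LD2 a_LCN (t_LKE t_LO1)

theorem a_SHAX : SHAX := t_SHAX (t_LKE t_LO1) (t_LSM t_F2X KT.t_DEC KT.t_LAP t_LAL) t_LSF

theorem a_TRX : TRX :=
  t_TRX t_LAB2 t_LOB t_LOH t_LO1 t_LO2 a_LO3 t_LD1 a_LD2 a_LCN (t_TRA t_LO2) t_TRH
    (t_TRB KT.t_LQ2 t_LRE) (t_TRK a_LCH t_LSI t_RTS)

theorem main_of_ESX (h : ESX) : MAIN :=
  t_MAIN t_BAS h a_UBX a_IWX a_TRX a_CASX a_SHAX (t_ANA t_AF t_AN1 (t_AN2 t_AF)) t_TOPX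
    (t_ALV t_APR) (t_ATM t_AT2) t_ATO

end Pool.Agent.P.MP_9c97e9_nt.K2
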