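import Pool.Agent.P.MP_9c97e9_nt.K2.IfEC
import Pool.Agent.P.MP_9c97e9_nt.KT.TCORE

/-! Proof of CORB. -/

namespace Pool.Agent.P.MP_9c97e9_nt.K2

open scoped NNReal
open MP_8b7eba_nt.R2 KT
open Finset
open KT.TCORE (ec_nat ec_congr trq_rat fin)

namespace TCORB

theorem trq_c (hTQX : TQX) {S S' : Subgroup GQ} (hS' : w2.Loc S') (h : S ≤ S') (r : ℚ) :
    trq S' (r / S.relIndex w2.D : ℚ) = r / S.relIndex S' := by
  rw [← Subgroup.relIndex_mul_relIndex _ _ _ h hS'.le, Nat.cast_mul, ← div_div, trq_rat hTQX hS',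
    Rat.cast_div, Rat.cast_natCast]

theorem coeff0 (q M : ℕ) (i : IT) : PowerSeries.coeff 0 (EPr q M i) = JPr q M i := by
  have h : ∀ N a B, PowerSeries.constantCoeff (eis N a B) = 0 := fun N a B => by
    rw [← PowerSeries.coeff_zero_eq_constantCoeff_apply, eis, PowerSeries.coeff_mk]
    simp
  simp [EPr, JPr, EE, uX, vX, s4, h]

theorem odd_div {d : ℕ} (h : Odd d) {x : ℚ_[2]} (hx : ‖x‖ ≤ 1) : ‖x / d‖ ≤ 1 := by
  rwa [norm_div, Padic.norm_natCast_eq_one_iff.2 (Nat.coprime_two_left.2 h), div_one]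

end TCORB

open TCORB in
theorem t_CORB (hTQX : TQX) (hORBS : ORBS) (hFAMT : FAMT) (hZMX : ZMX) (hCORY : CORY) : CORB := by
  classical
  intro q H k K n M κ T U hC T0 T1 hT hU
  refine (forall_and (p := fun _ => (CO H k M).Inv (EU q M U))).1 (fun X₀ => ?_) |>.imp
    (fun h => h 0) id
  suffices h : ∀ η : ℝ, 0 < η → (CO H k M).Inv (EU q M U) ∧ _ from
    ⟨(h 1 one_pos).1, fun η hη => (h η hη).2⟩
  intro η hη
  have M0 := hC.ne
  have hd2 := hC.dvd
  have hH := hC.lh.1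
  have cM : ∀ g ∈ H, cy M g = 1 := fun g hg =>
    (((hZMX.1 M M0).2.2.2.2.1 (15 * q) g (mul_ne_zero (by norm_num) hC.aq.ne)).1 (by
      rw [show M * (15 * q) = 15 * M * q by ring]; exact hC.cy g hg)).1
  have hk : LH H k := ⟨hH, fun g hg => ((hZMX.2.2.1 k).2 g).1 (by
    obtain ⟨m, e⟩ := hd2
    exact (((hZMX.1 (2 ^ k) (by positivity)).2.2.2.2.1 m g (fun e0 => M0 (by rw [e, e0, mul_zero]))).1
      (e ▸ cM g hg)).1)⟩
  obtain ⟨X, t, S, Sf, a, hX, ft, nt, dt, hS, hSH, hA, hf, eu, ev, eI, hd, hL, hi⟩ :=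
    hCORY q H k K n M κ T U hC T0 T1 hT hU X₀ η hη
  obtain ⟨hl, ⟨R, hR⟩, ho⟩ := hORBS H hH _ a _ hA
  have key := fun c r : ℚ => hFAMT H k M hk M0 hd2 cM (Ix q M) a _ (fun i => uX U i)
    (fun i => vX U i) (fun i => c * Iv X (EPr q M i) t - (JPr q M i * r / S.relIndex w2.D : ℚ))
    (fun i => dI M i) (fun _ => 1) hA eu ev (fun g hg i => by
      have := eI g hg i
      simp only [map_sub, map_mul, map_ratCast, (hd g hg i).2] at this ⊢
      rw [this]) (fun g hg i => ⟨(hd g hg i).1, rfl⟩) fun i => ⟨(hi i).1, (hi i).2.1⟩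
  rw [sum_coe_sort (Ix q M) fun i => Finsupp.single (uX U i, vX U i, dI M i) (1 : ℤ)] at key
  refine ⟨(key 0 0).1, X, t, LNm S t / S.relIndex H, hX, ft, nt, dt, fun δ => ?_⟩
  set c : ℚ := 225 * q ^ 2 * κ * (δ : ZMod M).val / 2 ^ (K + k) with hc
  obtain ⟨r, hr⟩ := Padic.rat_dense 2 (c * LNm S t : ℚ_[2]) one_pos
  have fI := (ho R hR _ eI).1
  have s1 : ∀ {A : Type} [AddCommMonoid A] (f : IT → A),
      ∑ j ∈ univ.filter fun j : Ix q M => dI M j.1 = δ, f j.1 =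
      ∑ j ∈ Ix q M with dI M j = δ, f j := fun f => by
    rw [sum_filter, sum_filter, sum_coe_sort (Ix q M) fun j => if dI M j = δ then f j else 0]
  have g1 : gd q M δ = ∑ j ∈ Ix q M with dI M j = δ, EPr q M j := by
    unfold gd
    congr
  have s2 : ∑ j ∈ univ.filter fun j : Ix q M => dI M j.1 = δ, Iv X (EPr q M j.1) t =
      Iv X (gd q M δ) t := by
    rw [s1 fun j => Iv X (EPr q M j) t, g1]
    simp only [Iv, map_sum, sum_mul, sum_div]
    exact sum_comm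
  obtain ⟨J, hJ⟩ : ∃ J : ℤ, ∑ j ∈ univ.filter fun j : Ix q M => dI M j.1 = δ, JPr q M j.1 = J :=
    ⟨_, rfl⟩
  have s3 : ∑ j ∈ univ.filter fun j : Ix q M => dI M j.1 = δ, (JPr q M j.1 : Om) = J := by
    rw [← hJ, Int.cast_sum]
  have o1 := ho R hR (fun j => if dI M j.1 = δ then Iv X (EPr q M j.1) t else 0) fun g hg i => by
    simp only [(hd g hg i).1]
    split_ifs
    exacts [eI g hg i, (map_zero _).symm]
  rw [← sum_filter, s2] at o1
  have y1 : ‖trq H (Iv X (gd q M δ) t)‖ ≤ (2 ^ K)⁻¹ := by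
    rw [o1.2.2.2.2.1]
    refine IsUltrametricDist.norm_sum_le_of_forall_le_of_nonneg (by positivity) fun i _ => ?_
    split_ifs
    exacts [(hi i).2.2.1, by simp [(hTQX.2.2.2.2 _ (hl i).1).1]]
  have y2 : ‖(J / S.relIndex H : ℚ_[2])‖ ≤ 1 := by
    have o2 := (ho R hR (fun j => if dI M j.1 = δ then
      ((JPr q M j.1 / S.relIndex w2.D : ℚ) : Om) else 0) fun g hg i => by
        simp only [(hd g hg i).1, (hd g hg i).2]
        split_ifs
        exacts [(map_ratCast _ _).symm, (map_zero _).symm]).2.2.2.2.1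
    rw [← sum_filter, ← Rat.cast_sum, ← sum_div, ← Int.cast_sum, hJ, trq_c hTQX hH hSH,
      Rat.cast_intCast] at o2
    rw [o2]
    refine IsUltrametricDist.norm_sum_le_of_forall_le_of_nonneg zero_le_one fun i _ => ?_
    split_ifs
    · rw [trq_c hTQX (hl i).1 (hf i).1, Rat.cast_intCast]
      exact odd_div (hf i).2 (Padic.norm_int_le_one _)
    · simp [(hTQX.2.2.2.2 _ (hl i).1).1]
  refine ⟨o1.2.1, J, ?_, ((key c r).2 δ fun i e => ?_).trans ?_⟩
  · rw [g1, map_sum, ← s3, s1 fun j => (JPr q M j : Om)]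
    simp only [coeff0]
  · rw [(hi i).2.2.2, e, (((hTQX.2.2.2.2 _ (hl i).1).2 _ ((fix_rat c).mul (fI i))).2.2.1 _
      (fix_rat _)).2, ((hTQX.2.2.2.2 _ (hl i).1).2 _ (fI i)).2.2.2.2.1,
      trq_c hTQX (hl i).1 (hf i).1]
    refine ec_congr ?_
    rw [show ∀ x y : ℚ_[2], x - y = -(y - x) from fun x y => (neg_sub _ _).symm, norm_neg]
    refine le_of_eq_of_le ?_ (odd_div (hf i).2
      (x := JPr q M i * (c * LNm S t - r)) (by
        rw [norm_mul]
        exact mul_le_one₀ (Padic.norm_int_le_one (p := 2) (JPr q M i)) (norm_nonneg _) hr.le))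
    rw [hc]
    congr 1
    push_cast
    ring
  have y3 : ‖(((red (2 ^ k) δ⁻¹).val * (δ : ZMod M).val - 1 : ℤ) : ℚ_[2])‖ ≤ (2 ^ k)⁻¹ := by
    have h1 := TGEN.red_mul hd2 M0 δ⁻¹ δ
    rw [inv_mul_cancel, TGEN.red_one hd2 M0] at h1
    have := (Padic.norm_int_le_pow_iff_dvd (p := 2) ((red (2 ^ k) δ⁻¹).val * (δ : ZMod M).val - 1)
      k).2 (by
        rw [← Nat.cast_pow, ← ZMod.intCast_zmod_eq_zero_iff_dvd]
        push_cast
        rw [ZMod.natCast_zmod_val, h1, red.eq_1 _ δ, sub_self])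
    simpa using this
  have y4 : ‖trq H (Iv X (gd q M δ) t) - J / S.relIndex H * LNm S t‖ ≤ (2 ^ K)⁻¹ := by
    rw [sub_eq_add_neg]
    refine (IsUltrametricDist.norm_add_le_max _ _).trans (max_le y1 ?_)
    rw [norm_neg, norm_mul]
    exact (mul_le_of_le_one_left (norm_nonneg _) y2).trans hL
  have y5 := fin (a := 225 * q ^ 2 * κ) (s := 0) y3 y4 (by rw [norm_zero]; positivity)
  have y6 : ‖((red (2 ^ k) δ⁻¹).val : ℚ_[2]) * (J / S.relIndex H * (c * LNm S t - r))‖ ≤ 1 := by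
    rw [norm_mul, norm_mul]
    exact mul_le_one₀ (IsUltrametricDist.norm_natCast_le_one _ _) (by positivity)
      (mul_le_one₀ y2 (norm_nonneg _) hr.le)
  simp only [Int.cast_one, one_mul, sum_sub_distrib, ← mul_sum, s2, ← Rat.cast_sum, ← sum_div,
    ← sum_mul, ← Int.cast_sum, hJ]
  rw [(((hTQX.2.2.2.2 H hH).2 _ ((fix_rat c).mul o1.2.1)).2.2.1 _ (fix_rat _)).2,
    ((hTQX.2.2.2.2 H hH).2 _ o1.2.1).2.2.2.2.1, trq_c hTQX hH hSH, ← ec_nat]
  refine ec_congr (le_of_eq_of_le ?_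
    ((IsUltrametricDist.norm_add_le_max _ _).trans (max_le y5 y6)))
  rw [hc]
  congr 1
  push_cast
  ring

end Pool.Agent.P.MP_9c97e9_nt.K2
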