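import Pool.Agent.P.MP_9c97e9_nt.K2.IfEB
import Pool.Agent.P.MP_9c97e9_nt.KT.TCORE

/-! Proof of CORE. -/

namespace Pool.Agent.P.MP_9c97e9_nt.K2

open scoped NNReal
open MP_8b7eba_nt.R2 KT
open MP_8b7eba_nt.Mod (an)
open Finset

namespace TCORE

theorem Iv_sub (hCX : CX) {q M : ℕ} (hq : Aq q) (h1 : M ≠ 0) (h2 : M.Coprime q)
    {δ δ' : (ZMod M)ˣ} (hr : Rl δ δ') (X : ℕ) (t : Om) :
    Iv X (gd q M δ) t - Iv X (gd q M δ') t = (60 : ℚ) * ((SSd q M δ - SSd q M δ') *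
      ∑ m ∈ Icc 1 (X / (15 * M * q)), (an m : Om) * (t ^ (15 * M * q)) ^ m / m) := by
  have hq0 := hq.ne
  have h0 : 0 < 15 * M * q := by positivity
  have e1 : Iv X (gd q M δ) t - Iv X (gd q M δ') t = Iv X (gd q M δ - gd q M δ') t := by
    simp only [Iv, map_sub, sub_mul, sub_div, sum_sub_distrib]
  have e2 : (15 * M * q : Om) = ((15 * M * q : ℕ) : Om) := by push_cast; rfl
  rw [e1]
  simp only [Iv, hCX q M δ δ' _ hq h1 h2 hr, ite_mul, zero_mul, ite_div, zero_div, mul_sum,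
    ← sum_filter, e2]
  generalize 15 * M * q = W at h0
  have : (W : Om) ≠ 0 := Nat.cast_ne_zero.2 h0.ne'
  refine (sum_bij (fun m _ => W * m) (fun m hm => ?_) (fun m _ m' _ e => ?_) (fun m hm => ?_)
    fun m hm => ?_).symm
  · rw [mem_Icc, Nat.le_div_iff_mul_le h0] at hm
    exact mem_filter.2 ⟨mem_Icc.2 ⟨Nat.mul_pos h0 hm.1, mul_comm m W ▸ hm.2⟩, dvd_mul_right _ _⟩
  · exact Nat.eq_of_mul_eq_mul_left h0 e
  · obtain ⟨h3, c, rfl⟩ := mem_filter.1 hm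
    rw [mem_Icc] at h3
    exact ⟨c, mem_Icc.2 ⟨Nat.pos_of_mul_pos_left h3.1, (Nat.le_div_iff_mul_le h0).2
      (mul_comm W c ▸ h3.2)⟩, rfl⟩
  · rw [Nat.mul_div_cancel_left _ h0, pow_mul, Nat.cast_mul, Rat.cast_ofNat]
    field_simp

theorem fin1 {m : ℕ} {a : ℤ} {s : ℚ_[2]} (hs : ‖s‖ ≤ (2 ^ m)⁻¹) : ‖a * s / 2 ^ m‖ ≤ 1 := by
  have h2 : ‖(2 : ℚ_[2]) ^ m‖ = (2 ^ m)⁻¹ := by
    rw [norm_pow, ← inv_pow]
    congr 1
    simpa using Padic.norm_p (p := 2)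
  rw [norm_div, h2, div_le_one (by positivity), norm_mul]
  exact (mul_le_of_le_one_left (norm_nonneg _) (Padic.norm_int_le_one a)).trans hs

end TCORE

open TCORE in
theorem t_CORE (hTQX : TQX) (hTCX : TCX) (hSSX : SSX) (hLAMF : LAMF) (hZMX : ZMX) (hCORB : CORB)
    (hCX : CX) : CORE := by
  classical
  intro q H k K n M κ T U hC T0 T1 hT hU
  obtain ⟨hI, hB⟩ := hCORB q H k K n M κ T U hC T0 T1 hT hU
  refine ⟨hI, fun δ δ' hr => ?_⟩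
  have M0 := hC.ne
  have q0 := hC.aq.ne
  have W0 : 15 * M * q ≠ 0 := by positivity
  have hH := hC.lh.1
  obtain ⟨Y₀, η, hη, hY⟩ := hLAMF.2.1 ‖T‖ (2 ^ (K + k))⁻¹ T1 (by positivity)
  obtain ⟨X, t, c, hX, ft, nt, dt, hd⟩ := hB (Y₀ * (15 * M * q)) η hη
  obtain ⟨f1, J, j1, r1⟩ := hd δ
  obtain ⟨f2, J', j2, r2⟩ := hd δ'
  have eJ : J = J' := by
    have := hCX q M δ δ' 0 hC.aq M0 hC.cop hr
    rw [map_sub, j1, j2] at this
    have h3 : (J : Om) = J' := by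
      simpa [MP_8b7eba_nt.Mod.an_zero, sub_eq_zero] using this
    exact_mod_cast h3
  have cyM : ∀ g ∈ H, cy M g = 1 := fun g hg =>
    (((hZMX.1 15 (by norm_num)).2.2.2.2.1 M g M0).1
      (((hZMX.1 (15 * M) (by positivity)).2.2.2.2.1 q g q0).1 (hC.cy g hg)).1).2
  have fS : ∀ d, Fix H (SSd q M d) := fun d g hg => (hSSX q M d M0).2 g (cyM g hg)
  have fD : Fix H (SSd q M δ - SSd q M δ') := fun g hg => by
    rw [map_sub, fS δ g hg, fS δ' g hg]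
  have fL : Fix H ((SSd q M δ - SSd q M δ') * ∑ m ∈ Icc 1 (X / (15 * M * q)),
      (an m : Om) * (t ^ (15 * M * q)) ^ m / m) :=
    fD.mul (Fix.sum fun m _ => ((fix_int _).mul (ft.pow m)).div (fix_nat m))
  have p1 : ‖T ^ (15 * M * q)‖ ≤ ‖T‖ := by
    rw [norm_pow]
    exact pow_le_of_le_one (norm_nonneg _) T1.le W0
  obtain ⟨-, c1, -, c2, -⟩ := hTCX H hH
  have hl := hLAMF.1 H hH _ hT (p1.trans_lt T1)
  have nS : ∀ d, ‖i2 (SSd q M d)‖ ≤ 1 := fun d => by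
    rw [← KT.t_BAS.2.2.1]
    exact_mod_cast (hSSX q M d M0).1
  have m1 : ∀ d, i2 (SSd q M d) * lamf (T ^ (15 * M * q)) ∈ ClF H := fun d =>
    ((c2 _ (c1 _ (fS d)).1).2.2.1 _ hl).2.2.1
  have y2 : ‖trq H ((SSd q M δ - SSd q M δ') * ∑ m ∈ Icc 1 (X / (15 * M * q)),
      (an m : Om) * (t ^ (15 * M * q)) ^ m / m) -
      (trc H (i2 (SSd q M δ) * lamf (T ^ (15 * M * q))) -
        trc H (i2 (SSd q M δ') * lamf (T ^ (15 * M * q))))‖ ≤ (2 ^ (K + k))⁻¹ := by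
    rw [← ((c2 _ (m1 δ)).2.2.1 _ (m1 δ')).2.2.2.2]
    refine ((c2 _ ((c2 _ (m1 δ)).2.2.1 _ (m1 δ')).2.1).1 _ fL).trans ?_
    rw [map_mul, map_sub, ← sub_mul, ← mul_sub, norm_mul]
    refine (mul_le_of_le_one_left (norm_nonneg _) ?_).trans (hY _
      ((Nat.le_div_iff_mul_le (Nat.pos_of_ne_zero W0)).2 hX) _ _ p1 ?_ ?_)
    · rw [sub_eq_add_neg]
      exact (IsUltrametricDist.norm_add_le_max _ _).trans
        (max_le (nS δ) (by rw [norm_neg]; exact nS δ'))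
    · rwa [map_pow, norm_pow, nt, ← norm_pow]
    · rw [map_pow]
      exact (KT.TCORE.pow_sub (nt ▸ T1.le) T1.le _).trans dt
  have y3 := (((hTQX.2.2.2.2 H hH).2 _ f1).2.2.1 _ f2).2
  rw [Iv_sub hCX hC.aq M0 hC.cop hr, ((hTQX.2.2.2.2 H hH).2 _ fL).2.2.2.2.1, Rat.cast_ofNat] at y3
  rw [r1, r2, ← a_EC.1.add, eJ]
  refine KT.TCORE.ec_congr ?_
  convert fin1 (a := 13500 * q ^ 2 * κ) y2 using 2
  push_cast
  linear_combination (-(225 * q ^ 2 * κ / 2 ^ (K + k) : ℚ_[2])) * y3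

end Pool.Agent.P.MP_9c97e9_nt.K2
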