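import Pool.Agent.P.MP_9c97e9_nt.K2.TEINVA

/-! Invariance of the sums of symbols. -/

namespace Pool.Agent.P.MP_9c97e9_nt.K2

open MP_8b7eba_nt.R2 KT
open MP_8b7eba_nt.R1 (IntR IntM)
open KT.TEINV (un_mul ul_ne cop_iff)

namespace TEINV

/-- the index type -/
abbrev JX (q M : ℕ) : Type := VZ q × VZ (15 * M) × VZ (15 * M)

/-- the symbol of an index -/
noncomputable def sy (q M : ℕ) (x : JX q M) : LL × LL × (ZMod M)ˣ :=
  (Uz q (15 * M) x.1 (5 • x.2.1), Uz q (15 * M) x.1 (3 • x.2.2), un (dv M x.2.1 x.2.2))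

/-- the admissible indices -/
def Ad {q M : ℕ} (x : JX q M) : Prop := Ge 3 x.2.1 ∧ Ge 5 x.2.2 ∧ IsUnit (dv M x.2.1 x.2.2)

open Classical in
theorem es_eq (q M : ℕ) [NeZero q] [NeZero M] : (ES0 q M M fun _ _ => True) =
    ∑ x ∈ Finset.univ.filter fun x : JX q M => Ad x, Finsupp.single (sy q M x) 1 := by
  simp only [ES0, Finset.sum_filter, Fintype.sum_prod_type, and_true, sy, Ad]

theorem e0_eq (hUT : UT) (q M : ℕ) [NeZero q] [NeZero M] :
    E0 q M = ES0 q M M fun _ _ => True := by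
  have hd : M ∣ 15 * M := Nat.dvd_mul_left M 15
  rw [es_eq, E0]
  symm
  refine Finset.sum_nbij (fun x => ((x.1.1.val, x.1.2.val), (x.2.1.1.val, x.2.1.2.val),
    x.2.2.1.val, x.2.2.2.val)) ?_ ?_ ?_ ?_
  · intro x hx
    simp only [Finset.mem_filter, Finset.mem_univ, true_and, Ad, Ge_iff, dv_val hd] at hx
    simp only [mem_Ix, ZMod.val_lt, true_and, cop_iff]
    exact ⟨hx.1, hx.2.1, by push_cast; exact hx.2.2⟩
  · rintro ⟨⟨b1, b2⟩, ⟨v1, v2⟩, w1, w2⟩ - ⟨⟨b1', b2'⟩, ⟨v1', v2'⟩, w1', w2'⟩ - h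
    simp only [Prod.mk.injEq, (ZMod.val_injective _).eq_iff] at h ⊢
    exact h
  · rintro ⟨⟨b1, b2⟩, ⟨v1, v2⟩, w1, w2⟩ hi
    obtain ⟨⟨⟨h0, h1⟩, ⟨h2, h3⟩, h4, h5⟩, h6, h7, h8⟩ := mem_Ix.1 hi
    simp only [cop_iff] at h0 h1 h2 h3 h4 h5 h6 h7 h8
    refine ⟨((b1, b2), (v1, v2), w1, w2), ?_, ?_⟩
    · simp only [Finset.coe_filter, Finset.mem_univ, true_and, Set.mem_ofPred_eq, Ad, Ge_iff,
        dv_val hd, ZMod.val_natCast, Nat.mod_eq_of_lt, h2, h3, h4, h5]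
      exact ⟨h6, h7, by push_cast at h8; exact h8⟩
    · simp only [ZMod.val_natCast, Nat.mod_eq_of_lt, h0, h1, h2, h3, h4, h5]
  · intro x _
    simp only [sy, Uz_smul hUT, dv_val hd, uX, vX, dI, Nat.cast_ofNat]

theorem inv0 (hUNITS : UNITS) (hUT : UT) (hEXA : EXA) {q k M : ℕ} (h : Lv0 q k M) :
    InvU k M (E0 q M) := by
  classical
  obtain ⟨hq, hM, -, hc⟩ := h
  have : NeZero M := ⟨hM⟩
  have : NeZero q := ⟨hq.ne⟩
  have hN : 15 * M ≠ 0 := NeZero.ne _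
  obtain ⟨h1, h2⟩ := hEXA q (15 * M) hq.ne hN (hq.c15 hc)
  have g3 : ∀ x : JX q M, Ad x → Gv (5 • x.2.1) := fun x hx => Ge.gv (e := 3) rfl hx.1
  have g5 : ∀ x : JX q M, Ad x → Gv (3 • x.2.2) := fun x hx => Ge.gv (e := 5) rfl hx.2.1
  have hs : ∀ i, E0 q M i ≠ 0 → i.1 ∈ UL ∧ i.2.1 ∈ UL := by
    intro i hi
    rw [e0_eq hUT, es_eq, Finsupp.finsetSum_apply] at hi
    obtain ⟨x, hx', hx⟩ := Finset.exists_ne_zero_of_sum_ne_zero hi
    obtain rfl : i = sy q M x := (Finsupp.single_apply_ne_zero.1 hx).1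
    have ha := (Finset.mem_filter.1 hx').2
    exact ⟨(h1 _ _ (g3 x ha)).2, (h1 _ _ (g5 x ha)).2⟩
  refine ⟨⟨fun g hg i => ?_, fun i hi => ?_⟩, hs⟩
  · obtain ⟨a, b, c, d, -, hd, hg⟩ := h2 g hg
    let π : JX q M → JX q M := fun x => (ac4 a b c d x.1, ac4 a b c d x.2.1, ac4 a b c d x.2.2)
    have i1 := ac4_inj (det_unit (Nat.dvd_mul_left q (15 * M)) hd)
    have i2 := ac4_inj (det_unit (Nat.dvd_mul_right (15 * M) q) hd)
    have hπ : Function.Injective π := by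
      intro x y e
      simp only [π, Prod.mk.injEq, i1.eq_iff, i2.eq_iff] at e
      exact Prod.ext e.1 (Prod.ext e.2.1 e.2.2)
    have hdv : ∀ x, dv M (π x).2.1 (π x).2.2 = dv M x.2.1 x.2.2 * cy M (cg g) := by
      intro x
      rw [← det_cy ((Nat.dvd_mul_left M 15).mul_right q) (mul_ne_zero hN hq.ne) hd]
      exact dv_ac4 (Nat.dvd_mul_left M 15) a b c d _ _
    have d3 : 3 ∣ 15 * M := Dvd.dvd.mul_right (by norm_num) M
    have d5 : 5 ∣ 15 * M := Dvd.dvd.mul_right (by norm_num) M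
    have hAd : ∀ x, Ad (π x) ↔ Ad x := by
      intro x
      rw [Ad, Ad, hdv, Units.isUnit_mul_units]
      exact and_congr (Ge_ac4 (by norm_num) d3 (det_unit (d3.mul_right q) hd) _)
        (and_congr_left' (Ge_ac4 (by norm_num) d5 (det_unit (d5.mul_right q) hd) _))
    let A : LL × LL × (ZMod M)ˣ → LL × LL × (ZMod M)ˣ := fun i =>
      (g i.1, g i.2.1, i.2.2 * cy M (cg g))
    have hA : Function.Injective A := by
      intro x y e
      simp only [A, Prod.mk.injEq, mul_left_inj, g.injective.eq_iff] at e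
      exact Prod.ext e.1 (Prod.ext e.2.1 e.2.2)
    have hE : (E0 q M).mapDomain A = E0 q M := by
      rw [e0_eq hUT, es_eq, Finsupp.mapDomain_finsetSum]
      refine Finset.sum_equiv (Equiv.ofBijective π (Finite.injective_iff_bijective.1 hπ))
        (fun x => ?_) fun x hx => ?_
      · simp [hAd]
      · simp only [Finset.mem_filter, Finset.mem_univ, true_and] at hx
        rw [Finsupp.mapDomain_single, Equiv.ofBijective_apply]
        congr 1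
        refine Prod.ext ((hg _ _ (g3 x hx)).trans ?_) (Prod.ext ((hg _ _ (g5 x hx)).trans ?_) ?_)
        · simp only [sy, π, ac4_smul]
        · simp only [sy, π, ac4_smul]
        · simp only [sy, A, hdv, un_mul hx.2.2]
    have := Finsupp.mapDomain_apply hA (E0 q M) i
    rwa [hE] at this
  · obtain ⟨u1, u2⟩ := hs i hi
    have hN : 2 ^ k ≠ 0 := by positivity
    obtain ⟨r, -, hr⟩ := hUNITS.2.1 _ u1 _ hN
    obtain ⟨r', -, hr'⟩ := hUNITS.2.1 _ u2 _ hN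
    exact ⟨⟨ul_ne u1, r, hr⟩, ul_ne u2, r', hr'⟩

end TEINV

theorem t_EINV (hUNITS : UNITS) (hLING : LING) (hTRF : TRF) (hCOK : COK) (hUT : UT)
    (hEXA : EXA) : EINV := by
  classical
  refine ⟨fun q M _ _ => TEINV.e0_eq hUT q M, fun q k M h => ⟨TEINV.inv0 hUNITS hUT hEXA h, ?_⟩⟩
  intro l hl hl'
  obtain ⟨h1, h2⟩ := TEINV.inv0 hUNITS hUT hEXA h
  obtain ⟨ok, nm, -, hc⟩ := hCOK.2.2.1 k M h.2.1 h.2.2.1
  have h3 := (hTRF _ _ _ _ _ _ ok nm (hc l hl hl') _ h1).1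
  rw [hCOK.2.2.2.1] at h3
  have L := (hLING _ _ _ ok).1
  have e : Ep q l M = Cor l (E0 q M) + (-(l + 1) : ℤ) • E0 q M := by
    rw [Ep, neg_smul, ← sub_eq_add_neg]
    norm_cast
  refine ⟨e ▸ ((L _ _ 0).2.2 h3).2 ((L _ 0 _).2.2 h1).1, fun i hi => ?_⟩
  by_cases h0 : E0 q M i = 0
  · rw [e, Finsupp.add_apply, Finsupp.smul_apply, h0, smul_zero, add_zero, Cor,
      Finsupp.finsetSum_apply] at hi
    obtain ⟨t, ht, hx⟩ := Finset.exists_ne_zero_of_sum_ne_zero hi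
    obtain ⟨j, hj, rfl⟩ := Finset.mem_image.1
      (Finsupp.mapDomain_support (Finsupp.mem_support_iff.2 hx))
    obtain ⟨u1, u2⟩ := h2 j (Finsupp.mem_support_iff.1 hj)
    have p := (hCOK.2.2.2.2.1 l hl hl').1 t ht
    exact ⟨p _ u1, p _ u2⟩
  · exact h2 i h0

end Pool.Agent.P.MP_9c97e9_nt.K2
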