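import Pool.Agent.P.MP_9c97e9_nt.K2.IfX

/-! The steps of the explicit reciprocity law. -/

namespace Pool.Agent.P.MP_9c97e9_nt.K2

open scoped NNReal Matrix
open MP_8b7eba_nt.R2 KT
open MP_8b7eba_nt.Mod (xx yy an)
open Finset

noncomputable section

/-- the partial products of the units -/
def piO (q N : ℕ) (b₁ b₂ i₁ i₂ e : ℤ) (L : ℕ) (t : Om) : Om :=
  (-1) ^ (JJ q N b₁ i₁).natAbs * zM (N * q) (AA q N b₁ b₂ i₁ i₂) * t ^ e *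
    p4 fun n => pO (N * q) (aB q N b₂ i₂ n) (15 * aB q N b₁ i₁ n) L t

/-- `U` lists the values of the units at the parameter `T` -/
def UV (q N : ℕ) (T : ℂ_[2]) (U : ℤ → ℤ → ℤ → ℤ → Om) : Prop :=
  ∀ b₁ b₂ i₁ i₂ : ℤ, Gz N i₁ i₂ → V2a (N * q) (ui q N b₁ b₂ i₁ i₂) T (i2 (U b₁ b₂ i₁ i₂))

/-- the sum of the symbols of the values -/
def EU (q M : ℕ) (U : ℤ → ℤ → ℤ → ℤ → Om) : Sy Om M :=
  ∑ i ∈ Ix q M, Finsupp.single (uX U i, vX U i, dI M i) 1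

/-- the context for the evaluation of the symbols -/
structure Cv (q : ℕ) (H : Subgroup GQ) (k K n M : ℕ) (κ : ℤ) : Prop where
  aq : Aq q
  lh : LH H K
  pos : 0 < k
  le : k + 2 ≤ K
  odd : Odd n
  cop : M.Coprime q
  eq : M = 2 ^ K * n
  cy : ∀ g ∈ H, cy (15 * M * q) g = 1
  ok : Odd κ
  ze : zM (15 * M * q) 1 ^ (15 * n * q) = ec (κ / 2 ^ K) ^ (15 * n * q)

/-- the cocycle of the cuspidal symbols at a point -/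
def fv (q : ℕ) (τ : ℂ) (H : Subgroup GQ) (k l M : ℕ) (δ : (ZMod M)ˣ) (g h : GQ) : ZMod (2 ^ k) :=
  ((CO H k M).can (evE τ (Ep q l M))).f g h δ

/-- approximate cocycles on the decomposition group -/
structure Dat.ZC (D : Dat) (k : ℕ) (x : GQ → (ZMod (2 ^ (k + 2)))ˣ → V2) : Prop where
  int : ∀ g η, ‖x g η‖ ≤ 1
  sm : ∃ N, ON N ∧ ∀ g ∈ w2.D, ∀ n ∈ w2.D, n ∈ N → ∀ η, ‖x (g * n) η - x g η‖ ≤ (2 ^ k)⁻¹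
  co : ∀ g ∈ w2.D, ∀ h ∈ w2.D, ∀ η,
    ‖x (g * h) η - x g η - D.rd g *ᵥ x h (η * (cy _ g)⁻¹)‖ ≤ (2 ^ k)⁻¹

/-- the two local points, as coordinates -/
structure Dat.Pts (D : Dat) (k : ℕ) (H : Subgroup GQ) (x y : ℤ → Om) : Prop where
  loc : w2.Loc H
  le : H ≤ HC2 k
  dl : Fix H D.dl
  dl0 : Fix H D.dl0
  eqv : ∀ σ ∈ HC2 k, ∀ s, σ (x s) = x (sd D.dl σ * s) ∧ σ (y s) = y (sd D.dl σ * s)
  big : ∀ s, s = 1 ∨ s = -1 → 1 < w2.v (x s)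

/-- the invariants at related labels -/
def RR (q : ℕ) (τ : ℂ) (H : Subgroup GQ) (k l M : ℕ) (r : (ZMod M)ˣ → ℚ_[2]) : Prop :=
  (∀ δ, Co0 H (fv q τ H k l M δ)) ∧ ∀ δ δ', Rl δ δ' →
    rv H k (fv q τ H k l M δ) = rv H k (fv q τ H k l M δ') * ec (r δ - r δ')

end

/-- the additive twists are integral and rational over the cyclotomic field -/
def SSX : Prop :=
  ∀ (q M : ℕ) (δ : (ZMod M)ˣ), M ≠ 0 →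
    w2.v (SSd q M δ) ≤ 1 ∧ ∀ g : GQ, cy M g = 1 → g (SSd q M δ) = SSd q M δ

/-- the values of the units are limits of finite products -/
def PRD : Prop :=
  ∀ (q N : ℕ) (b₁ b₂ i₁ i₂ : ℤ), q ≠ 0 → N ≠ 0 → N.Coprime q → ¬ (N : ℤ) ∣ i₁ → ∃ e : ℤ,
    (N : ℤ) ∣ e - 15 * q * i₁ * JJ q N b₁ i₁ ∧ ∀ (T : ℂ_[2]) (u : Om), T ≠ 0 → ‖T‖ < 1 →
      V2a (N * q) (ui q N b₁ b₂ i₁ i₂) T (i2 u) → ∀ η : ℝ≥0, 0 < η → η < 1 → ∃ L₀, ∀ L, L₀ ≤ L →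
        ∀ t : Om, ‖i2 t - T‖ ≤ η * ‖T‖ → w2.v (u / piO q N b₁ b₂ i₁ i₂ e L t - 1) ≤ η

/-- translation -/
def TRL : Prop :=
  ∀ (q N : ℕ) (b₁ b₂ b₂' i₁ i₂ i₂' j : ℤ) (T v : ℂ_[2]), q ≠ 0 → N ≠ 0 → N.Coprime q →
    ¬ (N : ℤ) ∣ i₁ → ‖T‖ < 1 → (q : ℤ) ∣ b₂' - (b₂ + 15 * b₁ * j) →
    (N : ℤ) ∣ i₂' - (i₂ + 15 * i₁ * j) → V2a (N * q) (ui q N b₁ b₂' i₁ i₂') T v →
    V2a (N * q) (ui q N b₁ b₂ i₁ i₂) (i2 (zM (N * q) j) * T) v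

/-- the finite products in the form of the symbol formula -/
def PFX : Prop :=
  ∀ (q N k X L : ℕ) (b₁ b₂ i₁ i₂ e : ℤ) (t u : Om), q ≠ 0 → N ≠ 0 → N.Coprime q → ¬ (N : ℤ) ∣ i₁ →
    2 ^ k ∣ N → (N : ℤ) ∣ e - 15 * q * i₁ * JJ q N b₁ i₁ → X < L →
    w2.v (u / piO q N b₁ b₂ i₁ i₂ e L t - 1) ≤ (2 ^ (k + 2))⁻¹ →
    PF k X (zM (N * q) 1) t u (q * i₂) (15 * q * i₁) (JJ q N b₁ i₁) (EE q N b₁ b₂ i₁ i₂)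

/-- conjugates of the truncated integrals -/
def EEX : Prop :=
  ∀ (q N X : ℕ) (b₁ b₂ b₂' i₁ i₂ i₂' j₁ j₂ j₂' j : ℤ) (σ : GQ) (t : Om), q ≠ 0 → N ≠ 0 →
    cy (N * q) σ = 1 → σ t = zM (N * q) j * t → (q : ℤ) ∣ b₂' - (b₂ + 15 * b₁ * j) →
    (N : ℤ) ∣ i₂' - (i₂ + 15 * i₁ * j) → (N : ℤ) ∣ j₂' - (j₂ + 15 * j₁ * j) →
    σ (Iv X (EE q N b₁ b₂ i₁ i₂ * EE q N b₁ b₂ j₁ j₂) t) =
      Iv X (EE q N b₁ b₂' i₁ i₂' * EE q N b₁ b₂' j₁ j₂') t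

/-- conjugates of the values -/
def EQV : Prop :=
  ∀ (H : Subgroup GQ) (q N : ℕ) (T : ℂ_[2]) (U : ℤ → ℤ → ℤ → ℤ → Om) (t : Om), H ≤ w2.D → q ≠ 0 →
    N ≠ 0 → N.Coprime q → (∀ g ∈ H, cy (N * q) g = 1) → T ≠ 0 → ‖T‖ < 1 → T ^ (N * q) ∈ ClF H →
    UV q N T U → Fix H (t ^ (N * q)) → ‖i2 t - T‖ ≤ 4⁻¹ * ‖T‖ → ∀ σ ∈ H, ∀ j : ℤ,
    σ t = zM (N * q) j * t → ∀ b₁ b₂ b₂' i₁ i₂ i₂' : ℤ, Gz N i₁ i₂ →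
      (q : ℤ) ∣ b₂' - (b₂ + 15 * b₁ * j) → (N : ℤ) ∣ i₂' - (i₂ + 15 * i₁ * j) →
      σ (U b₁ b₂ i₁ i₂) = U b₁ b₂' i₁ i₂'

/-- the action on the indices -/
def SHX : Prop :=
  ∀ q M : ℕ, q ≠ 0 → M ≠ 0 →
    (∀ i ∈ Ix q M, (M : ℤ) ∣ (dI M i : ZMod M).val - ((i.2.1.1 : ℤ) * i.2.2.2 - i.2.1.2 * i.2.2.1)) ∧
    ∀ (H : Subgroup GQ) (t : Om), (∀ g ∈ H, cy (15 * M * q) g = 1) → t ≠ 0 →
      Fix H (t ^ (15 * M * q)) → ∃ (j : GQ → ℤ) (a : GQ → Ix q M → Ix q M),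
        (Act H a fun _ => H ⊓ MulAction.stabilizer GQ t) ∧
        ∀ σ ∈ H, σ t = zM (15 * M * q) (j σ) * t ∧ ∀ i, (a σ i).1.1.1 = i.1.1.1 ∧
          (a σ i).1.2.1.1 = i.1.2.1.1 ∧ (a σ i).1.2.2.1 = i.1.2.2.1 ∧
          (q : ℤ) ∣ (a σ i).1.1.2 - (i.1.1.2 + 15 * i.1.1.1 * j σ) ∧
          ((15 * M : ℕ) : ℤ) ∣ (a σ i).1.2.1.2 - (i.1.2.1.2 + 15 * i.1.2.1.1 * j σ) ∧
          ((15 * M : ℕ) : ℤ) ∣ (a σ i).1.2.2.2 - (i.1.2.2.2 + 15 * i.1.2.2.1 * j σ) ∧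
          dI M (a σ i) = dI M i

/-- the symbols of the values -/
def CORA : Prop :=
  ∀ q H k K n M κ (T : ℂ_[2]) U, Cv q H k K n M κ → T ≠ 0 → ‖T‖ < 1 → T ^ (15 * M * q) ∈ ClF H →
    UV q (15 * M) T U → ∀ (X₀ : ℕ) (η : ℝ), 0 < η →
    ∃ (X : ℕ) (t : Om) (S : Subgroup GQ) (a : GQ → Ix q M → Ix q M),
      X₀ ≤ X ∧ Fix H (t ^ (15 * M * q)) ∧ ‖i2 t‖ = ‖T‖ ∧ ‖i2 t - T‖ ≤ η ∧ w2.Loc S ∧ S ≤ H ∧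
      (Act H a fun _ => S) ∧
      (Eqi H a fun i => uX U i) ∧ (Eqi H a fun i => vX U i) ∧
      (Eqi H a fun i => Iv X (EPr q M i) t) ∧
      (∀ g ∈ H, ∀ i, dI M (a g i) = dI M i ∧ JPr q M (a g i) = JPr q M i) ∧
      ‖LNm S t‖ ≤ (2 ^ K)⁻¹ ∧ ∀ i ∈ Ix q M, uX U i ≠ 0 ∧ vX U i ≠ 0 ∧
        ‖trq S (Iv X (EPr q M i) t)‖ ≤ (2 ^ K)⁻¹ ∧ sy S k (uX U i) (vX U i) =
          ec (225 * q ^ 2 * κ * (dI M i : ZMod M).val *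
            (trq S (Iv X (EPr q M i) t) - JPr q M i * LNm S t) / 2 ^ (K + k))

/-- the invariant of the sum of the symbols, before the passage to the cusp form -/
def CORB : Prop :=
  ∀ q H k K n M κ (T : ℂ_[2]) U, Cv q H k K n M κ → T ≠ 0 → ‖T‖ < 1 → T ^ (15 * M * q) ∈ ClF H →
    UV q (15 * M) T U → (CO H k M).Inv (EU q M U) ∧ ∀ (X₀ : ℕ) (η : ℝ), 0 < η →
    ∃ (X : ℕ) (t : Om) (c : ℚ_[2]), X₀ ≤ X ∧ Fix H (t ^ (15 * M * q)) ∧ ‖i2 t‖ = ‖T‖ ∧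
      ‖i2 t - T‖ ≤ η ∧ ∀ δ, Fix H (Iv X (gd q M δ) t) ∧ ∃ J : ℤ,
        PowerSeries.coeff 0 (gd q M δ) = J ∧
        (rv H k fun g h => ((CO H k M).can (EU q M U)).f g h δ) =
          ec (225 * q ^ 2 * κ * (trq H (Iv X (gd q M δ) t) - J * c) / 2 ^ (K + k))

/-- the invariant of the sum of the symbols -/
def CORE : Prop :=
  ∀ q H k K n M κ (T : ℂ_[2]) U, Cv q H k K n M κ → T ≠ 0 → ‖T‖ < 1 → T ^ (15 * M * q) ∈ ClF H →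
    UV q (15 * M) T U → (CO H k M).Inv (EU q M U) ∧ ∀ δ δ', Rl δ δ' →
      (rv H k fun g h => ((CO H k M).can (EU q M U)).f g h δ) =
        (rv H k fun g h => ((CO H k M).can (EU q M U)).f g h δ') *
        ec (13500 * q ^ 2 * κ * (trc H (i2 (SSd q M δ) * lamf (T ^ (15 * M * q))) -
          trc H (i2 (SSd q M δ') * lamf (T ^ (15 * M * q)))) / 2 ^ (K + k))

/-- the invariant of the cuspidal symbols -/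
def EPV : Prop :=
  ∀ q H k K n M κ (l : ℕ) (t : ℂ_[2]) (x y : Om), Cv q H k K n M κ → l.Prime → ¬ l ∣ 15 →
    (∀ g ∈ H, cy l g = 1) → t ≠ 0 → ‖t‖ < 1 → t ^ (15 * M * q) ∈ ClF H →
    V2a (15 * M * q * l) xx t (i2 x) → V2a (15 * M * q * l) yy t (i2 y) → ∃ τ, Alg τ x y ∧
      RR q τ H k l M fun δ => 13500 * q ^ 2 * κ * (an l - l - 1) *
        trc H (i2 (SSd q M δ) * lamf (t ^ (15 * M * q * l))) / 2 ^ (K + k)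

/-- the twisted zeta cocycle -/
def TWE : Prop :=
  ∀ (D : Dat) (l k : ℕ) zt m, 1 ≤ k → ZT D.q l k _ zt → (∀ ε, ‖m ε‖ ≤ 1) → D.ZC k (D.xG k zt m) ∧
    ∀ W : (ZMod (2 ^ (k + 2)))ˣ → ℤ, ∀ g ∈ HC2 k, ∑ ε, (W ε : ℚ_[2]) • D.xG k zt m g ε =
      (∑ᶠ δ, ((2 * D.cW k W δ : ℤ) : ℚ_[2]) • zt g δ) +
        T2.bd D.dl (∑ ε, (W ε : ℚ_[2]) • m ε) g

/-- a unit which changes the sign of the weights -/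
def UZX : Prop :=
  ∀ (D : Dat) (k : ℕ), 1 ≤ k → ∃ u : (ZMod (2 ^ (k + 2) * D.n))ˣ, ∀ δ, Rl δ (δ * u) ∧
    ∀ W, D.cW k W (δ * u) = -D.cW k W δ

/-- the weighted cup product is induced -/
def WCP : Prop :=
  ∀ (D : Dat) (k : ℕ) (x y z : GQ → (ZMod (2 ^ (k + 2)))ˣ → V2) (W : (ZMod (2 ^ (k + 2)))ˣ → ℤ),
    D.ZC k x → D.ZC k y → (∀ g ε, ‖z g ε - x g ε‖ ≤ (2 ^ k)⁻¹) →
    (T2.Zc D.dl (HC2 k) k fun g => ∑ ε, (W ε : ℚ_[2]) • x g ε) ∧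
    (T2.Zc D.dl (HC2 k) k fun g => y g 1) ∧ nv w2 w2.D (D.wcup k z y W) =
      rv (HC2 k) k (cpr D.dl k (fun g => ∑ ε, (W ε : ℚ_[2]) • x g ε) fun g => y g 1)

/-- the zeta cocycle compares two points -/
def ZTW : Prop :=
  ∀ (q l k M : ℕ) zt H τ τ' s s' (β : Om) δ, ZT q l k M zt → LH H k → M ≠ 0 → 2 ^ k ∣ M →
    (∀ g ∈ H, cy M g = 1) → Fix H β → Sec τ H s → Sec τ' H s' → Co0 H (fv q τ H k l M δ) →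
    Co0 H (fv q τ' H k l M δ) → (T2.Zc β H k fun g => zt g δ) ∧
      rv H k (cpr β k (fun g => zt g δ) fun h => uN k (s' h) - uN k (s h)) =
        rv H k (fv q τ' H k l M δ) / rv H k (fv q τ H k l M δ)

/-- the parameters of the local points -/
def PNA : Prop :=
  ∀ (D : Dat) (l k : ℕ) (ε : ℝ), l.Prime → l ≠ 2 → 1 ≤ k → 0 < ε →
    ∃ (H : Subgroup GQ) (x y : ℤ → Om) (t : ℤ → ℂ_[2]), D.Pts k H x y ∧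
      H.relIndex (HC2 k) ≤ 15 * D.n * D.q * l * l * l ∧
      (∀ g ∈ H, cy (15 * (2 ^ (k + 2) * D.n) * D.q) g = 1 ∧ cy (2 ^ (k + 2) * D.n) g = 1 ∧
        cy l g = 1) ∧
      ∀ s : ℤ, s = 1 ∨ s = -1 → t s ≠ 0 ∧ ‖t s‖ < 1 ∧
        t s ^ (15 * (2 ^ (k + 2) * D.n) * D.q) ∈ ClF H ∧
        V2a (15 * (2 ^ (k + 2) * D.n) * D.q * l) xx (t s) (i2 (x s)) ∧
        V2a (15 * (2 ^ (k + 2) * D.n) * D.q * l) yy (t s) (i2 (y s)) ∧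
        ‖lamf (t s ^ (15 * (2 ^ (k + 2) * D.n) * D.q * l)) -
          s * i2 D.dl0 * muP D.al (k + 2) (i2 (ec (2 ^ (k + 2))⁻¹))‖ ≤ ε

/-- the Kummer cocycle of the local points -/
def PNB : Prop :=
  ∀ (D : Dat) (k : ℕ) H x y τ τ' s s', D.Pts k H x y → Alg τ (x (-1)) (y (-1)) →
    Alg τ' (x 1) (y 1) → Sec τ H s → Sec τ' H s' → ∃ Y v, D.LY k Y ∧ ‖v‖ ≤ 1 ∧ ∀ h ∈ H,
      ‖uN k (s' h) - uN k (s h) - Y h 1 - T2.bd D.dl v h‖ ≤ (2 ^ k)⁻¹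

/-- the sum of the traces -/
def FINX : Prop :=
  ∀ (D : Dat) (k : ℕ) (W : (ZMod (2 ^ (k + 2)))ˣ → ℤ) H (ζ : Om) (a b : ℂ_[2]) (ε : ℝ), w2.Loc H →
    (∀ g ∈ H, cy (2 ^ (k + 2) * D.n) g = 1) → Fix H D.dl0 → Fix H ζ → a ∈ ClF H → b ∈ ClF H →
    ‖a - i2 D.dl0 * muP D.al (k + 2) (i2 ζ)‖ ≤ ε → ‖b + i2 D.dl0 * muP D.al (k + 2) (i2 ζ)‖ ≤ ε →
    ‖algebraMap ℚ_[2] ℂ_[2] (∑ᶠ δ, (D.cW k W δ : ℚ_[2]) *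
        (trc H (i2 (SSd D.q _ δ) * a) - trc H (i2 (SSd D.q _ δ) * b))) -
      2 * csum w2.D H fun g => i2 (g (D.XW k W * D.dl0)) * muP D.al (k + 2) (i2 (g ζ))‖ ≤ ε

/-- the invariant on the small group -/
def RVH : Prop :=
  ∀ (D : Dat) (l k : ℕ) zt m H τ τ' s s' (z Y : GQ → (ZMod (2 ^ (k + 2)))ˣ → V2) (v : V2)
    (W : (ZMod (2 ^ (k + 2)))ˣ → ℤ) (r r' : (ZMod (2 ^ (k + 2) * D.n))ˣ → ℚ_[2]), 1 ≤ k →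
    ZT D.q l k _ zt → (∀ ε, ‖m ε‖ ≤ 1) → (∀ g ε, ‖z g ε - D.xG k zt m g ε‖ ≤ (2 ^ k)⁻¹) →
    D.LY k Y → w2.Loc H → H ≤ HC2 k → Fix H D.dl → (∀ g ∈ H, cy (2 ^ (k + 2) * D.n) g = 1) →
    Sec τ H s → Sec τ' H s' → ‖v‖ ≤ 1 →
    (∀ h ∈ H, ‖uN k (s' h) - uN k (s h) - Y h 1 - T2.bd D.dl v h‖ ≤ (2 ^ k)⁻¹) →
    RR D.q τ H k l _ r → RR D.q τ' H k l _ r' →
    nv w2 w2.D (D.wcup k z Y W) ^ H.relIndex (HC2 k) =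
      ec (∑ᶠ δ, 2 * (D.cW k W δ : ℚ_[2]) * (r' δ - r δ))

theorem Cv.ne {q k K n M : ℕ} {H : Subgroup GQ} {κ : ℤ} (h : Cv q H k K n M κ) : M ≠ 0 :=
  h.eq ▸ mul_ne_zero (by positivity) h.odd.pos.ne'

theorem Cv.dvd {q k K n M : ℕ} {H : Subgroup GQ} {κ : ℤ} (h : Cv q H k K n M κ) : 2 ^ k ∣ M :=
  h.eq ▸ (pow_dvd_pow 2 (by have := h.le; omega)).mul_right n

theorem Gz.shift {N : ℕ} {i₁ i₂ i₂' j : ℤ} (h : Gz N i₁ i₂)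
    (e : (N : ℤ) ∣ i₂' - (i₂ + 15 * i₁ * j)) : Gz N i₁ i₂' := by
  obtain ⟨u, h1, h2, h3⟩ := h
  have e' := (ZMod.intCast_zmod_eq_zero_iff_dvd _ N).2 e
  push_cast at e'
  refine ⟨u, h1, h2, ?_⟩
  simp only at h2 h3 ⊢
  linear_combination u * e' + h3 + j * h2

end Pool.Agent.P.MP_9c97e9_nt.K2
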