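import Pool.Agent.P.MP_9c97e9_nt.KT.TEPV
import Pool.Agent.P.MP_9c97e9_nt.K2.IfEB

/-! The invariant of the cuspidal symbols. -/

namespace Pool.Agent.P.MP_9c97e9_nt.K2

open scoped NNReal Matrix
open MP_8b7eba_nt.R2 KT
open MP_8b7eba_nt.R1 (IntR IntM Int_mem)
open MP_8b7eba_nt.Mod (xx yy an)
open Finset

namespace TEPV

theorem evE_Ep (τ : ℂ) (q l M : ℕ) : evE τ (Ep q l M) =
    ∑ s ∈ IntR l, EU q M
        (fun b₁ b₂ i₁ i₂ => ev τ (pb (IntM s) (lf (ui q (15 * M) b₁ b₂ i₁ i₂)))) +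
      (-(l + 1) : ℤ) • EU q M fun b₁ b₂ i₁ i₂ => ev τ (lf (ui q (15 * M) b₁ b₂ i₁ i₂)) := by
  have h : ∀ E : Sy LL M, evE τ E = Finsupp.mapDomain.addMonoidHom
      (fun i : LL × LL × (ZMod M)ˣ => (ev τ i.1, ev τ i.2.1, i.2.2)) E := fun _ => rfl
  rw [h, Ep, map_sub, map_nsmul, Cor, map_sum, neg_smul, ← sub_eq_add_neg]
  congr 1
  · refine sum_congr rfl fun s _ => ?_
    rw [E0, Finsupp.mapDomain_finsetSum, map_sum]
    refine sum_congr rfl fun i _ => ?_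
    simp [uX, vX]
  · rw [← natCast_zsmul, E0, map_sum]
    congr 1
    refine sum_congr rfl fun i _ => ?_
    simp [uX, vX]

end TEPV

open K2.TEPV in
open KT.TEPV (Phi sum_IntR) in
open KT.TRVH (ec_sum ec_int) in
theorem t_EPV (hRVX : RVX) (hTCX : TCX) (hZMX : ZMX) (hSSX : SSX) (hLAMF : LAMF) (hCORE : CORE)
    (hVALX : VALX) : EPV := by
  intro q H k K n M κ l t x y hC hl h15 hcl t0 t1 hcl' hx hy
  have hM : M ≠ 0 := hC.ne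
  have hq : q ≠ 0 := hC.aq.ne
  have hN : 15 * M ≠ 0 := by omega
  have hW : 15 * M * q ≠ 0 := mul_ne_zero hN hq
  have hd : 2 ^ k ∣ M := hC.dvd
  have hL : LH H k := (hRVX _ _ hC.lh).1 k (by have := hC.le; omega)
  obtain ⟨-, -, r3, r4, r5⟩ := hRVX H k hL
  obtain ⟨c0, c1, c2, c3, c4⟩ := hTCX H hL.1
  obtain ⟨τ, hτ, hV⟩ := hVALX q (15 * M) l t x y hq hN (hC.aq.c15 hC.cop) hl h15 t0 t1 hx hy
  have hcy : ∀ g ∈ H, cy M g = 1 := fun g hg =>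
    (((hZMX.1 M hM).2.2.2.2.1 (15 * q) g (by omega)).1
      (by rw [show M * (15 * q) = 15 * M * q by ring]; exact hC.cy g hg)).1
  obtain ⟨W, hWe⟩ : ∃ W, W = 15 * M * q := ⟨_, rfl⟩
  have hU : ∀ T U, (∀ b₁ b₂ i₁ i₂ : ℤ, Gz (15 * M) i₁ i₂ →
      V2a W (ui q (15 * M) b₁ b₂ i₁ i₂) T (i2 (U b₁ b₂ i₁ i₂))) → UV q (15 * M) T U :=
    fun T U h => by rw [hWe] at h; exact h
  have hCO := fun T U => hCORE q H k K n M κ T U hC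
  rw [← hWe] at hW hV hcl' hCO ⊢
  have hz : ∀ N : ℕ, N ≠ 0 → ∀ a, ‖i2 (zM N a)‖ = 1 := fun N h a => by
    rw [← KT.t_BAS.2.2.1, ((hZMX.1 N h).2.1 a).2, NNReal.coe_one]
  have hS : ∀ δ, i2 (SSd q M δ) ∈ ClF H := fun δ =>
    (c1 _ fun g hg => (hSSX q M δ hM).2 g (hcy g hg)).1
  have key : ∀ T U, T ≠ 0 → ‖T‖ < 1 → T ^ W ∈ ClF H → UV q (15 * M) T U →
      (∀ δ, Co0 H (Phi H k M δ (EU q M U)) ∧ i2 (SSd q M δ) * lamf (T ^ W) ∈ ClF H) ∧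
      ∀ δ δ', Rl δ δ' → rv H k (Phi H k M δ (EU q M U)) = rv H k (Phi H k M δ' (EU q M U)) *
        ec (13500 * q ^ 2 * κ * (trc H (i2 (SSd q M δ) * lamf (T ^ W)) -
          trc H (i2 (SSd q M δ') * lamf (T ^ W))) / 2 ^ (K + k)) := fun T U h0 h1 h2 h3 => by
    obtain ⟨a1, a2⟩ := hCO T U h0 h1 h2 h3
    have ok := (r5 M hM hd).1
    exact ⟨fun δ => ⟨((r5 M hM hd).2 hcy _ (TGEN.co ok (TGEN.can_ok ok _ a1).1)).1 δ,
      ((c3 _ (hS δ)).2.2.1 _ (hLAMF.1 H hL.1 _ h2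
        (by rw [norm_pow]; exact pow_lt_one₀ (norm_nonneg _) h1 hW))).2.2.1⟩, a2⟩
  have hp : ∀ m : ℕ, m ≠ 0 → ‖t ^ m‖ < 1 := fun m h => by
    rw [norm_pow]; exact pow_lt_one₀ (norm_nonneg _) t1 h
  have hMl := mul_ne_zero hW hl.ne_zero
  have e0 : (t ^ l) ^ W = t ^ (W * l) := by rw [← pow_mul, mul_comm]
  have e1 : ∀ s : ℕ × ℕ × ℕ, (i2 (zM (W * l) s.2.1) * t ^ s.1 ^ 2) ^ W =
      i2 (zM l s.2.1) * (t ^ W) ^ s.1 ^ 2 := fun s => by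
    rw [mul_pow, ← map_pow, (hZMX.1 W hW).2.2.1 l hl.ne_zero, ← pow_mul, ← pow_mul, mul_comm W]
  obtain ⟨k1, k2⟩ := key (t ^ l) _ (pow_ne_zero _ t0) (hp l hl.ne_zero)
    (by rw [e0, pow_mul]; exact (c3 _ hcl').2.2.2.2.1 l)
    (hU _ _ fun b₁ b₂ i₁ i₂ hb => (hV b₁ b₂ i₁ i₂ hb).1)
  have k4 := fun s (hs : s ∈ IntR l) => key (i2 (zM (W * l) s.2.1) * t ^ s.1 ^ 2) _
    (mul_ne_zero (norm_ne_zero_iff.1 (by rw [hz _ hMl]; exact one_ne_zero)) (pow_ne_zero _ t0))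
    (by
      rw [norm_mul, hz _ hMl, one_mul]
      exact hp _ (pow_ne_zero _ (left_ne_zero_of_mul (((Int_mem hl.pos).1 hs).1 ▸ hl.ne_zero))))
    (by
      rw [e1]
      refine ((c3 _ (c1 _ fun g hg => ?_).1).2.2.1 _ ((c3 _ hcl').2.2.2.2.1 _)).2.2.1
      rw [((hZMX.1 l hl.ne_zero).2.1 _).1, map_zpow₀,
        ((hZMX.1 l hl.ne_zero).2.2.2.1 g).1 (hcl g hg)])
    (hU _ _ fun b₁ b₂ i₁ i₂ hb => (hV b₁ b₂ i₁ i₂ hb).2 s hs)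
  have e2 : ∀ δ, fv q τ H k l M δ = Phi H k M δ (evE τ (Ep q l M)) := fun _ => rfl
  have s12 := fun δ => r4 _ (IntR l) _ fun s hs => ((k4 s hs).1 δ).1
  have s34 := fun δ => (r3 _ (k1 δ).1).2.2.2.1 (-(l + 1))
  have s5 := fun δ => (r3 _ (s12 δ).1).2.2.1 _ (s34 δ).1
  have e3 := hLAMF.2.2 l (t ^ W) hl h15 (hp W hW)
  have e4 : zM l 0 = 1 := by rw [((hZMX.1 l hl.ne_zero).2.1 _).1, zpow_zero]
  have e5 : ∀ δ, ∑ s ∈ IntR l, trc H (i2 (SSd q M δ) *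
      lamf ((i2 (zM (W * l) s.2.1) * t ^ s.1 ^ 2) ^ W)) =
        an l * trc H (i2 (SSd q M δ) * lamf (t ^ (W * l))) := fun δ => by
    rw [← (c4 _ _ _ fun s hs => ((k4 s hs).1 δ).2).2, ← mul_sum,
      sum_congr rfl fun s _ => congrArg lamf (e1 s), sum_IntR hl]
    simp only [Nat.cast_zero, e4, map_one, one_mul, one_pow, pow_one, sq l, pow_mul]
    rw [e3, mul_left_comm, ← map_intCast (algebraMap ℚ_[2] ℂ_[2]),
      (c3 _ (by rw [← pow_mul, ← e0]; exact (k1 δ).2)).2.2.2.1]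
  refine ⟨τ, hτ, fun δ => ?_, fun δ δ' hδ => ?_⟩
  · rw [e2, evE_Ep, map_add, map_sum, map_zsmul]
    exact (s5 δ).1
  · rw [e2, e2, evE_Ep, map_add, map_sum, map_zsmul, map_add, map_sum, map_zsmul, (s5 δ).2,
      (s5 δ').2, (s12 δ).2, (s12 δ').2, (s34 δ).2, (s34 δ').2, k2 δ δ' hδ,
      prod_congr rfl fun s hs => (k4 s hs).2 δ δ' hδ, prod_mul_distrib, mul_zpow,
      mul_mul_mul_comm, ← ec_sum, ← ec_int, ← a_EC.1.add, ← sum_div, ← mul_sum, sum_sub_distrib,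
      e5, e5, e0]
    congr 2
    push_cast
    ring

end Pool.Agent.P.MP_9c97e9_nt.K2
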