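import Pool.Agent.P.MP_9c97e9_nt.K2.IfEB
import Pool.Agent.P.MP_9c97e9_nt.KT.TEQV

/-! Conjugates of the values. -/

namespace Pool.Agent.P.MP_9c97e9_nt.K2

open scoped NNReal
open MP_8b7eba_nt.R2 KT Filter Topology
open KT.TEQV (map_pO close eq_of)

theorem TEQV.map_piO (σ : GQ) {q N : ℕ} (h : ∀ a, σ (zM (N * q) a) = zM (N * q) a)
    (b₁ b₂ i₁ i₂ e : ℤ) (L : ℕ) (t : Om) :
    σ (piO q N b₁ b₂ i₁ i₂ e L t) = piO q N b₁ b₂ i₁ i₂ e L (σ t) := by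
  simp only [piO, p4, map_div₀, map_mul, map_pO σ h, map_pow, map_neg, map_one, map_zpow₀, h]

theorem t_EQV (hZMX : ZMX) (hAPX : APX) (hPRD : PRD) (hTRL : TRL) : EQV := by
  intro H q N T U t hH hq hN hNq hcy T0 T1 hT hU ht htT σ hσ j hj b₁ b₂ b₂' i₁ i₂ i₂' hg hb hi
  have hM : N * q ≠ 0 := mul_ne_zero hN hq
  obtain ⟨e, -, he⟩ := hPRD q N b₁ b₂ i₁ i₂ hq hN hNq hg.not_dvd
  have hu := hU b₁ b₂ i₁ i₂ hg
  have hu' := hTRL q N b₁ b₂ b₂' i₁ i₂ i₂' j T _ hq hN hNq hg.not_dvd T1 hb hi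
    (hU b₁ b₂' i₁ i₂' (hg.shift hi))
  have hpi := fun h => TEQV.map_piO σ (q := q) (N := N) h b₁ b₂ i₁ i₂ e
  generalize N * q = M at *
  obtain ⟨hp, hz, -, hc, -, -, hr⟩ := hZMX.1 M hM
  have hv := KT.t_BAS.2.2.1
  have hσv := Pl.mem_D.1 (hH hσ)
  have hfix : ∀ a, σ (zM M a) = zM M a := fun a => by
    rw [(hz a).1, map_zpow₀, (hc σ).1 (hcy σ hσ)]
  have n1 : ‖i2 (zM M j)‖ = 1 := by rw [← hv, (hz j).2, NNReal.coe_one]
  have n2 : ‖i2 (zM M j) * T‖ = ‖T‖ := by rw [norm_mul, n1, one_mul]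
  have T2 : 0 < ‖T‖ := norm_pos_iff.2 T0
  refine eq_of fun η h0 h1 => ?_
  have h1' : η < 1 := h1.trans (by norm_num)
  have h1r : (η : ℝ) < 4⁻¹ := by exact_mod_cast h1
  obtain ⟨L₁, hL₁⟩ := he T _ T0 T1 hu η h0 h1'
  obtain ⟨L₂, hL₂⟩ := he _ _ (norm_pos_iff.1 (n2 ▸ T2)) (n2 ▸ T1) hu' η h0 h1'
  obtain ⟨t', ht', ht'T⟩ := hAPX.1 H M T η hM T0 h0 hT
  have n3 : ‖i2 t' - T‖ ≤ 4⁻¹ * ‖T‖ := ht'T.trans (by gcongr)
  have n4 : ‖i2 t'‖ = ‖T‖ := by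
    have := IsUltrametricDist.norm_add_eq_max_of_norm_ne_norm (x := i2 t' - T) (y := T)
      (ne_of_lt (by linarith))
    rwa [sub_add_cancel, max_eq_right (by linarith)] at this
  have n5 : (w2.v (t' - t) : ℝ) ≤ 4⁻¹ * ‖T‖ := by
    rw [hv, map_sub, ← sub_add_sub_cancel _ T]
    exact (IsUltrametricDist.norm_add_le_max _ _).trans (max_le n3 (norm_sub_rev T _ ▸ htT))
  have t0 : t' ≠ 0 := by
    rintro rfl
    rw [map_zero, norm_zero] at n4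
    exact T2.ne n4
  have z0 : zM M j ≠ 0 := fun h => by simpa [h] using (hz j).2
  have k1 : σ t' = zM M j * t' := by
    refine (div_eq_one_iff_eq (mul_ne_zero z0 t0)).1 (hr _ ?_ ?_)
    · rw [div_pow, ← map_pow, ht' σ hσ, mul_pow, (hz j).1, ← zpow_natCast (_ ^ j), ← zpow_mul,
        mul_comm j, zpow_mul, zpow_natCast, hp.pow_eq_one, one_zpow, one_mul,
        div_self (pow_ne_zero _ t0)]
    · have e1 : σ t' / (zM M j * t') - 1 = (σ (t' - t) - zM M j * (t' - t)) / (zM M j * t') := by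
        rw [map_sub, hj]
        field_simp
        ring
      have e2 : w2.v (σ (t' - t) - zM M j * (t' - t)) ≤ w2.v (t' - t) :=
        w2.v.map_sub_le (hσv _).le (by rw [map_mul, (hz j).2, one_mul])
      have e3 : (w2.v (σ (t' - t) - zM M j * (t' - t)) : ℝ) ≤ 4⁻¹ * ‖T‖ :=
        (NNReal.coe_le_coe.2 e2).trans n5
      rw [e1, map_div₀, map_mul, (hz j).2, one_mul, ← NNReal.coe_lt_coe, NNReal.coe_div, hv t', n4,
        div_lt_iff₀ T2]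
      push_cast
      linarith
  have a1 := hL₁ _ (le_max_left L₁ L₂) t' ht'T
  have a2 := hL₂ _ (le_max_right L₁ L₂) (σ t') (by
    rw [k1, map_mul, ← mul_sub, norm_mul, n1, one_mul, n2]
    exact ht'T)
  rw [← hσv, map_sub, map_div₀, map_one, hpi hfix] at a1
  exact close h1' a1 a2

end Pool.Agent.P.MP_9c97e9_nt.K2
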