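import Pool.Agent.P.MP_9c97e9_nt.K2.IfEB
import Pool.Agent.P.MP_9c97e9_nt.KT.TERX

/-! The explicit reciprocity law. -/

namespace Pool.Agent.P.MP_9c97e9_nt.K2

open scoped NNReal Matrix
open MP_8b7eba_nt.R2 KT
open MP_8b7eba_nt.Mod (xx yy an)
open KT.TERX (ec_nat ec_congr norm_int norm_odd an_ne)

theorem t_ERX (hRVX : RVX) (hZMX : ZMX) (hTCX : TCX) (hLAMF : LAMF) (hEPV : EPV) (hPNA : PNA)
    (hPNB : PNB) (hFINX : FINX) (hRVH : RVH) (hSECX : SECX) (hTEL : TEL) : ERX := by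
  intro D l z hl hl30 hG
  obtain ⟨c, B, hc, hT⟩ := hTEL D
  have hl15 : ¬ l ∣ 15 := fun e => hl30 (e.trans ⟨2, by ring⟩)
  have hl2 : l ≠ 2 := fun e => hl30 (e ▸ by norm_num)
  have hodd := D.odd
  have o1 : Odd (15 * D.n * D.q) := ((by decide : Odd 15).mul D.odd).mul D.q_odd
  set E : ℕ := (15 * D.n * D.q * l * l * l).factorial with hE
  set A : ℤ := 54000 * D.q ^ 2 * (an l - l - 1) * E with hA
  have hA0 : (A : ℚ_[2]) ≠ 0 := Int.cast_ne_zero.2 (mul_ne_zero (mul_ne_zero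
    (mul_ne_zero (by norm_num) (pow_ne_zero _ (Int.natCast_ne_zero.2 D.qp.ne_zero)))
    (an_ne (n := 1) hl hl30)) (Int.natCast_ne_zero.2 (Nat.factorial_ne_zero _)))
  refine ⟨A * c, E, B, 1, mul_ne_zero hA0 hc, Nat.factorial_ne_zero _, fun k hk => ?_⟩
  obtain ⟨u, a, b, ha, hb, hW⟩ := hT k _ hk (hZMX.2.2.1 (k + 2)).1
  obtain ⟨zt, m, hzt, hm, hz⟩ := hG k hk
  obtain ⟨κ, hκ, hκ'⟩ := hZMX.2.1 (k + 2) _ (by omega) o1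
  obtain ⟨H, x, y, t, hP, hi, hcy, ht⟩ := hPNA D l k (2 ^ (k + 2 + k))⁻¹ hl hl2 hk (by positivity)
  have hL : LH H (k + 2) := (hRVX _ _ (hZMX.2.2.2 k).1).2.1 H hP.loc hP.le
  have eM : 15 * (2 ^ (k + 2) * D.n) * D.q = 2 ^ (k + 2) * (15 * D.n * D.q) := by ring
  have hCv : Cv D.q H k (k + 2) D.n (2 ^ (k + 2) * D.n) κ :=
    ⟨D.aq, hL, hk, le_rfl, hodd, Nat.Coprime.mul_left
      (Nat.Coprime.pow_left _ (Nat.coprime_two_left.2 D.q_odd))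
      ((Nat.Prime.coprime_iff_not_dvd D.qp).2 D.qn).symm, rfl, fun g hg => (hcy g hg).1, hκ,
      eM ▸ hκ'⟩
  have hfx : ∀ s, Fix H (x s) ∧ Fix H (y s) := fun s => ⟨fun σ hσ => by
    rw [(hP.eqv σ (hP.le hσ) s).1, sd_eq_one.2 (hP.dl σ hσ), one_mul], fun σ hσ => by
    rw [(hP.eqv σ (hP.le hσ) s).2, sd_eq_one.2 (hP.dl σ hσ), one_mul]⟩
  obtain ⟨p1, p2, p3, p4, p5, p6⟩ := ht 1 (.inl rfl)
  obtain ⟨m1, m2, m3, m4, m5, m6⟩ := ht (-1) (.inr rfl)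
  obtain ⟨τ', hτ', hr'⟩ := hEPV _ H k _ _ _ κ l _ _ _ hCv hl hl15 (fun g hg => (hcy g hg).2.2)
    p1 p2 p3 p4 p5
  obtain ⟨τ, hτ, hr⟩ := hEPV _ H k _ _ _ κ l _ _ _ hCv hl hl15 (fun g hg => (hcy g hg).2.2)
    m1 m2 m3 m4 m5
  obtain ⟨s', hs'⟩ := hSECX.1 τ' _ _ H hτ' (hfx 1).1 (hfx 1).2
  obtain ⟨s, hs⟩ := hSECX.1 τ _ _ H hτ (hfx (-1)).1 (hfx (-1)).2
  obtain ⟨Y, v, hY, hv, hYv⟩ := hPNB D k H x y τ τ' s s' hP hτ hτ' hs hs'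
  have hM1 : 2 ^ (k + 2) * D.n ≠ 0 := mul_ne_zero (by positivity) hodd.pos.ne'
  have hM0 : 15 * (2 ^ (k + 2) * D.n) * D.q * l ≠ 0 :=
    mul_ne_zero (mul_ne_zero (mul_ne_zero (by norm_num) hM1) D.qp.ne_zero) hl.ne_zero
  have hcl : ∀ r : ℂ_[2], ‖r‖ < 1 → r ^ (15 * (2 ^ (k + 2) * D.n) * D.q) ∈ ClF H →
      lamf (r ^ (15 * (2 ^ (k + 2) * D.n) * D.q * l)) ∈ ClF H := fun r h1 h2 =>
    hLAMF.1 H hP.loc _ (by rw [pow_mul]; exact ((hTCX H hP.loc).2.2.2.1 _ h2).2.2.2.2.1 l)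
      (by rw [norm_pow]; exact pow_lt_one₀ (norm_nonneg _) h1 hM0)
  refine ⟨Y, u, κ * a, A * κ * b, hY, by rw [norm_mul, norm_odd hκ, ha, one_mul], ?_,
    fun W hev => ?_⟩
  · rw [norm_mul, norm_mul, norm_odd hκ, mul_one]
    exact (mul_le_of_le_one_left (norm_nonneg _) (norm_int A)).trans hb
  have h1 := hRVH D l k zt m H τ τ' s s' (z k _) Y v W _ _ hk hzt hm hz hY hP.loc hP.le hP.dl
    (fun g hg => (hcy g hg).2.1) hs hs' hv hYv hr hr'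
  have h2 := hFINX D k W H _ _ _ _ hP.loc (fun g hg => (hcy g hg).2.1) hP.dl0 hL.2 (hcl _ p2 p3)
    (hcl _ m2 m3) (by simpa using p6) (by simpa using m6)
  rw [hW W H hev hP.loc fun g hg => (hcy g hg).2.1, ← map_ofNat (algebraMap ℚ_[2] ℂ_[2]) 2,
    ← map_mul, ← map_sub, norm_algebraMap'] at h2
  have hi0 : H.relIndex (HC2 k) ≠ 0 := hP.loc.relIndex_ne inf_le_left
  obtain ⟨e, he⟩ : H.relIndex (HC2 k) ∣ E := Nat.dvd_factorial (Nat.pos_of_ne_zero hi0) hi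
  rw [he, pow_mul, h1, ec_nat]
  refine ec_congr ?_
  change ‖_ - 2 * ((H.relIndex (HC2 k) : ℚ_[2]) * _ * _)‖ ≤ _ at h2
  generalize (∑ ν ∈ oddR D.n k, D.msy k ν * W (u * (un (ν : ZMod (2 ^ (k + 2))))⁻¹) :
    ℚ_[2]) = S at h2 ⊢
  generalize ((∑ δ, ce D.e δ * W δ : ℤ) : ℚ_[2]) = S' at h2 ⊢
  have h3 : ∀ f g : (ZMod (2 ^ (k + 2) * D.n))ˣ → ℚ_[2], ∀ r : ℚ_[2],
      ∑ᶠ δ, 2 * (D.cW k W δ : ℚ_[2]) * (r * f δ / 2 ^ (k + 2 + k) - r * g δ / 2 ^ (k + 2 + k)) =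
        2 * r / 2 ^ (k + 2 + k) * ∑ᶠ δ, (D.cW k W δ : ℚ_[2]) * (f δ - g δ) := fun f g r => by
    have : NeZero (2 ^ (k + 2) * D.n) := ⟨hM1⟩
    rw [finsum_eq_sum_of_fintype, finsum_eq_sum_of_fintype, Finset.mul_sum]
    exact Finset.sum_congr rfl fun δ _ => by ring
  rw [h3]
  generalize (∑ᶠ δ, (D.cW k W δ : ℚ_[2]) * _) = Z at h2 ⊢
  have h4 : (A : ℚ_[2]) = 54000 * D.q ^ 2 * (an l - l - 1) * (H.relIndex (HC2 k) * e) := by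
    rw [hA, he]; push_cast; ring
  have h5 : (e : ℚ_[2]) * (2 * (13500 * D.q ^ 2 * κ * (an l - l - 1)) / 2 ^ (k + 2 + k) * Z) -
      (A * c * (κ * a) * S + A * κ * b * S') / 2 ^ k =
      ((e * (27000 * D.q ^ 2 * κ * (an l - l - 1)) : ℤ) : ℚ_[2]) *
        ((Z - 2 * ((H.relIndex (HC2 k) : ℚ_[2]) * 2 ^ (k + 2) * (c * a * S + b * S'))) /
          2 ^ (k + 2 + k)) := by
    rw [h4]; push_cast; field_simp; ring
  rw [h5, norm_mul, norm_div, TTATE.n2]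
  exact mul_le_one₀ (norm_int _) (by positivity) (div_le_one_of_le₀ h2 (by positivity))

end Pool.Agent.P.MP_9c97e9_nt.K2
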