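import Pool.Agent.P.MP_9c97e9_nt.K2.IfU

/-! Proof of EXA: the Galois action on the units. -/

namespace Pool.Agent.P.MP_9c97e9_nt.K2

open MP_8b7eba_nt.R2 KT
open MP_8b7eba_nt.Mod (M2 G0 UH)

namespace TEXA

theorem cop {γ : M2} (hγ : G0 γ) : IsCoprime γ.a 15 := by
  obtain ⟨c, hc⟩ := hγ.2
  have h := hγ.1
  rw [M2.det, hc] at h
  exact ⟨γ.d, -(γ.b * c), by linear_combination h⟩

theorem comp (a b c d s : ℤ) {M : ℕ} (x : VZ M) :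
    ac4 a b c d (ac4 1 0 0 s x) = ac4 a b (s * c) (s * d) x := by
  ext <;> simp [ac4] <;> ring

theorem nd {N : ℕ} [NeZero N] {v : VZ N} (h : Gv v) : ¬ (N : ℤ) ∣ v.1.val := h.gz.not_dvd

end TEXA

open TEXA in
theorem t_EXA (hFB : FB) (hTR : TR) (hDENSE : DENSE) (hGALX : GALX) (hUT : UT) (hUHM : UHM)
    (hUQF : UQF) : EXA := by
  classical
  intro q N hq hN hM
  have : NeZero q := ⟨hq⟩
  have : NeZero N := ⟨hN⟩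
  obtain ⟨L, A, h1⟩ := hUQF q N hq hN hM
  have hm : ∀ (b : VZ q) (v : VZ N), Gv v → Hol (ug q N b v) ∧
      (∀ z : ℂ, 0 < z.im → ug q N b v z ≠ 0) ∧ MG (ug q N b v) := fun b v hv =>
    hUHM q N _ _ _ _ hq hN hM (nd hv)
  have act : ∀ γ, G0 γ → ∀ (b : VZ q) (v : VZ N) (z : ℂ), 0 < z.im → ug q N b v (γ.act z) =
      ug q N (ac4 γ.a γ.b (γ.c / 15) γ.d b) (ac4 γ.a γ.b (γ.c / 15) γ.d v) z :=
    fun γ hγ b v z hz => (hUT.2.2 q N 0 0 0 0 z hq hN hz).2 b v γ hγ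
  obtain ⟨h3, h4⟩ := hGALX (N * q) L (VZ q × {v : VZ N // Gv v}) (fun i => ug q N i.1 i.2)
    (fun i => A i.1 i.2)
    ⟨mul_ne_zero hN hq, inferInstance, fun i => (hm _ _ i.2.2).1, fun i => (hm _ _ i.2.2).2.2,
      fun i => (h1 _ _ i.2.2.ne).1, fun γ hγ i =>
        ⟨(_, ⟨_, i.2.2.ac4 (cop hγ) _ _ _⟩), fun z hz => act γ hγ _ _ z hz⟩,
      fun σ i => ⟨(_, ⟨_, i.2.2.ac4 isCoprime_one_left _ _ _⟩), (h1 _ _ i.2.2.ne).2 σ⟩⟩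
  refine ⟨fun b v hv => ⟨h3 (b, ⟨v, hv⟩), _, h3 (b, ⟨v, hv⟩), (hm _ _ hv).2.1, rfl⟩,
    fun g hg => ?_⟩
  obtain ⟨g0, k1, k2, k3⟩ := h4 (cg g)
  have k4 : g * g0⁻¹ ∈ geo := ⟨GG.mul_mem hg (GG.inv_mem k1), (mem_fixingSubgroup_iff _).2 (by
    rintro _ ⟨a, rfl⟩
    obtain ⟨a, rfl⟩ := (cg g).surjective a
    have e : g0 • cst a = cst (cg g a) := k2 ▸ hFB.2.2.2.2.2.2.1 g0 k1 a
    rw [mul_smul, ← e, inv_smul_smul, e]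
    exact hFB.2.2.2.2.2.2.1 g hg a)⟩
  obtain ⟨γ, k5, k6⟩ := hDENSE _ k4 (Finset.univ.image fun i : VZ q × VZ N => Uz q N i.1 i.2)
  obtain ⟨s, hs⟩ : ∃ s : ℤ, s = (cy (N * q) (cg g) : ZMod (N * q)).val := ⟨_, rfl⟩
  refine ⟨γ.adj.a, γ.adj.b, s * (γ.adj.c / 15), s * γ.adj.d, cop k5.adj, ?_, fun e v hv => ?_⟩
  · have h5 := k5.adj.1
    have h6 := Int.mul_ediv_cancel' k5.adj.2
    rw [M2.det] at h5
    have : NeZero (N * q) := ⟨mul_ne_zero hN hq⟩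
    rw [show γ.adj.a * (s * γ.adj.d) - 15 * γ.adj.b * (s * (γ.adj.c / 15)) = s by
      linear_combination s * h5 - s * γ.adj.b * h6, hs, Int.cast_natCast, ZMod.natCast_zmod_val]
  have hv' : Gv (ac4 1 0 0 s v) := hv.ac4 isCoprime_one_left _ _ _
  have k7 : g0 (Uz q N e v) = Uz q N (ac4 1 0 0 s e) (ac4 1 0 0 s v) :=
    k3 (e, ⟨v, hv⟩) (_, ⟨_, hv'⟩) (hs ▸ (h1 e v hv.ne).2 _)
  have k8 := k6 _ (Finset.mem_image_of_mem _ (Finset.mem_univ (ac4 1 0 0 s e, ac4 1 0 0 s v)))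
  obtain ⟨k9, k10⟩ := (hTR.1 γ.adj ⟨by rw [k5.adj.1]; exact one_pos,
    by rw [k5.adj.1]; exact isCoprime_one_left, k5.adj.2⟩).2.2.2 _ (h3 (ac4 1 0 0 s e, ⟨_, hv'⟩))
  rw [pb, M2.adj_adj] at k10
  rw [← k7] at k8
  refine ((congrArg g (g0.symm_apply_apply _)).symm.trans (k8.trans ?_))
  rw [k7, ← comp, ← comp]
  exact k10.trans ((hFB.2.2.2.2.2.1 _ _ k9 (h3 (_, ⟨_, hv'.ac4 (cop k5.adj) _ _ _⟩))).2.2.2.2.2.2.2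
    fun z hz => act _ k5.adj _ _ z hz)

end Pool.Agent.P.MP_9c97e9_nt.K2
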