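import Pool.Agent.P.MP_9c97e9_nt.K2.IfEB
import Pool.Agent.P.MP_9c97e9_nt.KT.TFINX

/-! The sum of the traces. -/

namespace Pool.Agent.P.MP_9c97e9_nt.K2

open MP_8b7eba_nt.R2 KT
open Finset

open KT.TFINX in
theorem t_FINX (hTQX : TQX) (hTCX : TCX) (hSSX : SSX) : FINX := by
  intro D k W H ζ a b ε hH hcy hdl hζ ha hb h1 h2
  have hM : 2 ^ (k + 2) * D.n ≠ 0 := mul_ne_zero (by positivity) D.n_ne
  have : NeZero (2 ^ (k + 2) * D.n) := ⟨hM⟩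
  have hS := fun δ => hSSX D.q _ δ hM
  have hf : ∀ δ, Fix H (SSd D.q (2 ^ (k + 2) * D.n) δ) := fun δ g hg => (hS δ).2 g (hcy g hg)
  have hX : D.XW k W = ∑ δ, (D.cW k W δ : Om) * SSd D.q _ δ := finsum_eq_sum_of_fintype _
  have hXf : Fix H (D.XW k W) := hX ▸ Fix.sum fun δ _ => (fix_int _).mul (hf δ)
  have hXn : ‖i2 (D.XW k W)‖ ≤ 1 := by
    rw [← KT.t_BAS.2.2.1, hX]
    exact_mod_cast w2.v.map_sum_le fun δ _ => by
      rw [map_mul]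
      exact mul_le_one' (w2.v_int_le _) (hS δ).1
  obtain ⟨k1, k2⟩ := tr_mu hTQX hTCX hH (jacobiSym 2 D.n * al0) (k + 2) (hXf.mul hdl) hζ
  obtain ⟨-, t1, t2, t3, t4⟩ := hTCX H hH
  have m1 := fun δ => ((t3 _ (t1 _ (hf δ)).1).2.2.1 a ha).2.2.1
  have m2 := fun δ => ((t3 _ (t1 _ (hf δ)).1).2.2.1 b hb).2.2.1
  have m3 := fun δ => (t3 _ (m1 δ)).2.2.1 _ (m2 δ)
  obtain ⟨k3, k4⟩ := t4 _ univ (fun δ => algebraMap ℚ_[2] ℂ_[2] (D.cW k W δ) *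
    (i2 (SSd D.q _ δ) * a - i2 (SSd D.q _ δ) * b)) fun δ _ => ((t3 _ (t2 _)).2.2.1 _ (m3 δ).2.1).2.2.1
  have e : ∑ δ, algebraMap ℚ_[2] ℂ_[2] (D.cW k W δ) * (i2 (SSd D.q _ δ) * a - i2 (SSd D.q _ δ) * b) =
      i2 (D.XW k W) * (a - b) := by
    rw [hX, map_sum, sum_mul]
    refine sum_congr rfl fun δ _ => ?_
    rw [map_mul, map_intCast, map_intCast]
    ring
  rw [e] at k3 k4
  have k5 := (t3 _ k1).2.2.1 _ k1
  have k6 := (t3 _ k3).2.2.1 _ k5.1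
  rw [finsum_eq_sum_of_fintype, Dat.al, ← k2, two_mul, ← map_add, ← map_sub, norm_algebraMap',
    ← k5.2.2.2.1, sum_congr rfl fun δ _ => by
      rw [← (m3 δ).2.2.2.2, ← (t3 _ (m3 δ).2.1).2.2.2.1], ← k4, ← k6.2.2.2.2]
  refine (t3 _ k6.2.1).2.1.trans ?_
  rw [← Dat.al, map_mul, show ∀ X d m : ℂ_[2], X * (a - b) - (X * d * m + X * d * m) =
    X * ((a - d * m) + -(b + d * m)) from fun X d m => by ring, norm_mul]
  refine (mul_le_of_le_one_left (norm_nonneg _) hXn).trans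
    ((IsUltrametricDist.norm_add_le_max _ _).trans (max_le h1 ?_))
  rwa [norm_neg]

end Pool.Agent.P.MP_9c97e9_nt.K2
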