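import Pool.Agent.P.MP_9c97e9_nt.K2.IfX
import Pool.Agent.P.MP_9c97e9_nt.KT.TGSX
import Pool.Agent.P.MP_9c97e9_nt.KT.TCYB

/-! Gauss sums. -/

namespace Pool.Agent.P.MP_9c97e9_nt.K2

open MP_8b7eba_nt.R2 KT Finset Complex
open MP_8b7eba_nt.R1 (st)
open KT.TGSX (io_zM io_pow)
open scoped Real

namespace TGSX

theorem gsq {n : ℕ} (h1 : 1 < n) (hodd : Odd n) (hn : Squarefree n) :
    (∑ a ∈ range n, (jacobiSym a n : ℂ) * cexp (2 * π * I * (a / n))) ^ 2 = (st n : ℤ) := by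
  obtain ⟨τ, -, hG⟩ := MP_8b7eba_nt.BSD15.exists_gauss h1 hodd hn
  obtain ⟨ζ, hζ⟩ : ∃ ζ, ζ = cexp (2 * π * I / n) := ⟨_, rfl⟩
  have hprim : IsPrimitiveRoot ζ n := hζ ▸ Complex.isPrimitiveRoot_exp n (by omega)
  have he : ∀ a m : ℕ, cexp (2 * π * I * (a * m / n)) = (ζ ^ a) ^ m := by
    intro a m
    rw [hζ, ← pow_mul, ← Complex.exp_nat_mul]
    congr 1
    push_cast
    ring
  have hτ : ∑ a ∈ range n, (jacobiSym a n : ℂ) * cexp (2 * π * I * (a / n)) = τ := by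
    simpa using hG 1
  rw [hτ]
  simp only [he] at hG
  have h5 : ∑ a ∈ range n, (jacobiSym a n : ℂ) * ζ ^ a = τ := by simpa using hG 1
  have h6 : τ ^ 2 = ∑ b ∈ range n, (jacobiSym b n : ℂ) * ∑ a ∈ range n, (ζ ^ (b + 1)) ^ a := by
    simp only [mul_sum]
    rw [sum_comm, sq]
    nth_rewrite 1 [← h5]
    rw [sum_mul]
    refine sum_congr rfl fun a _ => ?_
    rw [mul_right_comm, ← hG a, sum_mul]
    refine sum_congr rfl fun b _ => ?_
    ring
  rw [h6, sum_eq_single (n - 1)]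
  · have h7 : jacobiSym ((n - 1 : ℕ) : ℤ) n = if n % 4 = 1 then 1 else -1 := by
      rw [jacobiSym.mod_left' (a₂ := -1) (by
        rw [Nat.cast_sub h1.le, sub_eq_add_neg, add_comm, Int.add_emod_right]; rfl),
        jacobiSym.at_neg_one hodd, ZMod.χ₄_nat_eq_if_mod_four, if_neg (by
          have := Nat.odd_iff.1 hodd; omega)]
    rw [h7, Nat.sub_add_cancel h1.le, hprim.pow_eq_one, st]
    split_ifs <;> simp
  · intro b hb hb1
    have hb' := mem_range.1 hb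
    have h7 : ζ ^ (b + 1) ≠ 1 := hprim.pow_ne_one_of_pos_of_lt b.succ_ne_zero (by omega)
    have h8 := mul_geom_sum (ζ ^ (b + 1)) n
    rw [← pow_mul, mul_comm (b + 1) n, pow_mul, hprim.pow_eq_one, one_pow, sub_self] at h8
    rw [(mul_eq_zero.1 h8).resolve_left (sub_ne_zero.2 h7), mul_zero]
  · intro h
    exact absurd (mem_range.2 (by omega)) h

theorem one_lt (D : Dat) : 1 < D.n := D.wz.prime.one_lt.trans_le (Nat.le_of_dvd D.n_pos D.zp)

theorem gs (h : EV2) (D : Dat) :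
    ∃ s : ℤˣ, ∑ a ∈ range D.n, (jacobiSym a D.n : Om) * zM D.n a = (s : ℤ) * D.dl0 := by
  have h1 : (∑ a ∈ range D.n, (jacobiSym a D.n : Om) * zM D.n a) ^ 2 = D.dl0 ^ 2 := by
    apply io.injective
    rw [D.hdl0, map_pow, map_sum]
    simp only [map_mul, map_intCast, io_zM h]
    exact gsq (one_lt D) D.odd D.sq
  rcases sq_eq_sq_iff_eq_or_eq_neg.1 h1 with e | e
  · exact ⟨1, by simpa using e⟩
  · exact ⟨-1, by simpa using e⟩

theorem key (h : EV2) (D : Dat) {M : ℕ} (g : GQ) (hM : M ≠ 0) (hd : D.n ∣ M) :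
    sd D.dl0 g = jacobiSym (cy M g : ZMod M).val D.n := by
  have hn : (D.n : ℂ) ≠ 0 := Nat.cast_ne_zero.2 D.n_ne
  obtain ⟨τ, -, hτ⟩ := MP_8b7eba_nt.BSD15.exists_gauss (one_lt D) D.odd D.sq
  obtain ⟨s, hs⟩ := gs h D
  have h1 : ∀ a : ℕ, zM D.n a ^ M = 1 := fun a => by
    obtain ⟨c, rfl⟩ := hd
    apply io.injective
    rw [io_pow h, map_one, ← exp_nat_mul_two_pi_mul_I (a * c)]
    congr 1
    push_cast
    field_simp
  have h2 : g (∑ a ∈ range D.n, (jacobiSym a D.n : Om) * zM D.n a) =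
      (jacobiSym (cy M g : ZMod M).val D.n : Om) *
        ∑ a ∈ range D.n, (jacobiSym a D.n : Om) * zM D.n a := by
    apply io.injective
    have h3 := hτ 1
    simp only [Nat.cast_one, mul_one, jacobiSym.one_left, Int.cast_one, one_mul] at h3
    simp only [map_sum, map_mul, map_intCast, KT.t_BAS.2.1 M hM g _ (h1 _), io_pow h, io_zM h, hτ,
      h3]
  rw [hs, map_mul, map_intCast, sd_apply D.fix_dl0, mul_left_comm] at h2
  exact_mod_cast mul_right_cancel₀ (mul_ne_zero (Int.cast_ne_zero.2 s.ne_zero) D.dl0_ne) h2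

theorem recip (D : Dat) (a : ℕ) (ha : Odd a) :
    jacobiSym D.d a = jacobiSym D.e a * jacobiSym a D.n := by
  rw [D.hd, jacobiSym.mul_left, MP_8b7eba_nt.R1.jac_st D.odd ha]

theorem pm_add (a b : ZMod 2) : (-1 : ℤ) ^ (a + b).val = (-1) ^ a.val * (-1) ^ b.val := by
  revert a b; decide

theorem sgn_if {a : ZMod 2} {P : Prop} [Decidable P] (h : a = 0 ↔ P) :
    (-1 : ℤ) ^ a.val = if P then 1 else -1 := by
  split_ifs with c
  · rw [h.2 c]; rfl
  · have : ∀ a : ZMod 2, a ≠ 0 → (-1 : ℤ) ^ a.val = -1 := by decide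
    exact this a fun e => c (h.1 e)

theorem dvd_iff {u : ℤ_[2]} {c : ℕ} (h : 2 ^ 3 ∣ u - c) {j : ℕ} (hj : j ≤ 3) (r : ℤ) :
    2 ^ j ∣ u - r ↔ (2 : ℤ) ^ j ∣ c - r := by
  have h1 := PadicInt.pow_p_dvd_int_iff (p := 2) j (c - r)
  push_cast at h1
  rw [← h1, show u - r = u - c + (c - r) by ring]
  exact dvd_add_right ((pow_dvd_pow _ hj).trans h)

theorem sgn_e (D : Dat) {g : GQ} {c : ℕ} (hc : Odd c) (h : 2 ^ 3 ∣ (cyc g : ℤ_[2]) - c) :
    (-1 : ℤ) ^ (qz D.e g).val = jacobiSym D.e c := by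
  have c2 := Nat.odd_iff.1 hc
  have h1 : (-1 : ℤ) ^ (qz (-1) g).val = jacobiSym (-1) c := by
    have k := dvd_iff h (j := 2) (by norm_num) 1
    norm_num at k
    rw [jacobiSym.at_neg_one hc, ZMod.χ₄_nat_eq_if_mod_four, if_neg (by omega)]
    exact sgn_if ((qz_neg_one a_EC).trans (k.trans (by omega)))
  have h2 : (-1 : ℤ) ^ (qz 2 g).val = jacobiSym 2 c := by
    have k := dvd_iff h (j := 3) le_rfl 1
    have k' := dvd_iff h (j := 3) le_rfl (-1)
    norm_num at k k'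
    rw [jacobiSym.at_two hc, ZMod.χ₈_nat_eq_if_mod_eight, if_neg (by omega)]
    exact sgn_if ((qz_two a_EC).trans ((or_congr k k').trans (by omega)))
  rcases D.he with e | e | e | e <;> rw [e]
  · simp [qz_one]
  · exact h1
  · exact h2
  · rw [show (-2 : ℤ) = -1 * 2 by norm_num, qz_mul (by norm_num) (by norm_num), Pi.add_apply,
      pm_add, h1, h2, jacobiSym.mul_left]

theorem abs_dvd (D : Dat) : D.d.natAbs ∣ 2 * D.n := by
  rw [D.hd, Int.natAbs_mul]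
  refine Nat.mul_dvd_mul ?_ ?_
  · rcases D.he with e | e | e | e <;> simp [e]
  · rcases st_cases D.n with h | h <;> simp [h]

theorem val_odd {M n : ℕ} (hd : 8 * n ∣ M) (δ : (ZMod M)ˣ) : Odd (δ : ZMod M).val :=
  Nat.coprime_two_right.1 ((ZMod.val_coe_unit_coprime δ).coprime_dvd_right
    (Dvd.dvd.trans ⟨4 * n, by ring⟩ hd))

theorem kd_eq (D : Dat) {M : ℕ} (hM : M ≠ 0) (hd : 8 * D.n ∣ M) (δ : (ZMod M)ˣ) (a : ℕ)
    (h : (δ : ZMod M) = a) : D.kd δ = jacobiSym D.d a := by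
  have : NeZero M := ⟨hM⟩
  have h1 : (δ : ZMod M).val ≡ a [MOD M] := by
    rw [← ZMod.natCast_eq_natCast_iff, ZMod.natCast_zmod_val, h]
  have h2 := val_odd hd δ
  have h3 : Odd a := by
    have := h1.of_dvd (Dvd.dvd.trans ⟨4 * D.n, by ring⟩ hd : 2 ∣ M)
    rw [Nat.odd_iff] at h2 ⊢
    exact Eq.trans this.symm h2
  have h4 : 4 * D.d.natAbs ∣ M :=
    (Nat.mul_dvd_mul_left 4 (abs_dvd D)).trans (by rwa [← mul_assoc])
  rw [Dat.kd, jacobiSym.mod_right _ h2, jacobiSym.mod_right _ h3, h1.of_dvd h4]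

end TGSX

open TGSX in
theorem t_GSX (hEV2 : EV2) : GSX := by
  refine fun D => ⟨gs hEV2 D, fun M g => key hEV2 D g, fun f φ hφ => ?_, recip D,
    fun M hM hd => ⟨fun g => ?_, fun δ δ' => ?_, kd_eq D hM hd, fun δ => ?_⟩⟩
  · rw [key hEV2 D φ D.n_ne dvd_rfl, KT.TCYB.frob D.n_ne
      (show ¬ 2 ∣ D.n by have := D.n2; omega) hφ,
      ZMod.val_natCast, Int.natCast_mod, ← jacobiSym.mod_left, ← jacobiSym.pow_left]
    rfl
  · rw [Dat.kd, recip D _ (val_odd hd _), ← key hEV2 D g hM ((Dvd.intro_left 8 rfl).trans hd),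
      ← sgn_e D (val_odd hd _) (KT.TCYB.key hM (Dvd.dvd.trans ⟨D.n, by norm_num⟩ hd) g),
      sd_eq_qz D.hdl, sd_eq_qz D.hdl0, D.qz_d, pm_add]
  · have : NeZero M := ⟨hM⟩
    rw [kd_eq D hM hd _ ((δ : ZMod M).val * (δ' : ZMod M).val) (by simp),
      jacobiSym.mul_right' _ (val_odd hd δ).pos.ne' (val_odd hd δ').pos.ne']
    rfl
  · refine jacobiSym.sq_one ?_
    rw [Int.gcd_eq_natAbs, Int.natAbs_natCast]
    exact ((ZMod.val_coe_unit_coprime δ).coprime_dvd_right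
      ((abs_dvd D).trans (Dvd.dvd.trans ⟨4, by ring⟩ hd))).symm

end Pool.Agent.P.MP_9c97e9_nt.K2
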