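import Pool.Agent.P.MP_9c97e9_nt.K2.IfU
import Pool.Agent.P.MP_9c97e9_nt.KT.TNA

/-! The sum over all lifts. -/

namespace Pool.Agent.P.MP_9c97e9_nt.K2

open MP_8b7eba_nt.R2 KT

namespace TNA

open KT.TNA (vm mv_inj un_mul comp rd)
open KT.TNLP (c1 prod_fib)

variable {N N' : ℕ}

theorem ch (h : N ∣ N') (x : ZMod N') : (ZMod.cast x : ZMod N) = ZMod.castHom h (ZMod N) x := rfl

theorem cc {e : ℕ} (h1 : e ∣ N) (h : N ∣ N') (x : ZMod N') :
    (ZMod.cast (ZMod.cast x : ZMod N) : ZMod e) = ZMod.cast x :=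
  DFunLike.congr_fun (ZMod.castHom_comp h1 h) x

theorem dv_rd {M : ℕ} (h1 : M ∣ N) (h : N ∣ N') (v w : VZ N') :
    dv M (rd N v) (rd N w) = dv M v w := by
  rw [dv, dv, ← cc h1 h]
  simp only [rd, ch h, map_sub, map_mul]

theorem ge_rd {e : ℕ} (h1 : e ∣ N) (h : N ∣ N') (v : VZ N') : Ge e (rd N v) ↔ Ge e v := by
  simp only [Ge, rd, cc h1 h]

theorem rd_ac (h : N ∣ N') (a b c d : ℤ) (v : VZ N') :
    rd N (ac4 a b c d v) = ac4 a b c d (rd N v) := by
  simp only [rd, ac4, ch h, map_add, map_mul, map_intCast, map_ofNat]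

theorem ac_inj {a b c d : ℤ} (h : IsUnit ((a * d - 15 * b * c : ℤ) : ZMod N)) :
    Function.Injective (ac4 a b c d (N := N)) :=
  mv_inj (a := (a : ZMod N)) (b := 15 * (b : ZMod N)) (c := c) (d := d) (by simpa using h)

theorem ge_ac {e f : ℕ} (he : e * f = 15) (h : e ∣ N) {a : ℤ} (ha : IsCoprime a 15) (b c d : ℤ)
    {v : VZ N} (hv : Ge e v) : Ge e (ac4 a b c d v) := by
  obtain ⟨h1, h2⟩ := hv
  obtain ⟨x, y, hx⟩ := ha
  have h3 : (15 : ZMod e) = 0 := by
    have : ((e * f : ℕ) : ZMod e) = 0 := by rw [Nat.cast_mul, ZMod.natCast_self, zero_mul]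
    rwa [he] at this
  have h4 : (x : ZMod e) * a + y * 15 = 1 := by exact_mod_cast congrArg (Int.cast : ℤ → ZMod e) hx
  simp only [ch h] at h1 h2
  constructor <;> simp only [ac4, ch h, map_add, map_mul, map_intCast, map_ofNat, h2, h3]
  · intro h5
    exact h1 (by
      linear_combination x * h5 - ZMod.castHom h (ZMod e) v.1 * h4 +
        ZMod.castHom h (ZMod e) v.1 * y * h3)
  · ring

theorem dv_ac {M : ℕ} (h : M ∣ N) (a b c d : ℤ) (v w : VZ N) :
    dv M (ac4 a b c d v) (ac4 a b c d w) = dv M v w * ((a * d - 15 * b * c : ℤ) : ZMod M) := by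
  simp only [dv, ac4, ch h, map_add, map_mul, map_sub, map_intCast, map_ofNat]
  push_cast
  ring

theorem per (hUT : UT) {q : ℕ} (hq : q ≠ 0) (hN : N ≠ 0) {b : VZ q} {v : VZ N} {β₁ β₂ n₁ n₂ : ℤ}
    (h1 : (β₁ : ZMod q) = b.1) (h2 : (β₂ : ZMod q) = b.2) (h3 : (n₁ : ZMod N) = v.1)
    (h4 : (n₂ : ZMod N) = v.2) {z : ℂ} (hz : 0 < z.im) :
    ug q N b v z = uf q β₁ β₂ (n₁ / N) (n₂ / N) z := by
  have := (hUT.2.2 q N β₁ β₂ n₁ n₂ z hq hN hz).1
  rwa [h1, h2, h3, h4] at this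

open Classical in
/-- the fibres of the reduction -/
noncomputable def fc (N' : ℕ) [NeZero N'] (y : VZ N) : Finset (VZ N') :=
  Finset.univ.filter fun v => rd N v = y

variable [NeZero N']

theorem mem_fc {y : VZ N} {v : VZ N'} : v ∈ fc N' y ↔ rd N v = y := by simp [fc]

theorem fc_ac (h : N ∣ N') {a b c d : ℤ} (h1 : IsUnit ((a * d - 15 * b * c : ℤ) : ZMod N))
    (h2 : IsUnit ((a * d - 15 * b * c : ℤ) : ZMod N')) (y : VZ N) :
    (fc N' (ac4 a b c d y)).val = (fc N' y).val.map (ac4 a b c d) := by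
  refine congrArg Finset.val (?_ : _ = (fc N' y).map ⟨_, ac_inj h2⟩)
  ext w
  obtain ⟨v, rfl⟩ := Finite.injective_iff_surjective.1 (ac_inj h2) w
  refine Iff.trans ?_ (Finset.mem_map' _).symm
  rw [mem_fc, mem_fc, rd_ac h]
  exact (ac_inj h1).eq_iff

theorem ker {p : ℕ} (h : N' = N * p) {v w : VZ N'} (e : rd N v = rd N w) : p • (v - w) = 0 := by
  subst h
  have key : ∀ x y : ZMod (N * p), (ZMod.cast x : ZMod N) = ZMod.cast y → p • (x - y) = 0 :=
    fun x y e => by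
      have h1 : (ZMod.cast (x - y) : ZMod N) = 0 := by
        rw [c1, map_sub, ← c1, ← c1, e, sub_self]
      rw [← ZMod.natCast_val, ZMod.natCast_eq_zero_iff] at h1
      obtain ⟨t, ht⟩ := h1
      rw [← ZMod.natCast_zmod_val (x - y), ht, nsmul_eq_mul, ← Nat.cast_mul,
        ZMod.natCast_eq_zero_iff]
      exact ⟨t, by ring⟩
  exact Prod.ext (key _ _ (congrArg Prod.fst e)) (key _ _ (congrArg Prod.snd e))

theorem prod_smul {p c : ℕ} (h : N' = N * p) (hc : c.Coprime p) {A : Type} [CommMonoid A]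
    (y : VZ N) (G : VZ N' → A) : ∏ v ∈ fc N' y, G (c • v) = ∏ v ∈ fc N' (c • y), G v := by
  have hd : N ∣ N' := ⟨p, h⟩
  let R : VZ N' →+ VZ N := AddMonoidHom.prodMap (ZMod.castHom hd (ZMod N)) (ZMod.castHom hd (ZMod N))
  have hR : ∀ v, rd N v = R v := fun v => rfl
  obtain ⟨u, t, e⟩ := Nat.isCoprime_iff_coprime.2 hc
  have key : ∀ x : VZ N', p • x = 0 → c • u • x = x := fun x hx => by
    have : (u * c + t * p) • x = x := by rw [e, one_smul]
    rwa [add_smul, mul_smul t, natCast_zsmul, hx, smul_zero, add_zero, mul_smul, natCast_zsmul,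
      smul_comm] at this
  refine Finset.prod_nbij (fun v => c • v) (fun v hv => ?_) (fun v hv w hw e => ?_)
    (fun w hw => ?_) fun _ _ => rfl
  · rw [mem_fc, hR, map_nsmul, ← hR, mem_fc.1 hv]
  · have := key _ (ker h ((mem_fc.1 hv).trans (mem_fc.1 hw).symm))
    rw [smul_comm, smul_sub, show c • v = c • w from e, sub_self, smul_zero] at this
    exact sub_eq_zero.1 this.symm
  · obtain ⟨x₁, h1⟩ := ZMod.castHom_surjective hd y.1
    obtain ⟨x₂, h2⟩ := ZMod.castHom_surjective hd y.2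
    have h3 : R (x₁, x₂) = y := Prod.ext h1 h2
    have h4 : rd N w = rd N (c • (x₁, x₂)) := by
      rw [mem_fc.1 hw, hR, map_nsmul, h3]
    refine ⟨(x₁, x₂) + u • (w - c • (x₁, x₂)), Finset.mem_coe.2 (mem_fc.2 ?_), ?_⟩
    · rw [hR, map_add, map_zsmul, map_sub, ← hR w, h4, hR, sub_self, smul_zero, add_zero, h3]
    · simp only
      rw [smul_add, key _ (ker h h4), add_sub_cancel]

theorem prod_ug (hUT : UT) (hUD : UD) {q p : ℕ} (hq : q ≠ 0) (h : N' = N * p) (b : VZ q)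
    (y : VZ N) {z : ℂ} (hz : 0 < z.im) : ∏ v ∈ fc N' y, ug q N' b v z = ug q N (p • b) y z := by
  classical
  subst h
  have hM : N ≠ 0 := left_ne_zero_of_mul (NeZero.ne (N * p))
  have hp : p ≠ 0 := right_ne_zero_of_mul (NeZero.ne (N * p))
  have : NeZero N := ⟨hM⟩
  have : NeZero q := ⟨hq⟩
  have e1 : fc (N * p) y = (Finset.univ.filter fun x : ZMod (N * p) => ZMod.cast x = y.1) ×ˢ
      (Finset.univ.filter fun x : ZMod (N * p) => ZMod.cast x = y.2) := by
    ext v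
    simp [fc, rd, Prod.ext_iff]
  rw [e1, Finset.prod_product, prod_fib y.1 _ fun x => by simp,
    per hUT hq hM (β₁ := p * b.1.val) (β₂ := p * b.2.val) (n₁ := y.1.val) (n₂ := y.2.val)
      (by simp) (by simp) (by simp) (by simp) hz]
  have h0 : (N : ℚ) ≠ 0 := Nat.cast_ne_zero.2 hM
  have h1 : (p : ℚ) ≠ 0 := Nat.cast_ne_zero.2 hp
  have e := (hUD q p b.1.val b.2.val (y.1.val / (N * p)) (y.2.val / (N * p)) z hp hz).1
  convert e using 2 with i hi
  · rw [prod_fib y.2 _ fun x => by simp]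
    refine Finset.prod_congr rfl fun j _ => ?_
    rw [per hUT hq (NeZero.ne _) (β₁ := b.1.val) (β₂ := b.2.val) (n₁ := (y.1.val + N * i : ℕ))
      (n₂ := (y.2.val + N * j : ℕ)) (by simp) (by simp) (Int.cast_natCast _) (Int.cast_natCast _) hz]
    congr 1 <;> push_cast <;> field_simp
  · push_cast
    field_simp
  · push_cast
    field_simp

theorem sum_sub {A B X : Type} [Fintype A] [Fintype B] [AddCommMonoid X] (P : B → B → Prop)
    [∀ y y', Decidable (P y y')] [Fintype {w : B × B // P w.1 w.2}] (F : A → B → B → X) : ∑ j : A × {w : B × B // P w.1 w.2}, F j.1 j.2.1.1 j.2.1.2 =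
      ∑ b, ∑ y, ∑ y', if P y y' then F b y y' else 0 := by
  rw [Fintype.sum_prod_type]
  refine Finset.sum_congr rfl fun b _ => ?_
  rw [← Fintype.sum_prod_type', ← Finset.sum_filter]
  exact (Finset.sum_subtype _ (by simp) fun q : B × B => F b q.1 q.2).symm

theorem sum_fc {X : Type} [AddCommMonoid X] [NeZero N] (P : VZ N → VZ N → Prop)
    [∀ y y', Decidable (P y y')] (F : VZ N' → VZ N' → VZ N → VZ N → X) :
    (∑ y, ∑ y', if P y y' then ∑ v ∈ fc N' y, ∑ v' ∈ fc N' y', F v v' y y' else 0) =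
      ∑ v, ∑ v', if P (rd N v) (rd N v') then F v v' (rd N v) (rd N v') else 0 := by
  classical
  rw [← Finset.sum_fiberwise Finset.univ (rd N (M' := N'))]
  refine Finset.sum_congr rfl fun y _ => ?_
  rw [Finset.sum_comm, ← Finset.sum_fiberwise Finset.univ (rd N (M' := N'))]
  refine Finset.sum_congr rfl fun y' _ => ?_
  refine Eq.trans ?_ Finset.sum_comm
  refine Eq.trans ?_ (Finset.sum_congr rfl fun v hv => Finset.sum_congr rfl fun v' hv' => by
    rw [(Finset.mem_filter.1 hv).2, (Finset.mem_filter.1 hv').2]).symm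
  by_cases h : P y y'
  · simp only [h, if_true]
    rfl
  · simp [h]

end TNA

open TNA in
open KT.TNA (un_mul comp rd) in
open KT.TNLP (prod_eq ne_zero) in
theorem t_NA (hFB : FB) (hBIM : BIM) (hCOK : COK) (hUT : UT) (hUD : UD) (hEXA : EXA)
    (hEINV : EINV) (hUNITS : UNITS) : NA := by
  classical
  rintro q k M _ p i1 i2 ⟨hq, hM, hk, hMq⟩ hp hpq rfl
  have : NeZero M := ⟨hM⟩
  have hN : 15 * (M * p) = 15 * M * p := (mul_assoc _ _ _).symm
  have hd : 15 * M ∣ 15 * (M * p) := ⟨p, hN⟩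
  have hM15 : M ∣ 15 * M := Nat.dvd_mul_left _ _
  have h3 : 3 ∣ 15 * M := Dvd.dvd.mul_right (by norm_num) _
  have h5 : 5 ∣ 15 * M := Dvd.dvd.mul_right (by norm_num) _
  have hp15 : p.Coprime 15 := Nat.Coprime.coprime_mul_right_right hpq
  have hpq' : p.Coprime q := Nat.Coprime.coprime_mul_left_right hpq
  obtain ⟨hU, hG⟩ := hEXA q _ hq.ne (NeZero.ne (15 * (M * p))) (hq.c15 (hMq.mul_left hpq'))
  have hV : ∀ {e f : ℕ}, e * f = 15 → ∀ {y : VZ (15 * M)}, Ge e y →
      ∀ v ∈ fc (15 * (M * p)) y, Gv (f • v) := fun {e f} h y hy v hv =>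
    Ge.gv h ((ge_rd (Dvd.dvd.mul_right ⟨f, h.symm⟩ _) hd v).1 ((mem_fc.1 hv).symm ▸ hy))
  have hR : ∀ (b : VZ q) (v : VZ (15 * (M * p))), Gv v → Uz q _ b v ≠ 0 ∧
      ∃ r, r ^ 2 ^ k = Uz q _ b v := fun b v hv => by
    obtain ⟨r, -, hr⟩ := hUNITS.2.1 _ (hU b v hv).2 (2 ^ k) (by positivity)
    exact ⟨ne_zero hFB (hU b v hv).2, r, hr⟩
  have hP : ∀ {e f : ℕ}, e * f = 15 → ∀ (b : VZ q) {y : VZ (15 * M)}, Ge e y →
      ∏ v ∈ fc (15 * (M * p)) y, Uz q _ b (f • v) = Uz q _ (p • b) (f • y) :=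
    fun {e f} h b y hy => prod_eq hFB _ (fun v hv => (hU b _ (hV h hy v hv)).1)
      ((hEXA q _ hq.ne (NeZero.ne _) (hq.c15 hMq)).1 _ _ (Ge.gv h hy)).1 fun z hz => by
        rw [prod_smul hN (hp15.symm.coprime_dvd_left ⟨e, by rw [← h, mul_comm]⟩) y
          fun v => ug q _ b v z, prod_ug hUT hUD hq.ne hN b _ hz]
  let P : VZ (15 * M) → VZ (15 * M) → Prop := fun y y' => Ge 3 y ∧ Ge 5 y' ∧ IsUnit (dv M y y')
  have key := (hBIM AL LL (CL k M) (hCOK.2.2.1 k M hM hk).1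
    (VZ q × {w : VZ (15 * M) × VZ (15 * M) // P w.1 w.2}) (VZ (15 * (M * p)))
    (fun j => fc _ j.2.1.1) (fun j => fc _ j.2.1.2) (fun j v => Uz q _ j.1 (5 • v))
    (fun j v => Uz q _ j.1 (3 • v)) (fun j => un (dv M j.2.1.1 j.2.1.2))
    (fun j => ⟨fun v hv => hR _ _ (hV (e := 3) rfl j.2.2.1 v hv),
      fun v hv => hR _ _ (hV (e := 5) rfl j.2.2.2.1 v hv)⟩) fun g hg => ?_).2
  · have hb : Function.Injective fun b : VZ q => p • b := fun b b' e => by
      have hu := (ZMod.unitOfCoprime p hpq').isUnit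
      rw [ZMod.coe_unitOfCoprime] at hu
      exact Prod.ext (hu.mul_left_cancel (by simpa using congrArg Prod.fst e))
        (hu.mul_left_cancel (by simpa using congrArg Prod.snd e))
    generalize hW : Uz q (15 * (M * p)) = W at key hP
    rw [sum_sub P (fun (b : VZ q) y y' => ∑ v ∈ fc (15 * (M * p)) y, ∑ v' ∈ fc (15 * (M * p)) y',
        Finsupp.single (W b (5 • v), W b (3 • v'), un (dv M y y')) (1 : ℤ)),
      sum_sub P (fun (b : VZ q) y y' => Finsupp.single (∏ v ∈ fc (15 * (M * p)) y, W b (5 • v),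
        ∏ v ∈ fc (15 * (M * p)) y', W b (3 • v), un (dv M y y')) (1 : ℤ))] at key
    have e1 : ES0 q M (M * p) (fun _ _ => True) = ∑ b : VZ q, ∑ y, ∑ y', if P y y' then
        ∑ v ∈ fc (15 * (M * p)) y, ∑ v' ∈ fc (15 * (M * p)) y',
          Finsupp.single (W b (5 • v), W b (3 • v'), un (dv M y y')) (1 : ℤ) else 0 := by
      refine Finset.sum_congr rfl fun b _ => ?_
      rw [sum_fc P fun v v' y y' =>
        Finsupp.single (W b (5 • v), W b (3 • v'), un (dv M y y')) (1 : ℤ), hW]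
      simp only [P, ge_rd h3 hd, ge_rd h5 hd, dv_rd hM15 hd, and_true]
    have e2 : E0 q M = ∑ b : VZ q, ∑ y, ∑ y', if P y y' then
        Finsupp.single (∏ v ∈ fc (15 * (M * p)) y, W b (5 • v),
          ∏ v ∈ fc (15 * (M * p)) y', W b (3 • v), un (dv M y y')) (1 : ℤ) else 0 := by
      rw [hEINV.1 q M, ES0, ← (Finite.injective_iff_bijective.1 hb).sum_comp]
      refine Finset.sum_congr rfl fun b _ => Finset.sum_congr rfl fun y _ =>
        Finset.sum_congr rfl fun y' _ => ?_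
      by_cases h : P y y'
      · rw [if_pos h, if_pos ⟨h, trivial⟩, hP (e := 3) rfl b h.1, hP (e := 5) rfl b h.2.1]
      · rw [if_neg h, if_neg fun h' => h h'.1]
    rw [e1, e2]
    exact key
  · obtain ⟨a, b, c, d, h0, h1, h2⟩ := hG g hg
    have h4 : ∀ L : ℕ, L ≠ 0 → L ∣ 15 * (M * p) * q →
        ((a * d - 15 * b * c : ℤ) : ZMod L) = cy L (cg g) := fun L hL h => by
      rw [← comp hL h (mul_ne_zero (NeZero.ne _) hq.ne), ZMod.unitsMap_val, ← h1,
        ZMod.cast_intCast h]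
    have h6 : ∀ L : ℕ, L ≠ 0 → L ∣ 15 * (M * p) * q →
        IsUnit ((a * d - 15 * b * c : ℤ) : ZMod L) := fun L hL h => h4 L hL h ▸ Units.isUnit _
    have h7 := h6 _ (NeZero.ne (15 * M)) (hd.mul_right q)
    have h8 := h6 _ (NeZero.ne (15 * (M * p))) (Nat.dvd_mul_right _ q)
    have h9 : ∀ y y' : VZ (15 * M), dv M (ac4 a b c d y) (ac4 a b c d y') =
        dv M y y' * cy M (cg g) := fun y y' => by
      rw [dv_ac hM15, h4 M hM ((hM15.trans hd).mul_right q)]
    let f : VZ q × {w : VZ (15 * M) × VZ (15 * M) // P w.1 w.2} →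
        VZ q × {w : VZ (15 * M) × VZ (15 * M) // P w.1 w.2} := fun j =>
      (ac4 a b c d j.1, ⟨(_, _), ge_ac (f := 5) rfl h3 h0 b c d j.2.2.1,
        ge_ac (f := 3) rfl h5 h0 b c d j.2.2.2.1,
        (h9 j.2.1.1 j.2.1.2).symm ▸ j.2.2.2.2.mul (Units.isUnit _)⟩)
    have hf : Function.Injective f := fun j j' e => by
      have e1 := congrArg Prod.fst e
      have e2 := congrArg (fun j => j.2.1.1) e
      have e3 := congrArg (fun j => j.2.1.2) e
      exact Prod.ext (ac_inj (h6 q hq.ne (Nat.dvd_mul_left _ _)) e1)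
        (Subtype.ext (Prod.ext (ac_inj h7 e2) (ac_inj h7 e3)))
    refine ⟨Equiv.ofBijective f (Finite.injective_iff_bijective.1 hf), fun j => ⟨?_, ?_, ?_⟩⟩
    · exact (congrArg un (h9 _ _)).trans (un_mul j.2.2.2.2 _)
    · refine (congrArg (Multiset.map _) (fc_ac hd h7 h8 _)).trans ?_
      rw [Multiset.map_map]
      exact Multiset.map_congr rfl fun v hv => ((h2 j.1 _ (hV (e := 3) rfl j.2.2.1 v hv)).trans
        (congrArg _ (ac4_smul a b c d 5 v))).symm
    · refine (congrArg (Multiset.map _) (fc_ac hd h7 h8 _)).trans ?_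
      rw [Multiset.map_map]
      exact Multiset.map_congr rfl fun v hv => ((h2 j.1 _ (hV (e := 5) rfl j.2.2.2.1 v hv)).trans
        (congrArg _ (ac4_smul a b c d 3 v))).symm

end Pool.Agent.P.MP_9c97e9_nt.K2
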