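import Pool.Agent.P.MP_9c97e9_nt.K2.IfU
import Pool.Agent.P.MP_9c97e9_nt.KT.TNF

/-! The formal norm relation. -/

namespace Pool.Agent.P.MP_9c97e9_nt.K2

open scoped NNReal Matrix
open MP_8b7eba_nt.R2 KT
open MP_8b7eba_nt.R1 (IntR IntM)
open Finset
open KT.TNF (un_val lb_sum unit_iff zero_iff sum_card)

namespace TNF

open Classical in
/-- one term of the sum -/
noncomputable def tm (q M N : ℕ) (b : VZ q) (v v' : VZ N) : Sy LL M :=
  if Ge 3 v ∧ Ge 5 v' ∧ IsUnit (dv M v v') then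
    Finsupp.single (Uz q N b (5 • v), Uz q N b (3 • v'), un (dv M v v')) 1 else 0

open Classical in
theorem ES0_eq (q M M' : ℕ) [NeZero q] [NeZero M'] (P : VZ (15 * M') → VZ (15 * M') → Prop) :
    ES0 q M M' P = ∑ b, ∑ v, ∑ v', if P v v' then tm q M (15 * M') b v v' else 0 := by
  refine sum_congr rfl fun b _ => sum_congr rfl fun v _ => sum_congr rfl fun v' _ => ?_
  by_cases h : P v v'
  · rw [if_pos h, tm]
    simp only [h, and_true]
  · rw [if_neg h, if_neg fun h' => h h'.2]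

open Classical in
theorem lb_tm {q M M' N : ℕ} [NeZero N] [NeZero M'] (hd : M ∣ M') (b : VZ q) (v v' : VZ N) :
    lb (ZMod.unitsMap hd) (tm q M' N b v v') =
      if IsUnit (dv M' v v') then tm q M N b v v' else 0 := by
  by_cases h : IsUnit (dv M' v v')
  · have h' : IsUnit (dv M v v') :=
      (unit_iff M _).2 (((unit_iff M' _).1 h).coprime_dvd_right hd)
    rw [if_pos h, tm, tm]
    by_cases hg : Ge 3 v ∧ Ge 5 v'
    · rw [if_pos ⟨hg.1, hg.2, h⟩, if_pos ⟨hg.1, hg.2, h'⟩, lb, Finsupp.mapDomain_single]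
      congr 3
      ext
      rw [ZMod.unitsMap_val, un_val h, un_val h', dv, dv, ZMod.cast_eq_val (R := ZMod M')
        (v.1 * v'.2 - v.2 * v'.1), ZMod.cast_natCast hd, ZMod.cast_eq_val]
    · rw [if_neg fun h => hg ⟨h.1, h.2.1⟩, if_neg fun h => hg ⟨h.1, h.2.1⟩, lb,
        Finsupp.mapDomain_zero]
  · rw [if_neg h, tm, if_neg fun h' => h h'.2.2, lb, Finsupp.mapDomain_zero]

variable {N p N' : ℕ} [NeZero N] [NeZero N']

/-- multiplication by `p` -/
def up (p N' : ℕ) (y : VZ N) : VZ N' := ((p * y.1.val : ℕ), (p * y.2.val : ℕ))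

open Classical in
theorem sum_up (h : N' = N * p) {X : Type} [AddCommMonoid X] (f : VZ N' → X) :
    (∑ v : VZ N', if (ZMod.cast v.1 : ZMod p) = 0 ∧ (ZMod.cast v.2 : ZMod p) = 0 then f v
      else 0) = ∑ y : VZ N, f (up p N' y) := by
  subst h
  exact KT.TNF.sum_up f

theorem up_val (h : N' = N * p) (y : VZ N) :
    (up p N' y).1.val = p * y.1.val ∧ (up p N' y).2.val = p * y.2.val := by
  subst h
  exact ⟨KT.TNF.up_val y.1, KT.TNF.up_val y.2⟩

omit [NeZero N'] in
theorem up_smul (h : N' = N * p) (c : ℕ) (y : VZ N) : c • up p N' y = up p N' (c • y) := by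
  have h1 : ∀ a : ZMod N, c • ((p * a.val : ℕ) : ZMod N') = ((p * (c • a).val : ℕ) : ZMod N') :=
    fun a => by
      have h2 : (c • a).val = c * a.val % N := by
        rw [nsmul_eq_mul, ← ZMod.val_natCast, Nat.cast_mul, ZMod.natCast_zmod_val]
      rw [nsmul_eq_mul, ← Nat.cast_mul, h2, ZMod.natCast_eq_natCast_iff, h, mul_left_comm,
        mul_comm N]
      exact (Nat.mod_modEq _ _).symm.mul_left' p
  exact Prod.ext (h1 _) (h1 _)

theorem Uz_up (h : N' = N * p) (q : ℕ) (b : VZ q) (y : VZ N) :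
    Uz q N' b (up p N' y) = Uz q N b y := by
  have hp : (p : ℚ) ≠ 0 :=
    Nat.cast_ne_zero.2 (right_ne_zero_of_mul (h ▸ NeZero.ne N' : N * p ≠ 0))
  have h1 : ∀ a : ℕ, (((p * a : ℕ) : ℤ) : ℚ) / N' = (a : ℤ) / N := fun a => by
    rw [h]
    push_cast
    rw [mul_comm (N : ℚ), mul_div_mul_left _ _ hp]
  rw [Uz, Uz, ug, ug, (up_val h y).1, (up_val h y).2, ui, ui, h1, h1]

theorem Ge_up (h : N' = N * p) {e : ℕ} (he : e.Coprime p) (y : VZ N) :
    Ge e (up p N' y) ↔ Ge e y := by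
  rw [Ge_iff, Ge_iff, (up_val h y).1, (up_val h y).2, he.dvd_mul_left, he.dvd_mul_left]

omit [NeZero N'] in
theorem dv_up (h : N' = N * p) {M : ℕ} (hM : M ∣ N) (y y' : VZ N) :
    dv M (up p N' y) (up p N' y') = dv M y y' * p ^ 2 := by
  have hM' : M ∣ N' := h ▸ hM.mul_right p
  have h1 : ∀ a : ZMod N, ZMod.castHom hM' (ZMod M) ((p * a.val : ℕ) : ZMod N') =
      p * ZMod.castHom hM (ZMod M) a := fun a => by
    rw [map_natCast, Nat.cast_mul, ZMod.castHom_apply, ZMod.cast_eq_val]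
  rw [dv, dv, ← ZMod.castHom_apply (h := hM'), ← ZMod.castHom_apply (h := hM), up, up]
  simp only [map_sub, map_mul, h1]
  ring

theorem tm_up (h : N' = N * p) {M : ℕ} (hM : M ∣ N) (hp : IsUnit (p : ZMod M))
    (h3 : Nat.Coprime 3 p) (h5 : Nat.Coprime 5 p) {q : ℕ} (b : VZ q) (y y' : VZ N) :
    tm q M N' b (up p N' y) (up p N' y') = lb (· * un (p : ZMod M) ^ 2) (tm q M N b y y') := by
  rw [tm, tm, dv_up h hM, up_smul h, up_smul h, Uz_up h, Uz_up h]
  by_cases hg : Ge 3 y ∧ Ge 5 y' ∧ IsUnit (dv M y y')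
  · have h2 := hg.2.2.mul (hp.pow 2)
    rw [if_pos hg, if_pos ⟨(Ge_up h h3 _).2 hg.1, (Ge_up h h5 _).2 hg.2.1, h2⟩, lb,
      Finsupp.mapDomain_single]
    congr 3
    ext
    rw [un_val h2, Units.val_mul, Units.val_pow_eq_pow_val, un_val hg.2.2, un_val hp]
  · rw [if_neg hg, if_neg fun h' => hg ⟨(Ge_up h h3 _).1 h'.1, (Ge_up h h5 _).1 h'.2.1,
      isUnit_of_mul_isUnit_left h'.2.2⟩, lb, Finsupp.mapDomain_zero]

end TNF

open K2.TNF in
theorem t_NF (hEINV : EINV) (hLNX : LNX) : NF := by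
  classical
  intro q M M' p _ _ hd hp h15 hM
  subst hM
  have : NeZero M := ⟨left_ne_zero_of_mul (NeZero.ne (M * p))⟩
  rw [hEINV.1 q (M * p), hEINV.1 q M]
  simp only [ES0_eq, if_true, lb_sum, lb_tm]
  split_ifs with hpM
  · refine sum_congr rfl fun b _ => sum_congr rfl fun v _ => sum_congr rfl fun v' _ => ?_
    split_ifs with h
    · rfl
    · rw [tm, if_neg]
      intro h'
      have h1 := (unit_iff M _).1 h'.2.2
      exact h ((unit_iff _ _).2 (h1.mul_right (h1.coprime_dvd_right hpM)))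
  · have hu := ZMod.isUnit_prime_of_not_dvd hp hpM
    have hN : 15 * (M * p) = 15 * M * p := (mul_assoc _ _ _).symm
    have hc := (hp.coprime_iff_not_dvd.2 h15).symm
    simp only [← tm_up hN (dvd_mul_left M 15) hu (hc.coprime_dvd_left ⟨5, rfl⟩)
      (hc.coprime_dvd_left ⟨3, rfl⟩)]
    rw [sum_comm (s := IntR p), ← sum_sub_distrib, smul_sum, ← sum_add_distrib]
    refine sum_congr rfl fun b _ => ?_
    rw [← sum_up hN fun v => ∑ y' : VZ (15 * M), tm q M (15 * (M * p)) b v (up p _ y'),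
      sum_comm (s := IntR p), ← sum_sub_distrib, smul_sum, ← sum_add_distrib]
    refine sum_congr rfl fun v _ => ?_
    rw [← sum_up hN fun v' => tm q M (15 * (M * p)) b v v', ite_sum_zero, sum_comm (s := IntR p),
      ← sum_sub_distrib, smul_sum, ← sum_add_distrib]
    refine sum_congr rfl fun v' _ => ?_
    have h1 := (hLNX (15 * (M * p)) p hp h15 (hN ▸ dvd_mul_left p (15 * M))).2 v v'
    rw [sum_card (d := fun _ => Classical.propDecidable _) h1, ← ite_and, add_smul, Nat.cast_ite,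
      ite_smul, ite_smul, smul_ite, Nat.cast_zero, zero_smul, smul_zero, one_smul]
    simp only [and_assoc]
    rw [← sub_sub, sub_add_cancel]
    by_cases h2 : dv p v v' = 0
    · rw [if_pos h2, sub_self, if_neg]
      intro h3
      exact (hp.coprime_iff_not_dvd.1 (((unit_iff _ _).1 h3).coprime_mul_left_right.symm))
        ((zero_iff _ _).1 h2)
    · rw [if_neg h2, sub_zero]
      split_ifs with h3
      · rfl
      · rw [tm, if_neg]
        intro h'
        exact h3 ((unit_iff _ _).2 (((unit_iff M _).1 h'.2.2).mul_right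
          (hp.coprime_iff_not_dvd.2 fun h4 => h2 ((zero_iff _ _).2 h4)).symm))

end Pool.Agent.P.MP_9c97e9_nt.K2
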