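import Pool.Agent.P.MP_9c97e9_nt.K2.TNLP
import Pool.Agent.P.MP_9c97e9_nt.K2.TNA
import Pool.Agent.P.MP_9c97e9_nt.KT.TNL

/-! The sum over the lines. -/

namespace Pool.Agent.P.MP_9c97e9_nt.K2

open MP_8b7eba_nt.R2 KT
open MP_8b7eba_nt.R1 (IntR IntM Int_mem)
open Finset
open scoped Classical
open KT.TNA (rd)
open KT.TNL (Bf mem_Bf fib sub un_mul un_eq)
open K2.TNA (ac_inj ge_ac dv_ac ge_rd dv_rd rd_ac)

namespace TNL

theorem nz {u : LL} (hu : u ∈ UL) : u ≠ 0 := fun h => by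
  obtain ⟨G, h1, h2, h3⟩ := hu
  rw [h, lf, dif_pos h1.2, eq_comm, Subtype.ext_iff] at h3
  have h4 : (fun τ : UpperHalfPlane => G τ) ∈ OH :=
    UpperHalfPlane.mdifferentiable_iff.2 (h1.1.congr fun z hz => by
      simp [UpperHalfPlane.ofComplex_apply_of_im_pos hz])
  have h5 : algebraMap OH MF ⟨_, h4⟩ = algebraMap OH MF 0 := by
    rw [map_zero]; exact (dif_pos h4).symm.trans h3
  exact h2 _ UpperHalfPlane.I.im_pos
    (congrFun (congrArg Subtype.val (IsFractionRing.injective OH MF h5)) UpperHalfPlane.I)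

/-- admissible pairs -/
def PP (M : ℕ) (w : VZ (15 * M) × VZ (15 * M)) : Prop :=
  Ge 3 w.1 ∧ Ge 5 w.2 ∧ IsUnit (dv M w.1 w.2)

theorem exV {N : ℕ} [NeZero N] {a b c d : ℤ} (h : IsUnit ((a * d - 15 * b * c : ℤ) : ZMod N)) :
    ∃ σ : Equiv.Perm (VZ N), ∀ v, σ v = ac4 a b c d v :=
  ⟨Equiv.ofBijective _ (Finite.injective_iff_bijective.1 (ac_inj h)), fun _ => rfl⟩

theorem exP {M : ℕ} [NeZero M] {a b c d : ℤ} (ha : IsCoprime a 15)
    (h : IsUnit ((a * d - 15 * b * c : ℤ) : ZMod (15 * M))) :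
    ∃ σ : Equiv.Perm {w // PP M w}, ∀ w, (σ w).1 = (ac4 a b c d w.1.1, ac4 a b c d w.1.2) := by
  have hM : M ∣ 15 * M := Nat.dvd_mul_left _ _
  have h1 := h.map (ZMod.castHom hM (ZMod M))
  rw [map_intCast] at h1
  let f : {w // PP M w} → {w // PP M w} := fun w =>
    ⟨(ac4 a b c d w.1.1, ac4 a b c d w.1.2),
      ge_ac (f := 5) rfl (Dvd.dvd.mul_right (by norm_num) _) ha b c d w.2.1,
      ge_ac (f := 3) rfl (Dvd.dvd.mul_right (by norm_num) _) ha b c d w.2.2.1,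
      (dv_ac hM a b c d w.1.1 w.1.2).symm ▸ w.2.2.2.mul h1⟩
  have hf : Function.Injective f := fun w w' e =>
    Subtype.ext (Prod.ext (ac_inj h (congrArg (fun w => w.1.1) e))
      (ac_inj h (congrArg (fun w => w.1.2) e)))
  exact ⟨Equiv.ofBijective f (Finite.injective_iff_bijective.1 hf), fun _ => rfl⟩

end TNL

open TNL

theorem t_NL (hBIM : BIM) (hCOK : COK) (hEXA : EXA) (hEINV : EINV) (hLNX : LNX) (hNLP : NLQ)
    (hUNITS : UNITS) : NL := by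
  rintro q k M _ p i1 i2 ⟨hq, hM, hk, hMq⟩ hp hn rfl
  have : NeZero M := ⟨hM⟩
  have hN : 15 * (M * p) = 15 * M * p := (mul_assoc _ _ _).symm
  have hd : 15 * M ∣ 15 * (M * p) := ⟨p, hN⟩
  have hM15 : M ∣ 15 * M := Nat.dvd_mul_left _ _
  have h3 : 3 ∣ 15 * M := Dvd.dvd.mul_right (by norm_num) _
  have h5 : 5 ∣ 15 * M := Dvd.dvd.mul_right (by norm_num) _
  have p15 : ¬ p ∣ 15 := fun h => hn ((h.mul_right _).mul_right _)
  have pq : ¬ p ∣ q := fun h => hn ((h.mul_left _).mul_right _)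
  have pM : ¬ p ∣ M := fun h => hn (h.mul_left _)
  have pN : ¬ p ∣ 15 * M := fun h => (hp.dvd_mul.1 h).elim p15 pM
  have pc : p.Coprime 15 := hp.coprime_iff_not_dvd.2 p15
  have pu : ∀ L : ℕ, ¬ p ∣ L → IsUnit (p : ZMod L) := fun L h =>
    (ZMod.isUnit_iff_coprime p L).2 (hp.coprime_iff_not_dvd.2 h)
  obtain ⟨hU, hG⟩ := hEXA q _ hq.ne (NeZero.ne (15 * (M * p)))
    (hq.c15 (hMq.mul_left (hp.coprime_iff_not_dvd.2 pq)))
  have hV : ∀ {e f : ℕ}, e * f = 15 → ∀ {t} {y : VZ (15 * M)}, Ge e y →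
      ∀ v ∈ Bf (rd (15 * M) (M' := 15 * (M * p))) (Ln p t) y, Gv (f • v) :=
    fun {e f} h t y hy v hv =>
      Ge.gv h ((ge_rd (Dvd.dvd.mul_right ⟨f, h.symm⟩ _) hd v).1 ((mem_Bf.1 hv).2.symm ▸ hy))
  have hR : ∀ (b : VZ q) (v : VZ (15 * (M * p))), Gv v → Uz q _ b v ≠ 0 ∧
      ∃ r, r ^ 2 ^ k = Uz q _ b v := fun b v hv => by
    obtain ⟨r, -, hr⟩ := hUNITS.2.1 _ (hU b v hv).2 (2 ^ k) (by positivity)
    exact ⟨nz (hU b v hv).2, r, hr⟩
  have key := (hBIM AL LL (CL k M) (hCOK.2.2.1 k M hM hk).1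
    (IntR p × VZ q × {w // PP M w}) (VZ (15 * (M * p)))
    (fun j => Bf (rd (15 * M)) (Ln p j.1) j.2.2.1.1)
    (fun j => Bf (rd (15 * M)) (Ln p j.1) j.2.2.1.2)
    (fun j v => Uz q _ j.2.1 (5 • v)) (fun j v => Uz q _ j.2.1 (3 • v))
    (fun j => un (dv M j.2.2.1.1 j.2.2.1.2))
    (fun j => ⟨fun v hv => hR _ _ (hV (e := 3) rfl j.2.2.2.1 v hv),
      fun v hv => hR _ _ (hV (e := 5) rfl j.2.2.2.2.1 v hv)⟩) fun g hg => ?_).2
  · have e1 : (∑ t ∈ IntR p, ES0 q M (M * p) fun v v' => Ln p t v ∧ Ln p t v') =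
        ∑ j : IntR p × VZ q × {w // PP M w}, ∑ v ∈ Bf (rd (15 * M)) (Ln p j.1) j.2.2.1.1,
          ∑ v' ∈ Bf (rd (15 * M)) (Ln p j.1) j.2.2.1.2,
            Finsupp.single (Uz q (15 * (M * p)) j.2.1 (5 • v), Uz q (15 * (M * p)) j.2.1 (3 • v'),
              un (dv M j.2.2.1.1 j.2.2.1.2)) (1 : ℤ) := by
      rw [Fintype.sum_prod_type, ← sum_coe_sort]
      refine sum_congr rfl fun t _ => ?_
      rw [Fintype.sum_prod_type, ES0]
      refine sum_congr rfl fun b _ => ?_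
      refine Eq.trans ?_ (fib (rd (15 * M)) (Ln p t) (PP M) fun v v' w =>
        Finsupp.single (Uz q (15 * (M * p)) b (5 • v), Uz q (15 * (M * p)) b (3 • v'),
          un (dv M w.1 w.2)) (1 : ℤ)).symm
      refine sum_congr rfl fun v _ => sum_congr rfl fun v' _ => ?_
      simp only [PP, ge_rd h3 hd, ge_rd h5 hd, dv_rd hM15 hd]
      congr
    have e0 : E0 q M = ∑ b : VZ q, ∑ w : {w // PP M w}, Finsupp.single
        (Uz q (15 * M) b (5 • w.1.1), Uz q (15 * M) b (3 • w.1.2), un (dv M w.1.1 w.1.2))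
          (1 : ℤ) := by
      rw [hEINV.1 q M, ES0]
      refine sum_congr rfl fun b _ => ?_
      refine Eq.trans ?_ (sub (PP M) fun w => Finsupp.single
        (Uz q (15 * M) b (5 • w.1), Uz q (15 * M) b (3 • w.2), un (dv M w.1 w.2)) (1 : ℤ)).symm
      simp only [PP, and_true]
    have e2 : lb (· * un (p : ZMod M)) (Cor p (E0 q M)) =
        ∑ j : IntR p × VZ q × {w // PP M w}, Finsupp.single
          (∏ v ∈ Bf (rd (15 * M)) (Ln p j.1) j.2.2.1.1, Uz q (15 * (M * p)) j.2.1 (5 • v),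
            ∏ v ∈ Bf (rd (15 * M)) (Ln p j.1) j.2.2.1.2, Uz q (15 * (M * p)) j.2.1 (3 • v),
              un (dv M j.2.2.1.1 j.2.2.1.2)) (1 : ℤ) := by
      rw [Fintype.sum_prod_type, e0, lb, Cor, Finsupp.mapDomain_finsetSum, ← sum_coe_sort]
      refine sum_congr rfl fun t _ => ?_
      have ht := ((Int_mem hp.pos).1 t.2).1
      have e3 : ((t.1.1 : ℤ) * t.1.2.2 - 15 * t.1.2.1 * 0 : ℤ) = p := by
        rw [mul_zero, sub_zero, ← Nat.cast_mul, ht]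
      have e4 : ((t.1.2.2 : ℤ) * t.1.1 - 15 * (-t.1.2.1) * 0 : ℤ) = p := by
        rw [mul_zero, sub_zero, ← Nat.cast_mul, mul_comm, ht]
      obtain ⟨σ, hσ⟩ := exP (M := M) (a := t.1.1) (b := t.1.2.1) (c := 0) (d := t.1.2.2)
        (Nat.isCoprime_iff_coprime.2 (pc.coprime_dvd_left (Dvd.intro _ ht)))
        (by rw [e3, Int.cast_natCast]; exact pu _ pN)
      obtain ⟨τ, hτ⟩ := exV (N := q) (a := t.1.2.2) (b := -t.1.2.1) (c := 0) (d := t.1.1)
        (by rw [e4, Int.cast_natCast]; exact pu _ pq)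
      have hP : ∀ {e f : ℕ}, e * f = 15 → ∀ (b : VZ q) {y : VZ (15 * M)}, Ge e y →
          ∏ v ∈ Bf (rd (15 * M)) (Ln p t) (ac4 t.1.1 t.1.2.1 0 t.1.2.2 y),
            Uz q (15 * (M * p)) b (f • v) = pb (IntM t) (Uz q (15 * M) (τ b) (f • y)) :=
        fun {e f} h b y hy => by
          rw [hτ]
          refine hNLP q (15 * M) _ p f hq.ne (hq.c15 hMq) hp (fun h' => ?_) pq hN t t.2 b y _
            (Ge.gv h hy) fun v => ?_
          · rcases hp.dvd_mul.1 h' with h' | h'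
            · exact (hp.dvd_mul.1 h').elim p15 pN
            · exact p15 (h'.trans (Dvd.intro_left _ h))
          · rw [mem_Bf, Prod.ext_iff]
            simp [rd, ac4]
      rw [← Equiv.sum_comp τ, Finsupp.mapDomain_finsetSum, Finsupp.mapDomain_finsetSum]
      refine Eq.trans ?_ (Fintype.sum_prod_type _).symm
      refine sum_congr rfl fun b _ => ?_
      rw [Finsupp.mapDomain_finsetSum, Finsupp.mapDomain_finsetSum]
      refine Eq.trans (sum_congr rfl fun w _ => ?_) (Equiv.sum_comp σ _)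
      rw [Finsupp.mapDomain_single, Finsupp.mapDomain_single]
      simp only [hσ]
      rw [hP (e := 3) rfl b w.2.1, hP (e := 5) rfl b w.2.2.1, dv_ac hM15, e3, Int.cast_natCast,
        un_mul w.2.2.2 (pu _ pM)]
    rw [e1, e2]
    exact key
  obtain ⟨a, b, c, d, h0, h1, h2⟩ := hG g hg
  have h4 : ∀ L : ℕ, L ≠ 0 → L ∣ 15 * (M * p) * q →
      ((a * d - 15 * b * c : ℤ) : ZMod L) = cy L (cg g) := fun L hL h => by
    rw [← TNA.comp hL h (mul_ne_zero (NeZero.ne _) hq.ne), ZMod.unitsMap_val, ← h1,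
      ZMod.cast_intCast h]
  have h6 : ∀ L : ℕ, L ≠ 0 → L ∣ 15 * (M * p) * q →
      IsUnit ((a * d - 15 * b * c : ℤ) : ZMod L) := fun L hL h => h4 L hL h ▸ Units.isUnit _
  have h7 := h6 _ (NeZero.ne (15 * M)) (hd.mul_right q)
  have h8 := h6 _ (NeZero.ne (15 * (M * p))) (Nat.dvd_mul_right _ q)
  obtain ⟨σ, hσ⟩ := exP h0 h7
  obtain ⟨τ, hτ⟩ := exV (h6 q hq.ne (Nat.dvd_mul_left _ _))
  obtain ⟨e, he⟩ := exV h8
  obtain ⟨π, hπ⟩ := (hLNX (15 * (M * p)) p hp p15 (Dvd.intro_left _ hN.symm)).1 a (15 * b) c d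
    (by simpa using h8)
  have h9 : ∀ {e f : ℕ}, e * f = 15 → ∀ (t : IntR p) (β : VZ q) {y : VZ (15 * M)}, Ge e y →
      (Bf (rd (15 * M)) (Ln p (π t)) (ac4 a b c d y)).val.map
        (fun v => Uz q (15 * (M * p)) (τ β) (f • v)) =
      (Bf (rd (15 * M)) (Ln p t) y).val.map fun v => g • Uz q (15 * (M * p)) β (f • v) :=
    fun {_ f} h t β y hy => by
      rw [show Bf (rd (15 * M)) (Ln p (π t)) (ac4 a b c d y) =
        (Bf (rd (15 * M)) (Ln p t) y).map e.toEmbedding from ?_, map_val, Multiset.map_map]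
      · exact Multiset.map_congr rfl fun v hv => by
          rw [RingAut.smul_def, h2 β _ (hV h hy v hv), ac4_smul, ← he, ← hτ]; rfl
      · ext v
        obtain ⟨v, rfl⟩ := e.surjective v
        rw [mem_map_equiv, e.symm_apply_apply, mem_Bf, mem_Bf, he, rd_ac hd, (ac_inj h7).eq_iff]
        exact and_congr_left fun _ => hπ t v
  refine ⟨π.prodCongr (τ.prodCongr σ), fun j => ⟨?_, ?_, ?_⟩⟩
  · change un (dv M (σ j.2.2).1.1 (σ j.2.2).1.2) = _
    rw [hσ, dv_ac hM15, h4 M hM ((hM15.trans hd).mul_right q), un_mul j.2.2.2.2.2 (Units.isUnit _),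
      un_eq]
  · change (Bf _ _ (σ j.2.2).1.1).val.map _ = _
    rw [hσ]
    exact h9 (e := 3) rfl j.1 j.2.1 j.2.2.2.1
  · change (Bf _ _ (σ j.2.2).1.2).val.map _ = _
    rw [hσ]
    exact h9 (e := 5) rfl j.1 j.2.1 j.2.2.2.2.1

end Pool.Agent.P.MP_9c97e9_nt.K2
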