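import Pool.Agent.P.MP_9c97e9_nt.K2.IfEB
import Pool.Agent.P.MP_9c97e9_nt.KT.TPNA

/-! The parameters of the local points. -/

namespace Pool.Agent.P.MP_9c97e9_nt.K2

open scoped NNReal Matrix
open MP_8b7eba_nt.R2 KT
open MP_8b7eba_nt.Mod (xx yy an)
open KT.TPNA (lt_one v2a big rel)

namespace TPNA

theorem sd_hc (D : Dat) {k : ℕ} (hk : 1 ≤ k) {σ : GQ} (h : σ ∈ HC2 k) :
    sd D.dl σ = sd D.dl0 σ := by
  refine D.sd_eq ?_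
  have h1 := KT.TCYB.key (M := 2 ^ (k + 2)) (j := 3) (by positivity)
    (pow_dvd_pow 2 (by omega)) σ
  have h2 : cy (2 ^ (k + 2)) σ = 1 := h.2
  rw [h2, Units.val_one, ZMod.val_one_eq_one_mod,
    Nat.mod_eq_of_lt (Nat.one_lt_two_pow (by omega)), Nat.cast_one] at h1
  exact (by norm_num : (2 : ℤ_[2]) ^ 3 = 8) ▸ h1

end TPNA

open TPNA in
theorem t_PNA (hZMX : ZMX) (hTCX : TCX) (hAPX : APX) (hEV2 : EV2) (hPTS : PTS) (hGSX : GSX) :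
    PNA := by
  intro D l k ε hl hl2 hk hε
  have hn := D.n_ne
  have hq := D.qp.ne_zero
  have h15 : (15 : ℕ) ≠ 0 := by norm_num
  have hm : 15 * D.n * D.q ≠ 0 := mul_ne_zero (mul_ne_zero h15 hn) hq
  have hnl := mul_ne_zero hm hl.ne_zero
  have hK : 2 ^ (k + 2) ≠ 0 := by positivity
  have hM : 15 * (2 ^ (k + 2) * D.n) * D.q ≠ 0 := by positivity
  have hMl := mul_ne_zero hM hl.ne_zero
  have hodd : Odd l := hl.odd_of_ne_two hl2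
  have eM : 15 * (2 ^ (k + 2) * D.n) * D.q = 2 ^ (k + 2) * (15 * D.n * D.q) := by ring
  obtain ⟨hζ, hζ'⟩ := hZMX.2.2.1 (k + 2)
  obtain ⟨x, y, q, h1, h2⟩ := hPTS D (k + 2) _ ε (by omega) hζ hε
  choose t ht using fun s => hAPX.2.2 (q s) _ hMl
  have L0 := (hZMX.2.2.2 k).1.1.inf (KT.TCYB.on hnl).2
  have c1 : ∀ g ∈ HC2 k ⊓ (cy (15 * D.n * D.q * l)).ker,
      cy (15 * D.n * D.q) g = 1 ∧ cy l g = 1 := fun g hg =>
    ((hZMX.1 _ hm).2.2.2.2.1 l g hl.ne_zero).1 hg.2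
  have c0 : ∀ g ∈ HC2 k ⊓ (cy (15 * D.n * D.q * l)).ker, cy D.n g = 1 := fun g hg =>
    (((hZMX.1 _ h15).2.2.2.2.1 D.n g hn).1
      (((hZMX.1 _ (mul_ne_zero h15 hn)).2.2.2.2.1 D.q g hq).1 (c1 g hg).1).1).2
  have c2 : ∀ g ∈ HC2 k ⊓ (cy (15 * D.n * D.q * l)).ker, g D.dl0 = D.dl0 := fun g hg => by
    rw [← sd_eq_one, (hGSX D).2.1 D.n g hn dvd_rfl, c0 g hg, Units.val_one,
      ZMod.val_one_eq_one_mod, Int.natCast_mod, ← jacobiSym.mod_left, Nat.cast_one,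
      jacobiSym.one_left]
  have c3 : ∀ g ∈ HC2 k ⊓ (cy (15 * D.n * D.q * l)).ker, g D.dl = D.dl := fun g hg => by
    rw [← sd_eq_one, sd_hc D hk hg.1, sd_eq_one]
    exact c2 g hg
  have q0 : ∀ s, s = 1 ∨ s = -1 → q s ≠ 0 ∧ ‖q s‖ < 1 := fun s hs => by
    rw [← norm_ne_zero_iff, (h2 s hs).2.2.1]
    refine ⟨norm_ne_zero_iff.2 fun e => hζ.ne_one (Nat.one_lt_two_pow (by omega)) ?_,
      lt_one (by omega) hζ.pow_eq_one⟩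
    exact i2.injective ((sub_eq_zero.1 e).trans (map_one i2).symm)
  have t0 : ∀ s, s = 1 ∨ s = -1 → t s ≠ 0 ∧ ‖t s‖ < 1 := fun s hs =>
    ⟨fun e => (q0 s hs).1 (by rw [← ht, e, zero_pow hMl]), by
      have := (q0 s hs).2
      rwa [← ht, norm_pow, pow_lt_one_iff_of_nonneg (norm_nonneg _) hMl] at this⟩
  have q1 : ∀ s, s = 1 ∨ s = -1 → (t s ^ (15 * (2 ^ (k + 2) * D.n) * D.q)) ^ l ∈
      ClF (HC2 k ⊓ (cy (15 * D.n * D.q * l)).ker) := fun s hs => by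
    rw [← pow_mul, ht]
    refine Metric.mem_closure_iff.2 fun η hη => ?_
    obtain ⟨q₁, a1, a2⟩ := (h2 s hs).2.2.2.2.2 _ (half_pos hη)
    refine ⟨_, ⟨q₁, fun σ hσ => a2 σ hσ.1.1 ((hζ' σ).1 hσ.1.2) (c2 σ hσ), rfl⟩, ?_⟩
    rw [dist_comm, dist_eq_norm]
    exact a1.trans_lt (half_lt_self hη)
  obtain ⟨H1, L1, l1, r1, m1⟩ := hAPX.2.1 _ l _ L0 hodd (pow_ne_zero _ (t0 1 (.inl rfl)).1)
    (q1 1 (.inl rfl))
  obtain ⟨H2, L2, l2, r2, m2⟩ := hAPX.2.1 H1 l _ L1 hodd (pow_ne_zero _ (t0 (-1) (.inr rfl)).1)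
    (((hTCX _ L0).2.2.2.1 _ (q1 (-1) (.inr rfl))).2.2.2.2.2 H1 l1)
  have l3 := l2.trans l1
  have o1 : Odd (15 * D.n * D.q) := ((by decide : Odd 15).mul D.odd).mul D.q_odd
  refine ⟨H2, x, y, t, ⟨L2, l3.trans inf_le_left, fun g hg => c3 g (l3 hg),
    fun g hg => c2 g (l3 hg), fun σ hσ => sd_hc D hk hσ ▸ h1 σ hσ.1 ((hζ' σ).1 hσ.2),
    fun s hs => big hEV2 (q0 s hs).1 (q0 s hs).2 (h2 s hs).1⟩, ?_,
    fun g hg => ⟨eM ▸ ((hZMX.1 _ hK).2.2.2.2.1 _ g hm).2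
      (Nat.Coprime.pow_left _ (Nat.coprime_two_left.2 o1)) (l3 hg).1.2 (c1 g (l3 hg)).1,
      ((hZMX.1 _ hK).2.2.2.2.1 D.n g hn).2
      (Nat.Coprime.pow_left _ (Nat.coprime_two_left.2 D.odd)) (l3 hg).1.2 (c0 g (l3 hg)),
      (c1 g (l3 hg)).2⟩, fun s hs => ⟨(t0 s hs).1, (t0 s hs).2, ?_,
      v2a hEV2 hMl (t0 s hs).2 (ht s ▸ (h2 s hs).1),
      v2a hEV2 hMl (t0 s hs).2 (ht s ▸ (h2 s hs).2.1), ht s ▸ (h2 s hs).2.2.2.1⟩⟩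
  · rw [← Subgroup.relIndex_mul_relIndex _ _ _ l3 inf_le_left,
      ← Subgroup.relIndex_mul_relIndex _ _ _ l2 l1]
    exact (Nat.mul_le_mul (Nat.mul_le_mul r2 r1) (rel _ hnl)).trans_eq (by ring)
  · rcases hs with rfl | rfl
    exacts [((hTCX _ L1).2.2.2.1 _ m1).2.2.2.2.2 H2 l2, m2]

end Pool.Agent.P.MP_9c97e9_nt.K2
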