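import Pool.Agent.P.MP_9c97e9_nt.K2.IfEB
import Pool.Agent.P.MP_9c97e9_nt.KT.TPRD

/-! The values of the units are limits of finite products. -/

namespace Pool.Agent.P.MP_9c97e9_nt.K2

open scoped NNReal
open MP_8b7eba_nt.R2 KT
open MP_8b7eba_nt.R1 (Zb QE ze)
open Finset PowerSeries
open KT.TPRD (cl_refl pC i2_pO norm_pC cl_pC ev_pS)

namespace TPRD

theorem cl_pow {η : ℝ} {x y : ℂ_[2]} (hη : η < 1) (h : KT.TPRD.cl η x y) (n : ℕ) :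
    KT.TPRD.cl η (x ^ n) (y ^ n) := by
  simpa only [zpow_natCast] using h.zpow hη n

end TPRD

open TPRD in
theorem t_PRD (hUQ : UQ) (hEV2 : EV2) (hZMX : ZMX) : PRD := by
  intro q N b₁ b₂ i₁ i₂ hq hN hc hi
  have hM : N * q ≠ 0 := mul_ne_zero hN hq
  obtain ⟨-, -, L₁, e, A, hQ, hd, hX⟩ := hUQ q N b₁ b₂ i₁ i₂ hq hN hc hi
  refine ⟨e - L₁, hd, fun T u h0 hT hV η hη hη1 => ?_⟩
  obtain ⟨⟨φ, hφ⟩, eX, eC, hA⟩ := hEV2.2 T hT
  have hv := (hA A).2.2.2.2.2 (N * q) L₁ _ _ hM h0 hV hQ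
  have hz : ∀ a, ‖i2 (zM (N * q) a)‖ = 1 := fun a => by
    rw [← KT.t_BAS.2.2.1, ((hZMX.1 (N * q) hM).2.1 a).2, NNReal.coe_one]
  have bn := aB_not_dvd hc hi b₁
  have p0 : 0 < ‖T‖ := norm_pos_iff.2 h0
  have η0 : (0 : ℝ) < η := hη
  have η1 : (η : ℝ) < 1 := hη1
  obtain ⟨n, hn⟩ := exists_pow_lt_of_lt_one η0 hT
  refine ⟨n + e, fun L hL t ht => ?_⟩
  have ct : KT.TPRD.cl η (i2 t) T := by
    rw [KT.TPRD.cl, show i2 t / T - 1 = (i2 t - T) / T by field_simp, norm_div, div_le_iff₀ p0]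
    exact ht
  set c : ℂ_[2] := (-1) ^ (JJ q N b₁ i₁).natAbs * i2 (zM (N * q) (AA q N b₁ b₂ i₁ i₂)) with hcc
  have nc : ‖c‖ = 1 := by rw [hcc, norm_mul, hz, norm_pow, norm_neg, norm_one, one_pow, one_mul]
  have nz : ∀ {y : ℂ_[2]}, ‖y‖ = 1 → y ≠ 0 := fun h =>
    norm_ne_zero_iff.1 (by rw [h]; exact one_ne_zero)
  have qn := fun m => norm_pC hz (bn m) hT (aB q N b₂ i₂ m) L
  have cn := fun m => cl_pC η0.le η1 hz (bn m) hT ct (aB q N b₂ i₂ m) L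
  obtain ⟨R, hR⟩ := hX L
  have hR' := congrArg φ hR
  have eX' : φ X = T := by rw [hφ, eX]
  have eC' : ∀ a, φ (C a) = i2 (zo a) := fun a => by rw [hφ, eC]
  simp only [pU, map_sub, map_mul, map_pow, map_neg, map_one, ev_pS φ eX' eC', eX', eC'] at hR'
  rw [hφ A, ← hv, ← zM, ← hcc] at hR'
  generalize hP : (fun m => pC (N * q) (aB q N b₂ i₂ m) (15 * aB q N b₁ i₁ m) L T) = P
  have hP' : ∀ m, pC (N * q) (aB q N b₂ i₂ m) (15 * aB q N b₁ i₁ m) L T = P m :=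
    fun m => congrFun hP m
  simp only [hP'] at hR' qn cn
  have k1 : KT.TPRD.cl η (i2 u) (c * T ^ ((e : ℤ) - L₁) * (P 1 * P 3 ^ 3 / (P 2 ^ 3 * P 4))) := by
    have := nz (qn 1)
    have := nz (qn 2)
    have := nz (qn 3)
    have := nz (qn 4)
    have := nz nc
    rw [KT.TPRD.cl, zpow_sub₀ h0, zpow_natCast, zpow_natCast, show
      i2 u / (c * (T ^ e / T ^ L₁) * (P 1 * P 3 ^ 3 / (P 2 ^ 3 * P 4))) - 1 =
      (i2 u * T ^ L₁ * (P 2 ^ 3 * P 4) - c * T ^ e * (P 1 * P 3 ^ 3)) /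
        (c * T ^ e * (P 1 * P 3 ^ 3)) by field_simp, hR', norm_div]
    simp only [norm_mul, norm_pow, qn, nc, one_mul, mul_one, one_pow]
    rw [div_le_iff₀ (pow_pos p0 _), hφ]
    calc ‖T‖ ^ L * ‖ev2 R T‖ ≤ ‖T‖ ^ L := mul_le_of_le_one_right (by positivity) (hA R).1
      _ ≤ ‖T‖ ^ (n + e) := pow_le_pow_of_le_one p0.le hT.le hL
      _ ≤ _ := by rw [pow_add]; gcongr
  have k2 := ((cl_refl η0.le (nz nc)).mul η1 (ct.zpow η1 ((e : ℤ) - L₁))).mul η1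
    (((cn 1).mul η1 (cl_pow η1 (cn 3) 3)).div η1 ((cl_pow η1 (cn 2) 3).mul η1 (cn 4)))
  have k3 := k1.trans η1 (k2.symm η1)
  rw [← NNReal.coe_le_coe, KT.t_BAS.2.2.1]
  simpa only [KT.TPRD.cl, hcc, piO, p4, map_sub, map_div₀, map_mul, map_pow, map_neg, map_one, map_zpow₀,
    i2_pO] using k3

end Pool.Agent.P.MP_9c97e9_nt.K2
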