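import Pool.Agent.P.MP_9c97e9_nt.K2.IfEB
import Pool.Agent.P.MP_9c97e9_nt.KT.TRVH

/-! The invariant on the small group. -/

namespace Pool.Agent.P.MP_9c97e9_nt.K2

open scoped NNReal Matrix
open MP_8b7eba_nt.R2 KT
open KT.TRVH (ec_sub ec_int ec_sum zc_mono bd_zero)

namespace TRVH

/-- the weighted product of the invariants -/
theorem prod_eq {G : Type} [CommGroup G] [Fintype G] (ρ : G → Om) (r : G → ℚ_[2]) (c : G → ℤ) (u : G)
    (h0 : ∀ δ, ρ δ ≠ 0) (h1 : ∀ δ, ρ δ = ρ (δ * u) * ec (r δ - r (δ * u)))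
    (h2 : ∀ δ, c (δ * u) = -c δ) : ∏ δ, ρ δ ^ (2 * c δ) = ec (∑ δ, 2 * (c δ : ℚ_[2]) * r δ) := by
  have e1 : ∏ δ, ρ δ ^ c δ = ∏ δ, ρ (δ * u) ^ (-c δ) := by
    rw [← Equiv.prod_comp (Equiv.mulRight u)]
    simp only [Equiv.coe_mulRight, h2]
  have e2 : ∑ δ, (c δ : ℚ_[2]) * r δ = ∑ δ, -(c δ * r (δ * u)) := by
    rw [← Equiv.sum_comp (Equiv.mulRight u)]
    simp only [Equiv.coe_mulRight, h2, Int.cast_neg, neg_mul]
  simp only [two_mul, zpow_add₀ (h0 _), add_mul, Finset.prod_mul_distrib, Finset.sum_add_distrib]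
  nth_rewrite 2 [e1, e2]
  rw [← Finset.prod_mul_distrib, ← Finset.sum_add_distrib, ec_sum]
  refine Finset.prod_congr rfl fun δ _ => ?_
  rw [← sub_eq_add_neg, ← mul_sub, ec_int, zpow_neg, ← div_eq_mul_inv, ← div_zpow, h1 δ,
    mul_div_cancel_left₀ _ (h0 _)]

end TRVH

open K2.TRVH in
theorem t_RVH (hRESX : RESX) (hRVX : RVX) (hZMX : ZMX) (hCUPB : CUPB) (hTWE : TWE) (hWCP : WCP)
    (hZTW : ZTW) (hUZX : UZX) : RVH := by
  intro D l k zt m H τ τ' s s' z Y v W r r' hk hzt hm hz hY hH hle hdl hcy hs hs' hv hYv hr hr'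
  have fx := D.fix_dl
  have hM : 2 ^ (k + 2) * D.n ≠ 0 := mul_ne_zero (by positivity) D.n_ne
  have : NeZero (2 ^ (k + 2) * D.n) := ⟨hM⟩
  have L2 : LH (HC2 k) k := (hRVX _ _ (hZMX.2.2.2 k).1).1 k (by omega)
  have LHk : LH H k := (hRVX _ _ L2).2.1 H hH hle
  obtain ⟨t1, t2⟩ := hTWE D l k zt m hk hzt hm
  have hYc : D.ZC k Y := ⟨hY.int, hY.sm.imp fun N e => ⟨e.1, fun g hg n hn h η => by
    rw [e.2 g hg n hn h, sub_self, norm_zero]; positivity⟩, hY.co⟩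
  obtain ⟨w1, w2', w3⟩ := hWCP D k _ Y z W t1 hYc hz
  have hZ := fun δ => hZTW D.q l k _ zt H τ τ' s s' D.dl δ hzt LHk hM
    ((pow_dvd_pow 2 (by omega)).mul_right _) hcy hdl hs hs' (hr.1 δ) (hr'.1 δ)
  obtain ⟨c1, c2⟩ := hCUPB D.dl H k fx LHk
  have y1 := zc_mono w2' hle
  have a1 := (c2 _ Finset.univ (fun δ => 2 * D.cW k W δ) (fun δ g => zt g δ) _
    (fun δ _ => (hZ δ).1) y1).1
  have hmW : ‖∑ ε, (W ε : ℚ_[2]) • m ε‖ ≤ 1 :=
    IsUltrametricDist.norm_sum_le_of_forall_le_of_nonneg zero_le_one fun ε _ => by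
      rw [norm_smul]
      exact mul_le_one₀ (Padic.norm_int_le_one _) (norm_nonneg _) (hm ε)
  obtain ⟨-, -, e1⟩ := (c1 _ _ a1 y1).2 (fun g => ∑ ε, (W ε : ℚ_[2]) • D.xG k zt m g ε)
    (fun g => Y g 1) _ 0 hmW (by simp) (fun g hg => by
      rw [t2 W g (hle hg), finsum_eq_sum_of_fintype]; simp)
    (fun g _ => by rw [bd_zero]; simp)
  obtain ⟨-, u1, e2⟩ := (c1 _ _ a1 y1).2 _ (fun h => uN k (s' h) - uN k (s h)) 0 v (by simp) hv
    (fun g _ => by rw [bd_zero, sub_self]; simp) hYv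
  rw [w3, rv, ← hRESX _ H _ L2.1 hH hle
    ((hRVX _ _ L2).2.2.1 _ ((hCUPB D.dl _ k fx L2).1 _ _ w1 w2').1).1]
  change rv H k _ = _
  rw [e1, ← e2, (c2 _ Finset.univ (fun δ => 2 * D.cW k W δ) (fun δ g => zt g δ) _
    (fun δ _ => (hZ δ).1) u1).2, finsum_eq_sum_of_fintype]
  obtain ⟨u, hu⟩ := hUZX D k hk
  have key : ∀ τ r, RR D.q τ H k l (2 ^ (k + 2) * D.n) r →
      ∏ δ, rv H k (fv D.q τ H k l _ δ) ^ (2 * D.cW k W δ) =
        ec (∑ δ, 2 * (D.cW k W δ : ℚ_[2]) * r δ) := fun τ r h =>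
    prod_eq _ r _ u (fun δ e => by
      have := ((hRVX _ _ LHk).2.2.1 _ (h.1 δ)).2.1
      rw [e, zero_pow (by positivity)] at this
      exact zero_ne_one this) (fun δ => h.2 _ _ (hu δ).1) fun δ => (hu δ).2 W
  simp only [fun δ => (hZ δ).2, div_zpow, mul_sub]
  rw [Finset.prod_div_distrib, key _ _ hr, key _ _ hr', Finset.sum_sub_distrib, ec_sub]

end Pool.Agent.P.MP_9c97e9_nt.K2
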