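import Pool.Agent.P.MP_9c97e9_nt.K2.IfEC
import Pool.Agent.P.MP_9c97e9_nt.KT.TSHX

/-! The action on the indices. -/

namespace Pool.Agent.P.MP_9c97e9_nt.K2

open MP_8b7eba_nt.R2 KT
open KT.TSHX (md eq_of)

namespace TSHY

variable {q M : ℕ} {i i' i'' : IT} {j j' : ℤ}

/-- the shift relation -/
def R (q M : ℕ) (j : ℤ) (i i' : IT) : Prop :=
  i'.1.1 = i.1.1 ∧ i'.2.1.1 = i.2.1.1 ∧ i'.2.2.1 = i.2.2.1 ∧
    (q : ℤ) ∣ i'.1.2 - (i.1.2 + 15 * i.1.1 * j) ∧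
    ((15 * M : ℕ) : ℤ) ∣ i'.2.1.2 - (i.2.1.2 + 15 * i.2.1.1 * j) ∧
    ((15 * M : ℕ) : ℤ) ∣ i'.2.2.2 - (i.2.2.2 + 15 * i.2.2.1 * j)

theorem R.det (h : R q M j i i') : (M : ℤ) ∣ ((i'.2.1.1 : ℤ) * i'.2.2.2 - i'.2.1.2 * i'.2.2.1) -
    ((i.2.1.1 : ℤ) * i.2.2.2 - i.2.1.2 * i.2.2.1) := by
  obtain ⟨-, h2, h3, -, ⟨a, h4⟩, b, h5⟩ := h
  rw [h2, h3]
  push_cast at h4 h5
  exact ⟨15 * (i.2.1.1 * b - a * i.2.2.1), by
    linear_combination (i.2.1.1 : ℤ) * h5 - (i.2.2.1 : ℤ) * h4⟩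

theorem R.dI (h : R q M j i i') : dI M i' = dI M i := by
  have := (ZMod.intCast_eq_intCast_iff_dvd_sub _ _ M).2 h.det
  push_cast at this
  rw [K2.dI, K2.dI, this]

theorem dv {e a b c : ℕ} (he : e ∣ 15) (hb : e ∣ b)
    (h : ((15 * M : ℕ) : ℤ) ∣ a - (b + 15 * c * j)) : e ∣ a := by
  have h1 : (e : ℤ) ∣ 15 := Int.natCast_dvd_natCast.2 he
  have h2 : (e : ℤ) ∣ ((15 * M : ℕ) : ℤ) := Int.natCast_dvd_natCast.2 (he.mul_right M)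
  refine Int.natCast_dvd_natCast.1 (((h2.trans h).add ((Int.natCast_dvd_natCast.2 hb).add
    (h1.mul_right (c * j)))).trans (dvd_of_eq (by ring)))

theorem ex (hq : q ≠ 0) (hM : M ≠ 0) (j : ℤ) (i : Ix q M) : ∃ i' : Ix q M, R q M j i i' := by
  obtain ⟨⟨⟨h1, -⟩, ⟨h2, -⟩, h3, -⟩, ⟨h4, h4'⟩, ⟨h6, h6'⟩, h5⟩ := mem_Ix.1 i.2
  have h0 : 15 * M ≠ 0 := by omega
  obtain ⟨c, hc, hc'⟩ := md hq (i.1.1.2 + 15 * i.1.1.1 * j)
  obtain ⟨a, ha, ha'⟩ := md h0 (i.1.2.1.2 + 15 * i.1.2.1.1 * j)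
  obtain ⟨b, hb, hb'⟩ := md h0 (i.1.2.2.2 + 15 * i.1.2.2.1 * j)
  have r : R q M j i ((i.1.1.1, c), (i.1.2.1.1, a), i.1.2.2.1, b) :=
    ⟨rfl, rfl, rfl, hc', ha', hb'⟩
  refine ⟨⟨((i.1.1.1, c), (i.1.2.1.1, a), i.1.2.2.1, b), mem_Ix.2 ⟨⟨⟨h1, hc⟩, ⟨h2, ha⟩, h3, hb⟩,
    ⟨h4, dv (by norm_num) h4' ha'⟩, ⟨h6, dv (by norm_num) h6' hb'⟩, ?_⟩⟩, r⟩
  obtain ⟨c, hc⟩ := r.det
  rw [sub_eq_iff_eq_add'.1 hc]
  exact h5.add_mul_left_left c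

theorem uniq {i' i'' : Ix q M} (h : R q M j i i') (h' : R q M j' i i'')
    (e : ((15 * M * q : ℕ) : ℤ) ∣ j - j') : i' = i'' := by
  obtain ⟨⟨⟨-, a0⟩, ⟨-, a1⟩, -, a2⟩, -⟩ := mem_Ix.1 i'.2
  obtain ⟨⟨⟨-, b0⟩, ⟨-, b1⟩, -, b2⟩, -⟩ := mem_Ix.1 i''.2
  obtain ⟨h1, h2, h3, h0, h4, h5⟩ := h
  obtain ⟨g1, g2, g3, g0, g4, g5⟩ := h'
  have e1 : (q : ℤ) ∣ j - j' := (Int.natCast_dvd_natCast.2 (dvd_mul_left _ _)).trans e
  have e2 : ((15 * M : ℕ) : ℤ) ∣ j - j' := (Int.natCast_dvd_natCast.2 (dvd_mul_right _ _)).trans e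
  refine Subtype.ext (Prod.ext (Prod.ext (h1.trans g1.symm) (eq_of a0 b0 ?_)) (Prod.ext
    (Prod.ext (h2.trans g2.symm) (eq_of a1 b1 ?_)) (Prod.ext (h3.trans g3.symm) (eq_of a2 b2 ?_))))
  · exact ((h0.sub g0).add (e1.mul_left (15 * i.1.1))).trans (dvd_of_eq (by ring))
  · exact ((h4.sub g4).add (e2.mul_left (15 * i.2.1.1))).trans (dvd_of_eq (by ring))
  · exact ((h5.sub g5).add (e2.mul_left (15 * i.2.2.1))).trans (dvd_of_eq (by ring))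

theorem R.trans (h : R q M j i i') (h' : R q M j' i' i'') : R q M (j + j') i i'' := by
  obtain ⟨h1, h2, h3, h0, h4, h5⟩ := h
  obtain ⟨g1, g2, g3, g0, g4, g5⟩ := h'
  rw [h1] at g0
  rw [h2] at g4
  rw [h3] at g5
  refine ⟨g1.trans h1, g2.trans h2, g3.trans h3, ?_, ?_, ?_⟩
  · exact (h0.add g0).trans (dvd_of_eq (by ring))
  · exact (h4.add g4).trans (dvd_of_eq (by ring))
  · exact (h5.add g5).trans (dvd_of_eq (by ring))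

theorem refl (q M : ℕ) (i : IT) : R q M 0 i i := ⟨rfl, rfl, rfl, by simp, by simp, by simp⟩

theorem R.fix (hi : i ∈ Ix q M) (h : R q M j i i) : (M : ℤ) ∣ j := by
  obtain ⟨-, -, -, -, ⟨a, h4⟩, b, h5⟩ := h
  push_cast at h4 h5
  refine (mem_Ix.1 hi).2.2.2.symm.dvd_of_dvd_mul_left ⟨i.2.1.2 * b - a * i.2.2.2, ?_⟩
  refine mul_left_cancel₀ (show (15 : ℤ) ≠ 0 by norm_num) ?_
  linear_combination (i.2.1.2 : ℤ) * h5 - (i.2.2.2 : ℤ) * h4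

/-- the stabiliser -/
def stab (H : Subgroup GQ) {J : Type} (a : GQ → J → J) (h1 : ∀ x, a 1 x = x)
    (h2 : ∀ g ∈ H, ∀ h ∈ H, ∀ x, a (g * h) x = a g (a h x)) (x : J) : Subgroup GQ where
  carrier := {g | g ∈ H ∧ a g x = x}
  one_mem' := ⟨H.one_mem, h1 x⟩
  mul_mem' := fun {g h} hg hh => ⟨H.mul_mem hg.1 hh.1, by rw [h2 g hg.1 h hh.1, hh.2, hg.2]⟩
  inv_mem' := fun {g} hg => ⟨H.inv_mem hg.1, by
    conv_lhs => rw [← hg.2]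
    rw [← h2 _ (H.inv_mem hg.1) g hg.1, inv_mul_cancel, h1]⟩

end TSHY

open TSHY in
theorem t_SHY (hZMX : ZMX) : SHY := by
  intro q M hq hM
  have : NeZero M := ⟨hM⟩
  have hW : 15 * M * q ≠ 0 := by positivity
  obtain ⟨hp, hz, -, hcy, -⟩ := hZMX.1 _ hW
  refine ⟨fun i hi => ?_, fun H t hH ht hf => ?_⟩
  · obtain ⟨-, -, -, h2⟩ := mem_Ix.1 hi
    have h4 : IsUnit ((i.2.1.1 : ZMod M) * i.2.2.2 - i.2.1.2 * i.2.2.1) := by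
      have := (ZMod.coe_int_isUnit_iff_isCoprime _ M).2 h2.symm
      push_cast at this
      exact this
    rw [← ZMod.intCast_eq_intCast_iff_dvd_sub, dI, un, dif_pos h4]
    simp
  set W := 15 * M * q with hWd
  have h0 : zM W 1 ≠ 0 := hp.ne_zero hW
  have hd : ∀ a b : ℤ, zM W a * t = zM W b * t ↔ (W : ℤ) ∣ a - b := fun a b => by
    rw [mul_left_inj' ht, (hz a).1, (hz b).1, ← hp.zpow_eq_one_iff_dvd, zpow_sub₀ h0,
      div_eq_one_iff_eq (zpow_ne_zero _ h0)]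
  have e0 : zM W 0 * t = t := by rw [(hz 0).1, zpow_zero, one_mul]
  have hj : ∀ σ : GQ, ∃ j : ℤ, σ ∈ H → σ t = zM W j * t := fun σ => by
    by_cases h : σ ∈ H
    · have : NeZero W := ⟨hW⟩
      obtain ⟨c, -, hc⟩ := hp.eq_pow_of_pow_eq_one (ξ := σ t / t) (by
        rw [div_pow, ← map_pow, hf σ h, div_self (pow_ne_zero _ ht)])
      exact ⟨c, fun _ => by rw [(hz c).1, zpow_natCast, hc, div_mul_cancel₀ _ ht]⟩
    · exact ⟨0, fun h' => absurd h' h⟩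
  choose j hj using hj
  choose sh hsh using ex hq hM
  have hm : ∀ g ∈ H, ∀ h ∈ H, zM W (j (g * h)) * t = zM W (j h + j g) * t := fun g hg h hh => by
    rw [← hj _ (H.mul_mem hg hh), AlgEquiv.mul_apply, hj h hh, map_mul, hj g hg, (hz (j h)).1,
      map_zpow₀, (hcy g).1 (hH g hg), (hz (j g)).1, (hz (j h + j g)).1, zpow_add₀ h0, mul_assoc]
  have a1 : ∀ i, sh (j 1) i = i := fun i =>
    uniq (hsh _ i) (refl q M i) ((hd _ _).1 (by rw [← hj 1 H.one_mem, e0]; rfl))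
  have a2 : ∀ g ∈ H, ∀ h ∈ H, ∀ i, sh (j (g * h)) i = sh (j g) (sh (j h) i) := fun g hg h hh i =>
    uniq (hsh _ i) ((hsh _ i).trans (hsh _ _)) ((hd _ _).1 (hm g hg h hh))
  refine ⟨j, fun σ => sh (j σ), stab H (fun σ => sh (j σ)) a1 a2, ⟨a1, a2, ?_, fun i g => Iff.rfl⟩,
    fun i => ⟨fun g hg => ⟨hg.1, ?_⟩, ?_⟩, fun σ hσ => ⟨hj σ hσ, fun i => ?_⟩⟩
  · obtain ⟨N, hN, hN'⟩ := exists_ON_fix {t}
    refine ⟨N, hN, fun g hg n hn hnN => funext fun i => uniq (hsh _ i) (hsh _ i) ((hd _ _).1 ?_)⟩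
    rw [← hj _ (H.mul_mem hg hn), ← hj g hg, AlgEquiv.mul_apply, hN' t (by simp) n hnN]
  · exact uniq (hsh _ i) (refl q M i) ((hd _ _).1 (by rw [← hj g hg.1, e0]; exact hg.2))
  · set S := stab H (fun σ => sh (j σ)) a1 a2 i
    set u : Omˣ := Units.mk0 _ h0 with hu
    have hv : ∀ a : ℤ, ((u ^ a : Omˣ) : Om) = zM W a := fun a => by
      rw [Units.val_zpow_eq_zpow_val, (hz a).1]; rfl
    let ψ : S →* Omˣ := MonoidHom.mk' (fun g => u ^ j g) fun g h => Units.ext (by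
      rw [← zpow_add, hv, hv, add_comm]
      exact mul_right_cancel₀ ht (hm g g.2.1 h h.2.1))
    have k1 : (H ⊓ MulAction.stabilizer GQ t).subgroupOf S = ψ.ker := by
      ext g
      rw [Subgroup.mem_subgroupOf, MonoidHom.mem_ker, ← Units.val_inj]
      change (g.1 ∈ H ∧ g.1 t = t) ↔ ((u ^ j g : Omˣ) : Om) = 1
      rw [hv, hj g g.2.1, and_iff_right g.2.1, mul_eq_right₀ ht]
    have k2 : ψ.range ≤ Subgroup.zpowers (u ^ (M : ℤ)) := by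
      rintro _ ⟨g, rfl⟩
      have := hsh (j g) i
      rw [show sh (j g) i = i from g.2.2] at this
      obtain ⟨c, hc⟩ := this.fix i.2
      exact ⟨c, by change _ = u ^ j g; rw [hc, zpow_mul]⟩
    rw [Subgroup.relIndex, k1, Subgroup.index_ker]
    refine (Subgroup.card_dvd_of_le k2).trans ?_
    rw [Nat.card_zpowers, orderOf_dvd_iff_pow_eq_one, ← zpow_natCast, ← zpow_mul, ← Units.val_inj,
      hv, (hz _).1, Units.val_one, hp.zpow_eq_one_iff_dvd, hWd]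
    exact dvd_of_eq (by push_cast; ring)
  · obtain ⟨h1, h2, h3, h0, h4, h5⟩ := hsh (j σ) i
    exact ⟨h1, h2, h3, h0, h4, h5, (hsh (j σ) i).dI⟩

end Pool.Agent.P.MP_9c97e9_nt.K2
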