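import Pool.Agent.P.MP_9c97e9_nt.K2.IfP
import Pool.Agent.P.MP_9c97e9_nt.KT.TTEL
import Pool.Agent.P.MP_9c97e9_nt.KT.TBAS

/-! The trace computation. -/

namespace Pool.Agent.P.MP_9c97e9_nt.K2

open MP_8b7eba_nt.R2 KT
open Finset
open KT.TTEL (cls main)

namespace TTEL

theorem j8 {e : ℤ} (he : e = 1 ∨ e = -1 ∨ e = 2 ∨ e = -2) {a b : ℕ} (ha : Odd a) (hb : Odd b)
    (h : a ≡ b [MOD 8]) : jacobiSym e a = jacobiSym e b := by
  rw [jacobiSym.mod_right _ ha, jacobiSym.mod_right e hb]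
  congr 1
  have h8 : 4 * e.natAbs ∣ 8 := by rcases he with rfl | rfl | rfl | rfl <;> norm_num
  exact h.of_dvd h8

theorem jsq {e : ℤ} (he : e = 1 ∨ e = -1 ∨ e = 2 ∨ e = -2) {a : ℕ} (ha : Odd a) :
    jacobiSym e a = 1 ∨ jacobiSym e a = -1 := by
  refine jacobiSym.eq_one_or_neg_one ?_
  have h2 : Nat.Coprime 2 a := ha.coprime_two_left
  rcases he with rfl | rfl | rfl | rfl
  · simp
  · simp
  · exact_mod_cast h2
  · rw [Int.neg_gcd]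
    exact_mod_cast h2

theorem odd_val {k : ℕ} (δ : (ZMod (2 ^ (k + 2)))ˣ) : Odd (δ : ZMod (2 ^ (k + 2))).val :=
  Nat.coprime_two_right.1 ((ZMod.val_coe_unit_coprime δ).coprime_dvd_right
    (dvd_pow_self 2 (by omega)))

theorem ce_div {e : ℤ} (he : e = 1 ∨ e = -1 ∨ e = 2 ∨ e = -2) {k : ℕ} (hk : 1 ≤ k)
    (u : (ZMod (2 ^ (k + 2)))ˣ) {ν : ℕ} (hν : Odd ν) :
    ce e (u * (un (ν : ZMod (2 ^ (k + 2))))⁻¹) = ce e u * jacobiSym e ν := by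
  have hu : IsUnit (ν : ZMod (2 ^ (k + 2))) :=
    (ZMod.isUnit_iff_coprime _ _).2 (Nat.Coprime.pow_right _ hν.coprime_two_right)
  have h1 : ((un (ν : ZMod (2 ^ (k + 2))) : (ZMod (2 ^ (k + 2)))ˣ) : ZMod (2 ^ (k + 2))) = ν := by
    simp [un, hu]
  generalize un (ν : ZMod (2 ^ (k + 2))) = v at h1 ⊢
  obtain ⟨ε, rfl⟩ : ∃ ε, u = ε * v := ⟨u * v⁻¹, by simp⟩
  have h2 : ce e (ε * v) = ce e ε * jacobiSym e ν := by
    rw [ce, ce, ← jacobiSym.mul_right' e (odd_val ε).pos.ne' hν.pos.ne']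
    refine j8 he (odd_val _) ((odd_val ε).mul hν)
      (Nat.ModEq.of_dvd (pow_dvd_pow 2 (by omega : 3 ≤ k + 2)) ?_)
    rw [← ZMod.natCast_eq_natCast_iff, ZMod.natCast_zmod_val, Units.val_mul, h1]
    push_cast
    rw [ZMod.natCast_zmod_val]
  rw [h2, mul_inv_cancel_right]
  rcases jsq he hν with h | h <;> simp [h]

theorem ka_ne (d : ℤ) : (ka d : ℚ_[2]) ≠ 0 := by
  rw [ka]
  split_ifs <;> norm_num

end TTEL

open TTEL in
theorem t_TEL (hGSX : GSX) (hTEL1 : TEL1) (hTEL2 : TEL2) (hTEL4 : TEL4) : TEL := by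
  intro D
  obtain ⟨⟨ha, hb⟩, -⟩ := KT.t_BAS
  obtain ⟨-, -, -, hj, -⟩ := hGSX D
  have hodd : Odd D.n := D.odd
  have hn0 : D.n ≠ 0 := hodd.pos.ne'
  have he : jacobiSym 2 D.n = 1 ∨ jacobiSym 2 D.n = -1 := jsq (by simp) hodd
  set e := jacobiSym 2 D.n with hee
  have hne : ‖(e : ℚ_[2]) * al0‖ = 1 := by
    rcases he with h | h <;> simp [h, ha]
  have h21 : ‖(2 : ℚ_[2])‖ < 1 := by simpa using Padic.norm_p_lt_one (p := 2)
  have h2a : ‖(2 : ℚ_[2]) - e * al0‖ = 1 := by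
    rw [sub_eq_add_neg, IsUltrametricDist.norm_add_eq_max_of_norm_ne_norm
      (by rw [norm_neg, hne]; exact h21.ne), norm_neg, hne, max_eq_right h21.le]
  have h1a : (1 : ℚ_[2]) - e * al0 ≠ 0 := by
    intro h
    rcases he with h' | h' <;> rw [h'] at h
    · have : al0 = 1 := by simpa using (sub_eq_zero.1 h).symm
      rw [this] at hb
      norm_num at hb
    · have : al0 = -1 := by
        have h3 : (1 : ℚ_[2]) + al0 = 0 := by simpa using h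
        linear_combination h3
      rw [this] at hb
      norm_num at hb
  refine ⟨D.n * (1 - e * al0) * ka D.d, 1,
    mul_ne_zero (mul_ne_zero (Nat.cast_ne_zero.2 hn0) h1a) (ka_ne _), fun k ζ hk hζ => ?_⟩
  obtain ⟨κ, s, hs⟩ := hTEL1 D k ζ hk hζ
  have hint : ∀ m : ℤ, ‖(m : ℚ_[2])‖ ≤ 1 := Padic.norm_int_le_one
  refine ⟨-κ⁻¹, (s : ℤ) * ce D.e (-κ⁻¹), -((s : ℤ) * D.n * (1 - e * al0) *
    (e ^ k * YY D.d D.n 0 0 * (e + 3) / (2 - e * al0))), ?_, ?_, fun W H hW hH hH' => ?_⟩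
  · rcases Int.units_eq_one_or s with rfl | rfl <;>
      rcases jsq D.he (odd_val (-κ⁻¹)) with h | h <;> simp [ce, h, -Units.val_neg]
  · have h3 : ‖(1 : ℚ_[2]) - e * al0‖ ≤ 1 := by
      rw [sub_eq_add_neg]
      exact (IsUltrametricDist.norm_add_le_max _ _).trans (by simp [hne, -norm_mul])
    have h5 := hint ((s : ℤ) * D.n * (e ^ k * YY D.d D.n 0 0 * (e + 3)))
    have h6 : (s : ℤ) * D.n * (1 - e * al0) * (e ^ k * YY D.d D.n 0 0 * (e + 3) / (2 - e * al0)) =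
        (((s : ℤ) * D.n * (e ^ k * YY D.d D.n 0 0 * (e + 3)) : ℤ) : ℚ_[2]) * (1 - e * al0) /
          (2 - e * al0) := by
      push_cast
      ring
    rw [norm_neg, h6, norm_div, h2a, div_one, norm_mul]
    exact mul_le_one₀ h5 (norm_nonneg _) h3
  have hH2 : ∀ g ∈ H, cy (2 ^ (k + 2)) g = 1 := fun g hg => by
    rw [← TCYB.comp (by positivity) (Nat.dvd_mul_right _ D.n) (by positivity), hH' g hg, map_one]
  let x : (ZMod (2 ^ (k + 2)))ˣ → ℕ := fun ε =>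
    ((κ * ε : (ZMod (2 ^ (k + 2)))ˣ) : ZMod (2 ^ (k + 2))).val
  let co : ℕ → ℤ := fun ν => jacobiSym ν D.n * nx D.d ν (D.n * 2 ^ (k + 2) : ℕ)
  let W' : (ZMod (2 ^ (k + 2)))ˣ → ℤ := fun ε => ce D.e ε * W ε
  let Φ : Om → ℂ_[2] := fun z => i2 (((s : ℤ) * D.n : ℤ) * ∑ ε, W' ε *
    ∑ ν ∈ range (D.n * 2 ^ (k + 2)), co ν * z ^ (ν * x ε)) * muP D.al (k + 2) (i2 z)
  have h7 : (fun g : GQ => i2 (g (D.XW k W * D.dl0)) * muP D.al (k + 2) (i2 (g ζ))) =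
      fun g : GQ => Φ (g ζ) := by
    funext g
    simp only [Φ, hs W hW, map_mul, map_sum, map_pow, map_intCast, map_natCast, co, x, W',
      Int.cast_mul, Int.cast_natCast]
  rw [h7, hTEL2.1 _ ζ H Φ hζ hH hH2, mul_assoc, map_mul, map_natCast]
  congr 1
  have h9 : ∀ ε : (ZMod (2 ^ (k + 2)))ˣ, (2 ^ (k + 2) : ℤ) ∣
      x ε * ((-κ⁻¹ * ε⁻¹ : (ZMod (2 ^ (k + 2)))ˣ) : ZMod (2 ^ (k + 2))).val + 1 := by
    intro ε
    have h2 : (2 ^ (k + 2) : ℤ) = ((2 ^ (k + 2) : ℕ) : ℤ) := by simp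
    rw [h2, ← ZMod.intCast_zmod_eq_zero_iff_dvd]
    simp only [x, Int.cast_add, Int.cast_mul, Int.cast_natCast, ZMod.natCast_zmod_val, Int.cast_one]
    rw [← Units.val_mul, show κ * ε * (-κ⁻¹ * ε⁻¹) = -1 by
      rw [neg_mul, mul_neg, mul_mul_mul_comm]; simp]
    simp
  have h10 : ∑ ν ∈ oddR D.n k, ms0 D.d D.n k ν * W' (-κ⁻¹ * (un (ν : ZMod (2 ^ (k + 2))))⁻¹) =
      ∑ ε, W' ε * ∑ ν ∈ (oddR D.n k).filter (fun ν : ℕ => (2 ^ (k + 2) : ℤ) ∣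
        ν - ((-κ⁻¹ * ε⁻¹ : (ZMod (2 ^ (k + 2)))ˣ) : ZMod (2 ^ (k + 2))).val),
          ms0 D.d D.n k ν := by
    simp only [sum_filter, mul_sum]
    rw [sum_comm]
    refine sum_congr rfl fun ν hν => ?_
    simp only [cls _ _ (mem_filter.1 hν).2, mul_ite, mul_zero, sum_ite_eq', mem_univ, if_true]
    exact mul_comm _ _
  have h11 : ∑ ν ∈ oddR D.n k, ms0 D.d D.n k ν * W' (-κ⁻¹ * (un (ν : ZMod (2 ^ (k + 2))))⁻¹) =
      ka D.d * ce D.e (-κ⁻¹) *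
        ∑ ν ∈ oddR D.n k, D.msy k ν * W (-κ⁻¹ * (un (ν : ZMod (2 ^ (k + 2))))⁻¹) := by
    rw [mul_sum]
    refine sum_congr rfl fun ν hν => ?_
    have hν' : Odd ν := (mem_filter.1 hν).2
    have hk0 := ka_ne D.d
    simp only [W', ce_div D.he hk _ hν', ms0, Dat.msy, hj ν hν', Int.cast_mul]
    field_simp
  refine (main hTEL2 _ (by omega) hζ (e * al0) _ W' _ co x).trans ?_
  congr 2
  simp only [co, hee, hTEL4 D.d D.n k _ _ hodd (h9 _)]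
  simp only [mul_sub (W' _ : ℚ_[2]), sum_sub_distrib, ← sum_mul]
  rw [← h10, h11]
  simp only [W']
  push_cast
  ring

end Pool.Agent.P.MP_9c97e9_nt.K2
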