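import Pool.Agent.P.MP_9c97e9_nt.K2.IfP
import Pool.Agent.P.MP_9c97e9_nt.KT.TTEL1

/-! The additive twists in terms of Gauss sums. -/

namespace Pool.Agent.P.MP_9c97e9_nt.K2

open MP_8b7eba_nt.R2 KT
open MP_8b7eba_nt.R1 (ze st)
open KT.TTEL1 (sum_units pow_mod val_map split io_zM zM_pow zM_prim zM_mul)
open Finset
open scoped Real

namespace TTEL0

theorem one_lt (D : Dat) : 1 < D.n :=
  lt_of_lt_of_le D.wz.prime.one_lt (Nat.le_of_dvd D.n_pos D.zp)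

theorem kd_eq (hGSX : GSX) (D : Dat) {k : ℕ} (hk : 1 ≤ k) (δ : (ZMod (2 ^ (k + 2) * D.n))ˣ) :
    D.kd δ = jacobiSym (δ : ZMod (2 ^ (k + 2) * D.n)).val D.n *
      ce D.e (ZMod.unitsMap (Nat.dvd_mul_right (2 ^ (k + 2)) D.n) δ) := by
  have : NeZero (2 ^ (k + 2) * D.n) := ⟨mul_ne_zero (by positivity) D.n_ne⟩
  have o1 : Odd (δ : ZMod (2 ^ (k + 2) * D.n)).val :=
    Nat.coprime_two_right.1 ((ZMod.val_coe_unit_coprime δ).coprime_dvd_right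
      ((dvd_pow_self 2 (by omega)).mul_right _))
  have o2 : Odd (ZMod.unitsMap (Nat.dvd_mul_right (2 ^ (k + 2)) D.n) δ : ZMod (2 ^ (k + 2))).val :=
    Nat.coprime_two_right.1 ((ZMod.val_coe_unit_coprime _).coprime_dvd_right
      (dvd_pow_self 2 (by omega)))
  have h8 : 4 * D.e.natAbs ∣ 2 ^ (k + 2) := by
    refine Dvd.dvd.trans (b := 2 ^ 3) ?_ (pow_dvd_pow 2 (by omega))
    rcases D.he with h | h | h | h <;> rw [h] <;> decide
  rw [Dat.kd, (hGSX D).2.2.2.1 _ o1, mul_comm, ce, jacobiSym.mod_right _ o1,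
    jacobiSym.mod_right _ o2, (val_map (Nat.dvd_mul_right _ _) δ).of_dvd h8]

variable (hEV2 : EV2)
include hEV2

theorem gauss (D : Dat) (m : ℕ) :
    ∑ a ∈ range D.n, (jacobiSym a D.n : Om) * zM D.n (1 : ℕ) ^ (m * a) =
      jacobiSym m D.n * ∑ a ∈ range D.n, (jacobiSym a D.n : Om) * zM D.n a := by
  obtain ⟨τ, -, hτ⟩ := MP_8b7eba_nt.BSD15.exists_gauss (n := D.n) (one_lt D) D.odd D.sq
  have h1 := hτ 1
  apply io.injective
  simp only [map_sum, map_mul, map_intCast, ← zM_pow hEV2, io_zM hEV2]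
  simp only [Nat.cast_one, mul_one, jacobiSym.one_left, Int.cast_one, one_mul] at h1
  rw [h1, ← hτ m]
  refine Finset.sum_congr rfl fun a _ => ?_
  rw [Nat.cast_mul, mul_comm (m : ℂ)]

theorem main (hGSX : GSX) (D : Dat) {Q : ℕ} [NeZero Q] {ζ : Om} (hζ : IsPrimitiveRoot ζ Q)
    (h15 : Nat.Coprime D.q Q) (hQn : Q.Coprime D.n) (hQ1 : 1 < Q) :
    ∃ (κ : (ZMod Q)ˣ) (s : ℤˣ), ∀ W : (ZMod Q)ˣ → ℤ,
      (∑ᶠ δ : (ZMod (Q * D.n))ˣ, (jacobiSym (δ : ZMod (Q * D.n)).val D.n *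
        W (ZMod.unitsMap (Nat.dvd_mul_right _ _) δ) : ℤ) * SSd D.q _ δ) * D.dl0 =
      (s : ℤ) * D.n * ∑ ε, W ε * ∑ ν ∈ range (D.n * Q),
        (jacobiSym ν D.n * ns ν (D.n * Q : ℕ) : ℤ) *
          ζ ^ (ν * ((κ * ε : (ZMod Q)ˣ) : ZMod Q).val) := by
  obtain ⟨s₀, hs₀⟩ := (hGSX D).1
  have h4 := one_lt D
  obtain ⟨s₂, hs₂⟩ : ∃ s₂ : ℤˣ, st D.n = s₂ * D.n := by
    rcases st_cases D.n with h | h
    exacts [⟨1, by simpa using h⟩, ⟨-1, by simpa using h⟩]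
  have hdl : D.dl0 ^ 2 = (s₂ : ℤ) * D.n := by rw [D.hdl0, hs₂]; push_cast; rfl
  have hG := gauss hEV2 D
  generalize ∑ a ∈ range D.n, (jacobiSym a D.n : Om) * zM D.n a = G at hs₀ hG
  have : NeZero D.n := ⟨by omega⟩
  have : NeZero (Q * D.n) := ⟨mul_ne_zero (NeZero.ne _) (NeZero.ne _)⟩
  obtain ⟨n', -, hn'⟩ := Nat.exists_mul_mod_eq_one_of_coprime hQn.symm hQ1
  obtain ⟨m', -, hm'⟩ := Nat.exists_mul_mod_eq_one_of_coprime hQn (by omega : 1 < D.n)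
  have e1 : D.n * n' ≡ 1 [MOD Q] := by rw [Nat.ModEq, hn', Nat.mod_eq_of_lt hQ1]
  have e2 : Q * m' ≡ 1 [MOD D.n] := by rw [Nat.ModEq, hm', Nat.mod_eq_of_lt (by omega)]
  have e3 : D.n * n' + Q * m' ≡ 1 [MOD Q * D.n] := by
    refine (Nat.modEq_and_modEq_iff_modEq_mul hQn).1 ⟨?_, ?_⟩
    · simpa using e1.add ((Nat.modEq_zero_iff_dvd.2 (dvd_mul_right Q m')))
    · simpa using ((Nat.modEq_zero_iff_dvd.2 (dvd_mul_right D.n n'))).add e2
  have hz := zM_prim hEV2 (NeZero.ne (Q * D.n))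
  obtain ⟨j, -, hj, hj'⟩ := hζ.isPrimitiveRoot_iff.1
    (hz.pow (NeZero.pos _) (mul_comm Q D.n))
  have hc : (D.q * j * n').Coprime Q := (h15.mul_left hj).mul_left
    (Nat.Coprime.coprime_mul_left (Nat.coprime_of_mul_modEq_one 1 (by simpa using e1)))
  have hc' : (D.q * m').Coprime D.n := ((Nat.Prime.coprime_iff_not_dvd D.qp).2 D.qn).mul_left
    (Nat.Coprime.coprime_mul_left (Nat.coprime_of_mul_modEq_one 1 (by simpa using e2)))
  obtain ⟨s₁, hs₁⟩ : ∃ s₁ : ℤˣ, jacobiSym (D.q * m' : ℕ) D.n = s₁ := by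
    rcases jacobiSym.eq_one_or_neg_one (a := (D.q * m' : ℕ)) (b := D.n)
      (by rwa [Int.gcd_natCast_natCast]) with h | h
    exacts [⟨1, h⟩, ⟨-1, h⟩]
  refine ⟨ZMod.unitOfCoprime _ hc, s₂ * (s₀ * s₁), fun W => ?_⟩
  have hzn := (zM_prim hEV2 (NeZero.ne D.n)).pow_eq_one
  have key : ∀ ν : ℕ, ∑ δ : (ZMod (Q * D.n))ˣ, ((jacobiSym (δ : ZMod (Q * D.n)).val D.n *
      W (ZMod.unitsMap (Nat.dvd_mul_right _ _) δ) : ℤ) : Om) *
        zM (Q * D.n) (D.q * ν * (δ : ZMod (Q * D.n)).val) =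
      (∑ ε, W ε * ζ ^ (ν * ((ZMod.unitOfCoprime _ hc * ε : (ZMod Q)ˣ) : ZMod Q).val)) *
        (jacobiSym ν D.n * (s₁ : ℤ) * G) := by
    intro ν
    have g := hG (D.q * m' * ν)
    rw [Nat.cast_mul (D.q * m'), jacobiSym.mul_left, hs₁, Int.cast_mul, mul_comm ((s₁ : ℤ) : Om)] at g
    rw [← g, ← sum_units (fun a => (jacobiSym a D.n : Om) * zM D.n (1 : ℕ) ^ (D.q * m' * ν * a))
      (fun a ha => by
        rw [jacobiSym.eq_zero_iff_not_coprime.2 (by rwa [Int.gcd_natCast_natCast])]; simp),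
      ← split hQn]
    refine Finset.sum_congr rfl fun δ _ => ?_
    have v1 := val_map (Nat.dvd_mul_right Q D.n) δ
    have v2 := val_map (Nat.dvd_mul_left D.n Q) δ
    have v3 : ((ZMod.unitOfCoprime _ hc * ZMod.unitsMap (Nat.dvd_mul_right Q D.n) δ :
        (ZMod Q)ˣ) : ZMod Q).val ≡ D.q * j * n' * (δ : ZMod (Q * D.n)).val [MOD Q] := by
      rw [Units.val_mul, ZMod.val_mul, ZMod.coe_unitOfCoprime, ZMod.val_natCast]
      exact (Nat.mod_modEq _ _).trans ((Nat.mod_modEq _ _).mul v1.symm)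
    rw [pow_mod hζ.pow_eq_one (v3.mul_left ν), ← pow_mod hzn (v2.mul_left _),
      ← jacobiSym.mod_left' (a₁ := ((δ : ZMod (Q * D.n)).val : ℤ))
        (Int.natCast_modEq_iff.2 v2)]
    generalize (δ : ZMod (Q * D.n)).val = x
    have := zM_pow hEV2 (Q * D.n) (D.q * ν * x)
    push_cast at this ⊢
    rw [this, ← Nat.cast_one, ← zM_mul hEV2 (n := D.n) (NeZero.ne Q), ← pow_mul,
      ← pow_mod hz.pow_eq_one ((e3.mul_right (D.q * ν * x)).trans (by rw [one_mul])),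
      show ν * (D.q * j * n' * x) = j * (n' * (D.q * ν * x)) by ring, pow_mul ζ j, hj', ← pow_mul]
    ring
  rw [finsum_eq_sum_of_fintype]
  simp only [SSd, Finset.mul_sum, ← mul_assoc]
  rw [Finset.sum_comm]
  simp only [← Finset.sum_mul, key]
  rw [mul_comm D.n Q, Finset.sum_comm, Finset.sum_mul]
  refine Finset.sum_congr rfl fun ν _ => ?_
  rw [Finset.sum_mul, Finset.sum_mul, Finset.sum_mul]
  refine Finset.sum_congr rfl fun ε _ => ?_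
  rw [hs₀]
  generalize ζ ^ (ν * _) = y
  push_cast
  linear_combination (W ε * y * jacobiSym ν D.n * (s₁ : ℤ) * (s₀ : ℤ) * ns ν (Q * D.n) : Om) * hdl

end TTEL0

theorem t_TEL0 (hGSX : GSX) (hEV2 : EV2) : TEL0 := fun D k _ hk hζ => by
  obtain ⟨κ, s, h⟩ := TTEL0.main hEV2 hGSX D hζ
    (Nat.Coprime.pow_right _ (Nat.coprime_two_right.2 D.q_odd))
    (Nat.Coprime.pow_left _ (Nat.coprime_two_left.2 D.odd)) (Nat.one_lt_two_pow (by omega))
  refine ⟨κ, s, fun W => ?_⟩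
  rw [← h fun ε => ce D.e ε * W ε, Dat.XW]
  simp only [Dat.cW, TTEL0.kd_eq hGSX D hk, mul_assoc]

end Pool.Agent.P.MP_9c97e9_nt.K2
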