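import Pool.Agent.P.MP_9c97e9_nt.K2.IfP

/-! Only the symbols with the sign of the twist contribute. -/

namespace Pool.Agent.P.MP_9c97e9_nt.K2

open MP_8b7eba_nt.R2 KT
open MP_8b7eba_nt.Mod (nP nM nP_neg nP_add_mul)
open MP_8b7eba_nt.R1 (st)
open Finset

namespace TTEL1

theorem van {Q L : ℕ} [NeZero Q] (hL : Q ∣ L) {ζ : Om} (hζ : ζ ^ Q = 1) (κ : (ZMod Q)ˣ)
    (c : (ZMod Q)ˣ → ℤ) (f : ℤ → ℤ) (h : ∀ ε ν, c (-ε) * f (L - ν) = -(c ε * f ν)) (h0 : f L = 0) :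
    ∑ ε, (c ε : Om) * ∑ ν ∈ range L, (f ν : Om) * ζ ^ (ν * ((κ * ε : (ZMod Q)ˣ) : ZMod Q).val) =
      0 := by
  have e1 : ∀ ε, ∑ ν ∈ range L, (f ν : Om) * ζ ^ (ν * ((κ * ε : (ZMod Q)ˣ) : ZMod Q).val) =
      ∑ ν ∈ range (L + 1), (f ν : Om) * ζ ^ (ν * ((κ * ε : (ZMod Q)ˣ) : ZMod Q).val) := fun ε => by
    rw [sum_range_succ, h0, Int.cast_zero, zero_mul, add_zero]
  simp only [e1]
  rw [← neg_eq_self, ← sum_neg_distrib, ← Equiv.sum_comp (Equiv.neg _)]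
  refine sum_congr rfl fun ε _ => ?_
  rw [← sum_range_reflect, mul_sum, mul_sum, ← sum_neg_distrib]
  refine sum_congr rfl fun ν hν => ?_
  have e2 := Nat.le_of_lt_succ (mem_range.1 hν)
  have e3 : (L - ν) * ((κ * -ε : (ZMod Q)ˣ) : ZMod Q).val ≡
      ν * ((κ * ε : (ZMod Q)ˣ) : ZMod Q).val [MOD Q] := by
    rw [← ZMod.natCast_eq_natCast_iff, Nat.cast_mul, Nat.cast_mul, Nat.cast_sub e2,
      (ZMod.natCast_eq_zero_iff _ _).2 hL, ZMod.natCast_zmod_val, ZMod.natCast_zmod_val]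
    simp
  rw [Equiv.neg_apply, Nat.add_sub_cancel, pow_eq_pow_mod _ hζ, e3, ← pow_eq_pow_mod _ hζ,
    Nat.cast_sub e2, ← mul_assoc, ← Int.cast_mul, h]
  push_cast
  ring

theorem ce_neg {e : ℤ} (he : e = 1 ∨ e = -1 ∨ e = 2 ∨ e = -2) {k : ℕ} (hk : 1 ≤ k)
    (δ : (ZMod (2 ^ (k + 2)))ˣ) : ce e (-δ) = e.sign * ce e δ := by
  have o : ∀ δ : (ZMod (2 ^ (k + 2)))ˣ, Odd (δ : ZMod (2 ^ (k + 2))).val := fun δ =>
    Nat.coprime_two_right.1 ((ZMod.val_coe_unit_coprime δ).coprime_dvd_right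
      (dvd_pow_self 2 (by omega)))
  have h : ∀ m : ℕ, m ∣ 2 ^ 3 → (((-δ : (ZMod (2 ^ (k + 2)))ˣ) : ZMod (2 ^ (k + 2))).val : ZMod m) =
      -((δ : ZMod (2 ^ (k + 2))).val : ZMod m) := fun m hm => by
    rw [ZMod.natCast_val, ZMod.natCast_val, Units.val_neg,
      ZMod.cast_neg (hm.trans (pow_dvd_pow 2 (by omega)))]
  have h4 : ∀ x : ZMod 4, ZMod.χ₄ (-x) = -1 * ZMod.χ₄ x := by decide
  have h8 : ∀ x : ZMod 8, ZMod.χ₈ (-x) = 1 * ZMod.χ₈ x ∧ ZMod.χ₈' (-x) = -1 * ZMod.χ₈' x := by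
    decide
  unfold ce
  rcases he with rfl | rfl | rfl | rfl
  · simp
  · rw [jacobiSym.at_neg_one (o _), jacobiSym.at_neg_one (o _), h 4 (by decide)]
    exact h4 _
  · rw [jacobiSym.at_two (o _), jacobiSym.at_two (o _), h 8 (by decide)]
    exact (h8 _).1
  · rw [jacobiSym.at_neg_two (o _), jacobiSym.at_neg_two (o _), h 8 (by decide)]
    exact (h8 _).2

theorem sgn (D : Dat) : D.e.sign * ZMod.χ₄ D.n = if D.d < 0 then -1 else 1 := by
  have h1 := D.hd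
  have h2 := D.n2
  unfold st at h1
  by_cases h : D.n % 4 = 1
  · rw [if_pos h] at h1
    rw [ZMod.χ₄_nat_one_mod_four h]
    rcases D.he with e | e | e | e <;> rw [e] at h1 ⊢ <;> split_ifs <;> first | rfl | omega
  · rw [if_neg h] at h1
    rw [ZMod.χ₄_nat_three_mod_four (by omega)]
    rcases D.he with e | e | e | e <;> rw [e] at h1 ⊢ <;> split_ifs <;> first | rfl | omega

end TTEL1

open TTEL1

theorem t_TEL1 (hTEL0 : TEL0) : TEL1 := by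
  intro D k ζ hk hζ
  obtain ⟨κ, s, h⟩ := hTEL0 D k ζ hk hζ
  refine ⟨κ, s, fun W hW => (h W).trans ?_⟩
  congr 1
  have h1 : 1 < D.n := D.wz.prime.one_lt.trans_le (Nat.le_of_dvd D.n_pos D.zp)
  generalize hL : D.n * 2 ^ (k + 2) = L
  have h2 : ∀ ν : ℤ, jacobiSym (L - ν) D.n = ZMod.χ₄ D.n * jacobiSym ν D.n := fun ν => by
    rw [← jacobiSym.neg _ D.odd]
    refine jacobiSym.mod_left' (Int.ModEq.symm (Int.modEq_iff_dvd.2 ⟨2 ^ (k + 2), ?_⟩))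
    rw [← hL]
    push_cast
    ring
  have h3 : ∀ a : ℤ, nP (L - a) L = nP a L ∧ nM (L - a) L = -nM a L := fun a => by
    have e1 := nP_add_mul (-a) L 1
    rw [show -a + 1 * L = L - a by ring] at e1
    exact ⟨e1.1.trans (nP_neg a L).1, e1.2.trans (nP_neg a L).2⟩
  have h4 := van (hL ▸ Nat.dvd_mul_left _ _) hζ.pow_eq_one κ (fun ε => ce D.e ε * W ε)
    (fun ν => jacobiSym ν D.n * (ns ν L - nx D.d ν L)) (fun ε ν => by
      have e1 := sgn D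
      simp only [ce_neg D.he hk, hW, h2, ns, nx, (h3 ν).1, (h3 ν).2]
      split_ifs at e1 ⊢
      · linear_combination (ce D.e ε * W ε * jacobiSym ν D.n * nP ν L) * e1
      · linear_combination -(ce D.e ε * W ε * jacobiSym ν D.n * nM ν L) * e1) (by
      have e1 := h2 0
      rw [sub_zero, jacobiSym.zero_left h1, mul_zero] at e1
      simp only [e1, zero_mul])
  rw [← sub_eq_zero, ← h4, ← sum_sub_distrib]
  refine sum_congr rfl fun ε _ => ?_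
  rw [← mul_sub, ← sum_sub_distrib]
  congr 1
  refine sum_congr rfl fun ν _ => ?_
  push_cast
  ring

end Pool.Agent.P.MP_9c97e9_nt.K2
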