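import Pool.Agent.P.MP_9c97e9_nt.K2.IfP
import Pool.Agent.P.MP_9c97e9_nt.K2.TAN1
import Pool.Agent.P.MP_9c97e9_nt.KT.TTEL3

/-! The Hecke relations at two for the sums `YY`. -/

namespace Pool.Agent.P.MP_9c97e9_nt.K2

open MP_8b7eba_nt MP_8b7eba_nt.R2 MP_8b7eba_nt.Mod KT
open KT.TANA (sum_split sum_dvd sum_mul_cop jac_add)
open KT.TTEL3 (gw gw_add ind_add)
open TAN1 (v v_add v_mul v_hecke)
open Finset

namespace TTEL3

variable {d : ℤ} {n : ℕ}

theorem YY_eq (d : ℤ) (n i : ℕ) (c : ℤ) :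
    YY d n i c = ∑ a ∈ range (n * 2 ^ i), gw n i c a * v d a (n * 2 ^ i) := by
  rw [YY]
  refine sum_congr rfl fun a _ => ?_
  rw [gw, v]
  split_ifs <;> ring

theorem YY_pair (ho : Odd n) (i : ℕ) (c : ℤ) : YY d n (i + 1) c + YY d n (i + 1) (c + 2 ^ i) =
    -YY d n i c - ∑ a ∈ range (n * 2 ^ i), gw n i c a * v d (2 * a) (n * 2 ^ i) := by
  have h2 : ∀ a, gw n (i + 1) c a + gw n (i + 1) (c + 2 ^ i) a = gw n i c a := fun a => by
    rw [gw, gw, gw, show (a : ℤ) - (c + 2 ^ i) = a - c + -1 * 2 ^ i by ring, ind_add odd_neg_one]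
  rw [YY_eq, YY_eq, YY_eq, ← sum_add_distrib]
  simp only [← add_mul, h2]
  rw [pow_succ, ← mul_assoc, sum_split, ← sum_neg_distrib, ← sum_sub_distrib]
  refine sum_congr rfl fun a _ => ?_
  simp only [sum_range_succ, sum_range_zero, zero_mul, one_mul, add_zero, zero_add, gw_add]
  linear_combination gw n i c a *
    v_hecke d (mul_ne_zero ho.pos.ne' (pow_ne_zero i two_ne_zero)) a

theorem YY_two (ho : Odd n) (i : ℕ) (c : ℤ) :
    YY d n (i + 2) c + YY d n (i + 2) (c + 2 ^ (i + 1)) = -YY d n (i + 1) c - YY d n i c := by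
  rw [YY_pair ho, YY_eq d n i, pow_succ, ← mul_assoc, sum_split]
  congr 1
  refine sum_congr rfl fun a _ => ?_
  simp only [mul_comm (n * 2 ^ i) 2, v_mul, v_add, sum_range_succ, sum_range_zero,
    zero_mul, add_zero, zero_add, one_mul, ← add_mul]
  rw [gw, gw, gw, jac_add, ← ind_add (i := i) (x := a - c) (m := n) (by exact_mod_cast ho)]
  push_cast
  rw [show (a : ℤ) + n * 2 ^ i - c = a - c + n * 2 ^ i by ring]

theorem YY_dbl (i : ℕ) (c : ℤ) : YY d n (i + 1) (2 * c) = jacobiSym 2 n * YY d n i c := by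
  have h := sum_dvd (fun ν => gw n (i + 1) (2 * c) ν * v d ν (2 * (n * 2 ^ i))) (n * 2 ^ i) two_pos
  rw [YY_eq, YY_eq, mul_sum, show n * 2 ^ (i + 1) = n * 2 ^ i * 2 by ring]
  refine Eq.trans (sum_congr rfl fun a _ => ?_) (h.trans (sum_congr rfl fun a _ => ?_))
  · by_cases h2 : 2 ∣ a
    · rw [if_pos h2, mul_comm _ 2]
    · rw [if_neg h2, gw, if_neg fun e => h2 ?_, zero_mul]
      have := (dvd_pow_self (2 : ℤ) (Nat.succ_ne_zero i)).trans e
      omega
  · rw [v_mul, gw, gw]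
    push_cast
    rw [← mul_sub, pow_succ', jacobiSym.mul_left]
    simp only [mul_dvd_mul_iff_left (two_ne_zero (α := ℤ))]
    split_ifs <;> ring

theorem YY_one (ho : Odd n) : YY d n 1 1 = -(1 + 2 * jacobiSym 2 n) * YY d n 0 0 := by
  have h2 : Nat.Coprime 2 n := (Nat.coprime_two_left).2 ho
  have h := sum_mul_cop (g := fun a => jacobiSym a n * v d a n) (M := n) (fun a => by
    rw [← jac_add n 1 a, ← v_add d a n 1, mul_one, one_mul]) h2
  have h3 : jacobiSym 2 n ^ 2 = 1 := jacobiSym.sq_one (by simpa [Int.gcd] using h2)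
  have h4 := YY_pair (d := d) ho 0 0
  have h5 := YY_dbl (d := d) (n := n) 0 0
  have h6 := YY_eq d n 0 0
  simp only [gw, pow_zero, mul_one, one_dvd, if_true, zero_add, mul_zero, Nat.cast_mul,
    jacobiSym.mul_left, mul_assoc, ← mul_sum, Nat.cast_ofNat] at h h4 h5 h6
  linear_combination h4 - h5 - jacobiSym 2 n * h + jacobiSym 2 n * h6 +
    (∑ a ∈ range n, jacobiSym a n * v d (2 * a) n) * h3

end TTEL3

theorem t_TEL3 : TEL3 := fun d n ho =>
  ⟨fun i c m => sum_congr rfl fun a _ => if_congr (by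
      rw [← sub_sub]
      exact dvd_sub_left (dvd_mul_right _ _)) rfl rfl,
    TTEL3.YY_two ho, TTEL3.YY_dbl, TTEL3.YY_one ho⟩

end Pool.Agent.P.MP_9c97e9_nt.K2
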