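import Pool.Agent.P.MP_9c97e9_nt.K2.IfU
import Pool.Agent.P.MP_9c97e9_nt.KT.TTWA

/-! Proof of TWA. -/

namespace Pool.Agent.P.MP_9c97e9_nt.K2

open scoped NNReal Matrix
open MP_8b7eba_nt.R2 KT
open KT.TTWA (on comp frob psh_le psh_sub psh_mulVec psh_shift smul_le add_le sub_le mv_le rn_congr)

namespace TTWA

variable {M : ℕ} {r : ℝ}

theorem rd_mulVec (D : Dat) (g h : GQ) (v : V2) : D.rd (g * h) *ᵥ v = D.rd g *ᵥ D.rd h *ᵥ v := by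
  rw [Matrix.mulVec_mulVec, D.rd_mul]

theorem rd_le (D : Dat) (g : GQ) {v : V2} (hv : ‖v‖ ≤ r) : ‖D.rd g *ᵥ v‖ ≤ r :=
  (D.rd_vec g v).trans hv

theorem eight (D : Dat) {k : ℕ} (hk : 1 ≤ k) (h : D.Lv k M) : 8 * D.n ∣ M * D.n :=
  Nat.mul_dvd_mul_right ((show 2 ^ 3 ∣ 2 ^ (k + 2) from pow_dvd_pow 2 (by omega)).trans h.2.1) _

theorem t0_co (hGSX : GSX) (D : Dat) (hM : M ≠ 0) (h8 : 8 * D.n ∣ M * D.n)
    {x : GQ → (ZMod (M * D.n))ˣ → V2}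
    (hx : ∀ g h d, ‖x (g * h) d - x g d - T2.rho g *ᵥ x h (d * (cy _ g)⁻¹)‖ ≤ r) (g h : GQ)
    (ε : (ZMod M)ˣ) : ‖D.t0 M x (g * h) ε - D.t0 M x g ε -
      D.rd g *ᵥ D.t0 M x h (ε * (cy M g)⁻¹)‖ ≤ r := by
  have h0 : M * D.n ≠ 0 := mul_ne_zero hM D.n_ne
  obtain ⟨k1, k2, -, -⟩ := (hGSX D).2.2.2.2 _ h0 h8
  unfold Dat.t0
  rw [← comp hM (Nat.dvd_mul_right M D.n) h0, ← map_inv, ← psh_shift h0, ← psh_mulVec h0,
    ← psh_sub h0, ← psh_sub h0]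
  refine psh_le h0 (fun δ => ?_) ε
  convert smul_le (D.kd δ) (hx g h δ) using 2
  rw [smul_sub, smul_sub, D.rd_eq, k1, Matrix.smul_mulVec, Matrix.mulVec_smul, smul_smul,
    ← Int.cast_mul, ← k2, mul_comm δ, mul_inv_cancel_left]

end TTWA

open K2.TTWA in
theorem t_TWA (hZQ : ZQ) (hGSX : GSX) : TWA := by
  refine ⟨fun k v => ?_, fun D l k M x hk hL hx => ?_⟩
  · have h1 : ∀ i, ‖rn k v i‖ ≤ 1 := fun i => IsUltrametricDist.norm_natCast_le_one _ _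
    refine ⟨(pi_norm_le_iff_of_nonneg zero_le_one).2 h1, fun hv =>
      (pi_norm_le_iff_of_nonneg (by positivity)).2 fun i =>
        ((hZQ k).1 _ _ (h1 i) ((norm_le_pi_norm v i).trans hv)).2.2.1 ?_⟩
    have := (hZQ k).2.1 (zq k (v i)).val
    rwa [Int.cast_natCast, Int.cast_natCast, ZMod.natCast_zmod_val] at this
  have h0 : M * D.n ≠ 0 := mul_ne_zero hL.1 D.n_ne
  have h1 : ∀ g ε, ‖D.t0 M x g ε‖ ≤ 1 := fun g ε =>
    psh_le h0 (fun δ => smul_le _ (hx.int g δ)) ε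
  have two : ∀ {r : ℝ} {v : V2}, ‖v‖ ≤ r → ‖(2 : ℚ_[2]) • v‖ ≤ r := fun h => by
    simpa using smul_le 2 h
  have h2 : ∀ g ε, ‖D.nr (D.t0 M x) g ε‖ ≤ 1 := fun g ε =>
    add_le (two (h1 _ _)) (sub_le (rd_le D g (h1 _ _)) (h1 _ _))
  refine ⟨fun g ε => ⟨h1 g ε, h2 g ε⟩, ?_, fun g h δ => ?_, fun δ => ?_⟩
  · obtain ⟨N1, a1, b1⟩ := hx.sm
    obtain ⟨N2, a2, b2⟩ := D.rd_sm (ε := (2 ^ k)⁻¹) (by positivity)
    refine ⟨_, (a1.inf a2).inf (on hL.1), fun g hg n hn m => funext fun ε =>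
      rn_congr hZQ (h2 _ _) (h2 _ _) ?_⟩
    have e1 : D.t0 M x (g * n) = D.t0 M x g := by rw [Dat.t0, b1 g hg n hn m.1.1, Dat.t0]
    have e2 : cy M (g * n) = cy M g := by rw [map_mul, show cy M n = 1 from m.2, mul_one]
    rw [Dat.nr, Dat.nr, e1, e2, rd_mulVec, add_sub_add_left_eq_sub, sub_sub_sub_cancel_right,
      ← Matrix.mulVec_sub]
    refine rd_le D g ?_
    simpa [Matrix.sub_mulVec] using mv_le (b2 n m.1.2) (h1 D.z (ε * (cy M g)⁻¹))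
  · convert two (t0_co hGSX D hL.1 (eight D hk hL) hx.co g h δ) using 2
    simp only [Dat.nr, rd_mulVec, Matrix.mulVec_add, Matrix.mulVec_sub, Matrix.mulVec_smul,
      map_mul, mul_inv_rev, mul_assoc, mul_comm (cy M h)⁻¹, smul_sub]
    abel
  · have e : cy M D.z = 1 := Units.ext (by
      simpa using frob hL.1 (fun h => D.wz.prime.one_lt.ne'
        (Nat.eq_one_of_dvd_coprimes hL.2.2 h ((D.zp.mul_left _).mul_right _)))
        (Pl.isFrob_zero.2 D.zI))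
    rw [Dat.nr, D.rd_z, Matrix.neg_mulVec, Matrix.one_mulVec, e, inv_one, mul_one, two_smul]
    abel

end Pool.Agent.P.MP_9c97e9_nt.K2
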