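import Pool.Agent.P.MP_9c97e9_nt.K2.IfU
import Pool.Agent.P.MP_9c97e9_nt.KT.TTWB

/-! The norm relations of the twisted cocycles. -/

namespace Pool.Agent.P.MP_9c97e9_nt.K2

open scoped Matrix
open MP_8b7eba_nt.R2 KT
open KT.TTWB (comp cy_I wf tw_add tw_sub tw_smul tw_mv tw_le tw_tw tw_sh psh_eq psh_one pz_eq
  un_val)

namespace TTWB

/-- the quadratic character -/
noncomputable def ch (D : Dat) {L : ℕ} (d : (ZMod L)ˣ) : ℚ_[2] := D.kd d

theorem tw_eu {n M p : ℕ} [NeZero (M * n)] (hp : p.Prime) (h : p ∣ M ∨ ¬ p ∣ M * n) (a j : ℤ)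
    {χ : (ZMod (M * n))ˣ → ℚ_[2]} (hm : ∀ b c, χ (b * c) = χ b * χ c)
    (h3 : ¬ p ∣ M * n → χ (un (p : ZMod (M * n))) = j) (h4 : ∀ b, χ (b ^ 2) = 1)
    (f : (ZMod (M * n))ˣ → V2) (ε : (ZMod M)ˣ) :
    wf (ZMod.unitsMap (Nat.dvd_mul_right M n)) χ (eu p a f) ε =
      eu p (j * a : ℤ) (wf (ZMod.unitsMap (Nat.dvd_mul_right M n)) χ f) ε := by
  unfold eu
  rcases h with h | h
  · simp only [if_pos h, if_pos (h.mul_right n)]
  have h1 := hp.coprime_iff_not_dvd.2 h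
  have h2 : ZMod.unitsMap (Nat.dvd_mul_right M n) (un (p : ZMod (M * n))) = un (p : ZMod M) :=
    Units.ext (by rw [ZMod.unitsMap_val, un_val h1, un_val (Nat.Coprime.coprime_mul_right_right h1),
      ZMod.cast_natCast (Nat.dvd_mul_right M n)])
  simp only [if_neg h, if_neg fun e : p ∣ M => h (e.mul_right n), tw_add, tw_sub, tw_smul, inv_pow,
    tw_sh _ hm, map_pow, h2, h3 h, h4, one_smul, smul_smul]
  congr 3
  push_cast
  ring

end TTWB

open K2.TTWB in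
theorem t_TWB (hGSX : GSX) : TWB := by
  rintro D k M p x x' hk ⟨hM, h2, hc⟩ hp hp' ⟨m, -, hm⟩ g ε
  have hn : D.n ≠ 0 := D.n_ne
  have : NeZero (M * D.n) := ⟨mul_ne_zero hM hn⟩
  have : NeZero (M * p) := ⟨mul_ne_zero hM hp.ne_zero⟩
  have : NeZero (M * p * D.n) := ⟨mul_ne_zero (NeZero.ne _) hn⟩
  have hd : M * D.n ∣ M * p * D.n := mul_dvd_mul_right (Nat.dvd_mul_right M p) _
  have h8 : 8 * D.n ∣ M * D.n :=
    Nat.mul_dvd_mul_right ((show 2 ^ 3 ∣ 2 ^ (k + 2) from pow_dvd_pow 2 (by omega)).trans h2) _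
  obtain ⟨g1, g2, g3, g4⟩ := (hGSX D).2.2.2.2 _ (NeZero.ne (M * D.n)) h8
  have cm : ∀ b c : (ZMod (M * D.n))ˣ, ch D (b * c) = ch D b * ch D c := fun b c => by
    rw [ch, g2, Int.cast_mul, ch, ch]
  have c2 : ∀ b : (ZMod (M * D.n))ˣ, ch D (b ^ 2) = 1 := fun b => by
    rw [ch, sq, g2, ← sq, g4, Int.cast_one]
  have cp : ¬ p ∣ M * D.n → ch D (un (p : ZMod (M * D.n))) = (jacobiSym D.d p : ℤ) := fun h => by
    rw [ch, g3 _ p (un_val (hp.coprime_iff_not_dvd.2 h))]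
  have cu : ∀ d : (ZMod (M * p * D.n))ˣ, ch D (ZMod.unitsMap hd d) = ch D d := fun d => by
    rw [ch, g3 _ (d : ZMod (M * p * D.n)).val (by rw [ZMod.unitsMap_val, ZMod.natCast_val])]
    rfl
  have hz : cy M D.z = 1 := cy_I hM (fun e => D.wz.prime.ne_one
    (Nat.eq_one_of_dvd_coprimes hc e ((D.zp.mul_left _).mul_right _))) D.zI
  have t0 : ∀ (L : ℕ) [NeZero (L * D.n)] (y : GQ → (ZMod (L * D.n))ˣ → V2) (g : GQ),
      D.t0 L y g = wf (ZMod.unitsMap (Nat.dvd_mul_right L D.n)) (ch D) (y g) :=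
    fun L _ y g => psh_eq L D.n (ch D) (y g)
  obtain ⟨u, hu⟩ : ∃ u, u = wf (ZMod.unitsMap (Nat.dvd_mul_right M D.n)) (ch D) m := ⟨_, rfl⟩
  have key : ∀ g ε, ‖psh M p (D.t0 (M * p) x' g) ε - eu p (jacobiSym D.d p * ap W15 p : ℤ)
      (D.t0 M x g) ε - (D.rd g *ᵥ u (ε * (cy M g)⁻¹) - u ε)‖ ≤ (2 ^ k)⁻¹ := fun g ε => by
    have h := tw_le (ZMod.unitsMap (Nat.dvd_mul_right M D.n)) (ch D) _ ε (by positivity)
      (fun _ => Padic.norm_int_le_one _) (hm g)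
    rw [tw_sub, tw_sub, tw_sub, tw_mv, tw_sh _ cm, tw_eu hp
      (hp'.imp (fun e => e ▸ (dvd_pow_self 2 (by omega)).trans h2) fun e e' => e
        (e'.trans ⟨15 * D.q, by ring⟩)) _ _ cm cp c2, comp hM _ (NeZero.ne _), ← hu,
      pz_eq hd, tw_tw, ch, ← g1, Matrix.mulVec_smul, ← Matrix.smul_mulVec, ← D.rd_eq] at h
    rw [t0, t0, psh_one, tw_tw]
    simp only [← MonoidHom.comp_apply, ZMod.unitsMap_comp, one_mul, mul_one, cu] at h ⊢
    exact h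
  have e1 : psh M p (D.nr (D.t0 (M * p) x') g) ε =
      D.nr (fun g => psh M p (D.t0 (M * p) x' g)) g ε := by
    unfold Dat.nr
    simp only [psh_one, tw_add, tw_sub, tw_smul, tw_mv,
      tw_sh _ (χ := fun _ => 1) fun _ _ => (mul_one _).symm, one_smul,
      comp hM _ (NeZero.ne (M * p))]
  have k1 := key g ε
  have k2 := (D.rd_vec g _).trans (key D.z (ε * (cy M g)⁻¹))
  have k3 := key D.z ε
  have k4 := SelA.add (SelA.add k1 k1) ((SelA.add k2 ((norm_neg _).trans_le k3)))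
  rw [e1]
  refine (congrArg norm ?_).trans_le k4
  rw [D.rd_z, hz]
  unfold Dat.nr eu
  split_ifs <;> simp only [inv_one, mul_one, Matrix.neg_mulVec, Matrix.one_mulVec,
    Matrix.mulVec_sub, Matrix.mulVec_add, Matrix.mulVec_smul, Matrix.mulVec_neg,
    mul_right_comm ε (cy M g)⁻¹] <;> module

end Pool.Agent.P.MP_9c97e9_nt.K2
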