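import Pool.Agent.P.MP_9c97e9_nt.K2.IfEB
import Pool.Agent.P.MP_9c97e9_nt.K2.TTWA
import Pool.Agent.P.MP_9c97e9_nt.KT.TTWE

/-! The twisted zeta cocycle on the decomposition group. -/

namespace Pool.Agent.P.MP_9c97e9_nt.K2

open scoped NNReal Matrix
open MP_8b7eba_nt.R2 KT
open KT.TTWA (on psh_le smul_le add_le sub_le)

open K2.TTWA in
theorem t_TWE (hZQE : ZQE) (hGSX : GSX) : TWE := by
  intro D l k zt m hk hz hm
  have hM : 2 ^ (k + 2) ≠ 0 := by positivity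
  have h0 : 2 ^ (k + 2) * D.n ≠ 0 := mul_ne_zero hM D.n_ne
  have h8 : 8 * D.n ∣ 2 ^ (k + 2) * D.n :=
    Nat.mul_dvd_mul_right (show 2 ^ 3 ∣ 2 ^ (k + 2) from pow_dvd_pow 2 (by omega)) _
  have hx : ∀ g ε, D.xG k zt m g ε = (2 : ℚ_[2]) • D.t0 _ zt g ε +
      (D.rd g *ᵥ m (ε * (cy _ g)⁻¹) - m ε) := fun _ _ => rfl
  have h1 : ∀ g ε, ‖D.t0 _ zt g ε‖ ≤ 1 := fun g ε =>
    psh_le h0 (fun δ => smul_le _ (hz.int g δ)) ε
  have two : ∀ {r : ℝ} {v : V2}, ‖v‖ ≤ r → ‖(2 : ℚ_[2]) • v‖ ≤ r := fun h => by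
    simpa using smul_le 2 h
  refine ⟨⟨fun g ε => add_le (two (h1 _ _)) (sub_le (rd_le D g (hm _)) (hm _)), ?_,
    fun g _ h _ η => ?_⟩, fun W g hg => ?_⟩
  · obtain ⟨N1, a1, b1⟩ := hz.sm
    obtain ⟨N2, a2, b2⟩ := ((hZQE k).2.2.2.2 D.dl D.fix_dl).2.2.2
    refine ⟨_, (a1.inf a2).inf (on hM), fun g _ n _ hn ε => ?_⟩
    have e1 : D.t0 _ zt (g * n) = D.t0 _ zt g := by
      rw [Dat.t0, b1 g trivial n trivial hn.1.1, Dat.t0]
    have e2 : cy (2 ^ (k + 2)) (g * n) = cy _ g := by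
      rw [map_mul, show cy (2 ^ (k + 2)) n = 1 from hn.2, mul_one]
    rw [hx, hx, e1, e2, rd_mulVec, add_sub_add_left_eq_sub, sub_sub_sub_cancel_right,
      ← Matrix.mulVec_sub]
    exact rd_le D g (b2 n hn.1.2 _ (hm _))
  · convert two (t0_co hGSX D hM h8 hz.co g h η) using 2
    simp only [hx, rd_mulVec, Matrix.mulVec_add, Matrix.mulVec_sub, Matrix.mulVec_smul,
      map_mul, mul_inv_rev, mul_assoc, mul_comm (cy _ h)⁻¹, smul_sub]
    abel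
  · have := NeZero.mk h0
    have e : cy (2 ^ (k + 2)) g = 1 := hg.2
    simp only [hx, e, inv_one, mul_one, smul_add, smul_sub, Finset.sum_add_distrib,
      Finset.sum_sub_distrib, smul_smul, Dat.t0]
    rw [KT.TTWE.sum_psh, finsum_eq_sum_of_fintype, Tate.bd, Matrix.mulVec_sum]
    congr 1
    · refine Finset.sum_congr rfl fun δ _ => ?_
      rw [smul_smul, Dat.cW]
      congr 1
      push_cast
      ring
    · simp only [Matrix.mulVec_smul, Dat.rd]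

end Pool.Agent.P.MP_9c97e9_nt.K2
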