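import Pool.Agent.P.MP_9c97e9_nt.K2.IfU
import Pool.Agent.P.MP_9c97e9_nt.KT.TUD

/-! Distribution relations of the modular units. -/

namespace Pool.Agent.P.MP_9c97e9_nt.K2

open KT

open MP_29cb78_nt.E (ee th0)
open Finset

namespace TUD

lemma p4_prod (s : Finset ℕ) (f : ℕ → ℤ → ℂ) :
    ∏ j ∈ s, p4 (f j) = p4 fun n => ∏ j ∈ s, f j n := by
  simp only [p4, prod_div_distrib, prod_mul_distrib, prod_pow]

lemma two (q l : ℕ) (b₁ b₂ : ℤ) (r₁ r₂ : ℚ) (z : ℂ) (hl : l ≠ 0) (hz : 0 < z.im) :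
    ∏ j ∈ range l, uf q b₁ b₂ r₁ (r₂ + j / l) z = uf q b₁ (l * b₂) r₁ (l * r₂) (l * z) := by
  have h15 : 0 < (15 * z).im := by simpa using hz
  simp only [uf, uF]
  rw [p4_prod]
  refine congrArg p4 (funext fun n => ?_)
  have e := KT.TUD.thA hl h15 (r₁ * (15 * z) + r₂ + n * (b₁ / q * (15 * z) + b₂ / q))
  refine (prod_congr rfl fun j _ => ?_).trans (e.trans ?_)
  · congr 1
    push_cast
    ring
  · congr 1
    · push_cast
      ring
    · ring

lemma three (q l : ℕ) (b₁ b₂ : ℤ) (r₁ r₂ : ℚ) (z : ℂ) (hl : l ≠ 0) (hz : 0 < z.im) (i : ℤ) :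
    ∏ j ∈ range l, uf q b₁ b₂ (r₁ + j / l) (r₂ + 15 * i * j / l) z =
      uf q (l * b₁) (b₂ - 15 * i * b₁) (l * r₁) (r₂ - 15 * i * r₁) ((z + i) / l) := by
  have l0 : (l : ℂ) ≠ 0 := Nat.cast_ne_zero.2 hl
  have h15 : 0 < (15 * ((z + i) / l)).im := by
    have : (0 : ℝ) < l := by positivity
    rw [← Complex.ofReal_natCast]
    simpa [Complex.div_ofReal_im] using div_pos hz this
  simp only [uf, uF]
  rw [p4_prod]
  refine congrArg p4 (funext fun n => ?_)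
  have e := KT.TUD.thB hl h15 (r₁ * (15 * z) + r₂ + n * (b₁ / q * (15 * z) + b₂ / q))
  refine (prod_congr rfl fun j _ => ?_).trans (e.trans ?_)
  · rw [← KT.TUD.thC _ _ (15 * i)]
    congr 1
    · push_cast
      ring
    · push_cast
      field_simp
  · congr 1
    have e2 : (l : ℂ) * (15 * ((z + i) / l)) = 15 * (z + i) := by field_simp
    push_cast
    linear_combination (-(r₁ : ℂ) - n * (b₁ / q)) * e2

end TUD

theorem t_UD : UD := by
  intro q l b₁ b₂ r₁ r₂ z hl hz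
  refine ⟨?_, TUD.two q l b₁ b₂ r₁ r₂ z hl hz, TUD.three q l b₁ b₂ r₁ r₂ z hl hz⟩
  have e := TUD.three q l b₁ (l * b₂) r₁ (l * r₂) (l * z) hl (KT.TUD.im_mul hl hz) 0
  simp only [Int.cast_zero, mul_zero, zero_mul, zero_div, add_zero, sub_zero] at e
  rw [mul_div_cancel_left₀ _ (Nat.cast_ne_zero.2 hl)] at e
  rw [← e]
  exact prod_congr rfl fun i _ => TUD.two q l b₁ b₂ _ r₂ z hl hz

end Pool.Agent.P.MP_9c97e9_nt.K2
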