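import Pool.Agent.P.MP_9c97e9_nt.K2.IfU
import Pool.Agent.P.MP_9c97e9_nt.KT.TUHM

/-! Proof of UHM. -/

namespace Pool.Agent.P.MP_9c97e9_nt.K2

open MP_8b7eba_nt.R2 KT
open MP_8b7eba_nt.Mod MP_29cb78_nt.E MP_29cb78_nt.E.Th Filter Topology Asymptotics Real
open KT.TUHM (th_hol TH TH_th)

namespace TUHM

theorem th_ne {q N : ℕ} (hq : q ≠ 0) (hN : N ≠ 0) (h : N.Coprime q) {i₁ : ℤ}
    (hi : ¬ (N : ℤ) ∣ i₁) (b₁ b₂ i₂ n : ℤ) {z : ℂ} (hz : 0 < z.im) :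
    th0 (((i₁ / N : ℚ) : ℂ) * (15 * z) + ((i₂ / N : ℚ) : ℂ) + n * (b₁ / q * (15 * z) + b₂ / q))
      (15 * z) ≠ 0 := by
  rw [Ne, th0_eq_zero (im15 hz)]
  rintro ⟨j, k, e⟩
  have e' : ((i₁ / N + n * (b₁ / q) - k : ℝ) : ℂ) * (15 * z) =
      ((j - i₂ / N - n * (b₂ / q) : ℝ) : ℂ) := by
    push_cast at e ⊢
    linear_combination e
  have h1 := congrArg Complex.im e'
  rw [Complex.im_ofReal_mul, Complex.ofReal_im] at h1
  have h2 := (mul_eq_zero.1 h1).resolve_right (im15 hz).ne'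
  have h3 : (q : ℝ) ≠ 0 := Nat.cast_ne_zero.2 hq
  have h4 : (N : ℝ) ≠ 0 := Nat.cast_ne_zero.2 hN
  have h5 : (15 * (q * i₁ + N * n * b₁) : ℝ) = 15 * (N * q) * k := by
    field_simp at h2
    linear_combination 15 * h2
  exact aB_not_dvd h hi b₁ n ⟨k, by rw [aB]; exact_mod_cast h5⟩

theorem TH_uF (s₁ s₂ r₁ r₂ : ℝ) {τ : ℂ} (hτ : 0 < τ.im) (h : uF s₁ s₂ r₁ r₂ τ ≠ 0) :
    TH (uF s₁ s₂ r₁ r₂) := by
  simp only [uF, p4, ne_eq, div_eq_zero_iff, mul_eq_zero, not_or] at h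
  obtain ⟨⟨h1, h3⟩, h2, h4⟩ := h
  have k : ∀ n : ℤ, th0 (r₁ * τ + r₂ + n * (s₁ * τ + s₂)) τ ≠ 0 →
      TH fun z => th0 (r₁ * z + r₂ + n * (s₁ * z + s₂)) z := fun n =>
    TH_th (α := r₁ + n * s₁) (β := r₂ + n * s₂) (x := fun z => r₁ * z + r₂ + n * (s₁ * z + s₂)) hτ
      fun z => by push_cast; ring
  have k2 := k 2 fun e => h2 (by rw [e]; simp)
  have k3 := k 3 fun e => h3 (by rw [e]; simp)
  exact (((k 1 h1).mul (k3.mul (k3.mul k3))).div ((k2.mul (k2.mul k2)).mul (k 4 h4))).congr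
    fun z _ => by simp only [uF, p4]; ring

end TUHM

open TUHM M2

theorem t_UHM (hUT : UT) : UHM := by
  intro q N b₁ b₂ i₁ i₂ hq hN hc hi
  have n0 := fun n z => th_ne hq hN hc hi b₁ b₂ i₂ n (z := z)
  have n3 := fun z (hz : 0 < z.im) => mul_ne_zero (pow_ne_zero 3 (n0 2 z hz)) (n0 4 z hz)
  have hn : ∀ z : ℂ, 0 < z.im → ui q N b₁ b₂ i₁ i₂ z ≠ 0 := fun z hz =>
    div_ne_zero (mul_ne_zero (n0 1 z hz) (pow_ne_zero 3 (n0 3 z hz))) (n3 z hz)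
  refine ⟨DifferentiableOn.fun_div
    ((th_hol (by fun_prop)).fun_mul ((th_hol (by fun_prop)).fun_pow 3))
    (((th_hol (by fun_prop)).fun_pow 3).fun_mul (th_hol (by fun_prop))) n3, hn, fun g hg => ?_⟩
  have hd : 0 < (M2.mk 15 0 0 1).det := by decide
  obtain ⟨h, A, B, C, hh, hA, hC, -, -, e⟩ :=
    exists_upper (g := ⟨15, 0, 0, 1⟩ * g) (by rw [det_mul, hg]; decide)
  have hu : 0 < (M2.mk A B 0 C).det := by simp [det]; positivity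
  have k : ∀ z : ℂ, 0 < z.im → ui q N b₁ b₂ i₁ i₂ (g.act z) =
      uF (b₁ / q * h.a + b₂ / q * h.c : ℝ) (b₁ / q * h.b + b₂ / q * h.d : ℝ)
        (i₁ / N * h.a + i₂ / N * h.c : ℝ) (i₁ / N * h.b + i₂ / N * h.d : ℝ)
        ((M2.mk A B 0 C).act z) := fun z hz => by
    have e1 : 15 * g.act z = h.act ((M2.mk A B 0 C).act z) := by
      rw [← act_mul (by omega) hu hz, ← e, act_mul hd.ne' (by omega) hz]
      simp [act, mob]
    rw [ui, uf, e1, hUT.1 _ _ _ _ _ _ hh (im_act_pos hu hz)]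
    simp
  have hI : 0 < Complex.I.im := by simp
  obtain ⟨t, ht⟩ := TH_uF _ _ _ _ (im_act_pos hu hI)
    (k _ hI ▸ hn _ (im_act_pos (by omega) hI))
  refine ⟨t * (A / C), (ht.1.comp_tendsto (tendsto_upper hA hC)).congr'
    ((ev_im 0).mono fun z hz => (k z hz).symm) (.of_forall fun z => ?_)⟩
  simp only [Function.comp, ex, im_upper]
  congr 1
  ring

end Pool.Agent.P.MP_9c97e9_nt.K2
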