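import Pool.Agent.P.MP_9c97e9_nt.K2.IfU
import Pool.Agent.P.MP_9c97e9_nt.KT.TUQ

/-! Periodicity and expansions of the units. -/

namespace Pool.Agent.P.MP_9c97e9_nt.K2

open MP_29cb78_nt.E (ee th0)
open KT
open KT.TUQ (th_eq)

theorem t_UQ (hUT : UT) (hUQ0 : UQ0) : UQ := by
  intro q N b₁ b₂ i₁ i₂ hq hN hc hi
  have h0 : (N : ℂ) ≠ 0 := Nat.cast_ne_zero.2 hN
  have h1 : (q : ℂ) ≠ 0 := Nat.cast_ne_zero.2 hq
  refine ⟨fun z => ?_, fun m m' => funext fun z => ?_, ?_⟩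
  · unfold ui uf uF
    congr 1
    funext n
    exact th_eq 0 15 (by push_cast; ring) (by push_cast; ring)
  · unfold ui uf uF
    congr 1
    funext n
    exact th_eq (m + n * m') 0 (by push_cast; field_simp; ring) (by simp)
  · obtain ⟨E, h2, h3⟩ := hUQ0 q N b₁ i₁ hq hN hc hi
    have e : (E.toNat : ℤ) - (-E).toNat = E := by omega
    obtain ⟨A, h4, h5⟩ := h3 b₂ i₂ _ _ e
    exact ⟨_, _, A, h4, by rwa [e], h5⟩

end Pool.Agent.P.MP_9c97e9_nt.K2
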