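import Pool.Agent.P.MP_9c97e9_nt.K2.IfU
import Pool.Agent.P.MP_9c97e9_nt.KT.TUQ0

/-! Proof of UQ0. -/

namespace Pool.Agent.P.MP_9c97e9_nt.K2

open KT

open MP_8b7eba_nt.R1 (Zb QE ze)
open MP_8b7eba_nt.Mod (qq)
open MP_29cb78_nt.E (ee th0)
open PowerSeries

namespace TUQ0

lemma p4_mul (f g : ℤ → ℂ) : p4 (fun n => f n * g n) = p4 f * p4 g := by
  simp only [p4, div_mul_div_comm]
  congr 1 <;> ring

lemma p4_zpow {u : ℂ} (hu : u ≠ 0) (f : ℤ → ℤ) : p4 (fun n => u ^ f n) = u ^ s4 f := by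
  simp only [p4, s4, zpow_add₀ hu, zpow_sub₀ hu, mul_comm (3 : ℤ), zpow_mul, zpow_ofNat]
  field_simp

lemma ee_div (M : ℕ) (a : ℤ) : ee (a / M) = ee (1 / M) ^ a := by
  rw [ee, ee, ← Complex.exp_int_mul]
  congr 1
  ring

lemma cst (M : ℕ) (a J : ℤ) :
    (((-1) ^ J.natAbs * ze M a : Zb) : ℂ) = (-1) ^ J * ee (1 / M) ^ a := by
  have h1 : ((-1 : ℂ)) ^ J.natAbs = (-1) ^ J := by
    rcases Int.even_or_odd J with h | h
    · rw [h.neg_one_zpow, (Int.natAbs_even.2 h).neg_one_pow]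
    · rw [h.neg_one_zpow, (Int.natAbs_odd.2 h).neg_one_pow]
  rw [← h1, ← ee_div]
  push_cast
  rfl

/-- the third difference of the four identities -/
lemma comb {θ G : ℤ → ℂ} {J a E : ℤ → ℤ} {t : ℂ} (M : ℕ) (ht : t ≠ 0)
    (h : ∀ n, θ n * (-ee (a n / M)) ^ J n = t ^ E n * G n) :
    p4 θ = (-1) ^ (-s4 J) * ee (1 / M) ^ (-s4 fun n => J n * a n) * p4 G * t ^ s4 E := by
  have hw : ee (1 / M) ≠ 0 := Complex.exp_ne_zero _
  have h1 : (-1 : ℂ) ≠ 0 := by norm_num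
  have e : p4 (fun n => θ n * ((-1) ^ J n * ee (1 / M) ^ (J n * a n))) =
      p4 fun n => t ^ E n * G n := by
    congr 1
    funext n
    rw [← h n, neg_eq_neg_one_mul (ee _), mul_zpow, ee_div M (a n), ← zpow_mul, mul_comm (a n)]
  rw [p4_mul, p4_mul, p4_mul, p4_zpow h1, p4_zpow hw, p4_zpow ht] at e
  have h2 := zpow_ne_zero (s4 J) h1
  have h3 := zpow_ne_zero (s4 fun n => J n * a n) hw
  rw [zpow_neg, zpow_neg]
  field_simp
  linear_combination e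

end TUQ0

open TUQ0 in
theorem t_UQ0 (hQEP : QEP) (hTQ : TQ) : UQ0 := by
  intro q N b₁ i₁ hq hN hc hi
  have hM : N * q ≠ 0 := mul_ne_zero hN hq
  have nd := aB_not_dvd hc hi b₁
  choose E hE h using fun n => hTQ (N * q) _ hM (nd n)
  choose d hd using hE
  refine ⟨s4 E, ⟨q * s4 d - 15 * b₁ * s4 fun n => n * fl q N b₁ i₁ n, ?_⟩, fun b₂ i₂ L e he => ?_⟩
  · have k : ∀ n, E n = N * q * d n - 15 * aB q N b₁ i₁ n * fl q N b₁ i₁ n := fun n => by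
      rw [← Nat.cast_mul, ← hd n, fl, add_sub_cancel_right]
    simp only [JJ, s4, k, aB]
    ring
  choose P G q1 s g using fun n => h n (aB q N b₂ i₂ n)
  choose Q u using fun n => KT.TUQ0.inv (nd n) (s n)
  have hp := Nat.pos_of_ne_zero hM
  have q2 := fun n => (hQEP _ hM).2 _ _ _ (q1 n) (u n) fun z hz => (g n z hz).1
  obtain ⟨c, hc⟩ : ∃ c : Zb, c = (-1) ^ (JJ q N b₁ i₁).natAbs * ze (N * q) (AA q N b₁ b₂ i₁ i₂) :=
    ⟨_, rfl⟩
  have q3 := (((((q1 1).mul hp ((q1 3).pow hp 3)).mul hp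
    (((q2 2).pow hp 3).mul hp (q2 4))).smul c).shift e)
  refine ⟨X ^ e * (C c * (P 1 * P 3 ^ 3 * (Q 2 ^ 3 * Q 4))), fun z hz => ?_, fun T => ?_⟩
  · have h1 := q3 z hz
    have ht : ee (z / (N * q : ℕ)) ≠ 0 := Complex.exp_ne_zero _
    have hE : qq (z / (N * q : ℕ)) ^ (0 + 3 * 0 + (3 * 0 + 0) + e) =
        ee (z / (N * q : ℕ)) ^ s4 E * qq (z / (N * q : ℕ)) ^ L := by
      change ee (z / (N * q : ℕ)) ^ _ = _ * ee (z / (N * q : ℕ)) ^ L
      rw [← he, ← zpow_natCast, ← zpow_natCast, ← zpow_add₀ ht]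
      congr 1
      push_cast
      ring
    rw [hE, ← mul_assoc _ _ (qq _ ^ L)] at h1
    suffices ui q N b₁ b₂ i₁ i₂ z = (c : ℂ) *
        (G 1 z * G 3 z ^ 3 * ((G 2 z)⁻¹ ^ 3 * (G 4 z)⁻¹)) * ee (z / (N * q : ℕ)) ^ s4 E by
      rw [this]
      exact h1
    have h2 := comb (N * q) ht fun n => (g n z hz).2
    have hq' : (q : ℂ) ≠ 0 := Nat.cast_ne_zero.2 hq
    have hN' : (N : ℂ) ≠ 0 := Nat.cast_ne_zero.2 hN
    rw [hc, TUQ0.cst, inv_pow, ← mul_inv, ← div_eq_mul_inv, ui, uf, uF]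
    refine Eq.trans (congrArg p4 (funext fun n => ?_)) h2
    congr 1
    simp only [aB]
    push_cast
    field_simp
    ring
  · rw [← hc, ← Ideal.mem_span_singleton, ← Ideal.Quotient.mk_eq_mk_iff_sub_mem]
    have r : ∀ n, Ideal.Quotient.mk (Ideal.span {X ^ T}) (pU q N b₁ b₂ i₁ i₂ T n) =
        Ideal.Quotient.mk (Ideal.span {X ^ T}) (P n) := fun n =>
      ((Ideal.Quotient.mk_eq_mk_iff_sub_mem _ _).2 (Ideal.mem_span_singleton.2 (s n T))).symm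
    have v : X ^ e * (C c * (P 1 * P 3 ^ 3 * (Q 2 ^ 3 * Q 4))) * (P 2 ^ 3 * P 4) =
        C c * X ^ e * (P 1 * P 3 ^ 3) := by
      have := congrArg₂ (fun x y => C c * X ^ e * (P 1 * P 3 ^ 3) * (x ^ 3 * y)) (u 2) (u 4)
      simp only [one_pow, mul_one] at this
      rw [← this]
      ring
    have := congrArg (Ideal.Quotient.mk (Ideal.span {X ^ T})) v
    simpa only [map_mul, map_pow, r] using this

end Pool.Agent.P.MP_9c97e9_nt.K2
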