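import Pool.Agent.P.MP_9c97e9_nt.K2.IfU
import Pool.Agent.P.MP_9c97e9_nt.KT.TUQF

/-! Expansions of the units at infinity. -/

namespace Pool.Agent.P.MP_9c97e9_nt.K2

open MP_8b7eba_nt.R2 KT
open MP_8b7eba_nt.R1 (Zb QE ze)
open PowerSeries Finset
open KT.TUQF (ze_congr map_pS)

namespace TUQF

theorem unit_p {M : ℕ} (a : ℤ) {B : ℤ} (h : ¬ (15 * M : ℤ) ∣ B) (T : ℕ) :
    IsUnit (pS M a B T) := by
  rw [isUnit_iff_constantCoeff, pS, map_prod]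
  refine IsUnit.of_mul_eq_one 1 ((mul_one _).trans (prod_eq_one fun c _ => ?_))
  rcases Nat.eq_zero_or_pos c with rfl | hc
  · rw [if_neg fun e => h (by simpa using e), if_neg fun e => h (by simpa using e), mul_one,
      map_one]
  · split_ifs <;> simp [hc.ne']

theorem aB_cj {q N : ℕ} {b b' i i' c : ℤ} (hb : (q : ℤ) ∣ b' - b * c) (hi : (N : ℤ) ∣ i' - i * c)
    (n : ℤ) : ((N * q : ℕ) : ℤ) ∣ aB q N b' i' n - aB q N b i n * c := by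
  obtain ⟨k, hk⟩ := hb
  obtain ⟨m, hm⟩ := hi
  refine ⟨m + n * k, ?_⟩
  simp only [aB]
  push_cast
  linear_combination q * hm + N * n * hk

theorem AA_cj {q N : ℕ} {b b' i i' c : ℤ} (hb : (q : ℤ) ∣ b' - b * c) (hi : (N : ℤ) ∣ i' - i * c)
    (b₁ i₁ : ℤ) : ((N * q : ℕ) : ℤ) ∣ AA q N b₁ b' i₁ i' - AA q N b₁ b i₁ i * c := by
  choose k hk using aB_cj hb hi
  refine ⟨-s4 fun n => fl q N b₁ i₁ n * k n, ?_⟩
  simp only [AA, s4]
  linear_combination -fl q N b₁ i₁ 1 * hk 1 + 3 * fl q N b₁ i₁ 2 * hk 2 -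
    3 * fl q N b₁ i₁ 3 * hk 3 + fl q N b₁ i₁ 4 * hk 4

theorem val_cj {M : ℕ} [NeZero M] (x : ZMod M) (c : ℤ) : (M : ℤ) ∣ (x * c).val - x.val * c :=
  (ZMod.intCast_eq_intCast_iff_dvd_sub _ _ _).1 (by simp)

/-- the expansions are determined, so they are conjugated -/
theorem xp_cj {q N : ℕ} (h : N.Coprime q) {b₁ b b' i₁ i i' c : ℤ} (h1 : ¬ (N : ℤ) ∣ i₁)
    (hb : (q : ℤ) ∣ b' - b * c) (hi : (N : ℤ) ∣ i' - i * c) (f : Zb →+* Zb)
    (hf : ∀ a a', ((N * q : ℕ) : ℤ) ∣ a' - a * c → f (ze (N * q) a) = ze (N * q) a') {e : ℕ}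
    {A A' : Zb⟦X⟧} (hA : Xp q N b₁ b i₁ i e A) (hA' : Xp q N b₁ b' i₁ i' e A') :
    A' = map f A := by
  have h4 : ∀ T n, map f (pU q N b₁ b i₁ i T n) = pU q N b₁ b' i₁ i' T n := fun T n =>
    map_pS f (hf _ _ (aB_cj hb hi n)) (hf _ _ (by
      rw [neg_mul, ← neg_sub', dvd_neg]; exact aB_cj hb hi n)) _ _
  have h5 : ∀ T n, IsUnit (pU q N b₁ b' i₁ i' T n) := fun T n => unit_p _ (aB_not_dvd h h1 _ n) T
  ext k
  have h6 := map_dvd (map f) (hA (k + 1))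
  simp only [map_sub, map_mul, map_pow, map_X, map_C, map_neg, map_one, h4,
    hf _ _ (AA_cj hb hi b₁ i₁)] at h6
  have h7 := hA' (k + 1)
  simp only [map_mul, map_pow, map_neg, map_one] at h7
  have h8 := dvd_sub h7 h6
  rw [sub_sub_sub_cancel_right, ← sub_mul, (((h5 _ _).pow 3).mul (h5 _ _)).dvd_mul_right] at h8
  exact congrArg _ (sub_eq_zero.1 ((map_sub _ _ _).symm.trans
    (X_pow_dvd_iff.1 h8 k k.lt_succ_self)))

end TUQF

open TUQF in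
theorem t_UQF (hQSUB : QSUB) (hUT : UT) (hUQ0 : UQ0) : UQF := by
  intro q N hq hN h
  have : NeZero q := ⟨hq⟩
  have : NeZero N := ⟨hN⟩
  have nd : ∀ i : ZMod N, i ≠ 0 → ¬ (N : ℤ) ∣ i.val := fun i hi e =>
    hi (by simpa using (ZMod.intCast_zmod_eq_zero_iff_dvd _ N).2 e)
  have key : ∀ (b : ZMod q) (i : ZMod N), ∃ E : ℤ, i ≠ 0 → ∀ (b₂ i₂ : ℤ) (L e : ℕ),
      (e : ℤ) - L = E → ∃ A : Zb⟦X⟧, QE (N * q) L A (ui q N b.val b₂ i.val i₂) ∧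
        Xp q N b.val b₂ i.val i₂ e A := fun b i => by
    by_cases hi : i = 0
    · exact ⟨0, fun c => absurd hi c⟩
    · exact (hUQ0 q N b.val i.val hq hN h (nd i hi)).imp fun _ e _ => e.2
  choose E hE using key
  obtain ⟨L, hL⟩ : ∃ L : ℕ, ∀ b i, ((E b i + L).toNat : ℤ) - L = E b i := by
    refine ⟨univ.sup fun p : ZMod q × ZMod N => (-E p.1 p.2).toNat, fun b i => ?_⟩
    have : (-E b i).toNat ≤ _ :=
      le_sup (f := fun p : ZMod q × ZMod N => (-E p.1 p.2).toNat) (mem_univ (b, i))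
    omega
  have key2 : ∀ (b : VZ q) (v : VZ N), ∃ A : Zb⟦X⟧, v.1 ≠ 0 → QE (N * q) L A (ug q N b v) ∧
      Xp q N b.1.val b.2.val v.1.val v.2.val (E b.1 v.1 + L).toNat A := fun b v => by
    by_cases hv : v.1 = 0
    · exact ⟨0, fun c => absurd hv c⟩
    · exact (hE b.1 v.1 hv b.2.val v.2.val L _ (hL b.1 v.1)).imp fun _ e _ => e
  choose A hA using key2
  refine ⟨L, A, fun b v hv => ⟨(hA b v hv).1, fun σ => ?_⟩⟩
  obtain ⟨f, -, h1, h2⟩ := hQSUB.2.2 σ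
  have hM := mul_ne_zero hN hq
  generalize hc : ((cy (N * q) σ : ZMod (N * q)).val : ℤ) = c
  have e : ∀ {M : ℕ} (x : VZ M), ac4 1 0 0 c x = (x.1, x.2 * c) := fun x => by simp [ac4]
  rw [h1, e, e]
  exact xp_cj h (nd _ hv) (val_cj b.2 c) (val_cj v.2 c) f (fun a a' k => (h2 _ a hM).trans
    (ze_congr hM ((ZMod.intCast_eq_intCast_iff_dvd_sub _ _ _).2 (hc ▸ k)))) (hA b v hv).2
    (hA (b.1, b.2 * c) (v.1, v.2 * c) hv).2

end Pool.Agent.P.MP_9c97e9_nt.K2
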