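import Pool.Agent.P.MP_9c97e9_nt.K2.IfU
import Pool.Agent.P.MP_9c97e9_nt.KT.TVALX

/-! The 2-adic values of the units and of their Hecke translates. -/

namespace Pool.Agent.P.MP_9c97e9_nt.K2

open scoped NNReal Matrix
open MP_8b7eba_nt.R2 KT
open MP_8b7eba_nt.Mod (M2 G0 UH xx yy nP nM an)
open MP_8b7eba_nt.R1 (IntR IntM Zb QE ze Int_mem Int_det Int_exists ze_zero ze_mul_neg ze_pow)
open PowerSeries
open KT.TVALX (Sr qe_Sr map_Sr val_Sr ex ex_spec level)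

namespace TVALX

noncomputable section

variable {q N l L : ℕ}

theorem ug_act (hUT : UT) (hq : q ≠ 0) (hN : N ≠ 0) {γ : M2} (hγ : G0 γ) (b : VZ q)
    (v : {v : VZ N // Gv v}) : ∃ (β : VZ q) (v' : {v : VZ N // Gv v}), ∀ z : ℂ, 0 < z.im →
      ug q N b v (γ.act z) = ug q N β v' z := by
  obtain ⟨c, hc⟩ := hγ.2
  have h1 : IsCoprime γ.a 15 := ⟨γ.d, -(γ.b * c), by
    have := hγ.1
    rw [M2.det, hc] at this
    linear_combination this⟩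
  exact ⟨_, ⟨_, v.2.ac4 h1 γ.b (γ.c / 15) γ.d⟩, fun z hz =>
    (hUT.2.2 q N 0 0 0 0 z hq hN hz).2 b v γ hγ⟩

theorem red (hUT : UT) (hq : q ≠ 0) (hN : N ≠ 0) {m : ℕ} (hm : 0 < m) (h15 : m.Coprime 15) {B : M2}
    (hB : B.det = m) (hc : 15 ∣ B.c) (b : VZ q) (v : {v : VZ N // Gv v}) :
    ∃ (β : VZ q) (v' : {v : VZ N // Gv v}), ∃ t ∈ IntR m, ∀ z : ℂ, 0 < z.im →
      ug q N b v (B.act z) = ug q N β v' ((IntM t).act z) := by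
  obtain ⟨t, ht, γ, hγ, rfl⟩ := Int_exists hm h15 hB hc
  obtain ⟨β, v', h⟩ := ug_act hUT hq hN hγ b v
  have hd : 0 < (IntM t).det := by rw [Int_det hm ht]; omega
  exact ⟨β, v', t, ht, fun z hz => by
    rw [M2.act_mul hγ.det_pos.ne' hd hz, h _ (M2.im_act_pos hd hz)]⟩

theorem family (hQ : QSUB) (hUT : UT) (hUHM : UHM) (hq : q ≠ 0) (hN : N ≠ 0) (hNq : N.Coprime q)
    (hl : l ≠ 0) (h15 : l.Coprime 15) {A : VZ q → VZ N → Zb⟦X⟧}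
    (hA : ∀ b v, v.1 ≠ 0 → QE (N * q) L (A b v) (ug q N b v) ∧ ∀ σ, Cj σ (A b v)
      (A (ac4 1 0 0 (cy (N * q) σ : ZMod (N * q)).val b)
        (ac4 1 0 0 (cy (N * q) σ : ZMod (N * q)).val v))) :
    QF (N * q * l) (l ^ 2 * L) (I := (VZ q × {v : VZ N // Gv v}) × ↥(IntR 1 ∪ IntR l))
      (fun i z => ug q N i.1.1 i.1.2 ((IntM i.2).act z)) fun i =>
        Sr (N * q) L (l ^ 2 * L - ex l i.2 * L) i.2.1.2.2 (ex l i.2) (ex_spec hl i.2.2).1 i.2.1.2.1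
          (A i.1.1 i.1.2) := by
  have := NeZero.mk hN
  have := NeZero.mk hq
  have hM := mul_ne_zero hN hq
  have hU := fun (b : VZ q) (v : {v : VZ N // Gv v}) =>
    hUHM q N b.1.val b.2.val v.1.1.val v.1.2.val hq hN hNq v.2.gz.not_dvd
  have hd : ∀ s : ↥(IntR 1 ∪ IntR l), 0 < (IntM s).det := fun s => by
    obtain ⟨m, h1, -, h2, -⟩ := level hl h15 s.2
    rw [Int_det h1 h2]
    omega
  have hqe : ∀ (b : VZ q) (v : {v : VZ N // Gv v}) (s : ↥(IntR 1 ∪ IntR l)) (j : ℤ),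
      QE (N * q * l) (l ^ 2 * L)
      (Sr (N * q) L (l ^ 2 * L - ex l s * L) s.1.2.2 (ex l s) (ex_spec hl s.2).1 j (A b v))
      fun z => ug q N b v ((M2.mk s.1.1 j 0 s.1.2.2).act z) := fun b v s j =>
    have h := ex_spec hl s.2
    qe_Sr hQ hM hl h.1 h.2.1 h.2.2.1 h.2.2.2.1 h.2.2.2.2 j (hA b v v.2.ne).1
  refine ⟨mul_ne_zero hM hl, inferInstance, fun i => MP_8b7eba_nt.Mod.diff_act (hd _) (hU _ _).1,
    fun i => hQ.2.1 _ _ (hd _) (hU _ _).2.2, fun i => hqe _ _ _ _, fun γ hγ ⟨⟨b, v⟩, s⟩ => ?_,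
    fun σ ⟨⟨b, v⟩, s⟩ => ?_⟩
  · obtain ⟨m, h1, h2, h3, h4⟩ := level hl h15 s.2
    obtain ⟨β, v', t, ht, h⟩ := red hUT hq hN h1 h2 (B := IntM s * γ)
      (by rw [M2.det_mul, Int_det h1 h3, hγ.1, mul_one]) (by simpa [IntM] using hγ.2.mul_left _) b v
    exact ⟨((β, v'), ⟨t, h4 ht⟩), fun z hz => by
      have := h z hz
      rwa [M2.act_mul (hd s).ne' hγ.det_pos hz] at this⟩
  · obtain ⟨m, h1, h2, h3, h4⟩ := level hl h15 s.2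
    obtain ⟨f, -, f2, f3⟩ := hQ.2.2 σ
    have h5 := fun a => f3 (s.1.2.2 * (N * q)) a (mul_ne_zero (ex_spec hl s.2).2.2.1 hM)
    obtain ⟨β, v', t, ht, h⟩ := red hUT hq hN h1 h2 (B := M2.mk s.1.1
      (s.1.2.1 * (cy (s.1.2.2 * (N * q)) σ : ZMod (s.1.2.2 * (N * q))).val) 0 s.1.2.2)
      (by simpa [IntM, M2.det] using Int_det h1 h3) (dvd_zero _)
      (ac4 1 0 0 (cy (N * q) σ : ZMod (N * q)).val b)
      ⟨_, v.2.ac4 isCoprime_one_left 0 0 (cy (N * q) σ : ZMod (N * q)).val⟩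
    refine ⟨((β, v'), ⟨t, h4 ht⟩), (f2 _ _).2 ?_⟩
    rw [map_Sr f _ _ h5, ← (f2 _ _).1 ((hA b v v.2.ne).2 σ)]
    exact (hqe β v' ⟨t, h4 ht⟩ _).unique (Nat.pos_of_ne_zero (mul_ne_zero hM hl))
      ((hqe _ ⟨_, v.2.ac4 isCoprime_one_left 0 0 _⟩ s _).congr fun z hz => (h z hz).symm)

end

end TVALX

open TVALX in
theorem t_VALX (hFB : FB) (hTR : TR) (hCONJ : CONJ) (hEV2 : EV2) (hQSUB : QSUB) (hUT : UT)
    (hUHM : UHM) (hUQF : UQF) (hEXA : EXA) : VALX := by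
  intro q N l t x y hq hN hNq hl hl15 h0 ht hx hy
  have h15 : l.Coprime 15 := (Nat.Prime.coprime_iff_not_dvd hl).2 hl15
  obtain ⟨L, A, hA⟩ := hUQF q N hq hN hNq
  obtain ⟨τ, hτ, hv⟩ := hCONJ _ _ _ _ _ (family hQSUB hUT hUHM hq hN hNq hl.ne_zero h15 hA)
    t x y h0 ht hx hy
  refine ⟨τ, hτ, fun b₁ b₂ i₁ i₂ hg => ?_⟩
  obtain ⟨β, v, e⟩ : ∃ (β : VZ q) (v : {v : VZ N // Gv v}), ∀ z : ℂ, 0 < z.im →
      ui q N b₁ b₂ i₁ i₂ z = ug q N β v z :=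
    ⟨(b₁, b₂), ⟨(i₁, i₂), hg⟩, fun z hz => (hUT.2.2 q N b₁ b₂ i₁ i₂ z hq hN hz).1.symm⟩
  have hL := ((hEXA q N hq hN hNq).1 β v v.2).1
  have e1 : lf (ui q N b₁ b₂ i₁ i₂) = lf (ug q N β v) :=
    (hFB.2.2.2.2.2.1 _ _ (hFB.2.2.2.2.1 _ _ hL e) hL).2.2.2.2.2.2.2 e
  have key : ∀ s (hs : s ∈ IntR 1 ∪ IntR l), V2a (N * q) (ui q N b₁ b₂ i₁ i₂)
      (i2 (zo (ze (s.2.2 * (N * q)) s.2.1)) * t ^ ex l s)
      (i2 (ev τ (lf fun z => ug q N β v ((IntM s).act z)))) := fun s hs =>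
    ⟨L, A β v, (hA β v v.2.ne).1.congr e, val_Sr hEV2 h0 ht (ex_spec hl.ne_zero hs).1 (by
      have := hv ((β, v), ⟨s, hs⟩)
      rwa [Nat.add_sub_cancel' (Nat.mul_le_mul_right L (ex_spec hl.ne_zero hs).2.2.2.2)])⟩
  have z1 : zo 1 = 1 := by
    obtain ⟨f, hf⟩ := hEV2.1
    rw [← (hf 1).1, map_one]
  rw [e1]
  refine ⟨?_, fun s hs => ?_⟩
  · simpa [z1, ex, IntM, M2.act, MP_8b7eba_nt.Mod.mob] using
      key (1, 0, 1) (Finset.mem_union_left _ ((Int_mem one_pos).2 (by simp)))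
  · have h1 := key s (Finset.mem_union_right _ hs)
    have h2 := Int_det hl.pos hs
    obtain ⟨h3, h4⟩ := (Int_mem hl.pos).1 hs
    rw [((hTR.1 (IntM s) ⟨by rw [h2]; exact_mod_cast hl.pos,
      by rw [h2]; exact Nat.isCoprime_iff_coprime.2 h15, dvd_zero _⟩).2.2.2 _ hL).2]
    have h5 : ex l s = s.1 ^ 2 := by
      rw [ex, ← h3, Nat.mul_div_cancel _ (by omega), pow_two]
    have h6 : ze (s.2.2 * (N * q)) s.2.1 = ze (N * q * l) s.2.1 := by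
      rcases hl.eq_one_or_self_of_dvd _ (Dvd.intro_left _ h3) with h | h
      · rw [show s.2.1 = 0 by omega, Nat.cast_zero, ze_zero, ze_zero]
      · rw [h, mul_comm]
    rwa [h5, h6] at h1

end Pool.Agent.P.MP_9c97e9_nt.K2
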