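import Pool.Agent.P.MP_9c97e9_nt.K2.IfEB
import Pool.Agent.P.MP_9c97e9_nt.KT.TWCP

/-! The weighted cup product as a cup product over the cyclotomic field. -/

namespace Pool.Agent.P.MP_9c97e9_nt.K2

open scoped NNReal Matrix
open MP_8b7eba_nt.R2 KT
open IsUltrametricDist
open KT.TWCP (ec_sum ec_congr ec_pow smul_le dt_sum cv)

namespace TWCP

variable {D : Dat} {k : ℕ} {x y : GQ → (ZMod (2 ^ (k + 2)))ˣ → V2}

lemma zc_cv (hx : D.ZC k x) (W : (ZMod (2 ^ (k + 2)))ˣ → ℤ) : D.ZC k (cv W x) := by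
  obtain ⟨N, hN, h⟩ := hx.sm
  refine ⟨fun g η => norm_sum_le_of_forall_le_of_nonneg zero_le_one fun δ _ =>
    smul_le _ (hx.int g δ), ⟨N, hN, fun g hg n hn m η => ?_⟩, fun g hg h hh η => ?_⟩
  · rw [cv, cv, ← Finset.sum_sub_distrib]
    refine norm_sum_le_of_forall_le_of_nonneg (by positivity) fun δ _ => ?_
    rw [← smul_sub]
    exact smul_le _ (h g hg n hn m δ)
  · rw [cv, cv, cv, Matrix.mulVec_sum,
      ← Equiv.sum_comp (Equiv.mulRight (cy (2 ^ (k + 2)) g)⁻¹) fun δ => D.rd g *ᵥ _,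
      ← Finset.sum_sub_distrib, ← Finset.sum_sub_distrib]
    refine norm_sum_le_of_forall_le_of_nonneg (by positivity) fun δ _ => ?_
    rw [Equiv.coe_mulRight, Matrix.mulVec_smul, mul_inv_rev, inv_inv, ← mul_assoc,
      inv_mul_cancel_right, ← smul_sub, ← smul_sub]
    exact smul_le _ (hx.co g hg h hh δ)

lemma zc_one (hx : D.ZC k x) : T2.Zc D.dl (HC2 k) k fun g => x g 1 := by
  obtain ⟨N, hN, h⟩ := hx.sm
  refine ⟨⟨N, hN, fun g hg n hn m => h g hg.1 n hn.1 m 1⟩, fun g _ => hx.int g 1,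
    fun g hg h hh => ?_⟩
  have := hx.co g hg.1 h hh.1 1
  rwa [show cy (2 ^ (k + 2)) g = 1 from hg.2, inv_one, mul_one] at this

/-- the components of the cup product -/
noncomputable def FF (D : Dat) (k : ℕ) (x y : GQ → (ZMod (2 ^ (k + 2)))ˣ → V2)
    (η : (ZMod (2 ^ (k + 2)))ˣ) (g h : GQ) : Om :=
  ec (dt (x g η) (D.rd g *ᵥ y h (η * (cy _ g)⁻¹)) / 2 ^ k)

lemma main (hCORP : CORP) (hZMX : ZMX) (hZQE : ZQE) (hx : D.ZC k x) (hy : D.ZC k y) :
    (nv w2 w2.D fun g h => ∏ η, FF D k x y η g h) =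
      rv (HC2 k) k (cpr D.dl k (fun g => x g 1) fun g => y g 1) := by
  obtain ⟨-, -, e1, e2, e3⟩ := hZQE k
  obtain ⟨r1, r2, r3, N₃, hN₃, r4⟩ := e3 D.dl D.fix_dl
  have d1 : ∀ {u v : V2} {ε : ℝ}, ‖u‖ ≤ ε → ‖v‖ ≤ 1 → ‖dt u v‖ ≤ ε := fun hu hv =>
    (e2 _ _).trans ((mul_le_of_le_one_right (norm_nonneg _) hv).trans hu)
  have d2 : ∀ {u v : V2} {ε : ℝ}, ‖u‖ ≤ 1 → ‖v‖ ≤ ε → ‖dt u v‖ ≤ ε := fun hu hv =>
    (e2 _ _).trans ((mul_le_of_le_one_left (norm_nonneg _) hu).trans hv)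
  have i1 : ∀ g h η η', ‖dt (x g η) (D.rd g *ᵥ y h η')‖ ≤ 1 := fun g h η η' =>
    d1 (hx.int _ _) ((r1 _ _).trans (hy.int _ _))
  have on := TCYB.on (M := 2 ^ (k + 2)) (by positivity)
  obtain ⟨-, c2, c3⟩ := hCORP w2.D w2.loc_D _ (fun g η => η * cy (2 ^ (k + 2)) g) (fun _ => HC2 k)
    (FF D k x y) {1}
    ⟨fun j => by simp, fun g _ h _ j => by rw [map_mul, mul_comm (cy _ g), mul_assoc],
      ⟨_, on, fun g _ n _ m => by simp only [map_mul, show cy _ n = 1 from m, mul_one]⟩,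
      fun j g => and_congr_right fun _ => mul_eq_left.symm⟩
    (fun j => ⟨1, ⟨Finset.mem_singleton_self _, by simpa using (hZMX.2.2.2 k).2 j⟩,
      fun r hr => Finset.mem_singleton.1 hr.1⟩)
    (fun j g _ h _ e => by
      have := ec_pow (k := k) (i1 g h j (j * (cy _ g)⁻¹))
      rw [show ec _ = 0 from e, zero_pow (by positivity)] at this
      exact zero_ne_one this)
    (fun j => by
      obtain ⟨N₁, hN₁, s1⟩ := hx.sm
      obtain ⟨N₂, hN₂, s2⟩ := hy.sm
      refine ⟨_, (hN₁.inf hN₂).inf (hN₃.inf on), fun g hg h hh n hn m => ⟨?_, ec_congr ?_⟩⟩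
      · rw [FF, FF, map_mul, show cy _ n = 1 from m.2.2, mul_one]
        refine ec_congr ?_
        generalize j * _ = η
        rw [show ∀ u u' v v' : V2, dt u' v' - dt u v = dt (u' - u) v' + dt u (v' - v) from
          fun u u' v v' => by simp only [dt, Pi.sub_apply]; ring]
        refine SelA.add (d1 (s1 g hg n hn m.1.1 j) ((r1 _ _).trans (hy.int _ _)))
          (d2 (hx.int _ _) ?_)
        rw [Dat.rd, Dat.rd, r2, ← Matrix.mulVec_mulVec, ← Matrix.mulVec_sub]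
        exact (r1 _ _).trans (r4 n m.2.1 _ (hy.int _ _))
      · rw [show ∀ u v v' : V2, dt u v' - dt u v = dt u (v' - v) from
          fun u v v' => by simp only [dt, Pi.sub_apply]; ring, ← Matrix.mulVec_sub]
        exact d2 (hx.int _ _) ((r1 _ _).trans (s2 h hh n hn m.1.2 _)))
    (fun j g hg h hh l hl => by
      have p := hy.co h hh l hl (j * (cy _ g)⁻¹)
      have q := hx.co g hg h hh j
      simp only [FF, map_inv, map_mul, mul_inv_rev, mul_comm (cy _ h)⁻¹, ← mul_assoc]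
      rw [a_EC.1.gal, ← mul_div_assoc, ← cq, ← r3, ← a_EC.1.add, ← a_EC.1.add, ← add_div,
        ← add_div]
      refine ec_congr ?_
      simp only [Dat.rd, r2, ← Matrix.mulVec_mulVec] at p q ⊢
      replace p := (r1 g _).trans p
      rw [Matrix.mulVec_sub, Matrix.mulVec_sub] at p
      have i2 := (r1 g _).trans ((r1 h _).trans (hy.int l (j * (cy _ g)⁻¹ * (cy _ h)⁻¹)))
      rw [show ∀ A B C E U V : V2, dt B E + dt A U - (dt V E + dt A C) =
          dt A (U - C - E) + -dt (V - A - B) E from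
          fun A B C E U V => by simp only [dt, Pi.sub_apply]; ring]
      exact SelA.add (d2 (hx.int _ _) p) ((norm_neg _).trans_le (d1 q i2)))
    (fun r _ => ⟨k, Triv.one.congr fun g _ h _ => ec_pow (i1 _ _ _ _)⟩)
  have c4 := c2 1 (Finset.mem_singleton_self _)
  have c5 : ∀ g ∈ HC2 k, ∀ h ∈ HC2 k, ec (((cpr D.dl k (fun g => x g 1) (fun g => y g 1) g h).val :
      ℚ_[2]) / 2 ^ k) = FF D k x y 1 g h := fun g hg h _ => by
    rw [FF, show cy (2 ^ (k + 2)) g = 1 from hg.2, inv_one, mul_one, e1 _ (i1 _ _ _ _)]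
    rfl
  rw [c3, Finset.prod_singleton]
  refine a_INV2.1 w2 _ _ _ (hZMX.2.2.2 k).1.1 c4 (c4.1.congr c5) (Triv.one.congr fun g hg h hh => ?_)
  simp only [Pi.div_apply, c5 g hg h hh]
  exact div_self (c4.1.ne g hg h hh)

end TWCP

open K2.TWCP in
theorem t_WCP (hCORP : CORP) (hRVX : RVX) (hZMX : ZMX) (hZQE : ZQE) : WCP := by
  intro D k x y z W hx hy hz
  have e : (fun g => ∑ ε, (W ε : ℚ_[2]) • x g ε) = fun g => cv W x g 1 := by simp [cv]
  rw [e, ← main hCORP hZMX hZQE (zc_cv hx W) hy]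
  refine ⟨zc_one (zc_cv hx W), zc_one hy, congrArg _ (funext₂ fun g h => ?_)⟩
  obtain ⟨-, -, -, e2, e3⟩ := hZQE k
  simp only [FF, cv, dt_sum]
  rw [← ec_sum, ← Finset.sum_div, Finset.sum_comm]
  refine ec_congr ?_
  simp only [← Finset.sum_sub_distrib, ← mul_sub]
  refine norm_sum_le_of_forall_le_of_nonneg (by positivity) fun δ _ =>
    norm_sum_le_of_forall_le_of_nonneg (by positivity) fun η _ => ?_
  rw [norm_mul, show ∀ u u' v : V2, dt u' v - dt u v = dt (u' - u) v from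
    fun u u' v => by simp only [dt, Pi.sub_apply]; ring]
  exact (mul_le_of_le_one_left (norm_nonneg _) (Padic.norm_int_le_one _)).trans ((e2 _ _).trans
    ((mul_le_of_le_one_right (norm_nonneg _)
      (((e3 D.dl D.fix_dl).1 _ _).trans (hy.int _ _))).trans (hz g δ)))

end Pool.Agent.P.MP_9c97e9_nt.K2
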