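import Pool.Agent.P.MP_9c97e9_nt.K2.IfU
import Pool.Agent.P.MP_9c97e9_nt.KT.TZEX

/-! Existence of the zeta cocycle. -/

namespace Pool.Agent.P.MP_9c97e9_nt.K2

open MP_8b7eba_nt.R2 KT

open KT.TZEX (Pd Pd_congr Pd_ex) in
theorem t_ZEX (hSECX : SECX) (hTRIV : TRIV) (hKC : KCU) (hCOK : COK) (hCUSP : CUSP)
    (hEINV : EINV) : ZEX := by
  intro q l k M hl h15 hL
  obtain ⟨-, hM, hk, -⟩ := id hL
  obtain ⟨hcm, hgeo, hctx, -⟩ := hCOK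
  obtain ⟨hOk, hNm, -, hHC⟩ := hctx k M hM hk
  have hR := hHC l hl.ne_zero ((Nat.Prime.coprime_iff_not_dvd hl).2 h15)
  obtain ⟨hI, hU⟩ := (hEINV.2 q k M hL).1
  obtain ⟨b, hb, hbe⟩ := hTRIV k M (E0 q M) hM hk hI hU
  have hG := t_GEN AL LL (CL k M) hOk
  have hSp : (CL k M).Sp geo (fE k (E0 q M)) b := ⟨(hG.2 _ _ (hG.1 _ hI).1).1, hb, hbe⟩
  obtain ⟨K1, -, K3, ⟨S, K4⟩, -⟩ := hKC AL LL (CL k M) geo _ b hOk hNm hSp
  obtain ⟨τ, x, y, hA, hx, hy⟩ := hSECX.2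
  obtain ⟨s, hs⟩ := hSECX.1 τ x y ⊤ hA hx hy
  have hm := fun σ => hs.mem σ (Subgroup.mem_top σ)
  have sp : ∀ σ d, Pd l k M ((CL k M).kk (fE k (E0 q M)) b (s σ)) d
      (Classical.epsilon (Pd l k M ((CL k M).kk (fE k (E0 q M)) b (s σ)) d)) := fun σ d =>
    Classical.epsilon_spec (Pd_ex hCUSP hl h15 (K1 _ (hm σ).1) d)
  refine ⟨b, fun σ d => Classical.epsilon (Pd l k M ((CL k M).kk (fE k (E0 q M)) b (s σ)) d),
    hSp, fun σ d => (sp σ d).1, ?_, fun g hg γ hγ d => ?_⟩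
  · obtain ⟨N, hN, e⟩ := hs.sm S
    refine ⟨N, hN, fun σ hσ n hn hnN => funext fun d => ?_⟩
    refine congrArg Classical.epsilon (Pd_congr hR hNm (fun γ hγ => ?_) d)
    rw [hs.mul σ hσ n hn]
    exact K4 _ (hm σ).1 _ (hm n).1 (e n hn hnN) γ hγ
  · have hs1 := hm (cg g)
    have h1 : g * (s (cg g))⁻¹ ∈ GG := GG.mul_mem hg (GG.inv_mem hs1.1)
    have h2 : g * (s (cg g))⁻¹ ∈ geo := by
      refine (hgeo _).2 ⟨h1, ?_⟩
      have := hcm _ h1 _ hs1.1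
      rw [inv_mul_cancel_right, hs1.2] at this
      exact right_eq_mul.1 this
    have h3 : Pd l k M ((CL k M).kk (fE k (E0 q M)) b g) d =
        Pd l k M ((CL k M).kk (fE k (E0 q M)) b (s (cg g))) d := Pd_congr hR hNm (fun γ' hγ' => by
      rw [← K3 _ hs1.1 γ' hγ' _ h2, inv_mul_cancel_right]) d
    exact ((congrFun h3 _).mpr (sp (cg g) d)).2 γ hγ

end Pool.Agent.P.MP_9c97e9_nt.K2
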