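import Pool.Agent.P.MP_9c97e9_nt.K2.IfU
import Pool.Agent.P.MP_9c97e9_nt.KT.TZTK

/-! Proof of ZTK. -/

namespace Pool.Agent.P.MP_9c97e9_nt.K2

open scoped Matrix
open MP_8b7eba_nt.R2 KT

namespace TZTK

variable {q k M : ℕ}

/-- the cuspidal cocycle -/
theorem cusp (hLING : LING) (hKCR : KCR) (hTRF : TRF) (hCOK : COK) (hEINV : EINV) {l : ℕ}
    {b : AL → (CL k M).A} {z : GQ → (ZMod M)ˣ → V2} (hl : l.Prime) (h15 : ¬ l ∣ 15)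
    (hM : Lv0 q k M) (hZ : ZK q l k M b z) :
    ∃ fP bP, (CL k M).Sp geo fP bP ∧ (CL k M).Eqv (fE k (Ep q l M)) fP ∧
      ∀ g ∈ GG, ∀ γ ∈ geo, ∀ d, (CL k M).kk fP bP g γ d = pu k (z (cg g) d) γ := by
  have c15 : l.Coprime 15 := (Nat.Prime.coprime_iff_not_dvd hl).2 h15
  obtain ⟨hC, hN, -, hR⟩ := hCOK.2.2.1 k M hM.2.1 hM.2.2.1
  replace hR := hR l hl.ne_zero c15
  obtain ⟨l1, l2, l3, l4, -⟩ := hLING AL LL (CL k M) hC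
  obtain ⟨s1, s2⟩ := (hKCR AL LL (CL k M) geo _ (HC l) hC hN hR).2 _ _ hZ.sp
  obtain ⟨s3, s4, -⟩ := l4 _ _ _ hZ.sp (-(l + 1))
  obtain ⟨hS, s5⟩ := (l4 _ _ _ s1 0).2.2 _ _ s3
  refine ⟨_, _, hS, ?_, fun g hg γ hγ d => ?_⟩
  · have e : Ep q l M = (HC l).cor (E0 q M) + (-(l + 1) : ℤ) • E0 q M := by
      rw [hCOK.2.2.2.1, Ep, neg_smul, sub_eq_add_neg, ← natCast_zsmul]
      push_cast
      rfl
    have e1 := (l1 ((HC l).cor (E0 q M)) ((-(l + 1) : ℤ) • E0 q M) 0).1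
    rw [(l1 _ 0 _).2.1, ← e] at e1
    rw [fE, e1]
    exact (l3 _ _ (hTRF AL LL (CL k M) geo _ (HC l) hC hN hR _ (hEINV.2 q k M hM).1.1).2).2.2.2 _ _
      (l2 _)
  · rw [s5, s2 g hg γ hγ, s4, ← hZ.eq g hg γ hγ d]
    simp only [Pi.add_apply, Pi.smul_apply]
    simp only [zsmul_eq_mul]
    push_cast
    ring

end TZTK

open KT.TZTK (rho_le sub_le eqv_sec gam_mem two_sec) in
theorem t_ZTK (hSECX : SECX) (hLING : LING) (hKC : KCU) (hKCR : KCR) (hTRF : TRF) (hCOK : COK)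
    (hZQ : ZQ) (hEVAL : EVAL) (hEINV : EINV) : ZTK := by
  intro q l k M b z hl h15 hM hZ
  obtain ⟨hC, hN, hO, -⟩ := hCOK.2.2.1 k M hM.2.1 hM.2.2.1
  have iP := (hEINV.2 q k M hM).2 l hl.ne_zero ((Nat.Prime.coprime_iff_not_dvd hl).2 h15)
  obtain ⟨fP, bP, hS, hE, hk⟩ := TZTK.cusp hLING hKCR hTRF hCOK hEINV hl h15 hM hZ
  obtain ⟨z1, z2, z3, z4, -⟩ := hZQ k
  refine ⟨hZ.int, hZ.sm, fun g h d => ?_, fun H τ τ' s s' hs hs' => ?_⟩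
  · obtain ⟨τ, x, y, h1, h2, h3⟩ := hSECX.2
    obtain ⟨s, hs⟩ := hSECX.1 τ x y ⊤ h1 h2 h3
    have m := fun g => hs.mem g (Subgroup.mem_top g)
    have n1 := sub_le (hZ.int (g * h) d) (hZ.int g d)
    have n2 := rho_le g (hZ.int h (d * (cy M g)⁻¹))
    refine (z4 _ (sub_le n1 n2)).2.1 fun γ hγ => ?_
    have := congrFun ((hKC AL LL (CL k M) geo fP bP hC hN hS).2.1 _ (m g).1 _ (m h).1 γ hγ) d
    rw [← hs.mul g trivial h trivial, Pi.add_apply, hk _ (m _).1 γ hγ, hk _ (m _).1 γ hγ, Cx.ac,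
      hk _ (m _).1 _ (hN.nm _ (m g).1 γ hγ)] at this
    have h5 := ((z4 _ (hZ.int h (d * (cy M g)⁻¹))).2.2.2.2.2 _ (m g).1 γ hγ).1
    simp only [(m _).2] at this h5
    rw [((z4 _ n1).2.2.2.2.1 _ n2 γ).2, ((z4 _ (hZ.int _ _)).2.2.2.2.1 _ (hZ.int _ _) γ).2, this,
      h5, z3 M g hM.2.1 hM.2.2.1]
    ring
  · obtain ⟨v1, v2⟩ := hEVAL k M _ hM.2.1 hM.2.2.1 iP τ H s hs
    obtain ⟨-, v3⟩ := hEVAL k M _ hM.2.1 hM.2.2.1 iP τ' H s' hs'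
    obtain ⟨-, -, o3, -⟩ := hLING _ _ _ (hO H)
    have a1 := (o3 _ _ v2).2.2.1 _ (eqv_sec hs hE)
    have a2 := (o3 _ _ v3).2.2.1 _ (eqv_sec hs' hE)
    have a3 := (o3 _ _ a2).2.2.2 _ _ ((o3 _ _ a1).2.1 (-1))
    rw [neg_one_zsmul, neg_one_zsmul, ← sub_eq_add_neg, ← sub_eq_add_neg] at a3
    obtain ⟨β, b1, b2⟩ := (o3 _ _ a3).2.2.1 _ (two_sec hLING hKC hCOK hM.2.1 hM.2.2.1 hs hs' hS)
    refine ⟨v1, β, b1, fun g hg h hh => ?_⟩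
    rw [← b2 g hg h hh]
    congr 1
    funext d
    have m1 := hs.mem g hg
    have m2 := gam_mem hCOK hs hs' hh
    have m3 := hN.nm _ (GG.inv_mem m1.1) _ m2
    rw [inv_inv] at m3
    simp only
    rw [hk _ m1.1 _ m3, ((z4 _ (hZ.int _ _)).2.2.2.2.2 _ m1.1 _ m2).2 _ (hs.mem h hh).1, m1.2]
    simp only [inv_mul_cancel_right]

end Pool.Agent.P.MP_9c97e9_nt.K2
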