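import Pool.Agent.P.MP_9c97e9_nt.K2.IfEB
import Pool.Agent.P.MP_9c97e9_nt.KT.TGEN
import Pool.Agent.P.MP_9c97e9_nt.KT.TSMQ

/-! The zeta cocycle compares two points. -/

namespace Pool.Agent.P.MP_9c97e9_nt.K2

open scoped Matrix
open MP_8b7eba_nt.R2 KT

theorem t_ZTW (hRVX : RVX) (hZQE : ZQE) : ZTW := by
  have _ := hZQE
  intro q l k M zt H τ τ' s s' β δ hz hL hM hd hcy hβ hs hs' hc hc'
  have hrd : ∀ g ∈ H, T2.rd β g = T2.rho g := fun g hg => SelA.rd_fix T2 (hβ g hg)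
  refine ⟨⟨?_, fun g _ => hz.int g δ, fun g hg h _ => ?_⟩, ?_⟩
  · obtain ⟨N, hN, e⟩ := hz.sm
    exact ⟨N, hN, fun g _ n _ m => by simp [e g trivial n trivial m]⟩
  · have := hz.co g h δ
    rwa [hcy g hg, inv_one, mul_one, ← hrd g hg] at this
  obtain ⟨b, h1, h2⟩ := (hz.two H τ τ' s s' hs hs').2
  have hC := (hRVX H k hL).2.2.1
  obtain ⟨k1, k2⟩ := (hC _ hc).2.2.2.1 (-1)
  obtain ⟨k3, k4⟩ := (hC _ hc').2.2.1 _ k1
  rw [div_eq_mul_inv, ← zpow_neg_one, ← k2, ← k4]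
  refine ((hC _ k3).2.2.2.2 _ (fun g => -b g δ) ((((t_SMQ _ H).2.1 b).1 h1).comp fun F => -F δ)
    fun g hg h hh => ?_).2
  have h3 := congrFun (h2 g hg h hh) δ
  simp only [Cx.d1, Cx.ac, Pi.sub_apply, Pi.add_apply, hcy g hg, inv_one, mul_one,
    TGEN.red_one hd hM, one_mul] at h3
  simp only [cpr, fv, hrd g hg, Pi.add_apply, Pi.smul_apply, neg_smul, one_smul, Pi.neg_apply]
  linear_combination -h3

end Pool.Agent.P.MP_9c97e9_nt.K2
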