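import Pool.Agent.P.MP_9c97e9_nt.K2.TUT
import Pool.Agent.P.MP_9c97e9_nt.K2.TUHM
import Pool.Agent.P.MP_9c97e9_nt.K2.TUD
import Pool.Agent.P.MP_9c97e9_nt.K2.TUQ0
import Pool.Agent.P.MP_9c97e9_nt.K2.TUQ
import Pool.Agent.P.MP_9c97e9_nt.K2.TUQF
import Pool.Agent.P.MP_9c97e9_nt.K2.TEXA
import Pool.Agent.P.MP_9c97e9_nt.K2.TEINV
import Pool.Agent.P.MP_9c97e9_nt.K2.TNA
import Pool.Agent.P.MP_9c97e9_nt.K2.TNLP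
import Pool.Agent.P.MP_9c97e9_nt.K2.TNL
import Pool.Agent.P.MP_9c97e9_nt.K2.TNF
import Pool.Agent.P.MP_9c97e9_nt.K2.TNE
import Pool.Agent.P.MP_9c97e9_nt.K2.TVALX
import Pool.Agent.P.MP_9c97e9_nt.K2.TZEX
import Pool.Agent.P.MP_9c97e9_nt.K2.TZTK
import Pool.Agent.P.MP_9c97e9_nt.K2.TNREL
import Pool.Agent.P.MP_9c97e9_nt.K2.TTWA
import Pool.Agent.P.MP_9c97e9_nt.K2.TTWB
import Pool.Agent.P.MP_9c97e9_nt.K2.TGX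
import Pool.Agent.P.MP_9c97e9_nt.K2.TGSX
import Pool.Agent.P.MP_9c97e9_nt.K2.TPTS
import Pool.Agent.P.MP_9c97e9_nt.K2.TTEL0
import Pool.Agent.P.MP_9c97e9_nt.K2.TTEL1
import Pool.Agent.P.MP_9c97e9_nt.K2.TTEL3
import Pool.Agent.P.MP_9c97e9_nt.K2.TTEL4
import Pool.Agent.P.MP_9c97e9_nt.K2.TTEL
import Pool.Agent.P.MP_9c97e9_nt.K2.TYEX
import Pool.Agent.P.MP_9c97e9_nt.K2.TPRD
import Pool.Agent.P.MP_9c97e9_nt.K2.TTRL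
import Pool.Agent.P.MP_9c97e9_nt.K2.TEQV
import Pool.Agent.P.MP_9c97e9_nt.K2.TSHY
import Pool.Agent.P.MP_9c97e9_nt.K2.TCORY
import Pool.Agent.P.MP_9c97e9_nt.K2.TCORB
import Pool.Agent.P.MP_9c97e9_nt.K2.TCORE
import Pool.Agent.P.MP_9c97e9_nt.K2.TEPV
import Pool.Agent.P.MP_9c97e9_nt.K2.TTWE
import Pool.Agent.P.MP_9c97e9_nt.K2.TWCP
import Pool.Agent.P.MP_9c97e9_nt.K2.TZTW
import Pool.Agent.P.MP_9c97e9_nt.K2.TUZX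
import Pool.Agent.P.MP_9c97e9_nt.K2.TPNA
import Pool.Agent.P.MP_9c97e9_nt.K2.TPNB
import Pool.Agent.P.MP_9c97e9_nt.K2.TFINX
import Pool.Agent.P.MP_9c97e9_nt.K2.TRVH
import Pool.Agent.P.MP_9c97e9_nt.K2.TERX
import Pool.Agent.P.MP_9c97e9_nt.KT.Main

/-! The Euler system and its explicit reciprocity law. -/

namespace Pool.Agent.P.MP_9c97e9_nt.K2

theorem z_UT : UT := t_UT KT.a_THX

theorem z_UHM : UHM := t_UHM z_UT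

theorem z_UQ0 : UQ0 := t_UQ0 KT.t_QEP (KT.t_TQ KT.t_QEP)

theorem z_UQ : UQ := t_UQ z_UT z_UQ0

theorem z_UQF : UQF := t_UQF KT.z_QSUB z_UT z_UQ0

theorem z_EXA : EXA := t_EXA KT.z_FB KT.z_TR KT.z_DENSE KT.z_GALX z_UT z_UHM z_UQF

theorem z_EINV : EINV := t_EINV KT.z_UNITS KT.z_LING KT.z_TRF KT.z_COK z_UT z_EXA

theorem z_NE : NE :=
  t_NE KT.z_LING KT.z_TRF KT.z_COK KT.z_LAB z_EINV
    (t_NA KT.z_FB KT.z_BIM KT.z_COK z_UT t_UD z_EXA z_EINV KT.z_UNITS)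
    (t_NL KT.z_BIM KT.z_COK z_EXA z_EINV KT.z_LNX (t_NLQ KT.z_FB KT.z_TR z_UT t_UD z_EXA)
      KT.z_UNITS) (t_NF z_EINV KT.z_LNX)

theorem z_GSX : GSX := t_GSX KT.a_EV2

theorem z_GX : GX :=
  t_GX (t_ZEX KT.z_SECX KT.z_TRIV KT.a_KCU KT.z_COK KT.z_CUSP z_EINV)
    (t_ZTK KT.z_SECX KT.z_LING KT.a_KCU KT.a_KCR KT.z_TRF KT.z_COK KT.z_ZQ KT.z_EVAL z_EINV)
    (t_NREL KT.z_LING KT.a_KCU KT.a_KCR KT.z_COK KT.z_ZQ KT.z_CUSP KT.z_LAB KT.z_SECX z_NE)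
    (t_TWA KT.z_ZQ z_GSX) (t_TWB z_GSX)

theorem z_VALX : VALX :=
  t_VALX KT.z_FB KT.z_TR KT.z_CONJ KT.a_EV2 KT.z_QSUB z_UT z_UHM z_UQF z_EXA

theorem z_PTS : PTS :=
  t_PTS z_GSX (KT.t_ALO KT.t_BAS) KT.t_FINV KT.t_HTL (KT.t_HON KT.t_FINV KT.t_HTB)
    (KT.t_TAIL KT.t_BAS)
    (KT.t_PRM KT.t_EV2 KT.t_PRMA (KT.t_PRMB KT.t_EV2 KT.t_BAS) (KT.t_PRMC KT.t_BAS))

theorem z_TEL : TEL :=
  t_TEL z_GSX (t_TEL1 (t_TEL0 z_GSX KT.a_EV2)) (KT.t_TEL2 KT.t_BAS) (t_TEL4 t_TEL3)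

theorem z_PRD : PRD := t_PRD z_UQ KT.a_EV2 KT.a_ZMX

theorem z_EQV : EQV := t_EQV KT.a_ZMX KT.a_APX z_PRD (t_TRL z_UQ KT.a_EV2 KT.a_ZMX)

theorem z_RVH : RVH :=
  t_RVH KT.a_RESX KT.a_RVX KT.a_ZMX KT.a_CUPB (t_TWE KT.a_ZQE z_GSX)
    (t_WCP KT.a_CORP KT.a_RVX KT.a_ZMX KT.a_ZQE) (t_ZTW KT.a_RVX KT.a_ZQE) (t_UZX z_GSX KT.a_ZMX)

theorem erx_of (hPFX : PFX) (hEEX : EEX) (hSSX : SSX) (hCX : CX) : ERX :=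
  t_ERX KT.a_RVX KT.a_ZMX KT.a_TCX KT.a_LAMF
    (t_EPV KT.a_RVX KT.a_TCX KT.a_ZMX hSSX KT.a_LAMF
      (t_CORE KT.a_TQX KT.a_TCX hSSX KT.a_LAMF KT.a_ZMX
        (t_CORB KT.a_TQX KT.a_ORBS KT.a_FAMT KT.a_ZMX
          (t_CORY KT.a_LOG0 KT.a_RVX KT.a_AH1 KT.a_SYF KT.a_ORBS KT.a_ZMX KT.a_APX z_PRD hPFX hEEX
            z_EQV KT.a_RESX KT.a_SYA KT.a_TQX (t_SHY KT.a_ZMX))) hCX) z_VALX)
    (t_PNA KT.a_ZMX KT.a_TCX KT.a_APX KT.a_EV2 z_PTS z_GSX) (t_PNB KT.z_PRX t_YEX)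
    (t_FINX KT.a_TQX KT.a_TCX hSSX) z_RVH KT.z_SECX z_TEL

theorem esx_of (h : ERX) : ESX := fun D => by
  obtain ⟨z, h1, h2⟩ := z_GX D 7 (by norm_num) (by norm_num)
  exact ⟨z, h1, h D 7 z (by norm_num) (by norm_num) h2⟩

end Pool.Agent.P.MP_9c97e9_nt.K2
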