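import Pool.Agent.P.MP_9c97e9_nt.K2.IfC

/-! The differences of the products of Eisenstein series are multiples of the cusp form. -/

namespace Pool.Agent.P.MP_9c97e9_nt.K2

open MP_8b7eba_nt.R2 (io)
open KT
open PowerSeries

theorem t_CX (hCXTR : CXTR) (hCXGE : CXGE) (hCXGI : CXGI) (hCXGC : CXGC) (hCXG0 : CXG0)
    (hCXFI : CXFI) (hCXW : CXW) : CX := by
  intro q M δ δ' j hq hM hc hR
  obtain ⟨t1, t2⟩ := hCXTR q M δ hq hM hc
  obtain ⟨t3, t4⟩ := hCXTR q M δ' hq hM hc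
  have h := hCXFI (15 * M * q) (fun z => Gc q M δ z - Gc q M δ' z)
    (fun n => coeff n (gC q M δ) - coeff n (gC q M δ'))
    (Nat.pos_of_ne_zero (mul_ne_zero (mul_ne_zero (by norm_num) hM) hq.ne))
    (fun z hz => by
      simpa only [sub_mul] using (hCXGE q M δ z hq hM hc hz).sub (hCXGE q M δ' z hq hM hc hz))
    (fun γ hγ z hz => by
      beta_reduce
      rw [hCXGI q M δ hq hM hc γ hγ z hz, hCXGI q M δ' hq hM hc γ hγ z hz, mul_sub])
    (fun g hg _ => hCXGC q M δ δ' hq hM hc hR g hg) (sub_eq_zero.2 (hCXG0 q M δ δ' hq hM hR)) j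
  obtain ⟨p, m, hp, h15, e, -⟩ := hR
  have hd : p ∣ M := ⟨m, e.trans (mul_comm _ _)⟩
  beta_reduce at h
  rw [hCXW q M p δ hq hM hc hp h15 hd, hCXW q M p δ' hq hM hc hp h15 hd, ← t2, ← t4] at h
  apply io.injective
  rw [← coeff_map, map_sub, t1, t3, map_sub, h]
  split_ifs
  · simp only [map_mul, map_sub, map_ofNat, map_natCast, map_intCast]
    ring
  · simp

end Pool.Agent.P.MP_9c97e9_nt.K2
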