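import Pool.Agent.P.MP_9c97e9_nt.K2.IfC

/-! The boundary symbols do not contribute. -/

namespace Pool.Agent.P.MP_9c97e9_nt.K2

open KT.Cx (zc zc_add zc_congr zc_eq_one)
open Finset

namespace TCXBD

theorem shift {M : ℕ} (f : ℕ → ℂ) (h : ∀ ν, f (ν + M) = f ν) (k : ℕ) :
    ∑ ν ∈ range M, f (ν + k) = ∑ ν ∈ range M, f ν := by
  induction k with
  | zero => rfl
  | succ k ih =>
    have e1 := sum_range_succ (fun ν => f (ν + k)) M
    have e2 := sum_range_succ' (fun ν => f (ν + k)) M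
    rw [add_comm M k, h] at e1
    rw [e1, zero_add, add_left_inj] at e2
    rw [← ih, e2]
    exact sum_congr rfl fun ν _ => by rw [add_assoc, add_comm 1 k]

theorem cls {p m : ℕ} (hp : p.Coprime 15) (hm : 0 < m) (ν : ℕ) :
    (p * m / ν.gcd (p * m)).gcd 15 = (m / ν.gcd m).gcd 15 := by
  obtain ⟨a, c, h1, h2, h3⟩ := Nat.exists_coprime ν m
  have hg := Nat.gcd_pos_of_pos_right ν hm
  generalize ν.gcd m = g at *
  subst h2 h3
  obtain ⟨t, ht⟩ := Nat.gcd_dvd_right a p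
  have h0 : 0 < a.gcd p := Nat.gcd_pos_of_pos_right a (Nat.pos_of_ne_zero fun e => by simp [e] at hp)
  rw [← mul_assoc, Nat.gcd_mul_right, h1.symm.gcd_mul_right_cancel_right,
    Nat.mul_div_mul_right _ _ hg, Nat.mul_div_cancel _ hg]
  have e : p * c / a.gcd p = t * c := by
    apply Nat.div_eq_of_eq_mul_right h0
    rw [← mul_assoc, ← ht]
  rw [e]
  exact Nat.Coprime.gcd_mul_left_cancel c (Nat.Coprime.coprime_dvd_left ⟨a.gcd p, by
    rw [mul_comm]; exact ht⟩ hp)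

end TCXBD

open TCXBD in
theorem t_CXBD : CXBD := by
  rintro M p D b hM hp h15 ⟨m, rfl⟩ hD
  have hm : 0 < m := Nat.pos_of_ne_zero fun e => hM (by rw [e, mul_zero])
  have hM' := Nat.pos_of_ne_zero hM
  have hc := (Nat.Prime.coprime_iff_not_dvd hp).2 h15
  have h := shift (M := p * m)
    (fun ν => zc (p * m) (ν * D) * b ((p * m / ν.gcd (p * m)).gcd 15)) (fun ν => by
      rw [Nat.gcd_add_self_left, zc_congr hM' (b := ν * D) ⟨D, by push_cast; ring⟩]) m
  have e : ∀ ν : ℕ, zc (p * m) ((ν + m : ℕ) * D) * b ((p * m / (ν + m).gcd (p * m)).gcd 15) =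
      zc (p * m) (m * D) * (zc (p * m) (ν * D) * b ((p * m / ν.gcd (p * m)).gcd 15)) := fun ν => by
    rw [cls hc hm, cls hc hm, Nat.gcd_add_self_left, Nat.cast_add, add_mul, zc_add]
    ring
  simp only [e, ← mul_sum] at h
  by_contra h0
  obtain ⟨k, hk⟩ := (zc_eq_one hM').1 ((mul_eq_right₀ h0).1 h)
  refine hD ⟨k, mul_left_cancel₀ (a := (m : ℤ)) (by exact_mod_cast hm.ne') ?_⟩
  rw [hk]
  push_cast
  ring

end Pool.Agent.P.MP_9c97e9_nt.K2
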