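import Pool.Agent.P.MP_9c97e9_nt.K2.TCXC1

/-! The part of the second constant term. -/

namespace Pool.Agent.P.MP_9c97e9_nt.K2

open KT
open KT.Cx (sw zc eS sw_congr)
open KT.TCXC1 (single)
open PowerSeries Finset

open K2.TCXC1 in
theorem t_CXC2 (hCXES : CXES) (hCXRE : CXRE) : CXC2 := by
  classical
  intro q M δ n n' hq hM hc hn
  have h0 : 0 < M * q := Nat.pos_of_ne_zero (mul_ne_zero hM hq.ne)
  have hW : 0 < 15 * M * q := by rw [mul_assoc]; omega
  let F : ℤ × ℤ → ℤ → ℤ → ℂ := fun p A B =>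
    sw (M * q) B * if ((15 * M * q : ℕ) : ℤ) ∣ p.1 - A then -(p.1.sign : ℂ) else 0
  rw [coeff_sI q M _ δ _ ((M * q : ℕ) : ℤ).divisorsAntidiag (fun p b₁ b₂ i₁ i₂ j₁ j₂ =>
    F p (aB q (15 * M) b₁ (5 * i₁) n) (aB q (15 * M) b₁ (3 * j₁) n') * zc (15 * M * q)
      (aB q (15 * M) b₂ (5 * i₂) n * p.2 + aB q (15 * M) b₂ (3 * j₂) n' * 0))
    fun b₁ b₂ i₁ i₂ j₁ j₂ => by
      rw [pr, c0_eq, coeff_mul_C, coeff_e0 hCXES, sum_mul]
      refine sum_congr rfl fun p _ => ?_
      simp only [F, mul_zero, add_zero]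
      split_ifs <;> ring,
    sum_congr rfl fun p _ => hCXRE q M δ n n' p.2 0 (F p) hq hM hc hn fun A A' B B' hA hB => by
      simp only [F, sw_per h0 hB, ite_per p.1 _ hA], ← mul_sum]
  congr 1
  simp only [En2, Rat.cast_sum, mul_sum, ← mul_assoc 15]
  rw [sum_congr rfl fun p _ => sum_comm (s := range (15 * M * q)), sum_comm,
    sum_comm (s := range M)]
  refine sum_congr rfl fun B _ => ?_
  rw [sum_comm (s := range M)]
  refine sum_congr rfl fun p _ => ?_
  refine Eq.trans (sum_congr rfl fun A _ => ?_) ((single hW p.1 (fun A => ∑ ν ∈ range M,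
    if cnd q M ν n n' A p.2 B 0 then -(p.1.sign : ℂ) * sw (M * q) B *
      zc M (ν * (q * (δ : ZMod M).val)) else 0) fun x hx => sum_congr rfl fun ν _ =>
        if_congr (cnd_congr hx (by simp)).symm rfl rfl).trans (sum_congr rfl fun ν _ => ?_))
  · simp only [F]
    split_ifs
    · refine sum_congr rfl fun ν _ => ?_
      split_ifs <;> ring
    · simp
  · split_ifs
    · push_cast; ring
    · simp

end Pool.Agent.P.MP_9c97e9_nt.K2
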