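import Pool.Agent.P.MP_9c97e9_nt.K2.IfC
import Pool.Agent.P.MP_9c97e9_nt.KT.TCXCM

/-! The main part of the coefficient. -/

namespace Pool.Agent.P.MP_9c97e9_nt.K2

open KT.Cx (zc eS zc_add)
open KT.TCXRE (rd rd_spec)
open KT.TCXCM (pick)
open PowerSeries Finset

namespace TCXCM

theorem anti (K : ℕ) (f g : ℕ → ℂ) :
    (∑ m ∈ antidiagonal (15 * K), (if 15 ∣ m.1 then f (m.1 / 15) else 0) *
      if 15 ∣ m.2 then g (m.2 / 15) else 0) = ∑ m ∈ antidiagonal K, f m.1 * g m.2 := by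
  symm
  refine sum_of_injOn (fun m => (15 * m.1, 15 * m.2)) (fun m _ l _ e => ?_) (fun m hm => ?_)
    (fun m hm h1 => ?_) fun m _ => ?_
  · simp only [Prod.mk.injEq] at e
    exact Prod.ext (by omega) (by omega)
  · rw [mem_coe, HasAntidiagonal.mem_antidiagonal] at hm ⊢
    dsimp only
    omega
  · rw [HasAntidiagonal.mem_antidiagonal] at hm
    by_cases h : 15 ∣ m.1
    · exact (h1 ⟨(m.1 / 15, m.2 / 15), mem_coe.2 (HasAntidiagonal.mem_antidiagonal.2 (by dsimp only; omega)),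
        Prod.ext (by dsimp only; omega) (by dsimp only; omega)⟩).elim
    · rw [if_neg h, zero_mul]
  · simp

theorem cnd_congr {q M : ℕ} {ν n n' A A' C B B' D : ℤ} (hA : ∃ u, A' = A + (15 * M * q : ℕ) * u)
    (hB : ∃ u, B' = B + (15 * M * q : ℕ) * u) :
    cnd q M ν n n' A' C B' D ↔ cnd q M ν n n' A C B D := by
  obtain ⟨u, rfl⟩ := hA
  obtain ⟨v, rfl⟩ := hB
  have k : ∀ {d x y : ℤ} (z : ℤ), y = x + d * z → (d ∣ y ↔ d ∣ x) := fun z e => by
    rw [e, dvd_add_left (dvd_mul_right _ _)]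
  exact and_congr (and_congr (k (3 * M * q * u) (by push_cast; ring))
      (not_congr (k (5 * M * q * u) (by push_cast; ring))))
    (and_congr (and_congr (k (5 * M * q * v) (by push_cast; ring))
      (not_congr (k (3 * M * q * v) (by push_cast; ring))))
    (and_congr (and_congr (k (15 * M * (n' * u - n * v)) (by push_cast; ring)) Iff.rfl)
    (and_congr (k (15 * q * ν * v) (by push_cast; ring))
      (k (-(15 * q * ν * u)) (by push_cast; ring)))))

theorem sI_sum {ι : Type} (s : Finset ι) (q M : ℕ) (δ : (ZMod M)ˣ) (f : ι → F6 ℂ) :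
    (sI q M δ fun a b c d e g => ∑ x ∈ s, f x a b c d e g) = ∑ x ∈ s, sI q M δ (f x) :=
  sum_comm

/-- the indicator of two residue classes -/
def ind (W : ℕ) (x y A B : ℤ) : ℂ :=
  if (W : ℤ) ∣ x - A then if (W : ℤ) ∣ y - B then (x.sign * y.sign : ℂ) else 0 else 0

theorem ind_congr (W : ℕ) (x y A A' B B' : ℤ) (hA : A ≡ A' [ZMOD W]) (hB : B ≡ B' [ZMOD W]) :
    ind W x y A B = ind W x y A' B' := by
  have k : ∀ z a b : ℤ, a ≡ b [ZMOD W] → ((W : ℤ) ∣ z - a ↔ (W : ℤ) ∣ z - b) := fun z a b h => by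
    rw [show z - a = z - b + (b - a) by ring, dvd_add_left h.dvd]
  simp only [ind, k x A A' hA, k y B B' hB]

theorem ind_sum {W : ℕ} (hW : 0 < W) (x y : ℤ) (G : ℕ → ℕ → ℂ) :
    ∑ A ∈ range W, ∑ B ∈ range W, ind W x y A B * G A B =
      x.sign * y.sign * G (rd W x) (rd W y) := by
  simp only [ind, ite_mul, zero_mul, sum_ite_irrel, sum_const_zero]
  rw [pick hW, pick hW]

end TCXCM

open TCXCM in
theorem t_CXCM (hCXES : CXES) (hCXRE : CXRE) : CXCM := by
  intro q M δ n n' hq hM hc hn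
  have hW : 0 < 15 * M * q := by have := hq.ne; positivity
  have e : ∀ A B a b : ℤ, coeff (15 * M * q) (eS (15 * M * q) a (15 * A) *
      eS (15 * M * q) b (15 * B)) = ∑ m ∈ antidiagonal (M * q),
      ∑ p ∈ (m.1 : ℤ).divisorsAntidiag, ∑ r ∈ (m.2 : ℤ).divisorsAntidiag,
        ind (15 * M * q) p.1 r.1 A B * zc (15 * M * q) (a * p.2 + b * r.2) := by
    intro A B a b
    rw [coeff_mul]
    simp only [hCXES (15 * M * q)]
    generalize hw : 15 * M * q = W
    rw [show antidiagonal W = antidiagonal (15 * (M * q)) by rw [← hw, mul_assoc]]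
    refine (anti (M * q)
      (fun k => ∑ p ∈ (k : ℤ).divisorsAntidiag,
        if (W : ℤ) ∣ p.1 - A then -(p.1.sign : ℂ) * zc W (a * p.2) else 0)
      (fun k => ∑ p ∈ (k : ℤ).divisorsAntidiag,
        if (W : ℤ) ∣ p.1 - B then -(p.1.sign : ℂ) * zc W (b * p.2) else 0)).trans ?_
    simp only [sum_mul_sum, zc_add, ind]
    refine sum_congr rfl fun m _ => sum_congr rfl fun p _ => sum_congr rfl fun r _ => ?_
    split_ifs <;> ring
  have e1 : coeff (15 * M * q) (sI q M δ (pr (e0 q (15 * M) n) (e0 q (15 * M) n'))) =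
      sI q M δ fun b₁ b₂ i₁ i₂ j₁ j₂ => coeff (15 * M * q)
        (pr (e0 q (15 * M) n) (e0 q (15 * M) n') b₁ b₂ i₁ i₂ j₁ j₂) := map_sum _ _ _
  rw [e1]
  simp only [pr, e0, e, sI_sum, hCXRE q M δ n n' _ _ _ hq hM hc hn (ind_congr _ _ _), ind_sum hW]
  simp only [Mn, Int.cast_sum, mul_sum]
  rw [sum_comm (s := range M)]
  refine sum_congr rfl fun m _ => ?_
  rw [sum_comm (s := range M)]
  refine sum_congr rfl fun p _ => ?_
  rw [sum_comm (s := range M)]
  refine sum_congr rfl fun r _ => sum_congr rfl fun ν _ => ?_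
  rw [propext (cnd_congr (rd_spec hW p.1) (rd_spec hW r.1))]
  split_ifs <;> simp [mul_comm]

end Pool.Agent.P.MP_9c97e9_nt.K2
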