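import Pool.Agent.P.MP_9c97e9_nt.K2.IfC

/-! The periods along the sixteen geodesics. -/

namespace Pool.Agent.P.MP_9c97e9_nt.K2

open MP_8b7eba_nt.Mod (M2 G0 nP nM lv lv_G0 lv_eq coeff_eq)

namespace TCXCP

theorem par0 (u v h : ℤ) (h15 : 15 ∣ h * v ^ 2) (hu : u ≠ 0 ∨ v ≠ 0) {x y : ℤ}
    (hx : x ≠ 0 ∨ y ≠ 0) :
    lv (x + h * (u * y - v * x) * u) (y + h * (u * y - v * x) * v) = lv x y := by
  have hg : G0 ⟨1 - h * u * v, h * u ^ 2, -(h * v ^ 2), 1 + h * u * v⟩ :=
    ⟨by simp only [M2.det]; ring, h15.neg_right⟩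
  have h1 := lv_G0 hg hu
  have h2 := lv_G0 hg hx
  simp only at h1 h2
  rw [show (1 - h * u * v) * u + h * u ^ 2 * v = u by ring,
    show -(h * v ^ 2) * u + (1 + h * u * v) * v = v by ring] at h1
  rw [show (1 - h * u * v) * x + h * u ^ 2 * y = x + h * (u * y - v * x) * u by ring,
    show -(h * v ^ 2) * x + (1 + h * u * v) * y = y + h * (u * y - v * x) * v by ring] at h2
  linear_combination h2 - h1

theorem par (s t h a q : ℤ) (h15 : 15 ∣ h * (5 * s + 2 * t) ^ 2) (hu : s ≠ 0 ∨ t ≠ 0) (hq : q ≠ 0)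
    {a' q' : ℤ} (ha : a' = a + h * (t * a - s * q) * s) (hq' : q' = q + h * (t * a - s * q) * t) :
    lv (2 * a' + q') (5 * a' + 2 * q') = lv (2 * a + q) (5 * a + 2 * q) := by
  rw [← par0 (2 * s + t) (5 * s + 2 * t) h h15 (by omega) (x := 2 * a + q) (y := 5 * a + 2 * q)
    (by omega), ha, hq']
  congr 1 <;> ring

theorem key (k : ℕ) (g s t d c e a₀ : ℤ) (h1 : t * a₀ - s * 151 = d) (h2 : c * d * t = 12)
    (h3 : g * t * e = 12) (ht : t ≠ 0) (h4 : 3 ∣ a₀ + 151) {n n' a : ℤ}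
    (h : ((151 + 180 * k : ℕ) : ℤ) ∣ n * a - n' ∧ 3 ∣ a + (151 + 180 * k : ℕ))
    (hn : n = g * t) (hn' : n' = g * d) :
    nP (Y1 (151 + 180 * k) a).1 (Y1 (151 + 180 * k) a).2 = nP (2 * a₀ + 151) (5 * a₀ + 2 * 151) ∧
      nM (Y1 (151 + 180 * k) a).1 (Y1 (151 + 180 * k) a).2 =
        nM (2 * a₀ + 151) (5 * a₀ + 2 * 151) := by
  obtain ⟨⟨r, hr⟩, m, hm⟩ := h
  obtain ⟨l, hl⟩ := h4
  subst hn hn'
  push_cast at hr hm
  apply coeff_eq
  rw [← lv_eq, ← lv_eq, ← par s t (15 * k * c) a₀ 151 ⟨k * c * (5 * s + 2 * t) ^ 2, by ring⟩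
    (.inr ht) (by norm_num) rfl (q' := 151 + 180 * k) (by rw [h1]; linear_combination -15 * k * h2)]
  simp only [Y1]
  push_cast
  obtain ⟨μ, hμ⟩ : ∃ μ, a - (a₀ + 15 * k * c * d * s) = 3 * μ :=
    ⟨m - 60 * k - l - 5 * k * c * d * s, by linear_combination hm - hl⟩
  have hρ : 36 * μ = (151 + 180 * k) * (e * (r - g * s)) := by
    linear_combination -12 * hμ - (a - (a₀ + 15 * k * c * d * s)) * h3 + e * hr - e * g * h1 -
      15 * e * k * g * s * h2
  generalize e * (r - g * s) = ρ at hρ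
  refine par 1 0 (-(3 * (31 * μ - (130 + 155 * k) * ρ))) _ _
    ⟨-(5 * (31 * μ - (130 + 155 * k) * ρ)), by ring⟩ (.inl one_ne_zero) (by positivity) ?_ (by ring)
  rw [h1]
  linear_combination hμ - 3 * (130 + 155 * k) * hρ

end TCXCP

open TCXCP in
theorem t_CXCP : CXCP := by
  intro q a hq h
  obtain ⟨k, rfl⟩ : ∃ k, q = 151 + 180 * k := ⟨q / 180, by omega⟩
  have k11 := key k 1 1 1 1 12 12 152 rfl rfl rfl (by decide) (by decide)
    (h 1 1 (by decide) (by decide)) (by decide) (by decide)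
  have k12 := key k 1 0 1 2 6 12 2 rfl rfl rfl (by decide) (by decide)
    (h 1 2 (by decide) (by decide)) (by decide) (by decide)
  have k13 := key k 1 2 1 3 4 12 305 rfl rfl rfl (by decide) (by decide)
    (h 1 3 (by decide) (by decide)) (by decide) (by decide)
  have k14 := key k 1 1 1 4 3 12 155 rfl rfl rfl (by decide) (by decide)
    (h 1 4 (by decide) (by decide)) (by decide) (by decide)
  have k21 := key k 1 3 2 1 6 6 227 rfl rfl rfl (by decide) (by decide)
    (h 2 1 (by decide) (by decide)) (by decide) (by decide)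
  have k22 := key k 2 1 1 1 12 6 152 rfl rfl rfl (by decide) (by decide)
    (h 2 2 (by decide) (by decide)) (by decide) (by decide)
  have k23 := key k 1 1 2 3 2 6 77 rfl rfl rfl (by decide) (by decide)
    (h 2 3 (by decide) (by decide)) (by decide) (by decide)
  have k24 := key k 2 0 1 2 6 6 2 rfl rfl rfl (by decide) (by decide)
    (h 2 4 (by decide) (by decide)) (by decide) (by decide)
  have k31 := key k 1 2 3 1 4 4 101 rfl rfl rfl (by decide) (by decide)
    (h 3 1 (by decide) (by decide)) (by decide) (by decide)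
  have k32 := key k 1 7 3 2 2 4 353 rfl rfl rfl (by decide) (by decide)
    (h 3 2 (by decide) (by decide)) (by decide) (by decide)
  have k33 := key k 3 1 1 1 12 4 152 rfl rfl rfl (by decide) (by decide)
    (h 3 3 (by decide) (by decide)) (by decide) (by decide)
  have k34 := key k 1 8 3 4 1 4 404 rfl rfl rfl (by decide) (by decide)
    (h 3 4 (by decide) (by decide)) (by decide) (by decide)
  have k41 := key k 1 1 4 1 3 3 38 rfl rfl rfl (by decide) (by decide)
    (h 4 1 (by decide) (by decide)) (by decide) (by decide)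
  have k42 := key k 2 3 2 1 6 3 227 rfl rfl rfl (by decide) (by decide)
    (h 4 2 (by decide) (by decide)) (by decide) (by decide)
  have k43 := key k 1 11 4 3 1 3 416 rfl rfl rfl (by decide) (by decide)
    (h 4 3 (by decide) (by decide)) (by decide) (by decide)
  have k44 := key k 4 1 1 1 12 3 152 rfl rfl rfl (by decide) (by decide)
    (h 4 4 (by decide) (by decide)) (by decide) (by decide)
  simp only [s4, k11.1, k11.2, k12.1, k12.2, k13.1, k13.2, k14.1, k14.2, k21.1, k21.2,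
    k22.1, k22.2, k23.1, k23.2, k24.1, k24.2, k31.1, k31.2, k32.1, k32.2, k33.1, k33.2,
    k34.1, k34.2, k41.1, k41.2, k42.1, k42.2, k43.1, k43.2, k44.1, k44.2]
  decide +kernel

end Pool.Agent.P.MP_9c97e9_nt.K2
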