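import Pool.Agent.P.MP_9c97e9_nt.K2.IfC
import Pool.Agent.P.MP_9c97e9_nt.KT.TCXCR

/-! The crossing term as a sum over the group. -/

namespace Pool.Agent.P.MP_9c97e9_nt.K2

open MP_8b7eba_nt.BSD15 (crossSum cross side dt Gam)
open Finset
open KT.TCXCR (Q T mem_T sum_T wt)

namespace TCXCR

/-- the quadruple of a pair of vectors -/
def pv (N μ : ℤ) (u v : ℤ × ℤ) : Q := ((v.2, N * u.1 - μ * u.2), u.2, μ * v.2 - N * v.1)

/-- the quadruple of a matrix -/
def ph (N μ : ℤ) (q : ℕ) (a : ℤ) (γ : Gam) : Q := pv N μ (γ.act (Y1 q a)) (γ.act (2, 5))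

theorem ph_inj {N : ℤ} (hN : N ≠ 0) (μ : ℤ) {q : ℕ} (hq : q ≠ 0) (a : ℤ) :
    Function.Injective (ph N μ q a) := by
  intro γ γ' h
  have q0 : (q : ℤ) ≠ 0 := by exact_mod_cast hq
  simp only [ph, pv, Prod.mk.injEq] at h
  obtain ⟨⟨h1, h2⟩, h3, h4⟩ := h
  rw [h3, sub_left_inj] at h2
  rw [h1, sub_right_inj] at h4
  replace h2 := mul_left_cancel₀ hN h2
  replace h4 := mul_left_cancel₀ hN h4
  simp only [Gam.act, Y1] at h1 h2 h3 h4
  have e1 : γ.a + 2 * γ.b = γ'.a + 2 * γ'.b :=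
    mul_left_cancel₀ q0 (by linear_combination h2 - a * h4)
  have e2 : γ.c + 2 * γ.d = γ'.c + 2 * γ'.d :=
    mul_left_cancel₀ q0 (by linear_combination h3 - a * h1)
  exact Gam.ext (by omega) (by omega) (by omega) (by omega)

theorem range_ph (hO : CXOR) {q N : ℕ} (hq : Aq q) (hN : N ≠ 0) (hc : N.Coprime q) (μ : ℤ)
    {n n' a : ℤ} (hn : IsCoprime n q) (ha : (q : ℤ) ∣ n * a - n') (h3 : 3 ∣ a + q) (x : Q) :
    x ∈ Set.range (ph N μ q a) ↔ x.1.1 * x.1.2 + x.2.1 * x.2.2 = (N * q : ℕ) ∧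
      cnd q N μ n n' x.1.1 x.1.2 x.2.1 x.2.2 := by
  have h15 : ¬ q ∣ 15 := fun h => by
    have := Nat.le_of_dvd (by norm_num) h
    have := hq.lt
    omega
  have N0 : (N : ℤ) ≠ 0 := by exact_mod_cast hN
  constructor
  · rintro ⟨γ, rfl⟩
    obtain ⟨h1, h5, h6, ⟨r, hr⟩, s, hs⟩ := (hO q n n' a _ _ hq.prime hn ha h3 h15).1 ⟨γ, rfl, rfl⟩
    simp only [ph, pv, cnd]
    generalize γ.act (Y1 q a) = u at *
    generalize γ.act (2, 5) = v at *
    rw [dt] at h1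
    refine ⟨by push_cast; linear_combination N * h1, h5, h6, ⟨⟨s, hs⟩, μ * s - N * r, ?_⟩,
      ⟨u.1, by ring⟩, -v.1, by ring⟩
    linear_combination μ * hs - N * hr
  · obtain ⟨⟨A, C⟩, B, D⟩ := x
    rintro ⟨h1, h5, h6, ⟨⟨s, hs⟩, r, hr⟩, ⟨P, hP⟩, b, hb⟩
    simp only at h1 h5 h6 hs hr hP hb
    push_cast at h1
    obtain ⟨γ, e1, e2⟩ := (hO q n n' a (P, B) (-b, A) hq.prime hn ha h3 h15).2
      ⟨mul_left_cancel₀ N0 (by simp only [dt]; linear_combination h1 - A * hP - B * hb), h5, h6,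
        (Nat.isCoprime_iff_coprime.2 hc).symm.dvd_of_dvd_mul_left ⟨μ * s - r, by
          simp only
          linear_combination μ * hs - hr + n * hP + n' * hb⟩, s, hs⟩
    refine ⟨γ, ?_⟩
    simp only [ph, pv, e1, e2, Prod.mk.injEq, true_and]
    exact ⟨by linear_combination -hP, by linear_combination -hb⟩

theorem cross_eq {g M : ℤ} (hg : 0 < g) (hM : 0 < M) (ν : ℤ) {u v : ℤ × ℤ} (h0 : 0 < dt u v) :
    cross (ν, M) (1, 0) u v = wt (pv (g * M) (g * ν) u v) := by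
  have hN := mul_pos hg hM
  have hs : ∀ x : ℤ, (g * x).sign = x.sign := fun x => by
    rw [Int.sign_mul, Int.sign_eq_one_of_pos hg, one_mul]
  have h1 : (dt (ν, M) u).sign = -(pv (g * M) (g * ν) u v).1.2.sign := by
    rw [← Int.sign_neg, ← hs]
    congr 1
    simp only [dt, pv]
    ring
  have h2 : (dt (ν, M) v).sign = (pv (g * M) (g * ν) u v).2.2.sign := by
    rw [← hs]
    congr 1
    simp only [dt, pv]
    ring
  have h3 : dt (1, 0) u = (pv (g * M) (g * ν) u v).2.1 := by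
    simp only [dt, pv]
    ring
  have h4 : dt (1, 0) v = (pv (g * M) (g * ν) u v).1.1 := by
    simp only [dt, pv]
    ring
  have h5 : 0 < (pv (g * M) (g * ν) u v).1.1 * (pv (g * M) (g * ν) u v).1.2 +
      (pv (g * M) (g * ν) u v).2.1 * (pv (g * M) (g * ν) u v).2.2 := by
    refine (mul_pos hN h0).trans_eq ?_
    simp only [dt, pv]
    ring
  unfold cross side wt
  rw [Int.sign_eq_one_of_pos h0, h1, h2, h3, h4]
  generalize pv (g * M) (g * ν) u v = x at h5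
  obtain ⟨⟨c₁, i₁⟩, c₂, i₂⟩ := x
  simp only [mul_one] at h5 ⊢
  refine if_congr ?_ (mul_comm _ _) rfl
  have h6 : -i₁.sign * i₂.sign * (c₂.sign * c₁.sign) = -((c₁ * i₁) * (c₂ * i₂)).sign := by
    simp only [Int.sign_mul]
    ring
  rw [h6, neg_inj, Int.sign_eq_one_iff_pos, mul_pos_iff]
  constructor
  · rintro (h | h)
    · exact h
    · linarith [h.1, h.2]
  · exact Or.inl

end TCXCR

open TCXCR Classical in
theorem t_CXCR (hCXOR : CXOR) : CXCR := by
  intro q g M ν n n' a hq hg hM hc hn ha h3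
  have hg' : (0 : ℤ) < g := by exact_mod_cast hg
  have hM' : (0 : ℤ) < M := by exact_mod_cast hM
  have hN := (mul_pos hg hM).ne'
  have e : ∀ γ : Gam, cross (ν, M) (1, 0) (γ.act (Y1 q a)) (γ.act (2, 5)) =
      wt (ph (g * M : ℕ) (g * ν) q a γ) := fun γ => by
    rw [Nat.cast_mul, ph]
    refine cross_eq hg' hM' ν ?_
    have hd := γ.det_eq
    have : dt (γ.act (Y1 q a)) (γ.act (2, 5)) = q := by
      simp only [dt, Gam.act, Y1]
      linear_combination q * hd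
    rw [this]
    exact_mod_cast hq.prime.pos
  unfold crossSum Mn
  simp only [e]
  rw [← sum_T, ← finsum_mem_range (ph_inj (by exact_mod_cast hN) _ hq.ne a),
    finsum_mem_eq_sum_of_inter_support_eq (t := (T (g * M * q)).filter fun x =>
      cnd q (g * M) (g * ν) n n' x.1.1 x.1.2 x.2.1 x.2.2), sum_filter]
  · refine sum_congr rfl fun x hx => if_congr Iff.rfl ?_ rfl
    rw [mem_T] at hx
    rw [wt, if_pos ⟨hx.1, hx.2.1⟩]
  · ext x
    simp only [Set.mem_inter_iff, range_ph hCXOR hq hN hc _ hn ha h3, coe_filter,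
      Set.mem_ofPred_eq, mem_T, Function.mem_support]
    constructor
    · rintro ⟨⟨h1, h2⟩, h3⟩
      have h4 : 0 < x.1.1 * x.1.2 ∧ 0 < x.2.1 * x.2.2 := by
        by_contra h5
        exact h3 (if_neg h5)
      exact ⟨⟨⟨h4.1, h4.2, h1⟩, h2⟩, h3⟩
    · rintro ⟨⟨⟨-, -, h1⟩, h2⟩, h3⟩
      exact ⟨⟨h1, h2⟩, h3⟩

end Pool.Agent.P.MP_9c97e9_nt.K2
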