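import Pool.Agent.P.MP_9c97e9_nt.K2.TCXE1

/-! The second end term. -/

namespace Pool.Agent.P.MP_9c97e9_nt.K2

open KT
open KT.Cx (sw)
open MP_8b7eba_nt.BSD15 (saw saw_neg endT endT_of_not Gam dt)
open Finset

open TCXE1 in
theorem t_CXE2 (hCXSD : CXSD) (hCXOR : CXOR) : CXE2 := by
  classical
  intro q g M ν n n' a hq hg hM hc hν hn hn' ha h3
  have hq0 : 0 < q := hq.prime.pos
  have cg : g.Coprime q := Nat.Coprime.coprime_mul_right hc
  have cM : M.Coprime q := Nat.Coprime.coprime_mul_left hc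
  have cM' : IsCoprime (q : ℤ) M := Nat.isCoprime_iff_coprime.2 cM.symm
  have hW : g * M * q = g * q * M := by ring
  have h0 : ∀ (B : ℕ) (p : ℤ × ℤ), cnd q (g * M) (g * ν) n n' p.1 p.2 B 0 →
      (M : ℤ) ∣ p.1 ∧ ((g * q : ℕ) : ℤ) ∣ p.2 := by
    rintro B p ⟨-, -, ⟨-, h2⟩, h4, h5⟩
    refine ⟨hν.symm.dvd_of_dvd_mul_left ((dvd1 hg).1 ?_), gq cg ?_ ?_⟩
    · rwa [zero_sub, dvd_neg, mul_assoc] at h5
    · have := (Int.natCast_dvd_natCast.2 (dvd_mul_right g M)).trans h4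
      rwa [mul_assoc, dvd_add_left (dvd_mul_right _ _)] at this
    · rw [mul_zero, add_zero] at h2
      exact hn.symm.dvd_of_dvd_mul_left h2
  have h1 : ∀ B s : ℤ, ((g * M : ℕ) : ℤ) ∣ s * (g * q : ℕ) + g * ν * B ↔ (M : ℤ) ∣ s * q + ν * B :=
    fun B s => by
      rw [← dvd1 (M := M) hg]
      exact iff_of_eq (congrArg _ (by push_cast; ring))
  unfold En2
  by_cases hγ : ∃ γ : Gam, γ.act (2, 5) = (ν, (M : ℤ))
  · obtain ⟨γ, hγ⟩ := hγ
    obtain ⟨e1, ⟨e4, e5⟩, ⟨e2, e3⟩, -, e7⟩ :=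
      (hCXOR q n n' a (γ.act (Y1 q a)) (ν, M) hq.prime hn ha h3 (n15 hq)).1 ⟨γ, rfl, hγ⟩
    rw [val (gcd_eq (a := 5) (b := 3) rfl Nat.prime_three e4 e5) hν hγ]
    generalize γ.act (Y1 q a) = v at e1 e2 e3 e7
    obtain ⟨y, c⟩ := v
    simp only [dt] at e1 e2 e3 e4 e5 e7 ⊢
    rw [show ν * c - M * y = -q by linear_combination -e1,
      show (c : ℚ) / ((-q : ℤ) : ℚ) / ((3 : ℕ) * M) = -(c / ((3 * q * M : ℕ) : ℚ)) by
        push_cast; rw [div_neg, neg_div, div_div]; congr 2; ring, saw_neg, mul_neg, ← neg_mul]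
    refine two hCXSD (k := 5 * g) (by positivity) hM (by positivity) (by positivity) hW (by ring) c
      _ h0 fun B s hs => ?_
    simp only [cnd]
    rw [h1]
    obtain ⟨t, ht⟩ := e7
    constructor
    · rintro ⟨-, ⟨f1, -⟩, ⟨⟨u, hu⟩, -⟩, ⟨v, hv⟩, -⟩
      refine three Nat.prime_three (by norm_num) hq e5 cM (f1.sub (e2.mul_left s))
        (hn.symm.dvd_of_dvd_mul_left ⟨s * t - u, ?_⟩) (hν.symm.dvd_of_dvd_mul_left ⟨v - s * y, ?_⟩)
      · linear_combination s * ht - hu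
      · linear_combination hv + s * e1
    · rintro ⟨u, hu⟩
      push_cast at hu
      have hA : (B : ℤ) = s * c + 3 * q * M * u := by linear_combination hu
      refine ⟨⟨e4.mul_left s, nd hs e5⟩, ⟨?_, fun h => ?_⟩, ⟨⟨s * t - n * 3 * M * u, ?_⟩,
        ⟨n * s * g, ?_⟩⟩, ⟨s * y + ν * 3 * q * u, ?_⟩, -ν * s, ?_⟩
      · rw [hA]
        exact (e2.mul_left s).add ⟨q * M * u, by ring⟩
      · rw [hA, dvd_add_left ((e4.mul_left _).mul_right u)] at h
        exact nd hs e3 h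
      · linear_combination s * ht - n * hA
      · push_cast; ring
      · linear_combination -s * e1 + ν * hA
      · push_cast; ring
  · rw [endT_of_not _ _ hγ, mul_zero]
    refine sum_eq_zero fun B _ => sum_eq_zero fun r hr => if_neg fun h => hγ ?_
    obtain ⟨s, hs, rfl⟩ := shape (by positivity) hM hW hr (h0 B r h).1 (h0 B r h).2
    obtain ⟨⟨f3, f4⟩, ⟨f1, f2⟩, ⟨⟨u, hu⟩, -⟩, f5, -⟩ := h
    obtain ⟨v, hv⟩ := (h1 B s).1 f5
    have := (hCXOR q n n' a (s * v, s * B) (ν, M) hq.prime hn ha h3 (n15 hq)).2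
      ⟨?_, ⟨dv hs f3, fun h => f4 (h.mul_left s)⟩, ⟨f1.mul_left s, nd hs f2⟩,
        cM'.dvd_of_dvd_mul_left ⟨ν * s * u - n, ?_⟩, s * u, ?_⟩
    · obtain ⟨γ, -, hγ⟩ := this
      exact ⟨γ, hγ⟩
    · simp only [dt]
      linear_combination -s * hv + q * hs
    · simp only at hu ⊢
      linear_combination n * s * hv + ν * s * hu - (n' * ν * M + n * q) * hs
    · simp only at hu ⊢
      linear_combination s * hu - n' * M * hs

end Pool.Agent.P.MP_9c97e9_nt.K2
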