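import Pool.Agent.P.MP_9c97e9_nt.K2.IfC

/-! The coefficients of the series of a division point. -/

namespace Pool.Agent.P.MP_9c97e9_nt.K2

open KT.Cx (zc eS)
open PowerSeries Finset

theorem t_CXES : CXES := by
  intro W m a A
  have key : ∀ x : ℤ, (15 * W : ℤ) ∣ x - 15 * A → (15 : ℤ) ∣ x := fun x h => by
    have h1 : (15 : ℤ) ∣ x - 15 * A := (dvd_mul_right _ _).trans h
    omega
  rw [eS, coeff_mk]
  split_ifs with h
  · obtain ⟨k, rfl⟩ := h
    rw [Nat.mul_div_cancel_left _ (by norm_num)]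
    symm
    refine sum_of_injOn (fun p => (15 * p.1, p.2)) (fun p _ r _ e => ?_) (fun p hp => ?_)
      (fun p hp h1 => if_neg fun h2 => h1 ?_) fun p _ => ?_
    · simp only [Prod.mk.injEq] at e
      exact Prod.ext (by omega) e.2
    · rw [mem_coe, Int.mem_divisorsAntidiag] at hp ⊢
      exact ⟨by push_cast; linear_combination 15 * hp.1, by omega⟩
    · obtain ⟨c, hc⟩ := key _ h2
      rw [Int.mem_divisorsAntidiag] at hp
      refine ⟨(c, p.2), mem_coe.2 (Int.mem_divisorsAntidiag.2 ⟨?_, by omega⟩), Prod.ext hc.symm rfl⟩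
      have h3 := hp.1
      rw [hc] at h3
      push_cast at h3
      exact mul_left_cancel₀ (by norm_num : (15 : ℤ) ≠ 0) (by linear_combination h3)
    · refine if_congr ?_ ?_ rfl
      · rw [← mul_sub, mul_dvd_mul_iff_left (by norm_num)]
      · rw [Int.sign_mul, show Int.sign 15 = 1 from rfl, one_mul]
  · refine sum_eq_zero fun p hp => if_neg fun h2 => h ?_
    have h3 := (Int.mem_divisorsAntidiag.1 hp).1
    exact Int.natCast_dvd_natCast.1 (h3 ▸ (key _ h2).mul_right _)

end Pool.Agent.P.MP_9c97e9_nt.K2
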