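import Pool.Agent.P.MP_9c97e9_nt.K2.IfC

/-! The forms of the units at the cusps. -/

namespace Pool.Agent.P.MP_9c97e9_nt.K2

open KT
open KT.Cx (NZ Ew fract_div_ne)
open MP_8b7eba_nt.Mod (M2 atI)
open MP_8b7eba_nt.BSD15 (saw saw_add_int)
open Filter Topology

namespace TCXFC

/-- the value of one term -/
def vl (q N : ℕ) (g : M2) (x y n : ℤ) : ℚ :=
  Int.gcd 15 g.c / 15 * saw (aB q N x y n / (Int.gcd 15 g.c * (N * q) : ℕ))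

theorem gcd_dvd (g : M2) (x y : ℤ) : (Int.gcd 15 g.c : ℤ) ∣ lc g x y :=
  dvd_add (((Int.gcd_dvd_left 15 g.c).mul_right _).mul_left _) ((Int.gcd_dvd_right 15 g.c).mul_left _)

/-- one term -/
theorem term (hCXEC : CXEC) {q N : ℕ} (hq : q ≠ 0) (hN : N ≠ 0) (hc : N.Coprime q) {g : M2}
    (hg : g.det = 1) (b₁ b₂ i₁ i₂ n : ℤ) :
    ∃ L : ℂ, ¬ (N : ℤ) ∣ i₁ →
      Tendsto (fun z => Ew (aB q N b₁ i₁ n / (N * q : ℕ)) (aB q N b₂ i₂ n / (N * q : ℕ))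
        (15 * g.act z) / g.j z) atI (𝓝 L) ∧
      (¬ ((N * q : ℕ) : ℤ) ∣ aB q N (lc g b₁ b₂) (lc g i₁ i₂) n →
        L = vl q N g (lc g b₁ b₂) (lc g i₁ i₂) n) := by
  by_cases hi : (N : ℤ) ∣ i₁
  · exact ⟨0, fun h => absurd hi h⟩
  have hp : 0 < N * q := Nat.pos_of_ne_zero (mul_ne_zero hN hq)
  have hA' : 0 < Int.gcd 15 g.c := Int.gcd_pos_of_ne_zero_left g.c (by norm_num : (15 : ℤ) ≠ 0)
  obtain ⟨L, h1, h2⟩ := hCXEC g hg (aB q N b₁ i₁ n / (N * q : ℕ)) (aB q N b₂ i₂ n / (N * q : ℕ))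
    (Or.inl (fract_div_ne hp fun e => aB_not_dvd hc hi b₁ n (mul_dvd_mul_left 15 e)))
  refine ⟨L, fun _ => ⟨h1, fun hd => h2 _ ?_ (fract_div_ne (Nat.mul_pos hA' hp) fun h => hd ?_)⟩⟩
  · have h0 : (q : ℚ) ≠ 0 := by exact_mod_cast hq
    have h3 : (N : ℚ) ≠ 0 := by exact_mod_cast hN
    have hA : (Int.gcd 15 g.c : ℚ) ≠ 0 := by exact_mod_cast hA'.ne'
    simp only [aB, lc]
    push_cast
    field_simp
    ring
  · exact (Dvd.intro_left (Int.gcd 15 g.c : ℤ) (by push_cast; rfl)).trans h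

theorem nd_q {q N : ℕ} (hq : Aq q) (hc : N.Coprime q) {x : ℤ} (hx : ¬ (q : ℤ) ∣ x) (y : ℤ) {n : ℕ}
    (h0 : n ≠ 0) (h1 : n ≤ 150) : ¬ ((N * q : ℕ) : ℤ) ∣ aB q N x y n := fun e => by
  have h2 : (q : ℤ) ∣ q * y + N * n * x := Dvd.dvd.trans ⟨N, by push_cast; ring⟩ e
  have h3 : IsCoprime (q : ℤ) (N * n) :=
    (Nat.isCoprime_iff_coprime.2 hc.symm).mul_right (Nat.isCoprime_iff_coprime.2 (hq.cop h0 h1).symm)
  exact hx (h3.dvd_of_dvd_mul_left ((dvd_add_right (dvd_mul_right _ _)).1 h2))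

theorem vl_eq {q N : ℕ} (hq : Aq q) (hN : N ≠ 0) (g : M2) {x : ℤ} (h1 : (q : ℤ) ∣ x)
    (h2 : (Int.gcd 15 g.c : ℤ) ∣ x) (y n : ℤ) : vl q N g x y n = vl q N g x y 0 := by
  have hA' : 0 < Int.gcd 15 g.c := Int.gcd_pos_of_ne_zero_left g.c (by norm_num : (15 : ℤ) ≠ 0)
  have h3 : Int.gcd 15 g.c ∣ 15 := by exact_mod_cast Int.gcd_dvd_left 15 g.c
  have h4 : IsCoprime (Int.gcd 15 g.c : ℤ) q := Nat.isCoprime_iff_coprime.2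
    (hq.cop hA'.ne' ((Nat.le_of_dvd (by norm_num) h3).trans (by norm_num)))
  obtain ⟨j, rfl⟩ := h4.mul_dvd h2 h1
  have h0 : (q : ℚ) ≠ 0 := by exact_mod_cast hq.ne
  have h5 : (N : ℚ) ≠ 0 := by exact_mod_cast hN
  have hA : (Int.gcd 15 g.c : ℚ) ≠ 0 := by exact_mod_cast hA'.ne'
  rw [vl, vl, ← saw_add_int ((aB q N _ y 0 : ℤ) / _) (n * j)]
  congr 2
  simp only [aB]
  push_cast
  field_simp
  ring

end TCXFC

open TCXFC in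
theorem t_CXFC (hCXEC : CXEC) : CXFC := by
  intro q N hq hN hc g hg
  choose L hL using term hCXEC hq.ne hN hc hg
  refine ⟨fun b₁ b₂ i₁ i₂ => s4 (L b₁ b₂ i₁ i₂), fun b₁ b₂ i₁ i₂ hi => ⟨?_, fun hb h0 => ?_,
    fun hb i₁' i₂' hi' e => ?_⟩⟩
  · refine ((((hL b₁ b₂ i₁ i₂ 1 hi).1.sub ((hL b₁ b₂ i₁ i₂ 2 hi).1.const_mul 3)).add
      ((hL b₁ b₂ i₁ i₂ 3 hi).1.const_mul 3)).sub (hL b₁ b₂ i₁ i₂ 4 hi).1).congr fun z => ?_
    simp only [Fc, s4]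
    ring
  · by_contra hd
    have k : ∀ n, L b₁ b₂ i₁ i₂ n = vl q N g (lc g b₁ b₂) (lc g i₁ i₂) 0 := fun n => by
      rw [(hL b₁ b₂ i₁ i₂ n hi).2 fun e => aB_not_dvd hc hd _ n (mul_dvd_mul_left 15 e),
        vl_eq hq hN g hb (gcd_dvd g _ _)]
    apply h0
    simp only [s4, k]
    ring
  · have k : ∀ n : ℕ, n ≠ 0 → n ≤ 150 → L b₁ b₂ i₁ i₂ n = L b₁ b₂ i₁' i₂' n := fun n h0 h1 => by
      rw [(hL b₁ b₂ i₁ i₂ n hi).2 (nd_q hq hc hb _ h0 h1),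
        (hL b₁ b₂ i₁' i₂' n hi').2 (nd_q hq hc hb _ h0 h1), e]
    have k1 := k 1 (by norm_num) (by norm_num)
    have k2 := k 2 (by norm_num) (by norm_num)
    have k3 := k 3 (by norm_num) (by norm_num)
    have k4 := k 4 (by norm_num) (by norm_num)
    simp only [Nat.cast_one, Nat.cast_ofNat] at k1 k2 k3 k4
    simp only [s4, k1, k2, k3, k4]

end Pool.Agent.P.MP_9c97e9_nt.K2
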