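import Pool.Agent.P.MP_9c97e9_nt.K2.IfC

/-! Periodicity and transformation of the forms of the units. -/

namespace Pool.Agent.P.MP_9c97e9_nt.K2

open KT
open KT.Cx (NZ Ew fract_div_ne)
open MP_8b7eba_nt.Mod (M2)

namespace TCXFM

theorem nz {q N : ℕ} (hq : q ≠ 0) (hN : N ≠ 0) (h : N.Coprime q) {i : ℤ} (hi : ¬ (N : ℤ) ∣ i)
    (b n : ℤ) (y : ℚ) : NZ (aB q N b i n / (N * q : ℕ)) y :=
  Or.inl (fract_div_ne (Nat.pos_of_ne_zero (mul_ne_zero hN hq)) fun e =>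
    aB_not_dvd h hi b n (mul_dvd_mul_left 15 e))

theorem sh {q N : ℕ} (hq : q ≠ 0) (hN : N ≠ 0) {b b' i i' : ℤ} (h : b ≡ b' [ZMOD q])
    (h' : i ≡ i' [ZMOD N]) (n : ℤ) : ∃ m : ℤ,
      (aB q N b' i' n / (N * q : ℕ) : ℚ) = aB q N b i n / (N * q : ℕ) + m := by
  obtain ⟨k, hk⟩ := h.dvd
  obtain ⟨l, hl⟩ := h'.dvd
  have h0 : (q : ℚ) ≠ 0 := by exact_mod_cast hq
  have h1 : (N : ℚ) ≠ 0 := by exact_mod_cast hN
  refine ⟨l + n * k, ?_⟩
  rw [show b' = b + q * k by linear_combination hk, show i' = i + N * l by linear_combination hl]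
  simp only [aB]
  push_cast
  field_simp
  ring

end TCXFM

theorem t_CXFM (hCXEP : CXEP) (hCXEM : CXEM) : CXFM := by
  intro q N hq hN h b₁ b₂ i₁ i₂ z hi hz
  have hz' : 0 < (15 * z).im := by simpa using hz
  refine ⟨fun b₁' b₂' i₁' i₂' h1 h2 h3 h4 => ?_, fun γ c hγ hc => ?_⟩
  · refine congrArg s4 (funext fun n => ?_)
    obtain ⟨m, hm⟩ := TCXFM.sh hq hN h1 h3 n
    obtain ⟨m', hm'⟩ := TCXFM.sh hq hN h2 h4 n
    rw [hm, hm', hCXEP _ _ _ _ _ hz' (TCXFM.nz hq hN h hi _ _ _)]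
  · have hd : γ.a * γ.d - γ.b * (15 * c) = 1 := by rw [← hc]; exact hγ
    have hj : (M2.mk γ.a (15 * γ.b) c γ.d).j (15 * z) = γ.j z := by
      simp only [M2.j, hc]
      push_cast
      ring
    have ha : 15 * γ.act z = (M2.mk γ.a (15 * γ.b) c γ.d).act (15 * z) := by
      rw [M2.act_eq, M2.act_eq, hj]
      push_cast
      ring
    have k : ∀ n : ℤ, Ew (aB q N b₁ i₁ n / (N * q : ℕ)) (aB q N b₂ i₂ n / (N * q : ℕ))
        (15 * γ.act z) = γ.j z * Ew (aB q N (b₁ * γ.a + b₂ * c) (i₁ * γ.a + i₂ * c) n / (N * q : ℕ))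
          (aB q N (b₁ * (15 * γ.b) + b₂ * γ.d) (i₁ * (15 * γ.b) + i₂ * γ.d) n / (N * q : ℕ))
          (15 * z) := fun n => by
      rw [ha, hCXEM _ (by simp only [M2.det]; linear_combination hd) _ _ _ hz'
        (TCXFM.nz hq hN h hi _ _ _), hj]
      congr 2 <;> simp only [aB] <;> push_cast <;> ring
    simp only [Fc, s4, k]
    ring

end Pool.Agent.P.MP_9c97e9_nt.K2
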