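import Pool.Agent.P.MP_9c97e9_nt.K2.IfC

/-! The constant terms. -/

namespace Pool.Agent.P.MP_9c97e9_nt.K2

open KT PowerSeries Finset
open KT.Cx (sw sw_congr coeff_zero_eC)

namespace TCXG0

/-- the constant term of the series of a unit -/
noncomputable def J (q N : ℕ) (b i : ℤ) : ℂ := s4 fun n => (sw (N * q) (15 * aB q N b i n) : ℂ)

theorem cc (q N : ℕ) (b₁ b₂ i₁ i₂ : ℤ) : constantCoeff (eE q N b₁ b₂ i₁ i₂) = J q N b₁ i₁ := by
  have h : ∀ n, constantCoeff (e1 q N n b₁ b₂ i₁ i₂) = (sw (N * q) (15 * aB q N b₁ i₁ n) : ℂ) :=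
    fun n => by rw [← coeff_zero_eq_constantCoeff_apply, e1, coeff_zero_eC]
  simp only [eE, J, s4, map_sub, map_add, map_mul, h, map_ofNat]

theorem J_congr {q N : ℕ} (hq : q ≠ 0) (hN : N ≠ 0) {b b' i i' : ℤ} (hb : b ≡ b' [ZMOD q])
    (hi : i ≡ i' [ZMOD N]) : J q N b i = J q N b' i' := by
  obtain ⟨k, hk⟩ := hb.symm.dvd
  obtain ⟨l, hl⟩ := hi.symm.dvd
  have h : ∀ n, sw (N * q) (15 * aB q N b i n) = sw (N * q) (15 * aB q N b' i' n) := fun n =>
    sw_congr (by positivity) ⟨l + n * k, by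
      simp only [aB]
      push_cast
      linear_combination 15 * q * hl + 15 * N * n * hk⟩
  simp only [J, h]

end TCXG0

open TCXG0 in
theorem t_CXG0 (hCXIT : CXIT) : CXG0 := by
  rintro q M δ δ' hq hM ⟨p, m, hp, h15, e, hd⟩
  have hN : 15 * M ≠ 0 := by omega
  have := hCXIT q M p m δ δ'
    (fun b₁ _ i₁ _ j₁ _ => J q (15 * M) b₁ (5 * i₁) * J q (15 * M) b₁ (3 * j₁)) 0 1 hq.ne hM
    (fun b₁ b₁' _ _ i₁ i₁' _ _ j₁ j₁' _ _ _ k1 _ k2 _ k3 _ => by
      beta_reduce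
      rw [J_congr hq.ne hN k1 (k2.mul_left 5), J_congr hq.ne hN k1 (k3.mul_left 3)])
    hp h15 e hd (fun h => hp.one_lt.ne' (by exact_mod_cast Int.eq_one_of_dvd_one (by positivity) h.2))
    fun _ _ _ _ _ _ _ _ => by simp
  simpa only [coeff_zero_eq_constantCoeff_apply, gC, sI, pr, map_sum, map_mul, cc] using this

end Pool.Agent.P.MP_9c97e9_nt.K2
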