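import Pool.Agent.P.MP_9c97e9_nt.K2.IfC
import Pool.Agent.P.MP_9c97e9_nt.KT.TCXGE

/-! The expansion of the form of weight two. -/

namespace Pool.Agent.P.MP_9c97e9_nt.K2

open KT
open KT.Cx (Ew eC)
open KT.TCXGE (H)
open MP_8b7eba_nt.Mod (qq)
open PowerSeries Finset

namespace TCXGE

theorem three {t f : ℂ} {A : ℂ⟦X⟧} (h : H t A f) : H t (3 * A) (3 * f) := by
  rw [show 3 * A = A + A + A by ring, show 3 * f = f + f + f by ring]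
  exact (h.add h).add h

theorem fc (hE : CXEX) {q N : ℕ} (hq : q ≠ 0) (hN : N ≠ 0) (hc : N.Coprime q) {z : ℂ}
    (hz : 0 < z.im) (b₁ b₂ : ℤ) {i₁ : ℤ} (hi : ¬ (N : ℤ) ∣ i₁) (i₂ : ℤ) :
    H (qq (z / (N * q : ℕ))) (eE q N b₁ b₂ i₁ i₂) (Fc q N z b₁ b₂ i₁ i₂) := by
  have key : ∀ n : ℤ, H (qq (z / (N * q : ℕ))) (e1 q N n b₁ b₂ i₁ i₂)
      (Ew (aB q N b₁ i₁ n / (N * q : ℕ)) (aB q N b₂ i₂ n / (N * q : ℕ)) (15 * z)) := fun n => by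
    have := hE (N * q) (aB q N b₂ i₂ n) (15 * aB q N b₁ i₁ n) z
      (Nat.pos_of_ne_zero (mul_ne_zero hN hq)) (aB_not_dvd hc hi b₁ n) hz
    rwa [Int.cast_mul, Int.cast_ofNat, mul_div_mul_left _ _ (by norm_num : (15 : ℚ) ≠ 0)] at this
  exact (((key 1).sub (three (key 2))).add (three (key 3))).sub (key 4)

end TCXGE

theorem t_CXGE (hCXEX : CXEX) : CXGE := by
  intro q M δ z hq hM hc hz
  have hN : 15 * M ≠ 0 := mul_ne_zero (by norm_num) hM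
  refine H.sum _ fun i hi => ?_
  have hG := (((mem_sI hM).1 hi).2.1).nd hM
  exact (TCXGE.fc hCXEX hq.ne hN (hq.c15 hc) hz _ _ hG.1 _).mul
    (TCXGE.fc hCXEX hq.ne hN (hq.c15 hc) hz _ _ hG.2 _)

end Pool.Agent.P.MP_9c97e9_nt.K2
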