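import Pool.Agent.P.MP_9c97e9_nt.K2.IfC

/-! Invariance of the form of weight two. -/

namespace Pool.Agent.P.MP_9c97e9_nt.K2

open KT
open MP_8b7eba_nt.Mod (M2 G0)

theorem t_CXGI (hCXFM : CXFM) (hCXIP : CXIP) : CXGI := by
  intro q M δ hq hM hc' γ ⟨h1, c, hc⟩ z hz
  have hd : γ.a * γ.d - γ.b * (15 * c) = 1 := hc ▸ h1
  have hN : 15 * M ≠ 0 := mul_ne_zero (by norm_num) hM
  have F := fun b₁ b₂ i₁ i₂ hi => hCXFM q (15 * M) hq.ne hN (hq.c15 hc') b₁ b₂ i₁ i₂ z hi hz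
  have hP : Per q M (pr (Fc q (15 * M) z) (Fc q (15 * M) z)) := by
    intro b₁ b₁' b₂ b₂' i₁ i₁' i₂ i₂' j₁ j₁' j₂ j₂' hG e1 e2 e3 e4 e5 e6
    simp only [pr]
    rw [(F b₁ b₂ _ (5 * i₂) (hG.nd hM).1).1 _ _ _ _ e1 e2 (e3.mul_left 5) (e4.mul_left 5),
      (F b₁ b₂ _ (3 * j₂) (hG.nd hM).2).1 _ _ _ _ e1 e2 (e5.mul_left 3) (e6.mul_left 3)]
  rw [Gc, Gc, ← hCXIP q M δ _ hq.ne hM hP γ.a γ.b c γ.d (by linear_combination hd),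
    sI_congr (Ψ := fun b₁ b₂ i₁ i₂ j₁ j₂ => γ.j z ^ 2 *
      pr (Fc q (15 * M) z) (Fc q (15 * M) z) (b₁ * γ.a + b₂ * c) (b₁ * (15 * γ.b) + b₂ * γ.d)
        (i₁ * γ.a + i₂ * c) (i₁ * (15 * γ.b) + i₂ * γ.d) (j₁ * γ.a + j₂ * c)
        (j₁ * (15 * γ.b) + j₂ * γ.d))
    fun b₁ b₂ i₁ i₂ j₁ j₂ hG _ => by
      simp only [pr]
      rw [(F b₁ b₂ _ (5 * i₂) (hG.nd hM).1).2 γ c h1 hc, (F b₁ b₂ _ (3 * j₂) (hG.nd hM).2).2 γ c h1 hc,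
        mul_add 5, mul_add 5, mul_add 3, mul_add 3]
      simp only [mul_assoc]
      ring, sI, sI, Finset.mul_sum]

end Pool.Agent.P.MP_9c97e9_nt.K2
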