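import Pool.Agent.P.MP_9c97e9_nt.K2.IfC

/-! Permutations of the indices. -/

namespace Pool.Agent.P.MP_9c97e9_nt.K2

open KT Finset

namespace TCXIP

theorem cg {n : ℕ} [NeZero n] {x : ℤ} {y : ZMod n} (h : (x : ZMod n) = y) :
    (y.val : ℤ) ≡ x [ZMOD n] :=
  ((ZMod.intCast_eq_intCast_iff _ _ _).1 (by rw [h]; simp)).symm

theorem det_cast {a b c d : ℤ} (h : a * d - 15 * b * c = 1) (N : ℕ) :
    (a : ZMod N) * d - 15 * b * c = 1 := by
  exact_mod_cast congrArg (Int.cast : ℤ → ZMod N) h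

theorem ac_inj {a b c d : ℤ} (h : a * d - 15 * b * c = 1) {N : ℕ} {v w : VZ N}
    (e : ac4 a b c d v = ac4 a b c d w) : v = w := by
  have hd := det_cast h N
  simp only [ac4, Prod.mk.injEq] at e
  obtain ⟨e1, e2⟩ := e
  refine Prod.ext ?_ ?_
  · linear_combination d * e1 - c * e2 - (v.1 - w.1) * hd
  · linear_combination a * e2 - 15 * b * e1 - (v.2 - w.2) * hd

theorem ge_ac {a b c d : ℤ} (h : a * d - 15 * b * c = 1) {e N : ℕ} (hN : e ∣ N) (he : e ∣ 15)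
    (v : VZ N) : Ge e (ac4 a b c d v) ↔ Ge e v := by
  have hd := det_cast h e
  have h15 : (15 : ZMod e) = 0 := by exact_mod_cast (ZMod.natCast_eq_zero_iff 15 e).2 he
  have e1 : (ZMod.cast (v.1 * (a : ZMod N) + v.2 * (c : ZMod N)) : ZMod e) =
      v.1.cast * a + v.2.cast * c := by
    simp only [ZMod.cast_add hN, ZMod.cast_mul hN, ZMod.cast_intCast hN]
  have e2 : (ZMod.cast (v.1 * (15 * (b : ZMod N)) + v.2 * (d : ZMod N)) : ZMod e) =
      v.2.cast * d := by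
    rw [show (15 * b : ZMod N) = ((15 * b : ℤ) : ZMod N) by push_cast; rfl]
    simp only [ZMod.cast_add hN, ZMod.cast_mul hN, ZMod.cast_intCast hN]
    push_cast
    rw [h15]
    ring
  simp only [Ge, ac4, e1, e2]
  constructor
  · rintro ⟨h1, h2⟩
    have h3 : (v.2.cast : ZMod e) = 0 := by
      linear_combination a * h2 - v.2.cast * hd - v.2.cast * b * c * h15
    exact ⟨fun h4 => h1 (by rw [h3, h4]; ring), h3⟩
  · rintro ⟨h1, h2⟩
    refine ⟨fun h4 => h1 ?_, by rw [h2, zero_mul]⟩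
    linear_combination d * h4 - c * d * h2 - v.1.cast * hd - v.1.cast * b * c * h15

theorem dv_ac {a b c d : ℤ} (h : a * d - 15 * b * c = 1) (M : ℕ) {N : ℕ} (v w : VZ N) :
    dv M (ac4 a b c d v) (ac4 a b c d w) = dv M v w := by
  simp only [dv, ac4]
  congr 1
  linear_combination (v.1 * w.2 - v.2 * w.1) * det_cast h N

theorem g35 {N : ℕ} [NeZero N] {v w : VZ N} (h : Ge 3 v) (h' : Ge 5 w) :
    G35 v.1.val v.2.val w.1.val w.2.val := by
  obtain ⟨h1, h2⟩ := Ge_iff.1 h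
  obtain ⟨h3, h4⟩ := Ge_iff.1 h'
  exact ⟨⟨mt Int.natCast_dvd_natCast.1 h1, Int.natCast_dvd_natCast.2 h2⟩,
    mt Int.natCast_dvd_natCast.1 h3, Int.natCast_dvd_natCast.2 h4⟩

end TCXIP

open TCXIP in
theorem t_CXIP : CXIP := by
  classical
  intro q M δ Φ hq hM hΦ a b c d h
  have : NeZero q := ⟨hq⟩
  have : NeZero M := ⟨hM⟩
  have h3 : 3 ∣ 15 * M := Dvd.dvd.mul_right (by norm_num) M
  have h5 : 5 ∣ 15 * M := Dvd.dvd.mul_right (by norm_num) M
  rw [sI_eq, sI_eq]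
  refine sum_bijective (fun p => (ac4 a b c d p.1, ac4 a b c d p.2.1, ac4 a b c d p.2.2))
    (Finite.injective_iff_bijective.1 fun p r e => ?_) (fun p => ?_) fun p hp => ?_
  · simp only [Prod.mk.injEq] at e
    exact Prod.ext (ac_inj h e.1) (Prod.ext (ac_inj h e.2.1) (ac_inj h e.2.2))
  · simp only [mem_filter, mem_univ, true_and, ge_ac h h3 (by norm_num), ge_ac h h5 (by norm_num),
      dv_ac h]
  · obtain ⟨⟨k3, k5⟩, -⟩ := (mem_filter.1 hp).2
    exact (hΦ _ _ _ _ _ _ _ _ _ _ _ _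
      (g35 ((ge_ac h h3 (by norm_num) _).2 k3) ((ge_ac h h5 (by norm_num) _).2 k5))
      (TCXIP.cg (by simp [ac4])) (TCXIP.cg (by simp [ac4])) (TCXIP.cg (by simp [ac4]))
      (TCXIP.cg (by simp [ac4])) (TCXIP.cg (by simp [ac4])) (TCXIP.cg (by simp [ac4]))).symm

end Pool.Agent.P.MP_9c97e9_nt.K2
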