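import Pool.Agent.P.MP_9c97e9_nt.K2.IfC

/-! Translations of the indices. -/

namespace Pool.Agent.P.MP_9c97e9_nt.K2

open KT Finset

namespace TCXIT

theorem cg {n : ℕ} [NeZero n] {x : ℤ} {y : ZMod n} (h : (x : ZMod n) = y) :
    (y.val : ℤ) ≡ x [ZMOD n] :=
  ((ZMod.intCast_eq_intCast_iff _ _ _).1 (by rw [h]; simp)).symm

/-- the translation -/
def tr {N : ℕ} (x y s : ℤ) (v : VZ N) : VZ N := (v.1 + (15 * s * x : ℤ), v.2 + (15 * s * y : ℤ))

/-- the linear form -/
def mu (p : ℕ) {N : ℕ} (x y : ℤ) (v : VZ N) : ZMod p := x * v.2.cast - y * v.1.cast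

theorem tr_inj {N : ℕ} (x y s : ℤ) {v w : VZ N} (h : tr x y s v = tr x y s w) : v = w := by
  simp only [tr, Prod.mk.injEq, add_left_inj] at h
  exact Prod.ext h.1 h.2

theorem mu_tr {p N : ℕ} (h : p ∣ N) (x y s : ℤ) (v : VZ N) : mu p x y (tr x y s v) = mu p x y v := by
  simp only [mu, tr, ZMod.cast_add h, ZMod.cast_intCast h]
  push_cast
  ring

theorem ge_tr {e N : ℕ} (h : e ∣ N) (he : (e : ℤ) ∣ 15) (x y s : ℤ) (v : VZ N) :
    Ge e (tr x y s v) ↔ Ge e v := by
  have k : ∀ z : ℤ, ((15 * s * z : ℤ) : ZMod e) = 0 := fun z =>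
    (ZMod.intCast_zmod_eq_zero_iff_dvd _ _).2 ((he.mul_right _).mul_right _)
  simp only [Ge, tr, ZMod.cast_add h, ZMod.cast_intCast h, k, add_zero]

theorem g35 {N : ℕ} [NeZero N] {v w : VZ N} (h : Ge 3 v) (h' : Ge 5 w) :
    G35 v.1.val v.2.val w.1.val w.2.val := by
  obtain ⟨h1, h2⟩ := Ge_iff.1 h
  obtain ⟨h3, h4⟩ := Ge_iff.1 h'
  exact ⟨⟨mt Int.natCast_dvd_natCast.1 h1, Int.natCast_dvd_natCast.2 h2⟩,
    mt Int.natCast_dvd_natCast.1 h3, Int.natCast_dvd_natCast.2 h4⟩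

/-- the length of the translation -/
def kk (p : ℕ) (t : ℤ) (a : ZMod p) : ℤ := ((t : ZMod p) * (15 * a)⁻¹).val

theorem kk_spec {p m N : ℕ} [NeZero N] (hp : p.Prime) (h15 : ¬ p ∣ 15) (x y t : ℤ) (v : VZ N)
    (h : mu p x y v ≠ 0) :
    (15 * (kk p t (mu p x y v) * m) : ZMod (m * p)) * (x * v.2.cast - y * v.1.cast) = m * t := by
  have := Fact.mk hp
  have h0 : (15 : ZMod p) ≠ 0 := fun e =>
    h15 ((ZMod.natCast_eq_zero_iff 15 p).1 (by exact_mod_cast e))
  have h1 : (p : ℤ) ∣ 15 * kk p t (mu p x y v) * (x * v.2.val - y * v.1.val) - t := by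
    rw [← ZMod.intCast_zmod_eq_zero_iff_dvd]
    have e : ((x * v.2.val - y * v.1.val : ℤ) : ZMod p) = mu p x y v := by simp [mu]
    rw [Int.cast_sub, Int.cast_mul, e]
    simp only [kk, Int.cast_mul, ZMod.natCast_val]
    push_cast
    field_simp
    ring
  obtain ⟨r, hr⟩ := h1
  have h2 := congrArg (Int.cast : ℤ → ZMod (m * p)) hr
  have h3 : (m : ZMod (m * p)) * p = 0 := by exact_mod_cast ZMod.natCast_self (m * p)
  push_cast at h2
  simp only [ZMod.natCast_val] at h2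
  linear_combination m * h2 + r * h3

theorem dv_left {M N : ℕ} (h : M ∣ N) (x y s : ℤ) (v w : VZ N) :
    dv M (tr x y s v) w = dv M v w + 15 * s * (x * w.2.cast - y * w.1.cast) := by
  simp only [dv, tr, ZMod.cast_add h, ZMod.cast_intCast h, ZMod.cast_sub h, ZMod.cast_mul h]
  push_cast
  ring

theorem dv_right {M N : ℕ} (h : M ∣ N) (x y s : ℤ) (v w : VZ N) :
    dv M v (tr x y s w) = dv M v w - 15 * s * (x * v.2.cast - y * v.1.cast) := by
  simp only [dv, tr, ZMod.cast_add h, ZMod.cast_intCast h, ZMod.cast_sub h, ZMod.cast_mul h]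
  push_cast
  ring

theorem dv_ne {p M N : ℕ} [NeZero N] (hp : p.Prime) (hM : p ∣ M) (h : M ∣ N) {x y : ℤ}
    (hxy : ¬ ((p : ℤ) ∣ x ∧ (p : ℤ) ∣ y)) {v w : VZ N} (hv : mu p x y v = 0)
    (hw : mu p x y w = 0) (δ : (ZMod M)ˣ) : dv M v w ≠ δ := fun e => by
  have := Fact.mk hp
  have h1 : IsUnit (ZMod.castHom hM (ZMod p) (dv M v w)) := (e ▸ δ.isUnit).map _
  have h2 : ZMod.castHom hM (ZMod p) (dv M v w) =
      v.1.cast * w.2.cast - v.2.cast * w.1.cast := by
    have k : ∀ z : ZMod N, ZMod.castHom hM (ZMod p) (z.cast : ZMod M) = z.cast := fun z => by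
      rw [← ZMod.natCast_val, map_natCast, ZMod.natCast_val]
    simp only [dv, k, ZMod.cast_sub (hM.trans h), ZMod.cast_mul (hM.trans h)]
  rw [h2] at h1
  simp only [mu] at hv hw
  refine hxy ⟨(ZMod.intCast_zmod_eq_zero_iff_dvd _ _).1 ((h1.mul_left_eq_zero).1 ?_),
    (ZMod.intCast_zmod_eq_zero_iff_dvd _ _).1 ((h1.mul_left_eq_zero).1 ?_)⟩
  · linear_combination (v.1.cast : ZMod p) * hw - (w.1.cast : ZMod p) * hv
  · linear_combination (v.2.cast : ZMod p) * hw - (w.2.cast : ZMod p) * hv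

end TCXIT

open TCXIT in
theorem t_CXIT : CXIT := by
  classical
  rintro q M p m δ δ' Φ x y hq hM hΦ hp h15 rfl ⟨t, ht⟩ hxy hT
  have : NeZero q := ⟨hq⟩
  have : NeZero (m * p) := ⟨hM⟩
  have hN : m * p ∣ 15 * (m * p) := dvd_mul_left _ _
  have hpN : p ∣ 15 * (m * p) := (dvd_mul_left _ _).trans hN
  have h3 : 3 ∣ 15 * (m * p) := Dvd.dvd.mul_right (by norm_num) _
  have h5 : 5 ∣ 15 * (m * p) := Dvd.dvd.mul_right (by norm_num) _
  have hd : (δ : ZMod (m * p)) - δ' = m * t := by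
    simpa using congrArg (Int.cast : ℤ → ZMod (m * p)) ht
  rw [sI_eq, sI_eq]
  refine sum_bijective (fun a => if mu p x y a.2.2 = 0 then
      (a.1, a.2.1, tr x y (kk p t (mu p x y a.2.1) * m) a.2.2)
    else (a.1, tr x y (kk p (-t) (mu p x y a.2.2) * m) a.2.1, a.2.2))
    (Finite.injective_iff_bijective.1 fun a b e => ?_) (fun a => ?_) fun a ha => ?_
  · have e' : mu p x y a.2.2 = mu p x y b.2.2 := by
      have := congrArg (fun c => mu p x y c.2.2) e
      split_ifs at this <;> simpa only [mu_tr hpN] using this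
    simp only [e'] at e
    split_ifs at e
    · simp only [Prod.mk.injEq] at e
      obtain ⟨e0, e1, e2⟩ := e
      exact Prod.ext e0 (Prod.ext e1 (tr_inj x y _ (e1 ▸ e2)))
    · simp only [Prod.mk.injEq] at e
      exact Prod.ext e.1 (Prod.ext (tr_inj x y _ e.2.1) e.2.2)
  · simp only [mem_filter, mem_univ, true_and]
    split_ifs with h
    · simp only [ge_tr h5 (by norm_num)]
      refine and_congr_right fun _ => ?_
      by_cases h' : mu p x y a.2.1 = 0
      · exact iff_of_false (dv_ne hp (dvd_mul_left _ _) hN hxy h' h _)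
          (dv_ne hp (dvd_mul_left _ _) hN hxy h' ((mu_tr hpN _ _ _ _).trans h) _)
      · have := kk_spec (m := m) hp h15 x y t _ h'
        rw [dv_right hN]
        push_cast
        exact ⟨fun e => by linear_combination e - this + hd,
          fun e => by linear_combination e + this - hd⟩
    · simp only [ge_tr h3 (by norm_num)]
      refine and_congr_right fun _ => ?_
      have := kk_spec (m := m) hp h15 x y (-t) _ h
      rw [dv_left hN]
      push_cast at this ⊢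
      exact ⟨fun e => by linear_combination e + this + hd,
        fun e => by linear_combination e - this - hd⟩
  · obtain ⟨⟨g1, g2⟩, -⟩ := (mem_filter.1 ha).2
    split_ifs with h
    · rw [← (hT _ _ _ _ _ _ (kk p t (mu p x y a.2.1)) (g35 g1 g2)).2]
      exact (hΦ _ _ _ _ _ _ _ _ _ _ _ _ (g35 g1 ((ge_tr h5 (by norm_num) _ _ _ _).2 g2)) rfl rfl
        rfl rfl (cg (by simp [TCXIT.tr]; ring)) (cg (by simp [TCXIT.tr]; ring))).symm
    · rw [← (hT _ _ _ _ _ _ (kk p (-t) (mu p x y a.2.2)) (g35 g1 g2)).1]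
      exact (hΦ _ _ _ _ _ _ _ _ _ _ _ _ (g35 ((ge_tr h3 (by norm_num) _ _ _ _).2 g1) g2) rfl rfl
        (cg (by simp [TCXIT.tr]; ring)) (cg (by simp [TCXIT.tr]; ring)) rfl rfl).symm

end Pool.Agent.P.MP_9c97e9_nt.K2
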