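import Pool.Agent.P.MP_9c97e9_nt.K2.IfC
import Pool.Agent.P.MP_9c97e9_nt.KT.TCXMS

/-! The decomposition of a modular symbol of level fifteen. -/

namespace Pool.Agent.P.MP_9c97e9_nt.K2

open MP_8b7eba_nt.Mod (nM nP lv lv_eq coeff_eq)
open MP_8b7eba_nt.BSD15 (ms_base ms_R_all msA msB)

namespace TCXMD

theorem base_gcd (c : ℤ) : ms_base (Int.gcd c 15 : ℕ) = ms_base c := by
  have h3 : (3 : ℤ) ∣ (Int.gcd c 15 : ℕ) ↔ 3 ∣ c :=
    ⟨fun h => h.trans (Int.gcd_dvd_left ..), fun h => Int.dvd_coe_gcd h (by norm_num)⟩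
  have h5 : (5 : ℤ) ∣ (Int.gcd c 15 : ℕ) ↔ 5 ∣ c :=
    ⟨fun h => h.trans (Int.gcd_dvd_left ..), fun h => Int.dvd_coe_gcd h (by norm_num)⟩
  simp only [ms_base, h3, h5]

end TCXMD

theorem t_CXMD : CXMD := by
  intro ψ hψ
  refine ⟨fun g => ψ (ms_base g) + msA ψ / 4 * nP (ms_base g).1 (ms_base g).2 -
    msB ψ / 2 * nM (ms_base g).1 (ms_base g).2, fun x hx => ?_⟩
  obtain ⟨u, v, h⟩ := ms_R_all _ x rfl hx
  have e2 := h _ KT.TCXMS.ms_lv
  simp only [msA, msB, lv_eq, show nM 0 1 = 0 by decide +kernel, show nM 1 2 = 0 by decide +kernel,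
    show nM (-1) 4 = -2 by decide +kernel, show nP 0 1 = 1 by decide +kernel,
    show nP 1 2 = -3 by decide +kernel, show nP (-1) 4 = 1 by decide +kernel] at e2
  obtain ⟨e3, e4⟩ := coeff_eq (a := nP x.1 x.2) (b := nM x.1 x.2)
    (c := nP (ms_base x.2).1 (ms_base x.2).2 - 4 * u)
    (d := nM (ms_base x.2).1 (ms_base x.2).2 + 2 * v) (by rw [e2]; push_cast; ring)
  simp only [TCXMD.base_gcd]
  rw [e3, e4, h ψ hψ]
  push_cast
  ring

end Pool.Agent.P.MP_9c97e9_nt.K2
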