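import Pool.Agent.P.MP_9c97e9_nt.K2.IfC

/-! The modular symbol given by the intersection with sixteen geodesics. -/

namespace Pool.Agent.P.MP_9c97e9_nt.K2

open MP_8b7eba_nt.Mod (nM nP)
open MP_8b7eba_nt.BSD15 (msA msB Prim PairlamFam pairlam_prim pairlam_dfct II_antisymm II_AB dfct)

namespace TCXMS

/-- the coefficients of the third difference -/
def mm (n : ℤ) : ℚ := if n = 1 then 1 else if n = 2 then -3 else if n = 3 then 3 else -1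

/-- the sixteen pairs -/
def SS : Finset (ℤ × ℤ) := ({1, 2, 3, 4} : Finset ℤ) ×ˢ ({1, 2, 3, 4} : Finset ℤ)

theorem sum_SS (F : ℤ → ℤ → ℚ) :
    ∑ p ∈ SS, mm p.1 * mm p.2 * F p.1 p.2 = s4 fun n => s4 fun n' => F n n' := by
  simp [SS, Finset.sum_product, mm, s4]
  ring

theorem mem_SS {p : ℤ × ℤ} (h : p ∈ SS) : (1 ≤ p.1 ∧ p.1 ≤ 4) ∧ 1 ≤ p.2 ∧ p.2 ≤ 4 := by
  simp only [SS, Finset.mem_product, Finset.mem_insert, Finset.mem_singleton] at h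
  omega

theorem Y1_spec {q : ℕ} {a : ℤ → ℤ → ℤ} (hq : Aq q) (ha : Ch q a) {p : ℤ × ℤ} (hp : p ∈ SS) :
    Prim (Y1 q (a p.1 p.2)) ∧ Int.gcd (Y1 q (a p.1 p.2)).2 15 = 3 := by
  obtain ⟨⟨h1, h2⟩, h3, h4⟩ := mem_SS hp
  obtain ⟨e1, e2⟩ := ha p.1 p.2 h1 h2
  have h5 := hq.res
  constructor
  · have : IsCoprime (q : ℤ) (a p.1 p.2) :=
      (Nat.prime_iff_prime_int.1 hq.prime).irreducible.coprime_iff_not_dvd.2 fun h => by
        have := Int.le_of_dvd (by omega) ((dvd_sub_right (h.mul_left p.1)).1 e1)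
        omega
    obtain ⟨u, v, e⟩ := this
    exact ⟨5 * u - 2 * v, v - 2 * u, by simp only [Y1]; linear_combination e⟩
  · obtain ⟨k, hk⟩ : ∃ k, (Y1 q (a p.1 p.2)).2 = 12 + 15 * k :=
      ⟨(5 * a p.1 p.2 + 2 * q) / 15, by simp only [Y1]; omega⟩
    rw [hk, Int.gcd_add_mul_left_left]
    decide

theorem p25 : Prim (2, 5) := pairlam_prim (by decide)

theorem fam {q : ℕ} {a : ℤ → ℤ → ℤ} (hq : Aq q) (ha : Ch q a) :
    PairlamFam SS (fun p => mm p.1 * mm p.2) (fun p => Y1 q (a p.1 p.2)) fun _ => (2, 5) where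
  prim p hp _ := ⟨(Y1_spec hq ha hp).1, p25, by
    have := hq.ne
    simp only [MP_8b7eba_nt.BSD15.dt, Y1]
    omega⟩
  closed x₁ x₂ x₃ h₁ h₂ h₃ := by
    rw [Finset.sum_congr rfl fun p hp => by
      rw [pairlam_dfct h₁ h₂ h₃ (Y1_spec hq ha hp).1 (pairlam_prim (x := (1, 3)) (by decide))
        ((Y1_spec hq ha hp).2.trans (by decide))],
      sum_SS fun _ _ => dfct x₁ x₂ x₃ (1, 3) - dfct x₁ x₂ x₃ (2, 5)]
    simp only [s4]
    ring

theorem key (hCXMD : CXMD) {y₁ y₂ : ℤ × ℤ} (p1 : Prim y₁) (p2 : Prim y₂)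
    (hd : MP_8b7eba_nt.BSD15.dt y₁ y₂ ≠ 0) (hg : Int.gcd y₁.2 15 = Int.gcd y₂.2 15) :
    ∃ b : ℂ, ∀ Y, Prim Y → Int.gcd Y.2 15 = 3 → (MP_8b7eba_nt.BSD15.II y₁ y₂ Y (2, 5) : ℂ) =
      (MP_8b7eba_nt.BSD15.II (1, 2) (0, 1) y₁ y₂ : ℂ) / 4 * nP Y.1 Y.2 -
        (MP_8b7eba_nt.BSD15.II (0, 1) (-1, 4) y₁ y₂ : ℂ) / 2 * nM Y.1 Y.2 + b := by
  have h : PairlamFam (Finset.univ : Finset Unit) (fun _ => 1) (fun _ => y₁) fun _ => y₂ :=
    ⟨fun _ _ _ => ⟨p1, p2, hd⟩, fun x₁ x₂ x₃ h₁ h₂ h₃ => by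
      rw [pairlam_dfct h₁ h₂ h₃ p1 p2 hg]; simp⟩
  have s : ∀ x y, Prim x → Prim y → (MP_8b7eba_nt.BSD15.II x (1, 0) y₁ y₂ : ℂ) -
      MP_8b7eba_nt.BSD15.II y (1, 0) y₁ y₂ = MP_8b7eba_nt.BSD15.II x y y₁ y₂ := fun x y hx hy => by
    have := h.sub hx hy
    simp only [Finset.univ_unique, Finset.sum_singleton, one_mul] at this
    exact_mod_cast this
  obtain ⟨b, hb⟩ := hCXMD _ h.isMS
  simp only [Finset.univ_unique, Finset.sum_singleton, one_mul, msA, msB] at hb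
  rw [s _ _ (pairlam_prim (by decide)) (pairlam_prim (by decide)),
    s _ _ (pairlam_prim (by decide)) (pairlam_prim (by decide))] at hb
  refine ⟨MP_8b7eba_nt.BSD15.II (2, 5) (1, 0) y₁ y₂ - b 3, fun Y hY e => ?_⟩
  rw [II_antisymm p1 p2 hY p25, Rat.cast_neg, ← s _ _ hY p25, hb Y hY, e]
  ring

theorem self {x y : ℤ × ℤ} (hx : Prim x) (hy : Prim y) : MP_8b7eba_nt.BSD15.II x y x y = 0 := by
  linarith [II_antisymm hx hy hx hy]

end TCXMS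

open TCXMS in
theorem t_CXMS (hCXMD : CXMD) (hCXCP : CXCP) : CXMS := by
  intro q a hq ha
  have p12 : Prim (1, 2) := pairlam_prim (by decide)
  have p01 : Prim (0, 1) := pairlam_prim (by decide)
  have p14 : Prim (-1, 4) := pairlam_prim (by decide)
  obtain ⟨c1, c2⟩ := hCXCP q a hq.res ha
  have c3 := congrArg (Int.cast : ℤ → ℂ) c1
  have c4 := congrArg (Int.cast : ℤ → ℂ) c2
  have f := fam hq ha
  obtain ⟨b, hb⟩ := hCXMD _ f.isMS
  obtain ⟨bA, hA⟩ := key hCXMD p12 p01 (by decide) (by decide)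
  obtain ⟨bB, hB⟩ := key hCXMD p01 p14 (by decide) (by decide)
  rw [self p12 p01, II_AB] at hA
  rw [self p01 p14, II_antisymm p12 p01 p01 p14, II_AB] at hB
  have m : ∀ n n' : ℤ, (n, n') ∈ SS → Prim (Y1 q (a n n')) ∧ Int.gcd (Y1 q (a n n')).2 15 = 3 :=
    fun n n' h => Y1_spec hq ha h
  refine ⟨b, fun x hx => ?_⟩
  have h := hb x hx
  simp only [msA, msB] at h
  rw [← Rat.cast_sub, ← Rat.cast_sub, f.sub p12 p01, f.sub p01 p14,
    sum_SS fun n n' => MP_8b7eba_nt.BSD15.II x (1, 0) (Y1 q (a n n')) (2, 5),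
    sum_SS fun n n' => MP_8b7eba_nt.BSD15.II (1, 2) (0, 1) (Y1 q (a n n')) (2, 5),
    sum_SS fun n n' => MP_8b7eba_nt.BSD15.II (0, 1) (-1, 4) (Y1 q (a n n')) (2, 5)] at h
  have eA : ((s4 fun n => s4 fun n' =>
      MP_8b7eba_nt.BSD15.II (1, 2) (0, 1) (Y1 q (a n n')) (2, 5) : ℚ) : ℂ) = -8 := by
    simp only [s4] at c4 ⊢
    push_cast at c4 ⊢
    simp (disch := decide) only [fun n n' h => hA _ (m n n' h).1 (m n n' h).2]
    push_cast
    linear_combination (-1 / 2 : ℂ) * c4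
  have eB : ((s4 fun n => s4 fun n' =>
      MP_8b7eba_nt.BSD15.II (0, 1) (-1, 4) (Y1 q (a n n')) (2, 5) : ℚ) : ℂ) = 4 := by
    simp only [s4] at c3 ⊢
    push_cast at c3 ⊢
    simp (disch := decide) only [fun n n' h => hB _ (m n n' h).1 (m n n' h).2]
    push_cast
    linear_combination (-1 / 4 : ℂ) * c3
  rw [eA, eB] at h
  rw [psi, h, ns]
  push_cast
  ring

end Pool.Agent.P.MP_9c97e9_nt.K2
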