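import Pool.Agent.P.MP_9c97e9_nt.K2.IfC
import Pool.Agent.P.MP_8b7eba_nt.BSD15.PairCore

/-! The orbit of a pair of cusps. -/

namespace Pool.Agent.P.MP_9c97e9_nt.K2

open MP_8b7eba_nt.BSD15

namespace TCXOR

theorem d3 (γ : Gam) : ¬ 3 ∣ γ.d ∧ ¬ 5 ∣ γ.d := by
  obtain ⟨c, hc⟩ := γ.dvd_c
  have hd := γ.det_eq
  constructor <;> rintro ⟨e, he⟩
  · have : (3 : ℤ) ∣ 1 := ⟨γ.a * e - γ.b * 5 * c, by
      linear_combination -hd + γ.a * he - γ.b * hc⟩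
    omega
  · have : (5 : ℤ) ∣ 1 := ⟨γ.a * e - γ.b * 3 * c, by
      linear_combination -hd + γ.a * he - γ.b * hc⟩
    omega

/-- the parabolic element -/
def par (k : ℤ) : Gam where
  a := 1 + 30 * k
  b := -12 * k
  c := 75 * k
  d := 1 - 30 * k
  det_eq := by ring
  dvd_c := ⟨5 * k, by ring⟩

theorem p5 : Prime (5 : ℤ) := Int.prime_iff_natAbs_prime.2 (by norm_num)

end TCXOR

open TCXOR in
theorem t_CXOR : CXOR := by
  intro q n n' a u v hq hn ha h3 h15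
  have hq' : Prime (q : ℤ) := Nat.prime_iff_prime_int.1 hq
  have q3 : ¬ (3 : ℤ) ∣ q := fun h => h15 (by
    rw [← (Nat.prime_dvd_prime_iff_eq Nat.prime_three hq).1 (by exact_mod_cast h)]; norm_num)
  have q5 : ¬ (5 : ℤ) ∣ q := fun h => h15 (by
    rw [← (Nat.prime_dvd_prime_iff_eq Nat.prime_five hq).1 (by exact_mod_cast h)]; norm_num)
  constructor
  · rintro ⟨γ, rfl, rfl⟩
    obtain ⟨c, hc⟩ := γ.dvd_c
    obtain ⟨e3, e5⟩ := d3 γ
    obtain ⟨s, hs⟩ := ha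
    obtain ⟨t, ht⟩ := h3
    refine ⟨by rw [paircore_dt_act]; simp only [dt, Y1]; ring, ⟨?_, ?_⟩, ⟨?_, ?_⟩, ?_, ?_⟩ <;>
      simp only [Gam.act, Y1]
    · exact ⟨6 * c + γ.d, by linear_combination 2 * hc⟩
    · omega
    · exact ⟨5 * c * (2 * a + q) + γ.d * (a + 2 * t), by
        linear_combination (2 * a + q) * hc + 2 * γ.d * ht⟩
    · rintro ⟨r, hr⟩
      have : (5 : ℤ) ∣ γ.d * (2 * q) := ⟨r - 3 * c * (2 * a + q) - γ.d * a, by
        linear_combination hr - (2 * a + q) * hc⟩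
      rcases p5.dvd_or_dvd this with h | h
      · exact e5 h
      · omega
    · exact ⟨-(s * (γ.a * 2 + γ.b * 5)) - n * (γ.a + 2 * γ.b), by
        linear_combination -(γ.a * 2 + γ.b * 5) * hs⟩
    · exact ⟨-(s * (γ.c * 2 + γ.d * 5)) - n * (γ.c + 2 * γ.d), by
        linear_combination -(γ.c * 2 + γ.d * 5) * hs⟩
  · rintro ⟨h1, ⟨v5, v3⟩, ⟨u3, -⟩, h2, h4⟩
    have hv : Prim v := by
      refine isCoprime_of_prime_dvd (fun h => v3 (h.2 ▸ dvd_zero _)) fun z hz z1 z2 => ?_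
      have zq : z ∣ q := h1 ▸ (z2.mul_left _).sub (z1.mul_left _)
      have e := (hz.dvd_prime_iff_associated hq').1 zq
      obtain ⟨x, hx⟩ := e.symm.dvd.trans z1
      obtain ⟨y, hy⟩ := e.symm.dvd.trans z2
      obtain ⟨x', hx'⟩ : (q : ℤ) ∣ u.1 := hn.symm.dvd_of_dvd_mul_left
        (by simpa using (Dvd.dvd.mul_left ⟨x, hx⟩ n').sub h2)
      obtain ⟨y', hy'⟩ : (q : ℤ) ∣ u.2 := hn.symm.dvd_of_dvd_mul_left
        (by simpa using (Dvd.dvd.mul_left ⟨y, hy⟩ n').sub h4)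
      refine hq'.not_dvd_one ⟨x' * y - y' * x, mul_left_cancel₀ hq'.ne_zero ?_⟩
      rw [dt, hx, hy, hx', hy'] at h1
      linear_combination -h1
    have g5 : Int.gcd v.2 15 = Int.gcd 5 15 := by
      obtain ⟨r, hr⟩ := v5
      have : IsCoprime r 3 := (Int.prime_three.irreducible.coprime_iff_not_dvd.2
        fun h => v3 (hr ▸ h.mul_left _)).symm
      rw [hr, show (15 : ℤ) = 5 * 3 by norm_num, Int.gcd_mul_left, Int.isCoprime_iff_gcd_eq_one.1 this]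
      rfl
    obtain ⟨γ, rfl⟩ := (equiv_iff (y := (2, 5)) hv ⟨-2, 1, by norm_num⟩).2 g5
    obtain ⟨w, rfl⟩ : ∃ w, γ.act w = u := ⟨_, paircore_act_inv γ u⟩
    rw [paircore_dt_act] at h1
    simp only [dt] at h1
    obtain ⟨c, hc⟩ := γ.dvd_c
    obtain ⟨x, y, e⟩ := hv
    obtain ⟨s, hs⟩ := ha
    obtain ⟨r, hr⟩ := h2
    obtain ⟨r', hr'⟩ := h4
    obtain ⟨t, ht⟩ := u3
    simp only [Gam.act] at e hr hr' ht
    have a1 : (q : ℤ) ∣ w.2 - 2 * w.1 - a := hn.symm.dvd_of_dvd_mul_left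
      ⟨-s - x * (r + n * (γ.a + 2 * γ.b)) - y * (r' + n * (γ.c + 2 * γ.d)), by
        linear_combination -hs - x * hr - y * hr' - (n * (w.2 - 2 * w.1) - n') * e -
          n * (x * (γ.a + 2 * γ.b) + y * (γ.c + 2 * γ.d)) * h1⟩
    have a2 : (3 : ℤ) ∣ w.2 := (Int.prime_three.dvd_or_dvd (a := γ.d) ⟨t - 5 * c * w.1, by
      linear_combination ht - w.1 * hc⟩).resolve_left (d3 γ).1
    obtain ⟨k, hk⟩ : 3 * (q : ℤ) ∣ w.2 - 2 * w.1 - a :=
      (Int.prime_three.irreducible.coprime_iff_not_dvd.2 q3).mul_dvd (by omega) a1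
    refine ⟨paircore_mul γ (par k), ?_, ?_⟩ <;> rw [paircore_act_mul] <;> congr 1 <;>
      refine Prod.ext ?_ ?_ <;> simp only [Gam.act, par, Y1]
    · linear_combination -2 * hk - h1
    · linear_combination -5 * hk - 2 * h1
    · ring
    · ring

end Pool.Agent.P.MP_9c97e9_nt.K2
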