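import Pool.Agent.P.MP_9c97e9_nt.K2.IfC
import Pool.Agent.P.MP_9c97e9_nt.KT.TCXRE
import Pool.Agent.P.MP_9c97e9_nt.KT.TCXCH

/-! The character sum over the indices. -/

namespace Pool.Agent.P.MP_9c97e9_nt.K2

open KT
open KT.Cx (zc zc_add zc_congr)
open KT.TCXRE (rd rd_lt rd_spec rd_eq det_iff)
open KT.TCXCH (orth)
open MP_8b7eba_nt.BSD15 (evalends_ex evalends_uniq)
open Finset

namespace TCXRE

theorem per (k m : ℕ) (f : ℕ → ℂ) (h : ∀ x, f (m + x) = f x) :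
    ∑ x ∈ range (k * m), f x = k * ∑ x ∈ range m, f x := by
  induction k with
  | zero => simp
  | succ k ih =>
    rw [add_mul, one_mul, add_comm, sum_range_add]
    simp only [h, ih]
    push_cast
    ring

theorem mult (e m : ℕ) (he : 0 < e) (f : ℕ → ℂ) :
    (∑ x ∈ range (e * m), if (e : ℤ) ∣ x then f x else 0) = ∑ u ∈ range m, f (e * u) := by
  rw [← sum_filter]
  symm
  refine sum_bij (fun u _ => e * u) (fun u hu => ?_) (fun a _ b _ h => ?_) (fun x hx => ?_)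
    fun _ _ => rfl
  · exact mem_filter.2 ⟨mem_range.2 (Nat.mul_lt_mul_of_pos_left (mem_range.1 hu) he),
      Int.natCast_dvd_natCast.2 (dvd_mul_right _ _)⟩
  · exact Nat.eq_of_mul_eq_mul_left he h
  · obtain ⟨h1, h2⟩ := mem_filter.1 hx
    obtain ⟨u, rfl⟩ := Int.natCast_dvd_natCast.1 h2
    exact ⟨u, mem_range.2 (lt_of_mul_lt_mul_left (mem_range.1 h1) (Nat.zero_le _)), rfl⟩

theorem zc_mul {k W M : ℕ} (hk : k ≠ 0) (h : W = k * M) (x : ℤ) : zc W (k * x) = zc M x := by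
  have h0 : (k : ℂ) ≠ 0 := by exact_mod_cast hk
  rw [h, zc, zc, Int.cast_mul, Nat.cast_mul, Int.cast_natCast, mul_div_mul_left _ _ h0]

theorem inner (hCH : CXCH) {q M : ℕ} (hq : q ≠ 0) (hM : M ≠ 0) (c : M.Coprime q)
    (d n n' C D b₁ i₁ j₁ : ℤ) :
    (∑ b₂ ∈ range q, ∑ i₂ ∈ range (15 * M), ∑ j₂ ∈ range (15 * M),
      if (3 : ℤ) ∣ i₂ ∧ (5 : ℤ) ∣ j₂ ∧ (M : ℤ) ∣ i₁ * j₂ - i₂ * j₁ - d then
        zc (15 * M * q) (aB q (15 * M) b₂ (5 * i₂) n * C + aB q (15 * M) b₂ (3 * j₂) n' * D)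
      else 0) =
    15 * M * q * ∑ ν ∈ range M, if (q : ℤ) ∣ n * C + n' * D ∧
      (M : ℤ) ∣ C + ν * aB q (15 * M) b₁ (3 * j₁) n' ∧
      (M : ℤ) ∣ D - ν * aB q (15 * M) b₁ (5 * i₁) n then zc M (ν * (q * d)) else 0 := by
  have hM0 := Nat.pos_of_ne_zero hM
  have cq : IsCoprime (M : ℤ) q := Nat.isCoprime_iff_coprime.2 c
  generalize hA : aB q (15 * M) b₁ (5 * i₁) n = A
  generalize hB : aB q (15 * M) b₁ (3 * j₁) n' = B
  have h3 : ∀ f : ℕ → ℂ, (∑ x ∈ range (15 * M), if (3 : ℤ) ∣ x then f x else 0) =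
      ∑ u ∈ range (5 * M), f (3 * u) := fun f => by
    rw [show 15 * M = 3 * (5 * M) by ring]
    exact mult 3 (5 * M) (by norm_num) f
  have h5 : ∀ f : ℕ → ℂ, (∑ x ∈ range (15 * M), if (5 : ℤ) ∣ x then f x else 0) =
      ∑ u ∈ range (3 * M), f (5 * u) := fun f => by
    rw [show 15 * M = 5 * (3 * M) by ring]
    exact mult 5 (3 * M) (by norm_num) f
  set g : ℕ → ℕ → ℂ := fun u v =>
    if (M : ℤ) ∣ A * v - B * u - q * d then zc M (u * C + v * D) else 0 with hg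
  have e1 : ∀ b u v : ℕ, (if (M : ℤ) ∣ i₁ * (5 * v : ℕ) - (3 * u : ℕ) * j₁ - d then
      zc (15 * M * q) (aB q (15 * M) b (5 * (3 * u : ℕ)) n * C +
        aB q (15 * M) b (3 * (5 * v : ℕ)) n' * D) else 0) =
      zc q (b * (n * C + n' * D)) * g u v := by
    intro b u v
    have k : (M : ℤ) ∣ i₁ * (5 * v : ℕ) - (3 * u : ℕ) * j₁ - d ↔ (M : ℤ) ∣ A * v - B * u - q * d := by
      rw [show A * v - B * u - q * d = q * (i₁ * (5 * v : ℕ) - (3 * u : ℕ) * j₁ - d) +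
        M * (15 * b₁ * (n * v - n' * u)) by
          rw [← hA, ← hB, aB, aB]
          push_cast
          ring, dvd_add_left (dvd_mul_right _ _)]
      exact ⟨fun h => h.mul_left _, cq.dvd_of_dvd_mul_left⟩
    simp only [hg, k, mul_ite, mul_zero]
    refine if_congr Iff.rfl ?_ rfl
    rw [← zc_mul (k := 15 * M) (W := 15 * M * q) (by omega) rfl,
      ← zc_mul (k := 15 * q) (W := 15 * M * q) (M := M) (by omega) (by ring), ← zc_add, aB, aB]
    congr 1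
    push_cast
    ring
  have e2 : ∀ u, ∑ v ∈ range (3 * M), g u v = 3 * ∑ v ∈ range M, g u v := fun u => by
    refine per 3 M _ fun v => ?_
    simp only [hg]
    refine if_congr ?_ (zc_congr hM0 ⟨D, by push_cast; ring⟩) rfl
    rw [show A * (M + v : ℕ) - B * u - q * d = A * v - B * u - q * d + M * A by push_cast; ring,
      dvd_add_left (dvd_mul_right _ _)]
  have e3 : ∑ u ∈ range (5 * M), ∑ v ∈ range M, g u v =
      5 * ∑ u ∈ range M, ∑ v ∈ range M, g u v := by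
    refine per 5 M _ fun u => sum_congr rfl fun v _ => ?_
    simp only [hg]
    refine if_congr ?_ (zc_congr hM0 ⟨C, by push_cast; ring⟩) rfl
    rw [show A * v - B * (M + u : ℕ) - q * d = A * v - B * u - q * d + M * -B by push_cast; ring,
      dvd_add_left (dvd_mul_right _ _)]
  simp only [ite_and, sum_ite_irrel, sum_const_zero, h3, h5, e1, ← mul_sum, e2, e3, ← sum_mul]
  rw [orth (Nat.pos_of_ne_zero hq), hg, hCH M A B (q * d) C D hM0]
  simp only [ite_and]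
  split_ifs
  · ring
  · simp

theorem outer {q M : ℕ} (hq : Aq q) (hM : M ≠ 0) (c : M.Coprime q) {n : ℤ} (n' : ℤ)
    (hn : IsCoprime n q) (H : ℤ → ℤ → ℂ) (hH : ∀ A A' B B' : ℤ, A ≡ A' [ZMOD (15 * M * q : ℕ)] →
      B ≡ B' [ZMOD (15 * M * q : ℕ)] → H A B = H A' B') :
    (∑ b ∈ range q, ∑ i ∈ range (15 * M), ∑ j ∈ range (15 * M),
      if ¬ (3 : ℤ) ∣ i ∧ ¬ (5 : ℤ) ∣ j then
        H (aB q (15 * M) b (5 * i) n) (aB q (15 * M) b (3 * j) n') else 0) =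
    15 * ∑ A ∈ range (15 * M * q), ∑ B ∈ range (15 * M * q),
      if ((5 : ℤ) ∣ A ∧ ¬ (3 : ℤ) ∣ A) ∧ ((3 : ℤ) ∣ B ∧ ¬ (5 : ℤ) ∣ B) ∧
        (q : ℤ) ∣ n' * A - n * B then H A B else 0 := by
  have hq0 := Nat.pos_of_ne_zero hq.ne
  have hq1 : (q : ℤ) ≠ 0 := by omega
  have hW : 0 < 15 * M * q := by positivity
  have c3 : IsCoprime (3 : ℤ) q := Nat.isCoprime_iff_coprime.2 (hq.cop (m := 3) (by simp) (by simp))
  have c5 : IsCoprime (5 : ℤ) q := Nat.isCoprime_iff_coprime.2 (hq.cop (m := 5) (by simp) (by simp))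
  have cn : IsCoprime (((15 * M : ℕ) : ℤ) * n) q :=
    (Nat.isCoprime_iff_coprime.2 (hq.c15 c)).mul_left hn
  set g : ℕ → ℕ → ℕ → ℂ := fun b i j => if ¬ (3 : ℤ) ∣ i ∧ ¬ (5 : ℤ) ∣ j then
    H (aB q (15 * M) b (5 * i) n) (aB q (15 * M) b (3 * j) n') else 0 with hg
  have e2 : ∀ b i, ∑ j ∈ range (15 * M), g b i j = 3 * ∑ j ∈ range (5 * M), g b i j := by
    intro b i
    rw [show range (15 * M) = range (3 * (5 * M)) by congr 1; ring]
    refine per 3 _ _ fun j => ?_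
    simp only [hg]
    refine if_congr (by push_cast; omega) (hH _ _ _ _ rfl (Int.modEq_iff_dvd.2 ⟨-1, ?_⟩)) rfl
    rw [aB, aB]
    push_cast
    ring
  have e3 : ∀ b, ∑ i ∈ range (15 * M), ∑ j ∈ range (5 * M), g b i j =
      5 * ∑ i ∈ range (3 * M), ∑ j ∈ range (5 * M), g b i j := by
    intro b
    rw [show range (15 * M) = range (5 * (3 * M)) by congr 1; ring]
    refine per 5 _ _ fun i => sum_congr rfl fun j _ => ?_
    simp only [hg]
    refine if_congr (by push_cast; omega) (hH _ _ _ _ (Int.modEq_iff_dvd.2 ⟨-1, ?_⟩) rfl) rfl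
    rw [aB, aB]
    push_cast
    ring
  change ∑ b ∈ range q, ∑ i ∈ range (15 * M), ∑ j ∈ range (15 * M), g b i j = _
  simp only [e2, ← mul_sum, e3]
  rw [← mul_assoc, show (3 : ℂ) * 5 = 15 by norm_num]
  congr 1
  simp only [hg]
  rw [← sum_product', ← sum_product', ← sum_product', ← sum_filter, ← sum_filter]
  refine sum_bij (fun x _ => (rd (15 * M * q) (aB q (15 * M) x.1.1 (5 * x.1.2) n),
    rd (15 * M * q) (aB q (15 * M) x.1.1 (3 * x.2) n'))) ?_ ?_ ?_ ?_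
  · rintro ⟨⟨b, i⟩, j⟩ h
    obtain ⟨h1, h2⟩ := (mem_filter.1 h).2
    obtain ⟨u, hu⟩ := rd_spec hW (aB q (15 * M) b (5 * i) n)
    obtain ⟨v, hv⟩ := rd_spec hW (aB q (15 * M) b (3 * j) n')
    simp only [mem_filter, mem_product, mem_range, rd_lt hW, true_and, hu, hv]
    simp only [aB]
    push_cast
    refine ⟨⟨⟨q * i + 3 * M * n * b + 3 * M * q * u, by ring⟩, fun ⟨w, hw⟩ => h1 ?_⟩,
      ⟨⟨q * j + 5 * M * n' * b + 5 * M * q * v, by ring⟩, fun ⟨w, hw⟩ => h2 ?_⟩,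
      5 * n' * i + 15 * M * n' * u - 3 * n * j - 15 * M * n * v, by ring⟩
    · exact c3.dvd_of_dvd_mul_left ⟨2 * q * i + 5 * M * n * b + 5 * M * q * u - w, by
        linear_combination -hw⟩
    · exact c5.dvd_of_dvd_mul_left ⟨2 * w - q * j - 6 * M * n' * b - 6 * M * q * v, by
        linear_combination 2 * hw⟩
  · rintro ⟨⟨b, i⟩, j⟩ h ⟨⟨b', i'⟩, j'⟩ h' e
    simp only [mem_filter, mem_product] at h h'
    simp only [Prod.mk.injEq] at e ⊢
    obtain ⟨u, hu⟩ := rd_spec hW (aB q (15 * M) b (5 * i) n)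
    obtain ⟨v, hv⟩ := rd_spec hW (aB q (15 * M) b (3 * j) n')
    obtain ⟨u', hu'⟩ := rd_spec hW (aB q (15 * M) b' (5 * i') n)
    obtain ⟨v', hv'⟩ := rd_spec hW (aB q (15 * M) b' (3 * j') n')
    rw [e.1, hu', aB, aB] at hu
    rw [e.2, hv', aB, aB] at hv
    obtain rfl : b = b' := evalends_uniq cn (v := -((15 * M : ℕ) * n * b')) h.1.1.1 h'.1.1.1
      ⟨5 * i' - 5 * i + 15 * M * (u' - u), by push_cast at hu ⊢; linear_combination -hu⟩ (by simp)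
    push_cast at hu hv
    refine ⟨⟨rfl, evalends_uniq isCoprime_one_left (v := -i') h.1.1.2 h'.1.1.2 ⟨u' - u, ?_⟩
      (by simp)⟩, evalends_uniq isCoprime_one_left (v := -j') h.1.2 h'.1.2 ⟨v' - v, ?_⟩ (by simp)⟩
    · refine mul_left_cancel₀ (mul_ne_zero (by norm_num : (5 : ℤ) ≠ 0) hq1) ?_
      push_cast
      linear_combination -hu
    · refine mul_left_cancel₀ (mul_ne_zero (by norm_num : (3 : ℤ) ≠ 0) hq1) ?_
      push_cast
      linear_combination -hv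
  · rintro ⟨A, B⟩ h
    simp only [mem_filter, mem_product, mem_range] at h
    obtain ⟨⟨hA, hB⟩, ⟨⟨a, ha⟩, h3⟩, ⟨⟨a', ha'⟩, h5⟩, w, hw⟩ := h
    obtain ⟨b, hb, s, hs⟩ := evalends_ex hq0 cn (-A)
    push_cast at hs
    obtain ⟨t, ht⟩ : (q : ℤ) ∣ 15 * M * n' * b - B := hn.symm.dvd_of_dvd_mul_left
      ⟨w + n' * s, by linear_combination hw + n' * hs⟩
    obtain ⟨s, rfl⟩ : (5 : ℤ) ∣ s := c5.dvd_of_dvd_mul_left
      ⟨3 * M * n * b - a, by linear_combination -hs - ha⟩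
    obtain ⟨t, rfl⟩ : (3 : ℤ) ∣ t := c3.dvd_of_dvd_mul_left
      ⟨5 * M * n' * b - a', by linear_combination -ht - ha'⟩
    have h3M : 0 < 3 * M := by omega
    have h5M : 0 < 5 * M := by omega
    obtain ⟨u, hu⟩ := rd_spec h3M (-s)
    obtain ⟨v, hv⟩ := rd_spec h5M (-t)
    push_cast at hu hv
    refine ⟨((b, rd (3 * M) (-s)), rd (5 * M) (-t)), ?_, ?_⟩
    · simp only [mem_filter, mem_product, mem_range, rd_lt h3M, rd_lt h5M, mem_range.1 hb, true_and,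
        hu, hv]
      exact ⟨fun ⟨y, hy⟩ => h3 ⟨5 * M * n * b + 5 * q * y - 5 * q * M * u, by
        linear_combination -hs + 5 * q * hy⟩, fun ⟨y, hy⟩ => h5
          ⟨3 * M * n' * b + 3 * q * y - 3 * q * M * v, by linear_combination -ht + 3 * q * hy⟩⟩
    · simp only [Prod.mk.injEq, hu, hv, aB]
      exact ⟨rd_eq hA ⟨u, by push_cast; linear_combination hs⟩,
        rd_eq hB ⟨v, by push_cast; linear_combination ht⟩⟩
  · rintro ⟨⟨b, i⟩, j⟩ -
    obtain ⟨u, hu⟩ := rd_spec hW (aB q (15 * M) b (5 * i) n)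
    obtain ⟨v, hv⟩ := rd_spec hW (aB q (15 * M) b (3 * j) n')
    exact hH _ _ _ _ (Int.modEq_iff_dvd.2 ⟨u, by linear_combination hu⟩)
      (Int.modEq_iff_dvd.2 ⟨v, by linear_combination hv⟩)

theorem nest (q M : ℕ) (hM : M ≠ 0) (δ : (ZMod M)ˣ) (Φ : F6 ℂ) : sI q M δ Φ =
    ∑ b₁ ∈ range q, ∑ i₁ ∈ range (15 * M), ∑ j₁ ∈ range (15 * M),
      if ¬ (3 : ℤ) ∣ i₁ ∧ ¬ (5 : ℤ) ∣ j₁ then
        ∑ b₂ ∈ range q, ∑ i₂ ∈ range (15 * M), ∑ j₂ ∈ range (15 * M),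
          if (3 : ℤ) ∣ i₂ ∧ (5 : ℤ) ∣ j₂ ∧ (M : ℤ) ∣ i₁ * j₂ - i₂ * j₁ - (δ : ZMod M).val then
            Φ b₁ b₂ i₁ i₂ j₁ j₂ else 0 else 0 := by
  have hM0 := Nat.pos_of_ne_zero hM
  have : sI q M δ Φ = ∑ x ∈ range q ×ˢ range (15 * M) ×ˢ range (15 * M) ×ˢ range q ×ˢ
      range (15 * M) ×ˢ range (15 * M) with (¬ (3 : ℤ) ∣ x.2.1 ∧ ¬ (5 : ℤ) ∣ x.2.2.1) ∧
        (3 : ℤ) ∣ x.2.2.2.2.1 ∧ (5 : ℤ) ∣ x.2.2.2.2.2 ∧
        (M : ℤ) ∣ x.2.1 * x.2.2.2.2.2 - x.2.2.2.2.1 * x.2.2.1 - (δ : ZMod M).val,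
      Φ x.1 x.2.2.2.1 x.2.1 x.2.2.2.2.1 x.2.2.1 x.2.2.2.2.2 := by
    refine sum_nbij' (fun i => (i.1.1, i.2.1.1, i.2.2.1, i.1.2, i.2.1.2, i.2.2.2))
      (fun x => ((x.1, x.2.2.2.1), (x.2.1, x.2.2.2.2.1), x.2.2.1, x.2.2.2.2.2)) (fun i hi => ?_)
      (fun i hi => ?_) (fun _ _ => rfl) (fun _ _ => rfl) fun _ _ => rfl
    · rw [mem_sI hM, det_iff hM0, G35] at hi
      simp only [mem_filter, mem_product, mem_range]
      tauto
    · rw [mem_sI hM, det_iff hM0, G35]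
      simp only [mem_filter, mem_product, mem_range] at hi
      tauto
  rw [this]
  simp only [sum_filter, sum_product]
  refine sum_congr rfl fun _ _ => sum_congr rfl fun _ _ => sum_congr rfl fun _ _ => ?_
  split_ifs with h
  · simp only [h, not_false_eq_true, true_and]
  · simp only [h, false_and, if_false, sum_const_zero]

end TCXRE

open TCXRE in
theorem t_CXRE (hCXCH : CXCH) : CXRE := by
  classical
  intro q M δ n n' C D F hq hM c hn hF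
  have hd : ∀ {A A' : ℤ}, A ≡ A' [ZMOD (15 * M * q : ℕ)] → (M : ℤ) ∣ A' - A := fun h =>
    Dvd.dvd.trans ⟨15 * q, by push_cast; ring⟩ h.dvd
  set G : ℤ → ℤ → ℂ := fun A B => ∑ ν ∈ range M, if (q : ℤ) ∣ n * C + n' * D ∧
    (M : ℤ) ∣ C + ν * B ∧ (M : ℤ) ∣ D - ν * A then zc M (ν * (q * (δ : ZMod M).val)) else 0 with hG
  have hp : ∀ A A' B B' : ℤ, A ≡ A' [ZMOD (15 * M * q : ℕ)] → B ≡ B' [ZMOD (15 * M * q : ℕ)] →
      15 * M * q * (F A B * G A B) = 15 * M * q * (F A' B' * G A' B') := by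
    intro A A' B B' hA hB
    rw [hF A A' B B' hA hB]
    congr 2
    refine sum_congr rfl fun ν _ => if_congr (and_congr Iff.rfl (and_congr ?_ ?_)) rfl rfl
    · rw [show C + ν * B' = C + ν * B + ν * (B' - B) by ring, dvd_add_left ((hd hB).mul_left _)]
    · rw [show D - ν * A' = D - ν * A + -ν * (A' - A) by ring, dvd_add_left ((hd hA).mul_left _)]
  rw [nest q M hM, mul_assoc (15 : ℂ) (15 * M * q), mul_sum]
  refine Eq.trans ?_ ((outer hq hM c n' hn _ hp).trans ?_)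
  · refine sum_congr rfl fun b _ => sum_congr rfl fun i _ => sum_congr rfl fun j _ => ?_
    refine if_congr Iff.rfl ?_ rfl
    rw [mul_left_comm, ← inner hCXCH hq.ne hM c _ n n' C D b i j]
    simp only [mul_sum, mul_ite, mul_zero]
  · congr 1
    refine sum_congr rfl fun A _ => ?_
    rw [mul_sum]
    refine sum_congr rfl fun B _ => ?_
    split_ifs with h
    · congr 2
      refine sum_congr rfl fun ν _ => if_congr ?_ rfl rfl
      rw [cnd]
      tauto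
    · rw [sum_eq_zero, mul_zero, mul_zero]
      exact fun ν _ => if_neg fun h' => h ⟨h'.1, h'.2.1, h'.2.2.1.1⟩

end Pool.Agent.P.MP_9c97e9_nt.K2
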