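import Pool.Agent.P.MP_9c97e9_nt.K2.IfC
import Pool.Agent.P.MP_9c97e9_nt.KT.TCXTR

/-! The series over the complex numbers. -/

namespace Pool.Agent.P.MP_9c97e9_nt.K2

open MP_8b7eba_nt.R2 (io)
open KT
open KT.Cx (sw zc eS eC fract_div_ne)
open KT.TCXTR (io_zM map_eis)
open MP_8b7eba_nt.BSD15 (saw)
open PowerSeries Finset

namespace TCXTR

theorem sw_eq {W : ℕ} (hW : W ≠ 0) {B : ℤ} (h : ¬ (15 * W : ℤ) ∣ B) :
    sw W B = B / (15 * W) - (B / (15 * W) : ℤ) - 1 / 2 := by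
  have h1 := fract_div_ne (N := 15 * W) (by omega) (B := B) (by simpa using h)
  have h2 := Rat.floor_intCast_div_natCast B (15 * W)
  push_cast at h1 h2
  rw [sw, saw, if_neg h1, Int.fract, h2]

theorem JJ_eq {q N : ℕ} (hq : q ≠ 0) (hN : N ≠ 0) (h : N.Coprime q) {i : ℤ} (hi : ¬ (N : ℤ) ∣ i)
    (b : ℤ) : (JJ q N b i : ℚ) = s4 fun n => sw (N * q) (15 * aB q N b i n) := by
  have e := fun n => sw_eq (mul_ne_zero hN hq) (aB_not_dvd h hi b n)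
  simp only [s4, e, JJ, fl]
  simp only [Int.cast_neg, Int.cast_sub, Int.cast_add, Int.cast_mul, Int.cast_ofNat]
  generalize ((15 * aB q N b i 1 / (15 * (N * q : ℕ)) : ℤ) : ℚ) = x1
  generalize ((15 * aB q N b i 2 / (15 * (N * q : ℕ)) : ℤ) : ℚ) = x2
  generalize ((15 * aB q N b i 3 / (15 * (N * q : ℕ)) : ℤ) : ℚ) = x3
  generalize ((15 * aB q N b i 4 / (15 * (N * q : ℕ)) : ℤ) : ℚ) = x4
  simp only [aB]
  push_cast
  ring

theorem map_EE (h : EV2) {q N : ℕ} (hq : q ≠ 0) (hN : N ≠ 0) (hc : N.Coprime q) {i₁ : ℤ}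
    (hi : ¬ (N : ℤ) ∣ i₁) (b₁ b₂ i₂ : ℤ) :
    PowerSeries.map io (EE q N b₁ b₂ i₁ i₂) = eE q N b₁ b₂ i₁ i₂ := by
  have e' := congrArg (fun x : ℚ => (C (x : ℂ) : ℂ⟦X⟧)) (JJ_eq hq hN hc hi b₁)
  simp only [s4, Rat.cast_intCast, Rat.cast_add, Rat.cast_sub, Rat.cast_mul, Rat.cast_ofNat,
    map_add, map_sub, map_mul, map_ofNat] at e'
  simp only [EE, eE, e1, eC, s4, map_add, map_sub, map_mul, map_ofNat, map_eis h, map_C,
    map_intCast io, e']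
  ring

end TCXTR

open TCXTR in
theorem t_CXTR (hEV2 : EV2) : CXTR := by
  intro q M δ hq hM hc
  have hN : 15 * M ≠ 0 := by omega
  constructor
  · rw [gC, ← sI_congr (Φ := fun b₁ b₂ i₁ i₂ j₁ j₂ =>
      PowerSeries.map io (EE q (15 * M) b₁ b₂ (5 * i₁) (5 * i₂) *
        EE q (15 * M) b₁ b₂ (3 * j₁) (3 * j₂))) fun b₁ b₂ i₁ i₂ j₁ j₂ hb _ => by
        rw [map_mul, map_EE hEV2 hq.ne hN (hq.c15 hc) (hb.nd hM).1,
          map_EE hEV2 hq.ne hN (hq.c15 hc) (hb.nd hM).2, pr]]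
    exact map_sum _ _ _
  · simp only [SSd, map_sum, map_mul, io_zM hEV2, map_intCast]
    exact sum_congr rfl fun ν _ => by rw [mul_left_comm, mul_assoc]

end Pool.Agent.P.MP_9c97e9_nt.K2
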