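import Pool.Agent.P.MP_9c97e9_nt.K2.IfC

/-! The coefficient of the products of Eisenstein series at the width. -/

namespace Pool.Agent.P.MP_9c97e9_nt.K2

open KT.Cx (zc eC)
open MP_8b7eba_nt.BSD15 (endSum endT endT_of_not equiv_iff Prim)
open PowerSeries Finset

namespace TCXW

theorem prim_Y {q : ℕ} (hq : q.Prime) {n n' a : ℤ} (hn' : IsCoprime n' q)
    (h : (q : ℤ) ∣ n * a - n') : Prim (Y1 q a) := by
  have ha : IsCoprime a q := by
    refine ((Nat.prime_iff_prime_int.1 hq).irreducible.coprime_iff_not_dvd.2 fun e => ?_).symm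
    exact (Nat.prime_iff_prime_int.1 hq).not_isUnit
      (hn'.isUnit_of_dvd' ((dvd_sub_right (e.mul_left n)).1 h) dvd_rfl)
  obtain ⟨u, v, e⟩ := ha
  exact ⟨5 * v - 2 * u, u - 2 * v, by simp only [Y1]; linear_combination e⟩

theorem pair (hCR : CXCR) (hE1 : CXE1) (hE2 : CXE2) {q g M : ℕ} {ν n n' a : ℤ} (hq : Aq q)
    (hg : 0 < g) (hM : 0 < M) (hc : (g * M).Coprime q) (hν : IsCoprime ν M) (hn : IsCoprime n q)
    (hn' : IsCoprime n' q) (h1 : (q : ℤ) ∣ n * a - n') (h2 : 3 ∣ a + q) :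
    (Mn q (g * M) (g * ν) n n' : ℚ) + En1 q (g * M) (g * ν) n n' + En2 q (g * M) (g * ν) n n' =
      2 * MP_8b7eba_nt.BSD15.II (ν, M) (1, 0) (Y1 q a) (2, 5) := by
  have z : ∀ y y' : ℤ × ℤ, Prim y → ¬ 15 ∣ y.2 → endT (1, 0) (ν, M) y y' = 0 :=
    fun y y' hy h => endT_of_not _ _ fun e => by
      have := (equiv_iff (x := (1, 0)) isCoprime_one_left hy).1 e
      have h3 := Int.gcd_dvd_left y.2 15
      rw [← this] at h3
      exact h h3
  have hr := hq.res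
  rw [hCR q g M ν n n' a hq hg hM hc hn h1 h2, hE1 q g M ν n n' a hq hg hM hc hν hn hn' h1 h2,
    hE2 q g M ν n n' a hq hg hM hc hν hn hn' h1 h2, MP_8b7eba_nt.BSD15.II, endSum,
    z (Y1 q a) _ (prim_Y hq.prime hn' h1) (by simp only [Y1]; omega),
    z (2, 5) _ ⟨-2, 1, by norm_num⟩ (by norm_num)]
  ring

theorem cop {q : ℕ} (hq : Aq q) {n : ℤ} (h1 : 1 ≤ n) (h4 : n ≤ 4) : IsCoprime n q := by
  lift n to ℕ using by omega
  exact Nat.isCoprime_iff_coprime.2 (hq.cop (by omega) (by omega))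

theorem ex_ch {q : ℕ} (hq : Aq q) : ∃ a, Ch q a := by
  have h : ∀ n n' : ℤ, ∃ a : ℤ, 1 ≤ n → n ≤ 4 → (q : ℤ) ∣ n * a - n' ∧ 3 ∣ a + q := fun n n' => by
    by_cases hn : 1 ≤ n ∧ n ≤ 4
    · obtain ⟨u, v, e⟩ := cop hq hn.1 hn.2
      have hr := hq.res
      obtain ⟨k, hk⟩ : ∃ k : ℤ, (q : ℤ) = 3 * k + 1 := ⟨q / 3, by omega⟩
      refine ⟨u * n' - q * (u * n' + 1), fun _ _ => ⟨⟨-(v * n') - n * (u * n' + 1), ?_⟩,
        ⟨-(k * (u * n')), ?_⟩⟩⟩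
      · linear_combination n' * e
      · linear_combination (-(u * n')) * hk
    · exact ⟨0, fun h1 h2 => (hn ⟨h1, h2⟩).elim⟩
  choose a ha using h
  exact ⟨a, ha⟩

theorem s4_congr {A : Type} [Ring A] {f f' : ℤ → A} (h : ∀ n, 1 ≤ n → n ≤ 4 → f n = f' n) :
    s4 f = s4 f' := by
  rw [s4, s4, h 1 le_rfl (by norm_num), h 2 (by norm_num) (by norm_num),
    h 3 (by norm_num) (by norm_num), h 4 (by norm_num) le_rfl]

/-- the number attached to the fraction -/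
noncomputable def NN (q M : ℕ) (ν : ℤ) : ℚ :=
  s4 fun n => s4 fun n' => Mn q M ν n n' + En1 q M ν n n' + En2 q M ν n n'

theorem NN_psi (hCR : CXCR) (hE1 : CXE1) (hE2 : CXE2) {q g M : ℕ} {ν : ℤ} {a : ℤ → ℤ → ℤ}
    (hq : Aq q) (ha : Ch q a) (hg : 0 < g) (hM : 0 < M) (hc : (g * M).Coprime q)
    (hν : IsCoprime ν M) : NN q (g * M) (g * ν) = 2 * psi q a (ν, M) := by
  rw [NN, s4_congr fun n h1 h2 => s4_congr fun n' h3 h4 => pair hCR hE1 hE2 hq hg hM hc hν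
    (cop hq h1 h2) (cop hq h3 h4) (ha n n' h1 h2).1 (ha n n' h1 h2).2]
  simp only [psi, s4]
  ring

theorem NN_eq (hCR : CXCR) (hE1 : CXE1) (hE2 : CXE2) (hMS : CXMS) {q : ℕ} (hq : Aq q) :
    ∃ b : ℕ → ℂ, ∀ M ν : ℕ, M ≠ 0 → M.Coprime q →
      (NN q M ν : ℂ) = 4 * ns ν M + 2 * b ((M / ν.gcd M).gcd 15) := by
  obtain ⟨a, ha⟩ := ex_ch hq
  obtain ⟨b, hb⟩ := hMS q a hq ha
  refine ⟨b, fun M ν hM hc => ?_⟩
  obtain ⟨x, c, h1, h2, h3⟩ := Nat.exists_coprime ν M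
  have hg := Nat.gcd_pos_of_pos_right ν (Nat.pos_of_ne_zero hM)
  generalize ν.gcd M = g at *
  rw [mul_comm] at h2 h3
  subst h2 h3
  have e : ns (g * x : ℕ) (g * c : ℕ) = ns x c := by
    have := MP_8b7eba_nt.Mod.lv_mul (k := g) (by omega) x c
    rw [MP_8b7eba_nt.Mod.lv_eq, MP_8b7eba_nt.Mod.lv_eq] at this
    push_cast
    rw [ns, ns, (MP_8b7eba_nt.Mod.coeff_eq this).1, (MP_8b7eba_nt.Mod.coeff_eq this).2]
  have h4 := Nat.isCoprime_iff_coprime.2 h1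
  have h5 := hb (x, c) h4
  rw [show Int.gcd ((x, c) : ℤ × ℤ).2 15 = c.gcd 15 from Int.gcd_natCast_natCast c 15] at h5
  rw [e, Nat.cast_mul, NN_psi hCR hE1 hE2 hq ha hg
    (Nat.pos_of_ne_zero (right_ne_zero_of_mul hM)) hc h4, Nat.mul_div_cancel_left _ hg]
  push_cast
  rw [h5]
  ring

theorem coeff_e1 (hCM : CXCM) (hC1 : CXC1) (hC2 : CXC2) {q M : ℕ} (δ : (ZMod M)ˣ) {n : ℤ} (n' : ℤ)
    (hq : Aq q) (hM : M ≠ 0) (hc : M.Coprime q) (hn : IsCoprime n q) :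
    coeff (15 * M * q) (sI q M δ (pr (e1 q (15 * M) n) (e1 q (15 * M) n'))) =
      15 * (15 * M * q) * ∑ ν ∈ range M, zc M (ν * (q * (δ : ZMod M).val)) *
        ((Mn q M ν n n' + En1 q M ν n n' + En2 q M ν n n' : ℚ) : ℂ) := by
  have hW : 15 * M * q ≠ 0 := mul_ne_zero (mul_ne_zero (by norm_num) hM) hq.ne
  simp only [Rat.cast_add, Rat.cast_intCast, mul_add, sum_add_distrib]
  rw [← hCM q M δ n n' hq hM hc hn, ← hC1 q M δ n n' hq hM hc hn, ← hC2 q M δ n n' hq hM hc hn]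
  simp only [sI, map_sum, ← sum_add_distrib]
  refine sum_congr rfl fun i _ => ?_
  simp only [pr, e1, e0, c0, eC, add_mul, mul_add, map_add, coeff_C_mul, coeff_mul_C, coeff_C,
    if_neg hW]
  ring

theorem gC_eq (q M : ℕ) (δ : (ZMod M)ˣ) (j : ℕ) : coeff j (gC q M δ) =
    s4 fun n => s4 fun n' => coeff j (sI q M δ (pr (e1 q (15 * M) n) (e1 q (15 * M) n'))) := by
  have e : gC q M δ =
      s4 fun n => s4 fun n' => sI q M δ (pr (e1 q (15 * M) n) (e1 q (15 * M) n')) := by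
    simp only [gC, s4, sI, mul_sum, ← sum_add_distrib, ← sum_sub_distrib]
    refine sum_congr rfl fun i _ => ?_
    simp only [pr, eE, s4]
    ring
  rw [e]
  simp only [s4, map_sub, map_add, show (3 : ℂ⟦X⟧) = C 3 from rfl, coeff_C_mul]

end TCXW

open TCXW in
theorem t_CXW (hCXCM : CXCM) (hCXC1 : CXC1) (hCXC2 : CXC2) (hCXCR : CXCR) (hCXE1 : CXE1)
    (hCXE2 : CXE2) (hCXMS : CXMS) (hCXBD : CXBD) : CXW := by
  intro q M p δ hq hM hc hp h15 hd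
  obtain ⟨b, hb⟩ := NN_eq hCXCR hCXE1 hCXE2 hCXMS hq
  have hD : ¬ (p : ℤ) ∣ q * (δ : ZMod M).val := fun h => by
    have h1 : (q * (δ : ZMod M).val).Coprime M :=
      hc.symm.mul_left (ZMod.val_coe_unit_coprime δ)
    exact hp.one_lt.ne' (Nat.eq_one_of_dvd_coprimes h1 (by exact_mod_cast h) hd)
  have h0 := hCXBD M p _ b hM hp h15 hd hD
  rw [gC_eq, s4_congr fun n h1 h2 => s4_congr fun n' _ _ =>
    coeff_e1 hCXCM hCXC1 hCXC2 δ n' hq hM hc (cop hq h1 h2)]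
  have e : (s4 fun n => s4 fun n' => 15 * (15 * M * q) *
      ∑ ν ∈ range M, zc M (ν * (q * (δ : ZMod M).val)) *
        ((Mn q M ν n n' + En1 q M ν n n' + En2 q M ν n n' : ℚ) : ℂ)) =
      15 * (15 * M * q) * ∑ ν ∈ range M, zc M (ν * (q * (δ : ZMod M).val)) * NN q M ν := by
    simp only [s4, mul_sum, ← sum_add_distrib, ← sum_sub_distrib]
    refine sum_congr rfl fun ν _ => ?_
    simp only [NN, s4, Rat.cast_add, Rat.cast_sub, Rat.cast_mul, Rat.cast_ofNat]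
    ring
  rw [e, sum_congr rfl fun ν _ => congrArg _ (hb M ν hM hc)]
  simp only [mul_add, sum_add_distrib, mul_left_comm _ (2 : ℂ), mul_left_comm _ (4 : ℂ), ← mul_sum,
    h0]
  ring

end Pool.Agent.P.MP_9c97e9_nt.K2
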