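import Pool.Agent.P.MP_9c97e9_nt.K2.IfEB
import Pool.Agent.P.MP_9c97e9_nt.KT.TEEX

/-! Conjugates of the truncated integrals. -/

namespace Pool.Agent.P.MP_9c97e9_nt.K2

open MP_8b7eba_nt.R2 KT
open Finset PowerSeries
open KT.TEEX (F coeff_F F_eis)

namespace TEEX

theorem aB_shift {q N : ℕ} {b₁ b₂ b₂' i₁ i₂ i₂' j : ℤ} (hb : (q : ℤ) ∣ b₂' - (b₂ + 15 * b₁ * j))
    (hi : (N : ℤ) ∣ i₂' - (i₂ + 15 * i₁ * j)) (n : ℤ) :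
    ((N * q : ℕ) : ℤ) ∣ aB q N b₂' i₂' n - (aB q N b₂ i₂ n + 15 * aB q N b₁ i₁ n * j) := by
  obtain ⟨x, hx⟩ := hb
  obtain ⟨y, hy⟩ := hi
  refine ⟨y + n * x, ?_⟩
  simp only [aB]
  push_cast
  linear_combination q * hy + N * n * hx

theorem F_EE {q N : ℕ} {σ : GQ} (hM : N * q ≠ 0) (h1 : IsPrimitiveRoot (zM (N * q) 1) (N * q))
    (h2 : ∀ a : ℤ, zM (N * q) a = zM (N * q) 1 ^ a) (hσ : σ (zM (N * q) 1) = zM (N * q) 1)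
    {b₁ b₂ b₂' i₁ i₂ i₂' j : ℤ} (hb : (q : ℤ) ∣ b₂' - (b₂ + 15 * b₁ * j))
    (hi : (N : ℤ) ∣ i₂' - (i₂ + 15 * i₁ * j)) :
    F σ (zM (N * q) j) (EE q N b₁ b₂ i₁ i₂) = EE q N b₁ b₂' i₁ i₂' := by
  have e : F σ (zM (N * q) j) (C (JJ q N b₁ i₁ : Om)) = C (JJ q N b₁ i₁ : Om) := by
    rw [map_intCast (C (R := Om)), map_intCast]
  have f : ∀ n, F σ (zM (N * q) j) (eis (N * q) (aB q N b₂ i₂ n) (15 * aB q N b₁ i₁ n)) =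
      eis (N * q) (aB q N b₂' i₂' n) (15 * aB q N b₁ i₁ n) := fun n =>
    F_eis hM h1 h2 hσ (aB_shift hb hi n) (by simp)
  simp only [EE, s4, map_add, map_sub, map_mul, map_ofNat, e, f]

end TEEX

open TEEX in
theorem t_EEX (hZMX : ZMX) : EEX := by
  intro q N X b₁ b₂ b₂' i₁ i₂ i₂' j₁ j₂ j₂' j σ t hq hN hσ ht hb hi hj
  have hM := mul_ne_zero hN hq
  obtain ⟨h1, h2, -, h3, -⟩ := hZMX.1 _ hM
  have h4 := (h3 σ).1 hσ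
  rw [← F_EE hM h1 (fun a => (h2 a).1) h4 hb hi, ← F_EE hM h1 (fun a => (h2 a).1) h4 hb hj,
    ← map_mul]
  simp only [Iv, map_sum, coeff_F, map_div₀, map_natCast]
  refine sum_congr rfl fun m _ => ?_
  rw [map_mul σ, map_pow, ht]
  ring

end Pool.Agent.P.MP_9c97e9_nt.K2
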