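import Pool.Agent.P.MP_9c97e9_nt.K2.IfEB
import Pool.Agent.P.MP_9c97e9_nt.KT.TPFX

/-! The finite products in the form of the symbol formula. -/

namespace Pool.Agent.P.MP_9c97e9_nt.K2

open scoped NNReal
open MP_8b7eba_nt.R2 KT Finset PowerSeries
open KT.TPFX (blkP blkS)

theorem t_PFX (hZMX : ZMX) : PFX := by
  intro q N k X L b₁ b₂ i₁ i₂ e t u hq hN hc hi₁ hk he hX hu
  have hz : ∀ a, zM (N * q) a = zM (N * q) 1 ^ a := fun a =>
    ((hZMX.1 _ (mul_ne_zero hN hq)).2.1 a).1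
  have hk' : (2 : ℤ) ^ k ∣ N := by exact_mod_cast hk
  refine ⟨(ℤ × ℤ) × ℤ × ℕ,
    (({(1, 1), (2, -3), (3, 3), (4, -1)} : Finset (ℤ × ℤ)) ×ˢ ({1, -1} : Finset ℤ) ×ˢ range L).filter
      fun i => (15 * (N * q : ℕ) : ℤ) ∣ i.2.2 - i.2.1 * (15 * aB q N b₁ i₁ i.1.1),
    fun i => i.2.1 * aB q N b₂ i₂ i.1.1, fun i => i.2.2, fun i => i.1.2, fun i => i.2.1,
    (-1) ^ (JJ q N b₁ i₁).natAbs, AA q N b₁ b₂ i₁ i₂, e, neg_one_pow_eq_or _ _,
    hk'.trans (AA_dvd q N b₁ b₂ i₁ i₂), hk'.trans he, fun i hi => ?_, ?_, fun m hm => ?_⟩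
  · obtain ⟨⟨n, ε⟩, σ, c⟩ := i
    obtain ⟨h1, d, h2⟩ := mem_filter.1 hi
    have h5 : σ = 1 ∨ σ = -1 := by simpa using (mem_product.1 (mem_product.1 h1).2).1
    simp only at h2 ⊢
    refine ⟨Nat.pos_of_ne_zero fun h => aB_not_dvd hc hi₁ b₁ n ?_,
      by rcases h5 with rfl | rfl <;> decide,
      hk'.trans ⟨σ * n * b₂, by simp only [aB]; ring⟩,
      hk'.trans ⟨15 * q * d + σ * 15 * n * b₁, ?_⟩⟩
    · rw [h] at h2
      rcases h5 with rfl | rfl
      · exact ⟨-d, by linear_combination -h2⟩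
      · exact ⟨d, by linear_combination h2⟩
    · simp only [aB] at h2
      push_cast at h2
      linear_combination h2
  · convert hu using 4
    rw [prod_filter, prod_product, prod_insert (by decide), prod_insert (by decide),
      prod_insert (by decide), prod_singleton]
    simp only [blkP hz]
    rw [piO, ← hz, p4]
    simp only [zpow_neg, zpow_ofNat]
    ring
  · rw [map_sub, map_sum, sum_filter, sum_product, sum_insert (by decide), sum_insert (by decide),
      sum_insert (by decide), sum_singleton]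
    simp only [blkS hz _ _ (hm.trans_lt hX)]
    rw [EE, map_intCast, s4]
    have h3 : ∀ P : Om⟦X⟧, coeff m (3 * P) = 3 * coeff m P := fun P => by
      rw [show (3 : Om⟦X⟧) * P = P + P + P by ring, map_add, map_add]
      ring
    simp only [map_sub, map_add, h3]
    push_cast
    ring

end Pool.Agent.P.MP_9c97e9_nt.K2
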