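import Pool.Agent.P.MP_9c97e9_nt.K2.IfS

/-! The finite computation of the descent for the twists by the divisors of thirty. -/

namespace Pool.Agent.P.MP_9c97e9_nt.K2

namespace TSDEC

/-- the residues `m r ^ 2` modulo `N` with `r < k`, as a bit mask -/
def mk (N : ℕ) (m : ℤ) (k : ℕ) : ℕ :=
  Nat.rec 0 (fun r x => x ||| 2 ^ (m * (r * r : ℕ) % (N : ℤ)).toNat) k

/-- the bit of a residue -/
def bt (N M : ℕ) (x : ℤ) : Bool := M.testBit (x % (N : ℤ)).toNat

/-- the test with the three masks -/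
def ts (p N : ℕ) (d a : ℤ) (A B C : ℕ) : Bool :=
  (List.range N).any (fun u => bt N A u && (bt N B (u + 9 * d) && bt N C (u - 16 * d))) ||
    (a % (p : ℤ) != 0 && (List.range N).any fun t =>
      t % p == 0 && (bt N B (a + 9 * d * (t * t : ℕ)) && bt N C (a - 16 * d * (t * t : ℕ))))

/-- the test -/
def tst (p N : ℕ) (d a b : ℤ) : Bool :=
  ts p N d a (mk N a N) (mk N b N) (mk N (a / Int.gcd a b * (b / Int.gcd a b)) N)

theorem mk_bit (N : ℕ) (m : ℤ) (r : ℕ) : ∀ k, r < k →
    (mk N m k).testBit (m * (r * r : ℕ) % (N : ℤ)).toNat = true := by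
  intro k
  induction k with
  | zero => intro h; omega
  | succ k ih =>
    intro h
    show (mk N m k ||| 2 ^ (m * (k * k : ℕ) % (N : ℤ)).toNat).testBit _ = true
    rw [Nat.testBit_or]
    rcases Nat.lt_succ_iff_lt_or_eq.1 h with h | h
    · rw [ih h, Bool.true_or]
    · rw [h, Nat.testBit_two_pow_self, Bool.or_true]

theorem red (N : ℕ) (hN : 0 < N) (x : ℤ) : ∃ y : ℕ, y < N ∧ (y : ℤ) ≡ x [ZMOD N] := by
  have h0 : (0 : ℤ) < N := by exact_mod_cast hN
  have h1 := Int.emod_nonneg x h0.ne'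
  have h2 := Int.emod_lt_of_pos x h0
  refine ⟨(x % N).toNat, by omega, ?_⟩
  rw [Int.toNat_of_nonneg h1]
  exact Int.mod_modEq x N

theorem bt_mk (N : ℕ) (hN : 0 < N) (m x r : ℤ) (h : x ≡ m * r ^ 2 [ZMOD N]) :
    bt N (mk N m N) x = true := by
  obtain ⟨y, hy, e⟩ := red N hN r
  have e2 : x ≡ m * (y * y : ℕ) [ZMOD N] := by
    refine h.trans (Int.ModEq.mul_left m ?_)
    rw [Nat.cast_mul, sq]
    exact (e.mul e).symm
  unfold bt
  rw [show x % (N : ℤ) = m * (y * y : ℕ) % (N : ℤ) from e2]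
  exact mk_bit N m y N hy

theorem tst_of (p N : ℕ) (hN : 0 < N) (hp : p ∣ N) (d a b : ℤ) (h : Md p N d a b) :
    tst p N d a b = true := by
  obtain ⟨u, t, r, s, v, h0, h1, h2, h3⟩ := h
  unfold tst ts
  rw [Bool.or_eq_true]
  rcases h0 with rfl | ⟨rfl, ht, ha⟩
  · left
    obtain ⟨y, hy, e⟩ := red N hN u
    rw [List.any_eq_true]
    refine ⟨y, List.mem_range.2 hy, ?_⟩
    rw [one_pow, mul_one] at h2 h3
    rw [bt_mk N hN _ _ r (e.trans h1), bt_mk N hN _ _ s ((e.add_right _).trans h2),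
      bt_mk N hN _ _ v ((e.sub_right _).trans h3)]
    rfl
  · right
    obtain ⟨y, hy, e⟩ := red N hN t
    have e2 : ((y * y : ℕ) : ℤ) ≡ t ^ 2 [ZMOD N] := by
      rw [Nat.cast_mul, sq]
      exact e.mul e
    have hy2 : y % p = 0 := by
      have h4 : (p : ℤ) ∣ t - y := (Int.natCast_dvd_natCast.2 hp).trans e.dvd
      have h5 : (p : ℤ) ∣ y := by
        have := ht.sub h4
        rwa [sub_sub_cancel] at this
      exact Nat.mod_eq_zero_of_dvd (Int.natCast_dvd_natCast.1 h5)
    have ha2 : (u % (p : ℤ) != 0) = true := by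
      rw [bne_iff_ne]
      exact fun h => ha (Int.dvd_of_emod_eq_zero h)
    rw [ha2, Bool.true_and, List.any_eq_true]
    refine ⟨y, List.mem_range.2 hy, ?_⟩
    rw [bt_mk N hN _ _ s (((e2.mul_left _).add_left _).trans h2),
      bt_mk N hN _ _ v (((e2.mul_left _).sub_left _).trans h3), hy2]
    rfl

/-- the divisors of thirty -/
def Dv : List ℤ := [1, -1, 2, -2, 3, -3, 5, -5, 6, -6, 10, -10, 15, -15, 30, -30]

theorem mem_Dv (a : ℤ) (h : a ∣ 30) : a ∈ Dv := by
  have h1 : a ≤ 30 := Int.le_of_dvd (by norm_num) h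
  have h2 : -a ≤ 30 := Int.le_of_dvd (by norm_num) (Int.neg_dvd.2 h)
  have h3 : -30 ≤ a := by omega
  interval_cases a <;> first | decide | exact absurd h (by decide)

theorem fin : (Z0.all fun d => Dv.all fun a => Dv.all fun b =>
    !(if 0 < d then decide (0 < b) else decide (0 < a * b)) || (decide ((a, b) ∈ Gs d) ||
      (!tst 2 32 d a b || (!tst 3 81 d a b || !tst 5 625 d a b)))) = true := by
  decide +kernel

end TSDEC

open TSDEC in
theorem t_SDEC : SDEC := by
  intro d hd a b ha hb h1 h2 m2 m3 m5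
  have h := fin
  rw [List.all_eq_true] at h
  have h := h d hd
  rw [List.all_eq_true] at h
  have h := h a (mem_Dv a ha)
  rw [List.all_eq_true] at h
  have h := h b (mem_Dv b hb)
  rw [tst_of 2 32 (by norm_num) (by norm_num) d a b m2,
    tst_of 3 81 (by norm_num) (by norm_num) d a b m3,
    tst_of 5 625 (by norm_num) (by norm_num) d a b m5] at h
  have hd0 : d ≠ 0 := by
    rintro rfl
    revert hd
    decide
  have hs : (if 0 < d then decide (0 < b) else decide (0 < a * b)) = true := by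
    split_ifs with h0
    · exact decide_eq_true (h1 h0)
    · exact decide_eq_true (h2 (by omega))
  rw [hs] at h
  simpa using h

end Pool.Agent.P.MP_9c97e9_nt.K2
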