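import Pool.Agent.P.MP_9c97e9_nt.K2.IfS
import Pool.Agent.P.MP_9c97e9_nt.All.G3

/-! Descent: if all classes of points are classes of 4-torsion points, the group is finite. -/

namespace Pool.Agent.P.MP_9c97e9_nt.K2

open Pool.Agent.P.MP_8b7eba_nt Pool.Agent.P.MP_8b7eba_nt.BSD15 Classical Height All

namespace TSFIN

attribute [local instance 10000] g3_dec

variable {W : WeierstrassCurve ℤ} {a b : ℚ}

theorem dup_eq (h : Split W 0 a b) {Q : Pt W ℚ} {x η x' η' : ℚ} (hQ : Is Q x' η')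
    (hR : Is (Q + Q) x η) : Desc.dup a b x' = x := by
  have h2 := UU_sq h hR
  rw [hQ.UU_eq, div_pow, hQ.eq h] at h2
  simp only [sub_zero, zero_sub, neg_mul_neg] at h2
  rw [h2, Desc.dup]

theorem halve (h : Split W 0 a b) {P : Pt W ℚ} (h0 : P + P ≠ 0) (s1 : IsSquare (dl 0 a b P))
    (s2 : IsSquare (dl a 0 b P)) : ∃ Q : Pt W ℚ, Q + Q = P := by
  rcases zero_or_is P with rfl | ⟨x, η, hP⟩
  · exact ⟨0, add_zero _⟩
  have hη := (hP.two_ne h).1 h0
  have e := hP.eq h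
  have hn : (x - 0) * (x - a) * (x - b) ≠ 0 := fun e' => hη (by
    rw [e', mul_zero] at e
    exact pow_eq_zero_iff two_ne_zero |>.1 e)
  have n1 : x - 0 ≠ 0 := left_ne_zero_of_mul (left_ne_zero_of_mul hn)
  have n2 : x - a ≠ 0 := right_ne_zero_of_mul (left_ne_zero_of_mul hn)
  rw [hP.dl_ne n1] at s1
  rw [hP.dl_ne n2] at s2
  obtain ⟨r, hr⟩ := s1
  obtain ⟨s, hs⟩ := s2
  have r0 : r ≠ 0 := fun e' => n1 (by rw [hr, e', mul_zero])
  have s0 : s ≠ 0 := fun e' => n2 (by rw [hs, e', mul_zero])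
  obtain ⟨x₀, ⟨y, hy, ey⟩, hx⟩ := Desc.half (a := a) (b := b) (x := x)
    (fun e => h.n12 (by simp [e])) (fun e => h.n13 (by simp [e]))
    (fun e => h.n23 (by linear_combination -e))
    ⟨r, s, η / (2 * r * s), r0, s0, by positivity, by linear_combination hr,
      by linear_combination hs, by
        rw [hr, hs] at e
        field_simp
        linear_combination -e⟩
  obtain ⟨Q, hQ⟩ := h.exists_is (x := x₀) (η := 2 * y) (by linear_combination 4 * ey)
  rcases zero_or_is (Q + Q) with e0 | ⟨x₁, η₁, hR⟩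
  · exact absurd e0 ((hQ.two_ne h).2 (by positivity))
  obtain rfl : x₁ = x := (dup_eq h hQ hR).symm.trans hx
  rcases sq_eq_sq_iff_eq_or_eq_neg.1 ((hR.eq h).trans e.symm) with rfl | rfl
  · exact ⟨Q, hR.unique h hP⟩
  · exact ⟨-Q, by rw [← neg_add, hR.unique h hP.neg, neg_neg]⟩

theorem pre (h : Split W 0 a b) {A : Set (Pt W ℚ)} (hA : A.Finite) :
    {P : Pt W ℚ | P + P ∈ A}.Finite := by
  refine (hA.biUnion (t := fun R => {P : Pt W ℚ | P + P = R}) fun R _ => ?_).subset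
    fun P hP => Set.mem_iUnion₂.2 ⟨_, hP, rfl⟩
  rcases Set.eq_empty_or_nonempty {P : Pt W ℚ | P + P = R} with e | ⟨P₀, h0⟩
  · rw [e]; exact Set.finite_empty
  refine ((g3_ker h).image (P₀ + ·)).subset fun P hP => ⟨P - P₀, ?_, add_sub_cancel _ _⟩
  show P - P₀ + (P - P₀) = 0
  rw [sub_add_sub_comm, show P + P = R from hP, show P₀ + P₀ = R from h0, sub_self]

theorem main (h : Split W 0 a b)
    (H : ∀ P : Pt W ℚ, ∃ T : Pt W ℚ, T + T + (T + T) = 0 ∧
      IsSquare (dl 0 a b P * dl 0 a b T) ∧ IsSquare (dl a 0 b P * dl a 0 b T)) :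
    Finite (Pt W ℚ) := by
  obtain ⟨c, hc⟩ := g3_height (a := a) (b := b) (fun e => h.n12 (by simp [e]))
    (fun e => h.n13 (by simp [e])) (fun e => h.n23 (by linear_combination -e))
  have hS : {x : ℚ | ∃ (P : Pt W ℚ) (η : ℚ), Is (P + P + (P + P)) x η}.Finite := by
    refine Desc.finite_of_descent _ logHeight₁ (Desc.dup a b) c
      (NumberField.finite_setOfPred_logHeight₁_le ℚ) ?_
    rintro x ⟨P, η, hR⟩
    obtain ⟨T, hT, s1, s2⟩ := H P
    have e : P + -T + (P + -T) + (P + -T + (P + -T)) = P + P + (P + P) := by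
      rw [← add_zero (P + P + (P + P)), ← neg_zero, ← hT]
      abel
    rw [← e] at hR
    obtain ⟨Q, hQ⟩ := halve h (P := P + -T)
      (fun e0 => hR.ne_zero (by rw [e0, add_zero]))
      (g3_sq (dl_add h P (-T)) (by rwa [dl_neg]) (mul_ne_zero (dl_ne_zero h _) (dl_ne_zero h _)))
      (g3_sq (dl_add h.swap P (-T)) (by rwa [dl_neg])
        (mul_ne_zero (dl_ne_zero h.swap _) (dl_ne_zero h.swap _)))
    rw [← hQ] at hR
    rcases zero_or_is (Q + Q + (Q + Q)) with e0 | ⟨x', η', hU⟩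
    · exact absurd (by rw [e0, add_zero]) hR.ne_zero
    have h1 := dup_eq h hU hR
    exact ⟨x', ⟨Q, η', hU⟩, h1, h1 ▸ hc x'⟩
  refine Set.finite_univ_iff.1 ((pre h (pre h ((hS.biUnion fun x _ => g3_fib h x).insert
    0))).subset fun P _ => ?_)
  exact (zero_or_is (P + P + (P + P))).imp_right fun ⟨x, η, hx⟩ =>
    Set.mem_iUnion₂.2 ⟨x, ⟨P, η, hx⟩, η, hx⟩

end TSFIN

theorem t_SFIN : SFIN := by
  intro W a b h
  have e : instDecidableEqRat = fun a b => propDecidable (a = b) := Subsingleton.elim _ _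
  rw [e]
  exact TSFIN.main h

end Pool.Agent.P.MP_9c97e9_nt.K2
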