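import Pool.Agent.P.MP_9c97e9_nt.K2.IfS

/-! Points of infinite order on six twists. -/

namespace Pool.Agent.P.MP_9c97e9_nt.K2

open MP_8b7eba_nt.R3 (twa)
open MP_8b7eba_nt.R3.MM (twb eq2)

namespace TSINF

attribute [local instance 10000] All.g3_dec

theorem key (d : ℤ) (e x y : ℚ) (he : (d : ℚ) = e) (h4 : ¬ d % 4 = 1) (h0 : e ≠ 0)
    (n1 : ¬ IsSquare e) (n2 : ¬ IsSquare (-e)) (hy : y ^ 2 = x * (x + 9 * e) * (x - 16 * e))
    (hx : x ≠ 0) (hx' : x + 9 * e ≠ 0) (c0 : ¬ IsSquare x ∨ ¬ IsSquare (x + 9 * e))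
    (c1 : ¬ IsSquare (-x) ∨ ¬ IsSquare (e * (x + 9 * e)))
    (c2 : ¬ IsSquare (-e * x) ∨ ¬ IsSquare (x + 9 * e))
    (c3 : ¬ IsSquare (e * x) ∨ ¬ IsSquare (e * (x + 9 * e))) : Infinite (Pt (twa d) ℚ) := by
  have h : Split (twa d) (0 : ℚ) (-9 * e) (16 * e) := by
    rw [eq2 h4, ← he]
    rw [← he] at h0
    refine ⟨two_ne_zero, by simpa using h0, by simpa using h0,
      fun e => h0 (by linear_combination -e / 25), ?_, ?_, ?_⟩ <;> simp only [twb] <;> push_cast <;>
      ring
  obtain ⟨P, hP⟩ := h.exists_is (x := x) (η := 2 * y) (by linear_combination 4 * hy)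
  refine not_finite_iff_infinite.1 fun hf => ?_
  obtain ⟨m, hm⟩ := All.g3_odd (P := P) (fun P hP => by
    rcases two_torsion h hP with e | e | e | e
    · exact e
    · have := UU_sq h.swap e
      generalize UU _ _ _ P = u at this
      exact (n1 ⟨u / 3, by linear_combination this / 9⟩).elim
    · have := UU_sq h e
      generalize UU _ _ _ P = u at this
      exact (n2 ⟨u / 3, by linear_combination this / 9⟩).elim
    · have := UU_sq h e
      generalize UU _ _ _ P = u at this
      exact (n1 ⟨u / 4, by linear_combination this / 16⟩).elim) (isOfFinAddOrder_of_finite P)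
  obtain ⟨r, hr⟩ := All.g3_dl_odd h P m
  obtain ⟨s, hs⟩ := All.g3_dl_odd h.swap P m
  rw [hP.dl_ne (by simpa using hx)] at hr
  rw [hP.dl_ne (by simpa using hx')] at hs
  rcases two_torsion h hm with t | t | t | t
  · rw [t, dl_zero] at hr hs
    exact c0.elim (· ⟨r, by linear_combination hr⟩) (· ⟨s, by linear_combination hs⟩)
  · rw [t.dl_eq] at hr
    rw [t.dl_ne h.n12] at hs
    exact c1.elim (· ⟨r / (12 * e), by field_simp; linear_combination hr⟩)
      (· ⟨s / 3, by linear_combination hs / 9⟩)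
  · rw [t.dl_ne h.swap.n12] at hr
    rw [t.dl_eq] at hs
    exact c2.elim (· ⟨r / 3, by linear_combination hr / 9⟩)
      (· ⟨s / (15 * e), by field_simp; linear_combination hs⟩)
  · rw [t.dl_ne h.swap'.swap.n12] at hr
    rw [t.dl_ne h.swap.swap'.swap.n12] at hs
    exact c3.elim (· ⟨r / 4, by linear_combination hr / 16⟩)
      (· ⟨s / 5, by linear_combination hs / 25⟩)

end TSINF

theorem t_SINF : SINF := by
  intro d hd
  simp only [Z1, List.mem_cons, List.not_mem_nil, or_false] at hd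
  rcases hd with rfl | rfl | rfl | rfl | rfl | rfl
  · apply TSINF.key _ 3 (-24) 72 <;> norm_num
  · apply TSINF.key _ (-6) (-6) 180 <;> norm_num
  · apply TSINF.key _ 10 (-9) 351 <;> norm_num
  · apply TSINF.key _ (-10) 96 384 <;> norm_num
  · apply TSINF.key _ 15 (-54) 1134 <;> norm_num
  · apply TSINF.key _ 30 2646 129276 <;> norm_num

end Pool.Agent.P.MP_9c97e9_nt.K2
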