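import Pool.Agent.P.MP_9c97e9_nt.K2.IfS

/-! A local point on a 2-covering gives a primitive point modulo the powers of the prime. -/

namespace Pool.Agent.P.MP_9c97e9_nt.K2

namespace TSLIFT

open PadicInt

variable {p : ℕ} [hp : Fact p.Prime]

theorem lift {x : ℚ_[p]} (h : ‖x‖ ≤ 1) : ∃ y : ℤ_[p], (y : ℚ_[p]) = x := ⟨⟨x, h⟩, rfl⟩

theorem nsq {b : ℤ} (hb : Squarefree b) (h : (p : ℤ_[p]) ^ 2 ∣ (b : ℤ_[p])) : False :=
  (Nat.prime_iff_prime_int.1 hp.out).not_isUnit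
    (hb p (by rw [← sq]; exact (pow_p_dvd_int_iff 2 b).1 h))

theorem int_of {b : ℤ} (hb : Squarefree b) {s : ℚ_[p]} (h : ‖b * s ^ 2‖ ≤ 1) : ‖s‖ ≤ 1 := by
  by_contra hs
  rw [not_le] at hs
  have hs0 : s ≠ 0 := by
    rintro rfl
    norm_num at hs
  have h1 : ‖s⁻¹‖ < 1 := by
    rw [norm_inv]
    exact inv_lt_one_of_one_lt₀ hs
  obtain ⟨y, hy⟩ := lift h1.le
  obtain ⟨w, hw⟩ := lift h
  obtain ⟨z, rfl⟩ := (norm_lt_one_iff_dvd y).1 (by rw [← hy] at h1; exact h1)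
  refine nsq (p := p) hb ⟨z ^ 2 * w, Subtype.ext ?_⟩
  push_cast at hy ⊢
  rw [← mul_assoc, ← mul_pow, hy, hw]
  field_simp

theorem dvd_int (b : ℤ) : (p : ℤ_[p]) ∣ (b : ℤ_[p]) ↔ (p : ℤ) ∣ b := by
  simpa using pow_p_dvd_int_iff (p := p) 1 b

theorem c9 : ((9 : ℤ_[p]) : ℚ_[p]) = 9 := coe_natCast 9

theorem c16 : ((16 : ℤ_[p]) : ℚ_[p]) = 16 := coe_natCast 16

theorem cong (k : ℕ) {d a b c : ℤ} {U T R S V : ℤ_[p]} {u t : ℤ}
    (hu : toZModPow k U = u) (ht : toZModPow k T = t) (e1 : U = a * R ^ 2)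
    (e2 : U + 9 * d * T ^ 2 = b * S ^ 2) (e3 : U - 16 * d * T ^ 2 = c * V ^ 2) :
    ∃ r s v : ℤ, u ≡ a * r ^ 2 [ZMOD (p ^ k : ℕ)] ∧
      u + 9 * d * t ^ 2 ≡ b * s ^ 2 [ZMOD (p ^ k : ℕ)] ∧
      u - 16 * d * t ^ 2 ≡ c * v ^ 2 [ZMOD (p ^ k : ℕ)] := by
  obtain ⟨r, hr⟩ := ZMod.intCast_surjective (toZModPow k R)
  obtain ⟨s, hs⟩ := ZMod.intCast_surjective (toZModPow k S)
  obtain ⟨v, hv⟩ := ZMod.intCast_surjective (toZModPow k V)
  have f1 := congrArg (toZModPow k) e1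
  have f2 := congrArg (toZModPow k) e2
  have f3 := congrArg (toZModPow k) e3
  simp only [map_mul, map_pow, map_add, map_sub, map_intCast, map_ofNat, hu, ht, ← hr, ← hs,
    ← hv] at f1 f2 f3
  refine ⟨r, s, v, ?_, ?_, ?_⟩ <;> rw [← ZMod.intCast_eq_intCast_iff] <;> push_cast
  · exact f1
  · exact f2
  · exact f3

theorem lifts {d b c : ℤ} (hb : Squarefree b) (hc : Squarefree c) {U T : ℤ_[p]} {s v : ℚ_[p]}
    (e2 : (U : ℚ_[p]) + 9 * d * T ^ 2 = b * s ^ 2)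
    (e3 : (U : ℚ_[p]) - 16 * d * T ^ 2 = c * v ^ 2) :
    ∃ S V : ℤ_[p], U + 9 * d * T ^ 2 = b * S ^ 2 ∧ U - 16 * d * T ^ 2 = c * V ^ 2 := by
  have f2 : ((U + 9 * d * T ^ 2 : ℤ_[p]) : ℚ_[p]) = b * s ^ 2 := by
    push_cast
    rw [c9, e2]
  have f3 : ((U - 16 * d * T ^ 2 : ℤ_[p]) : ℚ_[p]) = c * v ^ 2 := by
    push_cast
    rw [c16, e3]
  obtain ⟨S, rfl⟩ := lift (int_of hb (s := s) (by rw [← f2]; exact (U + 9 * d * T ^ 2).2))
  obtain ⟨V, rfl⟩ := lift (int_of hc (s := v) (by rw [← f3]; exact (U - 16 * d * T ^ 2).2))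
  refine ⟨S, V, Subtype.ext ?_, Subtype.ext ?_⟩
  · rw [f2]; simp
  · rw [f3]; simp

theorem dvd_of {a b : ℤ} (ha : Squarefree a) (h : (p : ℤ) ∣ a) {m T S : ℤ_[p]}
    (e : (a : ℤ_[p]) + m * (p * T) ^ 2 = b * S ^ 2) : (p : ℤ) ∣ b := by
  have h1 : (p : ℤ_[p]) ∣ b * S ^ 2 := by
    rw [← e]
    exact dvd_add ((dvd_int a).2 h) ⟨m * p * T ^ 2, by ring⟩
  rcases prime_p.dvd_or_dvd h1 with h2 | h2
  · exact (dvd_int b).1 h2
  · obtain ⟨z, rfl⟩ := prime_p.dvd_of_dvd_pow h2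
    exact (nsq (p := p) ha ⟨b * z ^ 2 - m * T ^ 2, by linear_combination e⟩).elim

theorem small (k : ℕ) {d a b : ℤ} (ha : Squarefree a) (hb : Squarefree b) {g a' b' : ℤ}
    (ea : a = g * a') (eb : b = g * b') (hg : ∀ q : ℤ, q ∣ a → q ∣ b → q ∣ g)
    (hc : Squarefree (a' * b')) {t s v : ℚ_[p]} (ht : ‖t‖ < 1)
    (e2 : (a : ℚ_[p]) + 9 * d * t ^ 2 = b * s ^ 2)
    (e3 : (a : ℚ_[p]) - 16 * d * t ^ 2 = (a' * b' : ℤ) * v ^ 2) :
    ∃ u t r s v : ℤ, (t = 1 ∨ u = a ∧ (p : ℤ) ∣ t ∧ ¬ (p : ℤ) ∣ a) ∧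
      u ≡ a * r ^ 2 [ZMOD (p ^ k : ℕ)] ∧ u + 9 * d * t ^ 2 ≡ b * s ^ 2 [ZMOD (p ^ k : ℕ)] ∧
      u - 16 * d * t ^ 2 ≡ a' * b' * v ^ 2 [ZMOD (p ^ k : ℕ)] := by
  obtain ⟨T, rfl⟩ := lift ht.le
  obtain ⟨T, rfl⟩ := (norm_lt_one_iff_dvd T).1 ht
  obtain ⟨S, V, f2, f3⟩ := lifts (U := (a : ℤ_[p])) (T := p * T) (d := d) hb hc (s := s) (v := v)
    (by simpa using e2) (by simpa using e3)
  have hp' := Nat.prime_iff_prime_int.1 hp.out
  have hna : ¬ (p : ℤ) ∣ a := fun h => by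
    have h2 : (p : ℤ) ∣ b := dvd_of ha h f2
    have h3 : (p : ℤ) ∣ a' * b' :=
      dvd_of (m := -(16 * d)) (T := T) (S := V) ha h (by linear_combination f3)
    have h4 := hg _ h h2
    rcases hp'.dvd_or_dvd h3 with h5 | h5
    · exact hp'.not_isUnit (ha p (ea ▸ mul_dvd_mul h4 h5))
    · exact hp'.not_isUnit (hb p (eb ▸ mul_dvd_mul h4 h5))
  obtain ⟨t, ht⟩ := ZMod.intCast_surjective (toZModPow k T)
  obtain ⟨r, s, v, h⟩ := cong k (a := a) (U := (a : ℤ_[p])) (T := p * T) (R := 1) (u := a) (t := p * t)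
    (by simp) (by simp [ht]) (by simp) f2 f3
  exact ⟨a, p * t, r, s, v, Or.inr ⟨rfl, dvd_mul_right _ _, hna⟩, h⟩

end TSLIFT

open TSLIFT PadicInt in
theorem t_SLIFT : SLIFT := by
  intro p hp k d a b ha hb h
  have hg0 : 0 < Int.gcd a b := Int.gcd_pos_of_ne_zero_left _ ha.ne_zero
  obtain ⟨g, hg⟩ : ∃ g : ℤ, g = Int.gcd a b := ⟨_, rfl⟩
  have ea : a = g * (a / g) := (Int.mul_ediv_cancel' (hg ▸ Int.gcd_dvd_left a b)).symm
  have eb : b = g * (b / g) := (Int.mul_ediv_cancel' (hg ▸ Int.gcd_dvd_right a b)).symm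
  have hco : IsCoprime (a / g) (b / g) :=
    Int.isCoprime_iff_gcd_eq_one.2 (hg ▸ Int.gcd_div_gcd_div_gcd hg0)
  have hgd : ∀ q : ℤ, q ∣ a → q ∣ b → q ∣ g := fun q h1 h2 => hg ▸ Int.dvd_coe_gcd h1 h2
  unfold Md
  rw [← hg]
  generalize a / g = a' at *
  generalize b / g = b' at *
  have hc : Squarefree (a' * b') := squarefree_mul_iff.2 ⟨hco.isRelPrime,
    ha.squarefree_of_dvd (ea ▸ dvd_mul_left _ _), hb.squarefree_of_dvd (eb ▸ dvd_mul_left _ _)⟩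
  have ha0 : (a : ℚ_[p]) ≠ 0 := by exact_mod_cast ha.ne_zero
  have hb0 : (b : ℚ_[p]) ≠ 0 := by exact_mod_cast hb.ne_zero
  have ec : (a : ℚ_[p]) * b = (a' * b' : ℤ) * g ^ 2 := by
    rw [ea, eb]; push_cast; ring
  rcases h with ⟨⟨α, h1⟩, β, h2⟩ | ⟨x, w1, w2, w3, e1, e2, e3⟩
  · have hβ : β ≠ 0 := fun h => hb0 (by rw [h2, h, mul_zero])
    refine small k ha hb ea eb hgd hc (t := 0) (s := α / β) (v := g / β) (by simp) ?_ ?_
    · rw [h1, h2]; field_simp; ring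
    · rw [div_pow, ← mul_div_assoc, ← ec, h2]; field_simp; ring
  · by_cases hx : ‖x‖ ≤ 1
    · obtain ⟨U, rfl⟩ := lift hx
      rw [sub_zero] at e1
      obtain ⟨R, rfl⟩ := lift (int_of ha (s := w1) (by rw [← e1]; exact hx))
      obtain ⟨S, V, f2, f3⟩ := lifts (U := U) (T := 1) (d := d) hb hc (s := w2) (v := g * w3)
        (by simpa using e2) (by rw [mul_pow, ← mul_assoc, ← ec, ← e3]; simp)
      obtain ⟨u, hu⟩ := ZMod.intCast_surjective (toZModPow k U)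
      obtain ⟨r, s, v, h⟩ := cong k (a := a) (R := R) (u := u) (t := 1) hu.symm (by simp)
        (Subtype.ext (by simpa using e1)) f2 f3
      exact ⟨u, 1, r, s, v, Or.inl rfl, h⟩
    · rw [sub_zero] at e1
      have h1 : 1 < ‖w1‖ := by
        by_contra h1
        apply hx
        rw [e1, norm_mul, norm_pow]
        exact mul_le_one₀ (Padic.norm_int_le_one a) (by positivity)
          (pow_le_one₀ (norm_nonneg _) (not_lt.1 h1))
      have h0 : w1 ≠ 0 := by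
        rintro rfl
        norm_num at h1
      refine small k ha hb ea eb hgd hc (t := w1⁻¹) (s := w2 / w1) (v := g * w3 / w1)
        (by rw [norm_inv]; exact inv_lt_one_of_one_lt₀ h1) ?_ ?_
      · field_simp
        linear_combination e2 - e1
      · rw [div_pow, mul_pow, ← mul_div_assoc, ← mul_assoc, ← ec]
        field_simp
        linear_combination e3 - e1

end Pool.Agent.P.MP_9c97e9_nt.K2
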