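import Pool.Agent.P.MP_9c97e9_nt.K2.IfS
import Pool.Agent.P.MP_9c97e9_nt.Sha
import Pool.Agent.P.MP_9c97e9_nt.All.G2

/-! The Hasse principle for the 2-coverings kills the 2-torsion of the Tate-Shafarevich group. -/

namespace Pool.Agent.P.MP_9c97e9_nt.K2

open WeierstrassCurve WeierstrassCurve.Affine Classical Topology

theorem t_SSHA : SSHA := by
  intro W e₁ e₂ e₃ h H x hx
  obtain ⟨⟨c, c1, c2, c3, c4⟩, rfl⟩ := QuotientAddGroup.mk_surjective x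
  obtain ⟨Q', hQ'⟩ := (QuotientAddGroup.eq_zero_iff _).1 hx
  have h' := h.map (MP_9c97e9_nt.am ℚ)
  obtain ⟨Q, rfl⟩ := exists_half h' Q'
  let c' : Gal ℚ → Pt W Qb := fun σ => c σ - (pm W σ Q - Q)
  have hc : ∀ σ, c' σ + c' σ = 0 := fun σ => by
    have : pm W σ (Q + Q) - (Q + Q) = c σ + c σ := congrFun hQ' σ
    rw [sub_add_sub_comm, ← this, map_add]
    abel
  have hm : ∀ σ τ, c' (σ * τ) = c' σ + c' τ := fun σ τ => by
    rw [← h.gal (hc τ) σ]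
    simp only [c', c2, pm_mul, map_sub]
    abel
  have hn : {σ | c' σ = 0} ∈ 𝓝 1 := by
    have h1 : c 1 = 0 := by simpa [pm_one] using c2 1 1
    filter_upwards [(c1.isOpen_fiber 0).mem_nhds h1, stab_nhds Q] with σ h2 h3
    simp only [c', h2, h3, sub_self]
  have hk := fun {a b e : ℚ} (hs : Split W a b e) =>
    kummer (χ := fun σ => sg (MP_9c97e9_nt.am ℚ a) (c' σ))
      (fun σ τ => by rw [hm, sg_add (hs.map _) (hc σ) (hc τ)]) (fun σ => sg_sq _ _)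
      (Filter.mem_of_superset hn fun σ (e : c' σ = 0) => show sg _ _ = 1 by rw [e, sg_zero])
  obtain ⟨α, d₁, h1, hα, gα⟩ := hk h
  obtain ⟨β, d₂, h2, hβ, gβ⟩ := hk h.swap
  have hl : ∀ (K : Type) [Field K] [CharZero K], LocTriv W K c → Loc K e₁ e₂ e₃ d₁ d₂ :=
    fun K _ _ ⟨P, hP⟩ => loc_of_triv h hc h1 h2 hα hβ gα gβ K (P - pm W (emb ℚ K) Q)
      fun σ τ hτ => by
        simp only [c', map_sub, hP σ τ hτ, pm_compat hτ]
        abel
  obtain ⟨R, hR⟩ : ∃ R, ∀ σ : Gal ℚ, c' σ = pm W σ R - R :=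
    All.g2_cob h hc h1 h2 hα hβ gα gβ (H d₁ d₂ h1 h2 (hl ℝ c3) fun p _ => hl _ (c4 p))
  refine (QuotientAddGroup.eq_zero_iff _).2 ⟨R + Q, funext fun σ => ?_⟩
  show pm W σ (R + Q) - (R + Q) = c σ
  rw [map_add, add_sub_add_comm, ← hR, sub_add_cancel]

end Pool.Agent.P.MP_9c97e9_nt.K2
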