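import Pool.Agent.P.MP_9c97e9_nt.K2.IfEB

/-! The additive twists are integral and rational over the cyclotomic field. -/

namespace Pool.Agent.P.MP_9c97e9_nt.K2

open scoped NNReal
open MP_8b7eba_nt.R2 KT Finset

theorem t_SSX (hZMX : ZMX) : SSX := by
  intro q M δ hM
  obtain ⟨-, h2, -, h3, -⟩ := hZMX.1 M hM
  refine ⟨w2.v.map_sum_le fun ν _ => ?_, fun g hg => ?_⟩
  · rw [map_mul, (h2 _).2, one_mul]
    exact w2.v_int_le _
  · rw [SSd, map_sum]
    refine sum_congr rfl fun ν _ => ?_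
    rw [map_mul, map_intCast, (h2 _).1, map_zpow₀, (h3 g).1 hg]

end Pool.Agent.P.MP_9c97e9_nt.K2
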