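import Pool.Agent.P.MP_9c97e9_nt.K2.IfS
import Pool.Agent.P.MP_9c97e9_nt.K2.TATM

/-! The Tamagawa numbers of the twists by the divisors of thirty. -/

namespace Pool.Agent.P.MP_9c97e9_nt.K2

open MP_8b7eba_nt.R3 (twa ds)
open MP_8b7eba_nt.R3.MM (dvd_disc)
open All (norm_nat norm_int norm_four)
open TATM (roots mult)
open PadicInt Finset Classical

namespace TSTAM

/-- the local numbers -/
def tc (d : ℤ) (p : ℕ) : ℕ :=
  if p = 2 then (if d % 4 = 1 then 1 else 4) else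
    if p = 3 then (if d % 3 = 1 then 2 else 4) else
      if p = 5 then (if d % 5 = 2 ∨ d % 5 = 3 then 2 else 4) else 1

theorem sqf {d : ℤ} (hd : d ∣ 30) : Squarefree d := by
  refine Squarefree.squarefree_of_dvd hd ?_
  rw [← Int.squarefree_natAbs]
  exact (show Squarefree (2 * (3 * 5)) from
    (Nat.squarefree_mul (by norm_num)).2 ⟨Nat.prime_two.squarefree,
      (Nat.squarefree_mul (by norm_num)).2 ⟨Nat.prime_three.squarefree,
        Nat.prime_five.squarefree⟩⟩)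

theorem jac3 {d : ℤ} (h : ¬ (3 : ℤ) ∣ d) : jacobiSym (-d) 3 = 1 ↔ ¬ d % 3 = 1 := by
  rw [jacobiSym.mod_left]
  have : d % 3 = 1 ∨ d % 3 = 2 := by omega
  rcases this with e | e
  · rw [show -d % ((3 : ℕ) : ℤ) = 2 by push_cast; omega, e]
    norm_num
  · rw [show -d % ((3 : ℕ) : ℤ) = 1 by push_cast; omega, e]
    norm_num

theorem jac5 {d : ℤ} (h : ¬ (5 : ℤ) ∣ d) : jacobiSym d 5 = 1 ↔ ¬ (d % 5 = 2 ∨ d % 5 = 3) := by
  rw [jacobiSym.mod_left]
  have : d % 5 = 1 ∨ d % 5 = 2 ∨ d % 5 = 3 ∨ d % 5 = 4 := by omega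
  rcases this with e | e | e | e <;> rw [show d % ((5 : ℕ) : ℤ) = d % 5 from rfl, e] <;> norm_num

theorem tam (hAT2 : AT2) {d : ℤ} (hd : d ∣ 30) (p : Nat.Primes) :
    tamagawa (twa d) p = tc d p.1 := by
  obtain ⟨p, hp⟩ := p
  have := Fact.mk hp
  have hsq := sqf hd
  have h0 : d ≠ 0 := hsq.ne_zero
  by_cases h2 : p = 2
  · subst h2
    rw [tc, if_pos rfl]
    split_ifs with h4
    · refine index_good fun e => ?_
      rw [dvd_disc hp, ds, if_pos h4] at e
      omega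
    · exact hAT2 _ hsq h4
  obtain ⟨y, s, hs, hy, h⟩ := roots h0 h2
  change (AddSubgroup.closure (goodRed (twa d) p)).index = tc d p
  rw [tc, if_neg h2]
  have h4 := norm_four h2
  have hy' : ‖(y : ℚ_[p])‖ = ‖(d : ℚ_[p])‖ := by
    rw [hy]
    push_cast
    rw [norm_mul, norm_pow, hs, one_pow, mul_one]
  have h4s : ‖((4 * s : ℤ_[p]) : ℚ_[p])‖ = 1 := by
    change ‖(4 : ℚ_[p]) * s‖ = 1
    rw [norm_mul, h4, hs, mul_one]
  have h8 : (p : ℤ) ∣ d → ‖(y : ℚ_[p])‖ = (p : ℝ)⁻¹ := by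
    rintro ⟨m, hm⟩
    rw [hy', hm, Int.cast_mul, norm_mul, Int.cast_natCast, Padic.norm_p, norm_int fun e =>
      (Nat.prime_iff_prime_int.1 hp).not_isUnit (hsq p (hm ▸ mul_dvd_mul_left _ e)), mul_one]
  have h16 : ‖(16 : ℚ_[p])‖ = 1 := by
    rw [show (16 : ℚ_[p]) = 4 * 4 by norm_num, norm_mul, h4, mul_one]
  by_cases h3 : p = 3
  · subst h3
    rw [if_pos rfl]
    by_cases h1 : ((3 : ℕ) : ℤ) ∣ d
    · rw [if_neg (by push_cast at h1; omega)]
      have h7 : ‖(25 : ℚ_[3])‖ = 1 := norm_nat (k := 25) (by norm_num)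
      refine index_additive h2 (e₁ := 16 * y) (e₂ := 0) (e₃ := -9 * y) h.swap'.swap ?_ ?_
      · change ‖(16 * y : ℚ_[3]) - 0‖ = _
        simp [h16, h8 h1]
      · change ‖(16 * y : ℚ_[3]) - -9 * y‖ = _
        rw [show (16 * y : ℚ_[3]) - -9 * y = 25 * y by ring]
        simp [h7, h8 h1]
    · rw [norm_int h1] at hy'
      have h9 : ‖(9 : ℚ_[3])‖ = ((3 : ℕ) : ℝ) ^ (-2 : ℤ) := by
        rw [← Padic.norm_p_zpow]; norm_num
      rw [← ite_not, ← if_congr (jac3 h1) rfl rfl]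
      refine mult h2 (a := 0) (b := -9 * y) (c := 16 * y) h ?_ h4s ?_ (by rwa [dvd_neg])
      · change ‖(0 : ℚ_[3]) - -9 * y‖ = _
        rw [← h9]
        simp [hy']
      · rw [hy]
        push_cast
        ring
  rw [if_neg h3]
  by_cases h5 : p = 5
  · subst h5
    rw [if_pos rfl]
    by_cases h1 : ((5 : ℕ) : ℤ) ∣ d
    · rw [if_neg (by push_cast at h1; omega)]
      have h7 : ‖(9 : ℚ_[5])‖ = 1 := norm_nat (k := 9) (by norm_num)
      refine index_additive h2 (e₁ := 0) (e₂ := -9 * y) (e₃ := 16 * y) h ?_ ?_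
      · change ‖(0 : ℚ_[5]) - -9 * y‖ = _
        simp [h7, h8 h1]
      · change ‖(0 : ℚ_[5]) - 16 * y‖ = _
        simp [h16, h8 h1]
    · rw [norm_int h1] at hy'
      have h9 : ‖(25 : ℚ_[5])‖ = ((5 : ℕ) : ℝ) ^ (-2 : ℤ) := by
        rw [← Padic.norm_p_zpow]; norm_num
      rw [← ite_not, ← if_congr (jac5 h1) rfl rfl]
      refine mult h2 (a := 16 * y) (b := -9 * y) (c := 0) h.swap'.swap.swap' ?_ h4s ?_ h1
      · change ‖(16 * y : ℚ_[5]) - -9 * y‖ = _
        rw [show (16 * y : ℚ_[5]) - -9 * y = 25 * y by ring, norm_mul, hy', h9, mul_one]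
      · rw [hy]
        ring
  rw [if_neg h5]
  have h15 : ¬ p ∣ 15 := fun e => (hp.dvd_mul.1 (show p ∣ 3 * 5 from e)).elim
    (fun e => h3 ((Nat.prime_dvd_prime_iff_eq hp Nat.prime_three).1 e))
    fun e => h5 ((Nat.prime_dvd_prime_iff_eq hp Nat.prime_five).1 e)
  have h2' : ¬ p ∣ 2 := fun e => h2 ((Nat.prime_dvd_prime_iff_eq hp Nat.prime_two).1 e)
  have hpd : ¬ (p : ℤ) ∣ d := fun e =>
    (hp.dvd_mul.1 (show p ∣ 2 * 15 by exact_mod_cast e.trans hd)).elim h2' h15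
  refine index_good fun e => ((dvd_disc hp).1 e).elim h15 fun e => ?_
  unfold ds at e
  split_ifs at e
  · exact hpd e
  · refine ((Nat.prime_iff_prime_int.1 hp).dvd_mul.1 e).elim (fun e => ?_) hpd
    exact h2' (hp.dvd_of_dvd_pow (n := 2) (by exact_mod_cast e))

end TSTAM

theorem t_STAM (hAT2 : AT2) : STAM := by
  intro d hd
  simp only [TSTAM.tam hAT2 hd]
  refine (finprod_eq_prod_of_mulSupport_subset (α := Subtype Nat.Prime)
    (s := ({2, 3, 5} : Finset ℕ).subtype Nat.Prime) _ fun p hp => ?_).trans ?_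
  · refine mem_coe.2 (mem_subtype.2 ?_)
    by_contra e
    simp only [mem_insert, mem_singleton, not_or] at e
    exact hp (by simp only [TSTAM.tc, if_neg e.1, if_neg e.2.1, if_neg e.2.2])
  refine (prod_subtype_of_mem (TSTAM.tc d) fun p hp => ?_).trans ?_
  · simp only [mem_insert, mem_singleton] at hp
    rcases hp with rfl | rfl | rfl <;> norm_num
  · rw [prod_insert (by decide), prod_insert (by decide), prod_singleton, Pz, mul_assoc]
    rfl

end Pool.Agent.P.MP_9c97e9_nt.K2
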