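import Pool.Agent.P.MP_9c97e9_nt.K2.TF2X
import Pool.Agent.P.MP_9c97e9_nt.KT.TBAS

/-! Proofs of BAS and ATO. -/

namespace Pool.Agent.P.MP_9c97e9_nt.K2

open MP_8b7eba_nt.R2 KT
open MP_8b7eba_nt.R1 (st)
open MP_8b7eba_nt.R3 (twa od e2)

namespace TBAS

attribute [local instance 10000] All.g3_dec

theorem tors {d : ℤ} (h1 : Squarefree d) (h2 : d ≠ 1) (h3 : -d ≠ 1) :
    Finite (AddCommGroup.torsion (Pt (twa d) ℚ)) ∧
      ∃ t, Odd t ∧ Nat.card (AddCommGroup.torsion (Pt (twa d) ℚ)) = 4 * t := by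
  obtain ⟨s, hs, h⟩ := MP_8b7eba_nt.R3.MM.split h1.ne_zero
  have n1 := MP_8b7eba_nt.R3.MM.nsq h1 h2
  have n2 := MP_8b7eba_nt.R3.MM.nsq (d := -d) (h1.squarefree_of_dvd (neg_dvd.2 dvd_rfl)) h3
  have no4 : ∀ P : Pt (twa d) ℚ, P + P + (P + P) = 0 → P + P = 0 := fun P hP => by
    rcases two_torsion h hP with e | e | e | e
    · exact e
    · have := UU_sq h.swap e
      generalize UU _ _ _ P = u at this
      exact (n1 ⟨u / (3 * s), by field_simp; linear_combination this⟩).elim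
    · have := UU_sq h e
      generalize UU _ _ _ P = u at this
      exact (n2 ⟨u / (3 * s), by push_cast; field_simp; linear_combination this⟩).elim
    · have := UU_sq h e
      generalize UU _ _ _ P = u at this
      exact (n1 ⟨u / (4 * s), by field_simp; linear_combination this⟩).elim
  have hf := All.g3_fin_tors h no4
  exact ⟨hf, All.g3_card h no4⟩

end TBAS

theorem t_BAS : BAS := by
  intro d sq h30
  obtain ⟨odd, sn, hd, -⟩ := MP_8b7eba_nt.R3.DKC.par sq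
  have he := MP_8b7eba_nt.R3.DKC.e4 sq
  generalize od d = n at odd sn hd
  generalize e2 d = e at hd he
  obtain ⟨p, hp, h15⟩ : ∃ p ∈ n.primeFactors, ¬ p ∣ 15 := by
    by_contra! h
    have h1 : n ∣ 15 := Nat.prod_primeFactors_of_squarefree sn ▸ Finset.prod_primes_dvd 15
      (fun p hp => (Nat.prime_of_mem_primeFactors hp).prime) h
    rw [hd, show (30 : ℤ) = 2 * 15 by norm_num] at h30
    refine h30 (mul_dvd_mul ?_ ?_)
    · rcases he with h | h | h | h <;> simp [h]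
    · rcases st_cases n with h | h <;> simpa [h] using Int.natCast_dvd_natCast.2 h1
  have pn := Nat.dvd_of_mem_primeFactors hp
  obtain ⟨w, rfl⟩ := a_PL.1 p (Nat.prime_of_mem_primeFactors hp)
  have h2 : w.p ≠ 2 := fun e => (Nat.not_even_iff_odd.2 odd) (even_iff_two_dvd.2 (e ▸ pn))
  obtain ⟨dl, hdl⟩ := exists_root (d : Om) two_ne_zero
  obtain ⟨dl0, hdl0⟩ := exists_root ((st n : ℤ) : Om) two_ne_zero
  obtain ⟨t, ht, hβ⟩ := Pl.exists_gen a_TAME a_RES h2
  obtain ⟨m, hm⟩ : (w.p : ℤ) ∣ d := hd ▸ (dvd_st.2 pn).mul_left e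
  have h5 := Pl.gen_move a_TAME a_RES h2 ht hβ (δ := dl) (m := m)
    (by rw [hdl, hm]; push_cast; ring) fun h =>
      (Nat.prime_iff_prime_int.1 w.prime).not_isUnit (sq _ (hm ▸ mul_dvd_mul_left _ h))
  obtain ⟨D, -⟩ := KT.TBAS.dat 7 (by norm_num : Nat.Prime 7).prime.squarefree rfl (by decide)
  obtain ⟨q, h6, h7, h8⟩ := Nat.forall_exists_prime_gt_and_modEq n (q := 180) (a := 151)
    (by norm_num) (by norm_num)
  exact ⟨⟨d, n, e, q, dl, dl0, t, w, D.f2, D.gm, sn, odd, hd, he, hdl, hdl0, pn, h15, ht, h5, D.fr,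
    D.fc, D.gI, D.gc, h7, h8, fun h => (Nat.le_of_dvd odd.pos h).not_gt h6⟩, rfl⟩

theorem t_ATO : ATO := by
  intro D
  have h : ¬ (D.wz.p : ℤ) ∣ 1 := (Nat.prime_iff_prime_int.1 D.wz.prime).not_dvd_one
  have h1 := (D.dvd_d D.wz.prime D.z2).2 D.zp
  have e : instDecidableEqRat = fun a b => Classical.propDecidable (a = b) := Subsingleton.elim _ _
  rw [e]
  exact TBAS.tors D.sq_d (fun e => h (e ▸ h1)) fun e => h (e ▸ dvd_neg.2 h1)

end Pool.Agent.P.MP_9c97e9_nt.K2
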