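import Pool.Agent.P.MP_9c97e9_nt.K2.IfS
import Pool.Agent.P.MP_9c97e9_nt.K2.TBAS

/-! The torsion points of the twists by the divisors of thirty. -/

namespace Pool.Agent.P.MP_9c97e9_nt.K2

open MP_8b7eba_nt.R3 (twa)

namespace TSTOR

theorem abs {G : Type} [AddCommGroup G] [Finite G] (k2 : Nat.card {x : G | x + x = 0} = 4)
    (T : G) (h0 : T + T ≠ 0) (h1 : T + T + (T + T) = 0)
    (h4 : ∀ x : G, x + x + (x + x) = 0 → x + x = 0 ∨ x + x = T + T)
    (h8 : ∀ x : G, x + x + (x + x) ≠ T + T) : ∃ t, Odd t ∧ Nat.card G = 8 * t := by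
  let D : G →+ G := AddMonoidHom.id G + AddMonoidHom.id G
  let E : D.range →+ G := D.comp D.range.subtype
  have c1 : Nat.card D.ker = 4 := k2
  have c2 : Nat.card E.ker = 2 := by
    refine (Nat.card_eq_two_iff' 0).2 ⟨⟨⟨T + T, T, rfl⟩, h1⟩, fun e => h0 ?_, ?_⟩
    · exact congrArg (fun y : E.ker => y.1.1) e
    · rintro ⟨⟨_, x, rfl⟩, hx⟩ hy
      rcases h4 x hx with e | e
      · exact (hy (Subtype.ext (Subtype.ext e))).elim
      · exact Subtype.ext (Subtype.ext e)
  have e1 : Nat.card G = 4 * Nat.card D.range := by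
    rw [← AddSubgroup.index_ker, ← c1, AddSubgroup.card_mul_index]
  have e2 : Nat.card D.range = 2 * Nat.card E.range := by
    rw [← AddSubgroup.index_ker E, ← c2, AddSubgroup.card_mul_index]
  refine ⟨Nat.card E.range, Nat.not_even_iff_odd.1 fun he => ?_, by rw [e1, e2]; ring⟩
  obtain ⟨⟨_, ⟨_, x, rfl⟩, rfl⟩, hx⟩ := exists_prime_addOrderOf_dvd_card' 2 he.two_dvd
  obtain ⟨h5, h6⟩ := addOrderOf_eq_prime_iff.1 hx
  have h7 : x + x + (x + x) + (x + x + (x + x)) = 0 :=
    (two_nsmul _).symm.trans (congrArg Subtype.val h5)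
  rcases h4 (x + x) h7 with e | e
  · exact h6 (Subtype.ext e)
  · exact h8 x e

open Classical in
theorem eight {F : Type} [Field F] {W : WeierstrassCurve ℤ} {e₁ e₂ e₃ a b : F}
    (h : Split W e₁ e₂ e₃) (ha : e₁ - e₂ = a ^ 2) (hb : e₁ - e₃ = b ^ 2)
    (n1 : ¬ IsSquare (a * b)) (n2 : ¬ IsSquare (-(a * b))) (n3 : ¬ IsSquare (-1 : F))
    [Finite (AddCommGroup.torsion (Pt W F))] :
    ∃ t, Odd t ∧ Nat.card (AddCommGroup.torsion (Pt W F)) = 8 * t := by
  have a0 : a ≠ 0 := fun e => h.n12 (by rw [ha, e]; ring)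
  have b0 : b ≠ 0 := fun e => h.n13 (by rw [hb, e]; ring)
  have ab : a + b ≠ 0 := fun e => h.n23 (by linear_combination hb - ha + (b - a) * e)
  obtain ⟨A, hA⟩ := h.exists_is (x := e₁) (η := 0) (by simp)
  obtain ⟨B, hB⟩ := h.exists_is (x := e₂) (η := 0) (by simp)
  obtain ⟨C, hC⟩ := h.exists_is (x := e₃) (η := 0) (by simp)
  obtain ⟨T, hT⟩ := h.exists_is (x := e₁ + a * b) (η := 2 * (a * b * (a + b))) (by
    rw [show e₁ + a * b - e₂ = a ^ 2 + a * b by linear_combination ha,
      show e₁ + a * b - e₃ = b ^ 2 + a * b by linear_combination hb]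
    ring)
  have hT2 : Is (T + T) e₁ 0 := by
    have := hT.add_self h (mul_ne_zero h.two (mul_ne_zero (mul_ne_zero a0 b0) ab))
      (m := 2 * (a + b)) (x₃ := e₁) (by
        rw [show e₁ + a * b - e₂ = a ^ 2 + a * b by linear_combination ha,
          show e₁ + a * b - e₃ = b ^ 2 + a * b by linear_combination hb]
        ring) (by linear_combination 4 * ha + 4 * hb)
    convert this using 1
    ring
  have hT4 : T + T + (T + T) = 0 := hT2.add_eq_zero h (by simpa using hT2)
  have ht : ∀ P : Pt W F, P + P = 0 → P ∈ AddCommGroup.torsion (Pt W F) := fun P hP =>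
    isOfFinAddOrder_iff_nsmul_eq_zero.2 ⟨2, two_pos, (two_nsmul P).trans hP⟩
  have hk : {P : Pt W F | P + P = 0} = {0, A, B, C} := by
    ext P
    refine ⟨fun hP => ?_, ?_⟩
    · rcases two_torsion h (T := P) hP with e | e | e | e
      exacts [.inl e, .inr (.inl (e.unique h hA)), .inr (.inr (.inl (e.unique h hB))),
        .inr (.inr (.inr (e.unique h hC)))]
    · rintro (rfl | rfl | rfl | rfl)
      exacts [add_zero _, hA.add_eq_zero h (by simpa using hA),
        hB.add_eq_zero h (by simpa using hB), hC.add_eq_zero h (by simpa using hC)]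
  have m1 : A ≠ B := fun e => h.n12 (sub_eq_zero.2 (hA.inj (e ▸ hB)).1)
  have m2 : A ≠ C := fun e => h.n13 (sub_eq_zero.2 (hA.inj (e ▸ hC)).1)
  have m3 : B ≠ C := fun e => h.n23 (sub_eq_zero.2 (hB.inj (e ▸ hC)).1)
  have hc : Nat.card {P : Pt W F | P + P = 0} = 4 := by
    rw [Nat.card_coe_set_eq, hk, Set.ncard_insert_of_notMem (by
      simp [hA.ne_zero.symm, hB.ne_zero.symm, hC.ne_zero.symm]),
      Set.ncard_insert_of_notMem (by simp [m1, m2]), Set.ncard_pair m3]
  refine abs (G := AddCommGroup.torsion (Pt W F)) ?_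
    ⟨T, isOfFinAddOrder_iff_nsmul_eq_zero.2 ⟨4, four_pos, by rw [← hT4]; abel⟩⟩
    (fun e => hT2.ne_zero (congrArg Subtype.val e)) (Subtype.ext hT4) (fun x hx => ?_)
    fun x hx => ?_
  · rw [← hc]
    exact Nat.card_congr ⟨fun x => ⟨x.1.1, congrArg Subtype.val x.2⟩,
      fun P => ⟨⟨P.1, ht _ P.2⟩, Subtype.ext P.2⟩, fun _ => rfl, fun _ => rfl⟩
  · rcases two_torsion h (T := x.1 + x.1) (congrArg Subtype.val hx) with e | e | e | e
    · exact .inl (Subtype.ext e)
    · exact .inr (Subtype.ext (e.unique h hT2))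
    · have := UU_sq h e
      generalize UU _ _ _ x.1 = u at this
      exact (n3 ⟨u / a, by field_simp; linear_combination this + ha⟩).elim
    · have := UU_sq h e
      generalize UU _ _ _ x.1 = u at this
      exact (n3 ⟨u / b, by field_simp; linear_combination this + hb⟩).elim
  · have h2 : Is (x.1 + x.1 + (x.1 + x.1)) e₁ 0 :=
      (show x.1 + x.1 + (x.1 + x.1) = T + T from congrArg Subtype.val hx) ▸ hT2
    rcases zero_or_is (x.1 + x.1) with e | ⟨y, η, hy⟩
    · exact h2.ne_zero (by rw [e, add_zero])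
    have h3 := UU_sq h h2
    have h5 := UU_sq h hy
    generalize UU _ _ _ x.1 = u at h5
    rw [hy.UU_eq, sub_self, eq_comm, pow_eq_zero_iff two_ne_zero, div_eq_zero_iff, ha, hb, h5] at h3
    have h6 := h3.resolve_right ((hy.two_ne h).1 h2.ne_zero)
    rcases sq_eq_sq_iff_eq_or_eq_neg.1 (show (u ^ 2) ^ 2 = (a * b) ^ 2 by
      linear_combination h6) with e | e
    · exact n1 ⟨u, by linear_combination -e⟩
    · exact n2 ⟨u, by linear_combination -e⟩

attribute [local instance 10000] All.g3_dec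

theorem nsq {c s : ℚ} (hs : s ≠ 0) (h : ¬ IsSquare c) : ¬ IsSquare (c * s ^ 2) :=
  fun ⟨r, hr⟩ => h ⟨r / s, by field_simp; linear_combination hr⟩

theorem main (d : ℤ) (hd : d ∈ Z0) [Finite (AddCommGroup.torsion (Pt (twa d) ℚ))] :
    ∃ t, Odd t ∧
      Nat.card (AddCommGroup.torsion (Pt (twa d) ℚ)) = (if |d| = 1 then 8 else 4) * t := by
  have neg : ∀ c : ℚ, 0 < c → ¬ IsSquare (-c) := fun c hc ⟨r, hr⟩ => by
    nlinarith [mul_self_nonneg r]
  by_cases h1 : d = 1
  · subst h1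
    obtain ⟨s, hs, h⟩ := MP_8b7eba_nt.R3.MM.split (d := 1) one_ne_zero
    rw [if_pos abs_one]
    refine eight h.swap'.swap (a := 4 * s) (b := 5 * s) (by push_cast; ring) (by push_cast; ring)
      ?_ ?_ (neg 1 one_pos)
    · rw [show 4 * s * (5 * s) = 20 * s ^ 2 by ring]
      exact nsq hs (by norm_num)
    · exact neg _ (by nlinarith [sq_pos_of_ne_zero hs])
  by_cases h2 : d = -1
  · subst h2
    obtain ⟨s, hs, h⟩ := MP_8b7eba_nt.R3.MM.split (d := -1) (by norm_num)
    rw [if_pos (by norm_num)]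
    refine eight h.swap (a := 3 * s) (b := 5 * s) (by push_cast; ring) (by push_cast; ring)
      ?_ ?_ (neg 1 one_pos)
    · rw [show 3 * s * (5 * s) = 15 * s ^ 2 by ring]
      exact nsq hs (by norm_num)
    · exact neg _ (by nlinarith [sq_pos_of_ne_zero hs])
  rw [if_neg fun e => by rcases abs_eq (zero_le_one) |>.1 e with e | e <;> contradiction]
  refine (TBAS.tors ?_ h1 fun e => h2 (by omega)).2
  have : d ∣ 30 := (by decide : ∀ d ∈ Z0, d ∣ 30) d hd
  refine Squarefree.squarefree_of_dvd this ?_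
  rw [← Int.squarefree_natAbs]
  decide +kernel

end TSTOR

theorem t_STOR : STOR := by
  intro d hd
  have e : instDecidableEqRat = fun a b => Classical.propDecidable (a = b) := Subsingleton.elim _ _
  rw [e]
  intro hf
  exact TSTOR.main d hd

end Pool.Agent.P.MP_9c97e9_nt.K2
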