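import Pool.Agent.P.MP_9c97e9_nt.K2.IfS

/-! The twisted sums of modular symbols for the divisors of thirty. -/

namespace Pool.Agent.P.MP_9c97e9_nt.K2

open MP_8b7eba_nt.R3 (kc cd od e2 c2)

namespace TSVAL

/-- the symbol modulo three -/
def j3 (x : ℤ) : ℤ := if x % 3 = 0 then 0 else if x % 3 = 1 then 1 else -1

/-- the symbol modulo five -/
def j5 (x : ℤ) : ℤ := if x % 5 = 0 then 0 else if x % 5 = 1 ∨ x % 5 = 4 then 1 else -1

/-- the symbol modulo a divisor of fifteen -/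
def js (x : ℤ) (m : ℕ) : ℤ :=
  if m = 1 then 1 else if m = 3 then j3 x else if m = 5 then j5 x else j3 x * j5 x

lemma h3 (x : ℤ) : jacobiSym x 3 = j3 x := by
  rw [jacobiSym.mod_left]
  have : x % 3 = 0 ∨ x % 3 = 1 ∨ x % 3 = 2 := by omega
  rcases this with h | h | h <;> simp only [j3, Nat.cast_ofNat, h] <;> norm_num

lemma h5 (x : ℤ) : jacobiSym x 5 = j5 x := by
  rw [jacobiSym.mod_left]
  have : x % 5 = 0 ∨ x % 5 = 1 ∨ x % 5 = 2 ∨ x % 5 = 3 ∨ x % 5 = 4 := by omega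
  rcases this with h | h | h | h | h <;> simp only [j5, Nat.cast_ofNat, h] <;> norm_num

lemma hjs (x : ℤ) (m : ℕ) (h : m = 1 ∨ m = 3 ∨ m = 5 ∨ m = 15) : jacobiSym x m = js x m := by
  rcases h with rfl | rfl | rfl | rfl
  · simp [js]
  · simp [js, h3]
  · simp [js, h5]
  · have : jacobiSym x (3 * 5) = jacobiSym x 3 * jacobiSym x 5 :=
      jacobiSym.mul_right' x (by norm_num) (by norm_num)
    simpa [js, h3, h5] using this

/-- the computable form of the sum -/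
def S1 (d : ℤ) : ℤ :=
  ((List.range (cd d)).map fun ν : ℕ => js ν (od d) * c2 (e2 d) ν * nx d ν (cd d)).sum

lemma S0_eq (d : ℤ) (h : od d = 1 ∨ od d = 3 ∨ od d = 5 ∨ od d = 15) : S0 d = S1 d := by
  unfold S0 S1
  rw [← List.sum_toFinset _ List.nodup_range, List.toFinset_range]
  exact Finset.sum_congr rfl fun ν _ => by rw [kc, hjs _ _ h]

lemma o0 : ∀ d ∈ Z0, od d = 1 ∨ od d = 3 ∨ od d = 5 ∨ od d = 15 := by decide +kernel

lemma o1 : ∀ d ∈ Z1, od d = 1 ∨ od d = 3 ∨ od d = 5 ∨ od d = 15 := by decide +kernel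

lemma v0 : ∀ d ∈ Z0,
    S1 d * (if |d| = 1 then 8 else 4) ^ 2 = (if d < 0 then 4 else 8) * Pz d := by decide +kernel

lemma v1 : ∀ d ∈ Z1, S1 d = 0 := by decide +kernel

end TSVAL

theorem t_SVAL : SVAL :=
  ⟨fun d hd => by rw [TSVAL.S0_eq d (TSVAL.o0 d hd)]; exact TSVAL.v0 d hd,
    fun d hd => by rw [TSVAL.S0_eq d (TSVAL.o1 d hd)]; exact TSVAL.v1 d hd⟩

end Pool.Agent.P.MP_9c97e9_nt.K2
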