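import Pool.Agent.P.MP_9c97e9_nt.K2.IfS

/-! The groups of the twists of rank zero by the divisors of thirty. -/

namespace Pool.Agent.P.MP_9c97e9_nt.K2

open MP_8b7eba_nt
open MP_8b7eba_nt.R3 (twa)

namespace TSZ0

section
open Classical

variable {F : Type} [Field F] {W : WeierstrassCurve ℤ} {a b : F}

theorem pt_loc (h : Split W 0 a b) (P : Pt W F) : Loc F 0 a b (dl 0 a b P) (dl a 0 b P) := by
  rcases zero_or_is P with rfl | ⟨x, η, hP⟩
  · exact .inl ⟨⟨1, by simp [dl_zero]⟩, ⟨1, by simp [dl_zero]⟩⟩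
  have ha : a ≠ 0 := fun e => h.n12 (by simp [e])
  by_cases h0 : x = 0
  · subst h0
    rw [hP.dl_eq, hP.dl_ne h.n12]
    exact .inr ⟨0, 0, 1, 1 / a, by ring, by ring, by field_simp; ring⟩
  by_cases h1 : x = a
  · subst h1
    rw [hP.dl_eq, hP.dl_ne (sub_ne_zero.2 h0)]
    exact .inr ⟨x, 1, 0, 1 / x, by ring, by ring, by field_simp; ring⟩
  have h2 := sub_ne_zero.2 h1
  have h3 := h.two
  have e := hP.eq h
  rw [hP.dl_ne (sub_ne_zero.2 h0), hP.dl_ne h2]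
  refine .inr ⟨x, 1, 1, η / (2 * x * (x - a)), by ring, by ring, ?_⟩
  simp only [sub_zero] at e ⊢
  generalize x - a = u at *
  field_simp
  linear_combination -e

theorem loc_sq {e₁ e₂ e₃ c d : F} (h : Loc F e₁ e₂ e₃ c d) (hc : c ≠ 0) (hd : d ≠ 0) (ha : a ≠ 0)
    (hb : b ≠ 0) (h1 : IsSquare (a * c)) (h2 : IsSquare (b * d)) : Loc F e₁ e₂ e₃ a b := by
  rcases h with ⟨s1, s2⟩ | ⟨x, r, s, t, e1, e2, e3⟩
  · exact .inl ⟨All.g3_sq (mul_comm a c ▸ h1) s1 hc, All.g3_sq (mul_comm b d ▸ h2) s2 hd⟩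
  · obtain ⟨u, hu⟩ := h1
    obtain ⟨v, hv⟩ := h2
    refine .inr ⟨x, u / a * r, v / b * s, u / a * (v / b) * t, ?_, ?_, ?_⟩
    · rw [e1]; field_simp; linear_combination r ^ 2 * hu
    · rw [e2]; field_simp; linear_combination s ^ 2 * hv
    · rw [e3]; field_simp; linear_combination t ^ 2 * (b * d) * hu + t ^ 2 * u * u * hv

theorem loc_scale {s c d : F} (hs : s ≠ 0) (h : Loc F 0 (a * s ^ 2) (b * s ^ 2) c d) :
    Loc F 0 a b c d := by
  refine h.imp_right fun ⟨x, r, u, t, e1, e2, e3⟩ => ⟨x / s ^ 2, r / s, u / s, t / s, ?_, ?_, ?_⟩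
  · field_simp; linear_combination e1
  · field_simp; linear_combination e2
  · field_simp; linear_combination e3

theorem loc_cast {e₁ e₂ e₃ c d : ℚ} (h : Loc ℚ e₁ e₂ e₃ c d) (K : Type) [Field K] [CharZero K] :
    Loc K e₁ e₂ e₃ c d := by
  rcases h with ⟨a, b⟩ | ⟨x, r, s, t, a, b, c⟩
  · exact .inl ⟨by simpa using a.map (Rat.castHom K), by simpa using b.map (Rat.castHom K)⟩
  · exact .inr ⟨x, r, s, t, by simpa using congrArg (Rat.castHom K) a,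
      by simpa using congrArg (Rat.castHom K) b, by simpa using congrArg (Rat.castHom K) c⟩

/-- a point of order dividing four with given classes -/
def Cl (W : WeierstrassCurve ℤ) (a b u v : F) : Prop :=
  ∃ T : Pt W F, T + T + (T + T) = 0 ∧ IsSquare (dl 0 a b T * u) ∧ IsSquare (dl a 0 b T * v)

theorem two0 (h : Split W 0 a b) {T : Pt W F} {x : F} (hT : Is T x 0) : T + T = 0 :=
  hT.add_eq_zero h (by simpa using hT)

theorem cl_four (h : Split W 0 a b) {x η m y u v : F} (h0 : η ≠ 0) (hx : x - 0 ≠ 0)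
    (hx' : x - a ≠ 0) (e : η ^ 2 = 4 * ((x - 0) * (x - a) * (x - b)))
    (hm : m * η = 2 * ((x - 0) * (x - a) + (x - 0) * (x - b) + (x - a) * (x - b)))
    (h3 : 4 * (x + x + y) = m ^ 2 + 4 * (0 + a + b)) (h4 : -(η + m * (y - x)) = 0)
    (hu : IsSquare ((x - 0) * u)) (hv : IsSquare ((x - a) * v)) : Cl W a b u v := by
  obtain ⟨T, hT⟩ := h.exists_is e
  have := hT.add_self h h0 hm h3
  rw [h4] at this
  exact ⟨T, two0 h this, by rwa [hT.dl_ne hx], by rwa [hT.dl_ne hx']⟩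

theorem tors [CharZero F] {d : ℤ} {s : F} (hs : s ≠ 0)
    (h : Split W 0 (-9 * d * s ^ 2) (16 * d * s ^ 2)) {g : ℤ × ℤ} (hg : g ∈ Gs d) :
    Cl W (-9 * d * s ^ 2) (16 * d * s ^ 2) (g.1 : F) g.2 := by
  have c0 : Cl W (-9 * d * s ^ 2) (16 * d * s ^ 2) (1 : F) 1 :=
    ⟨0, by simp, ⟨1, by simp [dl_zero]⟩, ⟨1, by simp [dl_zero]⟩⟩
  have c1 : Cl W (-9 * d * s ^ 2) (16 * d * s ^ 2) (-1 : F) d := by
    obtain ⟨T, hT⟩ := h.exists_is (x := 0) (η := 0) (by simp)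
    refine ⟨T, by simp [two0 h hT], ⟨12 * d * s ^ 2, ?_⟩, ⟨3 * d * s, ?_⟩⟩
    · rw [hT.dl_eq]; ring
    · rw [hT.dl_ne h.n12]; ring
  have c2 : Cl W (-9 * d * s ^ 2) (16 * d * s ^ 2) (-d : F) 1 := by
    obtain ⟨T, hT⟩ := h.exists_is (x := -9 * d * s ^ 2) (η := 0) (by simp)
    refine ⟨T, by simp [two0 h hT], ⟨3 * d * s, ?_⟩, ⟨15 * d * s ^ 2, ?_⟩⟩
    · rw [hT.dl_ne h.swap.n12]; ring
    · rw [hT.dl_eq]; ring
  have c3 : Cl W (-9 * d * s ^ 2) (16 * d * s ^ 2) (d : F) d := by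
    obtain ⟨T, hT⟩ := h.exists_is (x := 16 * d * s ^ 2) (η := 0) (by simp)
    refine ⟨T, by simp [two0 h hT], ⟨4 * d * s, ?_⟩, ⟨5 * d * s, ?_⟩⟩
    · rw [hT.dl_ne h.swap'.swap.n12]; ring
    · rw [hT.dl_ne h.swap'.n23]; ring
  have k : ∀ c : F, c ≠ 0 → ∀ n : ℕ, ∀ z, z = c * s ^ n → z ≠ 0 := fun c hc n z e =>
    e ▸ mul_ne_zero hc (pow_ne_zero _ hs)
  unfold Gs at hg
  split_ifs at hg with h1 h2
  · subst h1
    simp only [List.mem_cons, List.not_mem_nil, or_false] at hg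
    rcases hg with rfl | rfl | rfl | rfl
    · simpa using c0
    · simpa using c1
    · refine cl_four h (x := 36 * s ^ 2) (η := 360 * s ^ 3) (m := 18 * s) (y := 16 * s ^ 2)
        (k 360 (by norm_num) 3 _ rfl) (k 36 (by norm_num) 2 _ (by ring))
        (k 45 (by norm_num) 2 _ ?_) ?_ ?_ ?_ ?_ ⟨6 * s, ?_⟩ ⟨15 * s, ?_⟩ <;> push_cast <;> ring
    · refine cl_four h (x := -4 * s ^ 2) (η := 40 * s ^ 3) (m := -2 * s) (y := 16 * s ^ 2)
        (k 40 (by norm_num) 3 _ rfl) (k (-4) (by norm_num) 2 _ (by ring))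
        (k 5 (by norm_num) 2 _ ?_) ?_ ?_ ?_ ?_ ⟨2 * s, ?_⟩ ⟨5 * s, ?_⟩ <;> push_cast <;> ring
  · subst h2
    simp only [List.mem_cons, List.not_mem_nil, or_false] at hg
    rcases hg with rfl | rfl | rfl | rfl
    · simpa using c0
    · simpa using c1
    · refine cl_four h (x := 24 * s ^ 2) (η := 240 * s ^ 3) (m := 16 * s) (y := 9 * s ^ 2)
        (k 240 (by norm_num) 3 _ rfl) (k 24 (by norm_num) 2 _ (by ring))
        (k 15 (by norm_num) 2 _ ?_) ?_ ?_ ?_ ?_ ⟨12 * s, ?_⟩ ⟨15 * s, ?_⟩ <;> push_cast <;> ring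
    · refine cl_four h (x := -6 * s ^ 2) (η := 60 * s ^ 3) (m := -4 * s) (y := 9 * s ^ 2)
        (k 60 (by norm_num) 3 _ rfl) (k (-6) (by norm_num) 2 _ (by ring))
        (k (-15) (by norm_num) 2 _ ?_) ?_ ?_ ?_ ?_ ⟨6 * s, ?_⟩ ⟨15 * s, ?_⟩ <;> push_cast <;> ring
  · simp only [List.mem_cons, List.not_mem_nil, or_false] at hg
    rcases hg with rfl | rfl | rfl | rfl
    · simpa using c0
    · simpa using c1
    · simpa using c2
    · exact c3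

end

theorem gs_ne {d : ℤ} (h0 : d ≠ 0) {g : ℤ × ℤ} (hg : g ∈ Gs d) : g.1 ≠ 0 ∧ g.2 ≠ 0 := by
  unfold Gs at hg
  split_ifs at hg <;> simp only [List.mem_cons, List.not_mem_nil, or_false] at hg <;>
    rcases hg with rfl | rfl | rfl | rfl <;> simp [h0]

end TSZ0

open TSZ0

theorem t_SZ0 (hSSEL : SSEL) (hSSHA : SSHA) (hSFIN : SFIN) : SZ0 := by
  intro d hd
  have h0 : d ≠ 0 := by
    rintro rfl
    exact absurd hd (by decide)
  obtain ⟨s, s0, h⟩ := R3.MM.split h0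
  have key : ∀ u v : ℚ, u ≠ 0 → v ≠ 0 →
      Loc ℝ ((0 : ℚ) : ℝ) ((-9 * d * s ^ 2 : ℚ) : ℝ) ((16 * d * s ^ 2 : ℚ) : ℝ) u v →
      (∀ (p : ℕ) [Fact p.Prime], Loc ℚ_[p] ((0 : ℚ) : ℚ_[p]) ((-9 * d * s ^ 2 : ℚ) : ℚ_[p])
        ((16 * d * s ^ 2 : ℚ) : ℚ_[p]) u v) →
      Cl (twa d) (-9 * d * s ^ 2) (16 * d * s ^ 2) u v := by
    intro u v hu hv hr hp
    obtain ⟨g, hg, g1, g2⟩ := hSSEL d hd u v hu hv
      (loc_scale (s := (s : ℝ)) (by exact_mod_cast s0) (by simpa using hr))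
      fun p _ => loc_scale (s := (s : ℚ_[p])) (by exact_mod_cast s0) (by simpa using hp p)
    obtain ⟨T, hT, t1, t2⟩ := tors s0 h hg
    obtain ⟨n1, n2⟩ := gs_ne h0 hg
    exact ⟨T, hT, All.g3_sq' t1 g1 (by exact_mod_cast n1), All.g3_sq' t2 g2 (by exact_mod_cast n2)⟩
  refine ⟨hSFIN _ _ _ h fun P => ?_, hSSHA _ _ _ _ h fun u v hu hv hr hp => ?_⟩
  · obtain ⟨T, hT, t1, t2⟩ := key _ _ (dl_ne_zero h P) (dl_ne_zero h.swap P)
      (loc_cast (pt_loc h P) ℝ) fun p _ => loc_cast (pt_loc h P) _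
    refine ⟨T, ?_, by rwa [mul_comm] at t1, by rwa [mul_comm] at t2⟩
    have e : instDecidableEqRat = fun a b => Classical.propDecidable (a = b) :=
      Subsingleton.elim _ _
    rw [e]
    exact hT
  · obtain ⟨T, -, t1, t2⟩ := key u v hu hv hr hp
    exact loc_sq (pt_loc h T) (dl_ne_zero h T) (dl_ne_zero h.swap T) hu hv
      (by rwa [mul_comm] at t1) (by rwa [mul_comm] at t2)

end Pool.Agent.P.MP_9c97e9_nt.K2
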