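import Pool.Agent.P.MP_9c97e9_nt.K2.TCXC1
import Pool.Agent.P.MP_9c97e9_nt.K2.TCXC2
import Pool.Agent.P.MP_9c97e9_nt.K2.TCXCM
import Pool.Agent.P.MP_9c97e9_nt.K2.TCXCP
import Pool.Agent.P.MP_9c97e9_nt.K2.TCXCR
import Pool.Agent.P.MP_9c97e9_nt.K2.TCXES
import Pool.Agent.P.MP_9c97e9_nt.K2.TCXFC
import Pool.Agent.P.MP_9c97e9_nt.K2.TCXFM
import Pool.Agent.P.MP_9c97e9_nt.K2.TCXG0
import Pool.Agent.P.MP_9c97e9_nt.K2.TCXGC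
import Pool.Agent.P.MP_9c97e9_nt.K2.TCXGE
import Pool.Agent.P.MP_9c97e9_nt.K2.TCXGI
import Pool.Agent.P.MP_9c97e9_nt.K2.TCXIP
import Pool.Agent.P.MP_9c97e9_nt.K2.TCXIT
import Pool.Agent.P.MP_9c97e9_nt.K2.TCXMD
import Pool.Agent.P.MP_9c97e9_nt.K2.TCXMS
import Pool.Agent.P.MP_9c97e9_nt.K2.TCXOR
import Pool.Agent.P.MP_9c97e9_nt.K2.TCXRE
import Pool.Agent.P.MP_9c97e9_nt.K2.TCXTR
import Pool.Agent.P.MP_9c97e9_nt.K2.TCXE1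
import Pool.Agent.P.MP_9c97e9_nt.K2.TCXE2
import Pool.Agent.P.MP_9c97e9_nt.K2.TCXBD
import Pool.Agent.P.MP_9c97e9_nt.K2.TCXW
import Pool.Agent.P.MP_9c97e9_nt.K2.TCX
import Pool.Agent.P.MP_9c97e9_nt.K2.TPFX
import Pool.Agent.P.MP_9c97e9_nt.K2.TEEX
import Pool.Agent.P.MP_9c97e9_nt.K2.TSSX
import Pool.Agent.P.MP_9c97e9_nt.K2.TSLIFT
import Pool.Agent.P.MP_9c97e9_nt.K2.TSDEC
import Pool.Agent.P.MP_9c97e9_nt.K2.TSSEL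
import Pool.Agent.P.MP_9c97e9_nt.K2.TSSHA
import Pool.Agent.P.MP_9c97e9_nt.K2.TSFIN
import Pool.Agent.P.MP_9c97e9_nt.K2.TSZ0
import Pool.Agent.P.MP_9c97e9_nt.K2.TSTOR
import Pool.Agent.P.MP_9c97e9_nt.K2.TSTAM
import Pool.Agent.P.MP_9c97e9_nt.K2.TSVAL
import Pool.Agent.P.MP_9c97e9_nt.K2.TSINF
import Pool.Agent.P.MP_9c97e9_nt.K2.AllU
import Pool.Agent.P.MP_9c97e9_nt.K2.AllM
import Pool.Agent.P.MP_9c97e9_nt.K2.Small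

/-! Assembly of the project K2. -/

namespace Pool.Agent.P.MP_9c97e9_nt.K2

theorem z_CXRE : CXRE := t_CXRE KT.t_CXCH

theorem z_CXFM : CXFM := t_CXFM KT.t_CXEP (KT.t_CXEM KT.t_THX)

theorem z_CXW : CXW :=
  t_CXW (t_CXCM t_CXES z_CXRE) (t_CXC1 t_CXES z_CXRE) (t_CXC2 t_CXES z_CXRE) (t_CXCR t_CXOR)
    (t_CXE1 KT.t_CXSD t_CXOR) (t_CXE2 KT.t_CXSD t_CXOR) (t_CXMS t_CXMD t_CXCP) t_CXBD

theorem z_CX : CX :=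
  t_CX (t_CXTR KT.t_EV2) (t_CXGE (KT.t_CXEX KT.t_CXZS KT.t_CXEP KT.t_CXLA))
    (t_CXGI z_CXFM t_CXIP)
    (t_CXGC z_CXFM
      (t_CXFC (KT.t_CXEC (KT.t_CXEM KT.t_THX) (KT.t_CXEL KT.t_CXZS KT.t_CXEP KT.t_CXLL))) t_CXIT)
    (t_CXG0 t_CXIT) (KT.t_CXFI) z_CXW

theorem z_MAIN : MAIN :=
  main_of_ESX (esx_of (erx_of (t_PFX KT.a_ZMX) (t_EEX KT.a_ZMX) (t_SSX KT.a_ZMX) z_CX))

theorem z_ALL {d : ℤ} (hd : Squarefree d) : Body d := by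
  by_cases h : d ∣ 30
  · exact small_of (t_ALV t_APR) (t_SZ0 (t_SSEL t_SLIFT t_SDEC) t_SSHA t_SFIN) t_STOR
      (t_STAM t_AT2) t_SVAL t_SINF hd h
  · exact mainz_of z_MAIN t_BAS (t_ALV t_APR) (t_ATM t_AT2) t_ATO d hd h

end Pool.Agent.P.MP_9c97e9_nt.K2
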