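import Pool.Agent.P.MP_9c97e9_nt.K2.IfL

/-! Basic lemmas for the chapter L of the project K2. -/

namespace Pool.Agent.P.MP_9c97e9_nt.K2

open scoped NNReal Matrix
open MP_8b7eba_nt.R2 KT
open Filter Topology Polynomial

variable {D : Dat} {H H' : Subgroup GQ} {w : Pl} {c : GQ → EO} {P Q : EO} {g h t φ : GQ}

/-! ### The data -/

theorem Dat.dl_fix (D : Dat) : Fix ⊤ (D.dl ^ 2) := D.fix_dl

theorem Dat.tmul (D : Dat) (g h : GQ) (P : EO) :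
    tac D.dl (g * h) P = tac D.dl g (tac D.dl h P) := tac_mul D.dl_fix g h P

theorem Dat.tgal (D : Dat) (g : GQ) (v : V2) : tac D.dl g (T2.pt v) = T2.pt (D.rd g *ᵥ v) :=
  T2.tgal D.dl g v

theorem Dat.tac_fix (D : Dat) (hg : g D.dl = D.dl) (P : EO) : tac D.dl g P = ac g P := by
  rw [tac_apply, sd_eq_one.2 hg, one_smul]

theorem Dat.tac_I (D : Dat) (h2 : w.p ≠ 2) (hw : ¬ w.p ∣ D.n) (hg : g ∈ w.I) (P : EO) :
    tac D.dl g P = ac g P := D.tac_fix (D.I_dl h2 hw hg) P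

theorem Dat.not_two (D : Dat) : ¬ w2.p ∣ D.n := by
  have := D.n2
  change ¬ 2 ∣ D.n
  omega

/-! ### Torsion points -/

theorem Dat.tac_two (D : Dat) (g : GQ) (h : 2 • P = 0) : tac D.dl g P = P := by
  rw [tac_apply, ac_two g h]
  rcases sd_cases D.dl g with e | e <;> rw [e]
  · simp
  · rw [neg_one_zsmul, neg_eq_iff_add_eq_zero, ← two_nsmul, h]

theorem Dat.tac_z (hF : F2X) (D : Dat) (h : Tp P) : tac D.dl D.z P = -P := by
  obtain ⟨v, rfl⟩ := tp_iff.1 h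
  rw [D.tgal, (hF D).2.2.2.1, Matrix.neg_mulVec, Matrix.one_mulVec, map_neg]

/-- good reduction -/
theorem Dat.tac_good (D : Dat) (hw : ¬ w.p ∣ 30 * D.n) (hg : g ∈ w.I) (h : Tp P) :
    tac D.dl g P = P := by
  obtain ⟨v, rfl⟩ := tp_iff.1 h
  rw [D.tgal, (Dat.rd_I hw hg).1, Matrix.one_mulVec]

theorem tac_EG (D : Dat) (hg : g ∈ w.D) (h : P ∈ EG w) : tac D.dl g P ∈ EG w := by
  simpa using (EG w).add_mem (TLOC2.e1_tac a_E1G (δ := D.dl) hg h) h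

/-! ### Points of order two -/

/-- the coboundaries of the points of order four -/
theorem Dat.cb_four (D : Dat) (a b : ℤ) (g : GQ) :
    D.cb (pE (a / 4) + pF (b / 4)) g = s2 (a * qz (-D.d) g) (b * qz D.d g) := by
  have h1 := T2.rd_four a_EC D.hdl D.d_ne g ![a / 4, b / 4]
  have h2 : ‖(![a / 4, b / 4] : V2)‖ ≤ 4 := LC.pi (ε := 4) (a := a / 4) (b := b / 4)
    (by rw [LC.four]; have := Padic.norm_int_le_one (p := 2) a; linarith)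
    (by rw [LC.four]; have := Padic.norm_int_le_one (p := 2) b; linarith) rfl rfl
  have k : ∀ (m : ℤ) (s : ZMod 2),
      ‖(-1) ^ s.val * (m / 4 : ℚ_[2]) - m / 4 - ((m : ZMod 2) * s).val / 2‖ ≤ 1 := fun m s => by
    rcases LA.cases s with rfl | rfl
    · simp
    · rw [mul_one, LC.v1, show (-1) ^ 1 * (m / 4 : ℚ_[2]) - m / 4 - (m : ZMod 2).val / 2 =
        ((-m - (m : ZMod 2).val : ℤ) : ℚ_[2]) / 2 by push_cast; ring, LC.half]
      have : ‖((-m - (m : ZMod 2).val : ℤ) : ℚ_[2])‖ ≤ 2⁻¹ := (LC.int2 _).2 (by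
        have := ZMod.val_intCast (n := 2) m
        omega)
      linarith
  rw [Dat.cb, ← pt_pair, T2.tgal, T2.pt_eq.2 (h1.trans (by linarith)), pt_pair, pt_pair, s2_eq,
    ← pE_congr (x := _ - _) (k a _), ← pF_congr (x := _ - _) (k b _), map_sub, map_sub]
  simp only [Matrix.cons_val_zero, Matrix.cons_val_one]
  abel

/-! ### Coboundaries -/

theorem Dat.cb_sub (D : Dat) (P Q : EO) (g : GQ) : D.cb (P - Q) g = D.cb P g - D.cb Q g := by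
  simp only [Dat.cb, map_sub]; abel

theorem Dat.cb_nsmul (D : Dat) (m : ℕ) (P : EO) (g : GQ) : D.cb (m • P) g = m • D.cb P g := by
  simp only [Dat.cb, map_nsmul, smul_sub]

theorem Dat.cb_zsmul (D : Dat) (m : ℤ) (P : EO) (g : GQ) : D.cb (m • P) g = m • D.cb P g := by
  simp only [Dat.cb, map_zsmul, smul_sub]

theorem Dat.cb_mul (D : Dat) (P : EO) (g h : GQ) :
    D.cb P (g * h) = D.cb P g + tac D.dl g (D.cb P h) := by
  simp only [Dat.cb, D.tmul, map_sub]; abel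

theorem Dat.cb_two (D : Dat) (h : 2 • P = 0) (g : GQ) : D.cb P g = 0 := by
  rw [Dat.cb, D.tac_two g h, sub_self]

theorem Dat.sm_tac (D : Dat) (H : Subgroup GQ) (P : EO) : Sm H fun g => tac D.dl g P :=
  (sm_sd D.dl).comp₂ (sm_ac P) fun s Q => s • Q

theorem Dat.sm_cb (D : Dat) (H : Subgroup GQ) (P : EO) : Sm H (D.cb P) :=
  (D.sm_tac H P).comp fun Q => Q - P

theorem Dat.cb_z (hF : F2X) (D : Dat) (h : Tp P) : D.cb P D.z = -(2 • P) := by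
  rw [Dat.cb, D.tac_z hF h]; abel

theorem Dat.cb_EG (D : Dat) (hw : ¬ w.p ∣ 15) (hn : g D.dl = D.dl) (hg : g ∈ w.I) (P : EO) :
    D.cb P g ∈ EG w := by
  rw [Dat.cb, D.tac_fix hn]
  exact (a_CONG w hw).2 g hg P

theorem Dat.cb_EG2 (D : Dat) (hn : g D.dl = D.dl) (hg : g ∈ w2.I) (P : EO) : D.cb P g ∈ EG w2 :=
  D.cb_EG (show ¬ 2 ∣ 15 by norm_num) hn hg P

/-! ### Cocycles -/

theorem mem_ZH : c ∈ D.ZH H ↔ Sm H c ∧ (∀ g ∈ H, ∀ h ∈ H, c (g * h) = c g + tac D.dl g (c h)) ∧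
    (∀ g, g ∉ H → c g = 0) ∧ ∃ i : ℕ, ∀ g, 2 ^ i • c g = 0 := Iff.rfl

theorem rs_mem (h1 : Sm H c) (h2 : ∀ g ∈ H, ∀ h ∈ H, c (g * h) = c g + tac D.dl g (c h))
    (h3 : ∃ i : ℕ, ∀ g ∈ H, 2 ^ i • c g = 0) : rs H c ∈ D.ZH H := by
  refine ⟨h1.congr fun g hg => rs_of_mem hg c, fun g hg h hh => ?_, fun g hg => rs_of_not hg c,
    h3.imp fun i e g => ?_⟩
  · rw [rs_of_mem hg, rs_of_mem hh, rs_of_mem (mul_mem hg hh), h2 g hg h hh]
  · by_cases hg : g ∈ H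
    · rw [rs_of_mem hg, e g hg]
    · rw [rs_of_not hg, smul_zero]

theorem rs_mem_of_le (hc : c ∈ D.ZH H') (h : H ≤ H') : rs H c ∈ D.ZH H :=
  rs_mem (hc.1.mono h) (fun g hg k hk => hc.2.1 g (h hg) k (h hk))
    (hc.2.2.2.imp fun _ e g _ => e g)

theorem rs_cb_L (h : ∃ i : ℕ, ∀ g ∈ H, 2 ^ i • D.cb P g = 0) : rs H (D.cb P) ∈ D.LH H :=
  ⟨rs_mem (D.sm_cb H P) (fun g _ k _ => D.cb_mul P g k) h, P, fun _ hg => rs_of_mem hg _⟩

theorem rs_cb_B (h : Tp P) : rs H (D.cb P) ∈ D.BH H :=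
  ⟨rs_mem (D.sm_cb H P) (fun g _ k _ => D.cb_mul P g k)
    (h.imp fun i e g _ => by rw [← D.cb_nsmul, e, D.cb_zero]), P, h, fun _ hg => rs_of_mem hg _⟩

theorem BH_le_LH : D.BH H ≤ D.LH H := fun _ ⟨a, P, _, h⟩ => ⟨a, P, h⟩

theorem SH_mem_ZH (h : D.SH H c) : c ∈ D.ZH H := ⟨h.sm, h.co, h.off, h.tor⟩

theorem ZH_ext {c' : GQ → EO} (hc : c ∈ D.ZH H) (hc' : c' ∈ D.ZH H) (e : ∀ g ∈ H, c g = c' g) :
    c = c' := funext fun g => by
  by_cases hg : g ∈ H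
  · exact e g hg
  · rw [hc.2.2.1 g hg, hc'.2.2.1 g hg]

theorem ZH_tp (hc : c ∈ D.ZH H) (g : GQ) : Tp (c g) := hc.2.2.2.imp fun _ e => e g

theorem ZH_one (hc : c ∈ D.ZH H) : c 1 = 0 := by
  simpa [tac_one] using hc.2.1 1 H.one_mem 1 H.one_mem

theorem ZH_inv (hc : c ∈ D.ZH H) (hg : g ∈ H) : tac D.dl g (c g⁻¹) = -c g := by
  have := hc.2.1 g hg g⁻¹ (H.inv_mem hg)
  rw [mul_inv_cancel, ZH_one hc] at this
  exact eq_neg_of_add_eq_zero_right this.symm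

theorem ZH_pow (hc : c ∈ D.ZH H) (hg : g ∈ H) (m : ℕ) :
    c (g ^ m) = ∑ i ∈ Finset.range m, tac D.dl (g ^ i) (c g) := by
  induction m with
  | zero => simpa using ZH_one hc
  | succ m ih => rw [pow_succ, hc.2.1 _ (pow_mem hg m) g hg, ih, Finset.sum_range_succ]

theorem ZH_conj (hc : c ∈ D.ZH H) (hg : g ∈ H) (hh : h ∈ H) :
    c (g * h * g⁻¹) = tac D.dl g (c h) - D.cb (c g) (g * h * g⁻¹) := by
  rw [hc.2.1 _ (mul_mem hg hh) _ (inv_mem hg), hc.2.1 g hg h hh, Dat.cb,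
    show g * h = g * h * g⁻¹ * g by group, D.tmul, ZH_inv hc hg, map_neg]
  simp only [mul_assoc, inv_mul_cancel, mul_one]
  abel

/-- the real condition at one place gives it at all conjugate places -/
theorem ZH_re (hc : c ∈ D.ZH ⊤) (h : c t = D.cb P t) (s : GQ) :
    c (s * t * s⁻¹) = D.cb (tac D.dl s P - c s) (s * t * s⁻¹) := by
  rw [ZH_conj hc trivial trivial, h, D.cb_sub]
  simp only [Dat.cb, map_sub, ← D.tmul, inv_mul_cancel_right]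

/-- the set where a cocycle takes its values in a stable subgroup -/
def ZH_sub (hc : c ∈ D.ZH H) (A : AddSubgroup EO) (hA : ∀ g ∈ H, ∀ P ∈ A, tac D.dl g P ∈ A) :
    Subgroup GQ where
  carrier := {g | g ∈ H ∧ c g ∈ A}
  one_mem' := ⟨H.one_mem, by rw [ZH_one hc]; exact A.zero_mem⟩
  mul_mem' := fun {g h} a b => ⟨H.mul_mem a.1 b.1, by
    rw [hc.2.1 g a.1 h b.1]; exact A.add_mem a.2 (hA g a.1 _ b.2)⟩
  inv_mem' := fun {g} a => ⟨H.inv_mem a.1, by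
    have := ZH_inv hc (H.inv_mem a.1)
    rw [inv_inv] at this
    rw [← neg_mem_iff, ← this]
    exact hA _ (H.inv_mem a.1) _ a.2⟩

theorem ZH_ker (hc : c ∈ D.ZH H) : ∃ N, ON N ∧ ∀ g ∈ H, g ∈ N → c g = 0 := by
  obtain ⟨N, a, b⟩ := hc.1
  exact ⟨N, a, fun g hg hn => by rw [← one_mul g, b 1 H.one_mem g hg hn, ZH_one hc]⟩

/-- values in a stable subgroup -/
theorem ZH_D (hc : c ∈ D.ZH w.D) (A : AddSubgroup EO) (hA : ∀ g ∈ w.D, ∀ P ∈ A, tac D.dl g P ∈ A)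
    (h2 : ∀ g ∈ w.I, c g ∈ A) (hφ : w.IsFrob 1 φ) (h3 : c φ ∈ A) (g : GQ) : c g ∈ A := by
  by_cases hg : g ∈ w.D
  · obtain ⟨N, a, b⟩ := ZH_ker hc
    exact (D_le (U := ZH_sub hc A hA) a (fun g hg hn => ⟨hg, by rw [b g hg hn]; exact A.zero_mem⟩)
      (fun g hg => ⟨hg.1, h2 g hg⟩) hφ ⟨hφ.1, h3⟩ hg).2
  · rw [hc.2.2.1 g hg]; exact A.zero_mem

theorem ZH_D_zero (hc : c ∈ D.ZH w.D) (h2 : ∀ g ∈ w.I, c g = 0) (hφ : w.IsFrob 1 φ)
    (h3 : c φ = 0) : c = 0 :=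
  funext fun g => ZH_D hc ⊥ (fun g _ P hP => by rw [AddSubgroup.mem_bot.1 hP, map_zero]; rfl)
    h2 hφ h3 g

/-- a high power of every automorphism fixes the points of a given order -/
theorem Dat.exists_pow (D : Dat) (g : GQ) (i : ℕ) :
    ∃ k : ℕ, ∀ P : EO, 2 ^ i • P = 0 → tac D.dl (g ^ 2 ^ k) P = P := by
  obtain ⟨k, hk⟩ := (SelA.rd_pow T2 D.dl_fix g (ε := (2 ^ i)⁻¹) (by positivity)).exists
  refine ⟨k, fun P hP => ?_⟩
  obtain ⟨v, rfl⟩ := T2.surj P i hP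
  rw [D.tgal, T2.pt_eq, ← Matrix.one_mulVec v, Matrix.mulVec_mulVec, mul_one, ← Matrix.sub_mulVec]
  refine (LC.mv_le hk v).trans ?_
  rw [inv_mul_le_iff₀ (by positivity), mul_one]
  exact T2.pt_pow.1 hP

/-- an open normal subgroup fixes the points of a given order -/
theorem Dat.exists_ON (D : Dat) (i : ℕ) :
    ∃ N, ON N ∧ ∀ g ∈ N, ∀ P : EO, 2 ^ i • P = 0 → tac D.dl g P = P := by
  obtain ⟨N, a, b⟩ := LC.sm T2 D.dl one_pos (2 ^ i)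
  refine ⟨N, a, fun g hg P hP => ?_⟩
  obtain ⟨v, rfl⟩ := T2.surj P i hP
  rw [D.tgal, T2.pt_eq]
  exact b g hg v (T2.pt_pow.1 hP)

/-- cocycles with values in the points of order two -/
theorem ZH_two (hc : c ∈ D.ZH H) (h : ∀ g ∈ H, 2 • c g = 0) :
    ∃ a b : GQ → ZMod 2, IsCh H a ∧ IsCh H b ∧ ∀ g ∈ H, c g = s2 (a g) (b g) := by
  have : ∀ P : EO, ∃ q : ZMod 2 × ZMod 2, 2 • P = 0 → P = s2 q.1 q.2 := fun P => by
    by_cases e : 2 • P = 0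
    · obtain ⟨a, b, e'⟩ := exists_s2 e
      exact ⟨(a, b), fun _ => e'⟩
    · exact ⟨0, fun e' => absurd e' e⟩
  choose q hq using this
  have k : ∀ g ∈ H, ∀ g' ∈ H, (q (c (g * g'))).1 = (q (c g)).1 + (q (c g')).1 ∧
      (q (c (g * g'))).2 = (q (c g)).2 + (q (c g')).2 := fun g hg g' hg' => s2_inj (by
    rw [s2_add, ← hq _ (h g hg), ← hq _ (h g' hg'), ← hq _ (h _ (mul_mem hg hg')),
      hc.2.1 g hg g' hg', D.tac_two g (h g' hg')])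
  exact ⟨fun g => (q (c g)).1, fun g => (q (c g)).2,
    ⟨hc.1.comp fun P => (q P).1, fun g hg g' hg' => (k g hg g' hg').1⟩,
    ⟨hc.1.comp fun P => (q P).2, fun g hg g' hg' => (k g hg g' hg').2⟩,
    fun g hg => hq _ (h g hg)⟩

theorem rs_s2 {a b : GQ → ZMod 2} (ha : IsCh H a) (hb : IsCh H b) :
    rs H (fun g => s2 (a g) (b g)) ∈ D.ZH H :=
  rs_mem (ha.1.comp₂ hb.1 s2) (fun g hg k hk => by
    rw [ha.2 g hg k hk, hb.2 g hg k hk, s2_add, D.tac_two g (two_s2 _ _)])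
    ⟨1, fun g _ => by simpa using two_s2 _ _⟩

/-! ### The place above two -/

theorem Dat.tac_pE (D : Dat) (hg : g ∈ w2.D) (x : ℚ_[2]) :
    tac D.dl g (pE x) = pE (D.rd g 0 0 * x) := by
  rw [pE_eq, pE_eq, D.tgal]
  congr 1
  ext i
  fin_cases i <;> simp [Matrix.mulVec, dotProduct, Fin.sum_univ_two, D.rd_up hg]

theorem Dat.tac_pF (D : Dat) (g : GQ) (y : ℚ_[2]) :
    tac D.dl g (pF y) = pF (D.rd g 1 1 * y) + pE (D.rd g 0 1 * y) := by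
  rw [add_comm, ← pt_pair, pF_eq, D.tgal]
  congr 1
  ext i
  fin_cases i <;> simp [Matrix.mulVec, dotProduct, Fin.sum_univ_two]

theorem Dat.rd_cq (D : Dat) (hg : g ∈ w2.D) : D.rd g 0 0 * D.rd g 1 1 = cq g := by
  rw [← D.rd_det, Matrix.det_fin_two, D.rd_up hg, mul_zero, sub_zero]

theorem Dat.cb_pair (D : Dat) (hg : g ∈ w2.D) (x y : ℚ_[2]) : D.cb (pE x + pF y) g =
    pE (D.rd g 0 0 * x - x + D.rd g 0 1 * y) + pF ((D.rd g 1 1 - 1) * y) := by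
  rw [Dat.cb, map_add, D.tac_pE hg, D.tac_pF, sub_mul, one_mul, map_sub, map_add, map_sub]
  abel

theorem Dat.nn_norm (D : Dat) : ‖(D.nn : ℚ_[2])‖ = (D.nn : ℝ)⁻¹ ∧ 4⁻¹ ≤ ‖(D.nn : ℚ_[2])‖ ∧
    (D.nn : ℚ_[2]) ≠ 0 := by
  rcases D.nn_cases with ⟨-, b, -⟩ | ⟨-, b, -⟩ <;> rw [b] <;>
    simp only [Nat.cast_ofNat, TLS2.n4, SelA.two] <;> norm_num

/-- the points of the second line whose order divides `nn` are rational -/
theorem Dat.tac_nn (D : Dat) (hg : g ∈ w2.D) {y : ℚ_[2]} (hy : ‖y‖ ≤ D.nn) :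
    tac D.dl g (pF y) = pF y := by
  obtain ⟨h1, h2, h3⟩ := D.nn_norm
  have h4 : (0 : ℝ) < D.nn := by exact_mod_cast Nat.pos_of_ne_zero fun e => h3 (by simp [e])
  have h5 : (D.nn : ℝ) ≤ 4 := by
    rw [h1] at h2
    exact (inv_le_inv₀ (by norm_num) h4).1 h2
  have h6 : ‖D.rd g 1 1 - 1‖ ≤ (D.nn : ℝ)⁻¹ := by
    rw [show D.rd g 1 1 - 1 = D.rd g 1 1 - (1 + D.nn * (qz D.m2 g).val) + D.nn * (qz D.m2 g).val by
      ring]
    refine ua ((D.near_D hg).trans (inv_anti₀ h4 (by linarith))) ?_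
    rw [norm_mul, h1]
    exact mul_le_of_le_one_right (by positivity) (IsUltrametricDist.norm_natCast_le_one _ _)
  rw [D.tac_pF, pE_eq_zero.2, add_zero]
  · refine pF_congr ?_
    rw [← sub_one_mul, norm_mul]
    exact (mul_le_mul h6 hy (norm_nonneg _) (by positivity)).trans (inv_mul_cancel₀ h4.ne').le
  · rw [norm_mul]
    exact (mul_le_mul (D.rd_off g).1 (hy.trans h5) (norm_nonneg _) (by norm_num)).trans
      (by norm_num)

theorem CS_mono (h : H ≤ H') : D.CS H' ≤ D.CS H := fun _ ⟨P, a, b⟩ => ⟨P, a, fun g hg => b g (h hg)⟩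

theorem CS_congr {c' : GQ → EO} (hc : c ∈ D.CS H) (e : ∀ g ∈ H, c' g - c g ∈ EG w2) :
    c' ∈ D.CS H := hc.imp fun P a => ⟨a.1, fun g hg => by
  simpa using add_mem (e g hg) (a.2 g hg)⟩

theorem ZS_mono (h : H ≤ H') : D.ZS H' ≤ D.ZS H := fun _ a => ⟨a.1, CS_mono h a.2⟩

theorem BH_le_ZS (h : H ≤ w2.D) : D.BH w2.D ≤ D.ZS H := fun _ ⟨a, P, b, e⟩ =>
  ⟨a, P, b, fun g hg => by rw [e g (h hg), sub_self]; exact zero_mem _⟩

theorem ZE_le_ZS : D.ZE ≤ D.ZS H := fun _ a =>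
  ⟨a.1, 0, tp_zero, fun g _ => by simpa [D.cb_zero] using a.2 g⟩

theorem ZS_split (hc : c ∈ D.ZS w2.D) : ∃ c' ∈ D.ZE, c - c' ∈ D.BH w2.D := by
  obtain ⟨a, P, b, e⟩ := hc
  have h := rs_cb_B (D := D) (H := w2.D) b
  refine ⟨_, ⟨sub_mem a h.1, fun g => ?_⟩, by rwa [sub_sub_cancel]⟩
  by_cases hg : g ∈ w2.D
  · rw [Pi.sub_apply, rs_of_mem hg]; exact e g hg
  · rw [(sub_mem a h.1).2.2.1 g hg]; exact zero_mem _

theorem ZH_ZQ (hc : c ∈ D.ZH w2.D) : D.ZQ c :=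
  ⟨hc.1, ZH_tp hc, fun g hg h hh => by rw [hc.2.1 g hg h hh]; simp⟩

theorem LO2.cyc (h : LO2) (D : Dat) : Cyc (D.ZS w2.D) (D.ZS (w2.D ⊓ KI)) D.nn := by
  obtain ⟨y, a, b, e⟩ := h D
  exact ⟨ZS_mono inf_le_left, y, a, fun x hx => (b x (ZH_ZQ hx.1) hx.2).imp fun m k =>
    ⟨sub_mem hx.1 (zsmul_mem a.1 m), k⟩, fun m => (and_iff_right (zsmul_mem a.1 m)).trans (e m)⟩

theorem SH_ZS (h : D.SH ⊤ c) : rs w2.D c ∈ D.ZS (w2.D ⊓ KI) :=
  ⟨rs_mem_of_le (SH_mem_ZH h) le_top, CS_congr h.ord fun g hg => by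
    rw [rs_of_mem hg.1, sub_self]; exact zero_mem _⟩

/-- the half of a coboundary -/
theorem LH_half (hc : c ∈ D.LH H) : ∃ P, rs H (D.cb P) ∈ D.LH H ∧ c = 2 • rs H (D.cb P) := by
  obtain ⟨h, P, hP⟩ := hc
  obtain ⟨Q, rfl⟩ := exists_two P
  obtain ⟨i, hi⟩ := h.2.2.2
  have m : rs H (D.cb Q) ∈ D.LH H := rs_cb_L ⟨i + 1, fun g hg => by
    rw [pow_succ, mul_smul, ← D.cb_nsmul 2, ← hP g hg, hi]⟩
  exact ⟨Q, m, ZH_ext h (nsmul_mem m.1 2) fun g hg => by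
    rw [Pi.smul_apply, rs_of_mem hg, hP g hg, D.cb_nsmul]⟩

theorem Dat.qz_tau (D : Dat) : (D.d < 0 → qz D.d tau = 1 ∧ qz (-D.d) tau = 0) ∧
    (¬ D.d < 0 → qz D.d tau = 0 ∧ qz (-D.d) tau = 1) := by
  have h0 := D.d_ne
  have h1 := MP_8b7eba_nt.R2.qz_tau a_TAU h0
  have h2 := MP_8b7eba_nt.R2.qz_tau a_TAU (neg_ne_zero.2 h0)
  exact ⟨fun h => ⟨(LA.cases _).resolve_left fun e => by have := h1.1 e; omega, h2.2 (by omega)⟩,
    fun h => ⟨h1.2 (by omega), (LA.cases _).resolve_left fun e => by have := h2.1 e; omega⟩⟩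

theorem Dat.om_eq (D : Dat) : ((30 * D.n).primeFactors.erase D.wz.p).card = D.om := by
  have h := D.n_ne
  rw [Finset.card_erase_of_mem (D.wz.prime.mem_primeFactors (D.zp.mul_left _) (by omega)),
    show 30 * D.n = 2 * (15 * D.n) by ring, Nat.primeFactors_mul two_ne_zero (by omega),
    Nat.prime_two.primeFactors, Finset.singleton_union, Finset.card_insert_of_notMem fun e => by
      have := Nat.dvd_of_mem_primeFactors e
      have := D.n2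
      omega]
  rfl

/-! ### The isogeny -/

theorem Dat.ph_p0 (D : Dat) (v : V2) : D.ph (p0 v) = 2 • T2.pt (D.Pv *ᵥ v) := by
  rw [← map_nsmul]
  change T2.pt (!![1, D.eps; 0, 2] *ᵥ v) = _
  congr 1
  ext i
  fin_cases i <;> simp [Dat.Pv, Matrix.mulVec, dotProduct, Fin.sum_univ_two]
  ring

theorem Dat.ph_Pm (D : Dat) (v : V2) : D.ph (p0 (D.Pm *ᵥ v)) = 2 • T2.pt v := by
  rw [D.ph_p0, Matrix.mulVec_mulVec, D.Pv_Pm, Matrix.one_mulVec]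

theorem Dat.ph_a0 (D : Dat) (g : GQ) (P : A0) : D.ph (D.a0 g P) = tac D.dl g (D.ph P) := by
  obtain ⟨v, rfl⟩ := p0_surj P
  rw [D.a0_p0, D.ph_p0, D.ph_p0, map_nsmul, D.tgal, Matrix.mulVec_mulVec, D.Pv_rp,
    Matrix.mulVec_mulVec]

theorem Dat.pt_Pv (D : Dat) (v : V2) :
    T2.pt (D.Pv *ᵥ v) = pE ((v 0 + D.eps * v 1) / 2) + pF (v 1) := by
  rw [← pt_pair]
  congr 1
  ext i
  fin_cases i <;> simp [Dat.Pv, Matrix.mulVec, dotProduct, Fin.sum_univ_two]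
  ring

theorem Dat.Pm_apply (D : Dat) (v : V2) : D.Pm *ᵥ v = ![2 * v 0 - D.eps * v 1, v 1] := by
  ext i
  fin_cases i <;> simp [Dat.Pm, Matrix.mulVec, dotProduct, Fin.sum_univ_two]
  ring

theorem Dat.Hf.mono {S : EO} {b : GQ → EO} (h : D.Hf H' S c b) (e : H ≤ H') : D.Hf H S c b :=
  ⟨h.sm.mono e, fun g hg => h.two g (e hg), fun g hg k hk => h.co g (e hg) k (e hk)⟩

theorem Dat.Hf.congr {S : EO} {b c' : GQ → EO} (h : D.Hf H S c b) (e : ∀ g ∈ H, c g = c' g) :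
    D.Hf H S c' b := ⟨h.sm, fun g hg => (h.two g hg).trans (e g hg), h.co⟩

end Pool.Agent.P.MP_9c97e9_nt.K2
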