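import Pool.Agent.P.MP_9c97e9_nt.K2.TF2X
import Pool.Agent.P.MP_9c97e9_nt.KT.TLS2

/-! The character of the decomposition group at two on the quotient line. -/

namespace Pool.Agent.P.MP_9c97e9_nt.K2

open scoped Matrix
open MP_8b7eba_nt.R2 KT
open MP_8b7eba_nt.R1 (st)

/-- the leading term of the character on the decomposition group -/
def Dat.m2 (D : Dat) : ℤ := if D.d % 8 = 1 then 5 else D.d

/-- the leading term of the character at the top of the tower -/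
def Dat.mi (D : Dat) : ℤ := if 0 < D.e then 5 else D.d

/-- the order of the invariants at the top of the tower -/
def Dat.ni (D : Dat) : ℕ := if 0 < D.e ∧ st D.n % 8 = 1 then 4 else 2

variable {D : Dat} {g : GQ}

theorem qz5_frob {φ : GQ} (hφ : w2.IsFrob 1 φ) : qz 5 φ = 1 := by
  refine (LA.cases _).resolve_left fun h => ?_
  have h1 := ch_unr a_FROB (isCh_qz 5) (fun g hg => qz_I_two rfl (by norm_num) hg) hφ h
  have := ((a_SQ2 w2).2.2.2.2.1 rfl 5 (by decide)).1.1 ((qz_D_iff (by norm_num)).1 h1)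
  omega

/-- an unramified character is a multiple of `qz 5` -/
theorem ch_unr5 (D : Dat) {χ : GQ → ZMod 2} (h : IsCh w2.D χ) (hI : ∀ g ∈ w2.I, χ g = 0)
    (hg : g ∈ w2.D) : χ g = χ D.f2 * qz 5 g := by
  have h1 := ch_unr a_FROB (χ := fun g => χ g + χ D.f2 * qz 5 g)
    ⟨h.1.comp₂ (isCh_qz 5).1 fun a b => a + χ D.f2 * b, fun g hg k hk => by
      simp only [h.2 g hg k hk, (isCh_qz (H := w2.D) 5).2 g hg k hk]; ring⟩
    (fun g hg => by rw [qz_I_two rfl (by norm_num) hg, hI g hg, mul_zero, add_zero])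
    D.fr (by rw [qz5_frob D.fr, mul_one, LC.two]) g hg
  have k : ∀ x y : ZMod 2, x + y = 0 → x = y := by decide
  exact k _ _ h1

theorem qz_D_five {m : ℤ} (h : m % 8 = 5) (hg : g ∈ w2.D) : qz m g = qz 5 g := by
  have h1 := qz_D_two a_CA (m := m * 5) rfl (by omega) hg
  rw [qz_mul (by omega) (by norm_num), Pi.add_apply] at h1
  have k : ∀ x y : ZMod 2, x + y = 0 → x = y := by decide
  exact k _ _ h1

theorem rho_mul11 {h : GQ} (hg : g ∈ w2.D) :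
    T2.rho (g * h) 1 1 = T2.rho g 1 1 * T2.rho h 1 1 := by
  simp [map_mul, Matrix.mul_apply, T2.up g hg]

theorem Dat.rd_mul11 (D : Dat) {h : GQ} (hg : g ∈ w2.D) :
    D.rd (g * h) 1 1 = D.rd g 1 1 * D.rd h 1 1 := by
  simp [D.rd_mul, Matrix.mul_apply, D.rd_up hg]

/-- the unramified character modulo eight -/
theorem rho_near (D : Dat) (hg : g ∈ w2.D) :
    ‖T2.rho g 1 1 - (1 + 4 * (qz 5 g).val)‖ ≤ 8⁻¹ := by
  obtain ⟨r, r1, r2, -⟩ := exists_red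
  have hn := TLS2.n4
  obtain ⟨u, hu⟩ : ∃ u : GQ → ℚ_[2], ∀ g, u g = (T2.rho g 1 1 - 1) / 4 := ⟨_, fun _ => rfl⟩
  have un : ∀ g, ‖u g‖ = ‖T2.rho g 1 1 - 1‖ * 4 := fun g => by
    rw [hu, norm_div, hn, div_inv_eq_mul]
  have ul : ∀ g, ‖u g‖ ≤ 1 := fun g => by
    rw [un]
    linarith [(TF2X.four T2 g).2.2]
  have ua : ∀ g ∈ w2.D, ∀ h ∈ w2.D, r (u (g * h)) = r (u g) + r (u h) := fun g hg h _ => by
    refine r2 _ _ (LC.near ?_ (LC.r_add (r1 _ (ul g)) (r1 _ (ul h))))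
    rw [show u (g * h) - (u g + u h) = 4 * (u g * u h) by
      simp only [hu, rho_mul11 hg]; ring]
    exact LC.mul_r (hn.trans_le (by norm_num)) (LC.mul_l (ul g) (ul h))
  have us : Sm w2.D fun g => r (u g) := by
    obtain ⟨N, hN, e⟩ := T2.sm 8⁻¹ (by norm_num)
    refine ⟨N, hN, fun g hg n hn m => ?_⟩
    have h8 : ‖T2.rho n 1 1 - 1‖ ≤ 8⁻¹ := by simpa using e n m 1 1
    have : r (u n) = 0 := r2 _ _ (by
      rw [ZMod.val_zero, Nat.cast_zero, sub_zero, un]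
      linarith)
    simp only [ua g hg n hn, this, add_zero]
  have uf : r (u D.f2) = 1 := by
    refine (LA.cases _).resolve_left fun h => ?_
    have h1 := r1 _ (ul D.f2)
    have h2 : T2.rho D.f2 0 0 * T2.rho D.f2 1 1 = 1 := by
      have := T2.det D.f2
      rw [Matrix.det_fin_two, T2.up D.f2 D.fr.1, cq, D.fc] at this
      simpa using this
    rw [h, ZMod.val_zero, Nat.cast_zero, sub_zero, un, TF2X.unit_root rfl T2 D.fr h2] at h1
    norm_num at h1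
  have h1 := ch_unr5 D (χ := fun g => r (u g)) ⟨us, ua⟩
    (fun g hg => r2 _ _ (by simp [hu, T2.un g hg])) hg
  have h3 := r1 _ (ul g)
  beta_reduce at h1
  rw [h1, uf, one_mul] at h3
  rw [show T2.rho g 1 1 - (1 + 4 * (qz 5 g).val) = 4 * (u g - (qz 5 g).val) by rw [hu]; ring]
  exact (LC.mul hn.le h3).trans (by norm_num)

theorem Dat.rd_near2 (D : Dat) (g : GQ) : ‖D.rd g 1 1 - (1 + 2 * (qz D.d g).val)‖ ≤ 4⁻¹ := by
  have h4 := (TF2X.four T2 g).2.2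
  rcases LA.cases (qz D.d g) with h | h
  · simpa [D.rd_eq, sd_eq_qz D.hdl, h] using h4
  · rw [show D.rd g 1 1 - (1 + 2 * (qz D.d g).val) = -(T2.rho g 1 1 - 1) + -4 by
      simp [D.rd_eq, sd_eq_qz D.hdl, h, ZMod.val_one]; ring]
    exact ua (by rwa [norm_neg]) (by rw [norm_neg, TLS2.n4])

theorem Dat.nn_cases (D : Dat) :
    (D.d % 8 = 1 ∧ D.nn = 4 ∧ D.m2 = 5) ∨ (D.d % 8 ≠ 1 ∧ D.nn = 2 ∧ D.m2 = D.d) := by
  unfold Dat.nn Dat.m2
  split_ifs with h <;> simp [h]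

/-- the character on the decomposition group -/
theorem Dat.near_D (D : Dat) (hg : g ∈ w2.D) :
    ‖D.rd g 1 1 - (1 + D.nn * (qz D.m2 g).val)‖ ≤ (2 * D.nn : ℝ)⁻¹ := by
  rcases D.nn_cases with ⟨a, b, c⟩ | ⟨a, b, c⟩ <;> rw [b, c]
  · rw [Dat.rd_fix ((qz_eq_zero D.hdl).1 (qz_D_two a_CA rfl a hg))]
    exact (rho_near D hg).trans (by norm_num)
  · exact (D.rd_near2 g).trans (by norm_num)

theorem Dat.exists_m2 (D : Dat) : ∃ g ∈ w2.D, qz D.m2 g = 1 := by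
  rcases D.nn_cases with ⟨a, -, c⟩ | ⟨a, -, c⟩ <;> rw [c]
  · exact ⟨_, D.fr.1, qz5_frob D.fr⟩
  by_cases h : D.d % 4 = 1
  · exact ⟨_, D.fr.1, (qz_D_five (by omega) D.fr.1).trans (qz5_frob D.fr)⟩
  · obtain ⟨g, h1, h2⟩ : ∃ g ∈ w2.I, qz D.d g ≠ 0 := by
      by_contra! k
      exact h ((qz_I_two_iff a_CA rfl D.sq_d).1 k)
    exact ⟨g, w2.I_le_D h1, (LA.cases _).resolve_left h2⟩

theorem qz_two_KP (hg : g ∈ KP 1) : qz 2 g = 0 := by
  have h3 := (a_LG.1.dvd 1 _).1 (BK.mem_KP.1 hg)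
  refine (qz_two a_EC).2 ?_
  norm_num at h3
  exact h3

theorem Dat.qz_KP (D : Dat) (he : 0 < D.e) (hg : g ∈ KP 1) : qz D.d g = qz (st D.n) g := by
  rw [D.qz_d]
  rcases D.he with e | e | e | e <;> rw [e] at he ⊢
  · simp [qz_one]
  · omega
  · rw [qz_two_KP hg, zero_add]
  · omega

theorem Dat.ni_cases (D : Dat) : D.ni = 4 ∨ D.ni = 2 := by unfold Dat.ni; split_ifs <;> simp

/-- the character in the tower -/
theorem Dat.near_K (D : Dat) (hg : g ∈ w2.D ⊓ KP 1) :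
    ‖D.rd g 1 1 - (1 + D.ni * (qz D.mi g).val)‖ ≤ (2 * D.ni : ℝ)⁻¹ := by
  have s4 := st_four D.odd
  unfold Dat.ni Dat.mi
  by_cases he : 0 < D.e
  · rw [if_pos he]
    split_ifs with h
    · rw [Dat.rd_fix ((qz_eq_zero D.hdl).1 ((D.qz_KP he hg.2).trans (qz_D_two a_CA rfl h.2 hg.1)))]
      exact (rho_near D hg.1).trans (by norm_num)
    · rw [← qz_D_five (m := st D.n) (by omega) hg.1, ← D.qz_KP he hg.2]
      exact (D.rd_near2 g).trans (by norm_num)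
  · rw [if_neg he, if_neg fun h => he h.1]
    exact (D.rd_near2 g).trans (by norm_num)

theorem Dat.exists_mi (D : Dat) : ∃ g ∈ w2.D ⊓ KI, qz D.mi g = 1 := by
  unfold Dat.mi
  split_ifs with he
  · exact ⟨_, ⟨D.fr.1, BK.mem_KI.2 (BK.la_of_cyc D.fc)⟩, qz5_frob D.fr⟩
  obtain ⟨g, h1, h2⟩ := a_EC2 w2 rfl (-1)
  have h3 : g ∈ KI := BK.mem_KI.2 (by rw [la, h2, TABHN.lg_neg_one a_LG.1])
  have h4 : qz (-1) g = 1 := (LA.cases _).resolve_left fun e => by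
    have h5 := (qz_neg_one a_EC).1 e
    rw [h2, show ((-1 : ℤ_[2]ˣ) : ℤ_[2]) - 1 = ((-2 : ℤ) : ℤ_[2]) by push_cast; ring, ← LA.c4] at h5
    have := (PadicInt.pow_p_dvd_int_iff (p := 2) 2 (-2)).1 h5
    norm_num at this
  refine ⟨g, ⟨w2.I_le_D h1, h3⟩, ?_⟩
  rw [D.qz_d, qz_I_two rfl (st_four D.odd) h1, add_zero]
  rcases D.he with e | e | e | e <;> rw [e] at he ⊢
  · omega
  · exact h4
  · omega
  · rw [show (-2 : ℤ) = -1 * 2 by norm_num, qz_mul (by norm_num) (by norm_num), Pi.add_apply, h4,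
      qz_two_KP (BK.KI_le 1 h3), add_zero]

end Pool.Agent.P.MP_9c97e9_nt.K2
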