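import Pool.Agent.P.MP_9c97e9_nt.K2.Defs
import Pool.Agent.P.MP_9c97e9_nt.KT.Conv

/-! The converse theorem for the short Weierstrass model. -/

namespace Pool.Agent.P.MP_9c97e9_nt.K2

open MP_8b7eba_nt
open MP_8b7eba_nt.R3 (twa)
open KT.Conv (sha_inj fin_prim uniq)

namespace Conv

theorem split {d : ℤ} (h0 : d ≠ 0) : ∃ u : ℕ, u ≠ 0 ∧ ∀ (F : Type) [Field F] [CharZero F],
    Split (twa d) (0 : F) (-81 * d / u ^ 2) (144 * d / u ^ 2) := by
  by_cases h4 : d % 4 = 1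
  · refine ⟨6, by norm_num, fun F _ _ => ?_⟩
    rw [R3.MM.eq1 h4]
    convert R2.TMIS.split_twd h4 F using 1 <;> push_cast <;> ring
  · refine ⟨3, by norm_num, fun F _ _ => ?_⟩
    have h : (d : F) ≠ 0 := by exact_mod_cast h0
    rw [R3.MM.eq2 h4]
    refine ⟨two_ne_zero, fun e => h (by push_cast at e; linear_combination e / 9),
      fun e => h (by push_cast at e; linear_combination -e / 16),
      fun e => h (by push_cast at e; linear_combination -e / 25), ?_, ?_, ?_⟩ <;>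
      simp only [R3.MM.twb] <;> push_cast <;> ring

theorem split' {d : ℤ} (h0 : d ≠ 0) {u : ℕ} (hu : u ≠ 0) (F : Type) [Field F] [CharZero F] :
    Split ⟨0, 0, 0, -12987 * d ^ 2, -263466 * d ^ 3⟩ ((u : F) ^ 2 * 0 + -21 * d)
      ((u : F) ^ 2 * (-81 * d / u ^ 2) + -21 * d) ((u : F) ^ 2 * (144 * d / u ^ 2) + -21 * d) := by
  have h : (d : F) ≠ 0 := by exact_mod_cast h0
  have k : (u : F) ^ 2 ≠ 0 := pow_ne_zero _ (by exact_mod_cast hu)
  rw [mul_div_cancel₀ _ k, mul_div_cancel₀ _ k]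
  exact ⟨two_ne_zero, fun e => h (by linear_combination e / 81),
    fun e => h (by linear_combination -e / 144), fun e => h (by linear_combination -e / 225),
    by push_cast; ring, by push_cast; ring, by push_cast; ring⟩

open Classical in
theorem tw_sha {d : ℤ} (h0 : d ≠ 0) :
    ∃ φ : Sha (twa d) →+ Sha ⟨0, 0, 0, -12987 * d ^ 2, -263466 * d ^ 3⟩,
      Function.Injective φ := by
  obtain ⟨u, hu, hs⟩ := split h0
  choose ι hb hι using fun (F : Type) [Field F] [CharZero F] =>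
    R2.TSHA.exists_iso (hs F) (split' h0 hu F) (by exact_mod_cast hu)
  refine sha_inj ι (hb Qb) fun {F K} _ _ _ _ f P => ?_
  rcases zero_or_is P with rfl | ⟨x, η, hP⟩
  · simp
  refine ((hι F _ _ _ hP).map f).unique (split' h0 hu K) ?_
  simpa [map_ofNat] using hι K _ _ _ (hP.map f)

open Classical in
theorem fin_pt {d : ℤ} (h0 : d ≠ 0) (h : {q : ℚ × ℚ | q.2 ^ 2 = q.1 ^ 3 +
      ((-12987 * d ^ 2 : ℤ) : ℚ) * q.1 + ((-263466 * d ^ 3 : ℤ) : ℚ)}.Finite) :
    Finite (Pt (twa d) ℚ) := by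
  obtain ⟨s, s0, hs⟩ := R3.MM.split h0
  refine Set.finite_univ_iff.1 (((h.biUnion (t := fun q => {P | Is P ((q.1 + 21 * d) / 9 * s ^ 2)
    (2 * q.2 / 27 * s ^ 3)}) fun q _ => Set.Subsingleton.finite fun P a Q b =>
      Is.unique hs a b).insert 0).subset fun P _ => ?_)
  rcases zero_or_is P with e | ⟨x, η, e⟩
  · exact .inl e
  · refine .inr (Set.mem_biUnion (x := (9 * x / s ^ 2 - 21 * d, 27 * η / (2 * s ^ 3))) ?_ ?_)
    · have := Is.eq hs e
      simp only [Set.mem_ofPred_eq]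
      push_cast
      field_simp
      linear_combination 729 * this
    · simp only [Set.mem_ofPred_eq]
      convert e using 1 <;> field_simp <;> ring

end Conv

open Conv Classical in
theorem conv_of (H : MAIN) {d : ℤ} (hd : Squarefree d) (h30 : ¬ d ∣ 30)
    (hs : Finite (AddCommGroup.primaryComponent
      (Sha ⟨0, 0, 0, -12987 * d ^ 2, -263466 * d ^ 3⟩) 2))
    (h : {q : ℚ × ℚ | q.2 ^ 2 = q.1 ^ 3 +
      ((-12987 * d ^ 2 : ℤ) : ℚ) * q.1 + ((-263466 * d ^ 3 : ℤ) : ℚ)}.Finite)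
    {f : ℂ → ℂ} (hf : BSD15.IsL (-12987 * d ^ 2) (-263466 * d ^ 3) f) : f 1 ≠ 0 := by
  obtain ⟨-, -, L', hL, r, -, e1, e2, -⟩ := H d hd h30
  obtain ⟨φ, hφ⟩ := tw_sha hd.ne_zero
  obtain ⟨L, g, a1, a2, a3⟩ := R3.twa_L hd
  obtain rfl := uniq hL a1
  rw [Mod.isL_unique hf a2]
  exact fun e => e2.2 ⟨fin_pt hd.ne_zero h, fin_prim φ hφ hs⟩ (e1.1 (a3.2 e))

end Pool.Agent.P.MP_9c97e9_nt.K2
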