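import Pool.Agent.P.MP_9c97e9_nt.KT.SelJ
import Pool.Agent.P.MP_9c97e9_nt.KT.BasK
import Pool.Agent.P.MP_9c97e9_nt.KT.BasL
import Pool.Agent.P.MP_8b7eba_nt.R3.MM

/-! Shared definitions and statements of the chapters for the project K2: all the twists. -/

namespace Pool.Agent.P.MP_9c97e9_nt.K2

open scoped NNReal Matrix
open MP_8b7eba_nt.R2 KT
open MP_8b7eba_nt.R1 (st)
open MP_8b7eba_nt.R3 (twa kc cd)
open MP_8b7eba_nt.Mod (nP nM)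
open Filter Topology Polynomial Module

export KT (mem_top)

noncomputable section

/-! ### The data -/

/-- the arithmetic data -/
structure Dat where
  d : ℤ
  n : ℕ
  e : ℤ
  q : ℕ
  dl : Om
  dl0 : Om
  z : GQ
  wz : Pl
  f2 : GQ
  gm : GQ
  sq : Squarefree n
  odd : Odd n
  hd : d = e * st n
  he : e = 1 ∨ e = -1 ∨ e = 2 ∨ e = -2
  hdl : dl ^ 2 = (d : Om)
  hdl0 : dl0 ^ 2 = ((st n : ℤ) : Om)
  zp : wz.p ∣ n
  z15 : ¬ wz.p ∣ 15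
  zI : z ∈ wz.I
  zd : z dl = -dl
  fr : w2.IsFrob 1 f2
  fc : cyc f2 = 1
  gI : gm ∈ w2.I
  gc : (cyc gm : ℤ_[2]) = 5
  qp : q.Prime
  q180 : q % 180 = 151
  qn : ¬ q ∣ n

/-- the twisted representation -/
def Dat.rd (D : Dat) (g : GQ) : Mt := T2.rd D.dl g

/-- the number of primes above `n` in the tower -/
def Dat.sg (D : Dat) : ℕ := ∑ p ∈ D.n.primeFactors, 2 ^ (lg (un (p : ℤ_[2]))).valuation

/-- the number of primes of multiplicative reduction -/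
def Dat.bb (D : Dat) : ℕ := (if 3 ∣ D.n then 0 else 1) + if 5 ∣ D.n then 0 else 1

/-- the Iwasawa invariant -/
def Dat.lam (D : Dat) : ℕ := 2 * D.sg + D.bb - 2

/-- the sign which tells whether the multiplicative reduction is split -/
def Dat.ep (D : Dat) (p : ℕ) : ℤ := if p = 3 then -jacobiSym D.d 3 else jacobiSym D.d 5

/-- the Euler factors at three and five -/
def Dat.eu (D : Dat) (p : ℕ) : ℕ :=
  if p ∣ D.n then 1 else if (p = 3 ↔ D.ep p = 1) then 2 else 4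

/-- the order of the local invariants of the unramified quotient -/
def Dat.nn (D : Dat) : ℕ := if D.d % 8 = 1 then 4 else 2

/-- the local indices -/
def Dat.N (D : Dat) (p : ℕ) : ℕ :=
  if p = 2 then D.nn ^ 2 else if p ∣ D.n then 4 else if p = 3 then 8 else
    if D.ep p = 1 then 16 else 4

/-- the Tamagawa numbers -/
def Dat.tc (D : Dat) (p : ℕ) : ℕ :=
  if p = 2 then (if D.d % 4 = 1 then 1 else 4) else if p ∣ D.n then 4 else
    if D.ep p = 1 then 4 else 2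

section

variable {A : Type} [NormedCommRing A] [NormedAlgebra ℚ_[2] A]

/-- the representation with coefficients in `A` -/
def Dat.r (D : Dat) (ψ : ℤ_[2] → A) (g : GQ) : (Fin 2 → A) →ₗ[ℚ_[2]] Fin 2 → A :=
  (ψ (la g) • mv (D.rd g)).restrictScalars ℚ_[2]

/-- the local normalisation -/
def Dat.ln (D : Dat) (ψ : ℤ_[2] → A) (x : GS → Fin 2 → A) (g : GS) : Fin 2 → A :=
  x g - (rS (D.r ψ) g (mv (D.rd D.f2 - 1)⁻¹ (x (cs D.f2))) - mv (D.rd D.f2 - 1)⁻¹ (x (cs D.f2)))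

/-- the ordinary condition -/
def Dat.Ord (D : Dat) (ψ : ℤ_[2] → A) (x : GS → Fin 2 → A) : Prop :=
  ∀ g ∈ S1 w2.D, D.ln ψ x g 1 = 0

/-- the ordinary Selmer group, as a set of normalised cocycles -/
structure Dat.Sel (D : Dat) (ψ : ℤ_[2] → A) (x : GS → Fin 2 → A) : Prop where
  pz : PZ (fun _ => ⊤) (D.r ψ) x
  nz : x (cs D.z) = 0
  unr : ∀ (w : ℕ → Pl) (g : GS), (∀ᶠ k in UF, g k ∈ (w k).I ∧ ¬ (w k).p ∣ 30 * D.n) → x g = 0
  bad : ∀ w : Pl, w.p ∣ 15 → Cob (S1 w.I) (D.r ψ) x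
  ord : D.Ord ψ x

end

/-! ### The Euler system at finite level -/

/-- admissible levels -/
def Dat.Lv (D : Dat) (k M : ℕ) : Prop := M ≠ 0 ∧ 2 ^ (k + 2) ∣ M ∧ M.Coprime (15 * D.n * D.q)

/-- the Euler system -/
structure Dat.ES (D : Dat) (z : EA) : Prop where
  int : ∀ k M g δ, ‖z k M g δ‖ ≤ 1
  sm : ∀ k M, D.Lv k M → Sm ⊤ (z k M)
  co : ∀ k M, D.Lv k M → ∀ g h δ,
    ‖z k M (g * h) δ - z k M g δ - D.rd g *ᵥ z k M h (δ * (cy M g)⁻¹)‖ ≤ (2 ^ k)⁻¹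
  nz : ∀ k M, D.Lv k M → ∀ δ, ‖z k M D.z δ‖ ≤ (2 ^ k)⁻¹
  two : ∀ k M, D.Lv k M → ∀ g ε, ‖psh M 2 (z k (M * 2) g) ε - z k M g ε‖ ≤ (2 ^ k)⁻¹
  hec : ∀ k M l, D.Lv k M → l.Prime → ¬ l ∣ 15 * D.n * D.q * M → ∀ g ε,
    ‖psh M l (z k (M * l) g) ε - (z k M g ε -
      ((jacobiSym D.d l * ap W15 l : ℤ) / l : ℚ_[2]) • z k M g (ε * (un (l : ZMod M))⁻¹) +
      (l : ℚ_[2])⁻¹ • z k M g (ε * (un (l : ZMod M))⁻¹ ^ 2))‖ ≤ (2 ^ k)⁻¹

/-- the modular symbols with the sign of `d` -/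
def nx (d a c : ℤ) : ℤ := if d < 0 then nM a c else nP a c

/-- the normalisation of the modular symbols -/
def ka (d : ℤ) : ℕ := if d < 0 then 4 else 16

/-- the modular symbols of level `n 2 ^ (k + 2)` -/
def Dat.msy (D : Dat) (k ν : ℕ) : ℚ_[2] :=
  jacobiSym D.d ν * (nx D.d ν (D.n * 2 ^ (k + 2) : ℕ) -
    al0⁻¹ * nx D.d (2 * ν : ℕ) (D.n * 2 ^ (k + 2) : ℕ)) / ka D.d

/-- the approximate measures which define the 2-adic L-function -/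
def Dat.mes (D : Dat) (k j : ℕ) : ℚ_[2] :=
  ∑ ν ∈ (oddR D.n k).filter fun ν => lz k ν = j, D.msy k ν

/-- local cocycles at two with values in the ordinary line -/
structure Dat.LY (D : Dat) (k : ℕ) (y : GQ → (ZMod (2 ^ (k + 2)))ˣ → V2) : Prop where
  int : ∀ g η, ‖y g η‖ ≤ 1
  ord : ∀ g η, ‖y g η 1‖ ≤ (2 ^ k)⁻¹
  sm : Sm w2.D y
  co : ∀ g ∈ w2.D, ∀ h ∈ w2.D, ∀ η,
    ‖y (g * h) η - y g η - D.rd g *ᵥ y h (η * (cy _ g)⁻¹)‖ ≤ (2 ^ k)⁻¹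

/-- the weighted cup product -/
def Dat.wcup (D : Dat) (k : ℕ) (x y : GQ → (ZMod (2 ^ (k + 2)))ˣ → V2)
    (W : (ZMod (2 ^ (k + 2)))ˣ → ℤ) (g h : GQ) : Om :=
  ec ((∑ δ, ∑ η, W (δ * η⁻¹) * dt (x g δ) (D.rd g *ᵥ y h (η * (cy _ g)⁻¹))) / 2 ^ k)

/-- the character of conductor dividing eight -/
def ce (e : ℤ) {M : ℕ} (δ : (ZMod M)ˣ) : ℤ := jacobiSym e (δ : ZMod M).val

/-- the explicit reciprocity law at finite level -/
def Dat.ERL (D : Dat) (z : EA) : Prop :=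
  ∃ (c : ℚ_[2]) (e : ℕ) (B : ℝ) (k₀ : ℕ), c ≠ 0 ∧ e ≠ 0 ∧ ∀ k, k₀ ≤ k →
    ∃ (y : GQ → (ZMod (2 ^ (k + 2)))ˣ → V2) (u : (ZMod (2 ^ (k + 2)))ˣ) (a b : ℚ_[2]), D.LY k y ∧
      ‖a‖ = 1 ∧ ‖b‖ ≤ B ∧ ∀ W : (ZMod (2 ^ (k + 2)))ˣ → ℤ, (∀ δ, W (-δ) = W δ) →
        nv w2 w2.D (D.wcup k (z k (2 ^ (k + 2))) y W) ^ e =
          ec ((c * a * ∑ ν ∈ oddR D.n k, D.msy k ν * W (u * (un (ν : ZMod (2 ^ (k + 2))))⁻¹) +
            b * ∑ δ, ce D.e δ * W δ) / 2 ^ k)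

/-! ### Classical cocycles -/

/-- normalised cocycles on `H` with values in the torsion points, unramified outside `30 n`, trivial
at the real places and strictly ordinary at the top of the tower -/
structure Dat.SH (D : Dat) (H : Subgroup GQ) (c : GQ → EO) : Prop where
  sm : Sm H c
  co : ∀ g ∈ H, ∀ h ∈ H, c (g * h) = c g + tac D.dl g (c h)
  off : ∀ g, g ∉ H → c g = 0
  tor : ∃ i : ℕ, ∀ g, 2 ^ i • c g = 0
  nz : c D.z = 0
  ord : ∃ P, Tp P ∧ ∀ g ∈ w2.D ⊓ KI, c g - (tac D.dl g P - P) ∈ EG w2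
  unr : ∀ w : Pl, ¬ w.p ∣ 30 * D.n → ∀ g ∈ w.I ⊓ H, c g = 0
  re : ∀ s : GQ, ∃ P, c (s * tau * s⁻¹) = tac D.dl (s * tau * s⁻¹) P - P

/-- the classical Selmer group, as a set of normalised cocycles -/
def Dat.SelN (D : Dat) : Set (GQ → EO) :=
  {c | SelC D.dl c ∧ c D.z = 0 ∧ ∃ P, c tau = tac D.dl tau P - P}

/-! ### The second lattice -/

/-- one for positive `d`, zero for negative `d` -/
def Dat.eps (D : Dat) : ℚ_[2] := if D.d < 0 then 0 else 1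

/-- the change of lattice -/
def Dat.Pm (D : Dat) : Mt := !![2, -D.eps; 0, 1]

/-- the inverse of the change of lattice -/
def Dat.Pv (D : Dat) : Mt := !![2⁻¹, D.eps / 2; 0, 1]

/-- the representation in the basis of the second lattice -/
def Dat.rp (D : Dat) (g : GQ) : Mt := D.Pm * D.rd g * D.Pv

/-- the same as linear maps -/
def Dat.rq (D : Dat) (g : GQ) : V2 →ₗ[ℚ_[2]] V2 := Matrix.toLin' (D.rp g)

/-- the unit ball -/
def B0 : AddSubgroup V2 where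
  carrier := {v | ‖v‖ ≤ 1}
  zero_mem' := by simp
  add_mem' := fun h h' => ua h h'
  neg_mem' := fun h => (norm_neg _).trans_le h

/-- the discrete module -/
abbrev A0 : Type := V2 ⧸ B0

/-- the projection to the discrete module -/
def p0 : V2 →+ A0 := QuotientAddGroup.mk' B0

open Classical in
/-- the action of an integral matrix on the discrete module -/
def am (B : Mt) : A0 →+ A0 :=
  if h : B0 ≤ B0.comap (Matrix.toLin' B).toAddMonoidHom then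
    QuotientAddGroup.map B0 B0 (Matrix.toLin' B).toAddMonoidHom h else 0

/-- the action on the discrete module -/
def Dat.a0 (D : Dat) (g : GQ) : A0 →+ A0 := am (D.rp g)

/-- the analogue of `SH` for the second lattice -/
structure Dat.SP (D : Dat) (H : Subgroup GQ) (c : GQ → A0) : Prop where
  sm : Sm H c
  co : ∀ g ∈ H, ∀ h ∈ H, c (g * h) = c g + D.a0 g (c h)
  off : ∀ g, g ∉ H → c g = 0
  tor : ∃ i : ℕ, ∀ g, 2 ^ i • c g = 0
  nz : c D.z = 0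
  ord : ∃ v, ∀ g ∈ w2.D ⊓ KI, ∃ x, c g = p0 (D.rp g *ᵥ v - v + ![x, 0])
  unr : ∀ w : Pl, ¬ w.p ∣ 30 * D.n → ∀ g ∈ w.I ⊓ H, c g = 0
  re : ∀ s : GQ, ∃ P, c (ts s) = D.a0 (ts s) P - P

/-- the twisted sum of modular symbols -/
def S0 (d : ℤ) : ℤ := ∑ ν ∈ Finset.range (cd d), kc d ν * nx d ν (cd d)

end

/-! ### The chapters -/

/-- existence of the data -/
def BAS : Prop := ∀ d : ℤ, Squarefree d → ¬ d ∣ 30 → ∃ D : Dat, D.d = d

/-- the Euler system and the reciprocity law -/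
def ESX : Prop := ∀ D : Dat, ∃ z, D.ES z ∧ D.ERL z

/-- the upper bound for the Selmer group -/
def Dat.UB (D : Dat) : Prop :=
  ∀ (q : ℚ_[2][X]) (j m i : ℕ), Irreducible q → q.Monic → i < m → m ≤ j →
    ∀ (A : Type) [NormedCommRing A] [NormedAlgebra ℚ_[2] A] [IsUltrametricDist A]
      [FiniteDimensional ℚ_[2] A] (ψ : ℤ_[2] → A) (A' : Type) [NormedCommRing A']
      [NormedAlgebra ℚ_[2] A'] [IsUltrametricDist A'] [FiniteDimensional ℚ_[2] A'] (ψ' : ℤ_[2] → A'),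
      IsAF ψ (q ^ (j + m)) → IsAF ψ' (q ^ j) →
      aeval (ψ 1 - 1) q ^ (j + m - i - 1) * thA D.mes ψ ≠ 0 →
      ∀ M : Submodule A' (GS → Fin 2 → A'), FiniteDimensional ℚ_[2] M → (∀ x ∈ M, D.Sel ψ' x) →
        finrank ℚ_[2] M ≤ i * q.natDegree

/-- the Kolyvagin argument -/
def UBX : Prop := ∀ (D : Dat) (z : EA), D.ES z → D.ERL z → D.UB

/-- the lower bound for the Selmer group -/
def Dat.LB (D : Dat) (F : ℚ_[2][X]) : Prop :=
  ∀ (q : ℚ_[2][X]) (k j : ℕ), Irreducible q → q ^ k ∣ F → F.natDegree ≤ j →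
    ∀ (A : Type) [NormedCommRing A] [NormedAlgebra ℚ_[2] A] [IsUltrametricDist A]
      [FiniteDimensional ℚ_[2] A] (ψ : ℤ_[2] → A), IsAF ψ (q ^ j) →
      ∃ M : Submodule A (GS → Fin 2 → A), FiniteDimensional ℚ_[2] M ∧ (∀ x ∈ M, D.Sel ψ x) ∧
        k * q.natDegree ≤ finrank ℚ_[2] M

/-- the Iwasawa module and its Euler characteristic -/
def IWX : Prop :=
  ∀ D : Dat, ∃ F, Dist F ∧ D.lam ≤ F.natDegree ∧ D.LB F ∧ (F.natDegree = D.lam →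
    ({c | D.SP ⊤ c}.Finite ↔ F.eval 0 ≠ 0) ∧
    (F.eval 0 ≠ 0 → ({c | D.SP ⊤ c}.ncard : ℝ) * ‖F.eval 0‖ = 4 * D.eu 3 * D.eu 5))

/-- the change of lattice -/
def TRX : Prop :=
  ∀ D : Dat, ({c | D.SP ⊤ c}.Finite ↔ {c | D.SH ⊤ c}.Finite) ∧
    (if D.d < 0 then 1 else 2) * {c | D.SP ⊤ c}.ncard = {c | D.SH ⊤ c}.ncard

/-- comparison with the classical Selmer group -/
def CASX : Prop :=
  ∀ D : Dat, ({c | D.SH ⊤ c}.Finite ↔ D.SelN.Finite) ∧ (D.SelN.Finite →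
    4 * {c | D.SH ⊤ c}.ncard = D.SelN.ncard * ∏ p ∈ (30 * D.n).primeFactors, D.N p)

open Classical in
/-- comparison with the Tate-Shafarevich group -/
def SHAX : Prop :=
  ∀ D : Dat, (D.SelN.Finite ↔
      Finite (Pt (twa D.d) ℚ) ∧ Finite (AddCommGroup.primaryComponent (Sha (twa D.d)) 2)) ∧
    (D.SelN.Finite → D.SelN.ncard = Nat.card (AddCommGroup.primaryComponent (Sha (twa D.d)) 2))

/-- the invariants of the 2-adic L-function -/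
def ANA : Prop :=
  ∀ D : Dat, (∀ k j, ‖D.mes k j‖ ≤ 1) ∧
    (∀ᶠ k in atTop, ‖∑ j ∈ Finset.range (2 ^ k), D.mes k j * j.choose D.lam‖ = 1) ∧
    ∀ k, 1 ≤ k → ‖∑ j ∈ Finset.range (2 ^ k), D.mes k j‖ =
      ‖(1 - kc D.d 2 / al0) ^ 2 * S0 D.d / ka D.d‖

/-- comparison of the two sides -/
def TOPX : Prop :=
  ∀ (D : Dat) (F : ℚ_[2][X]) (s : ℕ) (t : ℝ), D.UB → Dist F → s ≤ F.natDegree → D.LB F →
    (∀ k j, ‖D.mes k j‖ ≤ 1) →
    (∀ᶠ k in atTop, ‖∑ j ∈ Finset.range (2 ^ k), D.mes k j * j.choose s‖ = 1) →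
    (∀ k, 1 ≤ k → ‖∑ j ∈ Finset.range (2 ^ k), D.mes k j‖ = t) →
    F.natDegree = s ∧ ‖F.eval 0‖ = t

/-- the real period of the curve -/
def APR : Prop :=
  ∃ (J : ℝ) (k : ℤ), 0 < J ∧ Odd k ∧ 8 * MP_8b7eba_nt.Mod.L0 = k * J ∧ ∀ N : ℝ, 0 < N →
    2 * ∫ x in {x : ℝ | 0 < 4 * x ^ 3 - 7 * N * x ^ 2 - 36 * N ^ 2 * x},
      1 / √(4 * x ^ 3 - 7 * N * x ^ 2 - 36 * N ^ 2 * x) = J / √N

/-- the central value -/
def ALV : Prop :=
  ∀ d : ℤ, Squarefree d → 0 < period (twa d) ∧ ∃ L : ℂ → ℂ, IsL (twa d) L ∧ ∃ s : ℤ,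
    Odd s ∧ L 1 * (if d < 0 then 4 else 8) = s * S0 d * (period (twa d) : ℂ)

/-- the Tamagawa number at two -/
def AT2 : Prop :=
  ∀ d : ℤ, Squarefree d → d % 4 ≠ 1 → tamagawa (twa d) ⟨2, Nat.prime_two⟩ = 4

/-- the Tamagawa numbers -/
def ATM : Prop :=
  ∀ D : Dat, ∏ᶠ p, tamagawa (twa D.d) p = ∏ p ∈ (30 * D.n).primeFactors, D.tc p

open Classical in
/-- the torsion points -/
def ATO : Prop :=
  ∀ D : Dat, Finite (AddCommGroup.torsion (Pt (twa D.d) ℚ)) ∧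
    ∃ t, Odd t ∧ Nat.card (AddCommGroup.torsion (Pt (twa D.d) ℚ)) = 4 * t

open Classical in
/-- the theorem -/
def MAIN : Prop :=
  ∀ d : ℤ, Squarefree d → ¬ d ∣ 30 →
    (∀ (p : ℕ) [Fact p.Prime], ((twa d).baseChange ℚ_[p]).IsMinimal ℤ_[p]) ∧
    Finite (AddCommGroup.torsion (Pt (twa d) ℚ)) ∧
    ∃ L : ℂ → ℂ, IsL (twa d) L ∧ ∃ r : ℚ,
      L 1 = (r : ℂ) * (period (twa d) : ℂ) * ((∏ᶠ p, tamagawa (twa d) p : ℕ) : ℂ) /
        (Nat.card (AddCommGroup.torsion (Pt (twa d) ℚ)) : ℂ) ^ 2 ∧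
      (L 1 = 0 ↔ r = 0) ∧
      (r ≠ 0 ↔ Finite (Pt (twa d) ℚ) ∧ Finite (AddCommGroup.primaryComponent (Sha (twa d)) 2)) ∧
      (r ≠ 0 → (Nat.card (AddCommGroup.primaryComponent (Sha (twa d)) 2) : ℚ) =
        2 ^ padicValRat 2 r)

end Pool.Agent.P.MP_9c97e9_nt.K2
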