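import Pool.Agent.P.MP_9c97e9_nt.K2.TF2X

/-! Statements on modular symbols. -/

namespace Pool.Agent.P.MP_9c97e9_nt.K2

open MP_8b7eba_nt.R2 KT
open MP_8b7eba_nt.R3 (kc)
open MP_8b7eba_nt.Mod (nP nM)
open Filter

/-- half the difference of two modular symbols -/
def ww (a c : ℕ) : ℤ := (nM a c - nM (2 * a : ℕ) c) / 2

/-- an Eisenstein congruence -/
def AF : Prop :=
  ∀ a c : ℤ, IsCoprime a c → 2 ∣ c →
    16 ∣ nP a c + 4 * nM a c - 13 * (nP (2 * a) c + 4 * nM (2 * a) c) ∧ 2 ∣ nM a c - nM (2 * a) c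

/-- the total mass -/
def AN1 : Prop :=
  ∀ (D : Dat) (k : ℕ), 1 ≤ k →
    ‖∑ ν ∈ oddR D.n k, D.msy k ν‖ = ‖(1 - kc D.d 2 / al0) ^ 2 * S0 D.d / ka D.d‖

/-- the order of vanishing modulo two -/
def AN2 : Prop :=
  ∀ D : Dat, ∀ᶠ k in atTop, Odd (∑ ν ∈ Finset.range (D.n * 2 ^ (k + 2)),
    (if ν % 4 = 1 ∧ ν.Coprime D.n then 1 else 0 : ℤ) * ww ν (D.n * 2 ^ (k + 2)) *
      (lz k ν).choose D.lam)

end Pool.Agent.P.MP_9c97e9_nt.K2
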