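import Pool.Agent.P.MP_9c97e9_nt.K2.IfX
import Pool.Agent.P.MP_9c97e9_nt.KT.BasC

/-! The steps of the computation of the products of Eisenstein series. -/

namespace Pool.Agent.P.MP_9c97e9_nt.K2

open MP_8b7eba_nt.R2 (io)
open KT
open KT.Cx (sw NZ zc eS eC Ew un_eq_iff)
open MP_8b7eba_nt.Mod (M2 G0 nP nM an qq atI sl Inv)
open MP_8b7eba_nt.BSD15 (saw crossSum endT IsMS msA msB Prim)
open PowerSeries Finset Filter Topology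

noncomputable section

/-- the conditions on a pair of factorisations -/
def cnd (q M : ℕ) (ν n n' A C B D : ℤ) : Prop :=
  (5 ∣ A ∧ ¬ 3 ∣ A) ∧ (3 ∣ B ∧ ¬ 5 ∣ B) ∧ ((q : ℤ) ∣ n' * A - n * B ∧ (q : ℤ) ∣ n * C + n' * D) ∧
    (M : ℤ) ∣ C + ν * B ∧ (M : ℤ) ∣ D - ν * A

open Classical in
/-- the crossing term -/
def Mn (q M : ℕ) (ν n n' : ℤ) : ℤ :=
  ∑ m ∈ antidiagonal (M * q), ∑ p ∈ (m.1 : ℤ).divisorsAntidiag, ∑ r ∈ (m.2 : ℤ).divisorsAntidiag,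
    if cnd q M ν n n' p.1 p.2 r.1 r.2 then p.1.sign * r.1.sign else 0

open Classical in
/-- the first end term -/
def En1 (q M : ℕ) (ν n n' : ℤ) : ℚ :=
  ∑ A ∈ range (15 * (M * q)), ∑ r ∈ ((M * q : ℕ) : ℤ).divisorsAntidiag,
    if cnd q M ν n n' A 0 r.1 r.2 then -(r.1.sign : ℚ) * sw (M * q) A else 0

open Classical in
/-- the second end term -/
def En2 (q M : ℕ) (ν n n' : ℤ) : ℚ :=
  ∑ B ∈ range (15 * (M * q)), ∑ p ∈ ((M * q : ℕ) : ℤ).divisorsAntidiag,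
    if cnd q M ν n n' p.1 p.2 B 0 then -(p.1.sign : ℚ) * sw (M * q) B else 0

/-- functions of six integers -/
abbrev F6 (A : Type) : Type := ℤ → ℤ → ℤ → ℤ → ℤ → ℤ → A

/-- the conditions modulo three and five -/
def G35 (i₁ i₂ j₁ j₂ : ℤ) : Prop := (¬ 3 ∣ i₁ ∧ 3 ∣ i₂) ∧ ¬ 5 ∣ j₁ ∧ 5 ∣ j₂

/-- functions of the classes of the indices -/
def Per {A : Type} (q M : ℕ) (Φ : F6 A) : Prop :=
  ∀ b₁ b₁' b₂ b₂' i₁ i₁' i₂ i₂' j₁ j₁' j₂ j₂' : ℤ, G35 i₁ i₂ j₁ j₂ → b₁ ≡ b₁' [ZMOD q] →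
    b₂ ≡ b₂' [ZMOD q] → i₁ ≡ i₁' [ZMOD (15 * M : ℕ)] → i₂ ≡ i₂' [ZMOD (15 * M : ℕ)] →
    j₁ ≡ j₁' [ZMOD (15 * M : ℕ)] → j₂ ≡ j₂' [ZMOD (15 * M : ℕ)] →
    Φ b₁ b₂ i₁ i₂ j₁ j₂ = Φ b₁' b₂' i₁' i₂' j₁' j₂'

open Classical in
/-- the sum over the indices of determinant `δ` -/
def sI {A : Type} [AddCommMonoid A] (q M : ℕ) (δ : (ZMod M)ˣ) (Φ : F6 A) : A :=
  ∑ i ∈ (Ix q M).filter fun i => dI M i = δ, Φ i.1.1 i.1.2 i.2.1.1 i.2.1.2 i.2.2.1 i.2.2.2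

/-- the product of the first and the second object -/
def pr {A : Type} [Mul A] (U V : ℤ → ℤ → ℤ → ℤ → A) : F6 A :=
  fun b₁ b₂ i₁ i₂ j₁ j₂ => U b₁ b₂ (5 * i₁) (5 * i₂) * V b₁ b₂ (3 * j₁) (3 * j₂)

/-- the series of one division point, without the constant term -/
def e0 (q N : ℕ) (n b₁ b₂ i₁ i₂ : ℤ) : ℂ⟦X⟧ := eS (N * q) (aB q N b₂ i₂ n) (15 * aB q N b₁ i₁ n)

/-- the constant term -/
def c0 (q N : ℕ) (n b₁ _b₂ i₁ _i₂ : ℤ) : ℂ⟦X⟧ := C (sw (N * q) (15 * aB q N b₁ i₁ n) : ℂ)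

/-- the series of one division point -/
def e1 (q N : ℕ) (n b₁ b₂ i₁ i₂ : ℤ) : ℂ⟦X⟧ := eC (N * q) (aB q N b₂ i₂ n) (15 * aB q N b₁ i₁ n)

/-- the series of a unit -/
def eE (q N : ℕ) (b₁ b₂ i₁ i₂ : ℤ) : ℂ⟦X⟧ := s4 fun n => e1 q N n b₁ b₂ i₁ i₂

/-- the series of weight two -/
def gC (q M : ℕ) (δ : (ZMod M)ˣ) : ℂ⟦X⟧ := sI q M δ (pr (eE q (15 * M)) (eE q (15 * M)))

/-- the form of weight one of a unit -/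
def Fc (q N : ℕ) (z : ℂ) (b₁ b₂ i₁ i₂ : ℤ) : ℂ :=
  s4 fun n => Ew (aB q N b₁ i₁ n / (N * q : ℕ)) (aB q N b₂ i₂ n / (N * q : ℕ)) (15 * z)

/-- the form of weight two -/
def Gc (q M : ℕ) (δ : (ZMod M)ˣ) (z : ℂ) : ℂ := sI q M δ (pr (Fc q (15 * M) z) (Fc q (15 * M) z))

/-- the linear form of a cusp -/
def lc (g : M2) (x y : ℤ) : ℤ := x * (15 * g.a) + y * g.c

/-- the cusps of width five -/
def Y1 (q : ℕ) (a : ℤ) : ℤ × ℤ := (2 * a + q, 5 * a + 2 * q)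

/-- the choice of the cusps -/
def Ch (q : ℕ) (a : ℤ → ℤ → ℤ) : Prop :=
  ∀ n n' : ℤ, 1 ≤ n → n ≤ 4 → (q : ℤ) ∣ n * a n n' - n' ∧ 3 ∣ a n n' + q

/-- the modular symbol given by the intersection with sixteen geodesics -/
def psi (q : ℕ) (a : ℤ → ℤ → ℤ) (x : ℤ × ℤ) : ℚ :=
  s4 fun n => s4 fun n' => MP_8b7eba_nt.BSD15.II x (1, 0) (Y1 q (a n n')) (2, 5)

end

/-- periodicity and transformation of the forms of the units -/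
def CXFM : Prop :=
  ∀ q N : ℕ, q ≠ 0 → N ≠ 0 → N.Coprime q → ∀ (b₁ b₂ i₁ i₂ : ℤ) (z : ℂ), ¬ (N : ℤ) ∣ i₁ → 0 < z.im →
    (∀ b₁' b₂' i₁' i₂' : ℤ, b₁ ≡ b₁' [ZMOD q] → b₂ ≡ b₂' [ZMOD q] → i₁ ≡ i₁' [ZMOD N] →
      i₂ ≡ i₂' [ZMOD N] → Fc q N z b₁ b₂ i₁ i₂ = Fc q N z b₁' b₂' i₁' i₂') ∧
    ∀ (γ : M2) (c : ℤ), γ.det = 1 → γ.c = 15 * c → Fc q N (γ.act z) b₁ b₂ i₁ i₂ =
      γ.j z * Fc q N z (b₁ * γ.a + b₂ * c) (b₁ * (15 * γ.b) + b₂ * γ.d) (i₁ * γ.a + i₂ * c)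
        (i₁ * (15 * γ.b) + i₂ * γ.d)

/-- the forms of the units at the cusps -/
def CXFC : Prop :=
  ∀ q N : ℕ, Aq q → N ≠ 0 → N.Coprime q → ∀ g : M2, g.det = 1 → ∃ L : ℤ → ℤ → ℤ → ℤ → ℂ,
    ∀ b₁ b₂ i₁ i₂ : ℤ, ¬ (N : ℤ) ∣ i₁ →
      Tendsto (fun z => Fc q N (g.act z) b₁ b₂ i₁ i₂ / g.j z) atI (𝓝 (L b₁ b₂ i₁ i₂)) ∧
      ((q : ℤ) ∣ lc g b₁ b₂ → L b₁ b₂ i₁ i₂ ≠ 0 → (N : ℤ) ∣ lc g i₁ i₂) ∧
      (¬ (q : ℤ) ∣ lc g b₁ b₂ → ∀ i₁' i₂', ¬ (N : ℤ) ∣ i₁' → lc g i₁ i₂ = lc g i₁' i₂' →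
        L b₁ b₂ i₁ i₂ = L b₁ b₂ i₁' i₂')

/-- permutations of the indices -/
def CXIP : Prop :=
  ∀ (q M : ℕ) (δ : (ZMod M)ˣ) (Φ : F6 ℂ), q ≠ 0 → M ≠ 0 → Per q M Φ →
    ∀ a b c d : ℤ, a * d - 15 * b * c = 1 →
      (sI q M δ fun b₁ b₂ i₁ i₂ j₁ j₂ => Φ (b₁ * a + b₂ * c) (b₁ * (15 * b) + b₂ * d)
        (i₁ * a + i₂ * c) (i₁ * (15 * b) + i₂ * d) (j₁ * a + j₂ * c) (j₁ * (15 * b) + j₂ * d)) =
      sI q M δ Φ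

/-- translations of the indices -/
def CXIT : Prop :=
  ∀ (q M p m : ℕ) (δ δ' : (ZMod M)ˣ) (Φ : F6 ℂ) (x y : ℤ), q ≠ 0 → M ≠ 0 → Per q M Φ → p.Prime →
    ¬ p ∣ 15 → M = m * p → (m : ℤ) ∣ (δ : ZMod M).val - (δ' : ZMod M).val →
    ¬ ((p : ℤ) ∣ x ∧ (p : ℤ) ∣ y) →
    (∀ b₁ b₂ i₁ i₂ j₁ j₂ κ : ℤ, G35 i₁ i₂ j₁ j₂ →
      Φ b₁ b₂ (i₁ + 15 * κ * x * m) (i₂ + 15 * κ * y * m) j₁ j₂ = Φ b₁ b₂ i₁ i₂ j₁ j₂ ∧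
      Φ b₁ b₂ i₁ i₂ (j₁ + 15 * κ * x * m) (j₂ + 15 * κ * y * m) = Φ b₁ b₂ i₁ i₂ j₁ j₂) →
    sI q M δ Φ = sI q M δ' Φ

/-- invariance -/
def CXGI : Prop :=
  ∀ (q M : ℕ) (δ : (ZMod M)ˣ), Aq q → M ≠ 0 → M.Coprime q → ∀ γ, G0 γ → Inv 2 (Gc q M δ) γ

/-- the differences vanish at the cusps -/
def CXGC : Prop :=
  ∀ (q M : ℕ) (δ δ' : (ZMod M)ˣ), Aq q → M ≠ 0 → M.Coprime q → Rl δ δ' → ∀ g : M2, g.det = 1 →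
    Tendsto (sl (fun z => Gc q M δ z - Gc q M δ' z) g) atI (𝓝 0)

/-- the constant terms -/
def CXG0 : Prop :=
  ∀ (q M : ℕ) (δ δ' : (ZMod M)ˣ), Aq q → M ≠ 0 → Rl δ δ' → coeff 0 (gC q M δ) = coeff 0 (gC q M δ')

/-- the expansion of the form of weight two -/
def CXGE : Prop :=
  ∀ (q M : ℕ) (δ : (ZMod M)ˣ) (z : ℂ), Aq q → M ≠ 0 → M.Coprime q → 0 < z.im →
    HasSum (fun n => coeff n (gC q M δ) * qq (z / (15 * M * q : ℕ)) ^ n) (Gc q M δ z)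

/-- the series over the complex numbers -/
def CXTR : Prop :=
  ∀ (q M : ℕ) (δ : (ZMod M)ˣ), Aq q → M ≠ 0 → M.Coprime q →
    PowerSeries.map io (gd q M δ) = gC q M δ ∧
    io (SSd q M δ) = ∑ ν ∈ range M, zc M (ν * (q * (δ : ZMod M).val)) * ns ν M

open Classical in
/-- the character sum over the indices -/
def CXRE : Prop :=
  ∀ (q M : ℕ) (δ : (ZMod M)ˣ) (n n' C D : ℤ) (F : ℤ → ℤ → ℂ), Aq q → M ≠ 0 → M.Coprime q →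
    IsCoprime n q → (∀ A A' B B' : ℤ, A ≡ A' [ZMOD (15 * M * q : ℕ)] →
      B ≡ B' [ZMOD (15 * M * q : ℕ)] → F A B = F A' B') →
    (sI q M δ fun b₁ b₂ i₁ i₂ j₁ j₂ =>
      F (aB q (15 * M) b₁ (5 * i₁) n) (aB q (15 * M) b₁ (3 * j₁) n') *
        zc (15 * M * q) (aB q (15 * M) b₂ (5 * i₂) n * C + aB q (15 * M) b₂ (3 * j₂) n' * D)) =
      15 * (15 * M * q) * ∑ A ∈ range (15 * M * q), ∑ B ∈ range (15 * M * q), F A B *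
        ∑ ν ∈ range M, if cnd q M ν n n' A C B D then zc M (ν * (q * (δ : ZMod M).val)) else 0

open Classical in
/-- the coefficients of the series of a division point -/
def CXES : Prop :=
  ∀ (W m : ℕ) (a A : ℤ), coeff m (eS W a (15 * A)) = if 15 ∣ m then
    ∑ p ∈ ((m / 15 : ℕ) : ℤ).divisorsAntidiag,
      if (W : ℤ) ∣ p.1 - A then -(p.1.sign : ℂ) * zc W (a * p.2) else 0 else 0

/-- the main part of the coefficient -/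
def CXCM : Prop :=
  ∀ (q M : ℕ) (δ : (ZMod M)ˣ) (n n' : ℤ), Aq q → M ≠ 0 → M.Coprime q → IsCoprime n q →
    coeff (15 * M * q) (sI q M δ (pr (e0 q (15 * M) n) (e0 q (15 * M) n'))) =
      15 * (15 * M * q) * ∑ ν ∈ range M, zc M (ν * (q * (δ : ZMod M).val)) * Mn q M ν n n'

/-- the part of the first constant term -/
def CXC1 : Prop :=
  ∀ (q M : ℕ) (δ : (ZMod M)ˣ) (n n' : ℤ), Aq q → M ≠ 0 → M.Coprime q → IsCoprime n q →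
    coeff (15 * M * q) (sI q M δ (pr (c0 q (15 * M) n) (e0 q (15 * M) n'))) =
      15 * (15 * M * q) * ∑ ν ∈ range M, zc M (ν * (q * (δ : ZMod M).val)) * En1 q M ν n n'

/-- the part of the second constant term -/
def CXC2 : Prop :=
  ∀ (q M : ℕ) (δ : (ZMod M)ˣ) (n n' : ℤ), Aq q → M ≠ 0 → M.Coprime q → IsCoprime n q →
    coeff (15 * M * q) (sI q M δ (pr (e0 q (15 * M) n) (c0 q (15 * M) n'))) =
      15 * (15 * M * q) * ∑ ν ∈ range M, zc M (ν * (q * (δ : ZMod M).val)) * En2 q M ν n n'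

/-- the orbit of a pair of cusps -/
def CXOR : Prop :=
  ∀ (q : ℕ) (n n' a : ℤ) (u v : ℤ × ℤ), q.Prime → IsCoprime n q → (q : ℤ) ∣ n * a - n' →
    3 ∣ a + q → ¬ q ∣ 15 →
    ((∃ γ : MP_8b7eba_nt.BSD15.Gam, γ.act (Y1 q a) = u ∧ γ.act (2, 5) = v) ↔
      MP_8b7eba_nt.BSD15.dt u v = q ∧ (5 ∣ v.2 ∧ ¬ 3 ∣ v.2) ∧ (3 ∣ u.2 ∧ ¬ 5 ∣ u.2) ∧
        (q : ℤ) ∣ n' * v.1 - n * u.1 ∧ (q : ℤ) ∣ n' * v.2 - n * u.2)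

/-- the crossing term -/
def CXCR : Prop :=
  ∀ (q g M : ℕ) (ν n n' a : ℤ), Aq q → 0 < g → 0 < M → (g * M).Coprime q → IsCoprime n q →
    (q : ℤ) ∣ n * a - n' → 3 ∣ a + q →
    Mn q (g * M) (g * ν) n n' = crossSum (ν, M) (1, 0) (Y1 q a) (2, 5)

/-- the first end term -/
def CXE1 : Prop :=
  ∀ (q g M : ℕ) (ν n n' a : ℤ), Aq q → 0 < g → 0 < M → (g * M).Coprime q → IsCoprime ν M →
    IsCoprime n q → IsCoprime n' q → (q : ℤ) ∣ n * a - n' → 3 ∣ a + q →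
    En1 q (g * M) (g * ν) n n' = -2 * endT (ν, M) (1, 0) (Y1 q a) (2, 5)

/-- the second end term -/
def CXE2 : Prop :=
  ∀ (q g M : ℕ) (ν n n' a : ℤ), Aq q → 0 < g → 0 < M → (g * M).Coprime q → IsCoprime ν M →
    IsCoprime n q → IsCoprime n' q → (q : ℤ) ∣ n * a - n' → 3 ∣ a + q →
    En2 q (g * M) (g * ν) n n' = 2 * endT (ν, M) (1, 0) (2, 5) (Y1 q a)

/-- the decomposition of a modular symbol -/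
def CXMD : Prop :=
  ∀ ψ : ℤ × ℤ → ℂ, IsMS ψ → ∃ b : ℕ → ℂ, ∀ x, Prim x →
    ψ x = -msA ψ / 4 * nP x.1 x.2 + msB ψ / 2 * nM x.1 x.2 + b (Int.gcd x.2 15)

/-- the periods along the sixteen geodesics -/
def CXCP : Prop :=
  ∀ (q : ℕ) (a : ℤ → ℤ → ℤ), q % 180 = 151 → Ch q a →
    (s4 fun n => s4 fun n' => nP (Y1 q (a n n')).1 (Y1 q (a n n')).2) = -16 ∧
    (s4 fun n => s4 fun n' => nM (Y1 q (a n n')).1 (Y1 q (a n n')).2) = 16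

/-- the modular symbol -/
def CXMS : Prop :=
  ∀ (q : ℕ) (a : ℤ → ℤ → ℤ), Aq q → Ch q a → ∃ b : ℕ → ℂ, ∀ x, Prim x →
    (psi q a x : ℂ) = 2 * ns x.1 x.2 + b (Int.gcd x.2 15)

/-- the boundary symbols do not contribute -/
def CXBD : Prop :=
  ∀ (M p : ℕ) (D : ℤ) (b : ℕ → ℂ), M ≠ 0 → p.Prime → ¬ p ∣ 15 → p ∣ M → ¬ (p : ℤ) ∣ D →
    ∑ ν ∈ range M, zc M (ν * D) * b ((M / ν.gcd M).gcd 15) = 0

/-- the coefficient -/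
def CXW : Prop :=
  ∀ (q M p : ℕ) (δ : (ZMod M)ˣ), Aq q → M ≠ 0 → M.Coprime q → p.Prime → ¬ p ∣ 15 → p ∣ M →
    coeff (15 * M * q) (gC q M δ) =
      60 * (15 * M * q) * ∑ ν ∈ range M, zc M (ν * (q * (δ : ZMod M).val)) * ns ν M

/-! ### Basic facts -/

theorem G35.nd {M : ℕ} (hM : M ≠ 0) {i₁ i₂ j₁ j₂ : ℤ} (h : G35 i₁ i₂ j₁ j₂) :
    ¬ ((15 * M : ℕ) : ℤ) ∣ 5 * i₁ ∧ ¬ ((15 * M : ℕ) : ℤ) ∣ 3 * j₁ :=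
  ⟨(Gz.of_dvd (e := 3) (f := 5) rfl hM h.1.1 h.1.2).not_dvd,
    (Gz.of_dvd (e := 5) (f := 3) rfl hM h.2.1 h.2.2).not_dvd⟩

open Classical in
theorem mem_sI {q M : ℕ} (hM : M ≠ 0) {δ : (ZMod M)ˣ} {i : IT} :
    i ∈ (Ix q M).filter (fun i => dI M i = δ) ↔ ((i.1.1 < q ∧ i.1.2 < q) ∧
      (i.2.1.1 < 15 * M ∧ i.2.1.2 < 15 * M) ∧ i.2.2.1 < 15 * M ∧ i.2.2.2 < 15 * M) ∧
      G35 i.2.1.1 i.2.1.2 i.2.2.1 i.2.2.2 ∧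
        (i.2.1.1 : ZMod M) * i.2.2.2 - i.2.1.2 * i.2.2.1 = δ := by
  have : NeZero M := ⟨hM⟩
  have e : IsCoprime ((i.2.1.1 : ℤ) * i.2.2.2 - i.2.1.2 * i.2.2.1) M ↔
      IsUnit ((i.2.1.1 : ZMod M) * i.2.2.2 - i.2.1.2 * i.2.2.1) := by
    rw [isCoprime_comm, ← ZMod.coe_int_isUnit_iff_isCoprime]
    push_cast
    rfl
  have e3 : ∀ x : ℕ, (3 : ℤ) ∣ x ↔ 3 ∣ x := fun x => Int.natCast_dvd_natCast (m := 3)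
  have e5 : ∀ x : ℕ, (5 : ℤ) ∣ x ↔ 5 ∣ x := fun x => Int.natCast_dvd_natCast (m := 5)
  simp only [mem_filter, mem_Ix, dI, G35, e, e3, e5, and_assoc, and_congr_right_iff]
  intro _ _ _ _ _ _ _ _ _ _
  exact ⟨fun h => (un_eq_iff h.1).1 h.2, fun h =>
    ⟨h ▸ δ.isUnit, (un_eq_iff (h ▸ δ.isUnit)).2 h⟩⟩

theorem sI_congr {A : Type} [AddCommMonoid A] {q M : ℕ} {δ : (ZMod M)ˣ} {Φ Ψ : F6 A}
    (h : ∀ b₁ b₂ i₁ i₂ j₁ j₂, G35 i₁ i₂ j₁ j₂ → IsCoprime (i₁ * j₂ - i₂ * j₁) (M : ℤ) →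
      Φ b₁ b₂ i₁ i₂ j₁ j₂ = Ψ b₁ b₂ i₁ i₂ j₁ j₂) : sI q M δ Φ = sI q M δ Ψ := by
  refine sum_congr rfl fun i hi => ?_
  obtain ⟨-, ⟨h1, h2⟩, ⟨h3, h4⟩, h5⟩ := mem_Ix.1 (mem_filter.1 hi).1
  exact h _ _ _ _ _ _ ⟨⟨mt Int.natCast_dvd_natCast.1 h1, Int.natCast_dvd_natCast.2 h2⟩,
    mt Int.natCast_dvd_natCast.1 h3, Int.natCast_dvd_natCast.2 h4⟩ h5

open Classical in
/-- the sum over the indices as a sum over residue classes -/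
theorem sI_eq {A : Type} [AddCommMonoid A] (q M : ℕ) [NeZero q] [NeZero M] (δ : (ZMod M)ˣ)
    (Φ : F6 A) : sI q M δ Φ =
      ∑ p : VZ q × VZ (15 * M) × VZ (15 * M) with (Ge 3 p.2.1 ∧ Ge 5 p.2.2) ∧ dv M p.2.1 p.2.2 = δ,
        Φ p.1.1.val p.1.2.val p.2.1.1.val p.2.1.2.val p.2.2.1.val p.2.2.2.val := by
  have hM := NeZero.ne M
  have e3 : ∀ x : ℕ, (3 : ℤ) ∣ x ↔ 3 ∣ x := fun x => Int.natCast_dvd_natCast (m := 3)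
  have e5 : ∀ x : ℕ, (5 : ℤ) ∣ x ↔ 5 ∣ x := fun x => Int.natCast_dvd_natCast (m := 5)
  have k : ∀ p : VZ (15 * M) × VZ (15 * M), ((Ge 3 p.1 ∧ Ge 5 p.2) ∧ dv M p.1 p.2 = δ) ↔
      G35 p.1.1.val p.1.2.val p.2.1.val p.2.2.val ∧
        (p.1.1.val : ZMod M) * p.2.2.val - p.1.2.val * p.2.1.val = δ := fun p => by
    rw [Ge_iff, Ge_iff, G35, e3, e3, e5, e5]
    simp only [dv, ZMod.natCast_val, ZMod.cast_sub (dvd_mul_left M 15),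
      ZMod.cast_mul (dvd_mul_left M 15)]
  symm
  refine sum_nbij' (fun p => ((p.1.1.val, p.1.2.val), (p.2.1.1.val, p.2.1.2.val), p.2.2.1.val,
    p.2.2.2.val)) (fun i => ((i.1.1, i.1.2), (i.2.1.1, i.2.1.2), i.2.2.1, i.2.2.2))
    (fun p hp => ?_) (fun i hi => ?_) (fun p _ => by simp) (fun i hi => ?_) fun p _ => rfl
  · rw [mem_sI hM]
    exact ⟨⟨⟨ZMod.val_lt _, ZMod.val_lt _⟩, ⟨ZMod.val_lt _, ZMod.val_lt _⟩, ZMod.val_lt _,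
      ZMod.val_lt _⟩, (k _).1 (mem_filter.1 hp).2⟩
  · rw [mem_sI hM] at hi
    obtain ⟨⟨-, ⟨h1, h2⟩, h3, h4⟩, h⟩ := hi
    refine mem_filter.2 ⟨mem_univ _, (k _).2 ?_⟩
    simpa only [ZMod.val_cast_of_lt, h1, h2, h3, h4] using h
  · rw [mem_sI hM] at hi
    obtain ⟨⟨⟨h0, h5⟩, ⟨h1, h2⟩, h3, h4⟩, -⟩ := hi
    simp only [ZMod.val_cast_of_lt, h0, h1, h2, h3, h4, h5]

end Pool.Agent.P.MP_9c97e9_nt.K2
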