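import Pool.Agent.P.MP_9c97e9_nt.K2.IfEB

/-! The action on the indices, with the true stabilisers. -/

namespace Pool.Agent.P.MP_9c97e9_nt.K2

open scoped NNReal Matrix
open MP_8b7eba_nt.R2 KT
open Finset

/-- the action on the indices -/
def SHY : Prop :=
  ∀ q M : ℕ, q ≠ 0 → M ≠ 0 →
    (∀ i ∈ Ix q M, (M : ℤ) ∣ (dI M i : ZMod M).val - ((i.2.1.1 : ℤ) * i.2.2.2 - i.2.1.2 * i.2.2.1)) ∧
    ∀ (H : Subgroup GQ) (t : Om), (∀ g ∈ H, cy (15 * M * q) g = 1) → t ≠ 0 →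
      Fix H (t ^ (15 * M * q)) →
      ∃ (j : GQ → ℤ) (a : GQ → Ix q M → Ix q M) (S : Ix q M → Subgroup GQ), Act H a S ∧
        (∀ i, H ⊓ MulAction.stabilizer GQ t ≤ S i ∧
          (H ⊓ MulAction.stabilizer GQ t).relIndex (S i) ∣ 15 * q) ∧
        ∀ σ ∈ H, σ t = zM (15 * M * q) (j σ) * t ∧ ∀ i, (a σ i).1.1.1 = i.1.1.1 ∧
          (a σ i).1.2.1.1 = i.1.2.1.1 ∧ (a σ i).1.2.2.1 = i.1.2.2.1 ∧
          (q : ℤ) ∣ (a σ i).1.1.2 - (i.1.1.2 + 15 * i.1.1.1 * j σ) ∧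
          ((15 * M : ℕ) : ℤ) ∣ (a σ i).1.2.1.2 - (i.1.2.1.2 + 15 * i.1.2.1.1 * j σ) ∧
          ((15 * M : ℕ) : ℤ) ∣ (a σ i).1.2.2.2 - (i.1.2.2.2 + 15 * i.1.2.2.1 * j σ) ∧
          dI M (a σ i) = dI M i

/-- the symbols of the values -/
def CORY : Prop :=
  ∀ q H k K n M κ (T : ℂ_[2]) U, Cv q H k K n M κ → T ≠ 0 → ‖T‖ < 1 → T ^ (15 * M * q) ∈ ClF H →
    UV q (15 * M) T U → ∀ (X₀ : ℕ) (η : ℝ), 0 < η →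
    ∃ (X : ℕ) (t : Om) (S : Subgroup GQ) (Sf : Ix q M → Subgroup GQ) (a : GQ → Ix q M → Ix q M),
      X₀ ≤ X ∧ Fix H (t ^ (15 * M * q)) ∧ ‖i2 t‖ = ‖T‖ ∧ ‖i2 t - T‖ ≤ η ∧ w2.Loc S ∧ S ≤ H ∧
      Act H a Sf ∧ (∀ i, S ≤ Sf i ∧ Odd (S.relIndex (Sf i))) ∧
      (Eqi H a fun i => uX U i) ∧ (Eqi H a fun i => vX U i) ∧
      (Eqi H a fun i => Iv X (EPr q M i) t) ∧
      (∀ g ∈ H, ∀ i, dI M (a g i) = dI M i ∧ JPr q M (a g i) = JPr q M i) ∧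
      ‖LNm S t‖ ≤ (2 ^ K)⁻¹ ∧ ∀ i : Ix q M, uX U i ≠ 0 ∧ vX U i ≠ 0 ∧
        ‖trq (Sf i) (Iv X (EPr q M i) t)‖ ≤ (2 ^ K)⁻¹ ∧ sy (Sf i) k (uX U i) (vX U i) =
          ec (225 * q ^ 2 * κ * (dI M i : ZMod M).val * (trq (Sf i) (Iv X (EPr q M i) t) -
            JPr q M i * (LNm S t / S.relIndex (Sf i))) / 2 ^ (K + k))

end Pool.Agent.P.MP_9c97e9_nt.K2
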