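import Pool.Agent.P.MP_9c97e9_nt.K2.BasO

/-! Definitions for the chapter on the cyclotomic tower. -/

namespace Pool.Agent.P.MP_9c97e9_nt.K2

open scoped NNReal Matrix
open MP_8b7eba_nt.R2 KT
open Filter Topology Polynomial Module

export KT (la_mul la_one la_inv la_pow la_of_cyc Ps_mul)

noncomputable section

/-- the layers in which all the primes above `n` are visible -/
def Dat.Big (D : Dat) (k : ℕ) : Prop :=
  ∀ p ∈ D.n.primeFactors, (lg (un (p : ℤ_[2]))).valuation ≤ k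

/-- the number of primes above `15 n` in the tower, minus one -/
def Dat.s1 (D : Dat) : ℕ := D.sg + D.bb - 1

/-- approximate cocycles on a layer of the tower -/
structure Dat.Zp (D : Dat) (k i : ℕ) (c : GQ → V2) : Prop where
  sm : Sm (KP k) c
  int : ∀ g, ‖c g‖ ≤ 1
  co : ∀ g ∈ KP k, ∀ h ∈ KP k, ‖c (g * h) - c g - D.rp g *ᵥ c h‖ ≤ (2 ^ i)⁻¹
  unr : ∀ w : Pl, ¬ w.p ∣ 30 * D.n → ∀ g ∈ w.I, ‖c g‖ ≤ (2 ^ i)⁻¹

/-- approximate cocycles with all the local conditions -/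
structure Dat.Zm (D : Dat) (k i : ℕ) (c : GQ → V2) : Prop extends D.Zp k i c where
  nz : ‖c D.z‖ ≤ (2 ^ i)⁻¹
  ord : ∃ v, ∀ g ∈ w2.D ⊓ KP k, ‖c g 1 - (D.rp g 1 1 - 1) * v‖ ≤ (2 ^ i)⁻¹
  re : ∀ s, ‖c (ts s) + D.rp (ts s) *ᵥ c (ts s)‖ ≤ (2 ^ (i + 1))⁻¹

/-- quadratic characters of `H` which are unramified outside `30 n` and kill `z`; for `i = 0` they
are trivial at the real places, for `i = 1` a multiple of `qz D.mi` at two -/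
structure Dat.Cq (D : Dat) (H : Subgroup GQ) (i : Fin 2) (χ : GQ → ZMod 2) : Prop where
  ch : IsCh H χ
  off : ∀ g, g ∉ H → χ g = 0
  nz : χ D.z = 0
  unr : ∀ w : Pl, ¬ w.p ∣ 30 * D.n → ∀ g ∈ w.I, χ g = 0
  re : i = 0 → ∀ s, χ (ts s) = 0
  ord : i = 1 → ∃ a, ∀ g ∈ w2.D ⊓ H, χ g = a * qz D.mi g

/-- normalised cocycles at the top of the tower -/
structure Dat.XC (D : Dat) (c : GQ → V2) : Prop where
  uc : Uc KI c
  co : ∀ g ∈ KI, ∀ h ∈ KI, c (g * h) = c g + D.rp g *ᵥ c h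
  off : ∀ g, g ∉ KI → c g = 0
  nz : c D.z = 0
  ord : ∀ g ∈ w2.I, cyc g = 1 → c g 1 = 0
  unr : ∀ w : Pl, ¬ w.p ∣ 30 * D.n → ∀ g ∈ w.I, c g = 0

/-- the space of the normalised cocycles -/
def Dat.XX (D : Dat) : Submodule ℚ_[2] (GQ → V2) where
  carrier := {c | D.XC c}
  zero_mem' := ⟨(Sm.const 0).uc, by simp, by simp, by simp, by simp, by simp⟩
  add_mem' := fun {c c'} h h' => ⟨h.uc.add h'.uc, fun g hg k hk => by
      simp only [Pi.add_apply, h.co g hg k hk, h'.co g hg k hk, Matrix.mulVec_add]; abel,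
    fun g hg => by simp [h.off g hg, h'.off g hg], by simp [h.nz, h'.nz],
    fun g hg e => by simp [h.ord g hg e, h'.ord g hg e],
    fun w hw g hg => by simp [h.unr w hw g hg, h'.unr w hw g hg]⟩
  smul_mem' := fun a c h => ⟨h.uc.map (a • LinearMap.id), fun g hg k hk => by
      simp only [Pi.smul_apply, h.co g hg k hk, Matrix.mulVec_smul, smul_add],
    fun g hg => by simp [h.off g hg], by simp [h.nz], fun g hg e => by simp [h.ord g hg e],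
    fun w hw g hg => by simp [h.unr w hw g hg]⟩

/-- the lattice of the integral cocycles -/
def Dat.LL (D : Dat) : Submodule ℤ_[2] (GQ → V2) := TIW0.lat D.XX

open Classical in
/-- the action of the inverse of `s` on normalised cocycles -/
def Dat.cj (D : Dat) (s : GQ) : Module.End ℚ_[2] (GQ → V2) :=
  LinearMap.pi fun g => if g ∈ KI then
    Matrix.toLin' (D.rp s⁻¹) ∘ₗ LinearMap.proj (s * g * s⁻¹) +
      Matrix.toLin' ((2⁻¹ : ℚ_[2]) • (D.rp g - 1) * D.rp s⁻¹) ∘ₗ LinearMap.proj (s * D.z * s⁻¹)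
    else 0

theorem Dat.cj_pos (D : Dat) (s : GQ) (c : GQ → V2) {g : GQ} (hg : g ∈ KI) :
    D.cj s c g = D.rp s⁻¹ *ᵥ c (s * g * s⁻¹) + (2⁻¹ : ℚ_[2]) •
      (D.rp g *ᵥ D.rp s⁻¹ *ᵥ c (s * D.z * s⁻¹) - D.rp s⁻¹ *ᵥ c (s * D.z * s⁻¹)) := by
  rw [Dat.cj, LinearMap.pi_apply, if_pos hg]
  simp only [LinearMap.add_apply, LinearMap.comp_apply, LinearMap.proj_apply, Matrix.toLin'_apply,
    ← Matrix.mulVec_mulVec, Matrix.smul_mulVec, Matrix.sub_mulVec, Matrix.one_mulVec]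

theorem Dat.cj_neg (D : Dat) (s : GQ) (c : GQ → V2) {g : GQ} (hg : g ∉ KI) : D.cj s c g = 0 := by
  rw [Dat.cj, LinearMap.pi_apply, if_neg hg, LinearMap.zero_apply]

/-- the operator `γ⁻¹ - 1` -/
def Dat.Th (D : Dat) : Module.End ℚ_[2] (GQ → V2) := D.cj D.gm - 1

/-- the cochains which are coboundaries on inertia at the places above `p` -/
def Dat.Bad (D : Dat) (p : ℕ) : Submodule ℚ_[2] (GQ → V2) where
  carrier := {c | ∀ w : Pl, w.p = p → ∃ v, ∀ g ∈ w.I, c g = D.rp g *ᵥ v - v}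
  zero_mem' := fun w _ => ⟨0, fun g _ => by simp⟩
  add_mem' := fun {c c'} h h' w hw => by
    obtain ⟨v, hv⟩ := h w hw
    obtain ⟨v', hv'⟩ := h' w hw
    exact ⟨v + v', fun g hg => by rw [Pi.add_apply, hv g hg, hv' g hg, Matrix.mulVec_add]; abel⟩
  smul_mem' := fun a c h w hw => by
    obtain ⟨v, hv⟩ := h w hw
    exact ⟨a • v, fun g hg => by rw [Pi.smul_apply, hv g hg, Matrix.mulVec_smul, smul_sub]⟩

/-- the cocycles with the local conditions at three and five -/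
def Dat.XB (D : Dat) : Submodule ℚ_[2] (GQ → V2) := D.XX ⊓ (D.Bad 3 ⊓ D.Bad 5)

/-- the number of the invariant classes modulo the lattice -/
def Dat.h0 (D : Dat) : ℕ :=
  D.LL.toAddSubgroup.relIndex (D.XX.toAddSubgroup ⊓ D.LL.toAddSubgroup.comap D.Th.toAddMonoidHom)

end

/-! ### Arithmetic of the layers -/

/-- places of the layers -/
def LAYK : Prop :=
  (∀ k, nOrb (KP k) {w | w.p = 2} = 1 ∧ ∃ R : Set Pl, R.Finite ∧ nOrb (KP k) R = 1 ∧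
    ∀ w, Out (KP k) R w ↔ w.p ≠ 2) ∧
  (∀ w w' : Pl, w.p ∣ 30 → w'.p = w.p → ∃ u ∈ KI, u • w' = w) ∧
  ∀ (D : Dat) (k : ℕ), D.Big k → nOrb (KP k) {w | w.p ∣ 15 * D.n} = D.s1 + 1 ∧
    ∀ w : Pl, w.p ∣ 30 * D.n → ¬ w.D ⊓ KP k ≤ KP (k + 1) ∧ ∀ u ∈ KP k, ∃ u' ∈ KI, u' • w = u • w

/-- central embedding problems are solved in the next layer -/
def GTK : Prop :=
  ∀ (D : Dat) (k : ℕ) (κ : GQ → GQ → ZMod 2), D.Big k → Co2 (KP k) (sgn κ) →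
    (∀ w : Pl, ¬ w.p ∣ 30 * D.n → ∀ j ∈ w.I, ∀ g ∈ KP k, κ g j = 0 ∧ κ j g = 0) →
    (∀ s, ∀ g ∈ Subgroup.zpowers (ts s), ∀ h ∈ Subgroup.zpowers (ts s), κ g h = 0) →
    ∃ θ, Bd (KP (k + 1)) κ θ ∧ ∀ w : Pl, ¬ w.p ∣ 30 * D.n → ∀ j ∈ w.I, θ j = 0

/-- the quadratic characters at the top of the tower -/
def ZI : Prop :=
  ∀ (D : Dat) (i : Fin 2), {χ | D.Cq KI i χ}.ncard = 2 ^ D.s1 ∧
    ∀ χ, D.Cq KI i χ → ∃ m₀, ∀ m, m₀ ≤ m → ∃ χ', D.Cq (KP m) i χ' ∧ ∀ g ∈ KI, χ' g = χ g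

/-! ### The Iwasawa module -/

/-- the obstruction to lifting vanishes in the next layer -/
def OB1 : Prop :=
  ∀ (D : Dat) (k i : ℕ) (c : GQ → V2), D.Big k → D.Zm k i c →
    ∃ c', D.Zp (k + 1) (i + 1) c' ∧ D.Zm (k + 1) i c' ∧ ∀ g, ‖c' g - c g‖ ≤ (2 ^ i)⁻¹

/-- the local conditions can be restored -/
def OB2 : Prop :=
  ∀ (D : Dat) (k i : ℕ) (c : GQ → V2), D.Zp k (i + 1) c → D.Zm k i c →
    ∃ c', D.Zm k (i + 1) c' ∧ ∀ g, ‖c' g - c g‖ ≤ (2 ^ i)⁻¹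

/-- the reduction of the lattice -/
def IW1 : Prop :=
  ∀ D : Dat, (∀ c ∈ D.LL, ∀ i, D.Cq KI i fun g => TIW0.rz (c g i)) ∧
    ∀ χ : Fin 2 → GQ → ZMod 2, (∀ i, D.Cq KI i (χ i)) →
      ∃ c ∈ D.LL, ∀ g i, TIW0.rz (c g i) = χ i g

/-- the action on normalised cocycles -/
def CJ : Prop :=
  ∀ D : Dat, (∀ (s : GQ) (c : GQ → V2) (r : ℝ), (∀ g, ‖c g‖ ≤ r) → ∀ g, ‖D.cj s c g‖ ≤ r) ∧
    ∀ c ∈ D.XX, (∀ s, D.cj s c ∈ D.XX) ∧ (∀ s p, p ≠ 2 → c ∈ D.Bad p → D.cj s c ∈ D.Bad p) ∧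
      (∀ s s', D.cj (s * s') c = D.cj s' (D.cj s c)) ∧ (∀ h ∈ KI, D.cj h c = c) ∧
      ∀ ε : ℝ, 0 < ε → ∃ m, ∀ s ∈ KP m, ∀ g, ‖D.cj s c g - c g‖ ≤ ε

/-- the structure of the module -/
def IWA : Prop :=
  ∀ D : Dat, (∃ e : Fin (2 * D.s1) → GQ → V2, LinearIndependent ℚ_[2] e ∧
      D.XX = Submodule.span ℚ_[2] (Set.range e) ∧
      ∀ c, c ∈ D.LL ↔ ∃ a : Fin (2 * D.s1) → ℤ_[2], ∑ i, (a i : ℚ_[2]) • e i = c) ∧
    ∃ F, Dist F ∧ ∀ c ∈ D.XX, aeval D.Th F c = 0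

/-- the linear forms at three and five -/
def BADP : Prop :=
  ∀ (D : Dat) (p : ℕ), p = 3 ∨ p = 5 → (p ∣ D.n → D.XX ≤ D.Bad p) ∧ (¬ p ∣ D.n →
    ∃ (l : (GQ → V2) →ₗ[ℚ_[2]] ℚ_[2]) (μ : ℚ_[2]),
      (∀ c ∈ D.XX, (l c = 0 ↔ c ∈ D.Bad p) ∧ l (D.Th c) = μ * l c) ∧ ‖μ‖ = (D.eu p : ℝ)⁻¹)

/-- the determinant on a subspace of codimension one -/
def DET1 : Prop :=
  ∀ (V : Type) [AddCommGroup V] [Module ℚ_[2] V] (X Y : Submodule ℚ_[2] V)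
    [FiniteDimensional ℚ_[2] X] [FiniteDimensional ℚ_[2] Y] (T : Module.End ℚ_[2] V)
    (hX : ∀ x ∈ X, T x ∈ X) (hY : ∀ x ∈ Y, T x ∈ Y) (l : V →ₗ[ℚ_[2]] ℚ_[2]) (μ : ℚ_[2]),
    (∀ x, x ∈ Y ↔ x ∈ X ∧ l x = 0) → (∀ x ∈ X, l (T x) = μ * l x) →
    finrank ℚ_[2] X ≤ finrank ℚ_[2] Y + 1 ∧ (finrank ℚ_[2] X = finrank ℚ_[2] Y + 1 →
      ‖LinearMap.det (T.restrict hX)‖ = ‖(T.restrict hY).charpoly.eval 0‖ * ‖μ‖)

/-- complex conjugations are not triangular modulo eight -/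
def RTS : Prop := ∀ s : GQ, ‖T2.rho (ts s) 1 0‖ = 4⁻¹

/-- the Selmer group at the top of the tower is divisible -/
def BR : Prop := ∀ (D : Dat) (c : GQ → A0), D.SP KI c ↔ ∃ x ∈ D.XX, ∀ g, c g = p0 (x g)

/-- invariant cocycles extend -/
def EXT : Prop :=
  ∀ (D : Dat) (c : GQ → A0) (v : A0) (i : ℕ), D.SP KI c → 2 ^ i • v = 0 →
    (∀ g ∈ KI, c (D.gm * g * D.gm⁻¹) =
      D.a0 D.gm (c g) + v - D.a0 (D.gm * g * D.gm⁻¹) v) →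
    ∃ c', D.SP ⊤ c' ∧ (∀ g ∈ KI, c' g = c g) ∧ c' D.gm = v

/-- the order of the Selmer group over the rationals -/
def EUL : Prop := ∀ D : Dat, D.SP ⊤ 0 ∧ {c | D.SP ⊤ c}.ncard = 4 * D.h0

/-- descent from the top of the tower -/
def DSC : Prop :=
  ∀ (D : Dat) (A : Type) [NormedCommRing A] [NormedAlgebra ℚ_[2] A] [IsUltrametricDist A]
    [FiniteDimensional ℚ_[2] A] (ψ : ℤ_[2] → A), IsPsi ψ →
    ∀ M : Submodule A (GQ → Fin 2 → A), (∀ ξ ∈ M, ∀ t : A →ₗ[ℚ_[2]] ℚ_[2],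
      (fun g i => t (ξ g i)) ∈ D.XB ∧
      D.cj D.gm (fun g i => t (ξ g i)) = fun g i => t (ψ 1 * ξ g i)) →
      ∃ L : M →ₗ[A] GS → Fin 2 → A, Function.Injective L ∧ ∀ ξ, D.Sel ψ (L ξ)

/-- the lower bound -/
def LBK : Prop :=
  ∀ (D : Dat) [FiniteDimensional ℚ_[2] D.XB] (h : ∀ c ∈ D.XB, D.Th c ∈ D.XB),
    D.LB (D.Th.restrict h).charpoly

end Pool.Agent.P.MP_9c97e9_nt.K2
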