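import Pool.Agent.P.MP_9c97e9_nt.K2.BasO

/-! Definitions and statements of the chapter L of the project K2. -/

namespace Pool.Agent.P.MP_9c97e9_nt.K2

open scoped NNReal Matrix
open MP_8b7eba_nt.R2 KT
open MP_8b7eba_nt.R3 (twa)
open Filter Topology Polynomial

noncomputable section

/-- the coboundary of a point -/
def Dat.cb (D : Dat) (P : EO) (g : GQ) : EO := tac D.dl g P - P

theorem Dat.cb_add (D : Dat) (P Q : EO) (g : GQ) : D.cb (P + Q) g = D.cb P g + D.cb Q g := by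
  simp only [Dat.cb, map_add]; abel

theorem Dat.cb_neg (D : Dat) (P : EO) (g : GQ) : D.cb (-P) g = -D.cb P g := by
  simp only [Dat.cb, map_neg]; abel

theorem Dat.cb_zero (D : Dat) (g : GQ) : D.cb 0 g = 0 := by simp [Dat.cb]

/-- cocycles on `H` with values in the torsion points -/
def Dat.ZH (D : Dat) (H : Subgroup GQ) : AddSubgroup (GQ → EO) where
  carrier := {c | Sm H c ∧ (∀ g ∈ H, ∀ h ∈ H, c (g * h) = c g + tac D.dl g (c h)) ∧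
    (∀ g, g ∉ H → c g = 0) ∧ ∃ i : ℕ, ∀ g, 2 ^ i • c g = 0}
  zero_mem' := ⟨Sm.const 0, by simp, by simp, 0, by simp⟩
  add_mem' := fun {c d} ⟨a1, a2, a3, i, a4⟩ ⟨b1, b2, b3, j, b4⟩ =>
    ⟨a1.comp₂ b1 (· + ·), fun g hg h hh => by
      simp only [Pi.add_apply, a2 g hg h hh, b2 g hg h hh, map_add]; abel,
    fun g hg => by simp [a3 g hg, b3 g hg], i + j, fun g => by
      rw [Pi.add_apply, smul_add, pow_add, mul_smul _ _ (d g), b4, mul_comm, mul_smul, a4]; simp⟩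
  neg_mem' := fun {c} ⟨a1, a2, a3, i, a4⟩ =>
    ⟨a1.comp Neg.neg, fun g hg h hh => by
      simp only [Pi.neg_apply, a2 g hg h hh, map_neg]; abel,
    fun g hg => by simp [a3 g hg], i, fun g => by simp [a4 g]⟩

/-- cocycles which come from points -/
def Dat.LH (D : Dat) (H : Subgroup GQ) : AddSubgroup (GQ → EO) where
  carrier := {c | c ∈ D.ZH H ∧ ∃ P, ∀ g ∈ H, c g = D.cb P g}
  zero_mem' := ⟨zero_mem _, 0, fun g _ => (D.cb_zero g).symm⟩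
  add_mem' := fun ⟨a, P, hP⟩ ⟨b, Q, hQ⟩ => ⟨add_mem a b, P + Q, fun g hg => by
    rw [Pi.add_apply, hP g hg, hQ g hg, D.cb_add]⟩
  neg_mem' := fun ⟨a, P, hP⟩ => ⟨neg_mem a, -P, fun g hg => by
    rw [Pi.neg_apply, hP g hg, D.cb_neg]⟩

/-- coboundaries of torsion points -/
def Dat.BH (D : Dat) (H : Subgroup GQ) : AddSubgroup (GQ → EO) where
  carrier := {c | c ∈ D.ZH H ∧ ∃ P, Tp P ∧ ∀ g ∈ H, c g = D.cb P g}
  zero_mem' := ⟨zero_mem _, 0, ⟨0, by simp⟩, fun g _ => (D.cb_zero g).symm⟩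
  add_mem' := fun ⟨a, P, tP, hP⟩ ⟨b, Q, tQ, hQ⟩ => ⟨add_mem a b, P + Q, tP.add tQ, fun g hg => by
    rw [Pi.add_apply, hP g hg, hQ g hg, D.cb_add]⟩
  neg_mem' := fun ⟨a, P, tP, hP⟩ => ⟨neg_mem a, -P, tP.neg, fun g hg => by
    rw [Pi.neg_apply, hP g hg, D.cb_neg]⟩

/-- local cocycles at two with values in the kernel of the reduction -/
def Dat.ZE (D : Dat) : AddSubgroup (GQ → EO) where
  carrier := {c | c ∈ D.ZH w2.D ∧ ∀ g, c g ∈ EG w2}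
  zero_mem' := ⟨zero_mem _, fun _ => zero_mem _⟩
  add_mem' := fun a b => ⟨add_mem a.1 b.1, fun g => add_mem (a.2 g) (b.2 g)⟩
  neg_mem' := fun a => ⟨neg_mem a.1, fun g => neg_mem (a.2 g)⟩

/-- cochains which are coboundaries on `S` modulo the kernel of the reduction -/
def Dat.CS (D : Dat) (S : Subgroup GQ) : AddSubgroup (GQ → EO) where
  carrier := {c | ∃ P, Tp P ∧ ∀ g ∈ S, c g - D.cb P g ∈ EG w2}
  zero_mem' := ⟨0, tp_zero, fun g _ => by simp [D.cb_zero]⟩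
  add_mem' := fun ⟨P, tP, hP⟩ ⟨Q, tQ, hQ⟩ => ⟨P + Q, tP.add tQ, fun g hg => by
    rw [Pi.add_apply, D.cb_add, add_sub_add_comm]; exact add_mem (hP g hg) (hQ g hg)⟩
  neg_mem' := fun ⟨P, tP, hP⟩ => ⟨-P, tP.neg, fun g hg => by
    rw [Pi.neg_apply, D.cb_neg, ← neg_sub']; exact neg_mem (hP g hg)⟩

/-- local cocycles at two which are strictly ordinary on `S` -/
def Dat.ZS (D : Dat) (S : Subgroup GQ) : AddSubgroup (GQ → EO) where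
  carrier := {c | c ∈ D.ZH w2.D ∧ c ∈ D.CS S}
  zero_mem' := ⟨zero_mem _, zero_mem _⟩
  add_mem' := fun a b => ⟨add_mem a.1 b.1, add_mem a.2 b.2⟩
  neg_mem' := fun a => ⟨neg_mem a.1, neg_mem a.2⟩

/-- local cocycles at two modulo the kernel of the reduction -/
structure Dat.ZQ (D : Dat) (b : GQ → EO) : Prop where
  sm : Sm w2.D b
  tp : ∀ g, Tp (b g)
  co : ∀ g ∈ w2.D, ∀ h ∈ w2.D, b (g * h) - b g - tac D.dl g (b h) ∈ EG w2

open Classical in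
/-- the relaxed local conditions -/
def Dat.ZO (D : Dat) (w : Pl) : AddSubgroup (GQ → EO) :=
  if w = w2 then D.ZS (w2.D ⊓ KI) else D.ZH w.D

/-- the relaxed Selmer group -/
def Dat.SG (D : Dat) : AddSubgroup (GQ → EO) where
  carrier := {c | D.SH ⊤ c}
  zero_mem' := ⟨Sm.const 0, by simp, by simp, ⟨0, by simp⟩, rfl, (D.CS _).zero_mem,
    fun _ _ _ _ => rfl, fun _ => ⟨0, by simp⟩⟩
  add_mem' := fun {c d} a b => by
    obtain ⟨h1, h2, h3, h4⟩ :=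
      (D.ZH ⊤).add_mem ⟨a.sm, a.co, a.off, a.tor⟩ ⟨b.sm, b.co, b.off, b.tor⟩
    refine ⟨h1, h2, h3, h4, by simp [a.nz, b.nz], (D.CS _).add_mem a.ord b.ord,
      fun w hw g hg => by simp [a.unr w hw g hg, b.unr w hw g hg], fun s => ?_⟩
    obtain ⟨P, hP⟩ := a.re s
    obtain ⟨Q, hQ⟩ := b.re s
    exact ⟨P + Q, by rw [Pi.add_apply, hP, hQ]; exact (D.cb_add P Q _).symm⟩
  neg_mem' := fun {c} a => by
    obtain ⟨h1, h2, h3, h4⟩ := (D.ZH ⊤).neg_mem ⟨a.sm, a.co, a.off, a.tor⟩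
    refine ⟨h1, h2, h3, h4, by simp [a.nz], (D.CS _).neg_mem a.ord,
      fun w hw g hg => by simp [a.unr w hw g hg], fun s => ?_⟩
    obtain ⟨P, hP⟩ := a.re s
    exact ⟨-P, by rw [Pi.neg_apply, hP]; exact (D.cb_neg P _).symm⟩

/-- the structure of the torsion points at three and five -/
structure Dat.S35 (D : Dat) (w : Pl) (t φ : GQ) (E F : ℚ_[2] →+ EO) (u a : ℚ_[2]) : Prop where
  hu : ‖u‖ = 1
  ha : ‖a‖ ≤ 1
  ker : ∀ x y, E x + F y = 0 ↔ ‖x‖ ≤ 1 ∧ ‖y‖ ≤ 1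
  tp : ∀ P, Tp P ↔ ∃ x y, P = E x + F y
  IE : ∀ g ∈ w.I, ∀ x, tac D.dl g (E x) = E x
  tF : ∀ y, tac D.dl t (F y) = F y + E (4 * u * y)
  fE : ∀ x, tac D.dl φ (E x) = E (D.ep w.p * w.p * x)
  fF : ∀ y, tac D.dl φ (F y) = F (D.ep w.p * y) + E (a * y)

/-- `ι` identifies the twisted action with the action on the twist -/
def Dat.Eqv (D : Dat) (ι : EO ≃+ Pt (twa D.d) Om) : Prop :=
  ∀ (g : GQ) (P : EO), pm (twa D.d) (g : Om →+* Om) (ι P) = ι (tac D.dl g P)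

/-- a number which is not a norm at two -/
def Dat.s2c (D : Dat) : ℤ := if D.e = 1 then 2 else if D.e = -1 then -1 else 5

/-- quadratic characters which are unramified outside `30 n` and kill `z` -/
def Dat.HC (D : Dat) (χ : GQ → ZMod 2) : Prop :=
  IsCh ⊤ χ ∧ χ D.z = 0 ∧ ∀ w : Pl, ¬ w.p ∣ 30 * D.n → ∀ g ∈ w.I, χ g = 0

/-- the ordinary condition for characters -/
def Dat.OC (D : Dat) (χ : GQ → ZMod 2) : Prop := ∃ a, ∀ g ∈ w2.D ⊓ KI, χ g = a * qz D.mi g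

/-- characters which give coboundaries in the first line -/
def Dat.Gd (D : Dat) (χ : GQ → ZMod 2) : Prop := ∃ P, ∀ g ∈ w2.D, D.cb P g = s2 (χ g) 0

/-- the number of primes dividing `15 n` -/
def Dat.om (D : Dat) : ℕ := (15 * D.n).primeFactors.card

/-- `b` is a half of `c` which is a cocycle modulo the point `S` -/
structure Dat.Hf (D : Dat) (H : Subgroup GQ) (S : EO) (c b : GQ → EO) : Prop where
  sm : Sm H b
  two : ∀ g ∈ H, 2 • b g = c g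
  co : ∀ g ∈ H, ∀ h ∈ H, b (g * h) = b g + tac D.dl g (b h) ∨ b (g * h) = b g + tac D.dl g (b h) + S

/-- the isogeny from the second lattice to the first one -/
def Dat.ph (D : Dat) : A0 →+ EO :=
  QuotientAddGroup.lift B0 (T2.pt.comp (Matrix.toLin' !![1, D.eps; 0, 2]).toAddMonoidHom)
    fun v (hv : ‖v‖ ≤ 1) => (T2.ker _).2 ((mulVec_le (fun i j => by
      have := SelA.two
      fin_cases i <;> fin_cases j <;> rcases D.eps_cases with e | e <;> simp [e, this]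
      all_goals norm_num) v).trans ((one_mul _).trans_le hv))

end

/-! ### Odd places -/

/-- a local cocycle is determined by its values at the two generators -/
def LTU : Prop :=
  ∀ (D : Dat) (w : Pl) (t : GQ), w.p ≠ 2 → Gn w t → ∀ c ∈ D.ZH w.D,
    (c t = 0 → ∀ g ∈ w.I, c g = 0) ∧ ∀ φ, w.IsFrob 1 φ → (c t = 0 → c φ = 0 → c = 0) ∧
      tac D.dl φ (c t) - ∑ i ∈ Finset.range w.p, tac D.dl (t ^ i) (c t) =
        tac D.dl (t ^ w.p) (c φ) - c φ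

/-- existence of local cocycles with given values at the two generators -/
def LTZ : Prop :=
  ∀ (D : Dat) (w : Pl) (t φ : GQ), w.p ≠ 2 → Gn w t → w.IsFrob 1 φ → ∀ a b : EO, Tp a → Tp b →
    tac D.dl φ a - ∑ i ∈ Finset.range w.p, tac D.dl (t ^ i) a = tac D.dl (t ^ w.p) b - b →
    ∃ c ∈ D.ZH w.D, c t = a ∧ c φ = b

/-- the primes which divide `n` -/
def LN : Prop :=
  ∀ (D : Dat) (w : Pl), w.p ∣ D.n →
    Lq (D.LH w.D) (D.ZH w.D) 4 ∧ ∀ c ∈ D.ZH w.D, 2 • c ∈ D.LH w.D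

/-- the structure of the torsion points at three and five -/
def LS35 : Prop :=
  ∀ (D : Dat) (w : Pl) (t φ : GQ), w.p ∣ 15 → ¬ w.p ∣ D.n → Gn w t → w.IsFrob 1 φ →
    ∃ E F u a, D.S35 w t φ E F u a

/-- the local cohomology at three and five -/
def L35 : Prop :=
  ∀ (D : Dat) (w : Pl), w.p ∣ 15 → ¬ w.p ∣ D.n → Lq (D.BH w.D) (D.ZH w.D) (D.N w.p)

/-- the Kummer image at three and five -/
def LK35 : Prop := ∀ (D : Dat) (w : Pl), w.p ∣ 15 → ¬ w.p ∣ D.n → D.LH w.D = D.BH w.D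

/-! ### The place above two -/

/-- cocycles which are ordinary -/
def LO1 : Prop :=
  ∀ D : Dat, D.LH w2.D ≤ D.ZS w2.D ∧ ∀ c ∈ D.ZE, c ∈ D.BH w2.D → ∃ c' ∈ D.ZE, c = 2 • c'

/-- cocycles which become ordinary at the top of the tower -/
def LO2 : Prop :=
  ∀ D : Dat, ∃ y ∈ D.ZS (w2.D ⊓ KI),
    (∀ b, D.ZQ b → b ∈ D.CS (w2.D ⊓ KI) → ∃ m : ℤ, b - m • y ∈ D.CS w2.D) ∧
    ∀ m : ℤ, m • y ∈ D.CS w2.D ↔ (D.nn : ℤ) ∣ m

/-- local points -/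
def LK : Prop :=
  ∀ (D : Dat) (a c : ℤ), a ≠ 0 → c ≠ 0 →
    Sq w2.D (((a ^ 2 - 9 * D.d * c ^ 2) * (a ^ 2 - 25 * D.d * c ^ 2) : ℤ) : Om) →
    D.Gd (qz (a ^ 2 - 9 * D.d * c ^ 2))

/-- the characters modulo the Kummer image -/
def LGD : Prop :=
  ∀ (D : Dat) (χ : GQ → ZMod 2), IsCh w2.D χ →
    ∃ b : ZMod 2, D.Gd fun g => χ g + b * qz D.s2c g

/-- a cocycle which is not divisible by two -/
def LYY : Prop :=
  ∀ D : Dat, ∃ y ∈ D.ZE, (∀ g ∈ w2.D, (D.nn / 2) • y g = s2 (qz D.s2c g) 0) ∧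
    ∀ z ∈ D.ZE, y ≠ 2 • z

/-- ordinary cocycles modulo the Kummer image -/
def LO3 : Prop := ∀ D : Dat, Cyc (D.LH w2.D) (D.ZS w2.D) D.nn

/-- the ordinary condition for classes of order two -/
def LSI : Prop :=
  ∀ (D : Dat) (b : GQ → ZMod 2),
    D.OC b ↔ ∃ t : ℚ_[2], ∀ g ∈ w2.D ⊓ KI, ‖(b g).val / 2 - (D.rd g 1 1 - 1) * t‖ ≤ 1

/-! ### Global cocycles -/

/-- the real place -/
def LRE : Prop :=
  ∀ (D : Dat) (P : EO), Tp (D.cb P tau) → ∃ Q, Tp Q ∧ D.cb P tau = D.cb Q tau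

/-- the number of characters -/
def LCH : Prop :=
  ∀ D : Dat, {χ | D.HC χ}.ncard = 2 * 2 ^ D.om ∧ {χ | D.HC χ ∧ χ tau = 0}.ncard = 2 ^ D.om ∧
    {χ | D.HC χ ∧ D.OC χ}.ncard = 2 ^ D.om ∧
    2 * {χ | D.HC χ ∧ D.OC χ ∧ χ tau = 0}.ncard = 2 ^ D.om

/-- global halving -/
def LD1 : Prop :=
  ∀ (D : Dat) (c : GQ → EO), D.SH ⊤ c → (∀ p : ℕ, p.Prime → p ∣ 30 * D.n → p ≠ D.wz.p →
    ∃ w : Pl, w.p = p ∧ ∃ c' ∈ D.ZH w.D, ∀ g ∈ w.D, c g = 2 • c' g) →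
    ∃ c' ∈ D.ZH ⊤, c = 2 • c' ∧ ∀ w : Pl, ¬ w.p ∣ 30 * D.n → ∀ g ∈ w.I, c' g = 0

/-- normalisation of the half -/
def LD2 : Prop :=
  ∀ (D : Dat) (c c' : GQ → EO), D.SH ⊤ c → c' ∈ D.ZH ⊤ → c = 2 • c' →
    (∀ w : Pl, ¬ w.p ∣ 30 * D.n → ∀ g ∈ w.I, c' g = 0) →
    (∃ z ∈ D.ZS (w2.D ⊓ KI), ∃ P, ∀ g ∈ w2.D, c g = 2 • z g + D.cb P g) →
    ∃ c'', D.SH ⊤ c'' ∧ c = 2 • c''

/-- many classes of order two -/
def LCN : Prop :=
  ∀ D : Dat, ∃ s : Finset (GQ → EO), 4 ^ D.om ≤ s.card ∧ ∀ c ∈ s, D.SH ⊤ c ∧ 2 • c = 0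

/-- the classical Selmer group inside the relaxed one -/
def LKE : Prop :=
  ∀ (D : Dat) (c : GQ → EO), c ∈ D.SelN ↔ D.SH ⊤ c ∧ ∀ p : ℕ, p.Prime → p ∣ 30 * D.n →
    ∃ w : Pl, w.p = p ∧ ∃ P, ∀ g ∈ w.D, c g = D.cb P g

/-! ### The Tate-Shafarevich group -/

/-- a torsion cocycle which comes from a local point comes from an algebraic point -/
def LAL : Prop :=
  ∀ (d : ℤ), d ≠ 0 → ∀ (K : Type) [Field K] [CharZero K], Apx K →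
    ∀ (c : GQ → Pt (twa d) Om) (i : ℕ), (∀ g, 2 ^ i • c g = 0) → LocTriv (twa d) K c →
      ∃ P : Pt (twa d) Om, ∀ (σ : Gal K) (τ : GQ), (∀ x, emb ℚ K (τ x) = σ (emb ℚ K x)) →
        c τ = pm (twa d) (τ : Om →+* Om) P - P

/-- Selmer cocycles define elements of the Tate-Shafarevich group, and all of them arise -/
def LSM : Prop :=
  ∀ (D : Dat) (ι : EO ≃+ Pt (twa D.d) Om), D.Eqv ι →
    (∀ c ∈ D.SelN, (fun g => ι (c g)) ∈ shaCocycles (twa D.d)) ∧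
    ∀ C ∈ shaCocycles (twa D.d), ∀ i : ℕ, 2 ^ i • C ∈ coboundaries (twa D.d) →
      ∃ c ∈ D.SelN, C - (fun g => ι (c g)) ∈ coboundaries (twa D.d)

/-- the model of the twist and its rational points -/
def LSF : Prop :=
  ∀ D : Dat, (∃ ι, D.Eqv ι) ∧ (D.SelN.Finite → Finite (Pt (twa D.d) ℚ)) ∧
    (Finite (Pt (twa D.d) ℚ) → ∀ c ∈ D.SelN, ∀ P, (∀ g, c g = D.cb P g) → c = 0)

/-! ### The change of lattice -/

/-- the abstract count -/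
def LAB2 : Prop :=
  ∀ (X : Type) [AddCommGroup X] (ι : Type) [Fintype ι] (G : AddSubgroup X) (r : ι → X →+ X)
    (M F Z : ι → Set X), (∀ i, ∀ g ∈ G, r i g ∈ Z i) →
    (∀ i, 0 ∈ M i ∧ M i ⊆ F i ∧ (∀ x ∈ M i, ∀ y ∈ M i, x - y ∈ M i) ∧
      (∀ x ∈ F i, ∀ y ∈ F i, x - y ∈ F i) ∧
      (∀ x ∈ F i, ∀ y ∈ F i, x ∉ M i → y ∉ M i → x - y ∈ M i) ∧
      ∀ x ∈ Z i, ∀ y ∈ Z i, x ∉ F i → y ∉ F i → x - y ∈ F i) →
    (∀ g ∈ G, (∀ i, r i g ∈ M i) → ∃ g' ∈ G, g = 2 • g') →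
    (∃ s : Finset X, 4 ^ Fintype.card ι ≤ s.card ∧ ∀ g ∈ s, g ∈ G ∧ 2 • g = 0) →
    ((G : Set X).Finite ↔ {g | g ∈ G ∧ ∀ i, r i g ∈ F i}.Finite) ∧
      (G : Set X).ncard = 2 ^ Fintype.card ι * {g | g ∈ G ∧ ∀ i, r i g ∈ F i}.ncard

/-- the two components of the local obstruction to halving -/
def LOB : Prop :=
  ∀ (D : Dat) (w : Pl), ∀ c ∈ D.ZH w.D,
    (∀ b b', D.Hf w.D (pE 2⁻¹) c b → D.Hf w.D (pF 2⁻¹) c b' → ∃ c' ∈ D.ZH w.D, c = 2 • c') ∧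
    ∀ c' ∈ D.ZH w.D, ∀ S, S = pE 2⁻¹ ∨ S = pF 2⁻¹ →
      (∀ b b', D.Hf w.D S c b → D.Hf w.D S c' b' → D.Hf w.D S (c - c') (b - b')) ∧
      ((¬ ∃ b, D.Hf w.D S c b) → (¬ ∃ b, D.Hf w.D S c' b) → ∃ b, D.Hf w.D S (c - c') b)

/-- ordinary cocycles have halves modulo the first point of order two -/
def LOH : Prop :=
  ∀ (D : Dat) (c y : GQ → EO), c ∈ D.ZH w2.D → y ∈ D.ZH w2.D → c - 2 • y ∈ D.CS w2.D →
    ∃ b, D.Hf w2.D (pE 2⁻¹) c b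

/-- the image of the Selmer group of the second lattice -/
def TRA : Prop :=
  ∀ (D : Dat) (c : GQ → A0), D.SP ⊤ c → D.SH ⊤ (fun g => D.ph (c g)) ∧
    (∃ b, D.Hf ⊤ (pE 2⁻¹) (fun g => D.ph (c g)) b) ∧
    ∃ y ∈ D.ZS (w2.D ⊓ KI), (fun g => D.ph (c g)) - 2 • y ∈ D.CS w2.D

/-- global halves modulo the first point of order two -/
def TRH : Prop :=
  ∀ (D : Dat) (c : GQ → EO), D.SH ⊤ c → (∀ p : ℕ, p.Prime → p ∣ 30 * D.n → p ≠ D.wz.p →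
    ∃ w : Pl, w.p = p ∧ ∃ b, D.Hf w.D (pE 2⁻¹) c b) →
    ∃ b, D.Hf ⊤ (pE 2⁻¹) c b ∧ ∀ w : Pl, ¬ w.p ∣ 30 * D.n → ∀ g ∈ w.I, b g = 0

/-- lifting to the second lattice -/
def TRB : Prop :=
  ∀ (D : Dat) (c b : GQ → EO), D.SH ⊤ c → D.Hf ⊤ (pE 2⁻¹) c b →
    (∀ w : Pl, ¬ w.p ∣ 30 * D.n → ∀ g ∈ w.I, b g = 0) →
    (∃ y ∈ D.ZS (w2.D ⊓ KI), c - 2 • y ∈ D.CS w2.D) →
    ∃ c', D.SP ⊤ c' ∧ ∀ g, D.ph (c' g) = c g

/-- the kernel of the change of lattice -/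
def TRK : Prop :=
  ∀ D : Dat, (if D.d < 0 then 1 else 2) * {c | D.SP ⊤ c ∧ ∀ g, D.ph (c g) = 0}.ncard = 2 ^ D.om

end Pool.Agent.P.MP_9c97e9_nt.K2
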