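import Pool.Agent.P.MP_9c97e9_nt.K2.IfX

/-! The statements on the trace computation. -/

namespace Pool.Agent.P.MP_9c97e9_nt.K2

open scoped NNReal Matrix
open MP_8b7eba_nt.R2 KT
open Finset

/-- partial sums of twisted modular symbols -/
def YY (d : ℤ) (n i : ℕ) (c : ℤ) : ℤ :=
  ∑ ν ∈ range (n * 2 ^ i), if (2 ^ i : ℤ) ∣ ν - c then jacobiSym ν n * nx d ν (n * 2 ^ i : ℕ) else 0

/-- the stabilised symbols -/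
noncomputable def ms0 (d : ℤ) (n k ν : ℕ) : ℚ_[2] :=
  jacobiSym ν n * (nx d ν (n * 2 ^ (k + 2) : ℕ) - al0⁻¹ * nx d (2 * ν : ℕ) (n * 2 ^ (k + 2) : ℕ))

/-- the Gauss sum reduction -/
def TEL0 : Prop :=
  ∀ (D : Dat) (k : ℕ) (ζ : Om), 1 ≤ k → IsPrimitiveRoot ζ (2 ^ (k + 2)) →
    ∃ (κ : (ZMod (2 ^ (k + 2)))ˣ) (s : ℤˣ), ∀ W : (ZMod (2 ^ (k + 2)))ˣ → ℤ,
      D.XW k W * D.dl0 = (s : ℤ) * D.n * ∑ ε, (ce D.e ε * W ε : ℤ) *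
        ∑ ν ∈ range (D.n * 2 ^ (k + 2)), (jacobiSym ν D.n * ns ν (D.n * 2 ^ (k + 2) : ℕ) : ℤ) *
          ζ ^ (ν * ((κ * ε : (ZMod (2 ^ (k + 2)))ˣ) : ZMod (2 ^ (k + 2))).val)

/-- only the symbols with the sign of the twist contribute -/
def TEL1 : Prop :=
  ∀ (D : Dat) (k : ℕ) (ζ : Om), 1 ≤ k → IsPrimitiveRoot ζ (2 ^ (k + 2)) →
    ∃ (κ : (ZMod (2 ^ (k + 2)))ˣ) (s : ℤˣ), ∀ W : (ZMod (2 ^ (k + 2)))ˣ → ℤ, (∀ δ, W (-δ) = W δ) →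
      D.XW k W * D.dl0 = (s : ℤ) * D.n * ∑ ε, (ce D.e ε * W ε : ℤ) *
        ∑ ν ∈ range (D.n * 2 ^ (k + 2)), (jacobiSym ν D.n * nx D.d ν (D.n * 2 ^ (k + 2) : ℕ) : ℤ) *
          ζ ^ (ν * ((κ * ε : (ZMod (2 ^ (k + 2)))ˣ) : ZMod (2 ^ (k + 2))).val)

/-- the Hecke relations at two -/
def TEL3 : Prop :=
  ∀ (d : ℤ) (n : ℕ), Odd n → (∀ i c m, YY d n i (c + 2 ^ i * m) = YY d n i c) ∧
    (∀ i c, YY d n (i + 2) c + YY d n (i + 2) (c + 2 ^ (i + 1)) = -YY d n (i + 1) c - YY d n i c) ∧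
    (∀ i c, YY d n (i + 1) (2 * c) = jacobiSym 2 n * YY d n i c) ∧
    YY d n 1 1 = -(1 + 2 * jacobiSym 2 n) * YY d n 0 0

/-- the telescoping sum -/
def TEL4 : Prop :=
  ∀ (d : ℤ) (n k : ℕ) (x c : ℤ), Odd n → (2 ^ (k + 2) : ℤ) ∣ x * c + 1 →
    ∑ ν ∈ range (n * 2 ^ (k + 2)), (jacobiSym ν n * nx d ν (n * 2 ^ (k + 2) : ℕ) : ℤ) *
      ∑ j ∈ range (k + 2), (jacobiSym 2 n * al0 / 2) ^ j *
        (tq (k + 2) (ν * x + 2 ^ j) - tq (k + 2) (ν * x)) =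
      ∑ ν ∈ (oddR n k).filter (fun ν : ℕ => (2 ^ (k + 2) : ℤ) ∣ ν - c), ms0 d n k ν -
        jacobiSym 2 n ^ k * YY d n 0 0 * (jacobiSym 2 n + 3) / (2 - jacobiSym 2 n * al0)

end Pool.Agent.P.MP_9c97e9_nt.K2
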