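import Pool.Agent.P.MP_9c97e9_nt.K2.Defs

/-! Statements for the sixteen twists by the divisors of thirty. -/

namespace Pool.Agent.P.MP_9c97e9_nt.K2

open MP_8b7eba_nt.R3 (twa)

/-- the twists of rank zero -/
def Z0 : List ℤ := [1, -1, 2, -2, -3, 5, -5, 6, -15, -30]

/-- the twists of rank one -/
def Z1 : List ℤ := [3, -6, 10, -10, 15, 30]

/-- the classes of the torsion points of `y ^ 2 = x (x + 9 d) (x - 16 d)` -/
def Gs (d : ℤ) : List (ℤ × ℤ) :=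
  if d = 1 then [(1, 1), (-1, 1), (1, 5), (-1, 5)] else
    if d = -1 then [(1, 1), (-1, -1), (6, 15), (-6, -15)] else [(1, 1), (-1, d), (-d, 1), (d, d)]

/-- the products of the Tamagawa numbers -/
def Pz (d : ℤ) : ℕ :=
  (if d % 4 = 1 then 1 else 4) * (if d % 3 = 1 then 2 else 4) *
    if d % 5 = 2 ∨ d % 5 = 3 then 2 else 4

/-- the 2-covering has a primitive point modulo `N` -/
def Md (p N : ℕ) (d a b : ℤ) : Prop :=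
  ∃ u t r s v : ℤ, (t = 1 ∨ u = a ∧ (p : ℤ) ∣ t ∧ ¬ (p : ℤ) ∣ a) ∧ u ≡ a * r ^ 2 [ZMOD N] ∧
    u + 9 * d * t ^ 2 ≡ b * s ^ 2 [ZMOD N] ∧
    u - 16 * d * t ^ 2 ≡ a / Int.gcd a b * (b / Int.gcd a b) * v ^ 2 [ZMOD N]

/-- a local point gives a point modulo the powers of the prime -/
def SLIFT : Prop :=
  ∀ (p : ℕ) [Fact p.Prime] (k : ℕ) (d a b : ℤ), Squarefree a → Squarefree b →
    Loc ℚ_[p] 0 (-9 * d) (16 * d) a b → Md p (p ^ k) d a b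

/-- the finite computation -/
def SDEC : Prop :=
  ∀ d ∈ Z0, ∀ a b : ℤ, a ∣ 30 → b ∣ 30 → (0 < d → 0 < b) → (d < 0 → 0 < a * b) →
    Md 2 (2 ^ 5) d a b → Md 3 (3 ^ 4) d a b → Md 5 (5 ^ 4) d a b → (a, b) ∈ Gs d

/-- the 2-Selmer groups -/
def SSEL : Prop :=
  ∀ d ∈ Z0, ∀ a b : ℚ, a ≠ 0 → b ≠ 0 → Loc ℝ 0 (-9 * d) (16 * d) a b →
    (∀ (p : ℕ) [Fact p.Prime], Loc ℚ_[p] 0 (-9 * d) (16 * d) a b) →
    ∃ g ∈ Gs d, IsSquare (a * g.1) ∧ IsSquare (b * g.2)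

/-- the Hasse principle for the 2-coverings kills the 2-torsion of the Tate-Shafarevich group -/
def SSHA : Prop :=
  ∀ (W : WeierstrassCurve ℤ) (e₁ e₂ e₃ : ℚ), Split W e₁ e₂ e₃ →
    (∀ d₁ d₂ : ℚ, d₁ ≠ 0 → d₂ ≠ 0 → Loc ℝ e₁ e₂ e₃ d₁ d₂ →
      (∀ (p : ℕ) [Fact p.Prime], Loc ℚ_[p] e₁ e₂ e₃ d₁ d₂) → Loc ℚ e₁ e₂ e₃ d₁ d₂) →
    ∀ x : Sha W, x + x = 0 → x = 0

open Classical in
/-- descent -/
def SFIN : Prop :=
  ∀ (W : WeierstrassCurve ℤ) (a b : ℚ), Split W 0 a b →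
    (∀ P : Pt W ℚ, ∃ T : Pt W ℚ, T + T + (T + T) = 0 ∧ IsSquare (dl 0 a b P * dl 0 a b T) ∧
      IsSquare (dl a 0 b P * dl a 0 b T)) → Finite (Pt W ℚ)

/-- the groups for the twists of rank zero -/
def SZ0 : Prop := ∀ d ∈ Z0, Finite (Pt (twa d) ℚ) ∧ ∀ x : Sha (twa d), x + x = 0 → x = 0

open Classical in
/-- the torsion points -/
def STOR : Prop :=
  ∀ d ∈ Z0, Finite (AddCommGroup.torsion (Pt (twa d) ℚ)) →
    ∃ t, Odd t ∧ Nat.card (AddCommGroup.torsion (Pt (twa d) ℚ)) = (if |d| = 1 then 8 else 4) * t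

/-- the Tamagawa numbers -/
def STAM : Prop := ∀ d : ℤ, d ∣ 30 → ∏ᶠ p, tamagawa (twa d) p = Pz d

/-- the central values -/
def SVAL : Prop :=
  (∀ d ∈ Z0, S0 d * (if |d| = 1 then 8 else 4) ^ 2 = (if d < 0 then 4 else 8) * Pz d) ∧
    ∀ d ∈ Z1, S0 d = 0

/-- points of infinite order -/
def SINF : Prop := ∀ d ∈ Z1, Infinite (Pt (twa d) ℚ)

end Pool.Agent.P.MP_9c97e9_nt.K2
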