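import Pool.Agent.P.MP_9c97e9_nt.K2.IfX

/-! The statements of the chapters on modular units and on the cohomology of their symbols. -/

namespace Pool.Agent.P.MP_9c97e9_nt.K2

open scoped NNReal Matrix
open MP_8b7eba_nt.R2 KT
open MP_8b7eba_nt.Mod (M2 G0 UH xx yy nP nM an)
open MP_8b7eba_nt.R1 (IntR IntM Zb QE ze)
open MP_29cb78_nt.E (ee th0)

/-- transformation of the units -/
def UT : Prop :=
  (∀ (g : M2) (s₁ s₂ r₁ r₂ τ : ℂ), g.det = 1 → 0 < τ.im → uF s₁ s₂ r₁ r₂ (g.act τ) =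
    uF (s₁ * g.a + s₂ * g.c) (s₁ * g.b + s₂ * g.d) (r₁ * g.a + r₂ * g.c) (r₁ * g.b + r₂ * g.d) τ) ∧
  (∀ (q : ℕ) (b₁ b₂ : ℤ) (r₁ r₂ : ℚ) (z : ℂ), q ≠ 0 → 0 < z.im →
    (∀ m n c₁ c₂ : ℤ, uf q (b₁ + q * c₁) (b₂ + q * c₂) (r₁ + m) (r₂ + n) z = uf q b₁ b₂ r₁ r₂ z) ∧
    ∀ γ, G0 γ → uf q b₁ b₂ r₁ r₂ (γ.act z) =
      uf q (b₁ * γ.a + b₂ * (γ.c / 15)) (b₁ * (15 * γ.b) + b₂ * γ.d)
        (r₁ * γ.a + r₂ * (γ.c / 15 : ℤ)) (r₁ * (15 * γ.b) + r₂ * γ.d) z) ∧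
  ∀ (q N : ℕ) (b₁ b₂ i₁ i₂ : ℤ) (z : ℂ), q ≠ 0 → N ≠ 0 → 0 < z.im →
    ug q N (b₁, b₂) (i₁, i₂) z = ui q N b₁ b₂ i₁ i₂ z ∧ ∀ (b : VZ q) (v : VZ N) γ, G0 γ →
      ug q N b v (γ.act z) =
        ug q N (ac4 γ.a γ.b (γ.c / 15) γ.d b) (ac4 γ.a γ.b (γ.c / 15) γ.d v) z

/-- the units are holomorphic, without zeros, and of moderate growth -/
def UHM : Prop :=
  ∀ (q N : ℕ) (b₁ b₂ i₁ i₂ : ℤ), q ≠ 0 → N ≠ 0 → N.Coprime q → ¬ (N : ℤ) ∣ i₁ →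
    Hol (ui q N b₁ b₂ i₁ i₂) ∧ (∀ z : ℂ, 0 < z.im → ui q N b₁ b₂ i₁ i₂ z ≠ 0) ∧
      MG (ui q N b₁ b₂ i₁ i₂)

/-- distribution relations -/
def UD : Prop :=
  ∀ (q l : ℕ) (b₁ b₂ : ℤ) (r₁ r₂ : ℚ) (z : ℂ), l ≠ 0 → 0 < z.im →
    ∏ i ∈ Finset.range l, ∏ j ∈ Finset.range l, uf q b₁ b₂ (r₁ + i / l) (r₂ + j / l) z =
      uf q (l * b₁) (l * b₂) (l * r₁) (l * r₂) z ∧
    ∏ j ∈ Finset.range l, uf q b₁ b₂ r₁ (r₂ + j / l) z = uf q b₁ (l * b₂) r₁ (l * r₂) (l * z) ∧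
    ∀ i : ℤ, ∏ j ∈ Finset.range l, uf q b₁ b₂ (r₁ + j / l) (r₂ + 15 * i * j / l) z =
      uf q (l * b₁) (b₂ - 15 * i * b₁) (l * r₁) (r₂ - 15 * i * r₁) ((z + i) / l)

/-- the expansions of the units, with the exponent independent of the second indices -/
def UQ0 : Prop :=
  ∀ (q N : ℕ) (b₁ i₁ : ℤ), q ≠ 0 → N ≠ 0 → N.Coprime q → ¬ (N : ℤ) ∣ i₁ → ∃ E : ℤ,
    (N : ℤ) ∣ E - 15 * q * i₁ * JJ q N b₁ i₁ ∧ ∀ (b₂ i₂ : ℤ) (L e : ℕ), (e : ℤ) - L = E →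
      ∃ A : PowerSeries Zb, QE (N * q) L A (ui q N b₁ b₂ i₁ i₂) ∧ Xp q N b₁ b₂ i₁ i₂ e A

/-- expansions at infinity -/
def UQF : Prop :=
  ∀ q N : ℕ, q ≠ 0 → N ≠ 0 → N.Coprime q → ∃ (L : ℕ) (A : VZ q → VZ N → PowerSeries Zb),
    ∀ b v, v.1 ≠ 0 → QE (N * q) L (A b v) (ug q N b v) ∧ ∀ σ, Cj σ (A b v)
      (A (ac4 1 0 0 (cy (N * q) σ : ZMod (N * q)).val b)
        (ac4 1 0 0 (cy (N * q) σ : ZMod (N * q)).val v))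

/-- the Galois action on the units -/
def EXA : Prop :=
  ∀ q N : ℕ, q ≠ 0 → N ≠ 0 → N.Coprime q →
    (∀ (b : VZ q) (v : VZ N), Gv v → InL (ug q N b v) ∧ Uz q N b v ∈ UL) ∧
    ∀ g ∈ GG, ∃ a b c d : ℤ, IsCoprime a 15 ∧
      ((a * d - 15 * b * c : ℤ) : ZMod (N * q)) = cy (N * q) (cg g) ∧
      ∀ (β : VZ q) (v : VZ N), Gv v → g (Uz q N β v) = Uz q N (ac4 a b c d β) (ac4 a b c d v)

/-- invariance of the sums of symbols -/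
def EINV : Prop :=
  (∀ (q M : ℕ) [NeZero q] [NeZero M], E0 q M = ES0 q M M fun _ _ => True) ∧
  ∀ q k M, Lv0 q k M → InvU k M (E0 q M) ∧ ∀ l : ℕ, l ≠ 0 → l.Coprime 15 → InvU k M (Ep q l M)

/-- the sum over all lifts -/
def NA : Prop :=
  ∀ (q k M M' p : ℕ) [NeZero q] [NeZero M'], Lv0 q k M → p ≠ 0 → p.Coprime (15 * q) → M' = M * p →
    (CL k M).Eqv (fE k (ES0 q M M' fun _ _ => True)) (fE k (E0 q M))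

/-- products over lines -/
def NLP : Prop :=
  ∀ (q N N' p c : ℕ) [NeZero N'], q ≠ 0 → N.Coprime q → p.Prime → ¬ p ∣ 15 * N * c → N' = N * p →
    ∀ t ∈ IntR p, ∀ (b : VZ q) (y : VZ N) (B : Finset (VZ N')), Gv (c • y) →
      (∀ v, v ∈ B ↔ Ln p t v ∧ (ZMod.cast v.1 : ZMod N) = y.1 * t.1 ∧
        (ZMod.cast v.2 : ZMod N) = y.1 * (15 * t.2.1) + y.2 * t.2.2) →
      ∏ v ∈ B, Uz q N' b (c • v) = pb (IntM t) (Uz q N (ac4 t.2.2 (-t.2.1) 0 t.1 b) (c • y))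

/-- the sum over the lines -/
def NL : Prop :=
  ∀ (q k M M' p : ℕ) [NeZero q] [NeZero M'], Lv0 q k M → p.Prime → ¬ p ∣ 15 * q * M → M' = M * p →
    (CL k M).Eqv (fE k (∑ t ∈ IntR p, ES0 q M M' fun v v' => Ln p t v ∧ Ln p t v'))
      (fE k (lb (· * un (p : ZMod M)) (Cor p (E0 q M))))

/-- the formal decomposition -/
def NF : Prop :=
  ∀ (q M M' p : ℕ) [NeZero q] [NeZero M'] (hd : M ∣ M'), p.Prime → ¬ p ∣ 15 → M' = M * p →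
    lb (ZMod.unitsMap hd) (E0 q M') = if p ∣ M then ES0 q M M' fun _ _ => True else
      (ES0 q M M' fun _ _ => True) -
        (∑ t ∈ IntR p, ES0 q M M' fun v v' => Ln p t v ∧ Ln p t v') +
        (p : ℤ) • lb (· * un (p : ZMod M) ^ 2) (E0 q M)

/-- the norm relation for the cocycles on the function field -/
def NE : Prop :=
  ∀ q k M M' p : ℕ, Lv0 q k M → p.Prime → ¬ p ∣ 15 * q → M' = M * p →
    (CL k M).Eqv (fun g h => pz M (M' := M') (fE k (E0 q M') g h)) fun g h =>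
      if p ∣ M then fE k (E0 q M) g h else
        fE k (E0 q M) g h - tlU k (un (p : ZMod M)) ((HC p).T2 (fE k (E0 q M)) g h) +
          (p : ℤ) • tlU k (un (p : ZMod M) ^ 2) (fE k (E0 q M) g h)

/-- existence -/
def ZEX : Prop := ∀ q l k M : ℕ, l.Prime → ¬ l ∣ 15 → Lv0 q k M → ∃ b z, ZK q l k M b z

/-- the exported properties -/
def ZTK : Prop :=
  ∀ (q l k M : ℕ) b z, l.Prime → ¬ l ∣ 15 → Lv0 q k M → ZK q l k M b z → ZT q l k M z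

/-- the norm relations -/
def NREL : Prop :=
  ∀ (q l k M M' p : ℕ) b z b' z', l.Prime → ¬ l ∣ 15 → Lv0 q k M → 2 ∣ M → p.Prime → ¬ p ∣ 15 * q →
    M' = M * p → ZK q l k M b z → ZK q l k M' b' z' → NR k p z z'

/-- the twisted cocycles -/
def TWA : Prop :=
  (∀ k v, ‖rn k v‖ ≤ 1 ∧ (‖v‖ ≤ 1 → ‖rn k v - v‖ ≤ (2 ^ k)⁻¹)) ∧
  ∀ (D : Dat) (l k M : ℕ) (x : GQ → (ZMod (M * D.n))ˣ → V2), 1 ≤ k → D.Lv k M → ZT D.q l k _ x →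
    (∀ g ε, ‖D.t0 M x g ε‖ ≤ 1 ∧ ‖D.nr (D.t0 M x) g ε‖ ≤ 1) ∧
      (Sm ⊤ fun g ε => rn k (D.nr (D.t0 M x) g ε)) ∧
      (∀ g h δ, ‖D.nr (D.t0 M x) (g * h) δ - D.nr (D.t0 M x) g δ -
        D.rd g *ᵥ D.nr (D.t0 M x) h (δ * (cy M g)⁻¹)‖ ≤ (2 ^ k)⁻¹) ∧
      ∀ δ, D.nr (D.t0 M x) D.z δ = 0

/-- the norm relations of the twisted cocycles -/
def TWB : Prop :=
  ∀ (D : Dat) (k M p : ℕ) (x : GQ → (ZMod (M * D.n))ˣ → V2)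
    (x' : GQ → (ZMod (M * p * D.n))ˣ → V2), 1 ≤ k → D.Lv k M → p.Prime →
    p = 2 ∨ ¬ p ∣ 15 * D.n * D.q * M → NR k p x x' → ∀ g ε,
      ‖psh M p (D.nr (D.t0 (M * p) x') g) ε -
        eu p (jacobiSym D.d p * ap W15 p : ℤ) (D.nr (D.t0 M x) g) ε‖ ≤ (2 ^ k)⁻¹

end Pool.Agent.P.MP_9c97e9_nt.K2
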