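import Pool.Agent.P.MP_9c97e9_nt.K2.TF2X
import Pool.Agent.P.MP_9c97e9_nt.KT.IfU
import Pool.Agent.P.MP_9c97e9_nt.KT.IfEB
import Pool.Agent.P.MP_9c97e9_nt.KT.IfP

/-! Definitions and statements of the chapters on modular units, cohomology and reciprocity. -/

namespace Pool.Agent.P.MP_9c97e9_nt.K2

open scoped NNReal Matrix
open MP_8b7eba_nt.R2 KT
open MP_8b7eba_nt.Mod (M2 G0 UH xx yy nP nM an)
open MP_8b7eba_nt.R1 (IntR IntM Zb QE ze st)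
open MP_29cb78_nt.E (ee th0)
open PowerSeries Finset

export KT (CONJ GEN SB THX TR)

noncomputable section

/-! ### Units -/

/-- the auxiliary prime -/
structure Aq (q : ℕ) : Prop where
  prime : q.Prime
  res : q % 180 = 151

/-- the third difference -/
def s4 {A : Type} [Ring A] (f : ℤ → A) : A := f 1 - 3 * f 2 + 3 * f 3 - f 4

/-- the third difference, multiplicatively -/
def p4 {F : Type} [Field F] (f : ℤ → F) : F := f 1 * f 3 ^ 3 / (f 2 ^ 3 * f 4)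

/-- the theta quotient in lattice coordinates -/
def uF (s₁ s₂ r₁ r₂ τ : ℂ) : ℂ := p4 fun n => th0 (r₁ * τ + r₂ + n * (s₁ * τ + s₂)) τ

/-- the modular units -/
def uf (q : ℕ) (b₁ b₂ : ℤ) (r₁ r₂ : ℚ) (z : ℂ) : ℂ := uF (b₁ / q) (b₂ / q) r₁ r₂ (15 * z)

/-- the units of level `N` -/
def ui (q N : ℕ) (b₁ b₂ i₁ i₂ : ℤ) : ℂ → ℂ := uf q b₁ b₂ (i₁ / N) (i₂ / N)

/-- good vectors -/
def Gv {N : ℕ} (v : VZ N) : Prop :=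
  ∃ u : ZMod N, u * v.1 ≠ 0 ∧ 15 * (u * v.1) = 0 ∧ u * v.2 = 0

/-- the same for integers -/
def Gz (N : ℕ) (i₁ i₂ : ℤ) : Prop := Gv ((i₁, i₂) : VZ N)

/-- indices -/
abbrev IT : Type := (ℕ × ℕ) × (ℕ × ℕ) × ℕ × ℕ

/-- the index set of the symbols of level `M` -/
def Ix (q M : ℕ) : Finset IT :=
  ((range q ×ˢ range q) ×ˢ (range (15 * M) ×ˢ range (15 * M)) ×ˢ
    range (15 * M) ×ˢ range (15 * M)).filter fun i =>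
      (¬ 3 ∣ i.2.1.1 ∧ 3 ∣ i.2.1.2) ∧ (¬ 5 ∣ i.2.2.1 ∧ 5 ∣ i.2.2.2) ∧
        IsCoprime ((i.2.1.1 : ℤ) * i.2.2.2 - i.2.1.2 * i.2.2.1) M

/-- the determinant of an index -/
def dI (M : ℕ) (i : IT) : (ZMod M)ˣ := un ((i.2.1.1 : ZMod M) * i.2.2.2 - i.2.1.2 * i.2.2.1)

/-- the first object of an index -/
def uX {A : Type} (U : ℤ → ℤ → ℤ → ℤ → A) (i : IT) : A :=
  U i.1.1 i.1.2 (5 * i.2.1.1) (5 * i.2.1.2)

/-- the second object of an index -/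
def vX {A : Type} (U : ℤ → ℤ → ℤ → ℤ → A) (i : IT) : A :=
  U i.1.1 i.1.2 (3 * i.2.2.1) (3 * i.2.2.2)

/-- the symbols of level `M` -/
def E0 (q M : ℕ) : Sy LL M :=
  ∑ i ∈ Ix q M, Finsupp.single (lf (uX (ui q (15 * M)) i), lf (vX (ui q (15 * M)) i), dI M i) 1

/-- the cuspidal symbols -/
def Ep (q l M : ℕ) : Sy LL M := Cor l (E0 q M) - (l + 1) • E0 q M

/-- the properties of the zeta cocycle -/
structure ZT (q l k M : ℕ) (z : GQ → (ZMod M)ˣ → V2) : Prop where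
  int : ∀ g d, ‖z g d‖ ≤ 1
  sm : Sm ⊤ z
  co : ∀ g h d, ‖z (g * h) d - z g d - T2.rho g *ᵥ z h (d * (cy M g)⁻¹)‖ ≤ (2 ^ k)⁻¹
  two : ∀ H τ τ' s s', Sec τ H s → Sec τ' H s' → (CO H k M).Inv (evE τ (Ep q l M)) ∧
    (CO H k M).Eqv
      (((CO H k M).can (evE τ' (Ep q l M))).f - ((CO H k M).can (evE τ (Ep q l M))).f)
      fun g h d => zq k (dt (z g d) (T2.rho g *ᵥ (uN k (s' h) - uN k (s h))))

/-- the units indexed by residues, as functions -/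
def ug (q N : ℕ) (b : VZ q) (v : VZ N) : ℂ → ℂ := ui q N b.1.val b.2.val v.1.val v.2.val

/-- the units indexed by residues -/
def Uz (q N : ℕ) (b : VZ q) (v : VZ N) : LL := lf (ug q N b v)

/-- the action of a matrix -/
def ac4 (a b c d : ℤ) {N : ℕ} (v : VZ N) : VZ N := (v.1 * a + v.2 * c, v.1 * (15 * b) + v.2 * d)

/-- the condition modulo three or five -/
def Ge (e : ℕ) {N : ℕ} (v : VZ N) : Prop :=
  (ZMod.cast v.1 : ZMod e) ≠ 0 ∧ (ZMod.cast v.2 : ZMod e) = 0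

open Classical in
/-- sums of symbols of level `M'` with labels modulo `M` -/
def ES0 (q M M' : ℕ) [NeZero q] [NeZero M'] (P : VZ (15 * M') → VZ (15 * M') → Prop) : Sy LL M :=
  ∑ b : VZ q, ∑ v : VZ (15 * M'), ∑ v' : VZ (15 * M'),
    if (Ge 3 v ∧ Ge 5 v' ∧ IsUnit (dv M v v')) ∧ P v v' then
      Finsupp.single (Uz q (15 * M') b (5 • v), Uz q (15 * M') b (3 • v'), un (dv M v v')) 1 else 0

/-- admissible levels -/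
def Lv0 (q k M : ℕ) : Prop := Aq q ∧ M ≠ 0 ∧ 2 ^ k ∣ M ∧ M.Coprime q

/-- the defining properties of the zeta cocycle -/
structure ZK (q l k M : ℕ) (b : AL → (CL k M).A) (z : GQ → (ZMod M)ˣ → V2) : Prop where
  sp : (CL k M).Sp geo (fE k (E0 q M)) b
  int : ∀ g d, ‖z g d‖ ≤ 1
  sm : Sm ⊤ z
  eq : ∀ g ∈ GG, ∀ γ ∈ geo, ∀ d, (HC l).T1 ((CL k M).kk (fE k (E0 q M)) b g) γ d -
    (l + 1) * (CL k M).kk (fE k (E0 q M)) b g γ d = pu k (z (cg g) d) γ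

/-! ### Expansions -/

/-- the numerators of the division points -/
def aB (q N : ℕ) (b i n : ℤ) : ℤ := q * i + N * n * b

/-- the integral parts -/
def fl (q N : ℕ) (b i n : ℤ) : ℤ := 15 * aB q N b i n / (15 * (N * q : ℕ))

/-- the constant term of the Eisenstein series of a unit -/
def JJ (q N : ℕ) (b i : ℤ) : ℤ := -s4 (fl q N b i)

/-- the exponent of the leading coefficient -/
def AA (q N : ℕ) (b₁ b₂ i₁ i₂ : ℤ) : ℤ := -s4 fun n => fl q N b₁ i₁ n * aB q N b₂ i₂ n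

/-- the partial theta products of a unit -/
def pU (q N : ℕ) (b₁ b₂ i₁ i₂ : ℤ) (T : ℕ) (n : ℤ) : Zb⟦X⟧ :=
  pS (N * q) (aB q N b₂ i₂ n) (15 * aB q N b₁ i₁ n) T

/-- the expansion `A` agrees with the quotient of the theta products -/
def Xp (q N : ℕ) (b₁ b₂ i₁ i₂ : ℤ) (e : ℕ) (A : Zb⟦X⟧) : Prop :=
  ∀ T, X ^ T ∣ A * (pU q N b₁ b₂ i₁ i₂ T 2 ^ 3 * pU q N b₁ b₂ i₁ i₂ T 4) -
    C ((-1) ^ (JJ q N b₁ i₁).natAbs * ze (N * q) (AA q N b₁ b₂ i₁ i₂)) * X ^ e *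
      (pU q N b₁ b₂ i₁ i₂ T 1 * pU q N b₁ b₂ i₁ i₂ T 3 ^ 3)

/-- the Eisenstein series of a unit -/
def EE (q N : ℕ) (b₁ b₂ i₁ i₂ : ℤ) : Om⟦X⟧ :=
  C (JJ q N b₁ i₁ : Om) + s4 fun n => eis (N * q) (aB q N b₂ i₂ n) (15 * aB q N b₁ i₁ n)

/-- the product of the Eisenstein series -/
def EPr (q M : ℕ) (i : IT) : Om⟦X⟧ := uX (EE q (15 * M)) i * vX (EE q (15 * M)) i

/-- the product of the constant terms -/
def JPr (q M : ℕ) (i : IT) : ℤ :=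
  JJ q (15 * M) i.1.1 (5 * i.2.1.1) * JJ q (15 * M) i.1.1 (3 * i.2.2.1)

open Classical in
/-- the form of weight two attached to the symbols of determinant `δ` -/
def gd (q M : ℕ) (δ : (ZMod M)ˣ) : Om⟦X⟧ := ∑ i ∈ (Ix q M).filter fun i => dI M i = δ, EPr q M i

/-- the sum of the two modular symbols -/
def ns (a c : ℤ) : ℤ := nP a c + nM a c

/-- the additive twists of the modular symbols -/
def SSd (q M : ℕ) (δ : (ZMod M)ˣ) : Om :=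
  ∑ ν ∈ range M, zM M (q * ν * (δ : ZMod M).val) * ns ν M

/-- related labels -/
def Rl {M : ℕ} (δ δ' : (ZMod M)ˣ) : Prop :=
  ∃ p m : ℕ, p.Prime ∧ ¬ p ∣ 15 ∧ M = m * p ∧ (m : ℤ) ∣ (δ : ZMod M).val - (δ' : ZMod M).val

/-! ### The twist -/

/-- the quadratic character of the twist -/
def Dat.kd (D : Dat) {M : ℕ} (δ : (ZMod M)ˣ) : ℤ := jacobiSym D.d (δ : ZMod M).val

/-- the unit root of the unramified twist -/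
def Dat.al (D : Dat) : ℂ_[2] := algebraMap ℚ_[2] ℂ_[2] (jacobiSym 2 D.n * al0)

/-- the twisted weights -/
def Dat.cW (D : Dat) (k : ℕ) (W : (ZMod (2 ^ (k + 2)))ˣ → ℤ) (δ : (ZMod (2 ^ (k + 2) * D.n))ˣ) : ℤ :=
  D.kd δ * W (ZMod.unitsMap (Nat.dvd_mul_right _ _) δ)

/-- the weighted sum of the additive twists -/
def Dat.XW (D : Dat) (k : ℕ) (W : (ZMod (2 ^ (k + 2)))ˣ → ℤ) : Om :=
  ∑ᶠ δ : (ZMod (2 ^ (k + 2) * D.n))ˣ, D.cW k W δ * SSd D.q _ δ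

/-- the twisted push forward -/
def Dat.t0 (D : Dat) (M : ℕ) (x : GQ → (ZMod (M * D.n))ˣ → V2) (g : GQ) : (ZMod M)ˣ → V2 :=
  psh M D.n fun δ => (D.kd δ : ℚ_[2]) • x g δ

/-- the normalisation -/
def Dat.nr (D : Dat) {M : ℕ} (x : GQ → (ZMod M)ˣ → V2) (g : GQ) (ε : (ZMod M)ˣ) : V2 :=
  (2 : ℚ_[2]) • x g ε + (D.rd g *ᵥ x D.z (ε * (cy M g)⁻¹) - x D.z ε)

/-- the twisted zeta cocycle -/
def Dat.xG (D : Dat) (k : ℕ) (zt : GQ → (ZMod (2 ^ (k + 2) * D.n))ˣ → V2)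
    (m : (ZMod (2 ^ (k + 2)))ˣ → V2) (g : GQ) (ε : (ZMod (2 ^ (k + 2)))ˣ) : V2 :=
  (2 : ℚ_[2]) • D.t0 (2 ^ (k + 2)) zt g ε + (D.rd g *ᵥ m (ε * (cy _ g)⁻¹) - m ε)

/-- the Euler system comes from zeta cocycles -/
def Dat.GZ (D : Dat) (l : ℕ) (z : EA) : Prop :=
  ∀ k, 1 ≤ k → ∃ (zt : GQ → (ZMod (2 ^ (k + 2) * D.n))ˣ → V2) (m : (ZMod (2 ^ (k + 2)))ˣ → V2),
    ZT D.q l k _ zt ∧ (∀ ε, ‖m ε‖ ≤ 1) ∧
      ∀ g ε, ‖z k (2 ^ (k + 2)) g ε - D.xG k zt m g ε‖ ≤ (2 ^ k)⁻¹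

end

/-! ### Statements which connect the chapters -/

/-- the Euler system -/
def GX : Prop := ∀ (D : Dat) (l : ℕ), l.Prime → ¬ l ∣ 15 → ∃ z, D.ES z ∧ D.GZ l z

/-- the reciprocity law -/
def ERX : Prop := ∀ (D : Dat) (l : ℕ) (z : EA), l.Prime → ¬ l ∣ 30 → D.GZ l z → D.ERL z

/-- Gauss sums and quadratic characters -/
def GSX : Prop :=
  ∀ D : Dat, (∃ s : ℤˣ, ∑ a ∈ range D.n, (jacobiSym a D.n : Om) * zM D.n a = (s : ℤ) * D.dl0) ∧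
    (∀ (M : ℕ) (g : GQ), M ≠ 0 → D.n ∣ M → sd D.dl0 g = jacobiSym (cy M g : ZMod M).val D.n) ∧
    (∀ (f : ℕ) (φ : GQ), w2.IsFrob f φ → sd D.dl0 φ = jacobiSym 2 D.n ^ f) ∧
    (∀ a : ℕ, Odd a → jacobiSym D.d a = jacobiSym D.e a * jacobiSym a D.n) ∧
    ∀ M : ℕ, M ≠ 0 → 8 * D.n ∣ M → (∀ g : GQ, sd D.dl g = D.kd (cy M g)) ∧
      (∀ δ δ' : (ZMod M)ˣ, D.kd (δ * δ') = D.kd δ * D.kd δ') ∧
      (∀ (δ : (ZMod M)ˣ) (a : ℕ), (δ : ZMod M) = a → D.kd δ = jacobiSym D.d a) ∧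
      ∀ δ : (ZMod M)ˣ, D.kd δ ^ 2 = 1

/-- the expansions of the units -/
def UQ : Prop :=
  ∀ (q N : ℕ) (b₁ b₂ i₁ i₂ : ℤ), q ≠ 0 → N ≠ 0 → N.Coprime q → ¬ (N : ℤ) ∣ i₁ →
    (∀ z, ui q N b₁ b₂ i₁ i₂ (z + 1) = ui q N b₁ (b₂ + 15 * b₁) i₁ (i₂ + 15 * i₁) z) ∧
    (∀ m m' : ℤ, ui q N b₁ (b₂ + q * m') i₁ (i₂ + N * m) = ui q N b₁ b₂ i₁ i₂) ∧
    ∃ (L e : ℕ) (A : Zb⟦X⟧), QE (N * q) L A (ui q N b₁ b₂ i₁ i₂) ∧
      (N : ℤ) ∣ e - L - 15 * q * i₁ * JJ q N b₁ i₁ ∧ Xp q N b₁ b₂ i₁ i₂ e A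

/-- the 2-adic values of the units and of their Hecke translates -/
def VALX : Prop :=
  ∀ (q N l : ℕ) (t : ℂ_[2]) (x y : Om), q ≠ 0 → N ≠ 0 → N.Coprime q → l.Prime → ¬ l ∣ 15 → t ≠ 0 →
    ‖t‖ < 1 → V2a (N * q * l) xx t (i2 x) → V2a (N * q * l) yy t (i2 y) →
    ∃ τ, Alg τ x y ∧ ∀ b₁ b₂ i₁ i₂ : ℤ, Gz N i₁ i₂ →
      V2a (N * q) (ui q N b₁ b₂ i₁ i₂) (t ^ l) (i2 (ev τ (lf (ui q N b₁ b₂ i₁ i₂)))) ∧
      ∀ s ∈ IntR l, V2a (N * q) (ui q N b₁ b₂ i₁ i₂) (i2 (zM (N * q * l) s.2.1) * t ^ s.1 ^ 2)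
        (i2 (ev τ (pb (IntM s) (lf (ui q N b₁ b₂ i₁ i₂)))))

/-- differences of the products of Eisenstein series are multiples of the cusp form -/
def CX : Prop :=
  ∀ (q M : ℕ) (δ δ' : (ZMod M)ˣ) (j : ℕ), Aq q → M ≠ 0 → M.Coprime q → Rl δ δ' →
    coeff j (gd q M δ - gd q M δ') = if 15 * M * q ∣ j then
      60 * (15 * M * q) * (SSd q M δ - SSd q M δ') * an (j / (15 * M * q)) else 0

/-- the local points -/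
def PTS : Prop :=
  ∀ (D : Dat) (K : ℕ) (ζ : Om) (ε : ℝ), 2 ≤ K → IsPrimitiveRoot ζ (2 ^ K) → 0 < ε →
    ∃ (x y : ℤ → Om) (q : ℤ → ℂ_[2]),
      (∀ σ ∈ w2.D, σ ζ = ζ → ∀ s, σ (x s) = x (sd D.dl0 σ * s) ∧ σ (y s) = y (sd D.dl0 σ * s)) ∧
      ∀ s : ℤ, s = 1 ∨ s = -1 → V2a 1 xx (q s) (i2 (x s)) ∧ V2a 1 yy (q s) (i2 (y s)) ∧
        ‖q s‖ = ‖i2 ζ - 1‖ ∧ ‖lamf (q s) - s * i2 D.dl0 * muP D.al K (i2 ζ)‖ ≤ ε ∧
        (∀ f : ℂ_[2] →+* ℂ_[2], Isometry f → f (i2 (x s)) = i2 (x s) → f (i2 (y s)) = i2 (y s) →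
          f (q s) = q s) ∧
        ∀ ε' : ℝ, 0 < ε' → ∃ q₁ : Om, ‖i2 q₁ - q s‖ ≤ ε' ∧
          ∀ σ ∈ w2.D, σ ζ = ζ → σ D.dl0 = D.dl0 → σ q₁ = q₁

/-- Kummer cocycles of local points -/
def YEX : Prop :=
  ∀ (D : Dat) (k : ℕ) (P : EO), E1 w2 P →
    (∀ σ ∈ w2.D, cy (2 ^ (k + 2)) σ = 1 → tac D.dl σ P = P) →
    ∃ (y : GQ → (ZMod (2 ^ (k + 2)))ˣ → V2) (R : EO), D.LY k y ∧ 2 ^ k • R = P ∧
      ∀ h ∈ w2.D, cy (2 ^ (k + 2)) h = 1 → T2.pt ((2 ^ k : ℚ_[2])⁻¹ • y h 1) = tac D.dl h R - R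

/-- the trace computation -/
def TEL : Prop :=
  ∀ D : Dat, ∃ (c : ℚ_[2]) (B : ℝ), c ≠ 0 ∧ ∀ (k : ℕ) (ζ : Om), 1 ≤ k →
    IsPrimitiveRoot ζ (2 ^ (k + 2)) →
    ∃ (u : (ZMod (2 ^ (k + 2)))ˣ) (a b : ℚ_[2]), ‖a‖ = 1 ∧ ‖b‖ ≤ B ∧
      ∀ (W : (ZMod (2 ^ (k + 2)))ˣ → ℤ) (H : Subgroup GQ), (∀ δ, W (-δ) = W δ) → w2.Loc H →
        (∀ g ∈ H, cy (2 ^ (k + 2) * D.n) g = 1) →
        (csum w2.D H fun g => i2 (g (D.XW k W * D.dl0)) * muP D.al (k + 2) (i2 (g ζ))) =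
          algebraMap ℚ_[2] ℂ_[2] (H.relIndex (w2.D ⊓ (cy (2 ^ (k + 2))).ker) * 2 ^ (k + 2) *
            (c * a * ∑ ν ∈ oddR D.n k, D.msy k ν * W (u * (un (ν : ZMod (2 ^ (k + 2))))⁻¹) +
              b * ∑ δ, ce D.e δ * W δ))

/-! ### Basic facts -/

theorem Aq.ne {q : ℕ} (h : Aq q) : q ≠ 0 := h.prime.ne_zero

theorem Aq.odd {q : ℕ} (h : Aq q) : Odd q := Nat.odd_iff.2 (by have := h.res; omega)

theorem Aq.lt {q : ℕ} (h : Aq q) : 150 < q := by have := h.res; omega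

theorem Aq.cop {q : ℕ} (h : Aq q) {m : ℕ} (h0 : m ≠ 0) (h1 : m ≤ 150) : m.Coprime q :=
  (Nat.coprime_of_lt_prime h0 (h1.trans_lt h.lt) h.prime).symm

theorem Aq.c15 {q M : ℕ} (h : Aq q) (hM : M.Coprime q) : (15 * M).Coprime q :=
  (h.cop (by norm_num) (by norm_num)).mul_left hM

theorem Dat.aq (D : Dat) : Aq D.q := ⟨D.qp, D.q180⟩

theorem Gv.ne {N : ℕ} {v : VZ N} (h : Gv v) : v.1 ≠ 0 := fun e => by
  obtain ⟨u, h1, -⟩ := h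
  exact h1 (by rw [e, mul_zero])

theorem Gz.not_dvd {N : ℕ} {i₁ i₂ : ℤ} (h : Gz N i₁ i₂) : ¬ (N : ℤ) ∣ i₁ := fun e =>
  Gv.ne h ((ZMod.intCast_zmod_eq_zero_iff_dvd i₁ N).2 e)

theorem Gv.gz {N : ℕ} [NeZero N] {v : VZ N} (h : Gv v) : Gz N v.1.val v.2.val := by
  simpa [Gz] using h

theorem Gv.ac4 {N : ℕ} {v : VZ N} (h : Gv v) {a : ℤ} (ha : IsCoprime a 15) (b c d : ℤ) :
    Gv (ac4 a b c d v) := by
  obtain ⟨u, h1, h2, h3⟩ := h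
  obtain ⟨x, y, e⟩ := ha
  have e' : (x : ZMod N) * a + y * 15 = 1 := by exact_mod_cast congrArg (Int.cast : ℤ → ZMod N) e
  refine ⟨u, fun h4 => h1 ?_, ?_, ?_⟩ <;> simp only [K2.ac4] at *
  · linear_combination x * h4 - x * c * h3 + y * h2 - u * v.1 * e'
  · linear_combination a * h2 + 15 * c * h3
  · linear_combination b * h2 + d * h3

theorem Gz.of_dvd {e f M : ℕ} (h : e * f = 15) (hM : M ≠ 0) {x y : ℤ} (hx : ¬ (e : ℤ) ∣ x)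
    (hy : (e : ℤ) ∣ y) : Gz (15 * M) (f * x) (f * y) := by
  have h0 : (f : ℤ) * M ≠ 0 := by
    have : f ≠ 0 := fun e => by simp [e] at h
    positivity
  have h1 : ((15 * M : ℕ) : ℤ) = f * M * e := by rw [← h]; push_cast; ring
  obtain ⟨c, rfl⟩ := hy
  refine ⟨((M : ℤ) : ZMod (15 * M)), ?_, ?_, ?_⟩ <;> simp only
  · rw [← Int.cast_mul, Ne, ZMod.intCast_zmod_eq_zero_iff_dvd, h1,
      show (M : ℤ) * (f * x) = f * M * x by ring, mul_dvd_mul_iff_left h0]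
    exact hx
  · rw [← Int.cast_mul, ← Int.cast_ofNat, ← Int.cast_mul, ZMod.intCast_zmod_eq_zero_iff_dvd]
    exact ⟨f * x, by push_cast; ring⟩
  · rw [← Int.cast_mul, ZMod.intCast_zmod_eq_zero_iff_dvd, h1]
    exact ⟨c, by ring⟩

theorem aB_not_dvd {q N : ℕ} (h : N.Coprime q) {i : ℤ} (hi : ¬ (N : ℤ) ∣ i) (b n : ℤ) :
    ¬ (15 * (N * q : ℕ) : ℤ) ∣ 15 * aB q N b i n := fun e => by
  rw [mul_dvd_mul_iff_left (by norm_num), aB, mul_assoc] at e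
  have h1 : (N : ℤ) ∣ q * i + N * (n * b) := Dvd.dvd.trans ⟨q, Nat.cast_mul _ _⟩ e
  exact hi ((Nat.isCoprime_iff_coprime.2 h).dvd_of_dvd_mul_left
    ((dvd_add_left (dvd_mul_right _ _)).1 h1))

theorem AA_dvd (q N : ℕ) (b₁ b₂ i₁ i₂ : ℤ) :
    (N : ℤ) ∣ AA q N b₁ b₂ i₁ i₂ - q * i₂ * JJ q N b₁ i₁ :=
  ⟨-(b₂ * s4 fun n => n * fl q N b₁ i₁ n), by simp only [AA, JJ, s4, aB]; ring⟩

theorem mem_Ix {q M : ℕ} {i : IT} : i ∈ Ix q M ↔ ((i.1.1 < q ∧ i.1.2 < q) ∧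
    (i.2.1.1 < 15 * M ∧ i.2.1.2 < 15 * M) ∧ i.2.2.1 < 15 * M ∧ i.2.2.2 < 15 * M) ∧
    (¬ 3 ∣ i.2.1.1 ∧ 3 ∣ i.2.1.2) ∧ (¬ 5 ∣ i.2.2.1 ∧ 5 ∣ i.2.2.2) ∧
      IsCoprime ((i.2.1.1 : ℤ) * i.2.2.2 - i.2.1.2 * i.2.2.1) M := by
  simp only [Ix, mem_filter, mem_product, mem_range]

theorem Ix_gz {q M : ℕ} (hM : M ≠ 0) {i : IT} (h : i ∈ Ix q M) :
    Gz (15 * M) (5 * i.2.1.1) (5 * i.2.1.2) ∧ Gz (15 * M) (3 * i.2.2.1) (3 * i.2.2.2) := by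
  obtain ⟨-, ⟨h1, h2⟩, ⟨h3, h4⟩, -⟩ := mem_Ix.1 h
  exact ⟨Gz.of_dvd (e := 3) (f := 5) rfl hM (mt Int.natCast_dvd_natCast.1 h1)
    (Int.natCast_dvd_natCast.2 h2), Gz.of_dvd (e := 5) (f := 3) rfl hM
    (mt Int.natCast_dvd_natCast.1 h3) (Int.natCast_dvd_natCast.2 h4)⟩

theorem Ge_iff {e N : ℕ} [NeZero N] {v : VZ N} : Ge e v ↔ ¬ e ∣ v.1.val ∧ e ∣ v.2.val := by
  simp only [Ge, ← ZMod.natCast_val, Ne, ZMod.natCast_eq_zero_iff]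

theorem Ge.gv {e f M : ℕ} [NeZero M] (h : e * f = 15) {v : VZ (15 * M)} (hv : Ge e v) :
    Gv (f • v) := by
  obtain ⟨h1, h2⟩ := Ge_iff.1 hv
  have := Gz.of_dvd h (NeZero.ne M) (mt Int.natCast_dvd_natCast.1 h1) (Int.natCast_dvd_natCast.2 h2)
  simpa [Gz, Gv] using this

theorem ac4_smul (a b c d : ℤ) {N : ℕ} (m : ℕ) (v : VZ N) :
    ac4 a b c d (m • v) = m • ac4 a b c d v := by
  ext <;> simp [ac4] <;> ring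

end Pool.Agent.P.MP_9c97e9_nt.K2
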