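import Pool.Agent.P.MP_9c97e9_nt.K2.TMAIN
import Pool.Agent.P.MP_9c97e9_nt.KT.Conv

/-! The analytic order of the Tate-Shafarevich group is an integer. -/

namespace Pool.Agent.P.MP_9c97e9_nt.K2

open MP_8b7eba_nt
open MP_8b7eba_nt.R3 (twa)

namespace Int

theorem int_of {r : ℚ} {k : ℕ} {m : ℤ} (h : r * 2 ^ k = m) (hv : 0 ≤ padicValRat 2 r) :
    ∃ n : ℤ, r = n := by
  have h1 : r.den ∣ 2 ^ k := by
    have e : r = Rat.divInt m (2 ^ k) := by
      rw [Rat.divInt_eq_div, ← h]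
      push_cast
      field_simp
    have := Rat.den_dvd m (2 ^ k)
    rw [← e] at this
    exact_mod_cast this
  have h2 : ¬ 2 ∣ r.den := fun h2 => by
    have h3 : ¬ (2 : ℤ) ∣ r.num := fun h3 => by
      have := Nat.dvd_gcd (Int.natCast_dvd.1 (show ((2 : ℕ) : ℤ) ∣ r.num from h3)) h2
      rw [r.reduced] at this
      omega
    have h4 := padicValInt.eq_zero_of_not_dvd (p := 2) h3
    have h5 := one_le_padicValNat_of_dvd r.den_ne_zero h2
    rw [padicValRat_def] at hv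
    omega
  have h3 : r.den = 1 :=
    Nat.Coprime.eq_one_of_dvd (((Nat.prime_two.coprime_iff_not_dvd).2 h2).symm.pow_right k) h1
  exact ⟨r.num, (Rat.coe_int_num_of_den_eq_one h3).symm⟩

theorem tc_pow (D : Dat) (s : Finset ℕ) : ∃ k, ∏ p ∈ s, D.tc p = 2 ^ k := by
  refine Finset.prod_induction _ (fun x => ∃ k, x = 2 ^ k) ?_ ⟨0, rfl⟩ fun p _ => ?_
  · rintro _ _ ⟨a, rfl⟩ ⟨b, rfl⟩
    exact ⟨a + b, (pow_add ..).symm⟩
  · unfold Dat.tc
    split_ifs
    exacts [⟨0, rfl⟩, ⟨2, rfl⟩, ⟨2, rfl⟩, ⟨2, rfl⟩, ⟨1, rfl⟩]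

end Int

open Classical in
/-- the theorem, in integral form -/
def MAINZ : Prop :=
  ∀ d : ℤ, Squarefree d → ¬ d ∣ 30 →
    (∀ (p : ℕ) [Fact p.Prime], ((twa d).baseChange ℚ_[p]).IsMinimal ℤ_[p]) ∧
    Finite (AddCommGroup.torsion (Pt (twa d) ℚ)) ∧
    ∃ L : ℂ → ℂ, IsL (twa d) L ∧ ∃ r : ℤ,
      L 1 = (r : ℂ) * (period (twa d) : ℂ) * ((∏ᶠ p, tamagawa (twa d) p : ℕ) : ℂ) /
        (Nat.card (AddCommGroup.torsion (Pt (twa d) ℚ)) : ℂ) ^ 2 ∧
      (L 1 = 0 ↔ r = 0) ∧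
      (r ≠ 0 ↔ Finite (Pt (twa d) ℚ) ∧ Finite (AddCommGroup.primaryComponent (Sha (twa d)) 2)) ∧
      (r ≠ 0 → Nat.card (AddCommGroup.primaryComponent (Sha (twa d)) 2) = 2 ^ padicValInt 2 r)

theorem mainz_of (H : MAIN) (hBAS : BAS) (hALV : ALV) (hATM : ATM) (hATO : ATO) : MAINZ := by
  intro d hd h30
  obtain ⟨h1, h2, L, h3, r, h4, h5, h6, h7⟩ := H d hd h30
  obtain ⟨n, rfl⟩ : ∃ n : ℤ, r = n := by
    by_cases h0 : r = 0
    · exact ⟨0, by simpa using h0⟩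
    obtain ⟨D, rfl⟩ := hBAS d hd h30
    obtain ⟨hp, L', a1, s, -, a2⟩ := hALV D.d hd
    obtain rfl := KT.Conv.uniq h3 a1
    obtain ⟨-, t, ht, hc⟩ := hATO D
    obtain ⟨k, hk⟩ := Int.tc_pow D (30 * D.n).primeFactors
    rw [hATM D, hk, hc] at h4
    have t0 : (t : ℂ) ≠ 0 := by exact_mod_cast ht.pos.ne'
    have p0 : (period (twa D.d) : ℂ) ≠ 0 := by exact_mod_cast hp.ne'
    have hv : 0 ≤ padicValRat 2 r := by
      have e := congrArg (padicValRat 2) (h7 h0)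
      have : padicValRat 2 ((2 : ℚ) ^ padicValRat 2 r) = padicValRat 2 r := by
        rw [padicValRat.zpow]
        have := padicValRat.self (p := 2) one_lt_two
        simp_all
      rw [this, padicValRat.of_nat] at e
      omega
    obtain ⟨j, hj⟩ : ∃ j : ℕ, (if D.d < 0 then 4 else 8 : ℂ) = 2 ^ j := by
      split_ifs
      exacts [⟨2, by norm_num⟩, ⟨3, by norm_num⟩]
    refine Int.int_of (k := k + j) (m := s * S0 D.d * (4 * t) ^ 2) ?_ hv
    rw [hj, h4] at a2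
    have : (r : ℂ) * 2 ^ (k + j) = s * S0 D.d * (4 * t) ^ 2 := by
      push_cast at a2
      field_simp at a2
      rw [pow_add]
      linear_combination a2
    exact_mod_cast this
  refine ⟨h1, h2, L, h3, n, by simpa using h4, by simpa using h5, by simpa using h6, fun h => ?_⟩
  have := h7 (by exact_mod_cast h)
  rw [padicValRat.of_int, zpow_natCast] at this
  exact_mod_cast this

end Pool.Agent.P.MP_9c97e9_nt.K2
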