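import Pool.Agent.P.MP_9c97e9_nt.K2.IfJ
import Pool.Agent.P.MP_9c97e9_nt.K2.TF2X

/-! Basic properties of the twisted representation, of weights and of measures. -/

namespace Pool.Agent.P.MP_9c97e9_nt.K2

open scoped NNReal Matrix
open MP_8b7eba_nt.R2 KT
open Filter Topology

/-! ### The logarithm and the representation -/

variable {D : Dat}

/-- the generators of tame inertia at three and five -/
theorem bad_r {w : Pl} (hw : w.p ∣ 15) : ∃ t e c, BadR w t e c := by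
  have h2 : w.p ≠ 2 := fun e => by rw [e] at hw; norm_num at hw
  obtain ⟨t, ht, hm⟩ := Pl.exists_gen a_TAME a_RES h2
  obtain ⟨e, h1, h3, h5, h6, h7, h8⟩ := a_UNIP _ T2 w hw
  obtain ⟨s0, a0⟩ := (h6 t ht).2 ![1, 0]
  obtain ⟨s1, a1⟩ := (h6 t ht).2 ![0, 1]
  have a2 := (h6 t ht).1
  have b := fun i => And.intro (congrFun a0 i) (And.intro (congrFun a1 i) (congrFun a2 i))
  have b0 := b 0
  have b1 := b 1
  simp [Matrix.mulVec, dotProduct, Fin.sum_univ_two] at b0 b1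
  have key : ∃ c : ℚ_[2], s0 = -(c * e 1) ∧ s1 = c * e 0 := by
    by_cases h0 : e 0 = 0
    · have h1' : e 1 ≠ 0 := fun h => by
        have : e = 0 := funext (Fin.forall_fin_two.2 ⟨h0, h⟩)
        simp [this] at h1
      refine ⟨-s0 / e 1, by field_simp, mul_right_cancel₀ (mul_ne_zero h1' h1') ?_⟩
      rw [h0]
      linear_combination b1.2.2 - e 1 * b1.2.1 - T2.rho t 1 0 * h0
    · refine ⟨s1 / e 0, ?_, by field_simp⟩
      field_simp
      refine mul_right_cancel₀ h0 ?_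
      linear_combination b0.2.2 - e 0 * b0.1 - e 1 * b0.2.1
  obtain ⟨c, rfl, rfl⟩ := key
  have hr : T2.rho t = 1 + c • nu e := by
    ext i j
    fin_cases i <;> fin_cases j <;> simp [nu]
    · linear_combination b0.1
    · linear_combination b0.2.1
    · linear_combination b1.1
    · linear_combination b1.2.1
  refine ⟨t, e, c, ht, hm, h1, h3, h5, fun h => ?_, hr,
    fun g hg => ⟨(h6 g hg).1, a_EC.2.2.2.2.2.2.1 w h2 g hg⟩⟩
  obtain ⟨i, j, hij⟩ := (h7 t ht hm).1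
  rw [hr, h, zero_smul, add_zero, sub_self] at hij
  norm_num at hij

theorem BadR.toJ {w : Pl} {t : GQ} {e : V2} {c : ℚ_[2]} (h : BadR w t e c) (hw : w.p ∣ 15)
    (hn : ¬ w.p ∣ D.n) : D.BadJ w t e c := by
  have hd := ((t_F2X D).2.2.2.2.2.2 w hw hn).1
  refine ⟨h.tI, h.mov, h.e1, h.e3, h.e5, h.c0, (Dat.rd_fix (hd t h.tI)).trans h.rt,
    fun g hg => ⟨by rw [Dat.rd_fix (hd g hg)]; exact (h.fix g hg).1, hd g hg, (h.fix g hg).2⟩,
    fun φ hφ => ?_⟩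
  rw [((t_F2X D).2.2.2.2.2.2 w hw hn).2 e φ (fun g hg => (h.fix g hg).1) hφ]
  rcases D.ep_cases w.prime hw hn with a | a <;> simp [a]

theorem BadR.neg {w : Pl} {t : GQ} {e : V2} {c : ℚ_[2]} (h : BadR w t e c) (hn : w.p ∣ D.n) :
    D.rd t = -(1 + c • nu e) := by
  rw [D.rd_eq, h.rt, sd_eq_neg.2 fun a => D.dl_ne
    (self_eq_neg.1 (a.symm.trans (D.gen_dl hn h.tI h.mov))), Int.cast_neg, Int.cast_one,
    neg_one_smul]

theorem Dat.bad (D : Dat) {w : Pl} (hw : w.p ∣ 15) (hn : ¬ w.p ∣ D.n) :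
    ∃ t e c, D.BadJ w t e c :=
  let ⟨t, e, c, h⟩ := bad_r hw; ⟨t, e, c, h.toJ hw hn⟩

theorem Kp.big' (l : Kp D) (k : ℕ) : ¬ (l.w k).p ∣ 15 * D.n * D.q := fun h => by
  rcases (Nat.Prime.dvd_mul (l.w k).prime).1 h with h | h
  · exact l.big k (h.trans ⟨2, by ring⟩)
  · exact l.bq k ((Nat.prime_dvd_prime_iff_eq (l.w k).prime D.qp).1 h)

theorem Kp.ne2 (l : Kp D) (k : ℕ) : (l.w k).p ≠ 2 := fun h =>
  l.big k (by rw [h]; exact Dvd.dvd.mul_right (by norm_num) _)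

theorem Kp.near (l : Kp D) (k : ℕ) : ‖((l.w k).p : ℚ_[2]) - 1‖ ≤ (2 ^ (k + 2))⁻¹ := by
  obtain ⟨c, hc⟩ := (Nat.modEq_iff_dvd' (l.w k).prime.one_le).1 (l.one k).symm
  have : ((l.w k).p : ℚ_[2]) - 1 = 2 ^ (k + 2) * c := by
    exact_mod_cast (Nat.cast_sub (R := ℚ_[2]) (l.w k).prime.one_le).symm.trans (congrArg _ hc)
  rw [this, norm_mul, norm_pow, SelA.two, inv_pow]
  exact mul_le_of_le_one_right (by positivity) (IsUltrametricDist.norm_natCast_le_one _ _)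

/-! ### Weights -/

variable {M N k : ℕ} {W W' : Wt}

theorem Dat.two_cop (D : Dat) : Nat.Coprime 2 (15 * D.n * D.q) :=
  (Nat.Coprime.mul_right (by norm_num) (Nat.coprime_two_left.2 D.odd)).mul_right
    (Nat.coprime_two_left.2 D.q_odd)

theorem Dat.Lv.two (h : D.Lv k M) : D.Lv k (M * 2) :=
  ⟨mul_ne_zero h.1 two_ne_zero, h.2.1.mul_right _, Nat.Coprime.mul_left h.2.2
    D.two_cop⟩

theorem Dat.Lv.prime (h : D.Lv k M) {p : ℕ} (hp : p.Prime) (h' : ¬ p ∣ 15 * D.n * D.q) :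
    D.Lv k (M * p) :=
  ⟨mul_ne_zero h.1 hp.ne_zero, h.2.1.mul_right _,
    Nat.Coprime.mul_left h.2.2 ((Nat.Prime.coprime_iff_not_dvd hp).2 h')⟩

theorem Dat.lv (D : Dat) (k : ℕ) : D.Lv k (2 ^ (k + 2)) :=
  ⟨by positivity, dvd_rfl, Nat.Coprime.pow_left _
    D.two_cop⟩

theorem ck_cons {s : Finset (Kp D)} {l : Kp D} (h : l ∉ s) (k : ℕ) :
    ck (s.cons l h) k = ck s k * (l.w k).p := by
  rw [ck, ck, Finset.prod_cons]; ring

theorem wt_cons {s : Finset (Kp D)} {l : Kp D} (h : l ∉ s) (k : ℕ) :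
    wt (s.cons l h) k = l.d k * wt s k := Finset.prod_cons h

theorem Ok.mono {s s' : Finset (Kp D)} (h : Ok s) (h' : s' ⊆ s) : Ok s' :=
  fun l hl l' hl' => h l (h' hl) l' (h' hl')

theorem ok_cons {s : Finset (Kp D)} {l : Kp D} (h : Ok s)
    (h' : ∀ l' ∈ s, ∀ k, (l.w k).p ≠ (l'.w k).p) : ∃ h0 : l ∉ s, Ok (s.cons l h0) := by
  refine ⟨fun e => h' l e 0 rfl, fun a ha b hb e k => ?_⟩
  rcases Finset.mem_cons.1 ha with a1 | a1 <;> rcases Finset.mem_cons.1 hb with b1 | b1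
  · exact absurd (a1.trans b1.symm) e
  · exact a1 ▸ h' b b1 k
  · exact b1 ▸ (h' a a1 k).symm
  · exact h a a1 b b1 e k

/-- a prime which is not among those of `s` does not divide the level -/
theorem not_dvd_ck {s : Finset (Kp D)} {p : ℕ} (hp : p.Prime) (h2 : p ≠ 2)
    (h : ∀ l ∈ s, p ≠ (l.w k).p) : ¬ p ∣ ck s k := fun e => by
  rcases (Nat.Prime.dvd_mul hp).1 e with e | e
  · exact h2 ((Nat.prime_dvd_prime_iff_eq hp Nat.prime_two).1 (hp.dvd_of_dvd_pow e))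
  · obtain ⟨l, hl, e⟩ := (Prime.dvd_finsetProd_iff hp.prime _).1 e
    exact h l hl ((Nat.prime_dvd_prime_iff_eq hp (l.w k).prime).1 e)

/-! ### Measures -/

variable {μ : MA}

theorem Dat.MS.near (h : D.MS μ) (k M : ℕ) (g : GQ) {ε : ℝ} (e : ∀ σ, ‖W σ - W' σ‖ ≤ ε) :
    ‖μ k M g W - μ k M g W'‖ ≤ ε := by
  rw [← map_sub]; exact h.le k M g _ ε ((norm_nonneg _).trans (e 1)) e

theorem Dat.MS.one (h : D.MS μ) (hM : D.Lv k M) (hW : Wi M W) : ‖μ k M 1 W‖ ≤ (2 ^ k)⁻¹ := by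
  simpa [D.rd_one, tl_one] using h.co k M hM 1 1 W hW

end Pool.Agent.P.MP_9c97e9_nt.K2
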