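import Pool.Agent.P.MP_9c97e9_nt.K2.Int
import Pool.Agent.P.MP_9c97e9_nt.K2.IfS
import Pool.Agent.P.MP_9c97e9_nt.K2.Conv

/-! The theorem for all squarefree `d`. -/

namespace Pool.Agent.P.MP_9c97e9_nt.K2

open MP_8b7eba_nt
open MP_8b7eba_nt.R3 (twa)

open Classical in
/-- the theorem for the twist by `d` -/
def Body (d : ℤ) : Prop :=
  (∀ (p : ℕ) [Fact p.Prime], ((twa d).baseChange ℚ_[p]).IsMinimal ℤ_[p]) ∧
  Finite (AddCommGroup.torsion (Pt (twa d) ℚ)) ∧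
  ∃ L : ℂ → ℂ, IsL (twa d) L ∧ ∃ r : ℤ,
    L 1 = (r : ℂ) * (period (twa d) : ℂ) * ((∏ᶠ p, tamagawa (twa d) p : ℕ) : ℂ) /
      (Nat.card (AddCommGroup.torsion (Pt (twa d) ℚ)) : ℂ) ^ 2 ∧
    (L 1 = 0 ↔ r = 0) ∧
    (r ≠ 0 ↔ Finite (Pt (twa d) ℚ) ∧ Finite (AddCommGroup.primaryComponent (Sha (twa d)) 2)) ∧
    (r ≠ 0 → Nat.card (AddCommGroup.primaryComponent (Sha (twa d)) 2) = 2 ^ padicValInt 2 r)

namespace Small

theorem cases {d : ℤ} (h : d ∣ 30) : d ∈ Z0 ∨ d ∈ Z1 := by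
  have h1 := Int.le_of_dvd (by norm_num) h
  have h2 := Int.le_of_dvd (by norm_num) (neg_dvd.2 h)
  have h3 : -30 ≤ d := by omega
  revert h
  interval_cases d <;> decide

theorem sub {A : Type} [AddCommGroup A] (h : ∀ x : A, x + x = 0 → x = 0) :
    Subsingleton (AddCommGroup.primaryComponent A 2) := by
  have key : ∀ (k : ℕ) (x : A), 2 ^ k • x = 0 → x = 0 := fun k => by
    induction k with
    | zero => simp
    | succ k ih => exact fun x hx => h x (ih _ (by rwa [← two_nsmul, ← mul_nsmul', ← pow_succ]))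
  refine subsingleton_of_forall_eq 0 fun x => Subtype.ext ?_
  obtain ⟨k, hk⟩ := x.2
  exact key k _ hk

end Small

theorem small_of (hALV : ALV) (hZ0 : SZ0) (hTOR : STOR) (hTAM : STAM) (hVAL : SVAL)
    (hINF : SINF) {d : ℤ} (hd : Squarefree d) (h30 : d ∣ 30) : Body d := by
  obtain ⟨hp, L, h1, s, hs, h2⟩ := hALV d hd
  have c0 : (if d < 0 then 4 else 8 : ℂ) ≠ 0 := by split_ifs <;> norm_num
  rcases Small.cases h30 with h | h
  · obtain ⟨h3, h4⟩ := hZ0 d h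
    have h5 : Finite (AddCommGroup.torsion (Pt (twa d) ℚ)) := inferInstance
    obtain ⟨t, ht, h6⟩ := hTOR d h h5
    have h7 := Small.sub h4
    have ho : Odd (s * (t : ℤ) ^ 2) := hs.mul (ht.natCast (R := ℤ)).pow
    have r0 : s * (t : ℤ) ^ 2 ≠ 0 := fun e => by simp [e] at ho
    have t0 : (t : ℂ) ≠ 0 := by exact_mod_cast ht.pos.ne'
    have h8 : L 1 = ((s * (t : ℤ) ^ 2 : ℤ) : ℂ) * (period (twa d) : ℂ) *
        ((∏ᶠ p, tamagawa (twa d) p : ℕ) : ℂ) /
          (Nat.card (AddCommGroup.torsion (Pt (twa d) ℚ)) : ℂ) ^ 2 := by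
      have e := congrArg (Int.cast : ℤ → ℂ) (hVAL.1 d h)
      rw [hTAM d h30, h6]
      apply mul_right_cancel₀ c0
      rw [h2]
      push_cast at e ⊢
      have u0 : (if |d| = 1 then 8 else 4 : ℂ) ≠ 0 := by split_ifs <;> norm_num
      generalize (if |d| = 1 then 8 else 4 : ℂ) = u at e u0 ⊢
      generalize (if d < 0 then 4 else 8 : ℂ) = c at e ⊢
      field_simp
      linear_combination s * (period (twa d) : ℂ) * e
    refine ⟨fun p _ => R3.twa_minimal hd p, h5, L, h1, _, h8, iff_of_false ?_ r0,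
      iff_of_true r0 ⟨h3, inferInstance⟩, fun _ => ?_⟩
    · intro e
      have P0 : Pz d ≠ 0 := by unfold Pz; split_ifs <;> norm_num
      have e2 := hVAL.1 d h
      rw [e, zero_mul, eq_comm, mul_eq_zero, mul_eq_zero, Int.cast_eq_zero, Int.cast_eq_zero,
        Complex.ofReal_eq_zero] at h2
      rcases h2 with (h2 | h2) | h2
      · simp [h2] at hs
      · rw [h2, zero_mul, eq_comm, mul_eq_zero, Nat.cast_eq_zero] at e2
        refine e2.elim (fun e => ?_) P0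
        split_ifs at e <;> omega
      · exact hp.ne' h2
    · rw [padicValInt.eq_zero_of_not_dvd (fun e => Int.not_even_iff_odd.2 ho
        (even_iff_two_dvd.2 e)), pow_zero]
      exact Nat.card_of_subsingleton 0
  · have h3 : L 1 = 0 := by
      rw [hVAL.2 d h, Int.cast_zero, mul_zero, zero_mul] at h2
      exact (mul_eq_zero.1 h2).resolve_right c0
    have h4 : 1 < |d| := (by decide : ∀ d ∈ Z1, 1 < |d|) d h
    have h5 : Finite (AddCommGroup.torsion (Pt (twa d) ℚ)) := by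
      have e : instDecidableEqRat = fun a b => Classical.propDecidable (a = b) :=
        Subsingleton.elim _ _
      rw [e]
      exact R3.MM.fin_tors hd h4
    have := hINF d h
    exact ⟨fun p _ => R3.twa_minimal hd p, h5, L, h1, 0, by simp [h3], by simp [h3],
      iff_of_false (by simp) fun e => not_finite_iff_infinite.2 this e.1, fun e => absurd rfl e⟩

namespace Small

theorem split {d : ℤ} {u : ℕ} (hu : u ≠ 0) {F : Type} [Field F] [CharZero F]
    (h : Split (twa d) (0 : F) (-81 * d / u ^ 2) (144 * d / u ^ 2)) :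
    Split (twa d) ((u : F)⁻¹ ^ 2 * (u ^ 2 * 0 + -21 * d) + 21 * d / u ^ 2)
      ((u : F)⁻¹ ^ 2 * (u ^ 2 * (-81 * d / u ^ 2) + -21 * d) + 21 * d / u ^ 2)
      ((u : F)⁻¹ ^ 2 * (u ^ 2 * (144 * d / u ^ 2) + -21 * d) + 21 * d / u ^ 2) := by
  have k : (u : F) ≠ 0 := by exact_mod_cast hu
  convert h using 1 <;> field_simp <;> ring

open Classical in
theorem sha_tw {d : ℤ} (h0 : d ≠ 0) :
    ∃ φ : Sha ⟨0, 0, 0, -12987 * d ^ 2, -263466 * d ^ 3⟩ →+ Sha (twa d),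
      Function.Injective φ := by
  obtain ⟨u, hu, hs⟩ := Conv.split h0
  choose ι hb hι using fun (F : Type) [Field F] [CharZero F] =>
    R2.TSHA.exists_iso (Conv.split' h0 hu F) (split hu (hs F))
      (inv_ne_zero (by exact_mod_cast hu))
  refine KT.Conv.sha_inj ι (hb Qb) fun {F K} _ _ _ _ f P => ?_
  rcases zero_or_is P with rfl | ⟨x, η, hP⟩
  · simp
  refine ((hι F _ _ _ hP).map f).unique (hs K) ?_
  simpa [map_ofNat] using hι K _ _ _ (hP.map f)

theorem fin_aff {d : ℤ} (h0 : d ≠ 0) (h : Finite (Pt (twa d) ℚ)) :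
    {q : ℚ × ℚ | q.2 ^ 2 = q.1 ^ 3 +
      ((-12987 * d ^ 2 : ℤ) : ℚ) * q.1 + ((-263466 * d ^ 3 : ℤ) : ℚ)}.Finite := by
  obtain ⟨s, s0, hs⟩ := R3.MM.split h0
  refine Set.finite_coe_iff.1 ?_
  have h3 := fun q : {q : ℚ × ℚ | q.2 ^ 2 = q.1 ^ 3 + ((-12987 * d ^ 2 : ℤ) : ℚ) * q.1 +
      ((-263466 * d ^ 3 : ℤ) : ℚ)} => hs.exists_is (x := (q.1.1 + 21 * d) / 9 * s ^ 2)
      (η := 2 * q.1.2 / 27 * s ^ 3) (by
        have := q.2
        simp only [Set.mem_ofPred_eq] at this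
        push_cast at this
        linear_combination 4 / 729 * s ^ 6 * this)
  choose f hf using h3
  refine Finite.of_injective f fun p q e => ?_
  obtain ⟨e1, e2⟩ := (hf p).inj (e ▸ hf q)
  exact Subtype.ext (Prod.ext
    (by linear_combination 9 * mul_right_cancel₀ (pow_ne_zero 2 s0) e1)
    (by linear_combination 27 / 2 * mul_right_cancel₀ (pow_ne_zero 3 s0) e2))

end Small

theorem conv_body {d : ℤ} (hd : Squarefree d) (H : Body d)
    {f : ℂ → ℂ} (hf : BSD15.IsL (-12987 * d ^ 2) (-263466 * d ^ 3) f) :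
    f 1 = 0 ↔ {q : ℚ × ℚ | q.2 ^ 2 = q.1 ^ 3 +
      ((-12987 * d ^ 2 : ℤ) : ℚ) * q.1 + ((-263466 * d ^ 3 : ℤ) : ℚ)}.Infinite ∨
      Infinite (AddCommGroup.primaryComponent
        (Sha ⟨0, 0, 0, -12987 * d ^ 2, -263466 * d ^ 3⟩) 2) := by
  obtain ⟨-, -, L', hL, r, -, e1, e2, -⟩ := H
  obtain ⟨φ, hφ⟩ := Conv.tw_sha hd.ne_zero
  obtain ⟨ψ, hψ⟩ := Small.sha_tw hd.ne_zero
  obtain ⟨L, g, a1, a2, a3⟩ := R3.twa_L hd
  obtain rfl := KT.Conv.uniq hL a1
  rw [Mod.isL_unique hf a2, ← a3, e1, ← not_iff_not, not_or, Set.not_infinite,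
    not_infinite_iff_finite, ← Ne, e2]
  exact and_congr ⟨Small.fin_aff hd.ne_zero, Conv.fin_pt hd.ne_zero⟩
    ⟨KT.Conv.fin_prim ψ hψ, KT.Conv.fin_prim φ hφ⟩

end Pool.Agent.P.MP_9c97e9_nt.K2
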