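import Pool.Agent.P.MP_9c97e9_nt.K2.IfA

/-! An Eisenstein congruence for the modular symbols of level 15. -/

namespace Pool.Agent.P.MP_9c97e9_nt.K2

open MP_8b7eba_nt.Mod

namespace TAF

def tab : List (List ℤ) :=
  [[0, 0, 4, 0, 8, 0, 0, 12, 12, 0, 0, 8, 0, 4, 0],
   [1, 1, 1, 1, 1, 1, 1, 1, 1, 1, 1, 1, 1, 1, 1],
   [13, 13, 13, 13, 13, 13, 13, 13, 13, 13, 13, 13, 13, 13, 13],
   [0, 3, 11, 0, 3, 11, 0, 3, 11, 0, 3, 11, 0, 3, 11],
   [9, 9, 9, 9, 9, 9, 9, 9, 9, 9, 9, 9, 9, 9, 9],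
   [0, 6, 2, 10, 14, 0, 6, 2, 10, 14, 0, 6, 2, 10, 14],
   [0, 7, 15, 0, 7, 15, 0, 7, 15, 0, 7, 15, 0, 7, 15],
   [5, 5, 5, 5, 5, 5, 5, 5, 5, 5, 5, 5, 5, 5, 5],
   [5, 5, 5, 5, 5, 5, 5, 5, 5, 5, 5, 5, 5, 5, 5],
   [0, 15, 7, 0, 15, 7, 0, 15, 7, 0, 15, 7, 0, 15, 7],
   [0, 14, 10, 2, 6, 0, 14, 10, 2, 6, 0, 14, 10, 2, 6],
   [9, 9, 9, 9, 9, 9, 9, 9, 9, 9, 9, 9, 9, 9, 9],
   [0, 11, 3, 0, 11, 3, 0, 11, 3, 0, 11, 3, 0, 11, 3],
   [13, 13, 13, 13, 13, 13, 13, 13, 13, 13, 13, 13, 13, 13, 13],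
   [1, 1, 1, 1, 1, 1, 1, 1, 1, 1, 1, 1, 1, 1, 1]]

def te (a c : ℤ) : ℤ := (tab.getD (c % 15).toNat []).getD (a % 15).toNat 0

def tO (c : ℤ) : ℤ := [0, 0, 0, 1, 0, 1, 1, 0, 0, 1, 1, 0, 1, 0, 0].getD (c % 15).toNat 0

theorem te_congr {a a' c c' : ℤ} (h : a ≡ a' [ZMOD 15]) (h' : c ≡ c' [ZMOD 15]) :
    te a c = te a' c' := by
  rw [te, te, h.eq, h'.eq]

theorem tO_congr {c c' : ℤ} (h' : c ≡ c' [ZMOD 15]) : tO c = tO c' := by
  rw [tO, tO, h'.eq]

theorem res (a : ℤ) : ∃ n : ℕ, n < 15 ∧ a ≡ n [ZMOD 15] :=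
  ⟨(a % 15).toNat, by omega, by unfold Int.ModEq; omega⟩

def ok (c d : ℕ) (p m : ℤ) : Prop := ∀ a < 15, ∀ b < 15,
  (((a : ℕ) : ℤ) * d - (b : ℕ) * c) % 15 = 1 →
    (te b d - te a c - (p + 4 * m)) % 16 = 0 ∧ (tO d - tO c - m) % 2 = 0

instance (c d : ℕ) (p m : ℤ) : Decidable (ok c d p m) := by unfold ok; infer_instance

theorem fin1 : ∀ c < 15, ∀ d < 15, ok c d (tp c d) (tm c d) := by decide +kernel

theorem fin2 : ∀ c < 15, ∀ a < 15, te (-((a : ℕ) : ℤ)) (-((c : ℕ) : ℤ)) = te a c ∧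
    tO (-(c : ℤ)) = tO c ∧ (te a (2 * c) - 13 * te a c) % 16 = 0 ∧ tO (2 * c) = tO c := by
  decide +kernel

theorem step {a b c d : ℤ} (h : a * d - b * c = 1) :
    (te b d - te a c - (tp c d + 4 * tm c d)) % 16 = 0 ∧ (tO d - tO c - tm c d) % 2 = 0 := by
  obtain ⟨a', a1, a2⟩ := res a
  obtain ⟨b', b1, b2⟩ := res b
  obtain ⟨c', c1, c2⟩ := res c
  obtain ⟨d', d1, d2⟩ := res d
  have e : idx c d = idx c' d' := by rw [idx_emod, c2.eq, d2.eq, ← idx_emod]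
  have := fin1 c' c1 d' d1 a' a1 b' b1 (by
    have := (a2.mul d2).sub (b2.mul c2)
    rw [h] at this
    exact this.symm)
  rwa [te_congr b2 d2, te_congr a2 c2, tO_congr c2, tO_congr d2, tp, tm, e]

theorem two (a c : ℤ) : te (-a) (-c) = te a c ∧ tO (-c) = tO c ∧
    (te a (2 * c) - 13 * te a c) % 16 = 0 ∧ tO (2 * c) = tO c := by
  obtain ⟨a', a1, a2⟩ := res a
  obtain ⟨c', c1, c2⟩ := res c
  rw [te_congr a2.neg c2.neg, tO_congr c2.neg, te_congr a2 (c2.mul_left 2), te_congr a2 c2,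
    tO_congr (c2.mul_left 2), tO_congr c2]
  exact fin2 c' c1 a' a1

theorem te_nv (k : ℕ) : ∀ a b c d x y : ℤ, a * d - b * c = 1 → IsCoprime x y → y.natAbs < k →
    (te (a * x + b * y) (c * x + d * y) - te a c -
      (nv tp k c d x y + 4 * nv tm k c d x y)) % 16 = 0 ∧
    (tO (c * x + d * y) - tO c - nv tm k c d x y) % 2 = 0 := by
  induction k with
  | zero => intro _ _ _ _ _ _ _ _ h; omega
  | succ k ih =>
    intro a b c d x y hg hxy hk
    unfold nv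
    split_ifs with hy
    · subst hy
      rcases Int.isUnit_iff.1 (isCoprime_zero_right.1 hxy) with rfl | rfl
      · simp
      · simp [(two a c).1, (two a c).2.1]
    · have h1 := Int.emod_nonneg x hy
      have h2 := Int.emod_lt x hy
      have h3 := Int.emod_add_mul_ediv x y
      have h5 : IsCoprime y (-(x % y)) := by
        rw [IsCoprime.neg_right_iff, Int.emod_def, sub_eq_add_neg, ← mul_neg]
        exact hxy.symm.add_mul_left_right _
      have := ih (b + x / y * a) (-a) (d + x / y * c) (-c) y (-(x % y))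
        (by linear_combination hg) h5 (by omega)
      have h4 := step (a := a) (b := b + x / y * a) (c := c) (d := d + x / y * c)
        (by linear_combination hg)
      rw [show a * x + b * y = (b + x / y * a) * y + -a * -(x % y) by linear_combination -a * h3,
        show c * x + d * y = (d + x / y * c) * y + -c * -(x % y) by linear_combination -c * h3]
      omega

theorem te_eq {a c : ℤ} (h : IsCoprime a c) :
    (te a c - (nP a c + 4 * nM a c)) % 16 = 0 ∧ (tO c - nM a c) % 2 = 0 := by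
  have := te_nv (c.natAbs + 1) 1 0 0 1 a c (by norm_num) h (by omega)
  rw [show te 1 0 = 0 by decide, show tO 0 = 0 by decide] at this
  simpa [nP, nM] using this

end TAF

open TAF in
theorem t_AF : AF := by
  rintro a _ h ⟨c, rfl⟩
  have e : nP (2 * a) (2 * c) = nP a c ∧ nM (2 * a) (2 * c) = nM a c := by
    apply coeff_eq
    rw [← lv_eq, lv_mul two_ne_zero, lv_eq]
  have h1 := te_eq h
  have h2 := te_eq h.of_mul_right_right
  have h3 := (two a c).2.2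
  rw [e.1, e.2]
  omega

end Pool.Agent.P.MP_9c97e9_nt.K2
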