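import Pool.Agent.P.MP_9c97e9_nt.K2.IfA
import Pool.Agent.P.MP_9c97e9_nt.KT.TANAB

/-! Hecke relations for the halved differences of modular symbols. -/

namespace Pool.Agent.P.MP_9c97e9_nt.K2

open MP_8b7eba_nt MP_8b7eba_nt.R2 KT MP_8b7eba_nt.Mod
open Finset
open KT.TANA (sum_split per_mod sum_mul_cop nM_mul vv two_vv)

namespace TAN2

theorem two_ww (hAF : AF) {a M : ℕ} (ha : Odd a) (h0 : M ≠ 0) (hM : 2 ∣ M) :
    2 * ww a M = nM a M - nM (2 * a : ℕ) M := by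
  refine Int.mul_ediv_cancel' ?_
  obtain ⟨g, a', M', hg, hc, rfl, rfl⟩ := Nat.exists_coprime' (Nat.gcd_pos_of_pos_right a
    (Nat.pos_of_ne_zero h0))
  have h1 : 2 ∣ M' := (Nat.coprime_two_left.2 (Nat.Odd.of_mul_right ha)).dvd_of_dvd_mul_right hM
  have hg' : (g : ℤ) ≠ 0 := by exact_mod_cast hg.ne'
  have h2 := (hAF a' M' (Nat.isCoprime_iff_coprime.2 hc) (by exact_mod_cast h1)).2
  rw [← nM_mul hg' a', ← nM_mul hg' (2 * a')] at h2
  convert h2 using 3 <;> push_cast <;> ring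

theorem ww_add (a M t : ℕ) : ww (a + t * M) M = ww a M := by
  have e : ((2 * (a + t * M) : ℕ) : ℤ) = (2 * a : ℕ) + (2 * t) * M := by push_cast; ring
  rw [ww, ww, e, (nP_add_mul _ _ _).2, Nat.cast_add, Nat.cast_mul t, (nP_add_mul _ _ _).2]

theorem ww_mul {k : ℕ} (hk : k ≠ 0) (a M : ℕ) : ww (k * a) (k * M) = ww a M := by
  have hk' : (k : ℤ) ≠ 0 := by exact_mod_cast hk
  rw [ww, ww, mul_left_comm 2 k, Nat.cast_mul k, Nat.cast_mul k, Nat.cast_mul k, nM_mul hk',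
    nM_mul hk']

theorem ww_neg (hAF : AF) {a b M : ℕ} (ha : a % 2 = 1) (h0 : M ≠ 0) (hM : 2 ∣ M)
    (h : a + b = M) : ww a M = -ww b M := by
  have e : (a : ℤ) = -b + 1 * M := by rw [← h]; push_cast; ring
  have e' : ((2 * a : ℕ) : ℤ) = -(2 * b : ℕ) + 2 * M := by rw [← h]; push_cast; ring
  have h1 := two_ww hAF (Nat.odd_iff.2 ha) h0 hM
  have h2 := two_ww hAF (a := b) (Nat.odd_iff.2 (by omega)) h0 hM
  rw [e', e, (nP_add_mul _ _ _).2, (nP_add_mul _ _ _).2, (nP_neg _ _).2, (nP_neg _ _).2] at h1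
  omega

theorem ww_vv {a M : ℕ} (h0 : M ≠ 0) (hM : M.Coprime 15) : ww a M = vv a M - vv (2 * a) M := by
  rw [ww, ← two_vv h0 hM, ← two_vv h0 hM]
  omega

theorem nM_hecke1 {p M : ℕ} (hp : p.Prime) (h0 : M ≠ 0) (a : ℕ) :
    ∑ j ∈ range p, nM (a + j * M : ℕ) (M * p : ℕ) + (if p ∣ 15 then 0 else nM (p * a : ℕ) M) =
      an p * nM a M := by
  have hq : (M : ℚ) ≠ 0 := by exact_mod_cast h0
  have hq' : (p : ℚ) ≠ 0 := by exact_mod_cast hp.ne_zero
  have hz : (M : ℤ) ≠ 0 := by exact_mod_cast h0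
  have h1 : M * p ≠ 0 := mul_ne_zero h0 hp.ne_zero
  have h := hecke_lam hp (a / M)
  have e1 : ∀ j : ℕ, lam ((a / M + j) / p) = lv ((a + j * M : ℕ) : ℤ) ((M * p : ℕ) : ℤ) := fun j => by
    rw [lv_of_ne _ (by exact_mod_cast h1)]
    congr 1
    push_cast
    field_simp
  have e2 : lam (p * (a / M)) = lv ((p * a : ℕ) : ℤ) M := by
    rw [lv_of_ne _ hz]
    congr 1
    push_cast
    ring
  have e3 : lam (a / M) = lv a M := by rw [lv_of_ne _ hz]; rfl
  simp only [e1, e2, e3, lv_eq] at h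
  exact (coeff_eq (a := ∑ j ∈ range p, nP ((a + j * M : ℕ) : ℤ) ((M * p : ℕ) : ℤ) +
    if p ∣ 15 then 0 else nP ((p * a : ℕ) : ℤ) M) (c := an p * nP a M) (by
      simp only [sum_add_distrib, ← sum_mul] at h
      split_ifs at h ⊢ <;> push_cast at h ⊢ <;> linear_combination h)).2

theorem nM_hecke {p M u : ℕ} (hp : p.Prime) (h0 : M ≠ 0) (hu : u.Coprime p) (a : ℕ) :
    ∑ j ∈ range p, nM (u * (a + j * M) : ℕ) (M * p : ℕ) =
      an p * nM (u * a : ℕ) M - if p ∣ 15 then 0 else nM (u * (p * a) : ℕ) M := by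
  have h := sum_mul_cop (g := fun j => nM (u * a + j * M : ℕ) (M * p : ℕ)) (fun j => by
    rw [← (nP_add_mul (u * a + j * M : ℕ) (M * p : ℕ) 1).2]
    congr 1
    push_cast
    ring) hu
  rw [← nM_hecke1 hp h0, ← h, mul_left_comm p, add_sub_cancel_right]
  exact sum_congr rfl fun j _ => by rw [mul_add, mul_assoc]

theorem ww_hecke (hAF : AF) {p M a : ℕ} (hp : p.Prime) (h2 : Odd p) (h0 : M ≠ 0) (hM : 2 ∣ M)
    (ha : Odd a) : ∑ j ∈ range p, ww (a + j * M) (M * p) =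
      an p * ww a M - if p ∣ 15 then 0 else ww (p * a) M := by
  have a1 := nM_hecke hp h0 (Nat.coprime_one_left p) a
  have a2 := nM_hecke hp h0 (Nat.coprime_two_left.2 h2) a
  have a3 := two_ww hAF ha h0 hM
  have a4 := two_ww hAF (h2.mul ha) h0 hM
  have a5 : 2 * ∑ j ∈ range p, ww (a + j * M) (M * p) =
      ∑ j ∈ range p, nM (a + j * M : ℕ) (M * p : ℕ) -
        ∑ j ∈ range p, nM (2 * (a + j * M) : ℕ) (M * p : ℕ) := by
    rw [mul_sum, ← sum_sub_distrib]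
    exact sum_congr rfl fun j _ => two_ww hAF
      (ha.add_even (even_iff_two_dvd.2 (hM.mul_left j))) (mul_ne_zero h0 hp.ne_zero)
      (hM.mul_right p)
  simp only [one_mul] at a1
  rw [a1, a2] at a5
  refine mul_left_cancel₀ (two_ne_zero (α := ℤ)) ?_
  split_ifs at a5 ⊢
  · linear_combination a5 - an p * a3
  · linear_combination a5 - an p * a3 + a4

/-- the Hecke relation for weighted sums -/
theorem push (hAF : AF) {R : Type} [CommRing R] {f : ℕ → R} {p M : ℕ} (hp : p.Prime) (h2 : Odd p)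
    (h0 : M ≠ 0) (hM : 2 ∣ M) (hf : ∀ a, f (a + M) = f a) (ho : ∀ a, ¬ Odd a → f a = 0) :
    ∑ ν ∈ range (M * p), f ν * ww ν (M * p) = an p * ∑ a ∈ range M, f a * ww a M -
      if p ∣ 15 then 0 else ∑ a ∈ range M, f a * ww (p * a) M := by
  have e0 : (if p ∣ 15 then 0 else ∑ a ∈ range M, f a * ww (p * a) M) =
      ∑ a ∈ range M, f a * ((if p ∣ 15 then 0 else ww (p * a) M : ℤ) : R) := by
    split_ifs <;> simp
  rw [e0, sum_split, mul_sum, ← sum_sub_distrib]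
  refine sum_congr rfl fun a _ => ?_
  have e : ∀ j, f (a + j * M) = f a := fun j => by
    rw [← per_mod hf, Nat.add_mul_mod_self_right, per_mod hf]
  simp only [e, ← mul_sum]
  by_cases ha : Odd a
  · rw [← Int.cast_sum, ww_hecke hAF hp h2 h0 hM ha, Int.cast_sub, Int.cast_mul]
    ring
  · simp [ho a ha]

/-- the base case: an odd number -/
theorem base (m : ℕ) : Odd (∑ ν ∈ range (2 ^ (m + 2)),
    (if ν % 4 = 1 then 1 else 0 : ℤ) * ww ν (2 ^ (m + 2))) := by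
  have h := KT.TANA.base m
  have e : ∀ ν, ww ν (2 ^ (m + 2)) = vv ν (2 ^ (m + 2)) - vv (2 * ν) (2 ^ (m + 2)) := fun ν =>
    ww_vv (pow_ne_zero _ two_ne_zero) (Nat.Coprime.pow_left _ (by norm_num))
  simp only [e, mul_add, mul_sub, sum_add_distrib, sum_sub_distrib] at h ⊢
  obtain ⟨c, hc⟩ := h
  generalize ∑ ν ∈ range (2 ^ (m + 2)), (if ν % 4 = 1 then 1 else 0 : ℤ) *
    vv (2 * ν) (2 ^ (m + 2)) = y at hc ⊢
  exact ⟨c - y, by linear_combination hc⟩

end TAN2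

end Pool.Agent.P.MP_9c97e9_nt.K2
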