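import Pool.Agent.P.MP_9c97e9_nt.K2.IfEB
import Pool.Agent.P.MP_9c97e9_nt.KT.TBAS

/-! The symbols of the values of the units. -/

namespace Pool.Agent.P.MP_9c97e9_nt.K2

open scoped NNReal Matrix
open MP_8b7eba_nt.R2 KT
open Finset

namespace TCORA

theorem odd_val {M : ℕ} (h2 : 2 ∣ M) (δ : (ZMod M)ˣ) : Odd (δ : ZMod M).val :=
  Nat.coprime_two_right.1 ((ZMod.val_coe_unit_coprime δ).coprime_dvd_right h2)

theorem sc {N x y z j : ℤ} (c : ℤ) (h : N ∣ x - (y + 15 * z * j)) :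
    N ∣ c * x - (c * y + 15 * (c * z) * j) := h.trans ⟨c, by ring⟩

end TCORA

open TCORA in
theorem t_CORA (hLOG0 : LOG0) (hRVX : RVX) (hAH1 : AH1) (hSYF : SYF) (hORBS : ORBS) (hZMX : ZMX)
    (hAPX : APX) (hPRD : PRD) (hPFX : PFX) (hEEX : EEX) (hEQV : EQV) (hSHX : SHX) : CORA := by
  intro q H k K n M κ T U hC T0 T1 hT hU X₀ η hη
  have hM : M ≠ 0 := hC.ne
  have hq : q ≠ 0 := hC.aq.ne
  have hN : 15 * M ≠ 0 := mul_ne_zero (by norm_num) hM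
  have hW : 15 * M * q ≠ 0 := mul_ne_zero hN hq
  have hNq : (15 * M).Coprime q := hC.aq.c15 hC.cop
  have hd : 2 ^ k ∣ M := hC.dvd
  have h2 : 2 ∣ M := (dvd_pow_self 2 hC.pos.ne').trans hd
  obtain ⟨X₁, hX⟩ := hLOG0.2.2 ‖T‖₊ (K + k) T1
  obtain ⟨s1, s2⟩ := hSHX q M hq hM
  set η₀ : ℝ≥0 := (2 ^ (k + 2))⁻¹ with hη₀
  have e0 : 0 < η₀ := by positivity
  have e4 : (η₀ : ℝ) ≤ 4⁻¹ := by
    rw [hη₀]; push_cast
    exact inv_anti₀ (by norm_num) (by rw [pow_add]; linarith [one_le_pow₀ (n := k) (one_le_two (α := ℝ))])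
  have e1 : η₀ < 1 := by
    rw [← NNReal.coe_lt_coe]; exact e4.trans_lt (by norm_num)
  have key : ∀ b₁ b₂ i₁ i₂ : ℤ, ∃ L₀ : ℕ, Gz (15 * M) i₁ i₂ → ∀ X, L₀ ≤ X → ∀ t : Om,
      ‖i2 t - T‖ ≤ η₀ * ‖T‖ →
      PF k X (zM (15 * M * q) 1) t (U b₁ b₂ i₁ i₂) (q * i₂) (15 * q * i₁) (JJ q (15 * M) b₁ i₁)
        (EE q (15 * M) b₁ b₂ i₁ i₂) := fun b₁ b₂ i₁ i₂ => by
    by_cases hb : Gz (15 * M) i₁ i₂
    · obtain ⟨e, he, h⟩ := hPRD q (15 * M) b₁ b₂ i₁ i₂ hq hN hNq hb.not_dvd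
      obtain ⟨L₀, h⟩ := h T _ T0 T1 (hU b₁ b₂ i₁ i₂ hb) η₀ e0 e1
      exact ⟨L₀, fun _ X hX t ht => hPFX q (15 * M) k X (X + 1) b₁ b₂ i₁ i₂ e t _ hq hN hNq
        hb.not_dvd (hd.mul_left 15) he X.lt_succ_self (h _ (by omega) t ht)⟩
    · exact ⟨0, fun h => absurd h hb⟩
  choose L hL using key
  set X := X₀ + X₁ + (Ix q M).sup fun i => uX L i + vX L i with hXd
  obtain ⟨t, ft, ht⟩ := hAPX.1 H (15 * M * q) T (min η₀ η) hW T0 (lt_min e0 hη) hT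
  have ht0 : ‖i2 t - T‖ ≤ η₀ * ‖T‖ := ht.trans (by gcongr; exact min_le_left _ _)
  have hn : ‖i2 t‖ = ‖T‖ := by
    have : ‖i2 t - T‖ < ‖T‖ :=
      ht0.trans_lt (mul_lt_of_lt_one_left (norm_pos_iff.2 T0) (by exact_mod_cast e1))
    rw [← sub_add_cancel (i2 t) T, IsUltrametricDist.norm_add_eq_max_of_norm_ne_norm this.ne,
      max_eq_right this.le]
  have hv : w2.v t = ‖T‖₊ := NNReal.eq (by rw [KT.t_BAS.2.2.1, hn, coe_nnnorm])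
  have t0 : t ≠ 0 := fun e => T0 (by rw [← norm_eq_zero, ← hn, e, map_zero, norm_zero])
  obtain ⟨j, a, hA, hj⟩ := s2 H t hC.cy t0 ft
  set S := H ⊓ MulAction.stabilizer GQ t
  have hS : w2.Loc S := hC.lh.1.inf (isOpen_stab t)
  have hLS : LH S K := (hRVX _ _ hC.lh).2.1 S hS inf_le_left
  have fS : Fix S t := fun g hg => hg.2
  have hMo : Mo S k K X (zM (15 * M * q) 1) κ t :=
    ⟨hLS, hC.pos, hC.le, fun g hg => ((hZMX.1 _ hW).2.2.2.1 g).1 (hC.cy g hg.1), hC.ok,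
      ⟨15 * n * q, (Odd.mul (by decide) hC.odd).mul hC.aq.odd, hC.ze⟩, fS, t0, hv.trans_lt T1, fun m hm => hX t hv.le m (by omega)⟩
  have q0 := fun σ hσ => hEQV H q (15 * M) T U t hC.lh.1.le hq hN hNq hC.cy T0 T1 hT hU ft
    (ht0.trans (by gcongr)) σ hσ (j σ) (hj σ hσ).1
  have q1 : Eqi H a fun i => uX U i := fun σ hσ i => by
    obtain ⟨b1, b2, -, b0, b4, -⟩ := (hj σ hσ).2 i
    simp only [uX, b1, b2]
    exact (q0 σ hσ _ _ _ _ _ _ (Ix_gz hM i.2).1 b0 (sc 5 b4)).symm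
  have q2 : Eqi H a fun i => vX U i := fun σ hσ i => by
    obtain ⟨b1, -, b3, b0, -, b5, -⟩ := (hj σ hσ).2 i
    simp only [vX, b1, b3]
    exact (q0 σ hσ _ _ _ _ _ _ (Ix_gz hM i.2).2 b0 (sc 3 b5)).symm
  refine ⟨X, t, S, a, by omega, ft, hn, ht.trans ((mul_le_of_le_one_right
    (le_min η₀.coe_nonneg hη.le) T1.le).trans (min_le_right _ _)), hS, inf_le_left, hA, q1, q2, fun σ hσ i => ?_,
    fun σ hσ i => ?_, (hAH1 S k K hC.le hLS t fS t0).1, fun i hi => ?_⟩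
  · obtain ⟨b1, b2, b3, b0, b4, b5, -⟩ := (hj σ hσ).2 i
    simp only [EPr, uX, vX, b1, b2, b3]
    exact (hEEX q (15 * M) X _ _ _ _ _ _ _ _ _ _ σ t hq hN (hC.cy σ hσ) (hj σ hσ).1 b0 (sc 5 b4)
      (sc 3 b5)).symm
  · obtain ⟨b1, b2, b3, -, -, -, b6⟩ := (hj σ hσ).2 i
    exact ⟨b6, by simp only [JPr, b1, b2, b3]⟩
  obtain ⟨-, ⟨R, hR⟩, o3⟩ := hORBS H hC.lh.1 _ a _ hA
  have hle : uX L i + vX L i ≤ X :=
    (le_sup (f := fun i : IT => uX L i + vX L i) hi).trans (Nat.le_add_left _ _)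
  obtain ⟨c1, c2⟩ := Ix_gz hM hi
  have c3 := s1 i hi
  obtain ⟨y1, y2, -, y4, y5⟩ := hSYF S k K X _ κ t hMo (uX U i) (vX U i) _ _ _ _ _ _
    (-225 * q ^ 2 * (dI M i : ZMod M).val) _ _ ((o3 R hR _ q1).1 ⟨i, hi⟩) ((o3 R hR _ q2).1 ⟨i, hi⟩)
    (hL _ _ _ _ c1 X (le_of_add_le_left hle) t ht0)
    (hL _ _ _ _ c2 X (le_of_add_le_right hle) t ht0)
    ((Odd.mul (by decide) hC.aq.odd.natCast.pow).mul (odd_val h2 _).natCast) (by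
      refine (Int.natCast_dvd_natCast.2 hd).trans (c3.trans ⟨-225 * q ^ 2, ?_⟩)
      ring)
  refine ⟨y1, y2, y4, y5.trans ?_⟩
  congr 1
  simp only [EPr, JPr, uX, vX]
  push_cast
  ring

end Pool.Agent.P.MP_9c97e9_nt.K2
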