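import Pool.Agent.P.MP_9c97e9_nt.K2.IfC
import Pool.Agent.P.MP_9c97e9_nt.KT.TCXC1

/-! The part of the first constant term. -/

namespace Pool.Agent.P.MP_9c97e9_nt.K2

open KT
open KT.Cx (sw zc eS sw_congr)
open KT.TCXC1 (single)
open PowerSeries Finset

namespace TCXC1

theorem dvd_iff {W e x y : ℤ} (c : ℤ) (he : e ∣ W) (h : W ∣ c) (hxy : x = y + c) :
    e ∣ x ↔ e ∣ y := by rw [hxy, dvd_add_left (he.trans h)]

/-- the conditions only depend on the classes -/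
theorem cnd_congr {q M : ℕ} {ν n n' A A' C B B' D : ℤ} (hA : ((15 * M * q : ℕ) : ℤ) ∣ A - A')
    (hB : ((15 * M * q : ℕ) : ℤ) ∣ B - B') : cnd q M ν n n' A C B D ↔ cnd q M ν n n' A' C B' D := by
  have h3 : (3 : ℤ) ∣ (15 * M * q : ℕ) := ⟨5 * M * q, by push_cast; ring⟩
  have h5 : (5 : ℤ) ∣ (15 * M * q : ℕ) := ⟨3 * M * q, by push_cast; ring⟩
  have hq : (q : ℤ) ∣ (15 * M * q : ℕ) := ⟨15 * M, by push_cast; ring⟩
  have hM : (M : ℤ) ∣ (15 * M * q : ℕ) := ⟨15 * q, by push_cast; ring⟩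
  rw [cnd, cnd, dvd_iff (x := A) (y := A') _ h5 hA (by ring),
    dvd_iff (x := A) (y := A') _ h3 hA (by ring), dvd_iff (x := B) (y := B') _ h3 hB (by ring),
    dvd_iff (x := B) (y := B') _ h5 hB (by ring),
    dvd_iff (x := n' * A - n * B) (y := n' * A' - n * B') _ hq
      ((hA.mul_left n').sub (hB.mul_left n)) (by ring),
    dvd_iff (x := C + ν * B) (y := C + ν * B') _ hM (hB.mul_left ν) (by ring),
    dvd_iff (x := D - ν * A) (y := D - ν * A') _ hM (hA.mul_left ν).neg_right (by ring)]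

theorem sw15 (K : ℕ) (A : ℤ) : sw (15 * K) (15 * A) = sw K A := by
  rw [sw, sw]
  congr 1
  push_cast
  rw [mul_div_mul_left _ _ (by norm_num)]

theorem sw_per {M q : ℕ} (h : 0 < M * q) {A A' : ℤ} (e : A ≡ A' [ZMOD (15 * M * q : ℕ)]) :
    sw (M * q) A = sw (M * q) A' :=
  sw_congr h (by have := e.symm.dvd; push_cast at this ⊢; rwa [← mul_assoc])

theorem ite_per {W : ℕ} (x : ℤ) (c : ℂ) {B B' : ℤ} (e : B ≡ B' [ZMOD W]) :
    (if (W : ℤ) ∣ x - B then c else 0) = if (W : ℤ) ∣ x - B' then c else 0 :=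
  if_congr (dvd_iff (B' - B) dvd_rfl e.dvd (by ring)) rfl rfl

theorem coeff_sI (q M m : ℕ) (δ : (ZMod M)ˣ) (Φ : F6 ℂ⟦X⟧) {ι : Type} (s : Finset ι)
    (Ψ : ι → F6 ℂ) (h : ∀ b₁ b₂ i₁ i₂ j₁ j₂, coeff m (Φ b₁ b₂ i₁ i₂ j₁ j₂) =
      ∑ p ∈ s, Ψ p b₁ b₂ i₁ i₂ j₁ j₂) : coeff m (sI q M δ Φ) = ∑ p ∈ s, sI q M δ (Ψ p) := by
  simp only [sI, map_sum, h]
  exact sum_comm

theorem coeff_e0 (hCXES : CXES) (q M : ℕ) (n b₁ b₂ i₁ i₂ : ℤ) :
    coeff (15 * M * q) (e0 q (15 * M) n b₁ b₂ i₁ i₂) =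
      ∑ p ∈ ((M * q : ℕ) : ℤ).divisorsAntidiag,
        if ((15 * M * q : ℕ) : ℤ) ∣ p.1 - aB q (15 * M) b₁ i₁ n then
          -(p.1.sign : ℂ) * zc (15 * M * q) (aB q (15 * M) b₂ i₂ n * p.2) else 0 := by
  rw [e0, hCXES, if_pos ⟨M * q, mul_assoc _ _ _⟩,
    show 15 * M * q / 15 = M * q by rw [mul_assoc, Nat.mul_div_cancel_left _ (by norm_num)]]

theorem c0_eq (q M : ℕ) (n b₁ b₂ i₁ i₂ : ℤ) :
    c0 q (15 * M) n b₁ b₂ i₁ i₂ = C (sw (M * q) (aB q (15 * M) b₁ i₁ n) : ℂ) := by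
  rw [c0, mul_assoc, sw15]

end TCXC1

open TCXC1 in
theorem t_CXC1 (hCXES : CXES) (hCXRE : CXRE) : CXC1 := by
  classical
  intro q M δ n n' hq hM hc hn
  have h0 : 0 < M * q := Nat.pos_of_ne_zero (mul_ne_zero hM hq.ne)
  have hW : 0 < 15 * M * q := by rw [mul_assoc]; omega
  let F : ℤ × ℤ → ℤ → ℤ → ℂ := fun p A B =>
    sw (M * q) A * if ((15 * M * q : ℕ) : ℤ) ∣ p.1 - B then -(p.1.sign : ℂ) else 0
  rw [coeff_sI q M _ δ _ ((M * q : ℕ) : ℤ).divisorsAntidiag (fun p b₁ b₂ i₁ i₂ j₁ j₂ =>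
    F p (aB q (15 * M) b₁ (5 * i₁) n) (aB q (15 * M) b₁ (3 * j₁) n') * zc (15 * M * q)
      (aB q (15 * M) b₂ (5 * i₂) n * 0 + aB q (15 * M) b₂ (3 * j₂) n' * p.2))
    fun b₁ b₂ i₁ i₂ j₁ j₂ => by
      rw [pr, c0_eq, coeff_C_mul, coeff_e0 hCXES, mul_sum]
      refine sum_congr rfl fun p _ => ?_
      simp only [F, mul_zero, zero_add]
      split_ifs <;> ring,
    sum_congr rfl fun p _ => hCXRE q M δ n n' 0 p.2 (F p) hq hM hc hn fun A A' B B' hA hB => by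
      simp only [F, sw_per h0 hA, ite_per p.1 _ hB], ← mul_sum]
  congr 1
  simp only [En1, Rat.cast_sum, mul_sum, ← mul_assoc 15]
  rw [sum_comm, sum_comm (s := range M)]
  refine sum_congr rfl fun A _ => ?_
  rw [sum_comm (s := range M)]
  refine sum_congr rfl fun p _ => ?_
  refine Eq.trans (sum_congr rfl fun B _ => ?_) ((single hW p.1 (fun B => ∑ ν ∈ range M,
    if cnd q M ν n n' A 0 B p.2 then -(p.1.sign : ℂ) * sw (M * q) A *
      zc M (ν * (q * (δ : ZMod M).val)) else 0) fun x hx => sum_congr rfl fun ν _ =>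
        if_congr (cnd_congr (by simp) hx).symm rfl rfl).trans (sum_congr rfl fun ν _ => ?_))
  · simp only [F]
    split_ifs
    · refine sum_congr rfl fun ν _ => ?_
      split_ifs <;> ring
    · simp
  · split_ifs
    · push_cast; ring
    · simp

end Pool.Agent.P.MP_9c97e9_nt.K2
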