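import Pool.Agent.P.MP_9c97e9_nt.K2.IfC

/-! The first end term. -/

namespace Pool.Agent.P.MP_9c97e9_nt.K2

open KT
open KT.Cx (sw)
open MP_8b7eba_nt.BSD15 (saw saw_neg endT endT_eq endT_of_not Gam dt width)
open Finset

namespace TCXE1

theorem shape {W g M : ℕ} (hg : 0 < g) (hM : 0 < M) (hW : W = g * M) {p : ℤ × ℤ}
    (hp : p ∈ (W : ℤ).divisorsAntidiag) (h1 : (M : ℤ) ∣ p.1) (h2 : (g : ℤ) ∣ p.2) :
    ∃ s : ℤ, s * s = 1 ∧ p = (s * M, s * g) := by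
  obtain ⟨x, y⟩ := p
  obtain ⟨u, rfl⟩ : (M : ℤ) ∣ x := h1
  obtain ⟨v, rfl⟩ : (g : ℤ) ∣ y := h2
  have hgM : ((g * M : ℕ) : ℤ) ≠ 0 := by positivity
  have e := (Int.mem_divisorsAntidiag.1 hp).1
  rw [hW] at e
  have : u * v = 1 := mul_left_cancel₀ hgM (by push_cast at e ⊢; linear_combination e)
  rcases Int.eq_one_or_neg_one_of_mul_eq_one' this with ⟨rfl, rfl⟩ | ⟨rfl, rfl⟩
  · exact ⟨1, rfl, by simp⟩
  · exact ⟨-1, rfl, by simp⟩

theorem two (hSD : CXSD) {W g M k N : ℕ} (hg : 0 < g) (hM : 0 < M) (hk : 0 < k) (hN : 0 < N)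
    (hW : W = g * M) (hkN : 15 * W = k * N) (c : ℤ) (P : ℕ → ℤ × ℤ → Prop)
    [∀ B p, Decidable (P B p)]
    (h0 : ∀ B p, P B p → (M : ℤ) ∣ p.1 ∧ (g : ℤ) ∣ p.2)
    (h1 : ∀ (B : ℕ) (s : ℤ), s * s = 1 → (P B (s * M, s * g) ↔ (N : ℤ) ∣ B - s * c)) :
    (∑ B ∈ range (15 * W), ∑ p ∈ (W : ℤ).divisorsAntidiag,
      if P B p then -(p.1.sign : ℚ) * sw W B else 0) = -2 * saw (c / N) := by
  have hW0 : (W : ℤ) ≠ 0 := by rw [hW]; positivity
  have key : ∀ s : ℤ, s * s = 1 → (∑ B ∈ range (15 * W),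
      if P B (s * M, s * g) then sw W B else 0) = saw ((s * c : ℤ) / N) := by
    intro s hs
    have := hSD k N (s * c) hk hN
    have e : (k : ℚ) * N = 15 * W := by exact_mod_cast hkN.symm
    rw [← hkN, e] at this
    rw [← this]
    refine sum_congr rfl fun B _ => if_congr (h1 B s hs) ?_ rfl
    rw [sw, Int.cast_natCast]
  have k1 := key 1 rfl
  have k2 := key (-1) rfl
  simp only [one_mul, neg_mul, Int.cast_neg, neg_div, saw_neg] at k1 k2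
  rw [sum_comm, ← sum_subset (s₁ := {((M : ℤ), (g : ℤ)), (-(M : ℤ), -(g : ℤ))}),
    sum_pair (by simp; omega)]
  · simp only [Int.sign_neg, Int.sign_natCast_of_ne_zero hM.ne', Int.cast_neg, Int.cast_one,
      neg_neg, one_mul, neg_mul, k2]
    rw [two_mul, neg_add]
    congr 1
    rw [← k1, ← sum_neg_distrib]
    exact sum_congr rfl fun B _ => by split_ifs <;> simp
  · intro p hp
    rw [Int.mem_divisorsAntidiag]
    refine ⟨?_, hW0⟩
    rw [hW]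
    rcases mem_insert.1 hp with rfl | hp
    · push_cast; ring
    · rw [mem_singleton.1 hp]; push_cast; ring
  · intro p hp hn
    refine sum_eq_zero fun B _ => if_neg fun h => hn ?_
    obtain ⟨s, hs, rfl⟩ := shape hg hM hW hp (h0 B _ h).1 (h0 B _ h).2
    rcases Int.eq_one_or_neg_one_of_mul_eq_one hs with rfl | rfl <;> simp

theorem dvd1 {g M : ℕ} (hg : 0 < g) {x : ℤ} : ((g * M : ℕ) : ℤ) ∣ g * x ↔ (M : ℤ) ∣ x := by
  rw [Nat.cast_mul, mul_dvd_mul_iff_left (by positivity)]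

theorem val {M w : ℕ} (hw : 15 / Int.gcd M 15 = w) {ν : ℤ} (hν : IsCoprime ν M) {y y' : ℤ × ℤ}
    {γ : Gam} (h : γ.act y = (ν, (M : ℤ))) :
    endT (ν, M) (1, 0) y y' = saw ((γ.act y').2 / dt (ν, M) (γ.act y') / (w * M)) := by
  have e : width (ν, M) = w := hw
  rw [endT_eq (x := (ν, M)) _ _ hν γ h, e, MP_8b7eba_nt.BSD15.dl,
    show dt (γ.act y') (1, 0) = -(γ.act y').2 by simp [dt],
    show dt (ν, M) (1, 0) = -M by simp [dt]]
  congr 1
  push_cast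
  ring

theorem n15 {q : ℕ} (h : Aq q) : ¬ q ∣ 15 := fun h' => by
  have := Nat.le_of_dvd (by norm_num) h'
  have := h.lt
  omega

theorem gcd_eq {M a b : ℕ} (hab : a * b = 15) (hb : b.Prime) (h1 : (a : ℤ) ∣ M)
    (h2 : ¬ (b : ℤ) ∣ M) : 15 / Int.gcd M 15 = b := by
  have e : Int.gcd M 15 = Nat.gcd M 15 := Int.gcd_natCast_natCast M 15
  have c : Nat.Coprime M b :=
    ((Nat.Prime.coprime_iff_not_dvd hb).2 fun h => h2 (Int.natCast_dvd_natCast.2 h)).symm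
  rw [e, ← hab, c.symm.gcd_mul_right_cancel_right, Nat.gcd_eq_right (Int.natCast_dvd_natCast.1 h1)]
  exact Nat.mul_div_cancel_left b (Nat.pos_of_ne_zero fun h => by simp [h] at hab)

theorem three {M q b : ℕ} (hb : b.Prime) (hb' : b ≤ 150) (hq : Aq q) (h2 : ¬ (b : ℤ) ∣ M)
    (hMq : M.Coprime q) {x : ℤ} (d1 : (b : ℤ) ∣ x) (d2 : (q : ℤ) ∣ x) (d3 : (M : ℤ) ∣ x) :
    ((b * q * M : ℕ) : ℤ) ∣ x := by
  have c1 : b.Coprime q := hq.cop hb.ne_zero hb'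
  have c2 : b.Coprime M :=
    (Nat.Prime.coprime_iff_not_dvd hb).2 fun h => h2 (Int.natCast_dvd_natCast.2 h)
  rw [Nat.cast_mul]
  refine (Nat.isCoprime_iff_coprime.2 (c2.mul_left hMq.symm)).mul_dvd ?_ d3
  rw [Nat.cast_mul]
  exact (Nat.isCoprime_iff_coprime.2 c1).mul_dvd d1 d2

theorem gq {g q : ℕ} (h : g.Coprime q) {x : ℤ} (d1 : (g : ℤ) ∣ x) (d2 : (q : ℤ) ∣ x) :
    ((g * q : ℕ) : ℤ) ∣ x := by
  rw [Nat.cast_mul]
  exact (Nat.isCoprime_iff_coprime.2 h).mul_dvd d1 d2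

theorem nd {p s x : ℤ} (hs : s * s = 1) (h : ¬ p ∣ x) : ¬ p ∣ s * x := fun h' =>
  h (by have := h'.mul_left s; rwa [← mul_assoc, hs, one_mul] at this)

theorem dv {p s x : ℤ} (hs : s * s = 1) (h : p ∣ s * x) : p ∣ x := by
  by_contra h'
  exact nd hs h' h

end TCXE1

open TCXE1 in
theorem t_CXE1 (hCXSD : CXSD) (hCXOR : CXOR) : CXE1 := by
  classical
  intro q g M ν n n' a hq hg hM hc hν hn hn' ha h3
  have hq0 : 0 < q := hq.prime.pos
  have cg : g.Coprime q := Nat.Coprime.coprime_mul_right hc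
  have cM : M.Coprime q := Nat.Coprime.coprime_mul_left hc
  have cM' : IsCoprime (q : ℤ) M := Nat.isCoprime_iff_coprime.2 cM.symm
  have hW : g * M * q = g * q * M := by ring
  have h0 : ∀ (A : ℕ) (r : ℤ × ℤ), cnd q (g * M) (g * ν) n n' A 0 r.1 r.2 →
      (M : ℤ) ∣ r.1 ∧ ((g * q : ℕ) : ℤ) ∣ r.2 := by
    rintro A r ⟨-, -, ⟨-, h2⟩, h4, h5⟩
    refine ⟨hν.symm.dvd_of_dvd_mul_left ((dvd1 hg).1 ?_), gq cg ?_ ?_⟩
    · rwa [zero_add, mul_assoc] at h4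
    · have := (Int.natCast_dvd_natCast.2 (dvd_mul_right g M)).trans h5
      rwa [mul_assoc, dvd_sub_left (dvd_mul_right _ _)] at this
    · rw [mul_zero, zero_add] at h2
      exact hn'.symm.dvd_of_dvd_mul_left h2
  have h1 : ∀ A s : ℤ, ((g * M : ℕ) : ℤ) ∣ s * (g * q : ℕ) - g * ν * A ↔ (M : ℤ) ∣ s * q - ν * A :=
    fun A s => by
      rw [← dvd1 (M := M) hg]
      exact iff_of_eq (congrArg _ (by push_cast; ring))
  unfold En1
  by_cases hγ : ∃ γ : Gam, γ.act (Y1 q a) = (ν, (M : ℤ))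
  · obtain ⟨γ, hγ⟩ := hγ
    obtain ⟨e1, ⟨e2, e3⟩, ⟨e4, e5⟩, -, e7⟩ :=
      (hCXOR q n n' a (ν, M) (γ.act (2, 5)) hq.prime hn ha h3 (n15 hq)).1 ⟨γ, hγ, rfl⟩
    rw [val (gcd_eq (a := 3) (b := 5) rfl Nat.prime_five e4 e5) hν hγ, e1]
    generalize γ.act (2, 5) = v at e1 e2 e3 e7
    obtain ⟨y, c⟩ := v
    simp only [dt] at e1 e2 e3 e4 e5 e7 ⊢
    rw [show (c : ℚ) / ((q : ℤ) : ℚ) / ((5 : ℕ) * M) = c / ((5 * q * M : ℕ) : ℚ) by
      push_cast; rw [div_div]; congr 1; ring]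
    refine two hCXSD (k := 3 * g) (by positivity) hM (by positivity) (by positivity) hW (by ring) c
      _ h0 fun A s hs => ?_
    simp only [cnd]
    rw [h1]
    obtain ⟨t, ht⟩ := e7
    constructor
    · rintro ⟨⟨f1, -⟩, -, ⟨⟨u, hu⟩, -⟩, -, v, hv⟩
      refine three Nat.prime_five (by norm_num) hq e5 cM (f1.sub (e2.mul_left s))
        (hn'.symm.dvd_of_dvd_mul_left ⟨u - s * t, ?_⟩) (hν.symm.dvd_of_dvd_mul_left ⟨-v - s * y, ?_⟩)
      · linear_combination hu - s * ht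
      · linear_combination -hv - s * e1
    · rintro ⟨u, hu⟩
      push_cast at hu
      have hA : (A : ℤ) = s * c + 5 * q * M * u := by linear_combination hu
      refine ⟨⟨?_, fun h => ?_⟩, ⟨e4.mul_left s, nd hs e5⟩, ⟨⟨s * t + n' * 5 * M * u, ?_⟩,
        ⟨n' * s * g, ?_⟩⟩, ⟨ν * s, ?_⟩, -s * y - ν * 5 * q * u, ?_⟩
      · rw [hA]
        exact (e2.mul_left s).add ⟨q * M * u, by ring⟩
      · rw [hA, dvd_add_left ((e4.mul_left _).mul_right u)] at h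
        exact nd hs e3 h
      · linear_combination s * ht + n' * hA
      · push_cast; ring
      · push_cast; ring
      · linear_combination -s * e1 - ν * hA
  · rw [endT_of_not _ _ hγ, mul_zero]
    refine sum_eq_zero fun A _ => sum_eq_zero fun r hr => if_neg fun h => hγ ?_
    obtain ⟨s, hs, rfl⟩ := shape (by positivity) hM hW hr (h0 A r h).1 (h0 A r h).2
    obtain ⟨⟨f1, f2⟩, ⟨f3, f4⟩, ⟨⟨u, hu⟩, -⟩, -, f5⟩ := h
    obtain ⟨v, hv⟩ := (h1 A s).1 f5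
    have := (hCXOR q n n' a (ν, M) (-s * v, s * A) hq.prime hn ha h3 (n15 hq)).2
      ⟨?_, ⟨f1.mul_left s, nd hs f2⟩, ⟨dv hs f3, fun h => f4 (h.mul_left s)⟩,
        cM'.dvd_of_dvd_mul_left ⟨ν * s * u - n', ?_⟩, s * u, ?_⟩
    · obtain ⟨γ, hγ, -⟩ := this
      exact ⟨γ, hγ⟩
    · simp only [dt]
      linear_combination -s * hv + q * hs
    · simp only at hu ⊢
      linear_combination n' * s * hv + ν * s * hu + (n * ν * M - n' * q) * hs
    · simp only at hu ⊢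
      linear_combination s * hu + n * M * hs

end Pool.Agent.P.MP_9c97e9_nt.K2
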