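import Pool.Agent.P.MP_9c97e9_nt.K2.IfC

/-! The differences of the forms of weight two vanish at all cusps. -/

namespace Pool.Agent.P.MP_9c97e9_nt.K2

open KT

open MP_8b7eba_nt.Mod (M2 atI sl ev_im)
open Finset Filter Topology

namespace TCXGC

theorem no {p : ℕ} (hp : p.Prime) (h15 : ¬ p ∣ 15) {g : M2} (hg : g.det = 1) {i₁ i₂ j₁ j₂ : ℤ}
    (hD : IsCoprime (i₁ * j₂ - i₂ * j₁) (p : ℤ)) (hu : (p : ℤ) ∣ lc g (5 * i₁) (5 * i₂))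
    (hv : (p : ℤ) ∣ lc g (3 * j₁) (3 * j₂)) : False := by
  have h2 : (p : ℤ) ∣ 15 * 15 * (i₁ * j₂ - i₂ * j₁) := by
    have h3 := (hu.mul_left (g.d * (3 * j₂) + 15 * g.b * (3 * j₁))).sub
      (hv.mul_left (g.d * (5 * i₂) + 15 * g.b * (5 * i₁)))
    rw [M2.det] at hg
    refine (dvd_iff_dvd_of_dvd_sub ?_).1 h3
    exact Dvd.intro 0 (by
      simp only [lc]
      linear_combination (-225 * (i₁ * j₂ - i₂ * j₁)) * hg)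
  have h4 : IsCoprime (p : ℤ) 15 := Nat.isCoprime_iff_coprime.2 (hp.coprime_iff_not_dvd.2 h15)
  have h5 := ((h4.mul_right h4).mul_right hD.symm).isUnit_of_dvd' dvd_rfl h2
  rw [Int.isUnit_iff] at h5
  have := hp.one_lt
  omega

theorem lim {q M : ℕ} (hM : M ≠ 0) {g : M2} (hg : g.det = 1) {L : ℤ → ℤ → ℤ → ℤ → ℂ}
    (hL : ∀ b₁ b₂ i₁ i₂ : ℤ, ¬ ((15 * M : ℕ) : ℤ) ∣ i₁ →
      Tendsto (fun z => Fc q (15 * M) (g.act z) b₁ b₂ i₁ i₂ / g.j z) atI (𝓝 (L b₁ b₂ i₁ i₂)))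
    (δ : (ZMod M)ˣ) : Tendsto (sl (Gc q M δ) g) atI (𝓝 (sI q M δ (pr L L))) := by
  classical
  have e : sl (Gc q M δ) g = fun z => sI q M δ
      (pr (fun b₁ b₂ i₁ i₂ => Fc q (15 * M) (g.act z) b₁ b₂ i₁ i₂ / g.j z)
        fun b₁ b₂ i₁ i₂ => Fc q (15 * M) (g.act z) b₁ b₂ i₁ i₂ / g.j z) := by
    funext z
    rw [sl, hg, Gc, sI, sI, Int.cast_one, one_mul, sum_div]
    refine sum_congr rfl fun i _ => ?_
    rw [pr, pr, div_mul_div_comm, sq]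
  rw [e]
  refine tendsto_finsetSum _ fun i hi => ?_
  have h := ((mem_sI hM).1 hi).2.1.nd hM
  exact (hL _ _ _ _ h.1).mul (hL _ _ _ _ h.2)

theorem tr {i₁ i₂ j₁ j₂ : ℤ} (h : G35 i₁ i₂ j₁ j₂) (κ x y m : ℤ) :
    G35 (i₁ + 15 * κ * x * m) (i₂ + 15 * κ * y * m) (j₁ + 15 * κ * x * m)
      (j₂ + 15 * κ * y * m) := by
  have h3 : ∀ w : ℤ, 3 ∣ 15 * κ * w * m := fun w => ⟨5 * κ * w * m, by ring⟩
  have h5 : ∀ w : ℤ, 5 ∣ 15 * κ * w * m := fun w => ⟨3 * κ * w * m, by ring⟩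
  exact ⟨⟨mt (dvd_add_left (h3 x)).1 h.1.1, h.1.2.add (h3 y)⟩,
    mt (dvd_add_left (h5 x)).1 h.2.1, h.2.2.add (h5 y)⟩

end TCXGC

theorem t_CXGC (hCXFM : CXFM) (hCXFC : CXFC) (hCXIT : CXIT) : CXGC := by
  classical
  intro q M δ δ' hq hM hc ⟨p, m, hp, h15, e, hm⟩ g hg
  have hN : 15 * M ≠ 0 := by omega
  obtain ⟨L, hL⟩ := hCXFC q (15 * M) hq hN (hq.c15 hc) g hg
  have hper : ∀ {b₁ b₁' b₂ b₂' i₁ i₁' i₂ i₂' : ℤ}, ¬ ((15 * M : ℕ) : ℤ) ∣ i₁ → b₁ ≡ b₁' [ZMOD q] →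
      b₂ ≡ b₂' [ZMOD q] → i₁ ≡ i₁' [ZMOD (15 * M : ℕ)] → i₂ ≡ i₂' [ZMOD (15 * M : ℕ)] →
      L b₁ b₂ i₁ i₂ = L b₁' b₂' i₁' i₂' := by
    intro b₁ b₁' b₂ b₂' i₁ i₁' i₂ i₂' h h1 h2 h3 h4
    refine tendsto_nhds_unique ((hL _ _ _ _ h).1.congr' ?_)
      (hL _ _ _ _ fun h' => h (h3.dvd_iff.2 h')).1
    filter_upwards [ev_im 0] with z hz
    rw [(hCXFM q (15 * M) hq.ne hN (hq.c15 hc) b₁ b₂ i₁ i₂ _ h
      (M2.im_act_pos (by omega) hz)).1 _ _ _ _ h1 h2 h3 h4]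
  obtain ⟨Φ, hΦ⟩ : ∃ Φ : F6 ℂ, Φ = fun b₁ b₂ i₁ i₂ j₁ j₂ =>
      if (q : ℤ) ∣ lc g b₁ b₂ then 0 else pr L L b₁ b₂ i₁ i₂ j₁ j₂ := ⟨_, rfl⟩
  have hpM : (p : ℤ) ∣ M := by rw [e]; exact_mod_cast dvd_mul_left p m
  have hpN : (p : ℤ) ∣ (15 * M : ℕ) := by push_cast; exact hpM.mul_left _
  have h1 : ∀ δ : (ZMod M)ˣ, sI q M δ (pr L L) = sI q M δ Φ := fun δ =>
    sI_congr fun b₁ b₂ i₁ i₂ j₁ j₂ h hD => by
      rw [hΦ]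
      dsimp only
      split_ifs with h0
      · by_contra h2
        exact TCXGC.no hp h15 hg (hD.of_isCoprime_of_dvd_right hpM)
          (hpN.trans ((hL _ _ _ _ (h.nd hM).1).2.1 h0 (left_ne_zero_of_mul h2)))
          (hpN.trans ((hL _ _ _ _ (h.nd hM).2).2.1 h0 (right_ne_zero_of_mul h2)))
      · rfl
  have h2 : sI q M δ Φ = sI q M δ' Φ := by
    refine hCXIT q M p m δ δ' Φ (-g.c) (15 * g.a) hq.ne hM ?_ hp h15 e hm ?_ ?_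
    · intro b₁ b₁' b₂ b₂' i₁ i₁' i₂ i₂' j₁ j₁' j₂ j₂' h a1 a2 a3 a4 a5 a6
      have a7 : lc g b₁ b₂ ≡ lc g b₁' b₂' [ZMOD q] := (a1.mul_right _).add (a2.mul_right _)
      simp only [hΦ, a7.dvd_iff, pr]
      rw [hper (h.nd hM).1 a1 a2 (a3.mul_left 5) (a4.mul_left 5),
        hper (h.nd hM).2 a1 a2 (a5.mul_left 3) (a6.mul_left 3)]
    · rintro ⟨a1, a2⟩
      have h4 : IsCoprime (p : ℤ) 15 := Nat.isCoprime_iff_coprime.2 (hp.coprime_iff_not_dvd.2 h15)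
      have a3 := ((h4.dvd_of_dvd_mul_left a2).mul_right g.d).add (a1.mul_left g.b)
      rw [mul_neg, ← sub_eq_add_neg, ← M2.det, hg] at a3
      exact hp.one_lt.ne' (Nat.dvd_one.1 (Int.natCast_dvd_natCast.1 a3))
    · intro b₁ b₂ i₁ i₂ j₁ j₂ κ h
      have a1 := (TCXGC.tr h κ (-g.c) (15 * g.a) m).nd hM
      simp only [hΦ, pr]
      split_ifs with h0
      · exact ⟨rfl, rfl⟩
      · rw [(hL _ _ _ (5 * (i₂ + 15 * κ * (15 * g.a) * m)) a1.1).2.2 h0 _ (5 * i₂) (h.nd hM).1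
          (by simp only [lc]; ring), (hL _ _ _ (3 * (j₂ + 15 * κ * (15 * g.a) * m)) a1.2).2.2 h0 _
          (3 * j₂) (h.nd hM).2 (by simp only [lc]; ring)]
        exact ⟨rfl, rfl⟩
  have h3 := (TCXGC.lim hM hg (fun _ _ _ _ h => (hL _ _ _ _ h).1) δ).sub
    (TCXGC.lim hM hg (fun _ _ _ _ h => (hL _ _ _ _ h).1) δ')
  rw [h1, h1, h2, sub_self] at h3
  refine h3.congr fun z => ?_
  simp only [sl]
  ring

end Pool.Agent.P.MP_9c97e9_nt.K2
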