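import Pool.Agent.P.MP_9c97e9_nt.K2.IfU
import Pool.Agent.P.MP_9c97e9_nt.KT.TEINV
import Pool.Agent.P.MP_9c97e9_nt.KT.TTWA

/-! The action of matrices on the indices of the symbols. -/

namespace Pool.Agent.P.MP_9c97e9_nt.K2

open MP_8b7eba_nt.R2 KT

namespace TEINV

/-- injectivity of the action -/
theorem ac4_inj {a b c d : ℤ} {N : ℕ} (h : IsUnit ((a * d - 15 * b * c : ℤ) : ZMod N)) :
    Function.Injective (ac4 a b c d : VZ N → VZ N) := fun v w e => by
  have h1 := congrArg Prod.fst e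
  have h2 := congrArg Prod.snd e
  simp only [ac4] at h1 h2
  push_cast at h
  exact Prod.ext (h.mul_left_cancel (by linear_combination d * h1 - c * h2))
    (h.mul_left_cancel (by linear_combination a * h2 - 15 * b * h1))

/-- bijectivity of the action -/
theorem ac4_bij {a b c d : ℤ} {N : ℕ} [NeZero N]
    (h : IsUnit ((a * d - 15 * b * c : ℤ) : ZMod N)) :
    Function.Bijective (ac4 a b c d : VZ N → VZ N) :=
  Finite.injective_iff_bijective.1 (ac4_inj h)

/-- units modulo a divisor -/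
theorem unit_dvd {M N : ℕ} (hd : M ∣ N) {x : ℤ} (h : IsUnit (x : ZMod N)) :
    IsUnit (x : ZMod M) := by
  simpa using h.map (ZMod.castHom hd (ZMod M))

/-- the determinant is multiplied by the determinant of the matrix -/
theorem dv_ac4 {M N : ℕ} (hd : M ∣ N) (a b c d : ℤ) (v v' : VZ N) :
    dv M (ac4 a b c d v) (ac4 a b c d v') = dv M v v' * ((a * d - 15 * b * c : ℤ) : ZMod M) := by
  have e : (ac4 a b c d v).1 * (ac4 a b c d v').2 - (ac4 a b c d v).2 * (ac4 a b c d v').1 =
      (v.1 * v'.2 - v.2 * v'.1) * ((a * d - 15 * b * c : ℤ) : ZMod N) := by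
    simp only [ac4]
    push_cast
    ring
  rw [dv, e, dv, ZMod.cast_mul hd, ZMod.cast_intCast hd]

/-- the condition modulo three or five is stable -/
theorem Ge_ac4 {e N : ℕ} (he : e ∣ 15) (hN : e ∣ N) {a b c d : ℤ}
    (h : IsUnit ((a * d - 15 * b * c : ℤ) : ZMod e)) (v : VZ N) :
    Ge e (ac4 a b c d v) ↔ Ge e v := by
  have h0 : (15 : ZMod e) = 0 := by exact_mod_cast (ZMod.natCast_eq_zero_iff 15 e).2 he
  have h1 : IsUnit ((a : ZMod e) * d) := by
    push_cast at h
    rwa [h0, zero_mul, zero_mul, sub_zero] at h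
  have ha := isUnit_of_mul_isUnit_left h1
  have hd := isUnit_of_mul_isUnit_right h1
  have e1 : (ZMod.cast (ac4 a b c d v).1 : ZMod e) = ZMod.cast v.1 * a + ZMod.cast v.2 * c := by
    simp only [ac4, ← ZMod.castHom_apply (h := hN), map_add, map_mul, map_intCast]
  have e2 : (ZMod.cast (ac4 a b c d v).2 : ZMod e) = ZMod.cast v.2 * d := by
    simp only [ac4, ← ZMod.castHom_apply (h := hN), map_add, map_mul, map_intCast, map_ofNat, h0,
      zero_mul, mul_zero, zero_add]
  rw [Ge, Ge, e1, e2, hd.mul_left_eq_zero]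
  refine and_congr_left fun h2 => ?_
  rw [h2, zero_mul, add_zero, Ne, ha.mul_left_eq_zero]

/-- reduction of the cyclotomic character -/
theorem det_cy {M N : ℕ} (hd : M ∣ N) (hN : N ≠ 0) {x : ℤ} {g : GQ}
    (h : (x : ZMod N) = cy N g) : (x : ZMod M) = cy M g := by
  rw [← KT.TTWA.comp (ne_zero_of_dvd_ne_zero hN hd) hd hN g, ZMod.unitsMap_val, ← h,
    ZMod.cast_intCast hd]

/-- the determinant is a unit modulo every divisor -/
theorem det_unit {M N : ℕ} (hd : M ∣ N) {x : ℤ} {u : (ZMod N)ˣ} (h : (x : ZMod N) = u) :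
    IsUnit (x : ZMod M) := unit_dvd hd (h ▸ u.isUnit)

/-- the determinant of the representatives -/
theorem dv_val {M N : ℕ} [NeZero N] (hd : M ∣ N) (v v' : VZ N) :
    dv M v v' = (v.1.val : ZMod M) * v'.2.val - v.2.val * v'.1.val := by
  simp only [dv, ZMod.natCast_val, ← ZMod.castHom_apply (h := hd), map_sub, map_mul]

/-- periodicity of the units -/
theorem Uz_smul (hUT : UT) {q N : ℕ} [NeZero q] [NeZero N] (m : ℕ) (b : VZ q) (v : VZ N) :
    Uz q N b (m • v) = lf (ui q N b.1.val b.2.val (m * v.1.val) (m * v.2.val)) := by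
  refine KT.TEINV.lf_congr fun z hz => ?_
  rw [← (hUT.2.2 q N _ _ _ _ z (NeZero.ne q) (NeZero.ne N) hz).1]
  congr 1
  · simp
  · ext <;> simp

end TEINV

end Pool.Agent.P.MP_9c97e9_nt.K2
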