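import Pool.Agent.P.MP_9c97e9_nt.K2.SelJ

/-! The cup product of the Euler system with the local class. -/

namespace Pool.Agent.P.MP_9c97e9_nt.K2

open scoped Matrix
open MP_8b7eba_nt.R2 KT
open Filter Topology Finset

namespace TERLB

/-- the sums over the fibres of the logarithm -/
noncomputable def fb (y : ∀ k : ℕ, GQ → (ZMod (2 ^ (k + 2)))ˣ → V2) : KA := fun k g j =>
  ∑ η ∈ univ.filter fun η => lu k η = j, y k g η

theorem lu_div (hC : CYB) (k : ℕ) (δ η : (ZMod (2 ^ (k + 2)))ˣ) :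
    (lu k (δ * η⁻¹) : ZMod (2 ^ k)) = lu k δ - lu k η := by
  rw [eq_sub_iff_add_eq, ← (hC.2.2 k).2.2.1, inv_mul_cancel_right]

theorem lu_cy (hC : CYB) (k : ℕ) (g : GQ) : (lu k (cy _ g) : ZMod (2 ^ k)) = Ps k g := by
  rw [(hC.2.2 k).1, ZMod.natCast_zmod_val]

theorem lu_iff (hC : CYB) (k : ℕ) (δ : (ZMod (2 ^ (k + 2)))ˣ) (j : ZMod (2 ^ k)) :
    lu k δ = j.val ↔ (lu k δ : ZMod (2 ^ k)) = j :=
  ⟨fun e => by rw [e, ZMod.natCast_zmod_val], fun e => by
    rw [← e, ZMod.val_cast_of_lt ((hC.2.2 k).2.1 δ).1]⟩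

theorem fb_le {y : ∀ k : ℕ, GQ → (ZMod (2 ^ (k + 2)))ˣ → V2} (hb : ∀ k g η, ‖y k g η‖ ≤ 1)
    (k : ℕ) (g : GQ) (j : ℕ) : ‖fb y k g j‖ ≤ 1 :=
  IsUltrametricDist.norm_sum_le_of_forall_le_of_nonneg zero_le_one fun η _ => hb k g η

variable {A : Type} [NormedCommRing A] [NormedAlgebra ℚ_[2] A] [IsUltrametricDist A]
  [FiniteDimensional ℚ_[2] A] {ψ : ℤ_[2] → A}

theorem fb_ap (hC : CYB) (D : Dat) (h : IsPsi ψ) {H : Subgroup GQ}
    {y : ∀ k : ℕ, GQ → (ZMod (2 ^ (k + 2)))ˣ → V2} (hb : ∀ k g η, ‖y k g η‖ ≤ 1)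
    (hs : ∀ k, Sm H (y k)) (hc : ∀ k, ∀ g ∈ H, ∀ g' ∈ H, ∀ η,
      ‖y k (g * g') η - y k g η - D.rd g *ᵥ y k g' (η * (cy _ g)⁻¹)‖ ≤ (2 ^ k)⁻¹) :
    Ap (fun _ => H) (fun k g i => ∑ η, y k g η i • ψ (lu k η)) (raw ψ (fb y)) ∧
      PZ (fun _ => H) (D.r ψ) (raw ψ (fb y)) := by
  have h1 := D.raw_pz h (H := H) (fb_le hb)
    (fun k => (hs k).comp fun u j => ∑ η ∈ univ.filter fun η => lu k η = j, u η) ?_
  · have e : (fun k g i => ∑ j ∈ range (2 ^ k), fb y k g j i • ψ j) =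
        fun k g i => ∑ η, y k g η i • ψ (lu k η) := by
      funext k g i
      rw [← sum_fiberwise_of_maps_to (s := univ) (g := lu k) (t := range (2 ^ k))
        fun η _ => mem_range.2 ((hC.2.2 k).2.1 η).1]
      refine sum_congr rfl fun j _ => ?_
      rw [fb, Finset.sum_apply, sum_smul]
      exact sum_congr rfl fun η hη => by rw [(mem_filter.1 hη).2]
    rwa [e] at h1
  · intro k g hg g' hg' j
    have e : fb y k g' (j - Ps k g).val =
        ∑ η ∈ univ.filter fun η => lu k η = j.val, y k g' (η * (cy _ g)⁻¹) := by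
      refine (sum_equiv (Equiv.mulRight (cy _ g)⁻¹) (fun η => ?_) fun η _ => rfl).symm
      simp only [mem_filter, mem_univ, true_and, Equiv.coe_mulRight]
      rw [lu_iff hC, lu_iff hC, lu_div hC, lu_cy hC, sub_left_inj]
    rw [e, Matrix.mulVec_sum, fb, fb, ← sum_sub_distrib, ← sum_sub_distrib]
    exact IsUltrametricDist.norm_sum_le_of_forall_le_of_nonneg (by positivity)
      fun η _ => hc k g hg g' hg' η

omit [IsUltrametricDist A] [FiniteDimensional ℚ_[2] A] in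
theorem bt_sum {ι κ : Type} [Fintype ι] [Fintype κ] (t : A →ₗ[ℚ_[2]] ℚ_[2]) (B : Mt) (a b : A)
    (u : ι → V2) (v : κ → V2) (p : ι → A) (q : κ → A) :
    TDUAL.bt t (a • fun i => ∑ δ, u δ i • p δ) (b • mv B fun i => ∑ η, v η i • q η) =
      ∑ δ, ∑ η, t (a * (p δ * b * q η)) * dt (u δ) (B *ᵥ v η) := by
  have e : (mv B fun i => ∑ η, v η i • q η) = fun i => ∑ η, (B *ᵥ v η) i • q η :=
    funext fun i => TKPZ.mv_sum _ B v q i
  rw [e, TDUAL.bt_apply]
  simp only [Pi.smul_apply, smul_eq_mul, mul_sum, sum_mul, ← sum_sub_distrib, map_sum]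
  rw [sum_comm]
  refine sum_congr rfl fun δ _ => sum_congr rfl fun η _ => ?_
  rw [mul_comm (t _), ← smul_eq_mul (dt _ _), ← map_smul, dt]
  congr 1
  simp only [Algebra.smul_def, map_sub, map_mul]
  ring

end TERLB

open TERLB

theorem t_ERLB (hC : CYB) (hM : MU) (_hK : KPZJ) : ERLB := by
  intro D z y hz hy A _ _ _ _ ψ h
  obtain ⟨h1, h2⟩ := fb_ap hC D h (fun k => (hy k).int) (fun k => (hy k).sm) fun k => (hy k).co
  obtain ⟨h3, -⟩ := fb_ap hC D h.bar (H := w2.D) (y := fun k => z k (2 ^ (k + 2)))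
    (fun k => hz.int k _) (fun k => (hz.sm k _ (D.lv k)).mono le_top)
    fun k g _ g' _ => hz.co k _ (D.lv k) g g'
  have e : der (D := D) (mu z) ∅ = fb fun k => z k (2 ^ (k + 2)) := by
    funext k g j
    exact (hM D z hz).2 k j g
  refine ⟨_, h2, fun g => ?_, fun a t => ?_⟩
  · have h4 := congrFun (raw_zero h (fb_le fun k => (hy k).int) (g := g) !![0, 0; 0, 1]
      (.of_forall fun k j => ?_)) 1
    · simpa [mv, Matrix.mulVec, dotProduct, Fin.sum_univ_two] using h4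
    · refine (pi_norm_le_iff_of_nonneg (by positivity)).2 (Fin.forall_fin_two.2 ⟨?_, ?_⟩)
      · simp [Matrix.mulVec, dotProduct, Fin.sum_univ_two]
      · simp only [Matrix.mulVec, dotProduct, Fin.sum_univ_two, fb, Finset.sum_apply]
        simpa using IsUltrametricDist.norm_sum_le_of_forall_le_of_nonneg (by positivity)
          fun η _ => (hy k).ord (g k) η
  rw [e]
  have h4 := ap2_cup (β := TDUAL.bt t) ((D.rep h).mono (le_top (a := w2.D))) (fun _ => le_rfl)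
    (h3.map ((LinearMap.lsmul A (Fin 2 → A) a).restrictScalars ℚ_[2])) h1
  obtain ⟨C, C0, hT⟩ := PatA.bound (t.comp (LinearMap.mul ℚ_[2] A a))
  simp only [LinearMap.comp_apply, LinearMap.mul_apply'] at hT
  have hd : ∀ k g g' δ η, ‖dt (z k (2 ^ (k + 2)) g δ) (D.rd g *ᵥ y k g' η)‖ ≤ 1 :=
    fun k g g' δ η => (dt_le _ _).trans (mul_le_one₀ (hz.int _ _ _ _) (norm_nonneg _)
      ((D.rd_vec g _).trans ((hy k).int _ _)))
  have ht : ∀ b, ‖t (a * ψ b)‖ ≤ C := fun b =>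
    (hT _).trans (mul_le_of_le_one_right C0.le (h.le b))
  refine ⟨⟨C, fun k g g' => ?_⟩, fun k ε hε => ?_, fun g hg g' hg' => ?_⟩
  · exact IsUltrametricDist.norm_sum_le_of_forall_le_of_nonneg C0.le fun δ _ =>
      IsUltrametricDist.norm_sum_le_of_forall_le_of_nonneg C0.le fun η _ =>
        (norm_mul _ _).trans_le ((mul_le_mul (ht _) (hd _ _ _ _ _) (norm_nonneg _) C0.le).trans_eq
          (mul_one _))
  · obtain ⟨N1, o1, n1⟩ := hz.sm k _ (D.lv k)
    obtain ⟨N2, o2, n2⟩ := (hy k).sm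
    obtain ⟨N3, o3, n3⟩ := D.rd_sm (div_pos hε C0)
    have o4 := (hC.1 (2 ^ (k + 2)) (by positivity)).2.1
    refine ⟨_, (o1.inf o2).inf (o3.inf o4), fun g hg g' hg' n hn m => ⟨?_, ?_⟩⟩
    · rw [n1 g trivial n trivial m.1.1, map_mul, show cy _ n = 1 from m.2.2, mul_one,
        ← sum_sub_distrib]
      refine IsUltrametricDist.norm_sum_le_of_forall_le_of_nonneg hε.le fun δ _ => ?_
      rw [← sum_sub_distrib]
      refine IsUltrametricDist.norm_sum_le_of_forall_le_of_nonneg hε.le fun η _ => ?_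
      have e1 : ∀ u v : V2, dt u (D.rd (g * n) *ᵥ v) - dt u (D.rd g *ᵥ v) =
          dt u (D.rd g *ᵥ ((D.rd n - 1) *ᵥ v)) := fun u v => by
        rw [D.rd_mul, ← Matrix.mulVec_mulVec, Matrix.sub_mulVec, Matrix.one_mulVec,
          Matrix.mulVec_sub]
        simp only [dt, Pi.sub_apply]
        ring
      rw [← mul_sub, e1, norm_mul]
      refine (mul_le_mul (ht _) ((dt_le _ _).trans (mul_le_mul (hz.int _ _ _ _)
        ((D.rd_vec g _).trans ((mulVec_le (n3 n m.2.1) _).trans (mul_le_of_le_one_right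
          (div_pos hε C0).le ((hy k).int _ _)))) (norm_nonneg _) zero_le_one))
        (norm_nonneg _) C0.le).trans_eq ?_
      field_simp
    · rw [n2 g' hg' n hn m.1.2, sub_self, norm_zero]
      exact hε.le
  · refine (h4.lim g hg g' hg').congr_dist (Metric.tendsto_nhds.2 fun ε hε => ?_)
    obtain ⟨K, hK'⟩ := h.near (show 0 < ε / 2 / C by positivity)
    filter_upwards [ev_ge K] with k hk
    rw [dist_zero_right, Real.norm_of_nonneg dist_nonneg, dist_eq_norm, Dat.r_apply,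
      LinearMap.restrictScalars_apply, LinearMap.lsmul_apply, bt_sum, ← sum_sub_distrib]
    refine lt_of_le_of_lt (b := ε / 2) (IsUltrametricDist.norm_sum_le_of_forall_le_of_nonneg
      (by positivity) fun δ _ => ?_) (by linarith)
    rw [← _root_.Equiv.sum_comp (Equiv.mulRight (cy (2 ^ (k + 2)) (g k))⁻¹), ← sum_sub_distrib]
    refine IsUltrametricDist.norm_sum_le_of_forall_le_of_nonneg (by positivity) fun η _ => ?_
    rw [Equiv.coe_mulRight, ← sub_mul, ← map_sub, ← mul_sub, norm_mul, bar, ← h.add, ← h.add]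
    refine (mul_le_mul ((hT _).trans (mul_le_mul_of_nonneg_left
      (hK' _ _ ((pow_dvd_pow _ hk).trans ?_)) C0.le)) (hd _ _ _ _ _) (norm_nonneg _)
      (by positivity)).trans_eq (by field_simp)
    refine Ideal.mem_span_singleton.1 (((PadicInt.ker_toZModPow (p := 2) k).le) ?_)
    rw [RingHom.mem_ker]
    simp only [map_sub, map_add, map_neg, map_natCast]
    rw [lu_div hC, lu_div hC, lu_cy hC]
    change _ + Ps k (g k) + _ - _ = 0
    ring

end Pool.Agent.P.MP_9c97e9_nt.K2
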