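import Pool.Agent.P.MP_9c97e9_nt.K2.IfU
import Pool.Agent.P.MP_9c97e9_nt.KT.TGX

/-! The Euler system from the zeta cocycles. -/

namespace Pool.Agent.P.MP_9c97e9_nt.K2

open scoped NNReal Matrix
open MP_8b7eba_nt.R2 KT
open KT.TGX (addle suble smle psh_sub inv_le)

namespace TGX

theorem lv0 (D : Dat) {k M : ℕ} (h : D.Lv k M) : Lv0 D.q k (M * D.n) := by
  refine ⟨D.aq, mul_ne_zero h.1 D.n_ne, ?_, Nat.Coprime.mul_left ?_ ?_⟩
  · exact ((pow_dvd_pow 2 (Nat.le_add_right k 2)).trans h.2.1).mul_right _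
  · exact h.2.2.coprime_mul_left_right
  · exact D.q30.coprime_mul_left_right.symm

theorem two_dvd (D : Dat) {k M : ℕ} (h : D.Lv k M) : 2 ∣ M :=
  (dvd_pow_self 2 (by omega)).trans h.2.1

theorem lvp (D : Dat) {k M p : ℕ} (h : D.Lv k M) (hp : p.Prime)
    (h2 : p = 2 ∨ ¬ p ∣ 15 * D.n * D.q * M) : D.Lv k (M * p) := by
  refine ⟨mul_ne_zero h.1 hp.ne_zero, h.2.1.mul_right _, Nat.Coprime.mul_left h.2.2 ?_⟩
  rcases h2 with rfl | h2
  · exact h.2.2.coprime_dvd_left (two_dvd D h)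
  · exact (hp.coprime_iff_not_dvd).2 fun h3 => h2 (h3.mul_right _)

theorem lv2 (D : Dat) (k : ℕ) : D.Lv k (2 ^ (k + 2)) := by
  refine ⟨by positivity, dvd_rfl, Nat.Coprime.pow_left _ ?_⟩
  rw [Nat.coprime_two_left]
  exact (Odd.mul (by decide) D.odd).mul D.q_odd

theorem zero_le {v : V2} (h : ‖v‖ ≤ 1) : ‖v‖ ≤ ((2 : ℝ) ^ 0)⁻¹ := by simpa using h

theorem psh_one {M p : ℕ} (h : M * p ≠ 0) {f : (ZMod (M * p))ˣ → V2} (hf : ∀ δ, ‖f δ‖ ≤ 1)
    (ε : (ZMod M)ˣ) : ‖psh M p f ε‖ ≤ 1 := by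
  have := psh_sub M p h f 0 ε zero_le_one (by simpa using hf)
  simpa [psh] using this

end TGX

open K2.TGX in
theorem t_GX (hZEX : ZEX) (hZTK : ZTK) (hNREL : NREL) (hTWA : TWA) (hTWB : TWB) : GX := by
  intro D l hl h15
  have hex : ∀ k M : ℕ, ∃ z : GQ → (ZMod M)ˣ → V2, Lv0 D.q k M → ∃ b, ZK D.q l k M b z := by
    intro k M
    by_cases h : Lv0 D.q k M
    · obtain ⟨b, z, hz⟩ := hZEX D.q l k M hl h15 h
      exact ⟨z, fun _ => ⟨b, hz⟩⟩
    · exact ⟨0, fun h' => absurd h' h⟩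
  choose zt hzt using hex
  have hT : ∀ k M, D.Lv k M → ZT D.q l k _ (zt k (M * D.n)) := fun k M h => by
    obtain ⟨b, hb⟩ := hzt k _ (lv0 D h)
    exact hZTK D.q l k _ b _ hl h15 (lv0 D h) hb
  set y : EA := fun k M => D.nr (D.t0 M (zt k (M * D.n))) with hy
  have hr : ∀ k M, 1 ≤ k → D.Lv k M → ∀ g ε, ‖rn k (y k M g ε) - y k M g ε‖ ≤ (2 ^ k)⁻¹ :=
    fun k M hk h g ε => (hTWA.1 k _).2 ((hTWA.2 D l k M _ hk h (hT k M h)).1 g ε).2
  have hB : ∀ k M p, 1 ≤ k → D.Lv k M → p.Prime → (p = 2 ∨ ¬ p ∣ 15 * D.n * D.q * M) → ∀ g ε,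
      ‖psh M p (fun δ => rn k (y k (M * p) g δ)) ε -
        eu p (jacobiSym D.d p * ap W15 p : ℤ) (y k M g) ε‖ ≤ (2 ^ k)⁻¹ := by
    intro k M p hk h hp h2 g ε
    have h' := lvp D h hp h2
    obtain ⟨b, hb⟩ := hzt k _ (lv0 D h)
    obtain ⟨b', hb'⟩ := hzt k _ (lv0 D h')
    have hp15 : ¬ p ∣ 15 * D.q := by
      rcases h2 with rfl | h2
      · exact (Odd.mul (by decide) D.q_odd).not_two_dvd_nat
      · exact fun h3 => h2 ((h3.trans ⟨D.n, by ring⟩).mul_right _)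
    have h1 := hTWB D k M p _ _ hk h hp h2 (hNREL D.q l k _ _ p b _ b' _ hl h15 (lv0 D h)
      ((two_dvd D h).mul_right _) hp hp15 (mul_right_comm _ _ _) hb hb') g ε
    have h3 := psh_sub M p h'.1 (fun δ => rn k (y k (M * p) g δ)) (y k (M * p) g) ε
      (by positivity) (hr k _ hk h' g)
    have := addle h3 h1
    rwa [sub_add_sub_cancel] at this
  have hi : ∀ k v, ‖rn k v‖ ≤ 1 := fun k v => (hTWA.1 k v).1
  refine ⟨fun k M g ε => rn k (y k M g ε), ⟨fun k M g δ => hi _ _, ?_, ?_, ?_, ?_, ?_⟩,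
    fun k hk => ?_⟩
  · intro k M h
    rcases k.eq_zero_or_pos with rfl | hk
    · refine ⟨⊤, ⟨inferInstance, isOpen_univ⟩, fun g _ n _ _ => funext fun ε => funext fun i => ?_⟩
      have : Subsingleton (ZMod (2 ^ 0)) := inferInstanceAs (Subsingleton (ZMod 1))
      simp only [rn]
      rw [Subsingleton.elim (zq 0 _) (zq 0 (y 0 M g ε i))]
    · exact (hTWA.2 D l k M _ hk h (hT k M h)).2.1
  · intro k M h g g' δ
    rcases k.eq_zero_or_pos with rfl | hk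
    · exact zero_le (suble (suble (hi _ _) (hi _ _)) ((D.rd_vec _ _).trans (hi _ _)))
    have h1 := (hTWA.2 D l k M _ hk h (hT k M h)).2.2.1 g g' δ
    have h2 := addle (suble (suble (hr k M hk h (g * g') δ) (hr k M hk h g δ))
      ((D.rd_vec g _).trans (hr k M hk h g' (δ * (cy M g)⁻¹)))) h1
    convert h2 using 2
    simp only [Matrix.mulVec_sub, hy]
    abel
  · intro k M h δ
    rcases k.eq_zero_or_pos with rfl | hk
    · exact zero_le (hi _ _)
    have h1 := hr k M hk h D.z δ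
    have h2 : y k M D.z δ = 0 := (hTWA.2 D l k M _ hk h (hT k M h)).2.2.2 δ
    rwa [h2, sub_zero, ← h2] at h1
  · intro k M h g ε
    rcases k.eq_zero_or_pos with rfl | hk
    · exact zero_le (suble (psh_one (mul_ne_zero h.1 two_ne_zero) (fun _ => hi _ _) ε) (hi _ _))
    have h1 := hB k M 2 hk h Nat.prime_two (Or.inl rfl) g ε
    rw [eu, if_pos (two_dvd D h)] at h1
    have h2 := suble h1 (hr k M hk h g ε)
    convert h2 using 2
    abel
  · intro k M p h hp h2 g ε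
    have hp2 : p ≠ 2 := by
      rintro rfl
      exact h2 ((two_dvd D h).mul_left _)
    have ha : ‖((jacobiSym D.d p * ap W15 p : ℤ) / p : ℚ_[2])‖ ≤ 1 := by
      rw [div_eq_mul_inv, norm_mul]
      exact mul_le_one₀ (Padic.norm_int_le_one _) (norm_nonneg _) (inv_le hp hp2)
    rcases k.eq_zero_or_pos with rfl | hk
    · exact zero_le (suble (psh_one (mul_ne_zero h.1 hp.ne_zero) (fun _ => hi _ _) ε)
        (addle (suble (hi _ _) (smle ha (hi _ _))) (smle (inv_le hp hp2) (hi _ _))))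
    have h1 := hB k M p hk h hp (Or.inr h2) g ε
    rw [eu, if_neg fun h3 => h2 (h3.mul_left _)] at h1
    have h3 := suble h1 (addle (suble (hr k M hk h g ε)
      (smle ha (hr k M hk h g (ε * (un (p : ZMod M))⁻¹))))
      (smle (inv_le hp hp2) (hr k M hk h g (ε * (un (p : ZMod M))⁻¹ ^ 2))))
    convert h3 using 2
    simp only [smul_sub]
    abel
  · have h := lv2 D k
    exact ⟨zt k _, D.t0 _ (zt k _) D.z, hT k _ h,
      fun ε => ((hTWA.2 D l k _ _ hk h (hT k _ h)).1 D.z ε).1, fun g ε => hr k _ hk h g ε⟩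

end Pool.Agent.P.MP_9c97e9_nt.K2
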