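import Pool.Agent.P.MP_9c97e9_nt.K2.BasL
import Pool.Agent.P.MP_9c97e9_nt.K2.BasK
import Pool.Agent.P.MP_9c97e9_nt.KT.TLCN

/-! The number of quadratic characters with given conditions. -/

namespace Pool.Agent.P.MP_9c97e9_nt.K2

open MP_8b7eba_nt.R2 KT
open KT.TLCN (unr sqf abs_prod)

namespace TLCH

variable {D : Dat} {χ ψ : GQ → ZMod 2} {g : GQ}

theorem half {P : (GQ → ZMod 2) → Prop} (hf : {χ | P χ}.Finite) (ha : ∀ χ, P χ → P (χ + ψ))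
    (h : ψ g = 1) : 2 * {χ | P χ ∧ χ g = 0}.ncard = {χ | P χ}.ncard := by
  have e : {χ | P χ} = {χ | P χ ∧ χ g = 0} ∪ (· + ψ) '' {χ | P χ ∧ χ g = 0} := by
    refine Set.Subset.antisymm (fun χ hχ => ?_) ?_
    · rcases LA.cases (χ g) with e | e
      · exact Or.inl ⟨hχ, e⟩
      · exact Or.inr ⟨χ + ψ, ⟨ha χ hχ, by rw [Pi.add_apply, e, h, LC.two]⟩, funext fun k => by
          simp only [Pi.add_apply, add_assoc, LC.two, add_zero]⟩
    · rintro χ (hχ | ⟨κ, hκ, rfl⟩)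
      exacts [hχ.1, ha κ hκ.1]
  have f : {χ | P χ ∧ χ g = 0}.Finite := hf.subset fun _ a => a.1
  rw [e, Set.ncard_union_eq (Set.disjoint_left.2 ?_) f (f.image _),
    Set.ncard_image_of_injective _ (add_left_injective ψ), two_mul]
  rintro χ hχ ⟨κ, hκ, rfl⟩
  have : κ g + ψ g = 0 := hχ.2
  rw [hκ.2, h, zero_add] at this
  exact one_ne_zero this

theorem add (h : D.HC χ) (h' : D.HC ψ) : D.HC (χ + ψ) :=
  ⟨⟨h.1.1.comp₂ h'.1.1 (· + ·), fun g hg k hk => by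
    simp only [Pi.add_apply, h.1.2 g hg k hk, h'.1.2 g hg k hk]; ring⟩,
    by rw [Pi.add_apply, h.2.1, h'.2.1, add_zero],
    fun w hw g hg => by rw [Pi.add_apply, h.2.2 w hw g hg, h'.2.2 w hw g hg, add_zero]⟩

theorem hc (D : Dat) {m : ℤ} (h : m ∣ 15) : D.HC (qz m) :=
  ⟨isCh_qz m, qz_I a_CA (fun e => D.z30 (by
    exact_mod_cast (e.trans (mul_dvd_mul_left 2 h) : (D.wz.p : ℤ) ∣ 30))) D.zI,
    fun _ hw _ hg => BK.qz_unr ((h.trans (by norm_num)).mul_right _) hw hg⟩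

/-- the parameters of the characters -/
def par (D : Dat) : Finset (ℤ × Finset ℕ) :=
  {1, -1} ×ˢ ((30 * D.n).primeFactors.erase D.wz.p).powerset

theorem mem_par {x : ℤ × Finset ℕ} : x ∈ par D ↔
    (x.1 = 1 ∨ x.1 = -1) ∧ ∀ p ∈ x.2, p ≠ D.wz.p ∧ p.Prime ∧ p ∣ 30 * D.n := by
  simp [par, Finset.subset_iff, D.n_ne]

theorem hc_par {x : ℤ × Finset ℕ} (hx : x ∈ par D) : D.HC (qz (x.1 * ∏ p ∈ x.2, (p : ℤ))) := by
  obtain ⟨a, b⟩ := mem_par.1 hx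
  have pr : ∀ p ∈ x.2, p.Prime := fun p hp => (b p hp).2.1
  have k : ∀ w : Pl, w.p ≠ 2 → w.p ∉ x.2 → ∀ g ∈ w.I, qz (x.1 * ∏ p ∈ x.2, (p : ℤ)) g = 0 :=
    fun w h2 hw g hg => by
      have h1 : qz x.1 g = 0 := qz_I a_CA (fun e => h2
        ((Nat.prime_dvd_prime_iff_eq w.prime Nat.prime_two).1 (by
          rcases a with a | a <;> rw [a] at e <;> simpa [Int.natCast_dvd] using e))) hg
      rw [qz_mul (by omega) (sqf Int.natAbs_natCast pr).ne_zero, Pi.add_apply, h1,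
        unr Int.natAbs_natCast pr h2 hw hg, add_zero]
  exact ⟨isCh_qz _, k _ D.z2 (fun e => (b _ e).1 rfl) _ D.zI,
    fun w hw => k w (BK.odd hw) fun e => hw (b _ e).2.2⟩

theorem par_hc (h : D.HC χ) : ∃ x ∈ par D, qz (x.1 * ∏ p ∈ x.2, (p : ℤ)) = χ := by
  obtain ⟨m, hm, rfl⟩ := exists_qz a_CA h.1
  refine ⟨(m.sign, m.natAbs.primeFactors), mem_par.2 ⟨?_, fun p hp => ?_⟩, ?_⟩
  · rcases lt_or_gt_of_ne hm.ne_zero with e | e
    exacts [Or.inr (Int.sign_eq_neg_one_of_neg e), Or.inl (Int.sign_eq_one_of_pos e)]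
  · have h1 := Nat.prime_of_mem_primeFactors hp
    have h2 := Int.natCast_dvd.2 (Nat.dvd_of_mem_primeFactors hp)
    refine ⟨?_, h1, by_contra fun e => ?_⟩
    · rintro rfl
      obtain ⟨t, ht, hβ⟩ := Pl.exists_gen a_TAME a_RES D.z2
      have h3 := ch_tame a_CA D.z2 (isCh_qz m) ht hβ _ D.zI
      rw [h.2.1, (BK.qz_z D).2.2.1, mul_one] at h3
      exact (qz_gen a_CA D.z2 ht hβ hm).1 h3.symm h2
    · obtain ⟨w, rfl⟩ := a_PL.1 p h1
      obtain ⟨t, ht, hβ⟩ := Pl.exists_gen a_TAME a_RES (BK.odd e)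
      exact (qz_gen a_CA (BK.odd e) ht hβ hm).1 (h.2.2 w e t ht) h2
  · rw [← Nat.cast_prod, Nat.prod_primeFactors_of_squarefree (Int.squarefree_natAbs.2 hm),
      Int.sign_mul_natAbs]

theorem eq_par (D : Dat) :
    {χ | D.HC χ} = (fun x : ℤ × Finset ℕ => qz (x.1 * ∏ p ∈ x.2, (p : ℤ))) '' par D :=
  Set.ext fun _ => ⟨par_hc, fun ⟨_, a, b⟩ => b ▸ hc_par a⟩

theorem fin (D : Dat) : {χ | D.HC χ}.Finite := eq_par D ▸ (par D).finite_toSet.image _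

theorem card (D : Dat) : {χ | D.HC χ}.ncard = 2 * 2 ^ D.om := by
  rw [eq_par, Set.InjOn.ncard_image, Set.ncard_coe_finset, par, Finset.card_product,
    Finset.card_powerset, D.om_eq]
  · rfl
  intro x hx y hy e
  obtain ⟨a, b⟩ := mem_par.1 hx
  obtain ⟨c, d⟩ := mem_par.1 hy
  have px : ∀ p ∈ x.2, p.Prime := fun p hp => (b p hp).2.1
  have py : ∀ p ∈ y.2, p.Prime := fun p hp => (d p hp).2.1
  have k : ∀ {s : ℤ} {A : Finset ℕ}, s = 1 ∨ s = -1 →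
      (s * ∏ p ∈ A, (p : ℤ)).natAbs = (∏ p ∈ A, (p : ℤ)).natAbs := fun h => by
    rcases h with rfl | rfl <;> simp
  have sx := sqf Int.natAbs_natCast px
  have h := qz_inj a_CA (Int.squarefree_natAbs.1 (k a ▸ Int.squarefree_natAbs.2 sx))
    (Int.squarefree_natAbs.1 (k c ▸ Int.squarefree_natAbs.2 (sqf Int.natAbs_natCast py))) e
  have h2 : x.2 = y.2 := by
    rw [← Nat.primeFactors_prod px, ← Nat.primeFactors_prod py, ← abs_prod Int.natAbs_natCast,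
      ← abs_prod Int.natAbs_natCast, ← k a, h, k c]
  exact Prod.ext (mul_right_cancel₀ sx.ne_zero (h.trans (by rw [h2]))) h2

theorem vals (D : Dat) (x y : ZMod 2) : ∃ h ∈ w2.D ⊓ KI, qz (-1) h = x ∧ qz 5 h = y := by
  obtain ⟨g, h1, h2⟩ := a_EC2 w2 rfl (-1)
  have h3 : g ∈ w2.D ⊓ KI :=
    ⟨w2.I_le_D h1, BK.mem_KI.2 (by rw [la, h2, TABHN.lg_neg_one a_LG.1])⟩
  have h4 : qz (-1) g = 1 := (LA.cases _).resolve_left fun e => by
    have h5 := (qz_neg_one a_EC).1 e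
    rw [h2, show ((-1 : ℤ_[2]ˣ) : ℤ_[2]) - 1 = ((-2 : ℤ) : ℤ_[2]) by push_cast; ring, ← LA.c4] at h5
    have := (PadicInt.pow_p_dvd_int_iff (p := 2) 2 (-2)).1 h5
    norm_num at this
  have h5 : D.f2 ∈ w2.D ⊓ KI := ⟨D.fr.1, BK.f2_mem D⟩
  have k : ∀ m, qz m (g ^ x.val * D.f2 ^ y.val) = x * qz m g + y * qz m D.f2 := fun m => by
    have h := isCh_qz (H := ⊤) m
    rw [h.2 _ trivial _ trivial, h.pow trivial, h.pow trivial, nsmul_eq_mul, nsmul_eq_mul,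
      ZMod.natCast_zmod_val, ZMod.natCast_zmod_val]
  refine ⟨_, mul_mem (pow_mem h3 x.val) (pow_mem h5 y.val), ?_, ?_⟩ <;> rw [k]
  · rw [h4, (qz_neg_one a_EC (g := D.f2)).2 (by simp [D.fc]), mul_one, mul_zero, add_zero]
  · rw [qz_I_two rfl (by norm_num) h1, qz5_frob D.fr, mul_one, mul_zero, zero_add]

theorem ord (hQ : LQ2) (D : Dat) : ∃ h ∈ w2.D, (∃ ψ, D.HC ψ ∧ ψ h = 1) ∧
    ∀ χ, D.HC χ → (D.OC χ ↔ χ h = 0) := by
  have k : ∀ χ, IsCh ⊤ χ → ∃ a c : ZMod 2, ∀ g ∈ w2.D ⊓ KI, χ g = a * qz (-1) g + c * qz 5 g :=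
    fun χ hχ => by
      obtain ⟨a, b, c, e⟩ := hQ w2 χ rfl (hχ.mono le_top)
      exact ⟨a, c, fun g hg => by rw [e g hg.1, qz_two_KP (BK.KI_le 1 hg.2), mul_zero, add_zero]⟩
  obtain ⟨a, c, e⟩ := k _ (isCh_qz D.mi)
  obtain ⟨h, hh, h1, h2⟩ := vals D c a
  have h3 : c = 1 ∨ a = 1 := by
    obtain ⟨g, hg, e'⟩ := D.exists_mi
    rw [e g hg] at e'
    revert e'
    generalize qz (-1) g = s
    generalize qz 5 g = t
    clear * -
    decide +revert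
  refine ⟨h, hh.1, h3.elim (fun f => ⟨_, hc D (by norm_num), h1.trans f⟩)
    fun f => ⟨_, hc D (by norm_num), h2.trans f⟩, fun χ hχ => ⟨fun ⟨s, hs⟩ => ?_, fun f => ?_⟩⟩
  · rw [hs h hh, e h hh, h1, h2, mul_comm c, LC.two, mul_zero]
  · obtain ⟨a', c', e'⟩ := k χ hχ.1
    rw [e' h hh, h1, h2] at f
    obtain ⟨s, rfl, rfl⟩ : ∃ s, a' = s * a ∧ c' = s * c := by
      clear * - f h3
      decide +revert
    exact ⟨s, fun g hg => by rw [e' g hg, e g hg]; ring⟩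

end TLCH

open TLCH in
theorem t_LCH (hLQ2 : LQ2) : LCH := by
  intro D
  obtain ⟨h, hh, ⟨ψ, a, b⟩, c⟩ := ord hLQ2 D
  have t : ∀ m : ℤ, m < 0 → qz m tau = 1 := fun m hm => (LA.cases _).resolve_left fun e => by
    have := (MP_8b7eba_nt.R2.qz_tau a_TAU hm.ne).1 e
    omega
  have h0 := card D
  have h1 := half (fin D) (fun χ hχ => add hχ (hc D (m := -1) (by norm_num))) (t _ (by norm_num))
  have h2 := half (fin D) (fun χ hχ => add hχ a) b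
  have h3 := half (P := fun χ => D.HC χ ∧ χ h = 0) ((fin D).subset fun _ x => x.1)
    (fun χ hχ => ⟨add hχ.1 (hc D (m := -15) (by norm_num)), by
      rw [Pi.add_apply, hχ.2, qz_D_two a_CA rfl (by norm_num) hh, add_zero]⟩) (t _ (by norm_num))
  have e1 : {χ | D.HC χ ∧ D.OC χ} = {χ | D.HC χ ∧ χ h = 0} :=
    Set.ext fun χ => and_congr_right (c χ)
  have e2 : {χ | D.HC χ ∧ D.OC χ ∧ χ tau = 0} = {χ | (D.HC χ ∧ χ h = 0) ∧ χ tau = 0} :=
    Set.ext fun χ => and_assoc.symm.trans (and_congr_left' (and_congr_right (c χ)))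
  rw [e1, e2]
  omega

end Pool.Agent.P.MP_9c97e9_nt.K2
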