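import Pool.Agent.P.MP_9c97e9_nt.K2.BasL
import Pool.Agent.P.MP_9c97e9_nt.K2.BasK

/-! Cocycles at two which become ordinary at the top of the cyclotomic tower. -/

namespace Pool.Agent.P.MP_9c97e9_nt.K2

open scoped NNReal Matrix
open MP_8b7eba_nt.R2 KT
open Filter Topology Polynomial

namespace TLO2

variable {D : Dat} {b : GQ → EO} {g h : GQ}

theorem cb_mem (hg : g ∈ w2.D) (x t u : ℚ_[2]) :
    pF u - D.cb (pE x + pF t) g ∈ EG w2 ↔ ‖u - (D.rd g 1 1 - 1) * t‖ ≤ 1 := by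
  rw [D.cb_pair hg, ← pEF_mem (x := -(D.rd g 0 0 * x - x + D.rd g 0 1 * t)), map_neg,
    map_sub pF]
  congr! 1
  abel

theorem ni_norm (D : Dat) : ‖(D.ni : ℚ_[2])‖ = (D.ni : ℝ)⁻¹ ∧ (2 : ℝ) ≤ D.ni ∧
    (D.ni : ℚ_[2]) ≠ 0 := by
  rcases D.ni_cases with b | b <;> rw [b] <;>
    simp only [Nat.cast_ofNat, TLS2.n4, SelA.two] <;> norm_num

/-- the invariants at the top of the tower -/
theorem bound (D : Dat) : ∃ h ∈ w2.D ⊓ KI, ∀ t : ℚ_[2], ‖(D.rd h 1 1 - 1) * t‖ ≤ 1 → ‖t‖ ≤ D.ni := by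
  obtain ⟨h, hh, e⟩ := D.exists_mi
  obtain ⟨n1, n2, -⟩ := ni_norm D
  have h1 := D.near_K (g := h) ⟨hh.1, BK.KI_le 1 hh.2⟩
  rw [e, LC.v1, Nat.cast_one, mul_one] at h1
  have h2 : ‖D.rd h 1 1 - (1 + D.ni)‖ < ‖(D.ni : ℚ_[2])‖ :=
    h1.trans_lt (n1 ▸ inv_strictAnti₀ (by linarith) (by linarith))
  refine ⟨h, hh, fun t ht => ?_⟩
  rw [show D.rd h 1 1 - 1 = D.rd h 1 1 - (1 + D.ni) + D.ni by ring, norm_mul,
    IsUltrametricDist.norm_add_eq_max_of_norm_ne_norm h2.ne, max_eq_right h2.le, n1,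
    inv_mul_le_iff₀ (by linarith), mul_one] at ht
  exact ht

theorem approx (D : Dat) {t : ℚ_[2]} (ht : ‖t‖ ≤ D.ni) : ∃ m : ℤ, ‖t - m * (D.ni : ℚ_[2])⁻¹‖ ≤ 1 := by
  obtain ⟨n1, n2, n3⟩ := ni_norm D
  have h0 : (0 : ℝ) < D.ni := by linarith
  have h1 : ‖D.ni * t‖ ≤ 1 := by rwa [norm_mul, n1, inv_mul_le_iff₀ h0, mul_one]
  obtain ⟨z, hz⟩ : ∃ z : ℤ_[2], (z : ℚ_[2]) = D.ni * t := ⟨⟨_, h1⟩, rfl⟩
  obtain ⟨m, hm⟩ := (PadicInt.denseRange_intCast (p := 2)).exists_dist_lt z (inv_pos.2 h0)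
  refine ⟨m, ?_⟩
  rw [dist_eq_norm, PadicInt.norm_def, PadicInt.coe_sub, hz, PadicInt.coe_intCast] at hm
  rw [show t - m * (D.ni : ℚ_[2])⁻¹ = (D.ni : ℚ_[2])⁻¹ * (D.ni * t - m) by field_simp, norm_mul,
    norm_inv, n1, inv_mul_le_iff₀ (inv_pos.2 h0), mul_one]
  exact hm.le

/-- the cases -/
theorem cases (D : Dat) : (D.nn = 4 ∧ D.ni = 4 ∧ D.d % 8 = 1) ∨ (D.nn = 2 ∧ D.ni = 2) ∨
    (D.nn = 2 ∧ D.ni = 4 ∧ ∀ g ∈ w2.D, qz D.d g = qz 2 g) := by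
  have h := D.hd
  have s4 := st_four D.odd
  rcases D.nn_cases with ⟨a, b, -⟩ | ⟨a, b, -⟩
  · have e := D.d4.1 (by omega)
    rw [e] at h
    exact .inl ⟨b, if_pos ⟨by omega, by omega⟩, a⟩
  · by_cases k : 0 < D.e ∧ MP_8b7eba_nt.R1.st D.n % 8 = 1
    · refine .inr (.inr ⟨b, if_pos k, fun g hg => ?_⟩)
      have e : D.e = 2 := by
        rcases D.he with e | e | e | e <;> rw [e] at h <;> omega
      rw [D.qz_d, qz_D_two a_CA rfl k.2 hg, add_zero, e]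
    · exact .inr (.inl ⟨b, if_neg k⟩)

/-- the coefficient -/
noncomputable def cf (D : Dat) (g : GQ) : ℕ := if D.nn = 4 then (Ps 2 g).val else (qz 2 g).val

/-- the generator -/
noncomputable def gen (D : Dat) : GQ → EO := rs w2.D fun g => cf D g • pF (D.ni : ℚ_[2])⁻¹

theorem pF4 : 2 • pF (4 : ℚ_[2])⁻¹ = pF 2⁻¹ := by
  rw [← map_nsmul]; congr 1; norm_num

theorem cb4 (D : Dat) (g : GQ) : D.cb (pF 4⁻¹) g = (qz D.d g).val • pF 2⁻¹ := by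
  simpa [s2] using D.cb_four 0 1 g

theorem four_smul (D : Dat) : 2 ^ 2 • pF (D.ni : ℚ_[2])⁻¹ = 0 := by
  rcases D.ni_cases with b | b <;> rw [b, ← map_nsmul, pF_eq_zero] <;> norm_num
  exact SelA.two.trans_le (by norm_num)

theorem gen_mem (D : Dat) : gen D ∈ D.ZH w2.D := by
  refine rs_mem ((((a_LG.2.2.2.1 2).1.1.mono le_top).comp₂ (isCh_qz 2).1
    fun x y => (if D.nn = 4 then x.val else y.val) • pF (D.ni : ℚ_[2])⁻¹))
    (fun g hg h hh => ?_) ⟨2, fun g _ => by rw [smul_comm, four_smul, smul_zero]⟩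
  have q := (isCh_qz (H := w2.D) 2).2 g hg h hh
  have f := four_smul D
  rcases cases D with ⟨a, b, -⟩ | ⟨a, b⟩ | ⟨a, b, c⟩
  · simp only [cf, if_pos a]
    rw [map_nsmul, D.tac_nn hg (by rw [norm_inv, (ni_norm D).1, inv_inv, a, b]), ← add_smul,
      BK.Ps_mul, ZMod.val_add, ← nsmul_eq_mod_nsmul _ f]
  · simp only [cf, a, b, Nat.cast_ofNat, if_neg (show ¬ 2 = 4 by norm_num)]
    rw [map_nsmul, D.tac_two g two_pF, q, val_smul_add two_pF]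
  · have k := cb4 D g
    rw [c g hg, Dat.cb, sub_eq_iff_eq_add] at k
    simp only [cf, a, b, Nat.cast_ofNat, if_neg (show ¬ 2 = 4 by norm_num)]
    rw [map_nsmul, k, q]
    rcases LA.cases (qz 2 g) with e | e <;> rcases LA.cases (qz 2 h) with e' | e' <;>
      simp only [e, e', LC.v1, LC.two, ZMod.val_zero, zero_add, add_zero, zero_smul, one_smul]
    rw [add_left_comm, ← two_nsmul, pF4, ← two_nsmul, two_pF]

theorem gen_KI (D : Dat) (hg : g ∈ w2.D ⊓ KI) : gen D g = 0 := by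
  rw [gen, rs_of_mem hg.1, cf, BK.Ps_eq_zero.2 (BK.KI_le 2 hg.2), qz_two_KP (BK.KI_le 1 hg.2),
    ZMod.val_zero, ZMod.val_zero, ite_self, zero_smul]

theorem gen_gm (D : Dat) : gen D D.gm = pF (D.ni : ℚ_[2])⁻¹ := by
  have h : Ps 2 D.gm = 1 := by simpa using BK.Ps_pow (BK.la_gm D) 2 1
  have h' : qz 2 D.gm = 1 := (LA.cases _).resolve_left fun e => by
    have h5 := (qz_two a_EC).1 e
    rw [D.gc, show (5 : ℤ_[2]) - 1 = ((4 : ℤ) : ℤ_[2]) by norm_num,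
      show (5 : ℤ_[2]) + 1 = ((6 : ℤ) : ℤ_[2]) by norm_num, ← LA.c8] at h5
    rcases h5 with h5 | h5 <;> have := (PadicInt.pow_p_dvd_int_iff (p := 2) 3 _).1 h5 <;>
      norm_num at this
  rw [gen, rs_of_mem D.gI.1, cf, h, h', show (1 : ZMod (2 ^ 2)).val = 1 from rfl, LC.v1, ite_self,
    one_smul]

theorem ZQ_sub {c : GQ → EO} (hb : D.ZQ b) (hc : D.ZQ c) : D.ZQ (b - c) :=
  ⟨hb.sm.comp₂ hc.sm (· - ·), fun g => (hb.tp g).sub (hc.tp g), fun g hg h hh => by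
    convert sub_mem (hb.co g hg h hh) (hc.co g hg h hh) using 1
    simp only [Pi.sub_apply, map_sub]; abel⟩

theorem ZQ_cb {P : EO} (hP : Tp P) : D.ZQ (D.cb P) :=
  ⟨D.sm_cb _ P, fun g => (hP.map _).sub hP, fun g _ h _ => by rw [D.cb_mul]; simp⟩

/-- a cocycle modulo the kernel of the reduction is determined by `gm` and the tower -/
theorem close (hb : D.ZQ b) (h1 : ∀ g ∈ w2.D ⊓ KI, b g ∈ EG w2) (h0 : b D.gm ∈ EG w2)
    (hg : g ∈ w2.D) : b g ∈ EG w2 := by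
  have o : b 1 ∈ EG w2 := h1 1 (one_mem _)
  let U : Subgroup GQ :=
    { carrier := {g | g ∈ w2.D ∧ b g ∈ EG w2}
      one_mem' := ⟨one_mem _, o⟩
      mul_mem' := fun {g h} x y => ⟨mul_mem x.1 y.1, by
        simpa using add_mem (add_mem (hb.co g x.1 h y.1) (tac_EG D x.1 y.2)) x.2⟩
      inv_mem' := fun {g} x => ⟨inv_mem x.1, by
        have := hb.co _ (inv_mem x.1) g x.1
        rw [inv_mul_cancel] at this
        simpa using sub_mem o (add_mem this (tac_EG D (inv_mem x.1) x.2))⟩ }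
  obtain ⟨N, hN, e⟩ := hb.sm
  obtain ⟨m, hm⟩ := BK.small hN
  obtain ⟨s, hs, k⟩ := hm _ (BK.dec (BK.la_gm D) m g)
  have a1 : D.gm ^ (Ps m g).val ∈ U := pow_mem (show D.gm ∈ U from ⟨D.gI.1, h0⟩) _
  have a2 : s ∈ U := ⟨hs.1.1, by rw [← one_mul s, e 1 (one_mem _) s hs.1.1 hs.2]; exact o⟩
  have a3 : g * (D.gm ^ (Ps m g).val)⁻¹ * s⁻¹ ∈ w2.D :=
    mul_mem (mul_mem hg (inv_mem a1.1)) (inv_mem a2.1)
  have a4 := mul_mem (mul_mem (show _ ∈ U from ⟨a3, h1 _ ⟨a3, k⟩⟩) a2) a1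
  rw [inv_mul_cancel_right, inv_mul_cancel_right] at a4
  exact a4.2

end TLO2

open TLO2 in
theorem t_LO2 : LO2 := by
  intro D
  have hy := gen_mem D
  have gD : D.gm ∈ w2.D := D.gI.1
  obtain ⟨h, hh, bd⟩ := bound D
  obtain ⟨n1, n2, n3⟩ := ni_norm D
  refine ⟨gen D, ⟨hy, 0, tp_zero, fun g hg => by simp [gen_KI D hg, D.cb_zero]⟩,
    fun b hb ⟨P, tP, hP⟩ => ?_, fun m => ⟨fun ⟨P, tP, hP⟩ => ?_, ?_⟩⟩
  · have hc := ZQ_sub hb (ZQ_cb tP)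
    obtain ⟨x, t, e⟩ := tp_iff'.1 (hc.tp D.gm)
    have k : D.gm⁻¹ * h * D.gm⁻¹⁻¹ ∈ w2.D ⊓ KI :=
      ⟨w2.D.mul_mem (mul_mem (inv_mem gD) hh.1) (inv_mem (inv_mem gD)), BK.conj_KI.2 hh.2⟩
    have a1 := hc.co _ gD _ k.1
    rw [show D.gm * (D.gm⁻¹ * h * D.gm⁻¹⁻¹) = h * D.gm by group] at a1
    have a2 := sub_mem (add_mem (hc.co h hh.1 _ gD) (hP h hh))
      (add_mem a1 (tac_EG D gD (hP _ k)))
    have a3 : pF 0 - D.cb (pE x + pF t) h ∈ EG w2 := by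
      rw [← e]
      convert a2 using 1
      simp only [Pi.sub_apply, map_zero, Dat.cb]
      abel
    rw [cb_mem hh.1, zero_sub, norm_neg] at a3
    obtain ⟨m, hm⟩ := approx D (bd t a3)
    refine ⟨m, P, tP, fun g hg => ?_⟩
    have a4 := close (ZQ_sub hc (ZH_ZQ (zsmul_mem hy m))) (fun g hg => by
      simpa [gen_KI D hg] using hP g hg) (by
      rw [Pi.sub_apply, e, Pi.smul_apply, gen_gm, ← map_zsmul, add_sub_assoc, ← map_sub, pEF_mem,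
        zsmul_eq_mul]
      exact hm) hg
    simpa [sub_right_comm] using a4
  · obtain ⟨x, t, rfl⟩ := tp_iff'.1 tP
    have a1 := hP h hh.1
    have a2 := hP _ gD
    rw [Pi.smul_apply, gen_KI D hh, smul_zero, ← map_zero pF, cb_mem hh.1, zero_sub,
      norm_neg] at a1
    rw [Pi.smul_apply, gen_gm, ← map_zsmul, cb_mem gD, zsmul_eq_mul] at a2
    have a3 := bd t a1
    by_cases c : D.nn = 4 ∧ D.ni = 4 ∧ D.d % 8 = 1
    · rw [D.rd_I2 D.gI, sd_eq_one.2 ((qz_eq_zero D.hdl).1 (qz_D_two a_CA rfl c.2.2 gD)),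
        Int.cast_one, sub_self, zero_mul, sub_zero, norm_mul, norm_inv, n1, inv_inv, c.2.1,
        ← le_div_iff₀ (by norm_num)] at a2
      rw [c.1]
      exact (Padic.norm_int_le_pow_iff_dvd (p := 2) m 2).1 (a2.trans (by norm_num))
    · have a4 : ‖(D.rd D.gm 1 1 - 1) * t‖ ≤ 2⁻¹ * D.ni := by
        rw [norm_mul]
        exact mul_le_mul (by simpa using D.rd_two D.gm 1 1) a3 (norm_nonneg _) (by norm_num)
      have a5 := ua (a2.trans (show 1 ≤ 2⁻¹ * (D.ni : ℝ) by linarith)) a4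
      rw [sub_add_cancel, norm_mul, norm_inv, n1, inv_inv, mul_le_mul_iff_left₀ (by linarith)] at a5
      rw [show D.nn = 2 by rcases cases D with a | a | a <;> tauto]
      exact (LC.int2 m).1 a5
  · rintro ⟨k, rfl⟩
    rw [mul_comm, mul_smul, natCast_zsmul]
    refine zsmul_mem ?_ k
    have z : D.ni = D.nn → D.nn • gen D ∈ D.CS w2.D := fun e => ⟨0, tp_zero, fun g hg => by
      rw [Pi.smul_apply, gen, rs_of_mem hg, smul_comm, ← e, ← map_nsmul, nsmul_eq_mul,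
        mul_inv_cancel₀ n3, pF_eq_zero.2 norm_one.le, smul_zero, D.cb_zero, sub_zero]
      exact zero_mem _⟩
    rcases cases D with ⟨a, b, -⟩ | ⟨a, b⟩ | ⟨a, b, c⟩
    · exact z (b.trans a.symm)
    · exact z (b.trans a.symm)
    · refine ⟨pF 4⁻¹, tp_pF _, fun g hg => ?_⟩
      rw [Pi.smul_apply, gen, rs_of_mem hg, smul_comm, cb4, c g hg, cf, a, b,
        if_neg (by norm_num), Nat.cast_ofNat, pF4, sub_self]
      exact zero_mem _

end Pool.Agent.P.MP_9c97e9_nt.K2
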