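import Pool.Agent.P.MP_9c97e9_nt.K2.IfU
import Pool.Agent.P.MP_9c97e9_nt.KT.TNLPA

/-! Products of units over lines. -/

namespace Pool.Agent.P.MP_9c97e9_nt.K2

open MP_8b7eba_nt.R2 KT
open MP_8b7eba_nt.Mod (M2 UH)
open MP_8b7eba_nt.R1 (IntR IntM Int_det)
open KT.TNLP (lift crt prod_fib prod_eq)

namespace TNLP

theorem per (hUT : UT) {q M : ℕ} (hq : q ≠ 0) (hM : M ≠ 0) {b : VZ q} {v : VZ M}
    {β₁ β₂ n₁ n₂ : ℤ} (g1 : (β₁ : ZMod q) = b.1) (g2 : (β₂ : ZMod q) = b.2)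
    (h1 : (n₁ : ZMod M) = v.1) (h2 : (n₂ : ZMod M) = v.2) {z : ℂ}
    (hz : 0 < z.im) : ug q M b v z = uf q β₁ β₂ (n₁ / M) (n₂ / M) z := by
  obtain ⟨c₁, rfl⟩ := lift hq g1
  obtain ⟨c₂, rfl⟩ := lift hq g2
  obtain ⟨m, rfl⟩ := lift hM h1
  obtain ⟨n, rfl⟩ := lift hM h2
  have h0 : (M : ℚ) ≠ 0 := Nat.cast_ne_zero.2 hM
  rw [ug, ui, ← (hUT.2.1 q _ _ _ _ z hq hz).1 m n c₁ c₂]
  congr 1 <;> push_cast <;> field_simp

variable {q M p : ℕ}

theorem c1 (x : ZMod (M * p)) :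
    (ZMod.cast x : ZMod M) = ZMod.castHom (Nat.dvd_mul_right M p) (ZMod M) x := rfl

theorem c2 (x : ZMod (M * p)) :
    (ZMod.cast x : ZMod p) = ZMod.castHom (Nat.dvd_mul_left p M) (ZMod p) x := rfl

theorem ex (h : M.Coprime p) (hM : M ≠ 0) (hp : p ≠ 0) (a : ZMod M) (b : ZMod p) :
    ∃ x : ZMod (M * p), (ZMod.cast x : ZMod M) = a ∧ (ZMod.cast x : ZMod p) = b := by
  have : NeZero M := ⟨hM⟩
  have : NeZero p := ⟨hp⟩
  obtain ⟨k, h1, h2⟩ := Nat.chineseRemainder h a.val b.val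
  refine ⟨k, ?_, ?_⟩
  · rw [c1, map_natCast, (ZMod.natCast_eq_natCast_iff _ _ _).2 h1, ZMod.natCast_zmod_val]
  · rw [c2, map_natCast, (ZMod.natCast_eq_natCast_iff _ _ _).2 h2, ZMod.natCast_zmod_val]

variable [NeZero (M * p)]

theorem pm (h : M.Coprime p) (x : ZMod (M * p)) :
    (p : ZMod (M * p)) * x = 0 ↔ (ZMod.cast x : ZMod M) = 0 := by
  constructor
  · intro e
    have h1 := congrArg (ZMod.castHom (Nat.dvd_mul_right M p) (ZMod M)) e
    rw [map_mul, map_natCast, map_zero, ← c1] at h1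
    exact ((ZMod.isUnit_iff_coprime p M).2 h.symm).mul_right_eq_zero.1 h1
  · intro e
    refine crt h ?_ ?_
    · rw [c1, map_mul, ← c1 x, e, mul_zero, ZMod.cast_zero]
    · rw [c2, map_mul, map_natCast, ZMod.natCast_self, zero_mul, ZMod.cast_zero]

theorem gv (h : M.Coprime p) {y : VZ M} (hy : Gv y) {a b d : ZMod M} (ha : IsUnit a)
    {v : VZ (M * p)} (h1 : (ZMod.cast v.1 : ZMod M) = y.1 * a)
    (h2 : (ZMod.cast v.2 : ZMod M) = y.1 * (15 * b) + y.2 * d) : Gv v := by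
  have : NeZero M := ⟨left_ne_zero_of_mul (NeZero.ne (M * p))⟩
  obtain ⟨u, e1, e2, e3⟩ := hy
  rw [c1] at h1 h2
  refine ⟨p * (u.val : ZMod (M * p)), ?_, ?_, ?_⟩
  · rw [mul_assoc, Ne, pm h, c1, map_mul, map_natCast, ZMod.natCast_zmod_val, h1, ← mul_assoc,
      ha.mul_left_eq_zero]
    exact e1
  · rw [mul_assoc, mul_left_comm, pm h, c1, map_mul, map_mul, map_natCast, map_ofNat,
      ZMod.natCast_zmod_val, h1]
    linear_combination a * e2
  · rw [mul_assoc, pm h, c1, map_mul, map_natCast, ZMod.natCast_zmod_val, h2]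
    linear_combination b * e2 + d * e3

theorem caseA (hUT : UT) (hUD : UD) (hq : q ≠ 0) (h : M.Coprime p) (i : ℕ) (b : VZ q) (y : VZ M)
    (B : Finset (VZ (M * p))) (hB : ∀ v, v ∈ B ↔ (ZMod.cast v.2 : ZMod p) = 15 * i * ZMod.cast v.1 ∧
      (ZMod.cast v.1 : ZMod M) = y.1 ∧ (ZMod.cast v.2 : ZMod M) = y.1 * (15 * i) + y.2 * p)
    {z : ℂ} (hz : 0 < z.im) :
    ∏ v ∈ B, ug q (M * p) b v z = ug q M (ac4 p (-i) 0 1 b) y ((z + i) / p) := by
  classical
  have hM : M ≠ 0 := left_ne_zero_of_mul (NeZero.ne (M * p))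
  have hp : p ≠ 0 := right_ne_zero_of_mul (NeZero.ne (M * p))
  have : NeZero M := ⟨hM⟩
  have : NeZero q := ⟨hq⟩
  have key : ∀ v ∈ B, (v.1, 15 * i * v.1 + p * (y.2.val : ZMod (M * p))) = v := fun v hv => by
    obtain ⟨h1, h2, h3⟩ := (hB v).1 hv
    refine Prod.ext rfl (crt h ?_ ?_)
    · rw [h3, ← h2]
      simp only [c1, map_add, map_mul, map_natCast, map_ofNat, ZMod.natCast_zmod_val]
      ring
    · rw [h1]
      simp only [c2, map_add, map_mul, map_natCast, map_ofNat, ZMod.natCast_self, zero_mul,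
        add_zero]
  have hz' : 0 < ((z + i) / p).im := by
    rw [Complex.div_natCast_im, Complex.add_im, Complex.natCast_im, add_zero]
    positivity
  rw [Finset.prod_nbij' (t := Finset.univ.filter fun x : ZMod (M * p) => ZMod.cast x = y.1)
    (g := fun x => ug q (M * p) b (x, 15 * i * x + p * (y.2.val : ZMod (M * p))) z) Prod.fst
    (fun x => (x, 15 * i * x + p * (y.2.val : ZMod (M * p))))
    (fun v hv => Finset.mem_filter.2 ⟨Finset.mem_univ _, ((hB v).1 hv).2.1⟩) (fun x hx => ?_) key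
    (fun _ _ => rfl) fun v hv => by rw [key v hv]]
  · rw [prod_fib y.1 _ fun x => by simp, per hUT hq hM (β₁ := p * (b.1.val : ℤ))
      (β₂ := b.2.val - 15 * (i : ℤ) * b.1.val) (n₁ := y.1.val)
      (n₂ := y.2.val) (by simp [ac4, mul_comm]) (by simp [ac4]; ring) (by simp) (by simp) hz']
    have h0 : (M : ℚ) ≠ 0 := Nat.cast_ne_zero.2 hM
    have h1 : (p : ℚ) ≠ 0 := Nat.cast_ne_zero.2 hp
    have e := (hUD q p b.1.val b.2.val (y.1.val / (M * p))
      (15 * i * (y.1.val / (M * p)) + y.2.val / M) z hp hz).2.2 i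
    refine (Finset.prod_congr rfl fun j _ => ?_).trans (e.trans ?_)
    · rw [per hUT hq (NeZero.ne _) (β₁ := b.1.val) (β₂ := b.2.val) (n₁ := (y.1.val + M * j : ℕ))
        (n₂ := (15 * i * (y.1.val + M * j) + p * y.2.val : ℕ)) (by simp) (by simp)
        (Int.cast_natCast _) (by push_cast; rfl) hz]
      congr 1 <;> push_cast <;> field_simp
      ring
    · rw [Int.cast_natCast (R := ℂ)]
      congr 1 <;> push_cast
      · field_simp
      · ring
  · have h2 := (Finset.mem_filter.1 hx).2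
    rw [hB]
    refine ⟨?_, h2, ?_⟩
    · simp only [c2, map_add, map_mul, map_natCast, map_ofNat, ZMod.natCast_self, zero_mul,
        add_zero]
    · rw [← h2]
      simp only [c1, map_add, map_mul, map_natCast, map_ofNat, ZMod.natCast_zmod_val]
      ring

theorem caseB (hUT : UT) (hUD : UD) (hq : q ≠ 0) (h : M.Coprime p) (b : VZ q) (y : VZ M)
    (B : Finset (VZ (M * p))) (hB : ∀ v, v ∈ B ↔ (ZMod.cast v.1 : ZMod p) = 0 ∧
      (ZMod.cast v.1 : ZMod M) = y.1 * p ∧ (ZMod.cast v.2 : ZMod M) = y.2)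
    {z : ℂ} (hz : 0 < z.im) :
    ∏ v ∈ B, ug q (M * p) b v z = ug q M (ac4 1 0 0 p b) y (p * z) := by
  classical
  have hM : M ≠ 0 := left_ne_zero_of_mul (NeZero.ne (M * p))
  have hp : p ≠ 0 := right_ne_zero_of_mul (NeZero.ne (M * p))
  have : NeZero M := ⟨hM⟩
  have : NeZero q := ⟨hq⟩
  have key : ∀ v ∈ B, (p * (y.1.val : ZMod (M * p)), v.2) = v := fun v hv => by
    obtain ⟨h1, h2, -⟩ := (hB v).1 hv
    refine Prod.ext (crt h ?_ ?_) rfl
    · rw [h2]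
      simp only [c1, map_mul, map_natCast, ZMod.natCast_zmod_val]
      ring
    · rw [h1]
      simp only [c2, map_mul, map_natCast, ZMod.natCast_self, zero_mul]
  have hz' : 0 < ((p : ℂ) * z).im := by
    rw [← Complex.ofReal_natCast, Complex.im_ofReal_mul]
    positivity
  rw [Finset.prod_nbij' (t := Finset.univ.filter fun x : ZMod (M * p) => ZMod.cast x = y.2)
    (g := fun x => ug q (M * p) b (p * (y.1.val : ZMod (M * p)), x) z) Prod.snd
    (fun x => (p * (y.1.val : ZMod (M * p)), x))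
    (fun v hv => Finset.mem_filter.2 ⟨Finset.mem_univ _, ((hB v).1 hv).2.2⟩) (fun x hx => ?_) key
    (fun _ _ => rfl) fun v hv => by rw [key v hv]]
  · rw [prod_fib y.2 _ fun x => by simp, per hUT hq hM (β₁ := b.1.val)
      (β₂ := p * (b.2.val : ℤ)) (n₁ := y.1.val)
      (n₂ := y.2.val) (by simp [ac4]) (by simp [ac4, mul_comm]) (by simp) (by simp) hz']
    have h0 : (M : ℚ) ≠ 0 := Nat.cast_ne_zero.2 hM
    have h1 : (p : ℚ) ≠ 0 := Nat.cast_ne_zero.2 hp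
    have e := (hUD q p b.1.val b.2.val (y.1.val / M) (y.2.val / (M * p)) z hp hz).2.1
    refine (Finset.prod_congr rfl fun j _ => ?_).trans (e.trans ?_)
    · rw [per hUT hq (NeZero.ne _) (β₁ := b.1.val) (β₂ := b.2.val) (n₁ := (p * y.1.val : ℕ))
        (n₂ := (y.2.val + M * j : ℕ)) (by simp) (by simp) (by push_cast; rfl)
        (Int.cast_natCast _) hz]
      congr 1 <;> push_cast <;> field_simp
    · congr 1
      push_cast
      field_simp
  · refine (hB _).2 ⟨?_, ?_, (Finset.mem_filter.1 hx).2⟩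
    · simp only [c2, map_mul, map_natCast, ZMod.natCast_self, zero_mul]
    · simp only [c1, map_mul, map_natCast, ZMod.natCast_zmod_val]
      ring

theorem one (hFB : FB) (hTR : TR) (hUT : UT) (hUD : UD) (hEXA : EXA) (hq : q ≠ 0)
    (hM : M.Coprime q) (hp : p.Prime) (h1 : p.Coprime 15) (h2 : M.Coprime p) (h3 : p.Coprime q)
    {t : ℕ × ℕ × ℕ} (ht : t ∈ IntR p) (b : VZ q) {y : VZ M} (hy : Gv y)
    (B : Finset (VZ (M * p))) (hB : ∀ v, v ∈ B ↔ Ln p t v ∧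
      (ZMod.cast v.1 : ZMod M) = y.1 * t.1 ∧
        (ZMod.cast v.2 : ZMod M) = y.1 * (15 * t.2.1) + y.2 * t.2.2) :
    ∏ v ∈ B, Uz q (M * p) b v = pb (IntM t) (Uz q M (ac4 t.2.2 (-t.2.1) 0 t.1 b) y) := by
  have h0 : M ≠ 0 := left_ne_zero_of_mul (NeZero.ne (M * p))
  have hL : Lm (IntM t) := by
    refine ⟨?_, ?_, dvd_zero _⟩ <;> rw [Int_det hp.pos ht]
    · exact_mod_cast hp.pos
    · exact Nat.isCoprime_iff_coprime.2 h1
  have hu : IsUnit (t.1 : ZMod M) := by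
    rcases (TLNX.mem hp).1 ht with rfl | ⟨j, -, rfl⟩
    · exact (ZMod.isUnit_iff_coprime p M).2 h2.symm
    · simp
  have hI := fun v (hv : v ∈ B) =>
    ((hEXA q _ hq (NeZero.ne (M * p)) (Nat.Coprime.mul_left hM h3)).1 b v
      (gv h2 hy hu ((hB v).1 hv).2.1 ((hB v).1 hv).2.2)).1
  have hJ := (hTR.1 _ hL).2.2.2 _ ((hEXA q M hq h0 hM).1 (ac4 t.2.2 (-t.2.1) 0 t.1 b) y hy).1
  refine (prod_eq hFB B hI hJ.1 fun z hz => ?_).trans hJ.2.symm
  rcases (TLNX.mem hp).1 ht with rfl | ⟨j, -, rfl⟩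
  · rw [caseB hUT hUD hq h2 b y B (fun v => by simp [hB, Ln]) hz]
    simp [IntM, M2.act_eq, M2.j]
  · rw [caseA hUT hUD hq h2 j b y B (fun v => by simp [hB, Ln]) hz]
    simp [IntM, M2.act_eq, M2.j]

theorem main (hFB : FB) (hTR : TR) (hUT : UT) (hUD : UD) (hEXA : EXA) {c : ℕ} (hq : q ≠ 0)
    (hM : M.Coprime q) (hp : p.Prime) (hd : ¬ p ∣ 15 * M * c) (h3 : ¬ p ∣ q)
    {t : ℕ × ℕ × ℕ} (ht : t ∈ IntR p) (b : VZ q) (y : VZ M) (B : Finset (VZ (M * p)))
    (hy : Gv (c • y)) (hB : ∀ v, v ∈ B ↔ Ln p t v ∧ (ZMod.cast v.1 : ZMod M) = y.1 * t.1 ∧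
        (ZMod.cast v.2 : ZMod M) = y.1 * (15 * t.2.1) + y.2 * t.2.2) :
    ∏ v ∈ B, Uz q (M * p) b (c • v) =
      pb (IntM t) (Uz q M (ac4 t.2.2 (-t.2.1) 0 t.1 b) (c • y)) := by
  classical
  have h0 : M ≠ 0 := left_ne_zero_of_mul (NeZero.ne (M * p))
  have h1 : p.Coprime 15 := hp.coprime_iff_not_dvd.2 fun h => hd ((h.mul_right _).mul_right _)
  have h2 : M.Coprime p :=
    (hp.coprime_iff_not_dvd.2 fun h => hd ((h.mul_left _).mul_right _)).symm
  obtain ⟨e, he⟩ := ((ZMod.isUnit_iff_coprime c p).2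
    (hp.coprime_iff_not_dvd.2 fun h => hd (h.mul_left _)).symm).exists_left_inv
  have k1 : ∀ x : ZMod (M * p), (ZMod.cast (c • x) : ZMod M) = c * ZMod.cast x := fun x => by
    rw [c1, map_nsmul, nsmul_eq_mul, ← c1]
  have k2 : ∀ x : ZMod (M * p), (ZMod.cast (c • x) : ZMod p) = c * ZMod.cast x := fun x => by
    rw [c2, map_nsmul, nsmul_eq_mul, ← c2]
  rw [← one hFB hTR hUT hUD hEXA hq hM hp h1 h2 (hp.coprime_iff_not_dvd.2 h3) ht b hy
    (B.image (c • ·)) fun w => ?_, Finset.prod_image fun v hv v' hv' e' => ?_]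
  · obtain ⟨-, a1, a2⟩ := (hB v).1 hv
    obtain ⟨-, a3, a4⟩ := (hB v').1 hv'
    have a5 := congrArg (fun w : VZ (M * p) => (ZMod.cast w.1 : ZMod p)) e'
    have a6 := congrArg (fun w : VZ (M * p) => (ZMod.cast w.2 : ZMod p)) e'
    simp only [Prod.smul_fst, Prod.smul_snd, k2] at a5 a6
    refine Prod.ext (crt h2 (a1.trans a3.symm) ?_) (crt h2 (a2.trans a4.symm) ?_)
    · linear_combination e * a5 - (ZMod.cast v.1 - ZMod.cast v'.1) * he
    · linear_combination e * a6 - (ZMod.cast v.2 - ZMod.cast v'.2) * he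
  · rw [Finset.mem_image]
    simp only [Prod.smul_fst, Prod.smul_snd, nsmul_eq_mul (α := ZMod M)]
    constructor
    · rintro ⟨v, hv, rfl⟩
      obtain ⟨⟨a1, a2⟩, a3, a4⟩ := (hB v).1 hv
      simp only [Ln, Prod.smul_fst, Prod.smul_snd, k1, k2]
      exact ⟨⟨by linear_combination c * a1, by linear_combination c * a2⟩,
        by linear_combination c * a3, by linear_combination c * a4⟩
    · rintro ⟨⟨a1, a2⟩, a3, a4⟩
      obtain ⟨x, b1, b2⟩ := ex h2 h0 hp.ne_zero (y.1 * t.1) (e * ZMod.cast w.1)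
      obtain ⟨x', b3, b4⟩ := ex h2 h0 hp.ne_zero (y.1 * (15 * t.2.1) + y.2 * t.2.2)
        (e * ZMod.cast w.2)
      refine ⟨(x, x'), (hB _).2 ⟨⟨?_, ?_⟩, b1, b3⟩, Prod.ext (crt h2 ?_ ?_) (crt h2 ?_ ?_)⟩ <;>
        simp only [Prod.smul_fst, Prod.smul_snd, k1, k2, b1, b2, b3, b4]
      · linear_combination e * a1
      · linear_combination e * a2
      · linear_combination -a3
      · linear_combination ZMod.cast w.1 * he
      · linear_combination -a4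
      · linear_combination ZMod.cast w.2 * he

end TNLP

/-- products over lines, for primes not dividing the auxiliary level -/
def NLQ : Prop :=
  ∀ (q N N' p c : ℕ) [NeZero N'], q ≠ 0 → N.Coprime q → p.Prime → ¬ p ∣ 15 * N * c → ¬ p ∣ q →
    N' = N * p →
    ∀ t ∈ IntR p, ∀ (b : VZ q) (y : VZ N) (B : Finset (VZ N')), Gv (c • y) →
      (∀ v, v ∈ B ↔ Ln p t v ∧ (ZMod.cast v.1 : ZMod N) = y.1 * t.1 ∧
        (ZMod.cast v.2 : ZMod N) = y.1 * (15 * t.2.1) + y.2 * t.2.2) →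
      ∏ v ∈ B, Uz q N' b (c • v) = pb (IntM t) (Uz q N (ac4 t.2.2 (-t.2.1) 0 t.1 b) (c • y))

theorem t_NLQ (hFB : FB) (hTR : TR) (hUT : UT) (hUD : UD) (hEXA : EXA) : NLQ := by
  rintro q N _ p c _ hq hN hp hd h3 rfl t ht b y B hy hB
  exact TNLP.main hFB hTR hUT hUD hEXA hq hN hp hd h3 ht b y B hy hB

end Pool.Agent.P.MP_9c97e9_nt.K2
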