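import Pool.Agent.P.MP_9c97e9_nt.K2.BasL

/-! The comparison of the Selmer group with the Tate-Shafarevich group. -/

namespace Pool.Agent.P.MP_9c97e9_nt.K2

open scoped NNReal Matrix
open MP_8b7eba_nt.R2 KT
open MP_8b7eba_nt.R3 (twa)
open Filter Topology Polynomial

open Classical in
theorem t_SHAX (hKE : LKE) (hM : LSM) (hF : LSF) : SHAX := by
  intro D
  obtain ⟨⟨ι, hι⟩, h1, h2⟩ := hF D
  obtain ⟨h3, h4⟩ := hM D ι hι
  have tor : ∀ c : D.SelN, (QuotientAddGroup.mk ⟨_, h3 c c.2⟩ : Sha (twa D.d)) ∈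
      AddCommGroup.primaryComponent (Sha (twa D.d)) 2 := fun c => by
    obtain ⟨i, hi⟩ := c.2.1.tor
    have : 2 ^ i • (⟨_, h3 c c.2⟩ : shaCocycles (twa D.d)) = 0 := Subtype.ext (funext fun g => by
      change 2 ^ i • ι (c.1 g) = 0
      rw [← map_nsmul, hi, map_zero])
    exact (AddCommMonoid.mem_primaryComponent).2
      ⟨i, (QuotientAddGroup.mk_nsmul _ _ _).symm.trans (by rw [this]; rfl)⟩
  let Φ : D.SelN → AddCommGroup.primaryComponent (Sha (twa D.d)) 2 := fun c => ⟨_, tor c⟩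
  have sur : Function.Surjective Φ := fun ⟨x, hx⟩ => by
    obtain ⟨C, rfl⟩ := QuotientAddGroup.mk_surjective x
    obtain ⟨i, hi⟩ := (AddCommMonoid.mem_primaryComponent).1 hx
    obtain ⟨c, hc, e⟩ := h4 C C.2 i ((QuotientAddGroup.eq_zero_iff
      (N := (coboundaries (twa D.d)).addSubgroupOf (shaCocycles (twa D.d))) (2 ^ i • C)).1 hi)
    exact ⟨⟨c, hc⟩, Subtype.ext ((QuotientAddGroup.eq_iff_sub_mem
      (N := (coboundaries (twa D.d)).addSubgroupOf (shaCocycles (twa D.d)))).2 e).symm⟩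
  have inj : Finite (Pt (twa D.d) ℚ) → Function.Injective Φ := fun hf c c' e => by
    obtain ⟨R, hR⟩ := (QuotientAddGroup.eq_iff_sub_mem
      (N := (coboundaries (twa D.d)).addSubgroupOf (shaCocycles (twa D.d)))).1
      (congrArg Subtype.val e)
    obtain ⟨P, rfl⟩ := ι.surjective R
    have h5 : ∀ g, (c.1 - c'.1) g = D.cb P g := fun g => ι.injective (by
      have : pm (twa D.d) g (ι P) - ι P = ι (c.1 g) - ι (c'.1 g) := congrFun hR g
      rw [Dat.cb, Pi.sub_apply, map_sub, map_sub, ← hι, this])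
    refine Subtype.ext (sub_eq_zero.1 (h2 hf _ ((hKE D _).2
      ⟨D.SG.sub_mem ((hKE D _).1 c.2).1 ((hKE D _).1 c'.2).1, fun p hp _ => ?_⟩) P h5))
    obtain ⟨w, hw⟩ := a_PL.1 p hp
    exact ⟨w, hw, P, fun g _ => h5 g⟩
  refine ⟨⟨fun h => ⟨h1 h, ?_⟩, fun h => ?_⟩, fun h => ?_⟩
  · have := h.to_subtype
    exact Finite.of_surjective Φ sur
  · have := h.2
    exact Finite.of_injective Φ (inj h.1)
  · exact Nat.card_eq_of_bijective Φ ⟨inj (h1 h), sur⟩

end Pool.Agent.P.MP_9c97e9_nt.K2
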