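import Pool.Agent.P.MP_9c97e9_nt.K2.IfS
import Pool.Agent.P.MP_9c97e9_nt.Selmer

/-! The 2-Selmer groups of the twists of rank zero by the divisors of thirty. -/

namespace Pool.Agent.P.MP_9c97e9_nt.K2

namespace TSSEL

theorem z0_dvd : ∀ d ∈ Z0, d ∣ 30 := by decide

theorem quo {p a g : ℤ} (hp : Prime p) (hg : g ∣ a) (ha : p ∣ a) (hn : ¬ p ∣ g) : p ∣ a / g := by
  rw [← Int.mul_ediv_cancel' hg] at ha
  exact (hp.dvd_or_dvd ha).resolve_left hn

theorem small {p d : ℤ} (hp : Prime p) (hd : d ∣ 30) {c : ℤ} (k : ℕ) (hc : c ∣ 30)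
    (h : p ∣ c ^ k * d) : p ∣ 30 := by
  rcases hp.dvd_or_dvd h with h | h
  · exact (hp.dvd_of_dvd_pow h).trans hc
  · exact h.trans hd

theorem dv {d a b : ℤ} (hd : d ∣ 30) {p : ℕ} (hp : p.Prime) (h : Md p (p ^ 1) d a b) :
    ((p : ℤ) ∣ a → (p : ℤ) ∣ 30) ∧ ((p : ℤ) ∣ b → (p : ℤ) ∣ 30) := by
  have hq : Prime (p : ℤ) := Nat.prime_iff_prime_int.1 hp
  obtain ⟨u, t, r, s, v, alt, e1, e2, e3⟩ := h
  rw [pow_one] at e1 e2 e3
  have f1 := e1.dvd
  have f2 := e2.dvd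
  have f3 := e3.dvd
  have key : (p : ℤ) ∣ a → (p : ℤ) ∣ 30 := by
    intro ha
    obtain rfl : t = 1 := alt.resolve_right fun h => h.2.2 ha
    have hu : (p : ℤ) ∣ u := by
      have := (ha.mul_right (r ^ 2)).sub f1
      rwa [sub_sub_cancel] at this
    by_cases hb : (p : ℤ) ∣ b
    · refine small hq hd (c := 3) 2 (by norm_num) ?_
      exact (((hb.mul_right (s ^ 2)).sub f2).sub hu).trans (dvd_of_eq (by ring))
    · have hg : ¬ (p : ℤ) ∣ (Int.gcd a b : ℤ) := fun h => hb (h.trans (Int.gcd_dvd_right a b))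
      have h1 := quo hq (Int.gcd_dvd_left a b) ha hg
      refine small hq hd (c := 2) 4 (by norm_num) ?_
      exact (hu.sub (((h1.mul_right (b / Int.gcd a b)).mul_right (v ^ 2)).sub f3)).trans
        (dvd_of_eq (by ring))
  refine ⟨key, fun hb => ?_⟩
  by_cases ha : (p : ℤ) ∣ a
  · exact key ha
  have hg : ¬ (p : ℤ) ∣ (Int.gcd a b : ℤ) := fun h => ha (h.trans (Int.gcd_dvd_left a b))
  have h1 := quo hq (Int.gcd_dvd_right a b) hb hg
  have g2 := (hb.mul_right (s ^ 2)).sub f2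
  have g3 := ((h1.mul_left (a / Int.gcd a b)).mul_right (v ^ 2)).sub f3
  rcases alt with rfl | ⟨rfl, ht, -⟩
  · refine small hq hd (c := 5) 2 (by norm_num) ?_
    exact (g2.sub g3).trans (dvd_of_eq (by ring))
  · exact absurd ((g2.sub (ht.mul_left (9 * d * t))).trans (dvd_of_eq (by ring))) ha

theorem sg {d a b : ℝ} (ha : a ≠ 0) (hb : b ≠ 0) (h : Loc ℝ 0 (-9 * d) (16 * d) a b) :
    (0 < d → 0 < b) ∧ (d < 0 → 0 < a * b) := by
  rcases h with ⟨⟨x, h1⟩, y, h2⟩ | ⟨x, w1, w2, w3, e1, e2, e3⟩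
  · have a0 : 0 < a := lt_of_le_of_ne (h1 ▸ mul_self_nonneg x) ha.symm
    have b0 : 0 < b := lt_of_le_of_ne (h2 ▸ mul_self_nonneg y) hb.symm
    exact ⟨fun _ => b0, fun _ => mul_pos a0 b0⟩
  have neg : ∀ c w : ℝ, c * w ^ 2 < 0 → c < 0 := fun c w h => by
    by_contra hc
    exact absurd h (not_lt.2 (mul_nonneg (not_lt.1 hc) (sq_nonneg w)))
  constructor
  · intro hd
    by_contra h
    have b0 : b < 0 := lt_of_le_of_ne (not_lt.1 h) hb
    have i2 : b * w2 ^ 2 ≤ 0 := mul_nonpos_of_nonpos_of_nonneg b0.le (sq_nonneg _)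
    have a0 : a < 0 := neg a w1 (by linarith)
    have i3 : 0 ≤ a * b * w3 ^ 2 := mul_nonneg (mul_pos_of_neg_of_neg a0 b0).le (sq_nonneg _)
    linarith
  · intro hd
    by_contra h
    have i3 : a * b * w3 ^ 2 ≤ 0 := mul_nonpos_of_nonpos_of_nonneg (not_lt.1 h) (sq_nonneg _)
    have a0 : a < 0 := neg a w1 (by linarith)
    have b0 : b < 0 := neg b w2 (by linarith)
    exact h (mul_pos_of_neg_of_neg a0 b0)

end TSSEL

theorem t_SSEL (hSLIFT : SLIFT) (hSDEC : SDEC) : SSEL := by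
  intro d hd a b ha hb hr hp
  obtain ⟨a, r, sa, hr0, rfl⟩ := Sel.ex_sqfree ha
  obtain ⟨b, s, sb, hs0, rfl⟩ := Sel.ex_sqfree hb
  have hM : ∀ (p : ℕ), p.Prime → ∀ k : ℕ, Md p (p ^ k) d a b := fun p h k => by
    haveI : Fact p.Prime := ⟨h⟩
    exact hSLIFT p k d a b sa sb (Sel.scale (r := (r : ℚ_[p])) (s := (s : ℚ_[p]))
      (by exact_mod_cast hr0) (by exact_mod_cast hs0)
      (by convert hp p using 1 <;> push_cast <;> ring))
  have hR : Loc ℝ 0 (-9 * d) (16 * d) a b := Sel.scale (r := (r : ℝ)) (s := (s : ℝ))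
    (by exact_mod_cast hr0) (by exact_mod_cast hs0) (by convert hr using 1 <;> push_cast <;> ring)
  have hS := TSSEL.sg (by exact_mod_cast sa.ne_zero) (by exact_mod_cast sb.ne_zero) hR
  have h30 := TSSEL.z0_dvd d hd
  have hg := hSDEC d hd a b
    (MP_8b7eba_nt.Desc.dvd_of_sqfree sa fun p h => (TSSEL.dv h30 h (hM p h 1)).1)
    (MP_8b7eba_nt.Desc.dvd_of_sqfree sb fun p h => (TSSEL.dv h30 h (hM p h 1)).2)
    (fun h => by exact_mod_cast hS.1 (by exact_mod_cast h))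
    (fun h => by exact_mod_cast hS.2 (by exact_mod_cast h))
    (hM 2 Nat.prime_two 5) (hM 3 Nat.prime_three 4) (hM 5 Nat.prime_five 4)
  exact ⟨(a, b), hg, ⟨a * r, by ring⟩, ⟨b * s, by ring⟩⟩

end Pool.Agent.P.MP_9c97e9_nt.K2
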