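import Pool.Agent.P.MP_9c97e9_nt.K2.IfEB
import Pool.Agent.P.MP_9c97e9_nt.KT.TTRL

/-! Translation of the parameter. -/

namespace Pool.Agent.P.MP_9c97e9_nt.K2

open MP_8b7eba_nt.R2 KT
open MP_8b7eba_nt.R1 (Zb QE ze coe_ze ze_mul_neg)
open PowerSeries

theorem t_TRL (hUQ : UQ) (hEV2 : EV2) (hZMX : ZMX) : TRL := by
  intro q N b₁ b₂ b₂' i₁ i₂ i₂' j T v hq hN hNq hi hT ⟨m', hm'⟩ ⟨m, hm⟩ ⟨L, A, h1, h2⟩
  have k1 : ∀ (j : ℤ) z, ui q N b₁ b₂ i₁ i₂ z =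
      ui q N b₁ (b₂ + 15 * b₁ * j) i₁ (i₂ + 15 * i₁ * j) (z - j) := fun j z => by
    have k : ∀ j : ℤ, ui q N b₁ (b₂ + 15 * b₁ * (j + 1)) i₁ (i₂ + 15 * i₁ * (j + 1))
        (z - (j + 1 : ℤ)) = ui q N b₁ (b₂ + 15 * b₁ * j) i₁ (i₂ + 15 * i₁ * j) (z - j) := fun j => by
      rw [mul_add, mul_add, mul_one, mul_one, ← add_assoc, ← add_assoc,
        ← (hUQ q N b₁ _ i₁ _ hq hN hNq hi).1]
      congr 1
      push_cast
      ring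
    induction j using Int.induction_on with
    | zero => simp
    | succ i ih => rw [k, ih]
    | pred i ih => rw [← k, sub_add_cancel, ih]
  rw [sub_eq_iff_eq_add'.1 hm, sub_eq_iff_eq_add'.1 hm',
    (hUQ q N b₁ _ i₁ _ hq hN hNq hi).2.1] at h1
  generalize N * q = M at *
  obtain ⟨⟨f, hf⟩, h3⟩ := hEV2
  have k2 : ‖i2 (zM M j) * T‖ < 1 := by
    rw [norm_mul]
    exact mul_lt_one_of_nonneg_of_lt_one_right (hf _).2.2 (norm_nonneg _) hT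
  obtain ⟨⟨φ, h4⟩, -, h5, h6⟩ := h3 _ k2
  refine ⟨L, _, (KT.TTRL.qe j h1).congr fun z _ => k1 j z, ?_⟩
  rw [← h4, map_mul, h4, h4, h5, (h6 A).2.2.2.2.1, zM, ← mul_assoc, ← map_mul, ← (hf _).1,
    ← (hf _).1, ← (hf _).1, ← map_mul, mul_comm (ze M (-j)), ze_mul_neg, map_one, map_one, one_mul,
    ← h2, map_pow, map_pow]
  ring

end Pool.Agent.P.MP_9c97e9_nt.K2
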