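import Pool.Agent.P.MP_9c97e9_nt.K2.IfU
import Pool.Agent.P.MP_9c97e9_nt.KT.TUT

/-! Transformation of the units. -/

namespace Pool.Agent.P.MP_9c97e9_nt.K2

open MP_8b7eba_nt.Mod (M2 G0)
open MP_29cb78_nt.E (ee th0)
open MP_29cb78_nt.E.Th
open KT
open KT.TUT (shift)

namespace TUT

theorem quot {c : ℂ} (hc : c ≠ 0) {u f t : ℤ → ℂ} (hu : ∀ n, u n = c * ee (f n) * t n)
    (h : f 1 + (f 3 + f 3 + f 3) = f 2 + f 2 + f 2 + f 4) : p4 u = p4 t := by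
  have e := congrArg ee h
  simp only [ee_add] at e
  unfold p4
  rw [hu, hu, hu, hu, ← mul_div_mul_left (t 1 * t 3 ^ 3) _
    (mul_ne_zero (pow_ne_zero 3 (mul_ne_zero hc (ee_ne (f 2)))) (mul_ne_zero hc (ee_ne (f 4))))]
  congr 1
  · linear_combination c ^ 4 * t 1 * t 3 ^ 3 * e
  · ring

theorem per {τ : ℂ} (h : 0 < τ.im) (c₁ c₂ m n : ℤ) (s₁ s₂ r₁ r₂ : ℂ) :
    uF (s₁ + c₁) (s₂ + c₂) (r₁ + m) (r₂ + n) τ = uF s₁ s₂ r₁ r₂ τ := by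
  unfold uF
  refine quot one_ne_zero (fun k => (congrArg (th0 · τ) ?_).trans
    (shift h (r₁ * τ + r₂ + k * (s₁ * τ + s₂)) (m + k * c₁) (n + k * c₂))) ?_
  · push_cast; ring
  · push_cast; ring

theorem trf (hTHX : THX) (g : M2) (s₁ s₂ r₁ r₂ τ : ℂ) (hg : g.det = 1) (h : 0 < τ.im) :
    uF s₁ s₂ r₁ r₂ (g.act τ) = uF (s₁ * g.a + s₂ * g.c) (s₁ * g.b + s₂ * g.d)
      (r₁ * g.a + r₂ * g.c) (r₁ * g.b + r₂ * g.d) τ := by
  obtain ⟨c, hc, k⟩ := hTHX g hg τ h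
  have hj := M2.j_ne (g := g) (by omega) h
  have k1 : ∀ w, th0 (w / g.j τ) (g.act τ) =
      c * ee (w / g.j τ / 2 + g.c * w ^ 2 / (2 * g.j τ) + -w / 2) * th0 w τ := fun w => by
    have := k w
    rw [vth, vth, neg_div] at this
    rw [ee_add, ee_add]
    linear_combination ee (w / g.j τ / 2) * this - th0 (w / g.j τ) (g.act τ) * ee_neg_mul _
  have k2 : ∀ x y : ℂ, x * g.act τ + y =
      ((x * g.a + y * g.c) * τ + (x * g.b + y * g.d)) / g.j τ := fun x y => by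
    rw [M2.act_eq, eq_div_iff hj, add_mul, mul_assoc, div_mul_cancel₀ _ hj, M2.j]
    ring
  unfold uF
  refine quot hc (fun n => (congrArg (th0 · (g.act τ)) ?_).trans (k1 _)) ?_
  · rw [k2, k2, ← mul_div_assoc, ← add_div]
  · push_cast; ring

end TUT

open K2.TUT

theorem t_UT (hTHX : THX) : UT := by
  have h1 : ∀ (q : ℕ) (b₁ b₂ : ℤ) (r₁ r₂ : ℚ) (z : ℂ), q ≠ 0 → 0 < z.im →
      (∀ m n c₁ c₂ : ℤ,
        uf q (b₁ + q * c₁) (b₂ + q * c₂) (r₁ + m) (r₂ + n) z = uf q b₁ b₂ r₁ r₂ z) ∧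
      ∀ γ, G0 γ → uf q b₁ b₂ r₁ r₂ (γ.act z) =
        uf q (b₁ * γ.a + b₂ * (γ.c / 15)) (b₁ * (15 * γ.b) + b₂ * γ.d)
          (r₁ * γ.a + r₂ * (γ.c / 15 : ℤ)) (r₁ * (15 * γ.b) + r₂ * γ.d) z := by
    intro q b₁ b₂ r₁ r₂ z hq hz
    have hz' : 0 < (15 * z).im := by simpa using hz
    have h0 : (q : ℂ) ≠ 0 := Nat.cast_ne_zero.2 hq
    refine ⟨fun m n c₁ c₂ => ?_, fun γ hγ => ?_⟩
    · unfold uf
      rw [← per hz' c₁ c₂ m n (b₁ / q)]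
      push_cast
      congr 1 <;> field_simp
    · obtain ⟨a, b', _, d⟩ := γ
      obtain ⟨h2, c, rfl⟩ := hγ
      have h3 : 15 * M2.act ⟨a, b', 15 * c, d⟩ z = M2.act ⟨a, 15 * b', c, d⟩ (15 * z) := by
        simp only [M2.act_eq, M2.j]
        push_cast
        ring
      unfold uf
      rw [h3, trf hTHX _ _ _ _ _ _ (by simp only [M2.det] at h2 ⊢; linear_combination h2) hz']
      simp only [Int.mul_ediv_cancel_left c (show (15 : ℤ) ≠ 0 by norm_num)]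
      push_cast
      congr 1 <;> ring
  refine ⟨trf hTHX, h1, ?_⟩
  have h2 : ∀ (q N : ℕ) (b₁ b₂ i₁ i₂ : ℤ) (z : ℂ), q ≠ 0 → N ≠ 0 → 0 < z.im →
      ug q N (b₁, b₂) (i₁, i₂) z = ui q N b₁ b₂ i₁ i₂ z := by
    intro q N b₁ b₂ i₁ i₂ z hq hN hz
    haveI : NeZero q := ⟨hq⟩
    haveI : NeZero N := ⟨hN⟩
    have h0 : (N : ℚ) ≠ 0 := Nat.cast_ne_zero.2 hN
    have e : ∀ i : ℤ, (i : ℚ) / N = ((i % N : ℤ) : ℚ) / N + (i / N : ℤ) := fun i => by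
      have : (i : ℚ) = (i % N : ℤ) + N * (i / N : ℤ) := by exact_mod_cast (Int.emod_add_mul_ediv i N).symm
      field_simp
      linear_combination this
    unfold ug ui
    simp only [ZMod.val_intCast]
    rw [← (h1 q _ _ _ _ z hq hz).1 (i₁ / N) (i₂ / N) (b₁ / q) (b₂ / q), Int.emod_add_mul_ediv,
      Int.emod_add_mul_ediv, ← e, ← e]
  intro q N b₁ b₂ i₁ i₂ z hq hN hz
  refine ⟨h2 q N _ _ _ _ z hq hN hz, fun b v γ hγ => ?_⟩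
  haveI : NeZero q := ⟨hq⟩
  haveI : NeZero N := ⟨hN⟩
  have e : ∀ {M : ℕ} [NeZero M] (w : VZ M), ac4 γ.a γ.b (γ.c / 15) γ.d w =
      ((((w.1.val : ℤ) * γ.a + (w.2.val : ℤ) * (γ.c / 15) : ℤ) : ZMod M),
        (((w.1.val : ℤ) * (15 * γ.b) + (w.2.val : ℤ) * γ.d : ℤ) : ZMod M)) := fun w => by
    simp [ac4]
  rw [e, e, h2 q N _ _ _ _ z hq hN hz]
  unfold ug ui
  rw [(h1 q _ _ _ _ z hq hz).2 γ hγ]
  push_cast
  congr 1 <;> ring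

end Pool.Agent.P.MP_9c97e9_nt.K2
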