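import Pool.Agent.P.MP_9c97e9_nt.K2.IfEB
import Pool.Agent.P.MP_9c97e9_nt.KT.TCYB

/-! A unit which changes the sign of the weights. -/

namespace Pool.Agent.P.MP_9c97e9_nt.K2

open MP_8b7eba_nt.R2 KT

namespace TUZX

theorem cy_I {M : ℕ} (h : M ≠ 0) {w : Pl} (hw : ¬ w.p ∣ M) {g : GQ} (hg : g ∈ w.I) :
    cy M g = 1 :=
  Units.ext (by simpa using KT.TCYB.frob h hw (Pl.isFrob_zero.2 hg))

theorem rel {M m : ℕ} (hM : M ≠ 0) (hd : m ∣ M) (δ u : (ZMod M)ˣ) (h : ZMod.unitsMap hd u = 1) :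
    (m : ℤ) ∣ (δ : ZMod M).val - ((δ * u : (ZMod M)ˣ) : ZMod M).val := by
  have : NeZero M := ⟨hM⟩
  have h1 : ZMod.unitsMap hd (δ * u) = ZMod.unitsMap hd δ := by rw [map_mul, h, mul_one]
  have h2 := congrArg Units.val h1
  rw [ZMod.unitsMap_val, ZMod.unitsMap_val, ← ZMod.natCast_val, ← ZMod.natCast_val,
    ZMod.natCast_eq_natCast_iff] at h2
  exact h2.dvd

end TUZX

open TUZX in
theorem t_UZX (hGSX : GSX) (hZMX : ZMX) : UZX := by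
  intro D k hk
  have hM : 2 ^ (k + 2) * D.n ≠ 0 := mul_ne_zero (by positivity) D.n_ne
  have h2 : ¬ D.wz.p ∣ 2 ^ (k + 2) := fun e => D.z2
    ((Nat.prime_dvd_prime_iff_eq D.wz.prime Nat.prime_two).1 (D.wz.prime.dvd_of_dvd_pow e))
  obtain ⟨c, hc⟩ := D.zp
  have h3 : ¬ D.wz.p ∣ 2 ^ (k + 2) * c := fun e => ((Nat.Prime.dvd_mul D.wz.prime).1 e).elim h2
    fun e => D.wz.prime.prime.not_isUnit (D.sq _ (hc ▸ mul_dvd_mul_left _ e))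
  have h4 : 2 ^ (k + 2) * D.n = 2 ^ (k + 2) * c * D.wz.p := by rw [hc]; ring
  have h5 : 2 ^ (k + 2) * c ≠ 0 := fun e => hM (by rw [h4, e, zero_mul])
  have h8 : 8 * D.n ∣ 2 ^ (k + 2) * D.n :=
    Nat.mul_dvd_mul_right (pow_dvd_pow 2 (show 3 ≤ k + 2 by omega)) _
  obtain ⟨g1, g2, -⟩ := (hGSX D).2.2.2.2 _ hM h8
  refine ⟨cy _ D.z, fun δ => ⟨⟨D.wz.p, 2 ^ (k + 2) * c, D.wz.prime, D.z15, h4,
    rel hM (Dvd.intro _ h4.symm) δ _ ?_⟩, fun W => ?_⟩⟩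
  · rw [KT.TCYB.comp h5 _ hM, cy_I h5 h3 D.zI]
  · rw [Dat.cW, Dat.cW, g2, ← g1, D.sd_z, map_mul, KT.TCYB.comp (by positivity) _ hM,
      cy_I (by positivity) h2 D.zI, mul_one]
    ring

end Pool.Agent.P.MP_9c97e9_nt.K2
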